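import Pool.Agent.Work.MP_8d13b5_lc.LG.Stmts
import Pool.Agent.Work.MP_8d13b5_lc.Rk.Code

/-!
# MP_8d13b5_lc, block LG, part A: the algorithm (captain helper1)

Input `x = (c, x₀) : List ℤ × List ℤ` (`US.Code`), `val x n` = the `n`-th term (`Algo.lean`),
`Rk.charPoly c` = the characteristic polynomial.  `val` is primitive recursive (`primrec_val`).
-/

set_option autoImplicit false

open Polynomial

namespace Pool.Agent.Work.MP_8d13b5_lc.LG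

/-- the vector of the first `d` entries -/
def vec (d : ℕ) (y : List ℤ) : Fin d → ℤ := fun i => y.getD i 0

/-- the `i`-th unit vector of length `d` -/
def bas (d i : ℕ) : List ℤ := (List.range d).map fun j => if j = i then 1 else 0

/-- the last coefficient `c_d` -/
def cd (c : List ℤ) : ℤ := c.getD (c.length - 1) 0

/-- check of `IsoAt` for `q = (p, r, k, μ)` -/
def ChI (c : List ℤ) (q : ℕ × ℕ × ℕ × ℤ) : Prop :=
  q.1.Prime ∧ 3 ≤ q.1 ∧ ¬ (q.1 : ℤ) ∣ cd c ∧ 1 ≤ q.2.1 ∧ 1 ≤ q.2.2.1 ∧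
    ∀ i < c.length, ((q.1 ^ q.2.2.1 : ℕ) : ℤ) ∣
      val (c, bas c.length i) q.2.1 - (if i = 0 then q.2.2.2 else 0)

/-- check of a certificate -/
def ChC (c y : List ℤ) (T : ℕ) (Q : List (ℕ × ℕ × ℕ × ℤ)) : Prop :=
  1 ≤ T ∧ (∀ q ∈ Q, ChI c q ∧ q.2.1 ∣ T ∧
    ∀ n < c.length, (q.1 : ℤ) ∣ val (c, y) (n + T) - val (c, y) n) ∧
  ∀ m < T + 1, 1 ≤ m →
    (∃ q ∈ Q, ¬ (q.1 : ℤ) ∣ val (c, y) m) ∨
    (∃ q ∈ Q, q.2.1 ∣ m ∧ ¬ ((q.1 ^ (q.2.2.1 + 1) : ℕ) : ℤ) ∣ val (c, y) q.2.1)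

/-- the data `(j, s, y, T, Q)` of a certificate for a zero at `-j` -/
abbrev Dat : Type := ℕ × ℤ × List ℤ × ℕ × List (ℕ × ℕ × ℕ × ℤ)

/-- check of the data -/
def Ch (x : List ℤ × List ℤ) (D : Dat) : Prop :=
  D.2.2.1.length = x.1.length ∧ 1 ≤ D.1 ∧ D.2.1 ≠ 0 ∧
    (∀ n < x.1.length, val (x.1, D.2.2.1) (n + D.1) = D.2.1 * val x n) ∧
    val (x.1, D.2.2.1) 0 = 0 ∧ ChC x.1 D.2.2.1 D.2.2.2.1 D.2.2.2.2

/-- check of a modulus -/
def ChM (x : List ℤ × List ℤ) (m : ℕ) : Prop :=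
  2 ≤ m ∧ Int.gcd (cd x.1) m = 1 ∧ ∀ i < m ^ x.1.length, ¬ (m : ℤ) ∣ val x i

/-- [Rel] EASY-MEDIUM (hLin : StLin).  `u_n = pr d (W f n) x` satisfies the recurrence
(`StLin`, `f ∣ X^n f`, `Rk.charPoly_coeff`) and has the initial values `x` (`W f i = X^i` for `i < d`);
so does `val (c, x)` (`US.val_init`, `US.val_rec`, or `US.eq_val`; for `cd c = 0` redo it with
`exists_code`/`val_code`, or assume `cd c ≠ 0` as stated). -/
def StRel : Prop := ∀ (c x : List ℤ), US.valid (c, x) → ∀ n : ℕ,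
  val (c, x) n = pr c.length (W (Rk.charPoly c) n) (vec c.length x)

/-- [Mod] EASY.  `mkSol_mod_early` and `US.exists_code` (a valid input is `code E v`), as in
`obst_code`. -/
def StMod : Prop := ∀ (x : List ℤ × List ℤ), US.valid x → ∀ m : ℕ,
  ChM x m ↔ (2 ≤ m ∧ Int.gcd (cd x.1) m = 1 ∧ ∀ n, ¬ (m : ℤ) ∣ val x n)

/-- [Md] EASY (hRel : StRel).  Not bad gives a modulus: `P` with good primes and `MP P ∤ u_n` for all
`n`; `MP P ≥ 2` (`1` divides everything, primes are positive) and prime to `f(0) = - cd c`. -/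
def StMd : Prop := ∀ (c x : List ℤ), US.valid (c, x) →
  ¬ Bad (Rk.charPoly c) (vec (Rk.charPoly c).natDegree x) →
  ∃ m : ℕ, 2 ≤ m ∧ Int.gcd (cd c) m = 1 ∧ ∀ n, ¬ (m : ℤ) ∣ val (c, x) n

/-- [ChI] EASY-MEDIUM (hRel : StRel) (hLin : StLin).  `f ∣ X^r - μ - p^k N` for some `N` iff `p^k` divides all
coefficients of `W f r - μ` in degrees `< d` (`N` = the quotient; conversely
`W f r - μ = p^k (N %ₘ f)`, `d ≥ 1`); the `i`-th coefficient of `W f r` is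
`pr d (W f r) (unit vector i) = val (c, bas d i) r` (`StRel`).
`f(0) = - cd c` (`Rk.charPoly_coeff`). -/
def StChI : Prop := ∀ (c : List ℤ), c ≠ [] → cd c ≠ 0 → ∀ q : ℕ × ℕ × ℕ × ℤ,
  ChI c q ↔ IsoAt (Rk.charPoly c) q.1 q.2.1 q.2.2.1 q.2.2.2

/-- [ChC] EASY-MEDIUM (hRel : StRel) (hChI : StChI).  Use `StRel`, `StChI`; the sequence
`val (c, y) (n + T) - val (c, y) n` satisfies the recurrence, so it is divisible by `p` for all `n` if it
is for `n < d` (strong induction with `US.val_rec`). -/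
def StChC : Prop := ∀ (c y : List ℤ), US.valid (c, y) →
  (Cert (Rk.charPoly c) (vec (Rk.charPoly c).natDegree y) ↔
    ∃ (T : ℕ) (Q : List (ℕ × ℕ × ℕ × ℤ)), ChC c y T Q)

/-- [Ch] EASY-MEDIUM (hRel : StRel) (hChC : StChC).  `y : Fin d → ℤ` corresponds to the list `List.ofFn y`
(`vec d (List.ofFn y) = y`); `val (c, y) (n + j)` and `s * val x n` satisfy the same recurrence, so
they are equal for all `n` iff for `n < d`. -/
def StCh : Prop := ∀ (c x : List ℤ), US.valid (c, x) →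
  (Cert' (Rk.charPoly c) (vec (Rk.charPoly c).natDegree x) ↔ ∃ D : Dat, Ch (c, x) D)

/-- [PrI] EASY-MEDIUM.  Primality: `2 ≤ p ∧ ∀ e < p, 2 ≤ e → ¬ p % e = 0`.  Divisibility of integers:
`natAbs % = 0`.  `primrec_val`, `primrec_pow`, `US.rel_forall_lt`, `primrec_int_mul`,
`primrec_int_add`, `primrec_natAbs`; `bas` is a `list_map`. -/
def StPrI : Prop := PrimrecRel ChI

/-- [PrC] EASY-MEDIUM (hPrI : StPrI).  `PrimrecRel.forall_mem_list`, `PrimrecRel.exists_mem_list`,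
`US.rel_forall_lt`. -/
def StPrC : Prop := PrimrecPred (fun z : (List ℤ × List ℤ) × ℕ × List (ℕ × ℕ × ℕ × ℤ) =>
  ChC z.1.1 z.1.2 z.2.1 z.2.2)

/-- [PrD] EASY (hPrC : StPrC). -/
def StPrD : Prop := PrimrecRel Ch

/-- [PrM] EASY.  `Int.gcd (cd c) m = 1 ↔ ∀ e < m + 1, m % e = 0 → (cd c).natAbs % e = 0 → e = 1` for
`m ≥ 2`. -/
def StPrM : Prop := PrimrecRel ChM

/-- [Srch] EASY-MEDIUM.  The search: for `k = 0, 1, 2, ..`: if `val x k = 0` output `(0, k)`; if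
`ChM x k` output `(1, k)`; if `k` codes `D : Dat` with `Ch x D` output `(2, D.1)`.
`A x = Nat.rfindOpt (test x)` for valid `x`, see `search`, `primrec_test`, `search_spec` in `Algo.lean`
and `primrec_G` in `USComp.lean` for `decode`. -/
def StSrch : Prop := StPrD → StPrM → ∃ A : List ℤ × List ℤ →. ℕ × ℕ, Partrec A ∧
  ∀ x, (∀ w ∈ A x, (w.1 = 0 ∧ val x w.2 = 0) ∨ (w.1 = 1 ∧ ChM x w.2) ∨
      (w.1 = 2 ∧ ∃ D : Dat, D.1 = w.2 ∧ Ch x D)) ∧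
    (((∃ n, val x n = 0) ∨ (∃ m, ChM x m) ∨ ∃ D : Dat, Ch x D) → (A x).Dom)

/-- THEOREM LG.  One algorithm, never wrong, which for every simple recurrence halts on all but
`ε H^(d-1)` of the initial vectors in the box. -/
def LGThm : Prop := ∃ A : List ℤ × List ℤ →. ℕ × ℕ, Partrec A ∧
  (∀ (c x : List ℤ) (u : ℕ → ℤ), 1 ≤ c.length → x.length = c.length →
    c.getD (c.length - 1) 0 ≠ 0 → (∀ i < c.length, u i = x.getD i 0) →
    (∀ n, u (n + c.length) =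
      ∑ j ∈ Finset.range c.length, c.getD j 0 * u (n + c.length - 1 - j)) →
    ∀ w ∈ A (c, x),
      (w.1 = 0 ∧ u w.2 = 0) ∨
      (w.1 = 1 ∧ 2 ≤ w.2 ∧ Int.gcd (c.getD (c.length - 1) 0) w.2 = 1 ∧
        ∀ n, ¬ (w.2 : ℤ) ∣ u n) ∨
      (w.1 = 2 ∧ 1 ≤ w.2 ∧ (∀ n, u n ≠ 0) ∧ ∃ (s : ℤ) (v : ℕ → ℤ), s ≠ 0 ∧ v 0 = 0 ∧
        (∀ n, v (n + c.length) =
          ∑ j ∈ Finset.range c.length, c.getD j 0 * v (n + c.length - 1 - j)) ∧
        ∀ n, v (n + w.2) = s * u n)) ∧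
  ∀ c : List ℤ, 1 ≤ c.length → c.getD (c.length - 1) 0 ≠ 0 →
    (X ^ c.length - ∑ j ∈ Finset.range c.length,
      C ((c.getD j 0 : ℤ) : ℚ) * X ^ (c.length - 1 - j) : ℚ[X]).Separable →
    ∀ ε : ℝ, 0 < ε → ∃ H0 : ℕ, ∀ H : ℕ, H0 ≤ H →
      (Set.ncard {x : Fin c.length → ℤ | (∀ i, |x i| ≤ H) ∧
        ¬ (A (c, List.ofFn x)).Dom} : ℝ) ≤ ε * (H : ℝ) ^ (c.length - 1)

/-- [Snd] EASY-MEDIUM (hMod : StMod) (hCh : StCh) (hSou : StSou) (hRel : StRel).  Soundness of the outputs.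
`u = val (c, x)` (`US.eq_val`).  `(2, j)`: `v = val (c, y)`; `Ch` gives `v (n + j) = s u n` for all `n` and
`v 0 = 0`, `v` satisfies the recurrence (`US.val_rec`); `StSou` (with `StChC`/`StCh` giving `Cert`): `v m ≠ 0` for
`m ≥ 1`, so `s u n = v (n + j) ≠ 0`. -/
def StSnd : Prop := ∀ (c x : List ℤ) (u : ℕ → ℤ), 1 ≤ c.length → x.length = c.length →
    c.getD (c.length - 1) 0 ≠ 0 → (∀ i < c.length, u i = x.getD i 0) →
    (∀ n, u (n + c.length) =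
      ∑ j ∈ Finset.range c.length, c.getD j 0 * u (n + c.length - 1 - j)) →
    u = val (c, x) ∧ (∀ m, ChM (c, x) m → 2 ≤ m ∧ Int.gcd (c.getD (c.length - 1) 0) m = 1 ∧
        ∀ n, ¬ (m : ℤ) ∣ u n) ∧
    ∀ D : Dat, Ch (c, x) D → 1 ≤ D.1 ∧ (∀ n, u n ≠ 0) ∧ ∃ (s : ℤ) (v : ℕ → ℤ), s ≠ 0 ∧ v 0 = 0 ∧
        (∀ n, v (n + c.length) =
          ∑ j ∈ Finset.range c.length, c.getD j 0 * v (n + c.length - 1 - j)) ∧
        ∀ n, v (n + D.1) = s * u n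

/-- [CntA] EASY-MEDIUM (hTot : StTot) (hMd : StMd) (hMod : StMod) (hCh : StCh) (hRel : StRel).
The count for the recurrence `c`: `f = Rk.charPoly c`, `Ok f` (the image in `ℚ[X]` is the displayed
polynomial, reflect the sum), `natDegree = d`.  If no zero, no modulus (`ChM`), no `D` with `Ch`, then
`Bad f x` (`StMd`, `StMod`), `pr (W n) x ≠ 0` (`StRel`), `¬ Cert' f x` (`StCh`); `StTot`.  The box
`|x i| ≤ H` is `Bx d H`.  (Generalize `d = f.natDegree`: `obtain ⟨d, hd⟩`, state a lemma for all `d` with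
`f.natDegree = d` and `subst`.) -/
def StCntA : Prop := ∀ c : List ℤ, 1 ≤ c.length → c.getD (c.length - 1) 0 ≠ 0 →
    (X ^ c.length - ∑ j ∈ Finset.range c.length,
      C ((c.getD j 0 : ℤ) : ℚ) * X ^ (c.length - 1 - j) : ℚ[X]).Separable →
    ∀ ε : ℝ, 0 < ε → ∃ H0 : ℕ, ∀ H : ℕ, H0 ≤ H →
      (Set.ncard {x : Fin c.length → ℤ | (∀ i, |x i| ≤ H) ∧
        (∀ n, val (c, List.ofFn x) n ≠ 0) ∧ (∀ m, ¬ ChM (c, List.ofFn x) m) ∧
        ∀ D : Dat, ¬ Ch (c, List.ofFn x) D} : ℝ) ≤ ε * (H : ℝ) ^ (c.length - 1)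

/-- [Fin] EASY (hSrch : StSrch) (hPrD : StPrD) (hPrM : StPrM) (hSnd : StSnd) (hCntA : StCntA).
Assembly. -/
def StFin : Prop := StSrch → StPrD → StPrM → StSnd → StCntA → LGThm

end Pool.Agent.Work.MP_8d13b5_lc.LG
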