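import Pool.Agent.Work.MP_8d13b5_lc.LG.StmtsS

/-!
# MP_8d13b5_lc, block LG, part S, item FA: the period
-/

set_option autoImplicit false

open Polynomial Filter Topology NumberField Finset
open Pool.Agent.Work.MP_8d13b5_lc.Ex2.Sel

namespace Pool.Agent.Work.MP_8d13b5_lc.LG

namespace IFA

/-- the common multiple -/
def M (y z : ℕ) : ℕ := ∏ q ∈ (Icc 1 z).filter Nat.Prime, q ^ Nat.log q (2 * y)

theorem M_le (y z : ℕ) (hy : 1 ≤ y) : M y z ≤ (2 * y) ^ z := by
  unfold M
  refine (Finset.prod_le_pow_card _ _ (2 * y) fun q _ => Nat.pow_log_le_self q (by omega)).trans ?_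
  refine Nat.pow_le_pow_right (by omega) ?_
  refine (card_filter_le _ _).trans ?_
  rw [Nat.card_Icc]
  omega

theorem M_pos (y z : ℕ) : 0 < M y z := by
  unfold M
  refine Finset.prod_pos fun q hq => ?_
  have := (mem_filter.1 hq).2.pos
  positivity

theorem dvd_M (y z n : ℕ) (hn : n ≠ 0) (hny : n ≤ 2 * y)
    (h : ∀ q : ℕ, q.Prime → q ∣ n → q ≤ z) : n ∣ M y z := by
  have h1 : ∏ q ∈ n.primeFactors, q ^ n.factorization q = n := by
    have := Nat.prod_factorization_pow_eq_self hn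
    rwa [Finsupp.prod, Nat.support_factorization] at this
  rw [← h1]
  unfold M
  refine dvd_trans (Finset.prod_dvd_prod_of_dvd _ (fun q => q ^ Nat.log q (2 * y)) ?_)
    (Finset.prod_dvd_prod_of_subset _ _ _ ?_)
  · intro q hq
    have hqp := Nat.prime_of_mem_primeFactors hq
    refine pow_dvd_pow q ?_
    refine Nat.le_log_of_pow_le hqp.one_lt ?_
    exact (Nat.le_of_dvd (Nat.pos_of_ne_zero hn) (Nat.ordProj_dvd n q)).trans hny
  · intro q hq
    have hqp := Nat.prime_of_mem_primeFactors hq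
    have hqd := Nat.dvd_of_mem_primeFactors hq
    exact mem_filter.2 ⟨mem_Icc.2 ⟨hqp.one_lt.le, h q hqp hqd⟩, hqp⟩

end IFA

theorem pr_FA : StFA := by
  intro P y z hy h
  refine le_trans (Nat.le_of_dvd (IFA.M_pos y z) ?_) (IFA.M_le y z hy)
  unfold TP
  refine Finset.lcm_dvd fun p hp => ?_
  obtain ⟨h2, h3, h4⟩ := h p hp
  exact IFA.dvd_M y z (p - 1) (by omega) (by omega) h4

end Pool.Agent.Work.MP_8d13b5_lc.LG
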