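import Pool.Agent.Work.MP_8d13b5_lc.LG.StmtsS

/-!
# MP_8d13b5_lc, block LG, part S, item FB: the supply of moduli with a small period
-/

set_option autoImplicit false

open Polynomial Filter Topology NumberField Finset
open Pool.Agent.Work.MP_8d13b5_lc.Ex2.Sel

namespace Pool.Agent.Work.MP_8d13b5_lc.LG

namespace IFB

/-- the choice of `x` -/
noncomputable def X (c e' Z : ℝ) : ℝ := (4 / c * Real.log Z) ^ (1 / (1 - e'))

theorem X_tendsto {c e' : ℝ} (hc : 0 < c) (he : e' < 1) : Tendsto (X c e') atTop atTop := by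
  unfold X
  refine (tendsto_rpow_atTop (y := 1 / (1 - e')) ?_).comp ?_
  · have : 0 < 1 - e' := by linarith
    positivity
  · exact Real.tendsto_log_atTop.const_mul_atTop (by positivity)

theorem X_pow {c e' Z : ℝ} (hc : 0 < c) (he : e' < 1) (hZ : 1 ≤ Z) :
    (X c e' Z) ^ (1 - e') = 4 / c * Real.log Z := by
  unfold X
  have h1 : 1 - e' ≠ 0 := by linarith
  rw [← Real.rpow_mul, one_div_mul_cancel h1, Real.rpow_one]
  have := Real.log_nonneg hZ
  positivity

/-- the logarithm is small -/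
theorem log_small {e δ c : ℝ} (he : 0 < e) (hδ : 0 < δ) (hc : 0 < c) :
    ∀ᶠ x : ℝ in atTop, Real.log (2 * x) ≤ δ * (c / 4) * x ^ (e / 2) := by
  have h1 := (isLittleO_log_rpow_atTop (r := e / 2) (by positivity)).bound
    (c := δ * c / 8) (by positivity)
  filter_upwards [h1, eventually_ge_atTop (2 : ℝ)] with x hx hx2
  have hx0 : 0 < x := by linarith
  have h3 : 0 ≤ x ^ (e / 2) := Real.rpow_nonneg hx0.le _
  rw [Real.norm_of_nonneg h3] at hx
  have h4 := (Real.le_norm_self (Real.log x)).trans hx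
  have h5 : Real.log 2 ≤ Real.log x := Real.log_le_log (by norm_num) hx2
  rw [Real.log_mul (by norm_num) hx0.ne']
  calc Real.log 2 + Real.log x ≤ 2 * Real.log x := by linarith
    _ ≤ 2 * (δ * c / 8 * x ^ (e / 2)) := by linarith
    _ = _ := by ring

/-- the logarithm of the modulus -/
theorem log_MP (P : Finset ℕ) (y : ℕ) (hy : 1 ≤ y) (h : ∀ p ∈ P, y < p) :
    (P.card : ℝ) * Real.log y ≤ Real.log (MP P : ℝ) := by
  unfold MP
  push_cast
  rw [Real.log_prod (fun p hp => by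
    have := h p hp
    have h2 : p ≠ 0 := by omega
    exact_mod_cast h2), ← nsmul_eq_mul]
  refine Finset.card_nsmul_le_sum _ _ _ fun p hp => ?_
  refine Real.log_le_log (by exact_mod_cast hy) ?_
  exact_mod_cast (h p hp).le

end IFB

theorem pr_FB : StFB := by
  classical
  rintro hGE ⟨C, hC, hSE⟩ hFA f hf hsep h0 B δ hδ
  obtain ⟨c, hc, hGE'⟩ := hGE f hf hsep h0
  obtain ⟨e, he⟩ : ∃ e, e = min (1 / 2) (c / (2 * C)) := ⟨_, rfl⟩
  have he0 : 0 < e := by rw [he]; exact lt_min (by norm_num) (by positivity)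
  have he1 : e ≤ 1 / 2 := by rw [he]; exact min_le_left _ _
  have he2 : C * e ≤ c / 2 := by
    have h1 : e ≤ c / (2 * C) := by rw [he]; exact min_le_right _ _
    calc C * e ≤ C * (c / (2 * C)) := mul_le_mul_of_nonneg_left h1 hC.le
      _ = c / 2 := by field_simp
  obtain ⟨x0, hx0⟩ := hGE' B (e / 2) (by positivity) (by linarith)
  obtain ⟨y0, hy0⟩ := hSE e he0 he1
  have hX : Tendsto (IFB.X c (e / 2)) atTop atTop := IFB.X_tendsto hc (by linarith)
  have hXp : Tendsto (fun x : ℝ => x ^ (1 - e / 2)) atTop atTop :=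
    tendsto_rpow_atTop (by linarith)
  have ev1 := hX.eventually (eventually_ge_atTop x0)
  have ev2 := hX.eventually (hXp.eventually (eventually_ge_atTop (2 * ((y0 : ℝ) + 2))))
  have ev3 := hX.eventually (IFB.log_small he0 hδ hc)
  have ev4 := hX.eventually (eventually_ge_atTop (1 : ℝ))
  obtain ⟨Z0, hZ0⟩ := eventually_atTop.1
    ((((ev1.and ev2).and ev3).and ev4).and (eventually_ge_atTop (1 : ℝ)))
  refine ⟨Z0, fun Z hZ => ?_⟩
  obtain ⟨⟨⟨⟨hZ1, hZ2⟩, hZ3⟩, hZ4⟩, hZ5⟩ := hZ0 Z hZ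
  have hpow := IFB.X_pow (e' := e / 2) hc (by linarith) hZ5
  obtain ⟨x, hx⟩ : ∃ x, x = IFB.X c (e / 2) Z := ⟨_, rfl⟩
  rw [← hx] at hZ1 hZ2 hZ3 hZ4 hpow
  obtain ⟨y, hy1, hy2, hy3⟩ := hx0 x hZ1
  have hyr : (y0 : ℝ) + 2 ≤ y := by
    have : (y0 : ℝ) + 2 ≤ x ^ (1 - e / 2) / 2 := by
      have := hZ2
      linarith
    linarith
  have hyn : y0 + 2 ≤ y := by exact_mod_cast hyr
  have hy2' : (2 : ℝ) ≤ y := by exact_mod_cast (by omega : 2 ≤ y)
  have hlogy : 0 < Real.log y := Real.log_pos (by linarith)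
  have hSEy := hy0 y (by omega)
  obtain ⟨S, hS⟩ : ∃ S : Finset ℕ, S = (Ioc y (2 * y)).filter (fun p => Good f p ∧ B < p) :=
    ⟨_, rfl⟩
  have hSc : c * y / Real.log y ≤ (S.card : ℝ) := by
    rw [hS]
    convert hy3
  obtain ⟨bad, hbad⟩ : ∃ bad : ℕ → Prop, bad = fun p => ∃ q : ℕ, q.Prime ∧ q ∣ p - 1 ∧
    (y : ℝ) ^ (1 - e) < (q : ℝ) := ⟨_, rfl⟩
  have hbadc : ((S.filter bad).card : ℝ) ≤ C * e * y / Real.log y := by
    refine le_trans ?_ hSEy
    rw [← Set.ncard_coe_finset]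
    refine Nat.cast_le.2 (Set.ncard_le_ncard ?_ ?_)
    · intro p hp
      have hp' := Finset.mem_filter.1 (Finset.mem_coe.1 hp)
      have hp1 := hp'.1
      rw [hS, Finset.mem_filter] at hp1
      refine ⟨hp1.1, hp1.2.1.1, ?_⟩
      have := hp'.2
      rw [hbad] at this
      exact this
    · exact (Finset.finite_toSet (Ioc y (2 * y))).subset fun p hp => hp.1
  have hsplit := card_filter_add_card_filter_not (s := S) bad
  have hPc : c / 2 * y / Real.log y ≤ ((S.filter (fun p => ¬ bad p)).card : ℝ) := by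
    have h1 : ((S.filter (fun p => ¬ bad p)).card : ℝ) = (S.card : ℝ) - (S.filter bad).card := by
      rw [← hsplit]
      push_cast
      ring
    rw [h1]
    have h2 : C * e * y / Real.log y ≤ c / 2 * y / Real.log y := by
      refine div_le_div_of_nonneg_right ?_ hlogy.le
      exact mul_le_mul_of_nonneg_right he2 (by positivity)
    have h3 : c * y / Real.log y = c / 2 * y / Real.log y + c / 2 * y / Real.log y := by ring
    linarith
  refine ⟨S.filter (fun p => ¬ bad p), ?_, ?_, ?_⟩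
  · intro p hp
    have hp1 := (Finset.mem_filter.1 hp).1
    rw [hS, Finset.mem_filter] at hp1
    exact hp1.2
  · have h1 := IFB.log_MP (S.filter (fun p => ¬ bad p)) y (by omega) (by
      intro p hp
      have hp1 := (Finset.mem_filter.1 hp).1
      rw [hS, Finset.mem_filter, Finset.mem_Ioc] at hp1
      exact hp1.1.1)
    have h2 : c / 2 * y ≤ Real.log (MP (S.filter (fun p => ¬ bad p)) : ℝ) := by
      refine le_trans ?_ h1
      have h3 := mul_le_mul_of_nonneg_right hPc hlogy.le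
      rwa [div_mul_cancel₀ _ hlogy.ne'] at h3
    have h4 : Real.log Z ≤ c / 2 * y := by
      have h5 : Real.log Z = c / 4 * x ^ (1 - e / 2) := by
        rw [hpow]
        field_simp
      rw [h5]
      have h6 := mul_le_mul_of_nonneg_left hy1 (by positivity : 0 ≤ c / 2)
      linarith
    have hMPpos : 0 < (MP (S.filter (fun p => ¬ bad p)) : ℝ) := by
      unfold MP
      push_cast
      refine Finset.prod_pos fun p hp => ?_
      have hp1 := (Finset.mem_filter.1 hp).1
      rw [hS, Finset.mem_filter, Finset.mem_Ioc] at hp1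
      exact_mod_cast (by omega : 0 < p)
    exact (Real.log_le_log_iff (by linarith) hMPpos).1 (h4.trans h2)
  · have hFA' := hFA (S.filter (fun p => ¬ bad p)) y ⌊(y : ℝ) ^ (1 - e)⌋₊ (by omega) (by
      intro p hp
      obtain ⟨hp1, hp2⟩ := Finset.mem_filter.1 hp
      rw [hS, Finset.mem_filter, Finset.mem_Ioc] at hp1
      refine ⟨by omega, hp1.1.2, fun q hq hqd => ?_⟩
      refine Nat.le_floor ?_
      by_contra hcon
      apply hp2
      rw [hbad]
      exact ⟨q, hq, hqd, not_le.1 hcon⟩)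
    have h1 : (TP (S.filter (fun p => ¬ bad p)) : ℝ) ≤ (2 * (y : ℝ)) ^ ⌊(y : ℝ) ^ (1 - e)⌋₊ := by
      exact_mod_cast hFA'
    refine h1.trans ?_
    have hy2pos : (0 : ℝ) < 2 * y := by linarith
    have hZpos : 0 < Z := by linarith
    have hxpos : 0 < x := by linarith
    have hexp : (2 * (y : ℝ)) ^ ⌊(y : ℝ) ^ (1 - e)⌋₊ =
        Real.exp ((⌊(y : ℝ) ^ (1 - e)⌋₊ : ℝ) * Real.log (2 * (y : ℝ))) := by
      rw [Real.exp_nat_mul, Real.exp_log hy2pos]
    rw [hexp, Real.rpow_def_of_pos hZpos]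
    refine Real.exp_le_exp.2 ?_
    have h2 : (⌊(y : ℝ) ^ (1 - e)⌋₊ : ℝ) ≤ x ^ (1 - e) := by
      refine (Nat.floor_le (Real.rpow_nonneg (by positivity) _)).trans ?_
      exact Real.rpow_le_rpow (by positivity) hy2 (by linarith)
    have h3 : Real.log (2 * (y : ℝ)) ≤ Real.log (2 * x) :=
      Real.log_le_log hy2pos (by linarith)
    have h4 : 0 ≤ Real.log (2 * (y : ℝ)) := Real.log_nonneg (by linarith)
    have h5 : 0 ≤ x ^ (1 - e) := Real.rpow_nonneg hxpos.le _
    have h6 : x ^ (1 - e) * x ^ (e / 2) = x ^ (1 - e / 2) := by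
      rw [← Real.rpow_add hxpos]
      congr 1
      ring
    calc (⌊(y : ℝ) ^ (1 - e)⌋₊ : ℝ) * Real.log (2 * (y : ℝ))
        ≤ x ^ (1 - e) * Real.log (2 * x) := mul_le_mul h2 h3 h4 h5
      _ ≤ x ^ (1 - e) * (δ * (c / 4) * x ^ (e / 2)) := mul_le_mul_of_nonneg_left hZ3 h5
      _ = δ * (c / 4) * (x ^ (1 - e) * x ^ (e / 2)) := by ring
      _ = δ * (c / 4) * (4 / c * Real.log Z) := by rw [h6, hpow]
      _ = Real.log Z * δ := by field_simp

end Pool.Agent.Work.MP_8d13b5_lc.LG
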