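import Pool.Agent.Work.MP_8d13b5_lc.LG.StmtsS

/-!
# MP_8d13b5_lc, block LG, item GA: the number of homomorphisms to a prime field
-/

set_option autoImplicit false

open Polynomial Filter Topology NumberField Finset

namespace Pool.Agent.Work.MP_8d13b5_lc.LG

namespace IGA

/-- The values on an integral basis are linearly independent. -/
theorem indep {K : Type} [Field K] [NumberField K] {p : ℕ} [Fact p.Prime] {ι : Type}
    (b : Module.Basis ι ℤ (𝓞 K)) :
    LinearIndependent (ZMod p) (fun (φ : 𝓞 K →+* ZMod p) (i : ι) => φ (b i)) := by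
  have h1 : LinearIndependent (ZMod p) (fun φ : 𝓞 K →+* ZMod p => ((φ : 𝓞 K →* ZMod p) :
      𝓞 K → ZMod p)) := by
    refine (linearIndependent_monoidHom (𝓞 K) (ZMod p)).comp
      (fun φ : 𝓞 K →+* ZMod p => (φ : 𝓞 K →* ZMod p)) ?_
    intro φ ψ h
    exact RingHom.coe_monoidHom_injective h
  rw [linearIndependent_iff'] at h1 ⊢
  intro s g hg
  refine h1 s g ?_
  have h2 : (∑ φ ∈ s, (AddMonoidHom.mulLeft (g φ)).comp
      ((φ : 𝓞 K →+* ZMod p) : 𝓞 K →+ ZMod p)).toIntLinearMap = 0 := by
    refine b.ext fun i => ?_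
    have h3 := congrFun hg i
    simp only [Finset.sum_apply, Pi.smul_apply, smul_eq_mul, Pi.zero_apply] at h3
    simpa using h3
  funext x
  have h4 := congrArg (fun f => f x) h2
  simpa using h4

end IGA

theorem pr_GA : StGA := by
  intro K _ _ p _
  have h1 := IGA.indep (p := p) (RingOfIntegers.basis K)
  have hfin : Finite (𝓞 K →+* ZMod p) := h1.finite
  refine ⟨hfin, ?_⟩
  have := Fintype.ofFinite (𝓞 K →+* ZMod p)
  rw [Nat.card_eq_fintype_card]
  refine h1.fintype_card_le_finrank.trans (le_of_eq ?_)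
  rw [Module.finrank_pi, ← RingOfIntegers.rank, Module.finrank_eq_card_basis (RingOfIntegers.basis K)]

end Pool.Agent.Work.MP_8d13b5_lc.LG
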