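import Pool.Agent.Work.MP_8d13b5_lc.LG.StmtsS

/-!
# MP_8d13b5_lc, block LG, item GB: good primes from a homomorphism
-/

set_option autoImplicit false

open Polynomial NumberField

namespace Pool.Agent.Work.MP_8d13b5_lc.LG

namespace IGB

/-- a polynomial with integer coefficients which is separable over `ℚ` is separable modulo all
large primes -/
theorem sep (f : ℤ[X]) (h : (f.map (Int.castRingHom ℚ)).Separable) :
    ∃ N : ℕ, ∀ p : ℕ, p.Prime → N < p → (f.map (Int.castRingHom (ZMod p))).Separable := by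
  obtain ⟨a, b, hab⟩ := h
  obtain ⟨c, hc, hc'⟩ := IsLocalization.integerNormalization_spec (nonZeroDivisors ℤ) a
  obtain ⟨d, hd, hd'⟩ := IsLocalization.integerNormalization_spec (nonZeroDivisors ℤ) b
  set a' := IsLocalization.integerNormalization (nonZeroDivisors ℤ) a with ha'
  set b' := IsLocalization.integerNormalization (nonZeroDivisors ℤ) b with hb'
  have hc0 : c ≠ 0 := nonZeroDivisors.ne_zero hc
  have hd0 : d ≠ 0 := nonZeroDivisors.ne_zero hd
  have hinj : Function.Injective (Polynomial.map (Int.castRingHom ℚ)) :=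
    Polynomial.map_injective _ Int.cast_injective
  have hc2 : a'.map (Int.castRingHom ℚ) = C ((c : ℤ) : ℚ) * a := by
    have h1 : a'.map (Int.castRingHom ℚ) = c • a := hc'
    rw [h1, zsmul_eq_mul]
    simp
  have hd2 : b'.map (Int.castRingHom ℚ) = C ((d : ℤ) : ℚ) * b := by
    have h1 : b'.map (Int.castRingHom ℚ) = d • b := hd'
    rw [h1, zsmul_eq_mul]
    simp
  have key : (C d * a') * f + (C c * b') * derivative f = C (c * d) := by
    apply hinj
    rw [Polynomial.map_add, Polynomial.map_mul, Polynomial.map_mul, Polynomial.map_mul,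
      Polynomial.map_mul, hc2, hd2, Polynomial.map_C, Polynomial.map_C, Polynomial.map_C,
      ← derivative_map]
    have h3 : (Int.castRingHom ℚ) (c * d) = (c : ℚ) * (d : ℚ) := by simp
    have h4 : (Int.castRingHom ℚ) c = (c : ℚ) := by simp
    have h5 : (Int.castRingHom ℚ) d = (d : ℚ) := by simp
    rw [h3, h4, h5, C_mul]
    linear_combination (C (c : ℚ) * C (d : ℚ)) * hab
  refine ⟨(c * d).natAbs, fun p hp hlt => ?_⟩
  have : Fact p.Prime := ⟨hp⟩
  have hne : ((c * d : ℤ) : ZMod p) ≠ 0 := by
    intro h0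
    rw [ZMod.intCast_zmod_eq_zero_iff_dvd] at h0
    have h1 := Int.natAbs_dvd_natAbs.2 h0
    rw [Int.natAbs_natCast] at h1
    have h2 := Nat.le_of_dvd (Int.natAbs_pos.2 (mul_ne_zero hc0 hd0)) h1
    omega
  have h6 : (C d * a').map (Int.castRingHom (ZMod p)) * f.map (Int.castRingHom (ZMod p)) +
      (C c * b').map (Int.castRingHom (ZMod p)) * derivative (f.map (Int.castRingHom (ZMod p))) =
        C ((c * d : ℤ) : ZMod p) := by
    rw [derivative_map, ← Polynomial.map_mul, ← Polynomial.map_mul, ← Polynomial.map_add, key,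
      Polynomial.map_C]
    rfl
  refine ⟨C (((c * d : ℤ) : ZMod p)⁻¹) * (C d * a').map (Int.castRingHom (ZMod p)),
    C (((c * d : ℤ) : ZMod p)⁻¹) * (C c * b').map (Int.castRingHom (ZMod p)), ?_⟩
  rw [mul_assoc, mul_assoc, ← mul_add, h6, ← C_mul, inv_mul_cancel₀ hne, C_1]

/-- a monic polynomial which splits in `K` splits in the ring of integers -/
theorem spl (K : Type) [Field K] [NumberField K] (f : ℤ[X]) (hf : f.Monic)
    (h : (f.map (algebraMap ℤ K)).Splits) : (f.map (algebraMap ℤ (𝓞 K))).Splits := by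
  have h1 : (f.map (algebraMap ℤ (𝓞 K))).map (algebraMap (𝓞 K) K) = f.map (algebraMap ℤ K) := by
    rw [Polynomial.map_map]
    congr 1
  refine Splits.of_splits_map_of_injective (i := algebraMap (𝓞 K) K)
    (FaithfulSMul.algebraMap_injective (𝓞 K) K) (by rw [h1]; exact h) ?_
  intro x hx
  rw [h1] at hx
  have hint : IsIntegral ℤ x := by
    refine ⟨f, hf, ?_⟩
    have h2 := (mem_roots'.1 hx).2
    rwa [IsRoot.def, eval_map] at h2
  exact ⟨⟨x, hint⟩, rfl⟩

end IGB

theorem pr_GB : StGB := by
  intro f hf hsep h0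
  obtain ⟨N, hN⟩ := IGB.sep f hsep
  have : NumberField (f.map (Int.castRingHom ℚ)).SplittingField :=
    { to_charZero := inferInstance
      to_finiteDimensional := inferInstance }
  refine ⟨(f.map (Int.castRingHom ℚ)).SplittingField, inferInstance, inferInstance,
    max N (f.coeff 0).natAbs, ?_⟩
  intro p hp hlt hne
  obtain ⟨ψ⟩ := hne
  have : Fact p.Prime := ⟨hp⟩
  refine ⟨hp, ?_, ?_, hN p hp (lt_of_le_of_lt (le_max_left _ _) hlt)⟩
  · intro hd
    have h1 := Int.natAbs_dvd_natAbs.2 hd
    rw [Int.natAbs_natCast] at h1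
    have h2 := Nat.le_of_dvd (Int.natAbs_pos.2 h0) h1
    have h3 := lt_of_le_of_lt (le_max_right _ _) hlt
    omega
  · have h1 : (f.map (algebraMap ℤ (f.map (Int.castRingHom ℚ)).SplittingField)).Splits := by
      have h2 := SplittingField.splits (f.map (Int.castRingHom ℚ))
      rw [Polynomial.map_map] at h2
      exact (congrArg Splits (congrArg (fun φ : ℤ →+* (f.map (Int.castRingHom ℚ)).SplittingField =>
        f.map φ) (RingHom.ext_int _ _))).mp h2
    have h4 := (IGB.spl _ f hf h1).map ψ
    rw [Polynomial.map_map] at h4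
    have h5 : ψ.comp (algebraMap ℤ (𝓞 (f.map (Int.castRingHom ℚ)).SplittingField)) =
        Int.castRingHom (ZMod p) := RingHom.ext_int _ _
    rwa [h5] at h4

end Pool.Agent.Work.MP_8d13b5_lc.LG
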