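import Pool.Agent.Work.MP_8d13b5_lc.LG.StmtsS

/-!
# MP_8d13b5_lc, block LG, part S, item GC: windows
-/

set_option autoImplicit false

open Polynomial Filter Topology NumberField Finset
open Pool.Agent.Work.MP_8d13b5_lc.Ex2.Sel

namespace Pool.Agent.Work.MP_8d13b5_lc.LG

theorem pr_GC (h1 : StMer) : StGC := by
  intro K _ _ e he he1
  have hM := h1 K
  set a : ℕ → ℝ := fun p => (Nat.card (𝓞 K →+* ZMod p) : ℝ) * Real.log p / p with ha
  set S : ℝ → ℝ := fun x => ∑ p ∈ (Finset.Icc 1 ⌊x⌋₊).filter Nat.Prime, a p with hS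
  obtain ⟨x1, hx1⟩ := Metric.tendsto_atTop.1 hM (e / 8) (by positivity)
  have hpow : Tendsto (fun x : ℝ => x ^ (1 - e)) atTop atTop :=
    tendsto_rpow_atTop (by linarith)
  obtain ⟨x2, hx2⟩ := (tendsto_atTop.1 hpow (max x1 2)).exists_forall_of_atTop
  refine ⟨max (max x1 x2) 2, ?_⟩
  intro x hx
  have hxx1 : x1 ≤ x := le_trans (le_trans (le_max_left _ _) (le_max_left _ _)) hx
  have hxx2 : x2 ≤ x := le_trans (le_trans (le_max_right _ _) (le_max_left _ _)) hx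
  have hx2' : 2 ≤ x := le_trans (le_max_right _ _) hx
  have hlog : 0 < Real.log x := Real.log_pos (by linarith)
  have hy : max x1 2 ≤ x ^ (1 - e) := hx2 x hxx2
  have hy1 : x1 ≤ x ^ (1 - e) := le_trans (le_max_left _ _) hy
  have hy2 : 2 ≤ x ^ (1 - e) := le_trans (le_max_right _ _) hy
  have hlogy : Real.log (x ^ (1 - e)) = (1 - e) * Real.log x := Real.log_rpow (by linarith) _
  have hlogy0 : 0 < Real.log (x ^ (1 - e)) := Real.log_pos (by linarith)
  have e1 := hx1 x hxx1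
  have e2 := hx1 (x ^ (1 - e)) hy1
  rw [Real.dist_eq, abs_lt] at e1 e2
  have e3 : (1 - e / 8) * Real.log x ≤ S x := by
    have h : (1 - e / 8) ≤ S x / Real.log x := by
      have := e1.1
      change -(e / 8) < S x / Real.log x - 1 at this
      linarith
    rwa [le_div_iff₀ hlog] at h
  have e4 : S (x ^ (1 - e)) ≤ (1 + e / 8) * ((1 - e) * Real.log x) := by
    have h : S (x ^ (1 - e)) / Real.log (x ^ (1 - e)) ≤ (1 + e / 8) := by
      have := e2.2
      change S (x ^ (1 - e)) / Real.log (x ^ (1 - e)) - 1 < e / 8 at this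
      linarith
    rwa [div_le_iff₀ hlogy0, hlogy] at h
  have hle : x ^ (1 - e) ≤ x := by
    calc x ^ (1 - e) ≤ x ^ (1 : ℝ) := Real.rpow_le_rpow_of_exponent_le (by linarith) (by linarith)
      _ = x := Real.rpow_one x
  have hfl : ⌊x ^ (1 - e)⌋₊ ≤ ⌊x⌋₊ := Nat.floor_le_floor hle
  have hfl1 : 1 ≤ ⌊x ^ (1 - e)⌋₊ := Nat.le_floor (by push_cast; linarith)
  have e5 : S x = S (x ^ (1 - e)) +
      ∑ p ∈ (Ioc ⌊x ^ (1 - e)⌋₊ ⌊x⌋₊).filter Nat.Prime, a p := by
    have hd : Disjoint ((Finset.Icc 1 ⌊x ^ (1 - e)⌋₊).filter Nat.Prime)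
        ((Ioc ⌊x ^ (1 - e)⌋₊ ⌊x⌋₊).filter Nat.Prime) := by
      rw [Finset.disjoint_left]
      intro p hp hp'
      rw [Finset.mem_filter, Finset.mem_Icc] at hp
      rw [Finset.mem_filter, Finset.mem_Ioc] at hp'
      omega
    have hu : (Finset.Icc 1 ⌊x⌋₊).filter Nat.Prime =
        ((Finset.Icc 1 ⌊x ^ (1 - e)⌋₊).filter Nat.Prime) ∪
        ((Ioc ⌊x ^ (1 - e)⌋₊ ⌊x⌋₊).filter Nat.Prime) := by
      ext p
      simp only [Finset.mem_union, Finset.mem_filter, Finset.mem_Icc, Finset.mem_Ioc]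
      constructor
      · rintro ⟨h, hp⟩
        by_cases h' : p ≤ ⌊x ^ (1 - e)⌋₊
        · exact Or.inl ⟨⟨h.1, h'⟩, hp⟩
        · exact Or.inr ⟨⟨by omega, h.2⟩, hp⟩
      · rintro (⟨h, hp⟩ | ⟨h, hp⟩)
        · exact ⟨⟨h.1, by omega⟩, hp⟩
        · exact ⟨⟨by omega, h.2⟩, hp⟩
    rw [hS]
    simp only
    rw [hu, Finset.sum_union hd]
  have e6 : e / 2 * Real.log x ≤ (1 - e / 8) * Real.log x -
      (1 + e / 8) * ((1 - e) * Real.log x) := by
    have : (1 - e / 8) * Real.log x - (1 + e / 8) * ((1 - e) * Real.log x) -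
        e / 2 * Real.log x = (e / 4 + e ^ 2 / 8) * Real.log x := by ring
    have h2 : 0 ≤ (e / 4 + e ^ 2 / 8) * Real.log x := by positivity
    linarith
  linarith

end Pool.Agent.Work.MP_8d13b5_lc.LG
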