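import Pool.Agent.Work.MP_8d13b5_lc.LG.StmtsS

/-!
# MP_8d13b5_lc, block LG, part S, item GD (helper55): good primes in windows
-/

set_option autoImplicit false

open Polynomial Filter Topology NumberField Finset
open Pool.Agent.Work.MP_8d13b5_lc.Ex2.Sel

namespace Pool.Agent.Work.MP_8d13b5_lc.LG

theorem pr_GD (h1 : StGA) (h2 : StGB) (h3 : StGC) : StGD := by
  classical
  intro f hf hs h0
  obtain ⟨K, _, _, B0, hB0⟩ := h2 f hf hs h0
  have hD : 0 < Module.finrank ℚ K := Module.finrank_pos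
  have hD' : (0 : ℝ) < Module.finrank ℚ K := by exact_mod_cast hD
  refine ⟨Module.finrank ℚ K, hD, fun B e he he1 => ?_⟩
  obtain ⟨x0, hx0⟩ := h3 K e he he1
  have ht : Tendsto (fun x : ℝ => x ^ (1 - e)) atTop atTop := tendsto_rpow_atTop (by linarith)
  obtain ⟨x1, hx1⟩ := (eventually_atTop.1 (ht.eventually_ge_atTop (((max B B0 : ℕ) : ℝ))))
  refine ⟨max x0 x1, fun x hx => ?_⟩
  have h4 := hx0 x ((le_max_left _ _).trans hx)
  have h5 : max B B0 ≤ ⌊x ^ (1 - e)⌋₊ := Nat.le_floor (hx1 x ((le_max_right _ _).trans hx))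
  obtain ⟨G, hG⟩ : ∃ G, G = (Ioc ⌊x ^ (1 - e)⌋₊ ⌊x⌋₊).filter (fun p => Good f p ∧ B < p) :=
    ⟨_, rfl⟩
  have hsub : G ⊆ (Ioc ⌊x ^ (1 - e)⌋₊ ⌊x⌋₊).filter Nat.Prime := by
    intro p hp
    rw [hG, mem_filter] at hp
    exact mem_filter.2 ⟨hp.1, hp.2.1.1⟩
  rw [← Finset.sum_subset hsub] at h4
  · have h6 : ∑ p ∈ G, (Nat.card (𝓞 K →+* ZMod p) : ℝ) * Real.log p / p ≤
        (Module.finrank ℚ K : ℝ) * ∑ p ∈ G, Real.log p / p := by
      rw [Finset.mul_sum]
      refine Finset.sum_le_sum fun p hp => ?_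
      have hpp : p.Prime := (mem_filter.1 (hsub hp)).2
      have : Fact p.Prime := ⟨hpp⟩
      have h7 : (Nat.card (𝓞 K →+* ZMod p) : ℝ) ≤ Module.finrank ℚ K := by
        exact_mod_cast (h1 K p).2
      have h8 : 0 ≤ Real.log p / p := by positivity
      rw [mul_div_assoc]
      exact mul_le_mul_of_nonneg_right h7 h8
    have h9 := h4.trans h6
    rw [← hG]
    have h10 : e / (2 * (Module.finrank ℚ K : ℝ)) * Real.log x =
        (e / 2 * Real.log x) / (Module.finrank ℚ K : ℝ) := by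
      field_simp
    rw [h10, div_le_iff₀ hD']
    linarith
  · intro p hp hpG
    rw [mem_filter, mem_Ioc] at hp
    by_cases hne : Nonempty (𝓞 K →+* ZMod p)
    · exfalso
      apply hpG
      rw [hG, mem_filter, mem_Ioc]
      have h11 : max B B0 < p := lt_of_le_of_lt h5 hp.1.1
      exact ⟨hp.1, hB0 p hp.2 (lt_of_le_of_lt (le_max_right _ _) h11) hne,
        lt_of_le_of_lt (le_max_left _ _) h11⟩
    · rw [not_nonempty_iff] at hne
      rw [Nat.card_of_isEmpty, Nat.cast_zero, zero_mul, zero_div]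

end Pool.Agent.Work.MP_8d13b5_lc.LG
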