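import Pool.Agent.Work.MP_8d13b5_lc.LG.StmtsS

/-!
# MP_8d13b5_lc, block LG, item SA: the average is the model sum up to a small error

Adapted from the theorem `claimC4` of `Work/MP_d159ed_nt/Bd/B05.lean`.
-/

set_option autoImplicit false

namespace Pool.Agent.Work.MP_8d13b5_lc.LG

open Finset Pool.Agent.Work.MP_8d13b5_lc.Ex2.Sel
open scoped BigOperators

namespace ISA

lemma fm_mod (u : ℕ) (j : Fin 2) (k p : ℕ) : fm u j (k % p) ≡ fm u j k [MOD p] := by
  unfold fm
  split_ifs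
  · exact Nat.mod_modEq k p
  · exact Nat.ModEq.add_right _ (Nat.ModEq.mul_left _ (Nat.mod_modEq k p))

lemma fm_ne (u : ℕ) (j : Fin 2) (k : ℕ) (hk : 1 ≤ k) : fm u j k ≠ 0 := by
  unfold fm
  split_ifs <;> omega

lemma fm_inj (u : ℕ) (j : Fin 2) (p : ℕ) (hpp : p.Prime) (a b : ℕ) (ha : a < p) (hb : b < p)
    (h1 : p ∣ fm u j a) (h2 : p ∣ fm u j b) : a = b := by
  unfold fm at h1 h2
  split_ifs at h1 h2 with hj
  · rw [Nat.eq_zero_of_dvd_of_lt h1 ha, Nat.eq_zero_of_dvd_of_lt h2 hb]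
  · have hpu : ¬ p ∣ u := by
      intro hpv
      have h3 : p ∣ u * a := Dvd.dvd.mul_right hpv _
      have h4 : p ∣ 1 := (Nat.dvd_add_right h3).mp h1
      exact hpp.one_lt.ne' (Nat.dvd_one.mp h4)
    have h5 : u * a + 1 ≡ u * b + 1 [MOD p] := by
      unfold Nat.ModEq
      rw [Nat.mod_eq_zero_of_dvd h1, Nat.mod_eq_zero_of_dvd h2]
    have h6 : u * a ≡ u * b [MOD p] := Nat.ModEq.add_right_cancel' 1 h5
    have h7 : a ≡ b [MOD p] :=
      Nat.ModEq.cancel_left_of_coprime ((Nat.Prime.coprime_iff_not_dvd hpp).mpr hpu) h6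
    exact Nat.ModEq.eq_of_lt_of_lt h7 ha hb

/-- Counting an arithmetic progression in an initial interval. -/
lemma count_modEq (K m v : ℕ) (hm : 0 < m) :
    |(((Icc 1 K).filter (fun k => k ≡ v [MOD m])).card : ℝ) - (K : ℝ) / (m : ℝ)| ≤ 1 := by
  have h0 : (Icc 1 K) = Ioc 0 K := by
    ext x; simp [mem_Icc, mem_Ioc, Nat.succ_le_iff]
  have h1 := Nat.Ioc_filter_modEq_card 0 K hm v
  rw [h0]
  set c := ((Ioc 0 K).filter (fun k => k ≡ v [MOD m])).card with hc
  have hmq : (0 : ℚ) < (m : ℚ) := by exact_mod_cast hm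
  have hf1 := Int.floor_le (((K : ℕ) - v : ℚ) / (m : ℚ))
  have hf2 := Int.lt_floor_add_one (((K : ℕ) - v : ℚ) / (m : ℚ))
  have hg1 := Int.floor_le ((((0 : ℕ) : ℚ) - v : ℚ) / (m : ℚ))
  have hg2 := Int.lt_floor_add_one ((((0 : ℕ) : ℚ) - v : ℚ) / (m : ℚ))
  have hdiff : (((K : ℕ) - v : ℚ) / (m : ℚ)) - ((((0 : ℕ) : ℚ) - v : ℚ) / (m : ℚ)) = (K : ℚ) / m := by
    field_simp
    push_cast
    ring
  have hK : (0 : ℚ) ≤ (K : ℚ) / m := by positivity
  have hle : ⌊((((0 : ℕ) : ℚ) - v : ℚ) / (m : ℚ))⌋ ≤ ⌊(((K : ℕ) - v : ℚ) / (m : ℚ))⌋ := by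
    apply Int.floor_mono
    linarith
  have hmax : (c : ℤ) = ⌊(((K : ℕ) - v : ℚ) / (m : ℚ))⌋ - ⌊((((0 : ℕ) : ℚ) - v : ℚ) / (m : ℚ))⌋ := by
    rw [hc, h1, max_eq_left]
    linarith
  have hcq : (c : ℚ) = (⌊(((K : ℕ) - v : ℚ) / (m : ℚ))⌋ : ℚ) -
      (⌊((((0 : ℕ) : ℚ) - v : ℚ) / (m : ℚ))⌋ : ℚ) := by
    have := congrArg (Int.cast : ℤ → ℚ) hmax
    push_cast at this
    exact_mod_cast this
  have hq : |(c : ℚ) - (K : ℚ) / m| ≤ 1 := by
    rw [abs_le]
    constructor <;> linarith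
  have := (Rat.cast_le (K := ℝ)).mpr hq
  push_cast at this
  exact this

/-- Conditions modulo distinct primes, each with at most one solution. -/
lemma count_crt (Q : Finset ℕ) (hQ : ∀ p ∈ Q, p.Prime) (c : ℕ → ℕ → Prop)
    [∀ p, DecidablePred (c p)] (hper : ∀ p ∈ Q, ∀ k, c p (k % p) ↔ c p k)
    (hN : ∀ p ∈ Q, ((range p).filter (c p)).card ≤ 1) (K : ℕ) :
    |(((Icc 1 K).filter (fun k => ∀ p ∈ Q, c p k)).card : ℝ) -
      (K : ℝ) * ∏ p ∈ Q, (((range p).filter (c p)).card : ℝ) / (p : ℝ)| ≤ 1 := by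
  by_cases hz : ∃ p ∈ Q, ((range p).filter (c p)).card = 0
  · obtain ⟨p, hp, hp0⟩ := hz
    have h1 : ∏ p ∈ Q, (((range p).filter (c p)).card : ℝ) / (p : ℝ) = 0 := by
      apply Finset.prod_eq_zero hp
      rw [hp0]; simp
    have h2 : (Icc 1 K).filter (fun k => ∀ p ∈ Q, c p k) = ∅ := by
      apply Finset.filter_eq_empty_iff.mpr
      intro k _ hk
      have h3 := hk p hp
      rw [← hper p hp] at h3
      have h4 : k % p ∈ (range p).filter (c p) := by
        rw [mem_filter, mem_range]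
        exact ⟨Nat.mod_lt _ (hQ p hp).pos, h3⟩
      rw [Finset.card_eq_zero] at hp0
      rw [hp0] at h4
      exact Finset.notMem_empty _ h4
    rw [h1, h2]
    simp
  · push Not at hz
    have hone : ∀ p ∈ Q, ((range p).filter (c p)).card = 1 := by
      intro p hp
      have := hz p hp
      have := hN p hp
      omega
    have hex : ∀ p, ∃ a, p ∈ Q → (range p).filter (c p) = {a} := by
      intro p
      by_cases hp : p ∈ Q
      · obtain ⟨a, ha⟩ := Finset.card_eq_one.mp (hone p hp)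
        exact ⟨a, fun _ => ha⟩
      · exact ⟨0, fun h => absurd h hp⟩
    choose a ha using hex
    have hcop : Set.Pairwise (Q : Set ℕ) (Function.onFun Nat.Coprime (fun p : ℕ => p)) := by
      intro p hp q hq hpq
      exact (Nat.coprime_primes (hQ p hp) (hQ q hq)).mpr hpq
    obtain ⟨k0, hk0⟩ := Nat.chineseRemainderOfFinset a (fun p : ℕ => p) Q
      (fun p hp => (hQ p hp).ne_zero) hcop
    have hiff : ∀ k, (∀ p ∈ Q, c p k) ↔ k ≡ k0 [MOD ∏ p ∈ Q, p] := by
      intro k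
      have h1 : (∀ p ∈ Q, c p k) ↔ ∀ p ∈ Q, k ≡ k0 [MOD p] := by
        apply forall₂_congr
        intro p hp
        rw [← hper p hp k]
        have h2 : c p (k % p) ↔ k % p ∈ (range p).filter (c p) := by
          rw [mem_filter, mem_range]
          exact ⟨fun h => ⟨Nat.mod_lt _ (hQ p hp).pos, h⟩, fun h => h.2⟩
        rw [h2, ha p hp, mem_singleton]
        have h3 : a p ∈ (range p).filter (c p) := by
          rw [ha p hp]; exact mem_singleton_self _
        rw [mem_filter, mem_range] at h3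
        have h4 := hk0 p hp
        unfold Nat.ModEq at h4 ⊢
        rw [h4, Nat.mod_eq_of_lt h3.1]
      rw [h1]
      constructor
      · intro h
        rw [Nat.modEq_iff_dvd]
        push_cast
        apply Finset.prod_dvd_of_coprime
        · intro p hp q hq hpq
          exact Nat.isCoprime_iff_coprime.mpr (hcop hp hq hpq)
        · intro p hp
          exact Nat.modEq_iff_dvd.mp (h p hp)
      · intro h p hp
        exact h.of_dvd (Finset.dvd_prod_of_mem _ hp)
    have h5 : (Icc 1 K).filter (fun k => ∀ p ∈ Q, c p k) =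
        (Icc 1 K).filter (fun k => k ≡ k0 [MOD ∏ p ∈ Q, p]) := by
      apply Finset.filter_congr
      intro k _
      exact hiff k
    have h6 : ∏ p ∈ Q, (((range p).filter (c p)).card : ℝ) / (p : ℝ) = 1 / ((∏ p ∈ Q, p : ℕ) : ℝ) := by
      push_cast
      rw [one_div, ← Finset.prod_inv_distrib]
      apply Finset.prod_congr rfl
      intro p hp
      rw [hone p hp]
      simp
    rw [h5, h6, mul_one_div]
    exact count_modEq K _ k0 (Finset.prod_pos (fun p hp => (hQ p hp).pos))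

lemma mem_Pr {h R p : ℕ} : p ∈ Pr h R ↔ (1 ≤ p ∧ p ≤ R) ∧ p.Prime ∧ Nat.Coprime p h := by
  simp [Pr, mem_filter, mem_Icc]

/-- divisibility by an element of Dset through primes -/
lemma dvd_iff {h R d n : ℕ} (hd : d ∈ Dset h R) (hn : n ≠ 0) :
    d ∣ n ↔ ∀ p ∈ Pr h R, p ∣ d → p ∣ n := by
  rw [Ex2.Sel.C1.mem_Dset] at hd
  constructor
  · intro h1 p _ hp
    exact hp.trans h1
  · intro h1
    rw [← Nat.prod_primeFactors_of_squarefree hd.2.1, Nat.prod_primeFactors_dvd_iff hn]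
    intro p hp
    have hpp := Nat.prime_of_mem_primeFactors hp
    have hpd := Nat.dvd_of_mem_primeFactors hp
    rw [Nat.mem_primeFactors]
    refine ⟨hpp, h1 p ?_ hpd, hn⟩
    rw [mem_Pr]
    exact ⟨⟨hpp.one_le, (Nat.le_of_dvd hd.1.1 hpd).trans hd.1.2⟩, hpp,
      Nat.Coprime.coprime_dvd_left hpd hd.2.2⟩

/-- the number of k for a fixed pair of vectors of divisors -/
lemma count_pair (h R K u : ℕ) (d d' : Fin 2 → ℕ)
    (hd : ∀ j, d j ∈ Dset h R) (hd' : ∀ j, d' j ∈ Dset h R) :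
    |(((Icc 1 K).filter (fun k => ∀ j, d j ∣ fm u j k ∧ d' j ∣ fm u j k)).card : ℝ) -
      (K : ℝ) * ∏ p ∈ Pr h R, tau u p (univ.filter (fun j => p ∣ d j ∨ p ∣ d' j))| ≤ 1 := by
  classical
  set J : ℕ → Finset (Fin 2) := fun p => univ.filter (fun j => p ∣ d j ∨ p ∣ d' j) with hJ
  set Q := (Pr h R).filter (fun p => J p ≠ ∅) with hQdef
  set c : ℕ → ℕ → Prop := fun p k => ∀ j ∈ J p, p ∣ fm u j k with hc
  have hQ : ∀ p ∈ Q, p.Prime := by
    intro p hp
    rw [hQdef, mem_filter, mem_Pr] at hp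
    exact hp.1.2.1
  have hper : ∀ p ∈ Q, ∀ k, c p (k % p) ↔ c p k := by
    intro p _ k
    simp only [hc]
    apply forall₂_congr
    intro j _
    have h1 : fm u j (k % p) ≡ fm u j k [MOD p] := fm_mod u j k p
    exact h1.dvd_iff (dvd_refl p)
  have hN : ∀ p ∈ Q, ((range p).filter (c p)).card ≤ 1 := by
    intro p hp
    rw [hQdef, mem_filter, mem_Pr] at hp
    obtain ⟨⟨_, hpp, hph⟩, hne⟩ := hp
    obtain ⟨j, hj⟩ := Finset.nonempty_iff_ne_empty.mpr hne
    rw [Finset.card_le_one]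
    intro a ha b hb
    rw [mem_filter, mem_range] at ha hb
    have h1 := ha.2 j hj
    have h2 := hb.2 j hj
    exact fm_inj u j p hpp a b ha.1 hb.1 h1 h2
  have hmain := count_crt Q hQ c hper hN K
  have hset : (Icc 1 K).filter (fun k => ∀ p ∈ Q, c p k) =
      (Icc 1 K).filter (fun k => ∀ j, d j ∣ fm u j k ∧ d' j ∣ fm u j k) := by
    apply Finset.filter_congr
    intro k hk1
    rw [mem_Icc] at hk1
    constructor
    · intro hk j
      have hn : fm u j k ≠ 0 := fm_ne u j k hk1.1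
      constructor
      · rw [dvd_iff (hd j) hn]
        intro p hp hpd
        have hjJ : j ∈ J p := by
          rw [hJ, mem_filter]
          exact ⟨mem_univ _, Or.inl hpd⟩
        exact hk p (by rw [hQdef, mem_filter]; exact ⟨hp, Finset.ne_empty_of_mem hjJ⟩) j hjJ
      · rw [dvd_iff (hd' j) hn]
        intro p hp hpd
        have hjJ : j ∈ J p := by
          rw [hJ, mem_filter]
          exact ⟨mem_univ _, Or.inr hpd⟩
        exact hk p (by rw [hQdef, mem_filter]; exact ⟨hp, Finset.ne_empty_of_mem hjJ⟩) j hjJ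
    · intro hk p _ j hj
      rw [hJ, mem_filter] at hj
      rcases hj.2 with h1 | h1
      · exact h1.trans (hk j).1
      · exact h1.trans (hk j).2
  have hprod : ∏ p ∈ Q, (((range p).filter (c p)).card : ℝ) / (p : ℝ) =
      ∏ p ∈ Pr h R, tau u p (J p) := by
    rw [hQdef, Finset.prod_filter]
    apply Finset.prod_congr rfl
    intro p _
    unfold tau
    by_cases hJe : J p = ∅
    · rw [if_neg (by simpa using hJe), if_pos hJe]
    · rw [if_pos hJe, if_neg hJe]
  rw [hset, hprod] at hmain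
  exact hmain

lemma card_Dset_le (h R : ℕ) : (Dset h R).card ≤ R := by
  unfold Dset
  calc _ ≤ (Icc 1 R).card := Finset.card_filter_le _ _
    _ = R := by simp

lemma expand (h R k u : ℕ) :
    ∏ j, Lam h R (fm u j k) ^ 2 =
      ∑ d ∈ Fintype.piFinset (fun _ : Fin 2 => Dset h R),
        ∑ d' ∈ Fintype.piFinset (fun _ : Fin 2 => Dset h R),
          (∏ j, lam h R (d j) * lam h R (d' j)) *
            (if ∀ j, d j ∣ fm u j k ∧ d' j ∣ fm u j k then 1 else 0) := by
  have h1 : ∏ j, Lam h R (fm u j k) =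
      ∑ d ∈ Fintype.piFinset (fun _ : Fin 2 => Dset h R),
        ∏ j, (if d j ∣ fm u j k then lam h R (d j) else 0) := by
    unfold Lam
    rw [← Finset.prod_univ_sum (fun _ : Fin 2 => Dset h R)
      (fun j d => if d ∣ fm u j k then lam h R d else 0)]
    apply Finset.prod_congr rfl
    intro j _
    rw [Finset.sum_filter]
  rw [Finset.prod_pow, sq, h1, Finset.sum_mul_sum]
  apply Finset.sum_congr rfl
  intro d _
  apply Finset.sum_congr rfl
  intro d' _
  by_cases hall : ∀ j, d j ∣ fm u j k ∧ d' j ∣ fm u j k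
  · rw [if_pos hall, mul_one, ← Finset.prod_mul_distrib]
    apply Finset.prod_congr rfl
    intro j _
    rw [if_pos (hall j).1, if_pos (hall j).2]
  · rw [if_neg hall, mul_zero, ← Finset.prod_mul_distrib]
    push Not at hall
    obtain ⟨j, hj⟩ := hall
    apply Finset.prod_eq_zero (mem_univ j)
    by_cases h2 : d j ∣ fm u j k
    · rw [if_neg (hj h2), mul_zero]
    · rw [if_neg h2, zero_mul]



theorem main (h R K u : ℕ) (hh : 1 ≤ h) (hR : 1 ≤ R) (hK : 1 ≤ K) :
    |(∑ k ∈ Icc 1 K, ∏ j, Lam h R (fm u j k) ^ 2) / (K : ℝ) - Smod h R 2 (tau u)| ≤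
      (R : ℝ) ^ (2 * 2) / (K : ℝ) := by
  have hlam := (claimC1 h R hh hR).2.1
  have hK0 : (0 : ℝ) < K := by exact_mod_cast hK
  have h1 : (∑ k ∈ Icc 1 K, ∏ j, Lam h R (fm u j k) ^ 2) / (K : ℝ) =
      ∑ d ∈ Fintype.piFinset (fun _ : Fin 2 => Dset h R),
        ∑ d' ∈ Fintype.piFinset (fun _ : Fin 2 => Dset h R),
          (∏ j, lam h R (d j) * lam h R (d' j)) *
            ((((Icc 1 K).filter (fun k => ∀ j, d j ∣ fm u j k ∧
              d' j ∣ fm u j k)).card : ℝ) / (K : ℝ)) := by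
    rw [Finset.sum_congr rfl (fun k _ => expand h R k u), Finset.sum_comm, Finset.sum_div]
    apply Finset.sum_congr rfl
    intro d _
    rw [Finset.sum_comm, Finset.sum_div]
    apply Finset.sum_congr rfl
    intro d' _
    rw [← Finset.mul_sum, mul_div_assoc, Finset.card_filter]
    push_cast
    rfl
  rw [h1]
  unfold Smod
  rw [← Finset.sum_sub_distrib]
  have h2 : ∀ d ∈ Fintype.piFinset (fun _ : Fin 2 => Dset h R),
      |∑ d' ∈ Fintype.piFinset (fun _ : Fin 2 => Dset h R),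
          (∏ j, lam h R (d j) * lam h R (d' j)) *
            ((((Icc 1 K).filter (fun k => ∀ j, d j ∣ fm u j k ∧
              d' j ∣ fm u j k)).card : ℝ) / (K : ℝ)) -
        ∑ d' ∈ Fintype.piFinset (fun _ : Fin 2 => Dset h R),
          (∏ j, lam h R (d j) * lam h R (d' j)) *
            ∏ p ∈ Pr h R, tau u p (univ.filter (fun j => p ∣ d j ∨ p ∣ d' j))| ≤
      ((Fintype.piFinset (fun _ : Fin 2 => Dset h R)).card : ℝ) * (1 / (K : ℝ)) := by
    intro d hd
    rw [Fintype.mem_piFinset] at hd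
    rw [← Finset.sum_sub_distrib]
    refine (Finset.abs_sum_le_sum_abs _ _).trans ?_
    rw [← nsmul_eq_mul]
    apply Finset.sum_le_card_nsmul
    intro d' hd'
    rw [Fintype.mem_piFinset] at hd'
    rw [← mul_sub, abs_mul]
    have h3 : |∏ j, lam h R (d j) * lam h R (d' j)| ≤ 1 := by
      rw [Finset.abs_prod]
      apply Finset.prod_le_one
      · intro j _
        exact abs_nonneg _
      · intro j _
        rw [abs_mul]
        exact mul_le_one₀ (hlam _) (abs_nonneg _) (hlam _)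
    have h4 := count_pair h R K u d d' hd hd'
    have h5 : |(((Icc 1 K).filter (fun k => ∀ j, d j ∣ fm u j k ∧
              d' j ∣ fm u j k)).card : ℝ) / (K : ℝ) -
            ∏ p ∈ Pr h R, tau u p (univ.filter (fun j => p ∣ d j ∨ p ∣ d' j))| ≤ 1 / (K : ℝ) := by
      have h6 : (((Icc 1 K).filter (fun k => ∀ j, d j ∣ fm u j k ∧
              d' j ∣ fm u j k)).card : ℝ) / (K : ℝ) -
            ∏ p ∈ Pr h R, tau u p (univ.filter (fun j => p ∣ d j ∨ p ∣ d' j)) =
          ((((Icc 1 K).filter (fun k => ∀ j, d j ∣ fm u j k ∧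
              d' j ∣ fm u j k)).card : ℝ) -
            (K : ℝ) * ∏ p ∈ Pr h R, tau u p (univ.filter (fun j => p ∣ d j ∨ p ∣ d' j))) /
              (K : ℝ) := by
        field_simp
      rw [h6, abs_div, abs_of_pos hK0]
      exact div_le_div_of_nonneg_right h4 hK0.le
    calc |∏ j, lam h R (d j) * lam h R (d' j)| * _ ≤ 1 * _ :=
          mul_le_mul_of_nonneg_right h3 (abs_nonneg _)
      _ ≤ 1 / (K : ℝ) := by rw [one_mul]; exact h5
  refine (Finset.abs_sum_le_sum_abs _ _).trans ((Finset.sum_le_card_nsmul _ _ _ h2).trans ?_)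
  rw [nsmul_eq_mul]
  have hcard : ((Fintype.piFinset (fun _ : Fin 2 => Dset h R)).card : ℝ) ≤ (R : ℝ) ^ 2 := by
    rw [Fintype.card_piFinset]
    simp only [Finset.prod_const, Finset.card_univ, Fintype.card_fin]
    push_cast
    exact pow_le_pow_left₀ (by positivity) (by exact_mod_cast card_Dset_le h R) 2
  calc ((Fintype.piFinset (fun _ : Fin 2 => Dset h R)).card : ℝ) *
        (((Fintype.piFinset (fun _ : Fin 2 => Dset h R)).card : ℝ) * (1 / (K : ℝ)))
      ≤ (R : ℝ) ^ 2 * ((R : ℝ) ^ 2 * (1 / (K : ℝ))) := by gcongr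
    _ = (R : ℝ) ^ (2 * 2) / (K : ℝ) := by
        rw [two_mul, pow_add]; ring

end ISA

/-- **item SA** -/
theorem pr_SA : StSA := by
  intro j N R hj hN hR
  have h := ISA.main 1 R N j le_rfl hR hN
  have e : ∀ k : ℕ, ∏ i : Fin 2, Lam 1 R (fm j i k) ^ 2 =
      Lam 1 R k ^ 2 * Lam 1 R (j * k + 1) ^ 2 := by
    intro k
    rw [Fin.prod_univ_two]
    simp [fm]
  simp only [e] at h
  exact h

end Pool.Agent.Work.MP_8d13b5_lc.LG
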