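import Pool.Agent.Work.MP_8d13b5_lc.LG.StmtsS

set_option autoImplicit false

/-!
# Item SB of the block LG, part S: the local factors
-/

open Polynomial Filter Topology NumberField Finset
open Pool.Agent.Work.MP_8d13b5_lc.Ex2.Sel

namespace Pool.Agent.Work.MP_8d13b5_lc.LG

namespace ISB

theorem pow_eq : (univ : Finset (Fin 2)).powerset.filter (fun J => J ≠ ∅) = {{0}, {1}, {0, 1}} := by
  decide

theorem tau0 (j p : ℕ) (hp : p.Prime) : tau j p {0} = 1 / (p : ℝ) := by
  unfold tau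
  rw [if_neg (by decide)]
  congr 1
  have : (range p).filter (fun k => ∀ i ∈ ({0} : Finset (Fin 2)), p ∣ fm j i k) = {0} := by
    ext k
    simp only [mem_filter, mem_range, mem_singleton, forall_eq, fm, if_true]
    constructor
    · rintro ⟨h1, h2⟩
      exact Nat.eq_zero_of_dvd_of_lt h2 h1
    · rintro rfl
      exact ⟨hp.pos, dvd_zero _⟩
  rw [this]
  simp

theorem tau1_dvd (j p : ℕ) (hp : p.Prime) (h : p ∣ j) : tau j p {1} = 0 := by
  unfold tau
  rw [if_neg (by decide)]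
  have : (range p).filter (fun k => ∀ i ∈ ({1} : Finset (Fin 2)), p ∣ fm j i k) = ∅ := by
    rw [filter_eq_empty_iff]
    intro k _ h2
    have h3 := h2 1 (mem_singleton_self _)
    have h4 : p ∣ j * k + 1 := h3
    have h5 : p ∣ 1 := (Nat.dvd_add_right (h.mul_right k)).1 h4
    exact hp.one_lt.ne' (Nat.dvd_one.1 h5)
  rw [this]
  simp

theorem tau1 (j p : ℕ) (hp : p.Prime) (h : ¬ p ∣ j) : tau j p {1} = 1 / (p : ℝ) := by
  have : Fact p.Prime := ⟨hp⟩
  unfold tau
  rw [if_neg (by decide)]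
  congr 1
  have hj : (j : ZMod p) ≠ 0 := by
    rw [Ne, ZMod.natCast_eq_zero_iff]
    exact h
  have : (range p).filter (fun k => ∀ i ∈ ({1} : Finset (Fin 2)), p ∣ fm j i k) =
      {(-(j : ZMod p)⁻¹).val} := by
    ext k
    have e1 : (p ∣ j * k + 1) ↔ (k : ZMod p) = -(j : ZMod p)⁻¹ := by
      rw [← ZMod.natCast_eq_zero_iff]
      push_cast
      constructor
      · intro h1
        have h2 : (j : ZMod p) * k = -1 := eq_neg_of_add_eq_zero_left h1
        have h3 : (k : ZMod p) = (j : ZMod p)⁻¹ * (j * k) := by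
          rw [← mul_assoc, inv_mul_cancel₀ hj, one_mul]
        rw [h3, h2]
        ring
      · intro h1
        rw [h1]
        have : (j : ZMod p) * (j : ZMod p)⁻¹ = 1 := mul_inv_cancel₀ hj
        linear_combination -this
    simp only [mem_filter, mem_range, mem_singleton, forall_eq]
    constructor
    · rintro ⟨h1, h2⟩
      have h3 := e1.1 h2
      rw [← h3, ZMod.val_natCast_of_lt h1]
    · rintro rfl
      refine ⟨ZMod.val_lt _, e1.2 ?_⟩
      rw [ZMod.natCast_zmod_val]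
  rw [this]
  simp

theorem tau01 (j p : ℕ) (hp : p.Prime) : tau j p {0, 1} = 0 := by
  unfold tau
  rw [if_neg (by decide)]
  have : (range p).filter (fun k => ∀ i ∈ ({0, 1} : Finset (Fin 2)), p ∣ fm j i k) = ∅ := by
    rw [filter_eq_empty_iff]
    intro k _ h2
    have h3 : p ∣ k := h2 0 (by simp)
    have h4 : p ∣ j * k + 1 := h2 1 (by simp)
    have h5 : p ∣ 1 := (Nat.dvd_add_right (h3.mul_left j)).1 h4
    exact hp.one_lt.ne' (Nat.dvd_one.1 h5)
  rw [this]
  simp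

theorem er_eq (j p : ℕ) : er j p = 16 * (3 * |tau j p {0} - 1 / (p : ℝ)| +
    (3 * |tau j p {1} - 1 / (p : ℝ)| + 9 * |tau j p {0, 1} - (1 / (p : ℝ)) ^ 2|)) := by
  unfold er
  rw [pow_eq, sum_insert (by decide), sum_insert (by decide), sum_singleton]
  have h0 : ({0} : Finset (Fin 2)).card = 1 := rfl
  have h1 : ({1} : Finset (Fin 2)).card = 1 := rfl
  have h2 : ({0, 1} : Finset (Fin 2)).card = 2 := rfl
  rw [h0, h1, h2, pow_one]
  norm_num

theorem one_er (j p : ℕ) (hp : p.Prime) :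
    1 + er j p ≤ (1 + 144 / (p : ℝ) ^ 2) * (if p ∣ j then 1 + 192 / (p : ℝ) else 1) := by
  have hp0 : (0 : ℝ) < p := by exact_mod_cast hp.pos
  rw [er_eq, tau0 j p hp, tau01 j p hp, sub_self, abs_zero, mul_zero, zero_add, zero_sub, abs_neg,
    abs_of_nonneg (by positivity : (0 : ℝ) ≤ (1 / (p : ℝ)) ^ 2)]
  by_cases h : p ∣ j
  · rw [tau1_dvd j p hp h, if_pos h, zero_sub, abs_neg, abs_of_nonneg (by positivity : (0 : ℝ) ≤ 1 / (p : ℝ))]
    have e1 : (1 + 144 / (p : ℝ) ^ 2) * (1 + 192 / (p : ℝ)) =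
        1 + 16 * (3 * (1 / (p : ℝ)) + 9 * (1 / (p : ℝ)) ^ 2) +
          (144 / (p : ℝ) + 144 / (p : ℝ) ^ 2 * (192 / (p : ℝ))) := by
      field_simp
      ring
    rw [e1]
    have e2 : 0 ≤ 144 / (p : ℝ) + 144 / (p : ℝ) ^ 2 * (192 / (p : ℝ)) := by positivity
    linarith
  · rw [tau1 j p hp h, if_neg h, sub_self, abs_zero, mul_zero, zero_add, mul_one]
    apply le_of_eq
    field_simp
    ring

theorem sum_sq (R : ℕ) : ∑ n ∈ Icc 1 R, 1 / (n : ℝ) ^ 2 ≤ 2 := by
  have h : ∀ R : ℕ, 1 ≤ R → ∑ n ∈ Icc 1 R, 1 / (n : ℝ) ^ 2 ≤ 2 - 1 / (R : ℝ) := by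
    intro R hR
    induction R, hR using Nat.le_induction with
    | base => simp; norm_num
    | succ R hR ih =>
      rw [sum_Icc_succ_top (by omega)]
      have hR0 : (0 : ℝ) < R := by exact_mod_cast hR
      have e1 : 1 / ((R + 1 : ℕ) : ℝ) ^ 2 ≤ 1 / (R : ℝ) - 1 / ((R + 1 : ℕ) : ℝ) := by
        push_cast
        have e2 : 1 / (R : ℝ) - 1 / ((R : ℝ) + 1) = 1 / ((R : ℝ) * (R + 1)) := by
          field_simp
          ring
        rw [e2]
        apply one_div_le_one_div_of_le (by positivity)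
        nlinarith
      linarith
  rcases Nat.eq_zero_or_pos R with rfl | hR
  · simp
  · have h1 := h R hR
    have h2 : 0 ≤ 1 / (R : ℝ) := by positivity
    linarith

theorem one_le_prod {s : Finset ℕ} {f : ℕ → ℝ} (h : ∀ i ∈ s, 1 ≤ f i) : 1 ≤ ∏ i ∈ s, f i := by
  induction s using Finset.induction_on with
  | empty => simp
  | insert a s ha ih =>
    rw [prod_insert ha]
    exact one_le_mul_of_one_le_of_one_le (h a (mem_insert_self a s))
      (ih fun i hi => h i (mem_insert_of_mem hi))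

theorem sec (j R : ℕ) (hj : 1 ≤ j) :
    ∏ p ∈ Pr 1 R, (if p ∣ j then 1 + 192 / (p : ℝ) else 1) ≤ GG j := by
  rw [← prod_filter]
  unfold GG
  have hsub : (Pr 1 R).filter (fun p => p ∣ j) ⊆ j.primeFactors := by
    intro p hp
    rw [mem_filter] at hp
    unfold Pr at hp
    rw [mem_filter] at hp
    exact Nat.mem_primeFactors.2 ⟨hp.1.2.1, hp.2, by omega⟩
  rw [← prod_sdiff hsub]
  have h1 : 1 ≤ ∏ p ∈ j.primeFactors \ (Pr 1 R).filter (fun p => p ∣ j), (1 + 192 / (p : ℝ)) :=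
    one_le_prod fun p _ => by
      have : 0 ≤ 192 / (p : ℝ) := by positivity
      linarith
  have h2 : 0 ≤ ∏ p ∈ (Pr 1 R).filter (fun p => p ∣ j), (1 + 192 / (p : ℝ)) :=
    prod_nonneg fun p _ => by positivity
  nlinarith

theorem fst (R : ℕ) : ∏ p ∈ Pr 1 R, (1 + 144 / (p : ℝ) ^ 2) ≤ Real.exp 288 := by
  have h1 : ∏ p ∈ Pr 1 R, (1 + 144 / (p : ℝ) ^ 2) ≤ ∏ p ∈ Pr 1 R, Real.exp (144 / (p : ℝ) ^ 2) := by
    apply Finset.prod_le_prod
    · intro p _
      positivity
    · intro p _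
      rw [add_comm]
      exact Real.add_one_le_exp _
  refine h1.trans ?_
  rw [← Real.exp_sum]
  apply Real.exp_le_exp.2
  have h2 : ∑ p ∈ Pr 1 R, 144 / (p : ℝ) ^ 2 ≤ ∑ n ∈ Icc 1 R, 144 / (n : ℝ) ^ 2 := by
    apply sum_le_sum_of_subset_of_nonneg
    · exact filter_subset _ _
    · intro i _ _
      positivity
  refine h2.trans ?_
  have h3 : ∑ n ∈ Icc 1 R, 144 / (n : ℝ) ^ 2 = 144 * ∑ n ∈ Icc 1 R, 1 / (n : ℝ) ^ 2 := by
    rw [mul_sum]
    apply sum_congr rfl
    intro n _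
    ring
  rw [h3]
  have := sum_sq R
  linarith

end ISB

open ISB in
theorem pr_SB : StSB := by
  refine ⟨Real.exp 288, Real.exp_pos _, fun j R hj => ?_⟩
  have h1 : ∏ p ∈ Pr 1 R, (1 + er j p) ≤
      ∏ p ∈ Pr 1 R, ((1 + 144 / (p : ℝ) ^ 2) * (if p ∣ j then 1 + 192 / (p : ℝ) else 1)) := by
    apply Finset.prod_le_prod
    · intro p hp
      have : 0 ≤ er j p := by
        unfold er
        positivity
      linarith
    · intro p hp
      unfold Pr at hp
      rw [mem_filter] at hp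
      exact one_er j p hp.2.1
  refine h1.trans ?_
  rw [prod_mul_distrib]
  apply mul_le_mul (fst R) (sec j R hj)
  · apply prod_nonneg
    intro p _
    split_ifs <;> positivity
  · exact (Real.exp_pos _).le

end Pool.Agent.Work.MP_8d13b5_lc.LG
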