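import Pool.Agent.Work.MP_8d13b5_lc.LG.StmtsS

set_option autoImplicit false

/-!
MP_8d13b5_lc, block LG, item SC: the sieve bound for prime pairs `q`, `j q + 1`.
-/

open Polynomial Filter Topology NumberField Finset
open Pool.Agent.Work.MP_8d13b5_lc.Ex2.Sel

namespace Pool.Agent.Work.MP_8d13b5_lc.LG

namespace ISC

theorem GG_pos (j : ℕ) : 0 < GG j := by
  unfold GG
  exact Finset.prod_pos (fun p _ => by positivity)

theorem card_le (j N R : ℕ) (hj : 1 ≤ j) (hR : 1 ≤ R) :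
    (((Icc 1 N).filter (fun q => q.Prime ∧ R < q ∧ (j * q + 1).Prime)).card : ℝ) ≤
      ∑ k ∈ Icc 1 N, Lam 1 R k ^ 2 * Lam 1 R (j * k + 1) ^ 2 := by
  obtain ⟨_, _, _, _, _, hL⟩ := claimC1 1 R le_rfl hR
  have h1 : (((Icc 1 N).filter (fun q => q.Prime ∧ R < q ∧ (j * q + 1).Prime)).card : ℝ) =
      ∑ k ∈ (Icc 1 N).filter (fun q => q.Prime ∧ R < q ∧ (j * q + 1).Prime),
        Lam 1 R k ^ 2 * Lam 1 R (j * k + 1) ^ 2 := by
    rw [Finset.card_eq_sum_ones]
    push_cast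
    refine Finset.sum_congr rfl ?_
    intro q hq
    rw [Finset.mem_filter] at hq
    obtain ⟨_, hp, hRq, hp2⟩ := hq
    have h2 : R < j * q + 1 := by
      have : 1 * q ≤ j * q := Nat.mul_le_mul_right q hj
      omega
    rw [hL q hp hRq, hL (j * q + 1) hp2 h2]
    norm_num
  rw [h1]
  exact Finset.sum_le_sum_of_subset_of_nonneg (Finset.filter_subset _ _)
    (fun k _ _ => by positivity)

end ISC

open ISC

theorem pr_SC (h1 : StSM) (h2 : StSA) (h3 : StSB) : StSC := by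
  obtain ⟨C, hC, h3⟩ := h3
  refine ⟨C, hC, ?_⟩
  intro j N R hj hN hR
  have hR1 : 1 ≤ R := by omega
  have hlog : 0 < Real.log R := Real.log_pos (by exact_mod_cast (by omega : 1 < R))
  have hN0 : (0 : ℝ) < N := by exact_mod_cast hN
  obtain ⟨_, _, hG, hG1, _, _⟩ := claimC1 1 R le_rfl hR1
  have hGl : Real.log R ≤ Gs 1 R := by simpa using hG
  have hsm := h1 1 R 2 le_rfl hR1 (tau j) (fun p => by simp [tau])
  have hprod := h3 j R hj
  have h4 : Gs 1 R ^ 2 * Smod 1 R 2 (tau j) ≤ C * GG j := by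
    have h5 := (abs_le.mp hsm).2
    have h6 : (∏ p ∈ Pr 1 R, (1 + 4 ^ 2 * ∑ J ∈ (univ : Finset (Fin 2)).powerset.filter (fun J => J ≠ ∅),
      3 ^ J.card * |tau j p J - (1 / (p : ℝ)) ^ J.card|)) ≤ C * GG j := hprod
    linarith
  have hGpos : 0 < Gs 1 R := by linarith
  have h7 : Smod 1 R 2 (tau j) ≤ C * GG j / Real.log R ^ 2 := by
    have h8 : Smod 1 R 2 (tau j) ≤ C * GG j / Gs 1 R ^ 2 := by
      rw [le_div_iff₀ (by positivity)]
      linarith
    refine h8.trans ?_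
    have hCG : 0 ≤ C * GG j := (mul_pos hC (GG_pos j)).le
    exact div_le_div_of_nonneg_left hCG (by positivity) (pow_le_pow_left₀ hlog.le hGl 2)
  have hsa := (abs_le.mp (h2 j N R hj hN hR1)).2
  have h9 : (∑ k ∈ Icc 1 N, Lam 1 R k ^ 2 * Lam 1 R (j * k + 1) ^ 2) / (N : ℝ) ≤
      C * GG j / Real.log R ^ 2 + (R : ℝ) ^ 4 / (N : ℝ) := by linarith
  rw [div_le_iff₀ hN0] at h9
  refine (card_le j N R hj hR1).trans (h9.trans (le_of_eq ?_))
  field_simp

end Pool.Agent.Work.MP_8d13b5_lc.LG
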