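import Pool.Agent.Work.MP_8d13b5_lc.LG.StmtsS

/-!
# MP_8d13b5_lc, block LG, item SD: the mean of the singular factor
-/

set_option autoImplicit false

namespace Pool.Agent.Work.MP_8d13b5_lc.LG

open Finset

namespace ISD

/-- primes up to `J` -/
def PJ (J : ℕ) : Finset ℕ := (Icc 1 J).filter Nat.Prime

theorem primeFactors_eq (J j : ℕ) (hj : j ∈ Icc 1 J) :
    j.primeFactors = (PJ J).filter (fun p => p ∣ j) := by
  rw [mem_Icc] at hj
  ext p
  rw [Nat.mem_primeFactors, mem_filter, PJ, mem_filter, mem_Icc]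
  constructor
  · rintro ⟨hp, hpj, _⟩
    exact ⟨⟨⟨hp.one_le, (Nat.le_of_dvd (by omega) hpj).trans hj.2⟩, hp⟩, hpj⟩
  · rintro ⟨⟨_, hp⟩, hpj⟩
    exact ⟨hp, hpj, by omega⟩

theorem GG_eq (J j : ℕ) (hj : j ∈ Icc 1 J) :
    GG j = ∑ S ∈ (PJ J).powerset, if ∀ p ∈ S, p ∣ j then ∏ p ∈ S, (192 / (p : ℝ)) else 0 := by
  unfold GG
  rw [primeFactors_eq J j hj, Finset.prod_one_add, ← Finset.sum_filter]
  refine Finset.sum_congr ?_ fun _ _ => rfl
  ext S
  simp only [mem_powerset, mem_filter]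
  constructor
  · intro h
    exact ⟨h.trans (Finset.filter_subset _ _), fun p hp => (mem_filter.1 (h hp)).2⟩
  · rintro ⟨h1, h2⟩ p hp
    exact mem_filter.2 ⟨h1 hp, h2 p hp⟩

theorem harm (J n : ℕ) (hn : 1 ≤ n) :
    ∑ j ∈ (Icc 1 J).filter (fun j => n ∣ j), 1 / (j : ℝ) ≤ 1 / (n : ℝ) * (1 + Real.log J) := by
  have hn0 : (0 : ℝ) < n := by exact_mod_cast hn
  have hsub : (Icc 1 J).filter (fun j => n ∣ j) ⊆ (Icc 1 J).image (fun m => n * m) := by
    intro j hj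
    rw [mem_filter, mem_Icc] at hj
    obtain ⟨⟨h1, h2⟩, m, rfl⟩ := hj
    rw [mem_image]
    have hm : 1 ≤ m := by
      rcases Nat.eq_zero_or_pos m with rfl | h
      · simp at h1
      · exact h
    exact ⟨m, mem_Icc.2 ⟨hm, (Nat.le_mul_of_pos_left m hn).trans h2⟩, rfl⟩
  calc ∑ j ∈ (Icc 1 J).filter (fun j => n ∣ j), 1 / (j : ℝ)
      ≤ ∑ j ∈ (Icc 1 J).image (fun m => n * m), 1 / (j : ℝ) :=
        Finset.sum_le_sum_of_subset_of_nonneg hsub fun _ _ _ => by positivity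
    _ = ∑ m ∈ Icc 1 J, 1 / ((n * m : ℕ) : ℝ) := by
        rw [Finset.sum_image]
        intro a _ b _ hab
        exact Nat.eq_of_mul_eq_mul_left hn hab
    _ = 1 / (n : ℝ) * ∑ m ∈ Icc 1 J, 1 / (m : ℝ) := by
        rw [Finset.mul_sum]
        refine Finset.sum_congr rfl fun m _ => ?_
        push_cast
        rw [one_div_mul_one_div]
    _ ≤ 1 / (n : ℝ) * (1 + Real.log J) := by
        refine mul_le_mul_of_nonneg_left ?_ (by positivity)
        have h := harmonic_le_one_add_log J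
        have h2 : ((harmonic J : ℚ) : ℝ) = ∑ m ∈ Icc 1 J, 1 / (m : ℝ) := by
          rw [harmonic_eq_sum_Icc]
          push_cast
          refine Finset.sum_congr rfl fun m _ => ?_
          simp
        rw [← h2]
        exact h

theorem prod_dvd (S : Finset ℕ) (hS : ∀ p ∈ S, p.Prime) (j : ℕ) (h : ∀ p ∈ S, p ∣ j) :
    (∏ p ∈ S, p) ∣ j := by
  refine Finset.prod_primes_dvd j (fun p hp => (hS p hp).prime) h

end ISD

open ISD in
/-- **item SD** -/
theorem pr_SD : StSD := by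
  classical
  refine ⟨Real.exp (192 * ∑' n : ℕ, 1 / (n : ℝ) ^ 2), Real.exp_pos _, fun J hJ => ?_⟩
  have hlog : 0 ≤ 1 + Real.log J := by
    have := Real.log_nonneg (x := (J : ℝ)) (by exact_mod_cast hJ)
    linarith
  have hPJ : ∀ S ∈ (PJ J).powerset, ∀ p ∈ S, p.Prime := by
    intro S hS p hp
    have := (mem_powerset.1 hS) hp
    rw [PJ, mem_filter] at this
    exact this.2
  have e1 : ∑ j ∈ Icc 1 J, GG j / (j : ℝ) = ∑ S ∈ (PJ J).powerset, (∏ p ∈ S, (192 / (p : ℝ))) *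
      ∑ j ∈ (Icc 1 J).filter (fun j => ∀ p ∈ S, p ∣ j), 1 / (j : ℝ) := by
    have h1 : ∀ j ∈ Icc 1 J, GG j / (j : ℝ) = ∑ S ∈ (PJ J).powerset,
        if ∀ p ∈ S, p ∣ j then (∏ p ∈ S, (192 / (p : ℝ))) * (1 / (j : ℝ)) else 0 := by
      intro j hj
      rw [GG_eq J j hj, Finset.sum_div]
      refine Finset.sum_congr rfl fun S _ => ?_
      split_ifs
      · rw [div_eq_mul_one_div]
      · rw [zero_div]
    rw [Finset.sum_congr rfl h1, Finset.sum_comm]
    refine Finset.sum_congr rfl fun S _ => ?_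
    rw [← Finset.sum_filter, Finset.mul_sum]
  rw [e1]
  have h2 : ∀ S ∈ (PJ J).powerset, (∏ p ∈ S, (192 / (p : ℝ))) *
      ∑ j ∈ (Icc 1 J).filter (fun j => ∀ p ∈ S, p ∣ j), 1 / (j : ℝ) ≤
      (∏ p ∈ S, (192 / (p : ℝ) ^ 2)) * (1 + Real.log J) := by
    intro S hS
    have hn : 1 ≤ ∏ p ∈ S, p := Nat.one_le_iff_ne_zero.2
      (Finset.prod_ne_zero_iff.2 fun p hp => (hPJ S hS p hp).ne_zero)
    have h3 : ∑ j ∈ (Icc 1 J).filter (fun j => ∀ p ∈ S, p ∣ j), 1 / (j : ℝ) ≤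
        1 / ((∏ p ∈ S, p : ℕ) : ℝ) * (1 + Real.log J) := by
      refine le_trans ?_ (harm J _ hn)
      refine Finset.sum_le_sum_of_subset_of_nonneg ?_ fun _ _ _ => by positivity
      intro j hj
      rw [mem_filter] at hj ⊢
      exact ⟨hj.1, prod_dvd S (hPJ S hS) j hj.2⟩
    have h4 : 0 ≤ ∏ p ∈ S, (192 / (p : ℝ)) := Finset.prod_nonneg fun p _ => by positivity
    refine (mul_le_mul_of_nonneg_left h3 h4).trans (le_of_eq ?_)
    rw [← mul_assoc]
    congr 1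
    push_cast
    rw [one_div, ← Finset.prod_inv_distrib, ← Finset.prod_mul_distrib]
    refine Finset.prod_congr rfl fun p _ => ?_
    rw [pow_two, div_mul_eq_div_div, div_eq_mul_inv (192 / (p : ℝ))]
  refine (Finset.sum_le_sum h2).trans ?_
  rw [← Finset.sum_mul, ← Finset.prod_one_add]
  refine mul_le_mul_of_nonneg_right ?_ hlog
  calc ∏ p ∈ PJ J, (1 + 192 / (p : ℝ) ^ 2)
      ≤ ∏ p ∈ PJ J, Real.exp (192 / (p : ℝ) ^ 2) := by
        refine Finset.prod_le_prod (fun p _ => by positivity) fun p _ => ?_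
        rw [add_comm]
        exact Real.add_one_le_exp _
    _ = Real.exp (∑ p ∈ PJ J, 192 / (p : ℝ) ^ 2) := (Real.exp_sum _ _).symm
    _ ≤ Real.exp (192 * ∑' n : ℕ, 1 / (n : ℝ) ^ 2) := by
        apply Real.exp_le_exp.2
        have h5 : ∑ p ∈ PJ J, 192 / (p : ℝ) ^ 2 = 192 * ∑ p ∈ PJ J, 1 / (p : ℝ) ^ 2 := by
          rw [Finset.mul_sum]
          exact Finset.sum_congr rfl fun p _ => by ring
        rw [h5]
        refine mul_le_mul_of_nonneg_left ?_ (by norm_num)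
        exact (Real.summable_one_div_nat_pow.2 one_lt_two).sum_le_tsum _ fun _ _ => by positivity

end Pool.Agent.Work.MP_8d13b5_lc.LG
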