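import Pool.Agent.Work.MP_8d13b5_lc.LG.StmtsS

/-!
# MP_8d13b5_lc, block LG, item SE: few primes `p` with a large prime factor of `p - 1`
-/

set_option autoImplicit false

open Polynomial Filter Topology NumberField Finset
open Pool.Agent.Work.MP_8d13b5_lc.Ex2.Sel

namespace Pool.Agent.Work.MP_8d13b5_lc.LG

namespace ISE

theorem GG_nonneg (j : ℕ) : 0 ≤ GG j := by
  unfold GG
  exact Finset.prod_nonneg fun p _ => by positivity

/-- the counting step -/
theorem count (y J R : ℕ) (e : ℝ) (hy : 0 < y) (hJ : ∀ j : ℕ, (j : ℝ) ≤ 2 * (y : ℝ) ^ e → j ≤ J)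
    (hR : ∀ q : ℕ, (y : ℝ) ^ (1 - e) < (q : ℝ) → R < q) :
    Set.ncard {p : ℕ | p ∈ Ioc y (2 * y) ∧ p.Prime ∧ ∃ q : ℕ, q.Prime ∧ q ∣ p - 1 ∧
      (y : ℝ) ^ (1 - e) < (q : ℝ)} ≤
    ∑ j ∈ Icc 1 J, ((Icc 1 (2 * y / j)).filter
      (fun q => q.Prime ∧ R < q ∧ (j * q + 1).Prime)).card := by
  have hyr : (0 : ℝ) < (y : ℝ) := by exact_mod_cast hy
  have hsub : {p : ℕ | p ∈ Ioc y (2 * y) ∧ p.Prime ∧ ∃ q : ℕ, q.Prime ∧ q ∣ p - 1 ∧
      (y : ℝ) ^ (1 - e) < (q : ℝ)} ⊆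
      ((((Icc 1 J).biUnion fun j => ((Icc 1 (2 * y / j)).filter
        (fun q => q.Prime ∧ R < q ∧ (j * q + 1).Prime)).image fun q => j * q + 1) :
          Finset ℕ) : Set ℕ) := by
    rintro p ⟨hp1, hp2, q, hq, ⟨j, hj⟩, hqy⟩
    rw [mem_Ioc] at hp1
    have hp3 := hp2.two_le
    have hq0 := hq.pos
    have hj0 : 0 < j := by
      rcases Nat.eq_zero_or_pos j with h | h
      · rw [h, mul_zero] at hj
        omega
      · exact h
    have hpj : j * q + 1 = p := by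
      rw [mul_comm j q, ← hj]
      omega
    have hjq : q * j ≤ 2 * y := by omega
    rw [Finset.coe_biUnion, Set.mem_iUnion₂]
    refine ⟨j, ?_, ?_⟩
    · rw [Finset.mem_coe, mem_Icc]
      refine ⟨hj0, hJ j ?_⟩
      have h1 : (q : ℝ) * j ≤ 2 * y := by exact_mod_cast hjq
      have h2 : (0 : ℝ) < (y : ℝ) ^ (1 - e) := Real.rpow_pos_of_pos hyr _
      have h3 : (y : ℝ) ^ e * (y : ℝ) ^ (1 - e) = y := by
        rw [← Real.rpow_add hyr, add_sub_cancel, Real.rpow_one]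
      have h4 : (0 : ℝ) ≤ (j : ℝ) := Nat.cast_nonneg j
      have h5 : (y : ℝ) ^ (1 - e) * j ≤ (q : ℝ) * j := mul_le_mul_of_nonneg_right hqy.le h4
      by_contra hcon
      rw [not_le] at hcon
      have h6 : 2 * (y : ℝ) ^ e * (y : ℝ) ^ (1 - e) < j * (y : ℝ) ^ (1 - e) :=
        mul_lt_mul_of_pos_right hcon h2
      nlinarith
    · rw [Finset.mem_coe, mem_image]
      refine ⟨q, ?_, hpj⟩
      rw [mem_filter, mem_Icc]
      refine ⟨⟨hq0, (Nat.le_div_iff_mul_le hj0).2 hjq⟩, hq, hR q hqy, ?_⟩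
      rw [hpj]
      exact hp2
  refine (Set.ncard_le_ncard hsub (Finset.finite_toSet _)).trans ?_
  rw [Set.ncard_coe_finset]
  refine card_biUnion_le.trans (sum_le_sum fun j _ => card_image_le)

end ISE

open ISE in
theorem pr_SE (h1 : StSC) (h2 : StSD) : StSE := by
  obtain ⟨C1, hC1, hSC⟩ := h1
  obtain ⟨C2, hC2, hSD⟩ := h2
  refine ⟨4096 * C1 * C2 + 1, by positivity, fun e he he2 => ?_⟩
  have hev : ∀ᶠ y : ℕ in atTop, (2 : ℕ) ^ 32 ≤ y ∧ 2 ≤ e * Real.log (y : ℝ) ∧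
      2 * Real.log (y : ℝ) ≤ e * (y : ℝ) ^ (1 / 4 : ℝ) := by
    refine (eventually_ge_atTop _).and (Filter.Eventually.and ?_ ?_)
    · have h3 : Tendsto (fun y : ℕ => e * Real.log (y : ℝ)) atTop atTop :=
        (Real.tendsto_log_atTop.comp tendsto_natCast_atTop_atTop).const_mul_atTop he
      exact h3.eventually_ge_atTop 2
    · have h3 := (isLittleO_log_rpow_atTop (by norm_num : (0 : ℝ) < 1 / 4)).bound
        (half_pos he)
      have h4 := tendsto_natCast_atTop_atTop (R := ℝ).eventually h3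
      filter_upwards [h4] with y hy
      rw [Real.norm_eq_abs, Real.norm_eq_abs,
        abs_of_nonneg (Real.rpow_nonneg (Nat.cast_nonneg y) _)] at hy
      have h5 := le_abs_self (Real.log (y : ℝ))
      linarith
  obtain ⟨y0, hy0⟩ := eventually_atTop.1 hev
  refine ⟨y0, fun y hy => ?_⟩
  obtain ⟨ha, hb, hc⟩ := hy0 y hy
  have hy1 : ((2 : ℝ)) ^ 32 ≤ (y : ℝ) := by exact_mod_cast ha
  have hypos : 0 < y := lt_of_lt_of_le (by norm_num) ha
  have hyr : (0 : ℝ) < (y : ℝ) := by exact_mod_cast hypos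
  have hyge : (1 : ℝ) ≤ (y : ℝ) := by exact_mod_cast hypos
  set t : ℝ := (y : ℝ) ^ (1 / 32 : ℝ) with ht
  have ht32 : t ^ 32 = y := by
    rw [ht, ← Real.rpow_natCast, ← Real.rpow_mul hyr.le]
    norm_num
  have ht0 : 0 < t := Real.rpow_pos_of_pos hyr _
  have ht2 : 2 ≤ t := by
    by_contra hcon
    rw [not_le] at hcon
    have := pow_lt_pow_left₀ hcon ht0.le (by norm_num : (32 : ℕ) ≠ 0)
    rw [ht32] at this
    linarith
  have ht16 : (y : ℝ) ^ (1 / 16 : ℝ) = t ^ 2 := by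
    rw [ht, ← Real.rpow_natCast, ← Real.rpow_mul hyr.le]
    norm_num
  have ht4 : (y : ℝ) ^ (1 / 4 : ℝ) = t ^ 8 := by
    rw [ht, ← Real.rpow_natCast, ← Real.rpow_mul hyr.le]
    norm_num
  have hth : (y : ℝ) ^ (1 / 2 : ℝ) = t ^ 16 := by
    rw [ht, ← Real.rpow_natCast, ← Real.rpow_mul hyr.le]
    norm_num
  set L := Real.log (y : ℝ) with hL
  have hLpos : 0 < L := by
    by_contra hcon
    rw [not_lt] at hcon
    nlinarith
  have hlogt : Real.log t = L / 32 := by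
    rw [ht, Real.log_rpow hyr]
    ring
  set R : ℕ := ⌊t ^ 2⌋₊ with hR
  have hR1 : (R : ℝ) ≤ t ^ 2 := Nat.floor_le (by positivity)
  have hR2 : t ≤ (R : ℝ) := by
    have h3 := Nat.lt_floor_add_one (t ^ 2)
    rw [← hR] at h3
    nlinarith
  have hR2' : 2 ≤ R := by
    have : (2 : ℝ) ≤ (R : ℝ) := ht2.trans hR2
    exact_mod_cast this
  have hlogR : L / 32 ≤ Real.log R := by
    rw [← hlogt]
    exact Real.log_le_log ht0 hR2
  have hR4 : (R : ℝ) ^ 4 ≤ t ^ 8 := by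
    have := pow_le_pow_left₀ (Nat.cast_nonneg R) hR1 4
    calc (R : ℝ) ^ 4 ≤ (t ^ 2) ^ 4 := this
      _ = t ^ 8 := by ring
  set J : ℕ := ⌊2 * (y : ℝ) ^ e⌋₊ with hJ
  have hye : (1 : ℝ) ≤ (y : ℝ) ^ e := Real.one_le_rpow hyge he.le
  have hyeh : (y : ℝ) ^ e ≤ t ^ 16 := by
    rw [← hth]
    exact Real.rpow_le_rpow_of_exponent_le hyge he2
  have hJ1 : (J : ℝ) ≤ 2 * (y : ℝ) ^ e := Nat.floor_le (by positivity)
  have hJ0 : 1 ≤ J := Nat.le_floor (by push_cast; linarith)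
  have hcount := count y J R e hypos (fun j hj => Nat.le_floor hj) (by
    intro q hq
    have h3 : (R : ℝ) < q := by
      refine lt_of_le_of_lt (hR1.trans ?_) hq
      rw [← ht16]
      exact Real.rpow_le_rpow_of_exponent_le hyge (by linarith)
    exact_mod_cast h3)
  -- one j
  have hone : ∀ j ∈ Icc 1 J, (((Icc 1 (2 * y / j)).filter
      (fun q => q.Prime ∧ R < q ∧ (j * q + 1).Prime)).card : ℝ) ≤
      2048 * C1 * y / L ^ 2 * (GG j / j) + t ^ 8 := by
    intro j hj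
    rw [mem_Icc] at hj
    have hj0 : (0 : ℝ) < (j : ℝ) := by exact_mod_cast hj.1
    have hG := GG_nonneg j
    rcases Nat.eq_zero_or_pos (2 * y / j) with hN | hN
    · rw [hN]
      have h3 : (((Icc 1 0).filter
        (fun q => q.Prime ∧ R < q ∧ (j * q + 1).Prime)).card : ℝ) = 0 := by simp
      rw [h3]
      positivity
    · have h3 := hSC j (2 * y / j) R hj.1 hN hR2'
      refine h3.trans (add_le_add ?_ hR4)
      have h4 : ((2 * y / j : ℕ) : ℝ) ≤ 2 * y / j := by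
        have := @Nat.cast_div_le ℝ _ _ _ (2 * y) j
        push_cast at this
        exact this
      have h5 : (L / 32) ^ 2 ≤ Real.log R ^ 2 := pow_le_pow_left₀ (by positivity) hlogR 2
      have h6 : 0 < (L / 32) ^ 2 := by positivity
      calc C1 * GG j * ((2 * y / j : ℕ) : ℝ) / Real.log R ^ 2
          ≤ C1 * GG j * (2 * y / j) / (L / 32) ^ 2 := by
            refine div_le_div₀ (by positivity) ?_ h6 h5
            exact mul_le_mul_of_nonneg_left h4 (by positivity)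
        _ = 2048 * C1 * y / L ^ 2 * (GG j / j) := by
            field_simp
            ring
  have hsum : (∑ j ∈ Icc 1 J, (((Icc 1 (2 * y / j)).filter
      (fun q => q.Prime ∧ R < q ∧ (j * q + 1).Prime)).card : ℝ)) ≤
      2048 * C1 * y / L ^ 2 * (C2 * (1 + Real.log J)) + J * t ^ 8 := by
    refine (sum_le_sum hone).trans ?_
    rw [sum_add_distrib, ← mul_sum, sum_const, Nat.card_Icc, Nat.add_sub_cancel, nsmul_eq_mul]
    refine add_le_add ?_ le_rfl
    exact mul_le_mul_of_nonneg_left (hSD J hJ0) (by positivity)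
  have hlogJ : 1 + Real.log J ≤ 2 * (e * L) := by
    have hJr : (0 : ℝ) < (J : ℝ) := by exact_mod_cast hJ0
    have h3 : Real.log J ≤ Real.log (2 * (y : ℝ) ^ e) := Real.log_le_log hJr hJ1
    rw [Real.log_mul two_ne_zero (by positivity), Real.log_rpow hyr] at h3
    have h4 : Real.log 2 ≤ 1 := by
      have := Real.log_two_lt_d9
      linarith
    linarith
  have hfin1 : 2048 * C1 * y / L ^ 2 * (C2 * (1 + Real.log J)) ≤
      4096 * C1 * C2 * e * y / L := by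
    have h3 : C2 * (1 + Real.log J) ≤ C2 * (2 * (e * L)) :=
      mul_le_mul_of_nonneg_left hlogJ hC2.le
    refine (mul_le_mul_of_nonneg_left h3 (by positivity)).trans (le_of_eq ?_)
    field_simp
    norm_num
  have hfin2 : (J : ℝ) * t ^ 8 ≤ e * y / L := by
    rw [le_div_iff₀ hLpos]
    have h3 : (J : ℝ) * t ^ 8 ≤ 2 * t ^ 16 * t ^ 8 :=
      mul_le_mul_of_nonneg_right (hJ1.trans (by linarith)) (by positivity)
    have h4 : 2 * L ≤ e * t ^ 8 := by
      rw [← ht4]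
      exact hc
    calc (J : ℝ) * t ^ 8 * L ≤ 2 * t ^ 16 * t ^ 8 * L := mul_le_mul_of_nonneg_right h3 hLpos.le
      _ = t ^ 24 * (2 * L) := by ring
      _ ≤ t ^ 24 * (e * t ^ 8) := mul_le_mul_of_nonneg_left h4 (by positivity)
      _ = e * t ^ 32 := by ring
      _ = e * y := by rw [ht32]
  have hcast : (Set.ncard {p : ℕ | p ∈ Ioc y (2 * y) ∧ p.Prime ∧ ∃ q : ℕ, q.Prime ∧
      q ∣ p - 1 ∧ (y : ℝ) ^ (1 - e) < (q : ℝ)} : ℝ) ≤ ∑ j ∈ Icc 1 J,
      (((Icc 1 (2 * y / j)).filter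
        (fun q => q.Prime ∧ R < q ∧ (j * q + 1).Prime)).card : ℝ) := by
    exact_mod_cast hcount
  refine (hcast.trans hsum).trans ((add_le_add hfin1 hfin2).trans (le_of_eq ?_))
  ring

end Pool.Agent.Work.MP_8d13b5_lc.LG
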