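import Pool.Agent.Work.MP_8d13b5_lc.LG.I_SM
import Pool.Agent.Work.MP_8d13b5_lc.LG.I_SA
import Pool.Agent.Work.MP_8d13b5_lc.LG.I_SB
import Pool.Agent.Work.MP_8d13b5_lc.LG.I_SC
import Pool.Agent.Work.MP_8d13b5_lc.LG.I_SD
import Pool.Agent.Work.MP_8d13b5_lc.LG.I_SE
import Pool.Agent.Work.MP_8d13b5_lc.LG.I_GA
import Pool.Agent.Work.MP_8d13b5_lc.LG.I_GB
import Pool.Agent.Work.MP_8d13b5_lc.LG.I_GC
import Pool.Agent.Work.MP_8d13b5_lc.LG.I_GD
import Pool.Agent.Work.MP_8d13b5_lc.LG.I_GE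
import Pool.Agent.Work.MP_8d13b5_lc.LG.I_FA
import Pool.Agent.Work.MP_8d13b5_lc.LG.I_FB

/-!
# MP_8d13b5_lc, block LG, part S: assembly
-/

set_option autoImplicit false

namespace Pool.Agent.Work.MP_8d13b5_lc.LG

/-- Mertens for number fields implies the supply of moduli with a small period. -/
theorem sup_of_mer (mer : StMer) : StSup :=
  sup_of mer pr_SM pr_SA pr_SB pr_SC pr_SD pr_SE pr_GA pr_GB pr_GC pr_GD pr_GE pr_FA pr_FB

end Pool.Agent.Work.MP_8d13b5_lc.LG
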