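import Pool.Agent.Work.MP_8d13b5_lc.LG.StmtsK

set_option autoImplicit false

open Polynomial NumberField Module

namespace Pool.Agent.Work.MP_8d13b5_lc.LG

namespace JAB

/-- a number field of degree `v` has no primitive `l ^ (v + 1)`-th root of unity -/
theorem no_root (K : Type) [Field K] [NumberField K] (l : ℕ) (hl : l.Prime) (x : K) :
    ¬ IsPrimitiveRoot x (l ^ (finrank ℚ K + 1)) := by
  intro hx
  have hpos : 0 < l ^ (finrank ℚ K + 1) := pow_pos hl.pos _
  have h1 := hx.totient_le_degree_minpoly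
  have hint : IsIntegral ℤ x := hx.isIntegral hpos
  have h2 : (minpoly ℤ x).natDegree = (minpoly ℚ x).natDegree := by
    rw [minpoly.isIntegrallyClosed_eq_field_fractions' ℚ hint,
      (minpoly.monic hint).natDegree_map]
  have h3 : (minpoly ℚ x).natDegree ≤ finrank ℚ K := minpoly.natDegree_le x
  rw [Nat.totient_prime_pow_succ hl] at h1
  have h4 : finrank ℚ K < 2 ^ finrank ℚ K := Nat.lt_two_pow_self
  have h5 : 2 ^ finrank ℚ K ≤ l ^ finrank ℚ K := Nat.pow_le_pow_left hl.two_le _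
  have h6 : l ^ finrank ℚ K ≤ l ^ finrank ℚ K * (l - 1) :=
    Nat.le_mul_of_pos_right _ (Nat.sub_pos_of_lt hl.one_lt)
  omega

theorem step (hAb : StAb) (K : Type) [Field K] [NumberField K] (l : ℕ) (δ : K) (hl : l.Prime)
    (hδ : δ ≠ 0) (b e : ℕ) (F : Type) [Field F] [Algebra K F] (ζ β : F)
    (hζ : IsPrimitiveRoot ζ (l ^ e)) (hβ : β ∈ IntermediateField.adjoin K {ζ})
    (hβδ : β ^ (l ^ b) = algebraMap K F δ) :
    ∃ κ : K, δ ^ (l ^ (finrank ℚ K)) = κ ^ (l ^ b) := by
  set v := finrank ℚ K with hv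
  obtain ⟨m, hm⟩ : ∃ m : ℕ, m = l ^ max e (v + 1) := ⟨_, rfl⟩
  have hm0 : m ≠ 0 := hm ▸ pow_ne_zero _ hl.ne_zero
  have : NeZero m := ⟨hm0⟩
  have : NeZero (m : K) := ⟨Nat.cast_ne_zero.2 hm0⟩
  have hgal : IsGalois K (CyclotomicField m K) := IsCyclotomicExtension.isGalois {m} K _
  have hfd : FiniteDimensional K (CyclotomicField m K) :=
    IsCyclotomicExtension.finiteDimensional {m} K _
  have hem : l ^ e ∣ m := by
    rw [hm]
    exact pow_dvd_pow l (le_max_left _ _)
  have hvm : l ^ (v + 1) ∣ m := by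
    rw [hm]
    exact pow_dvd_pow l (le_max_right _ _)
  -- the embedding
  have hspl : ((X ^ m - 1 : K[X]).map (algebraMap K (CyclotomicField m K))).Splits :=
    IsCyclotomicExtension.splits_X_pow_sub_one K (CyclotomicField m K) (Set.mem_singleton m)
  have hζm : ζ ^ m = 1 := by
    obtain ⟨k, hk⟩ := hem
    rw [hk, pow_mul, hζ.pow_eq_one, one_pow]
  have hint : IsIntegral K ζ := by
    refine ⟨X ^ m - 1, monic_X_pow_sub_C _ hm0, ?_⟩
    simp [hζm]
  have hdvd : minpoly K ζ ∣ X ^ m - 1 := minpoly.dvd K ζ (by simp [hζm])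
  obtain ⟨f⟩ : Nonempty (IntermediateField.adjoin K {ζ} →ₐ[K] CyclotomicField m K) := by
    refine IntermediateField.nonempty_algHom_adjoin_of_splits fun s hs => ?_
    rw [Set.mem_singleton_iff] at hs
    subst hs
    refine ⟨hint, hspl.of_dvd ?_ (Polynomial.map_dvd _ hdvd)⟩
    exact (Polynomial.map_ne_zero_iff (algebraMap K (CyclotomicField m K)).injective).2
      (by rw [← C_1]; exact X_pow_sub_C_ne_zero (Nat.pos_of_ne_zero hm0) 1)
  set β' : CyclotomicField m K := f ⟨β, hβ⟩ with hβ'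
  have hβ'δ : β' ^ (l ^ b) = algebraMap K (CyclotomicField m K) δ := by
    rw [hβ', ← map_pow]
    have h1 : (⟨β, hβ⟩ : IntermediateField.adjoin K {ζ}) ^ (l ^ b) = algebraMap K _ δ := by
      refine Subtype.ext ?_
      exact hβδ
    rw [h1, AlgHom.commutes]
  -- the root of unity
  have hξ := IsCyclotomicExtension.zeta_spec m K (CyclotomicField m K)
  obtain ⟨k, hk⟩ := hvm
  have hξ' : IsPrimitiveRoot (IsCyclotomicExtension.zeta m K (CyclotomicField m K) ^ k)
      (l ^ (v + 1)) := hξ.pow (Nat.pos_of_ne_zero hm0) (by rw [hk, mul_comm])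
  refine hAb K (CyclotomicField m K) l b v δ β'
    (IsCyclotomicExtension.zeta m K (CyclotomicField m K) ^ k) hl hδ ?_ hβ'δ hξ'.pow_eq_one ?_
  · have hc : IsMulCommutative (CyclotomicField m K ≃ₐ[K] CyclotomicField m K) :=
      IsCyclotomicExtension.isMulCommutative {m} K _
    intro s t
    exact hc.is_comm.comm s t
  · intro hmem
    rw [IntermediateField.mem_bot] at hmem
    obtain ⟨x, hx⟩ := hmem
    rw [← hx] at hξ'
    exact no_root K l hl x (hξ'.of_map_of_injective (algebraMap K (CyclotomicField m K)).injective)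

end JAB

open JAB in
theorem prAB (hAb : StAb) (hDiv : StDiv) : StAB := by
  intro K _ _ l δ hl hδ hroot
  by_contra hcon
  push Not at hcon
  have h1 : ∀ b : ℕ, ∃ y : K, δ ^ (l ^ (finrank ℚ K)) = y ^ (l ^ b) := by
    intro b
    obtain ⟨e, F, _, _, ζ, β, h1, h2, h3⟩ := hcon b
    exact step hAb K l δ hl hδ b e F ζ β h1 h2 h3
  obtain ⟨n, hn, hn1⟩ := hDiv K l (δ ^ (l ^ (finrank ℚ K))) hl (pow_ne_zero _ hδ) h1
  rw [← pow_mul] at hn1
  exact hroot _ (Nat.mul_pos (pow_pos hl.pos _) hn) hn1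

end Pool.Agent.Work.MP_8d13b5_lc.LG
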