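import Pool.Agent.Work.MP_8d13b5_lc.LG.StmtsK

/-!
# MP_8d13b5_lc, block LG, item Ab: roots in abelian extensions (Schinzel)
-/

set_option autoImplicit false

open Polynomial NumberField Module

namespace Pool.Agent.Work.MP_8d13b5_lc.LG

namespace JAb

lemma act {K F : Type} [Field K] [Field F] [Algebra K F] (s : F ≃ₐ[K] F) (n : ℕ) [NeZero n] :
    ∃ m : ℤ, ∀ x : F, x ^ n = 1 → s x = x ^ m := by
  obtain ⟨m, hm⟩ := rootsOfUnity.integer_power_of_ringEquiv' n (s : F ≃+* F)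
  refine ⟨m, fun x hx => ?_⟩
  have h1 := hm ((rootsOfUnity.mkOfPowEq x hx : rootsOfUnity n F) : Fˣ)
    (rootsOfUnity.mkOfPowEq x hx).2
  rw [Units.val_zpow_eq_zpow_val, rootsOfUnity.coe_mkOfPowEq] at h1
  exact h1

end JAb

open JAb

theorem prAb : StAb := by
  intro K F _ _ _ _ _ _ l b v δ β ζ hl hδ hcom hβ hζ hζK
  have hβ0 : β ≠ 0 := by
    rintro rfl
    rw [zero_pow (pow_ne_zero _ hl.ne_zero)] at hβ
    exact hδ ((map_eq_zero (algebraMap K F)).1 hβ.symm)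
  set E := max b (v + 1) with hE
  have : NeZero (l ^ E) := ⟨pow_ne_zero _ hl.ne_zero⟩
  choose m hm using fun s : F ≃ₐ[K] F => act s (l ^ E)
  have hup : ∀ (e : ℕ) (x : F), e ≤ E → x ^ (l ^ e) = 1 → x ^ (l ^ E) = 1 := by
    intro e x he hx
    rw [← Nat.sub_add_cancel he, pow_add, mul_comm, pow_mul, hx, one_pow]
  -- the cocycle
  have hw1 : ∀ s : F ≃ₐ[K] F, (s β / β) ^ (l ^ b) = 1 := by
    intro s
    rw [div_pow, ← map_pow, hβ, AlgEquiv.commutes, div_self]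
    exact (map_ne_zero (algebraMap K F)).2 hδ
  have hwE : ∀ s : F ≃ₐ[K] F, (s β / β) ^ (l ^ E) = 1 := fun s =>
    hup b _ (le_max_left _ _) (hw1 s)
  have hw0 : ∀ s : F ≃ₐ[K] F, s β / β ≠ 0 := fun s =>
    div_ne_zero (by rw [Ne, EmbeddingLike.map_eq_zero_iff]; exact hβ0) hβ0
  have hsβ : ∀ s : F ≃ₐ[K] F, s β = (s β / β) * β := fun s => by
    rw [div_mul_cancel₀ _ hβ0]
  have hcomm : ∀ s t : F ≃ₐ[K] F,
      (t β / β) ^ (m s) * (s β / β) = (s β / β) ^ (m t) * (t β / β) := by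
    intro s t
    have h1 : ∀ s t : F ≃ₐ[K] F, (s * t) β = (t β / β) ^ (m s) * (s β / β) * β := by
      intro s t
      change s (t β) = _
      conv_lhs => rw [hsβ t, map_mul, hm s _ (hwE t), hsβ s]
      rw [mul_assoc]
    have h2 := h1 s t
    rw [hcom s t, h1 t s] at h2
    exact (mul_right_cancel₀ hβ0 h2).symm
  -- an automorphism which moves ζ
  have hex : ∃ s : F ≃ₐ[K] F, s ζ ≠ ζ := by
    by_contra hne
    push Not at hne
    exact hζK ((IsGalois.mem_bot_iff_fixed ζ).2 hne)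
  obtain ⟨s, hs⟩ := hex
  have hζ0 : ζ ≠ 0 := by
    rintro rfl
    exact hs (map_zero _)
  set k : ℤ := m s - 1 with hk
  have hkdvd : ¬ ((l : ℤ) ^ (v + 1)) ∣ k := by
    rintro ⟨c, hc⟩
    apply hs
    rw [hm s ζ (hup (v + 1) ζ (le_max_right _ _) hζ)]
    have h1 : m s = 1 + (l : ℤ) ^ (v + 1) * c := by rw [← hc, hk]; ring
    rw [h1, zpow_add₀ hζ0, zpow_one, zpow_mul]
    have h2 : ζ ^ ((l : ℤ) ^ (v + 1)) = 1 := by
      have : ((l : ℤ) ^ (v + 1)) = ((l ^ (v + 1) : ℕ) : ℤ) := by push_cast; rfl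
      rw [this, zpow_natCast, hζ]
    rw [h2, one_zpow, mul_one]
  set η : F := s β / β with hη
  have hη0 : η ≠ 0 := hw0 s
  -- β ^ k / η is fixed
  have hfix : ∀ t : F ≃ₐ[K] F, t (β ^ k / η) = β ^ k / η := by
    intro t
    have h1 : (t β / β) ^ k = η ^ (m t - 1) := by
      have h2 := hcomm s t
      rw [← hη] at h2
      have h3 : (t β / β) ^ (m s) = (t β / β) ^ k * (t β / β) := by
        rw [hk, zpow_sub_one₀ (hw0 t), inv_mul_cancel_right₀ (hw0 t)]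
      have h4 : η ^ (m t) = η ^ (m t - 1) * η := by
        rw [zpow_sub_one₀ hη0, inv_mul_cancel_right₀ hη0]
      rw [h3, h4] at h2
      have h5 : (t β / β) ^ k * ((t β / β) * η) = η ^ (m t - 1) * ((t β / β) * η) := by
        calc (t β / β) ^ k * ((t β / β) * η) = (t β / β) ^ k * (t β / β) * η := by ring
          _ = η ^ (m t - 1) * η * (t β / β) := h2
          _ = η ^ (m t - 1) * ((t β / β) * η) := by ring
      exact mul_right_cancel₀ (mul_ne_zero (hw0 t) hη0) h5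
    rw [map_div₀, map_zpow₀, hm t η (hwE s), hsβ t, mul_zpow, h1, zpow_sub_one₀ hη0]
    have h6 : η ^ (m t) ≠ 0 := zpow_ne_zero _ hη0
    field_simp
  obtain ⟨κ, hκ⟩ := IntermediateField.mem_bot.1 ((IsGalois.mem_bot_iff_fixed (β ^ k / η)).2 hfix)
  have hκ0 : κ ≠ 0 := by
    rintro rfl
    rw [map_zero] at hκ
    exact div_ne_zero (zpow_ne_zero _ hβ0) hη0 hκ.symm
  have hδk : δ ^ k = κ ^ (l ^ b) := by
    apply (algebraMap K F).injective
    rw [map_zpow₀, map_pow, hκ, ← hβ, div_pow, hw1 s, div_one, ← zpow_natCast, ← zpow_natCast,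
      ← zpow_mul, ← zpow_mul, mul_comm]
  -- Bezout
  have hg : Int.gcd k ((l ^ b : ℕ) : ℤ) ∣ l ^ v := by
    have h1 : Int.gcd k ((l ^ b : ℕ) : ℤ) ∣ l ^ b := by
      have := Int.gcd_dvd_right k ((l ^ b : ℕ) : ℤ)
      exact_mod_cast this
    obtain ⟨j, -, hj⟩ := (Nat.dvd_prime_pow hl).1 h1
    rw [hj]
    apply pow_dvd_pow
    by_contra hjv
    apply hkdvd
    have h2 : ((l ^ j : ℕ) : ℤ) ∣ k := by
      rw [← hj]
      exact Int.gcd_dvd_left k ((l ^ b : ℕ) : ℤ)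
    refine dvd_trans ?_ h2
    push_cast
    exact pow_dvd_pow _ (by omega)
  obtain ⟨c, hc⟩ := hg
  have hbez := Int.gcd_eq_gcd_ab k ((l ^ b : ℕ) : ℤ)
  set x := Int.gcdA k ((l ^ b : ℕ) : ℤ)
  set y := Int.gcdB k ((l ^ b : ℕ) : ℤ)
  refine ⟨(κ ^ x * δ ^ y) ^ c, ?_⟩
  rw [hc, pow_mul, ← pow_mul (κ ^ x * δ ^ y) c, mul_comm c, pow_mul]
  congr 1
  rw [← zpow_natCast, hbez, zpow_add₀ hδ, zpow_mul, hδk, mul_pow, ← zpow_natCast, ← zpow_natCast,
    ← zpow_natCast, ← zpow_mul, ← zpow_mul, ← zpow_mul, mul_comm x, mul_comm y]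

end Pool.Agent.Work.MP_8d13b5_lc.LG
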