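import Pool.Agent.Work.MP_8d13b5_lc.LG.StmtsBau

/-!
# MP_8d13b5_lc, block LG, item BC: counting the ring homomorphisms to the prime field
-/

set_option autoImplicit false

open Polynomial Filter Topology NumberField Module

namespace Pool.Agent.Work.MP_8d13b5_lc.LG

namespace BC

/-- the restriction of an automorphism to the ring of integers -/
noncomputable def rs {K F : Type} [Field K] [Field F] [Algebra K F] (σ : F ≃ₐ[K] F) :
    𝓞 F →+* 𝓞 F := RingOfIntegers.mapRingHom (σ : F →+* F)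

theorem rs_coe {K F : Type} [Field K] [Field F] [Algebra K F] (σ : F ≃ₐ[K] F) (x : 𝓞 F) :
    ((rs σ x : 𝓞 F) : F) = σ (x : F) := rfl

end BC

open BC in
/-- Item BC. -/
theorem prBC (hS : StBS) (hE : StBE) (hT : StBT) (hF : StBF) : StBC := by
  intro K F _ _ _ _ _ P hP hsp
  obtain ⟨B₁, hB₁⟩ := hE K F P hP hsp
  obtain ⟨B₂, hB₂⟩ := hF K F
  have : FiniteDimensional K F := Module.Finite.of_restrictScalars_finite ℚ K F
  have : Normal K F := Normal.of_isSplittingField (P.map (algebraMap (𝓞 K) K))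
  have hG : IsGalois K F := ⟨⟩
  refine ⟨max B₁ B₂, fun p _ hp => ?_⟩
  have hp1 : B₁ < p := (le_max_left _ _).trans_lt hp
  have hp2 : B₂ < p := (le_max_right _ _).trans_lt hp
  choose ψ hψ using hB₁ p hp1
  have hcomm : ∀ (σ : F ≃ₐ[K] F), (rs σ).comp (algebraMap (𝓞 K) (𝓞 F)) =
      algebraMap (𝓞 K) (𝓞 F) := by
    intro σ
    refine RingHom.ext fun x => ?_
    apply RingOfIntegers.coe_injective
    exact σ.commutes (x : K)
  let Θ : {φ : 𝓞 K →+* ZMod p // (P.map φ).Splits} × (F ≃ₐ[K] F) → (𝓞 F →+* ZMod p) :=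
    fun z => (ψ z.1.1 z.1.2).comp (rs z.2)
  have hΘ : ∀ z, (Θ z).comp (algebraMap (𝓞 K) (𝓞 F)) = z.1.1 := by
    intro z
    show ((ψ z.1.1 z.1.2).comp (rs z.2)).comp (algebraMap (𝓞 K) (𝓞 F)) = z.1.1
    rw [RingHom.comp_assoc, hcomm, hψ]
  have hbij : Function.Bijective Θ := by
    constructor
    · rintro ⟨⟨φ, hφ⟩, σ⟩ ⟨⟨φ', hφ'⟩, σ'⟩ h
      have h1 : φ = φ' := by
        have e1 := hΘ ⟨⟨φ, hφ⟩, σ⟩
        have e2 := hΘ ⟨⟨φ', hφ'⟩, σ'⟩
        rw [h] at e1
        exact e1.symm.trans e2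
      subst h1
      have h2 : ∀ x : 𝓞 F, ψ φ hφ (rs σ x) = ψ φ hφ (rs σ' x) := fun x =>
        DFunLike.congr_fun h x
      have h3 : σ' * σ⁻¹ = 1 := by
        refine hB₂ p hp2 (ψ φ hφ) (σ' * σ⁻¹) fun x y hxy => ?_
        have h4 := h2 (rs σ⁻¹ x)
        have e1 : rs σ (rs σ⁻¹ x) = x := by
          apply RingOfIntegers.coe_injective
          exact AlgEquiv.apply_symm_apply σ (x : F)
        have e2 : rs σ' (rs σ⁻¹ x) = y := by
          apply RingOfIntegers.coe_injective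
          exact hxy.symm
        rw [e1, e2] at h4
        exact h4
      have h5 : σ' = σ := by
        rw [mul_inv_eq_one] at h3
        exact h3
      rw [h5]
    · intro ψ'
      have hsp' : (P.map (ψ'.comp (algebraMap (𝓞 K) (𝓞 F)))).Splits :=
        hS K F P hP hsp.splits p ψ'
      obtain ⟨σ, hσ⟩ := hT K F p (ψ _ hsp') ψ' (hψ _ hsp')
      refine ⟨⟨⟨_, hsp'⟩, σ⟩, RingHom.ext fun x => ?_⟩
      exact (hσ x (rs σ x) (rs_coe σ x)).symm
  rw [← Nat.card_congr (Equiv.ofBijective Θ hbij), Nat.card_prod, mul_comm]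
  congr 1
  exact IsGalois.card_aut_eq_finrank K F

end Pool.Agent.Work.MP_8d13b5_lc.LG
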