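import Pool.Agent.Work.MP_8d13b5_lc.LG.StmtsBau

/-!
# MP_8d13b5_lc, block LG, item BE: extension of a homomorphism to a prime field
-/

set_option autoImplicit false

open Polynomial Filter Topology NumberField Module

namespace Pool.Agent.Work.MP_8d13b5_lc.LG

namespace BE

section

variable (K F : Type) [Field K] [NumberField K] [Field F] [NumberField F] [Algebra K F]

/-- the subalgebra generated by the roots -/
def subA (P : (𝓞 K)[X]) : Subalgebra (𝓞 K) (𝓞 F) :=
  Algebra.adjoin (𝓞 K) {y : 𝓞 F | eval₂ (algebraMap (𝓞 K) (𝓞 F)) y P = 0}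

/-- every element of a number field is an algebraic integer over a positive integer -/
theorem exists_mul (L : Type) [Field L] [NumberField L] (x : L) :
    ∃ n : ℕ, 0 < n ∧ ∃ a : 𝓞 L, (n : L) * x = algebraMap (𝓞 L) L a := by
  have halg : IsAlgebraic ℤ x := by
    have : IsAlgebraic ℚ x := Algebra.IsAlgebraic.isAlgebraic x
    exact (IsFractionRing.isAlgebraic_iff ℤ ℚ L).2 this
  obtain ⟨y, hy, hint⟩ := halg.exists_integral_multiple
  refine ⟨y.natAbs, Int.natAbs_pos.2 hy, ?_⟩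
  rcases Int.natAbs_eq y with h | h
  · refine ⟨⟨(y.natAbs : L) * x, ?_⟩, rfl⟩
    have e : (y.natAbs : L) * x = y • x := by
      conv_rhs => rw [h]
      rw [zsmul_eq_mul, Int.cast_natCast]
    rw [e]
    exact hint
  · refine ⟨⟨(y.natAbs : L) * x, ?_⟩, rfl⟩
    have e : (y.natAbs : L) * x = -(y • x) := by
      conv_rhs => rw [h]
      rw [zsmul_eq_mul, Int.cast_neg, Int.cast_natCast, neg_mul, neg_neg]
    rw [e]
    exact hint.neg

theorem exists_mul_mem (P : (𝓞 K)[X]) (hP : P.Monic)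
    (hF : IsSplittingField K F (P.map (algebraMap (𝓞 K) K))) (x : F) :
    ∃ n : ℕ, 0 < n ∧ ∃ a ∈ subA K F P, (n : F) * x = algebraMap (𝓞 F) F a := by
  have hx : x ∈ Algebra.adjoin K ((P.map (algebraMap (𝓞 K) K)).rootSet F) := by
    rw [IsSplittingField.adjoin_rootSet F (P.map (algebraMap (𝓞 K) K))]
    trivial
  induction hx using Algebra.adjoin_induction with
  | mem x hx =>
    rw [mem_rootSet] at hx
    have h1 := hx.2
    rw [aeval_map_algebraMap] at h1
    -- `x` is integral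
    have hint : IsIntegral (𝓞 F) x := by
      refine ⟨P.map (algebraMap (𝓞 K) (𝓞 F)), hP.map _, ?_⟩
      rw [eval₂_map, ← IsScalarTower.algebraMap_eq, ← aeval_def]
      exact h1
    obtain ⟨y, rfl⟩ := IsIntegrallyClosed.isIntegral_iff.1 hint
    refine ⟨1, one_pos, y, Algebra.subset_adjoin ?_, by simp⟩
    have h2 : algebraMap (𝓞 F) F (eval₂ (algebraMap (𝓞 K) (𝓞 F)) y P) = 0 := by
      rw [hom_eval₂, ← IsScalarTower.algebraMap_eq, ← aeval_def]
      exact h1
    exact (FaithfulSMul.algebraMap_injective (𝓞 F) F) (by rw [h2, map_zero])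
  | algebraMap r =>
    obtain ⟨n, hn, a, ha⟩ := exists_mul K r
    refine ⟨n, hn, algebraMap (𝓞 K) (𝓞 F) a, Subalgebra.algebraMap_mem _ _, ?_⟩
    rw [← IsScalarTower.algebraMap_apply, IsScalarTower.algebraMap_apply (𝓞 K) K F, ← ha,
      map_mul, map_natCast]
  | add x y _ _ h1 h2 =>
    obtain ⟨n, hn, a, ha, h1⟩ := h1
    obtain ⟨m, hm, b, hb, h2⟩ := h2
    refine ⟨n * m, Nat.mul_pos hn hm, (m : 𝓞 F) * a + (n : 𝓞 F) * b,
      Subalgebra.add_mem _ (Subalgebra.mul_mem _ (natCast_mem _ _) ha)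
        (Subalgebra.mul_mem _ (natCast_mem _ _) hb), ?_⟩
    rw [map_add, map_mul, map_mul, map_natCast, map_natCast, ← h1, ← h2]
    push_cast
    ring
  | mul x y _ _ h1 h2 =>
    obtain ⟨n, hn, a, ha, h1⟩ := h1
    obtain ⟨m, hm, b, hb, h2⟩ := h2
    refine ⟨n * m, Nat.mul_pos hn hm, a * b, Subalgebra.mul_mem _ ha hb, ?_⟩
    rw [map_mul, ← h1, ← h2]
    push_cast
    ring

theorem exists_uniform (P : (𝓞 K)[X]) (hP : P.Monic)
    (hF : IsSplittingField K F (P.map (algebraMap (𝓞 K) K))) :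
    ∃ N : ℕ, 0 < N ∧ ∀ x : 𝓞 F, (N : 𝓞 F) * x ∈ subA K F P := by
  classical
  have h : ∀ x : 𝓞 F, ∃ n : ℕ, 0 < n ∧ (n : 𝓞 F) * x ∈ subA K F P := by
    intro x
    obtain ⟨n, hn, a, ha, h⟩ := exists_mul_mem K F P hP hF (algebraMap (𝓞 F) F x)
    refine ⟨n, hn, ?_⟩
    have : (n : 𝓞 F) * x = a := by
      apply FaithfulSMul.algebraMap_injective (𝓞 F) F
      rw [map_mul, map_natCast, h]
    rw [this]
    exact ha
  choose n hn hm using h
  let b := RingOfIntegers.basis F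
  refine ⟨∏ i, n (b i), Finset.prod_pos fun i _ => hn _, fun x => ?_⟩
  rw [← b.sum_repr x, Finset.mul_sum]
  refine Subalgebra.sum_mem _ fun i _ => ?_
  have e : ((∏ i, n (b i) : ℕ) : 𝓞 F) * (b.repr x i • b i) =
      ((b.repr x i : ℤ) : 𝓞 F) * (((∏ j ∈ Finset.univ.erase i, n (b j) : ℕ) : 𝓞 F) *
        ((n (b i) : 𝓞 F) * b i)) := by
    rw [← Finset.mul_prod_erase Finset.univ (fun i => n (b i)) (Finset.mem_univ i),
      zsmul_eq_mul]
    push_cast
    ring
  rw [e]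
  exact Subalgebra.mul_mem _ (intCast_mem _ _) (Subalgebra.mul_mem _ (natCast_mem _ _) (hm _))

end

end BE

open BE in
theorem prBE : StBE := by
  intro K F _ _ _ _ _ P hP hF
  obtain ⟨N, hN, hNA⟩ := exists_uniform K F P hP hF
  refine ⟨N, fun p _ hp φ hsplit => ?_⟩
  have hker : (RingHom.ker φ).IsPrime := RingHom.ker_isPrime φ
  obtain ⟨Q, -, hQ, hQc⟩ := Ideal.exists_ideal_over_prime_of_isIntegral (S := 𝓞 F)
    (RingHom.ker φ) (⊥ : Ideal (𝓞 F)) (by
      rw [← RingHom.ker_eq_comap_bot,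
        (RingHom.injective_iff_ker_eq_bot _).1 (FaithfulSMul.algebraMap_injective (𝓞 K) (𝓞 F))]
      exact bot_le)
  let π : 𝓞 F →+* 𝓞 F ⧸ Q := Ideal.Quotient.mk Q
  have hdom : IsDomain (𝓞 F ⧸ Q) := Ideal.Quotient.isDomain Q
  have hker' : ∀ x : 𝓞 K, φ x = 0 ↔ π (algebraMap (𝓞 K) (𝓞 F) x) = 0 := by
    intro x
    rw [Ideal.Quotient.eq_zero_iff_mem, ← Ideal.mem_comap, hQc, RingHom.mem_ker]
  have hpz : ((p : ℕ) : 𝓞 F ⧸ Q) = 0 := by
    have := (hker' (p : 𝓞 K)).1 (by rw [map_natCast]; exact ZMod.natCast_self p)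
    rwa [map_natCast, map_natCast] at this
  have hchar : CharP (𝓞 F ⧸ Q) p :=
    (CharP.charP_iff_prime_eq_zero (Fact.out : p.Prime)).2 hpz
  let j : ZMod p →+* 𝓞 F ⧸ Q := ZMod.castHom (dvd_refl p) (𝓞 F ⧸ Q)
  have hj : Function.Injective j := RingHom.injective j
  have hcomm : ∀ x : 𝓞 K, π (algebraMap (𝓞 K) (𝓞 F) x) = j (φ x) := by
    intro x
    have h1 : φ (x - ((φ x).val : 𝓞 K)) = 0 := by
      rw [map_sub, map_natCast, ZMod.natCast_zmod_val, sub_self]
    have h2 := (hker' _).1 h1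
    rw [map_sub, map_natCast, map_sub, map_natCast, sub_eq_zero] at h2
    rw [h2]
    conv_rhs => rw [← ZMod.natCast_zmod_val (φ x), map_natCast]
  have hπj : π.comp (algebraMap (𝓞 K) (𝓞 F)) = j.comp φ := RingHom.ext hcomm
  -- everything in `A` has image in the range of `j`
  have hA : ∀ a ∈ subA K F P, π a ∈ j.range := by
    intro a ha
    unfold subA at ha
    induction ha using Algebra.adjoin_induction with
    | mem y hy =>
      have h1 : eval₂ (algebraMap (𝓞 K) (𝓞 F)) y P = 0 := hy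
      refine hsplit.mem_range_of_isRoot (hP.map φ).ne_zero (i := j) ?_
      rw [IsRoot, eval_map, eval₂_map, ← hπj, ← hom_eval₂, h1, map_zero]
    | algebraMap r => exact ⟨φ r, (hcomm r).symm⟩
    | add x y _ _ h1 h2 => rw [map_add]; exact j.range.add_mem h1 h2
    | mul x y _ _ h1 h2 => rw [map_mul]; exact j.range.mul_mem h1 h2
  have hNp : ((N : ℕ) : ZMod p) ≠ 0 := by
    intro h
    rw [ZMod.natCast_eq_zero_iff] at h
    exact absurd (Nat.le_of_dvd hN h) (by omega)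
  have hall : ∀ x : 𝓞 F, π x ∈ j.range := by
    intro x
    have h1 := hA _ (hNA x)
    have h2 : π x = j ((N : ZMod p)⁻¹) * π ((N : 𝓞 F) * x) := by
      rw [map_mul π, ← mul_assoc, map_natCast π]
      have : j ((N : ZMod p)⁻¹) * ((N : ℕ) : 𝓞 F ⧸ Q) = 1 := by
        rw [← map_natCast j, ← map_mul, inv_mul_cancel₀ hNp, map_one]
      rw [this, one_mul]
    rw [h2]
    exact j.range.mul_mem ⟨_, rfl⟩ h1
  have hbij : Function.Bijective j.rangeRestrict :=
    ⟨fun a b h => hj (congrArg Subtype.val h), j.rangeRestrict_surjective⟩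
  let e : ZMod p ≃+* j.range := RingEquiv.ofBijective j.rangeRestrict hbij
  refine ⟨(e.symm : j.range →+* ZMod p).comp (π.codRestrict j.range hall), ?_⟩
  ext x
  apply e.injective
  apply Subtype.ext
  change ((e (e.symm (π.codRestrict j.range hall (algebraMap (𝓞 K) (𝓞 F) x)))) : 𝓞 F ⧸ Q) =
    ((e (φ x)) : 𝓞 F ⧸ Q)
  rw [RingEquiv.apply_symm_apply]
  change π (algebraMap (𝓞 K) (𝓞 F) x) = j (φ x)
  exact hcomm x

end Pool.Agent.Work.MP_8d13b5_lc.LG
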