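import Pool.Agent.Work.MP_8d13b5_lc.LG.StmtsBau

/-!
# MP_8d13b5_lc, block LG, item BF: the Galois action on homomorphisms to prime fields is free
-/

set_option autoImplicit false

open Polynomial Filter Topology NumberField Module

namespace Pool.Agent.Work.MP_8d13b5_lc.LG

namespace BF

/-- an automorphism which fixes the integers is trivial -/
theorem eq_one (K F : Type) [Field K] [NumberField K] [Field F] [NumberField F] [Algebra K F]
    (σ : F ≃ₐ[K] F) (h : ∀ x : 𝓞 F, σ (x : F) = (x : F)) : σ = 1 := by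
  ext f
  obtain ⟨a, b, -, hab⟩ := IsFractionRing.div_surjective (A := 𝓞 F) f
  rw [← hab, map_div₀]
  have h1 : σ (algebraMap (𝓞 F) F a) = algebraMap (𝓞 F) F a := h a
  have h2 : σ (algebraMap (𝓞 F) F b) = algebraMap (𝓞 F) F b := h b
  rw [h1, h2]
  rfl

/-- the bound for one automorphism -/
theorem one (K F : Type) [Field K] [NumberField K] [Field F] [NumberField F] [Algebra K F]
    (σ : F ≃ₐ[K] F) : ∃ N : ℕ, ∀ (p : ℕ) [Fact p.Prime], N < p → ∀ ψ : 𝓞 F →+* ZMod p,
      (∀ x y : 𝓞 F, (y : F) = σ (x : F) → ψ x = ψ y) → σ = 1 := by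
  by_cases hσ : σ = 1
  · exact ⟨0, fun p _ _ ψ _ => hσ⟩
  · have h1 : ∃ x : 𝓞 F, σ (x : F) ≠ (x : F) := by
      by_contra hcon
      push Not at hcon
      exact hσ (eq_one K F σ hcon)
    obtain ⟨x, hx⟩ := h1
    have hint : IsIntegral ℤ (σ (x : F)) :=
      (RingOfIntegers.isIntegral_coe x).map (σ.toAlgHom.restrictScalars ℤ)
    obtain ⟨y, hy⟩ : ∃ y : 𝓞 F, (y : F) = σ (x : F) := ⟨⟨σ (x : F), hint⟩, rfl⟩
    have hz : y - x ≠ 0 := by
      intro h
      rw [sub_eq_zero] at h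
      apply hx
      rw [← hy, h]
    refine ⟨Ideal.absNorm (Ideal.span {y - x}), ?_⟩
    intro p hp hlt ψ hψ
    exfalso
    have h2 : ψ (y - x) = 0 := by
      rw [map_sub, hψ x y hy, sub_self]
    have h3 : ((Ideal.absNorm (Ideal.span {y - x}) : ℕ) : 𝓞 F) ∈ Ideal.span {y - x} :=
      Ideal.absNorm_mem _
    obtain ⟨c, hc⟩ := Ideal.mem_span_singleton.1 h3
    have h4 : ((Ideal.absNorm (Ideal.span {y - x}) : ℕ) : ZMod p) = 0 := by
      have h5 := congrArg ψ hc
      rw [map_natCast, map_mul, h2, zero_mul] at h5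
      exact h5
    rw [ZMod.natCast_eq_zero_iff] at h4
    have h6 : Ideal.absNorm (Ideal.span {y - x}) ≠ 0 := by
      rw [Ne, Ideal.absNorm_eq_zero_iff, Ideal.span_singleton_eq_bot]
      exact hz
    exact absurd (Nat.le_of_dvd (Nat.pos_of_ne_zero h6) h4) (not_le.2 hlt)

end BF

/-- Item BF. -/
theorem prBF : StBF := by
  intro K F _ _ _ _ _
  haveI : FiniteDimensional K F := inferInstance
  choose N hN using BF.one K F
  refine ⟨Finset.univ.sup N, ?_⟩
  intro p _ hp ψ σ h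
  exact hN σ p (lt_of_le_of_lt (Finset.le_sup (Finset.mem_univ σ)) hp) ψ h

end Pool.Agent.Work.MP_8d13b5_lc.LG
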