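import Pool.Agent.Work.MP_8d13b5_lc.LG.StmtsBau

/-!
# Block LG, item BL: comparison of two Mertens sums
-/

set_option autoImplicit false

open Polynomial Filter Topology NumberField Module

namespace Pool.Agent.Work.MP_8d13b5_lc.LG

theorem prBL : StBL := by
  intro hM F F' _ _ _ _ a B hcard
  have h1 := hM F
  have h2 := hM F'
  have h3 := h2.sub (h1.const_mul (a : ℝ))
  set T : ℝ → Finset ℕ := fun x => (Finset.Icc 1 ⌊x⌋₊).filter Nat.Prime with hT
  set t : ℕ → ℝ := fun p => ((Nat.card (𝓞 F' →+* ZMod p) : ℝ) -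
    a * (Nat.card (𝓞 F →+* ZMod p) : ℝ)) * Real.log p / p with ht
  have hconst : ∀ x : ℝ, (B : ℝ) ≤ x → ∑ p ∈ T x, t p = ∑ p ∈ T (B : ℝ), t p := by
    intro x hx
    symm
    apply Finset.sum_subset
    · intro p hp
      simp only [hT, Finset.mem_filter, Finset.mem_Icc] at hp ⊢
      refine ⟨⟨hp.1.1, le_trans hp.1.2 (Nat.floor_mono hx)⟩, hp.2⟩
    · intro p hp hp2
      simp only [hT, Finset.mem_filter, Finset.mem_Icc, Nat.floor_natCast] at hp hp2
      have hB : B < p := by
        by_contra hcon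
        exact hp2 ⟨⟨hp.1.1, by omega⟩, hp.2⟩
      haveI : Fact p.Prime := ⟨hp.2⟩
      have h := hcard p hB
      simp only [ht]
      rw [h]
      push_cast
      ring
  have hlim : Tendsto (fun x : ℝ => (∑ p ∈ T x, t p) / Real.log x) atTop (𝓝 (1 - a * 1)) := by
    refine h3.congr ?_
    intro x
    rw [← mul_div_assoc, ← sub_div, Finset.mul_sum, ← Finset.sum_sub_distrib]
    congr 1
    apply Finset.sum_congr rfl
    intro p _
    simp only [ht]
    ring
  have hzero : Tendsto (fun x : ℝ => (∑ p ∈ T x, t p) / Real.log x) atTop (𝓝 0) := by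
    have h4 : Tendsto (fun x : ℝ => (∑ p ∈ T (B : ℝ), t p) / Real.log x) atTop (𝓝 0) :=
      Real.tendsto_log_atTop.const_div_atTop _
    refine h4.congr' ?_
    filter_upwards [eventually_ge_atTop (B : ℝ)] with x hx
    rw [hconst x hx]
  have h5 := tendsto_nhds_unique hlim hzero
  have h6 : (a : ℝ) = 1 := by linarith
  exact_mod_cast h6

end Pool.Agent.Work.MP_8d13b5_lc.LG
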