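import Pool.Agent.Work.MP_8d13b5_lc.LG.StmtsBau

set_option autoImplicit false

/-!
# Item BM of block LG: assembly of the theorem of Bauer
-/

open Polynomial Filter Topology NumberField Module

namespace Pool.Agent.Work.MP_8d13b5_lc.LG

namespace BM

/-- the counting statement for a polynomial, in the form used here -/
theorem spl_iff {K : Type} [Field K] [NumberField K] {P Q : (𝓞 K)[X]} (hP : P.Monic)
    (hQ : Q.Monic) (p : ℕ) [Fact p.Prime] (φ : 𝓞 K →+* ZMod p)
    (h : (P.map φ).Splits → (Q.map φ).Splits) :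
    ((P * Q).map φ).Splits ↔ (P.map φ).Splits := by
  rw [Polynomial.map_mul, Polynomial.splits_mul (hP.map φ).ne_zero (hQ.map φ).ne_zero]
  exact ⟨fun h1 => h1.1, fun h1 => ⟨h1, h h1⟩⟩

end BM

open BM in
/-- Item BM. -/
theorem prBM : StBM := by
  intro hMer hBC hBL K _ _ P Q hP hQ hB
  obtain ⟨B0, hB0⟩ := hB
  obtain ⟨P', hP'⟩ : ∃ P' : K[X], P' = P.map (algebraMap (𝓞 K) K) := ⟨_, rfl⟩
  obtain ⟨R', hR'⟩ : ∃ R' : K[X], R' = (P * Q).map (algebraMap (𝓞 K) K) := ⟨_, rfl⟩
  have hP'm : P'.Monic := hP' ▸ hP.map _
  have hRm : (P * Q).Monic := hP.mul hQ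
  have hR'm : R'.Monic := hR' ▸ hRm.map _
  rw [← hP']
  haveI hF : NumberField P'.SplittingField := NumberField.of_module_finite K _
  haveI hF' : NumberField R'.SplittingField := NumberField.of_module_finite K _
  have hs1 : IsSplittingField K P'.SplittingField (P.map (algebraMap (𝓞 K) K)) := by
    rw [← hP']
    infer_instance
  have hs2 : IsSplittingField K R'.SplittingField ((P * Q).map (algebraMap (𝓞 K) K)) := by
    rw [← hR']
    infer_instance
  obtain ⟨B1, hB1⟩ := hBC K P'.SplittingField P hP hs1
  obtain ⟨B2, hB2⟩ := hBC K R'.SplittingField (P * Q) hRm hs2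
  -- the embedding
  have hdvd : P' ∣ R' := by
    rw [hP', hR', Polynomial.map_mul]
    exact dvd_mul_right _ _
  have hspl : (P'.map (algebraMap K R'.SplittingField)).Splits :=
    (SplittingField.splits R').of_dvd (hR'm.map _).ne_zero (Polynomial.map_dvd _ hdvd)
  obtain ⟨ι, -⟩ : ∃ ι : P'.SplittingField →ₐ[K] R'.SplittingField, True :=
    ⟨SplittingField.lift P' hspl, trivial⟩
  have hsurj : Function.Surjective ι := by
    letI alg : Algebra P'.SplittingField R'.SplittingField := ι.toRingHom.toAlgebra
    haveI tow : IsScalarTower K P'.SplittingField R'.SplittingField :=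
      IsScalarTower.of_algebraMap_eq (fun x => (ι.commutes x).symm)
    have hfin : finrank K P'.SplittingField * finrank P'.SplittingField R'.SplittingField =
        finrank K R'.SplittingField := Module.finrank_mul_finrank _ _ _
    have ha : finrank P'.SplittingField R'.SplittingField = 1 := by
      refine hBL hMer P'.SplittingField R'.SplittingField _ (max B0 (max B1 B2)) ?_
      intro p hp hBp
      have h0 : B0 < p := lt_of_le_of_lt (le_max_left _ _) hBp
      have h1 : B1 < p := lt_of_le_of_lt ((le_max_left _ _).trans (le_max_right _ _)) hBp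
      have h2 : B2 < p := lt_of_le_of_lt ((le_max_right _ _).trans (le_max_right _ _)) hBp
      rw [hB1 p h1, hB2 p h2, ← hfin]
      have h3 : Nat.card {φ : 𝓞 K →+* ZMod p // ((P * Q).map φ).Splits} =
          Nat.card {φ : 𝓞 K →+* ZMod p // (P.map φ).Splits} := by
        refine Nat.card_congr (Equiv.subtypeEquivRight fun φ => ?_)
        exact spl_iff hP hQ p φ (hB0 p hp.out h0 φ)
      rw [h3]
      ring
    rw [ha, mul_one] at hfin
    have h4 : Function.Injective ι.toLinearMap := ι.toRingHom.injective
    exact (LinearMap.injective_iff_surjective_of_finrank_eq_finrank hfin).1 h4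
  obtain ⟨e, -⟩ : ∃ e : P'.SplittingField ≃ₐ[K] R'.SplittingField, True :=
    ⟨AlgEquiv.ofBijective ι ⟨ι.toRingHom.injective, hsurj⟩, trivial⟩
  have hdvd2 : Q.map (algebraMap (𝓞 K) K) ∣ R' := by
    rw [hR', Polynomial.map_mul]
    exact dvd_mul_left _ _
  have hspl2 : ((Q.map (algebraMap (𝓞 K) K)).map (algebraMap K R'.SplittingField)).Splits :=
    (SplittingField.splits R').of_dvd (hR'm.map _).ne_zero (Polynomial.map_dvd _ hdvd2)
  have h5 := hspl2.map (e.symm : R'.SplittingField →ₐ[K] P'.SplittingField).toRingHom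
  rw [Polynomial.map_map] at h5
  have h6 : ((e.symm : R'.SplittingField →ₐ[K] P'.SplittingField).toRingHom).comp
      (algebraMap K R'.SplittingField) = algebraMap K P'.SplittingField := by
    ext x
    exact (e.symm : R'.SplittingField →ₐ[K] P'.SplittingField).commutes x
  rw [h6] at h5
  exact h5

end Pool.Agent.Work.MP_8d13b5_lc.LG
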