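import Pool.Agent.Work.MP_8d13b5_lc.LG.StmtsBau

set_option autoImplicit false

/-!
# MP_8d13b5_lc, block LG, part B, item BS
-/

open Polynomial Filter Topology NumberField Module

namespace Pool.Agent.Work.MP_8d13b5_lc.LG

theorem prBS : StBS := by
  intro K F _ _ _ _ _ P hP hs p _ ψ
  rw [← Polynomial.map_map]
  apply Splits.map
  set Q : (𝓞 F)[X] := P.map (algebraMap (𝓞 K) (𝓞 F)) with hQ
  have hQm : Q.Monic := hP.map _
  have hmap : Q.map (algebraMap (𝓞 F) F) = (P.map (algebraMap (𝓞 K) K)).map (algebraMap K F) := by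
    rw [hQ, Polynomial.map_map, Polynomial.map_map, ← IsScalarTower.algebraMap_eq,
      ← IsScalarTower.algebraMap_eq]
  refine Splits.of_splits_map_of_injective (FaithfulSMul.algebraMap_injective (𝓞 F) F)
    (by rw [hmap]; exact hs) ?_
  intro a ha
  have h1 : (Q.map (algebraMap (𝓞 F) F)).eval a = 0 := by
    rw [mem_roots (hQm.map _).ne_zero] at ha
    exact ha
  have h2 : IsIntegral (𝓞 F) a := ⟨Q, hQm, by rw [← eval_map]; exact h1⟩
  have h3 : IsIntegral ℤ a := isIntegral_trans a h2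
  exact ⟨⟨a, h3⟩, rfl⟩

end Pool.Agent.Work.MP_8d13b5_lc.LG
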