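import Pool.Agent.Work.MP_8d13b5_lc.LG.StmtsBau

/-!
# MP_8d13b5_lc, block LG, item BT (helper57): the Galois group acts transitively
-/

set_option autoImplicit false

open Polynomial Filter Topology NumberField Module

namespace Pool.Agent.Work.MP_8d13b5_lc.LG

theorem prBT : StBT := by
  intro K F _ _ _ _ _ _ p _ ψ ψ' h
  have hm : ∀ φ : 𝓞 F →+* ZMod p, φ.comp (algebraMap (𝓞 K) (𝓞 F)) = ψ.comp (algebraMap (𝓞 K) (𝓞 F)) →
      RingHom.ker φ ∈ Ideal.primesOver (RingHom.ker (ψ.comp (algebraMap (𝓞 K) (𝓞 F)))) (𝓞 F) := by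
    intro φ hφ
    refine ⟨RingHom.ker_isPrime φ, ⟨?_⟩⟩
    rw [← hφ]
    rfl
  obtain ⟨σ, hσ⟩ := Ideal.exists_comap_galRestrict_eq (𝓞 K) K F (𝓞 F) (hm ψ rfl) (hm ψ' h.symm)
  refine ⟨σ, fun x y hxy => ?_⟩
  have e : ψ' = ψ.comp ((galRestrict (𝓞 K) K F (𝓞 F) σ : 𝓞 F ≃ₐ[𝓞 K] 𝓞 F) : 𝓞 F →+* 𝓞 F) := by
    apply ZMod.ringHom_eq_of_ker_eq
    rw [← hσ]
    rfl
  have hy : y = galRestrict (𝓞 K) K F (𝓞 F) σ x := by
    apply FaithfulSMul.algebraMap_injective (𝓞 F) F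
    rw [algebraMap_galRestrict_apply]
    exact hxy
  rw [hy, e]
  rfl

end Pool.Agent.Work.MP_8d13b5_lc.LG
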