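import Pool.Agent.Work.MP_8d13b5_lc.LG.Stmts

/-!
# MP_8d13b5_lc, block LG, item C2: the sum over the dyadic levels
-/

set_option autoImplicit false

open Polynomial

namespace Pool.Agent.Work.MP_8d13b5_lc.LG

namespace JC2

lemma small_pow (a η : ℝ) (ha : 0 < a) (hη : 0 < η) :
    ∃ N : ℕ, 1 ≤ N ∧ ∀ n : ℕ, N ≤ n → (n : ℝ) ^ (-a) ≤ η := by
  have h := (tendsto_rpow_neg_atTop ha).comp tendsto_natCast_atTop_atTop
  have h2 := (h.eventually (gt_mem_nhds hη)).exists_forall_of_atTop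
  obtain ⟨N, hN⟩ := h2
  refine ⟨max N 1, le_max_right _ _, fun n hn => ?_⟩
  exact (hN n (le_trans (le_max_left _ _) hn)).le

/-- the first sum -/
lemma geo (X1 L : ℕ) (hX : 1 ≤ X1) (I : Finset ℕ) (hI : I ⊆ Finset.range L) :
    ∑ i ∈ I, ((X1 * 2 ^ i : ℕ) : ℝ) ^ (-(1 / 2 : ℝ)) ≤ 4 * (X1 : ℝ) ^ (-(1 / 2 : ℝ)) := by
  set r : ℝ := (2 : ℝ) ^ (-(1 / 2 : ℝ)) with hr
  have hr0 : 0 < r := by positivity
  have hr2 : r ^ 2 = 1 / 2 := by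
    rw [hr, ← Real.rpow_natCast, ← Real.rpow_mul (by norm_num)]
    norm_num
  have hr34 : r ≤ 3 / 4 := by
    by_contra h
    push Not at h
    nlinarith
  have hXr : (0 : ℝ) < X1 := by exact_mod_cast hX
  have h1 : ∀ i : ℕ, ((X1 * 2 ^ i : ℕ) : ℝ) ^ (-(1 / 2 : ℝ)) = (X1 : ℝ) ^ (-(1 / 2 : ℝ)) * r ^ i := by
    intro i
    push_cast
    rw [Real.mul_rpow hXr.le (by positivity), hr, ← Real.rpow_natCast (2 : ℝ) i,
      ← Real.rpow_mul (by norm_num), mul_comm (i : ℝ), Real.rpow_mul (by norm_num),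
      Real.rpow_natCast]
  have h2 : ∑ i ∈ Finset.range L, r ^ i ≤ 4 := by
    have h3 := geom_sum_mul_neg r L
    have h4 : 0 ≤ r ^ L := by positivity
    have h5 : 0 ≤ ∑ i ∈ Finset.range L, r ^ i := Finset.sum_nonneg fun i _ => by positivity
    nlinarith
  calc ∑ i ∈ I, ((X1 * 2 ^ i : ℕ) : ℝ) ^ (-(1 / 2 : ℝ))
      = ∑ i ∈ I, (X1 : ℝ) ^ (-(1 / 2 : ℝ)) * r ^ i := Finset.sum_congr rfl fun i _ => h1 i
    _ ≤ ∑ i ∈ Finset.range L, (X1 : ℝ) ^ (-(1 / 2 : ℝ)) * r ^ i :=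
        Finset.sum_le_sum_of_subset_of_nonneg hI fun i _ _ => by positivity
    _ = (X1 : ℝ) ^ (-(1 / 2 : ℝ)) * ∑ i ∈ Finset.range L, r ^ i := by rw [Finset.mul_sum]
    _ ≤ (X1 : ℝ) ^ (-(1 / 2 : ℝ)) * 4 := by gcongr
    _ = _ := mul_comm _ _

/-- the number of levels -/
lemma levels (H : ℕ) (hH : 1 ≤ H) : ((Nat.log 2 H + 1 : ℕ) : ℝ) ≤ 11 * (H : ℝ) ^ (1 / 5 : ℝ) := by
  have hHr : (1 : ℝ) ≤ H := by exact_mod_cast hH
  have h1 : Real.log H ≤ (H : ℝ) ^ (1 / 5 : ℝ) / (1 / 5) :=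
    Real.log_le_rpow_div (by linarith) (by norm_num)
  have h2 : (2 : ℝ) ^ Nat.log 2 H ≤ H := by exact_mod_cast Nat.pow_log_le_self 2 (by omega)
  have h3 : (Nat.log 2 H : ℝ) * Real.log 2 ≤ Real.log H := by
    rw [← Real.log_pow]
    exact Real.log_le_log (by positivity) h2
  have h4 : (1 : ℝ) / 2 ≤ Real.log 2 := by linarith [Real.log_two_gt_d9]
  have h5 : (1 : ℝ) ≤ (H : ℝ) ^ (1 / 5 : ℝ) := Real.one_le_rpow hHr (by norm_num)
  have h6 : (0 : ℝ) ≤ Nat.log 2 H := by positivity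
  push_cast
  nlinarith

/-- the size of the second terms -/
lemma second (d H X : ℕ) (hd : 2 ≤ d) (hH : 1 ≤ H) (hX : (X : ℝ) ≤ (H : ℝ) ^ (1 / (5 * d : ℝ))) :
    (X : ℝ) ^ (d + 1) ≤ (H : ℝ) ^ (2 / 5 : ℝ) := by
  have hHr : (1 : ℝ) ≤ H := by exact_mod_cast hH
  have hdr : (2 : ℝ) ≤ d := by exact_mod_cast hd
  calc (X : ℝ) ^ (d + 1) ≤ ((H : ℝ) ^ (1 / (5 * d : ℝ))) ^ (d + 1) :=
        pow_le_pow_left₀ (by positivity) hX _
    _ = (H : ℝ) ^ ((1 / (5 * d : ℝ)) * ((d + 1 : ℕ) : ℝ)) := by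
        rw [← Real.rpow_natCast, ← Real.rpow_mul (by positivity)]
    _ ≤ (H : ℝ) ^ (2 / 5 : ℝ) := by
        apply Real.rpow_le_rpow_of_exponent_le hHr
        push_cast
        rw [div_mul_eq_mul_div, div_le_div_iff₀ (by positivity) (by norm_num)]
        linarith

end JC2

open JC2 in
theorem prC2 (hDy : StDy) : StC2 := by
  classical
  intro f hf hd ε hε
  obtain ⟨c, X0, hc, hX0, hD⟩ := hDy f hf hd
  obtain ⟨N1, hN1, hN1'⟩ := small_pow (1 / 2) (ε / (8 * c)) (by norm_num) (by positivity)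
  obtain ⟨N2, hN2, hN2'⟩ := small_pow (2 / 5) (ε / (22 * c)) (by norm_num) (by positivity)
  set X1 : ℕ := max N1 X0 with hX1
  have hX1X0 : X0 ≤ X1 := le_max_right _ _
  have hX11 : 1 ≤ X1 := le_trans hX0 hX1X0
  refine ⟨X1, N2, ?_⟩
  intro H hH
  have hH1 : 1 ≤ H := hN2.trans hH
  have hHr : (1 : ℝ) ≤ H := by exact_mod_cast hH1
  have hH0 : (0 : ℝ) < H := by linarith
  set L : ℕ := Nat.log 2 H + 1 with hL
  set I : Finset ℕ := (Finset.range L).filter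
    (fun i => ((X1 * 2 ^ i : ℕ) : ℝ) ≤ (H : ℝ) ^ (1 / (5 * f.natDegree : ℝ))) with hI
  let A : ℕ → Set (Fin f.natDegree → ℤ) := fun X =>
    {x | x ∈ Bx f.natDegree H ∧ Bad f x ∧ ∃ C : ℤ[X], Prim f.natDegree C ∧
      X ≤ hgt f.natDegree C ∧ hgt f.natDegree C < 2 * X ∧ pr f.natDegree C x = 0}
  have hAfin : ∀ X, (A X).Finite := fun X =>
    (Bx f.natDegree H).finite_toSet.subset fun x hx => hx.1
  have hsub : {x | x ∈ Bx f.natDegree H ∧ Bad f x ∧ ∃ C : ℤ[X], Prim f.natDegree C ∧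
      X1 ≤ hgt f.natDegree C ∧ (hgt f.natDegree C : ℝ) < (H : ℝ) ^ (1 / (5 * f.natDegree : ℝ)) ∧
      pr f.natDegree C x = 0} ⊆ ⋃ i ∈ I, A (X1 * 2 ^ i) := by
    rintro x ⟨hx, hb, C, hC, h1, h2, h3⟩
    set h := hgt f.natDegree C with hh
    have hq0 : h / X1 ≠ 0 := by
      have : 1 ≤ h / X1 := (Nat.le_div_iff_mul_le (by omega)).2 (by omega)
      omega
    set i := Nat.log 2 (h / X1) with hi
    have hi1 : 2 ^ i ≤ h / X1 := Nat.pow_log_le_self 2 hq0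
    have hi2 : h / X1 < 2 ^ (i + 1) := Nat.lt_pow_succ_log_self (by norm_num) _
    have hi3 : X1 * 2 ^ i ≤ h := by
      rw [Nat.le_div_iff_mul_le (by omega)] at hi1
      rw [mul_comm]; exact hi1
    have hi4 : h < 2 * (X1 * 2 ^ i) := by
      rw [Nat.div_lt_iff_lt_mul (by omega)] at hi2
      calc h < 2 ^ (i + 1) * X1 := hi2
        _ = 2 * (X1 * 2 ^ i) := by ring
    have hexp : (H : ℝ) ^ (1 / (5 * f.natDegree : ℝ)) ≤ (H : ℝ) ^ (1 : ℝ) := by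
      apply Real.rpow_le_rpow_of_exponent_le hHr
      have hdr : (2 : ℝ) ≤ f.natDegree := by exact_mod_cast hd
      rw [div_le_one (by positivity)]
      linarith
    rw [Real.rpow_one] at hexp
    have hhH : h < H := by exact_mod_cast lt_of_lt_of_le h2 hexp
    have hiL : i < L := by
      have h5 : 2 ^ i ≤ H := by
        calc 2 ^ i ≤ h / X1 := hi1
          _ ≤ h := Nat.div_le_self _ _
          _ ≤ H := hhH.le
      have := Nat.le_log_of_pow_le (by norm_num) h5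
      omega
    refine Set.mem_biUnion (x := i) ?_ ⟨hx, hb, C, hC, hi3, hi4, h3⟩
    refine Finset.mem_coe.2 (Finset.mem_filter.2 ⟨Finset.mem_range.2 hiL, ?_⟩)
    have h6 : ((X1 * 2 ^ i : ℕ) : ℝ) ≤ (h : ℝ) := by exact_mod_cast hi3
    exact h6.trans h2.le
  have hfinU : (⋃ i ∈ I, A (X1 * 2 ^ i)).Finite :=
    Set.Finite.biUnion I.finite_toSet fun i _ => hAfin _
  have h1 : (Set.ncard {x | x ∈ Bx f.natDegree H ∧ Bad f x ∧ ∃ C : ℤ[X], Prim f.natDegree C ∧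
      X1 ≤ hgt f.natDegree C ∧ (hgt f.natDegree C : ℝ) < (H : ℝ) ^ (1 / (5 * f.natDegree : ℝ)) ∧
      pr f.natDegree C x = 0} : ℝ) ≤ ∑ i ∈ I, ((A (X1 * 2 ^ i)).ncard : ℝ) := by
    have h2 := (Set.ncard_le_ncard hsub hfinU).trans
      (Finset.set_ncard_biUnion_le I fun i => A (X1 * 2 ^ i))
    exact_mod_cast h2
  have h2 : ∀ i ∈ I, ((A (X1 * 2 ^ i)).ncard : ℝ) ≤
      c * ((H : ℝ) ^ (f.natDegree - 1) * ((X1 * 2 ^ i : ℕ) : ℝ) ^ (-(1 / 2 : ℝ)) +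
        (H : ℝ) ^ (2 / 5 : ℝ) * (H : ℝ) ^ (f.natDegree - 2)) := by
    intro i hi
    have hX : X0 ≤ X1 * 2 ^ i := hX1X0.trans (Nat.le_mul_of_pos_right _ (by positivity))
    refine (hD (X1 * 2 ^ i) H hX hH1).trans ?_
    have h3 := second f.natDegree H (X1 * 2 ^ i) hd hH1 (Finset.mem_filter.1 hi).2
    gcongr
  have h3 : ∑ i ∈ I, ((A (X1 * 2 ^ i)).ncard : ℝ) ≤
      c * ((H : ℝ) ^ (f.natDegree - 1) * ∑ i ∈ I, ((X1 * 2 ^ i : ℕ) : ℝ) ^ (-(1 / 2 : ℝ)) +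
        (I.card : ℝ) * ((H : ℝ) ^ (2 / 5 : ℝ) * (H : ℝ) ^ (f.natDegree - 2))) := by
    refine (Finset.sum_le_sum h2).trans (le_of_eq ?_)
    rw [← Finset.mul_sum, Finset.sum_add_distrib, ← Finset.mul_sum, Finset.sum_const,
      nsmul_eq_mul]
  have h4 := geo X1 L hX11 I (Finset.filter_subset _ _)
  have h5 : (I.card : ℝ) ≤ 11 * (H : ℝ) ^ (1 / 5 : ℝ) := by
    refine le_trans ?_ (levels H hH1)
    have : I.card ≤ L := by
      have := Finset.card_filter_le (Finset.range L)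
        (fun i => ((X1 * 2 ^ i : ℕ) : ℝ) ≤ (H : ℝ) ^ (1 / (5 * f.natDegree : ℝ)))
      rwa [Finset.card_range] at this
    exact_mod_cast this
  have h6 : (X1 : ℝ) ^ (-(1 / 2 : ℝ)) ≤ ε / (8 * c) := hN1' X1 (le_max_left _ _)
  have h7 : (H : ℝ) ^ (-(2 / 5 : ℝ)) ≤ ε / (22 * c) := hN2' H hH
  have hpow : (H : ℝ) ^ (1 / 5 : ℝ) * ((H : ℝ) ^ (2 / 5 : ℝ) * (H : ℝ) ^ (f.natDegree - 2)) =
      (H : ℝ) ^ (-(2 / 5 : ℝ)) * (H : ℝ) ^ (f.natDegree - 1) := by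
    have e1 : (H : ℝ) ^ (f.natDegree - 1) = (H : ℝ) * (H : ℝ) ^ (f.natDegree - 2) := by
      rw [← pow_succ']
      congr 1
      omega
    have e2 : (H : ℝ) ^ (1 / 5 : ℝ) * (H : ℝ) ^ (2 / 5 : ℝ) = (H : ℝ) ^ (-(2 / 5 : ℝ)) * H := by
      nth_rewrite 4 [← Real.rpow_one (H : ℝ)]
      rw [← Real.rpow_add hH0, ← Real.rpow_add hH0]
      norm_num
    rw [e1, ← mul_assoc, e2]
    ring
  have hP : (0 : ℝ) < (H : ℝ) ^ (f.natDegree - 1) := by positivity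
  calc _ ≤ ∑ i ∈ I, ((A (X1 * 2 ^ i)).ncard : ℝ) := h1
    _ ≤ _ := h3
    _ ≤ c * ((H : ℝ) ^ (f.natDegree - 1) * (4 * (ε / (8 * c))) +
        11 * (H : ℝ) ^ (1 / 5 : ℝ) * ((H : ℝ) ^ (2 / 5 : ℝ) * (H : ℝ) ^ (f.natDegree - 2))) := by
        gcongr
        exact h4.trans (by gcongr)
    _ = c * ((H : ℝ) ^ (f.natDegree - 1) * (4 * (ε / (8 * c))) +
        11 * ((H : ℝ) ^ (-(2 / 5 : ℝ)) * (H : ℝ) ^ (f.natDegree - 1))) := by
        rw [← hpow]; ring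
    _ ≤ c * ((H : ℝ) ^ (f.natDegree - 1) * (4 * (ε / (8 * c))) +
        11 * (ε / (22 * c) * (H : ℝ) ^ (f.natDegree - 1))) := by gcongr
    _ = ε * (H : ℝ) ^ (f.natDegree - 1) := by
        field_simp
        norm_num

end Pool.Agent.Work.MP_8d13b5_lc.LG
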