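import Pool.Agent.Work.MP_8d13b5_lc.LG.Stmts

/-!
# MP_8d13b5_lc, block LG, item C3: one hyperplane which is not exceptional
-/

set_option autoImplicit false

open Polynomial

namespace Pool.Agent.Work.MP_8d13b5_lc.LG

namespace JC3

theorem many (hKil : StKil) (f : ℤ[X]) (hf : Ok f) (C : ℤ[X]) (hC : ¬ ParQ f C) (r : ℕ) :
    ∃ P : Finset ℕ, P.card = r ∧ ∀ p ∈ P, Good f p ∧ 3 ≤ p ∧ ∀ n, ¬ Par f p C n := by
  induction r with
  | zero => exact ⟨∅, rfl, by simp⟩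
  | succ r ih =>
    obtain ⟨P, hP, hPp⟩ := ih
    obtain ⟨p, hp1, hp2, hp3⟩ := hKil f hf.1 hf.2.1 hf.2.2 C hC (P.sup id + 3)
    have hpP : p ∉ P := fun h => by
      have h1 : id p ≤ P.sup id := Finset.le_sup (f := id) h
      simp only [id] at h1
      omega
    refine ⟨insert p P, by rw [Finset.card_insert_of_notMem hpP, hP], ?_⟩
    intro q hq
    rw [Finset.mem_insert] at hq
    rcases hq with rfl | hq
    · exact ⟨hp2, by omega, hp3⟩
    · exact hPp q hq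

theorem np_eq (f : ℤ[X]) (P : Finset ℕ) (C : ℤ[X]) (n : ℕ) (h : ∀ p ∈ P, ¬ Par f p C n) :
    NP f P C n = MP P := by
  classical
  unfold NP MP
  rw [Finset.filter_true_of_mem h]

theorem mp_pos (P : Finset ℕ) (h : ∀ p ∈ P, 3 ≤ p) : 1 ≤ MP P :=
  Nat.one_le_iff_ne_zero.2 (Finset.prod_ne_zero_iff.2 fun p hp => by
    have := h p hp
    omega)

end JC3

open JC3 in
theorem prC3 (hKil : StKil) (hCI : StCI) (hLcm : StLcm) : StC3 := by
  intro f hf hd C hC hCQ ε hε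
  obtain ⟨c, hc, hCI'⟩ := hCI f.natDegree hd
  obtain ⟨r, hr⟩ := exists_pow_lt_of_lt_one (show 0 < ε / (2 * c) by positivity)
    (show (1 / 2 : ℝ) < 1 by norm_num)
  obtain ⟨P, hPc, hP⟩ := many hKil f hf C hCQ (r + 1)
  have hMP1 : 1 ≤ MP P := mp_pos P fun p hp => (hP p hp).2.1
  have hlcm : TP P * 2 ^ r ≤ MP P := by
    have h1 := hLcm P (fun p hp => ⟨(hP p hp).1.1, (hP p hp).2.1⟩)
      (Finset.card_pos.1 (by omega))
    rwa [hPc, Nat.add_sub_cancel] at h1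
  have hMPpos : (0 : ℝ) < MP P := by exact_mod_cast hMP1
  have hTP0 : (0 : ℝ) ≤ TP P := Nat.cast_nonneg _
  have hratio : (TP P : ℝ) * c / MP P ≤ ε / 2 := by
    have h1 : (TP P : ℝ) * 2 ^ r ≤ MP P := by exact_mod_cast hlcm
    rw [div_le_iff₀ hMPpos]
    have h2 : (1 / 2 : ℝ) ^ r * (2 * c) < ε := by
      rwa [lt_div_iff₀ (by positivity)] at hr
    have h3 : (1 / 2 : ℝ) ^ r * 2 ^ r = 1 := by
      rw [← mul_pow]
      norm_num
    have h4 : (TP P : ℝ) * c = (TP P : ℝ) * 2 ^ r * ((1 / 2 : ℝ) ^ r * (2 * c)) / 2 := by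
      calc (TP P : ℝ) * c = (TP P : ℝ) * c * ((1 / 2 : ℝ) ^ r * 2 ^ r) := by rw [h3, mul_one]
        _ = _ := by ring
    have h5 : 0 ≤ (1 / 2 : ℝ) ^ r * (2 * c) := by positivity
    calc (TP P : ℝ) * c = (TP P : ℝ) * 2 ^ r * ((1 / 2 : ℝ) ^ r * (2 * c)) / 2 := h4
      _ ≤ (MP P : ℝ) * ε / 2 := by
        refine div_le_div_of_nonneg_right ?_ (by norm_num)
        exact mul_le_mul h1 h2.le h5 hMPpos.le
      _ = ε / 2 * MP P := by ring
  refine ⟨⌈2 * ((TP P : ℝ) * c) / ε⌉₊ + 1, fun H hH => ?_⟩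
  have hH1 : 1 ≤ H := by omega
  have hHb : 2 * ((TP P : ℝ) * c) / ε ≤ H :=
    (Nat.le_ceil _).trans (by exact_mod_cast (by omega : ⌈2 * ((TP P : ℝ) * c) / ε⌉₊ ≤ H))
  have hHpos : (0 : ℝ) < H := by exact_mod_cast hH1
  have hb := hCI' f hf.1 rfl C hC P (fun p hp => ⟨(hP p hp).1, (hP p hp).2.1⟩) (MP P) H hMP1 hH1
    (fun n => (np_eq f P C n fun p hp => (hP p hp).2.2 n).ge)
  have hsub : {x | x ∈ Bx f.natDegree H ∧ Bad f x ∧ pr f.natDegree C x = 0} ⊆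
      {x | x ∈ Bx f.natDegree H ∧ pr f.natDegree C x = 0 ∧
        ∃ n, (MP P : ℤ) ∣ pr f.natDegree (W f n) x} :=
    fun x hx => ⟨hx.1, hx.2.2, hx.2.1 P fun p hp => (hP p hp).1⟩
  have hfin : {x | x ∈ Bx f.natDegree H ∧ pr f.natDegree C x = 0 ∧
      ∃ n, (MP P : ℤ) ∣ pr f.natDegree (W f n) x}.Finite :=
    (Bx f.natDegree H).finite_toSet.subset fun x hx => hx.1
  have hcard : (Set.ncard {x | x ∈ Bx f.natDegree H ∧ Bad f x ∧ pr f.natDegree C x = 0} : ℝ) ≤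
      Set.ncard {x | x ∈ Bx f.natDegree H ∧ pr f.natDegree C x = 0 ∧
        ∃ n, (MP P : ℤ) ∣ pr f.natDegree (W f n) x} := by
    exact_mod_cast Set.ncard_le_ncard hsub hfin
  refine (hcard.trans hb).trans ?_
  obtain ⟨e, he⟩ : ∃ e, f.natDegree = e + 2 := ⟨f.natDegree - 2, by omega⟩
  rw [show f.natDegree - 1 = e + 1 by omega, show f.natDegree - 2 = e by omega]
  have hh : (H : ℝ) ^ (e + 1) / ((hgt f.natDegree C : ℝ) * (MP P : ℕ)) ≤
      (H : ℝ) ^ (e + 1) / MP P := by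
    rcases Nat.eq_zero_or_pos (hgt f.natDegree C) with h0 | h0
    · rw [h0, Nat.cast_zero, zero_mul, div_zero]
      positivity
    · refine div_le_div_of_nonneg_left (by positivity) hMPpos ?_
      have h1 : (1 : ℝ) ≤ hgt f.natDegree C := by exact_mod_cast h0
      nlinarith
  have hpow : 0 ≤ (H : ℝ) ^ e := by positivity
  calc (TP P : ℝ) * (c * ((H : ℝ) ^ (e + 1) / ((hgt f.natDegree C : ℝ) * (MP P : ℕ)) +
        (H : ℝ) ^ e))
      ≤ (TP P : ℝ) * (c * ((H : ℝ) ^ (e + 1) / MP P + (H : ℝ) ^ e)) :=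
        mul_le_mul_of_nonneg_left (mul_le_mul_of_nonneg_left (by linarith) hc.le) hTP0
    _ = (TP P : ℝ) * c / MP P * (H : ℝ) ^ (e + 1) + (TP P : ℝ) * c * (H : ℝ) ^ e := by ring
    _ ≤ ε / 2 * (H : ℝ) ^ (e + 1) + ε / 2 * (H : ℝ) ^ (e + 1) := by
        refine add_le_add (mul_le_mul_of_nonneg_right hratio (by positivity)) ?_
        have h1 : (TP P : ℝ) * c ≤ ε / 2 * H := by
          rw [div_le_iff₀ hε] at hHb
          linarith
        calc (TP P : ℝ) * c * (H : ℝ) ^ e ≤ ε / 2 * H * (H : ℝ) ^ e :=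
              mul_le_mul_of_nonneg_right h1 hpow
          _ = ε / 2 * (H : ℝ) ^ (e + 1) := by ring
    _ = ε * (H : ℝ) ^ (e + 1) := by ring

end Pool.Agent.Work.MP_8d13b5_lc.LG
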