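import Pool.Agent.Work.MP_8d13b5_lc.LG.Stmts

/-! MP_8d13b5_lc, block LG: item C4 (helper83). -/

set_option autoImplicit false

open Polynomial

namespace Pool.Agent.Work.MP_8d13b5_lc.LG

namespace JC4

/-- the pairing as a homomorphism -/
def prH (d : ℕ) (C : ℤ[X]) : (Fin d → ℤ) →+ ℤ where
  toFun := pr d C
  map_zero' := by simp [pr]
  map_add' := by
    intro x y
    simp [pr, mul_add, Finset.sum_add_distrib]

theorem prH_apply (d : ℕ) (C : ℤ[X]) (x : Fin d → ℤ) : prH d C x = pr d C x := rfl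

theorem pr_cast (d p : ℕ) (C : ℤ[X]) (x : Fin d → ℤ) : ((pr d C x : ℤ) : ZMod p) =
    ∑ i : Fin d, (C.map (Int.castRingHom (ZMod p))).coeff i * ((x i : ℤ) : ZMod p) := by
  simp [pr, coeff_map]

theorem dvd_iff (p : ℕ) (a : ℤ) : (p : ℤ) ∣ a ↔ ((a : ℤ) : ZMod p) = 0 :=
  (CharP.intCast_eq_zero_iff (ZMod p) p a).symm

theorem W_per (hPer : StPer) {f : ℤ[X]} (hf : f.Monic) (h1 : 1 ≤ f.natDegree) {p : ℕ}
    (hp : Good f p) (n j : ℕ) : (W f (n + (p - 1) * j)).map (Int.castRingHom (ZMod p)) =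
      (W f n).map (Int.castRingHom (ZMod p)) := by
  induction j with
  | zero => simp
  | succ j ih =>
    rw [Nat.mul_succ, ← add_assoc, (hPer f p hf h1 hp).1, ih]

theorem per_dvd (hPer : StPer) {f : ℤ[X]} (hf : f.Monic) (h1 : 1 ≤ f.natDegree) {P : Finset ℕ}
    {p : ℕ} (hpP : p ∈ P) (hp : Good f p) (n : ℕ) (y : Fin f.natDegree → ℤ) :
    (p : ℤ) ∣ pr f.natDegree (W f (n + TP P)) y - pr f.natDegree (W f n) y := by
  have h2 : (p - 1) ∣ TP P := Finset.dvd_lcm (f := fun p => p - 1) hpP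
  obtain ⟨j, hj⟩ := h2
  rw [dvd_iff, Int.cast_sub, pr_cast, pr_cast, hj, W_per hPer hf h1 hp, sub_self]

theorem deg_ge {f : ℤ[X]} (hf : f.Monic) (h1 : 1 ≤ f.natDegree) (hns : NoScal f) :
    2 ≤ f.natDegree := by
  by_contra h
  have hd : f.natDegree = 1 := by omega
  refine hns 1 le_rfl (-f.coeff 0) ?_
  have h2 : f = X + C (f.coeff 0) := by
    have := hf.eq_X_add_C hd
    exact this
  have h3 : (X : ℤ[X]) ^ 1 - C (-f.coeff 0) = f := by
    rw [pow_one, map_neg, sub_neg_eq_add]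
    exact h2.symm
  rw [h3]

theorem W_zero {f : ℤ[X]} (hf : f.Monic) (h1 : 1 ≤ f.natDegree) : W f 0 = 1 := by
  unfold W
  rw [pow_zero]
  refine (modByMonic_eq_self_iff hf).mpr ?_
  rw [degree_one]
  refine natDegree_pos_iff_degree_pos.mp ?_
  omega

theorem nonscalar {f N : ℤ[X]} {p : ℕ} (hN : N.natDegree < f.natDegree)
    (h : ¬ ∃ a : ZMod p, f.map (Int.castRingHom (ZMod p)) ∣
      N.map (Int.castRingHom (ZMod p)) - C a) :
    ∃ i : Fin f.natDegree, 1 ≤ (i : ℕ) ∧ ¬ (p : ℤ) ∣ N.coeff i := by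
  by_contra hc
  push Not at hc
  refine h ⟨((N.coeff 0 : ℤ) : ZMod p), ?_⟩
  have h0 : N.map (Int.castRingHom (ZMod p)) - C ((N.coeff 0 : ℤ) : ZMod p) = 0 := by
    ext j
    rw [coeff_sub, coeff_map, coeff_C, coeff_zero]
    rcases Nat.eq_zero_or_pos j with hj | hj
    · subst hj
      rw [if_pos rfl]
      simp
    · rw [if_neg hj.ne', sub_zero]
      by_cases hjd : j < f.natDegree
      · have := hc ⟨j, hjd⟩ hj
        rw [dvd_iff] at this
        simpa using this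
      · have : N.coeff j = 0 := coeff_eq_zero_of_natDegree_lt (by omega)
        rw [this]; simp
  rw [h0]
  exact dvd_zero _

/-- the subgroup for a fixed residue `m` -/
theorem group_count (hIdx : StIdx) (hFun : StFun) {f : ℤ[X]} (hf : f.Monic)
    (hd2 : 2 ≤ f.natDegree) (hPrim : Prim f.natDegree 1) {P : Finset ℕ}
    (hP : ∀ p ∈ P, Good f p) (N : ℕ → ℤ[X])
    (hN : ∀ p ∈ P, (N p).natDegree < f.natDegree ∧
      ¬ ∃ a : ZMod p, f.map (Int.castRingHom (ZMod p)) ∣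
        (N p).map (Int.castRingHom (ZMod p)) - C a) (m : ℕ) :
    ∃ L : AddSubgroup (Fin f.natDegree → ℤ), L ≤ perp f.natDegree 1 ∧
      L.relIndex (perp f.natDegree 1) = MP P ∧
      ∀ y ∈ perp f.natDegree 1, (∀ p ∈ P, (Par f p 1 m → (p : ℤ) ∣ pr f.natDegree (N p) y) ∧
        (¬ Par f p 1 m → (p : ℤ) ∣ pr f.natDegree (W f m) y)) → y ∈ L := by
  classical
  set d := f.natDegree with hd
  let φ : ∀ p : ℕ, perp d 1 →+ ZMod p := fun p =>
    (Int.castAddHom (ZMod p)).comp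
      ((prH d (if Par f p 1 m then N p else W f m)).comp (perp d 1).subtype)
  have hφ : ∀ p (y : perp d 1), φ p y =
      ((pr d (if Par f p 1 m then N p else W f m) (y : Fin d → ℤ) : ℤ) : ZMod p) :=
    fun p y => rfl
  have hne : ∀ p ∈ P, φ p ≠ 0 := by
    intro p hp h0
    by_cases hpar : Par f p 1 m
    · obtain ⟨i, hi1, hi2⟩ := nonscalar (hN p hp).1 (hN p hp).2
      have hmem : (Pi.single i 1 : Fin d → ℤ) ∈ perp d 1 := by
        change pr d 1 (Pi.single i 1) = 0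
        unfold pr
        rw [Finset.sum_eq_single i]
        · rw [Pi.single_eq_same, mul_one, coeff_one, if_neg (by omega)]
        · intro j _ hj
          rw [Pi.single_eq_of_ne hj, mul_zero]
        · intro h; exact absurd (Finset.mem_univ _) h
      have h1 := hφ p ⟨_, hmem⟩
      rw [h0, if_pos hpar] at h1
      have h2 : pr d (N p) (Pi.single i 1 : Fin d → ℤ) = (N p).coeff i := by
        unfold pr
        rw [Finset.sum_eq_single i]
        · rw [Pi.single_eq_same, mul_one]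
        · intro j _ hj
          rw [Pi.single_eq_of_ne hj, mul_zero]
        · intro h; exact absurd (Finset.mem_univ _) h
      apply hi2
      rw [dvd_iff]
      have h3 : (0 : ZMod p) = ((pr d (N p) (Pi.single i 1 : Fin d → ℤ) : ℤ) : ZMod p) := h1
      rw [h2] at h3
      exact h3.symm
    · obtain ⟨x, hx1, hx2⟩ := hFun f p 1 m hf (by omega) (hP p hp) hPrim hpar
      have h1 := hφ p ⟨x, hx1⟩
      rw [h0, if_neg hpar] at h1
      apply hx2
      rw [dvd_iff]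
      exact h1.symm
  have hidx := hIdx (perp d 1) P φ (fun p hp => (hP p hp).1) hne
  refine ⟨(⨅ p ∈ P, (φ p).ker).map (perp d 1).subtype, ?_, ?_, ?_⟩
  · rintro _ ⟨y, _, rfl⟩
    exact y.2
  · unfold AddSubgroup.relIndex AddSubgroup.addSubgroupOf
    rw [AddSubgroup.comap_map_eq_self_of_injective (AddSubgroup.subtype_injective _), hidx]
    rfl
  · intro y hy h
    refine ⟨⟨y, hy⟩, ?_, rfl⟩
    change (⟨y, hy⟩ : perp d 1) ∈ (⨅ p ∈ P, (φ p).ker)
    rw [AddSubgroup.mem_iInf]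
    intro p
    rw [AddSubgroup.mem_iInf]
    intro hp
    rw [AddMonoidHom.mem_ker, hφ]
    by_cases hpar : Par f p 1 m
    · rw [if_pos hpar]
      exact (dvd_iff _ _).mp ((h p hp).1 hpar)
    · rw [if_neg hpar]
      exact (dvd_iff _ _).mp ((h p hp).2 hpar)

end JC4

open JC4 in
theorem prC4 (hSup : StSup) (hPer : StPer) (hPerp : StPerp) (hIdx : StIdx) (hFun : StFun)
    (hSca : StSca) (hLin : StLin) : StC4 := by
  classical
  intro f hOk h1 hns ε hε
  have hf : f.Monic := hOk.1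
  have hd2 := deg_ge hf h1 hns
  have hPrim : Prim f.natDegree 1 := ⟨by rw [natDegree_one]; omega, content_one⟩
  obtain ⟨c, hc, hcount⟩ := hPerp f.natDegree hd2
  obtain ⟨Z0, hZ0⟩ := hSup f hf hOk.2.1 hOk.2.2 2 (1 / 8) (by norm_num)
  refine ⟨⌈Z0⌉₊ + ⌈(2 * c / ε) ^ 2⌉₊ + 1, fun H hH => ?_⟩
  have hH1 : 1 ≤ H := by omega
  have hH1R : (1 : ℝ) ≤ H := by exact_mod_cast hH1
  have hHpos : (0 : ℝ) < H := by linarith
  have hHZ : Z0 ≤ (H : ℝ) ^ 2 := by
    have h2 : Z0 ≤ (⌈Z0⌉₊ : ℝ) := Nat.le_ceil _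
    have h3 : (⌈Z0⌉₊ : ℝ) ≤ H := by
      have : ⌈Z0⌉₊ ≤ H := by omega
      exact_mod_cast this
    nlinarith
  have hHε : (2 * c / ε) ^ 2 ≤ (H : ℝ) := by
    refine (Nat.le_ceil _).trans ?_
    have : ⌈(2 * c / ε) ^ 2⌉₊ ≤ H := by omega
    exact_mod_cast this
  obtain ⟨P, hP, hZP, hTP⟩ := hZ0 ((H : ℝ) ^ 2) hHZ
  have hPg : ∀ p ∈ P, Good f p := fun p hp => (hP p hp).1
  -- choose the isolating data
  have hch : ∀ p : ℕ, ∃ (r k : ℕ) (μ : ℤ) (N : ℤ[X]), p ∈ P →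
      (IsoAt f p r k μ ∧ r ∣ p - 1 ∧
      N.natDegree < f.natDegree ∧ f ∣ X ^ r - C μ - C ((p : ℤ) ^ k) * N ∧
      (¬ ∃ a : ZMod p, f.map (Int.castRingHom (ZMod p)) ∣
        N.map (Int.castRingHom (ZMod p)) - C a) ∧
      ∀ n : ℕ, Par f p 1 n → r ∣ n) := by
    intro p
    by_cases hp : p ∈ P
    · obtain ⟨r, k, μ, N, h⟩ := hSca f p hf h1 hns (hPg p hp) (hP p hp).2
      exact ⟨r, k, μ, N, fun _ => h⟩
    · exact ⟨0, 0, 0, 0, fun h => absurd h hp⟩
  choose r k μ N hdat using hch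
  have hT1 : 1 ≤ TP P := by
    rw [Nat.one_le_iff_ne_zero]
    unfold TP
    rw [Ne, Finset.lcm_eq_zero_iff]
    rintro ⟨p, hp, h0⟩
    have := (hP p hp).2
    have h0' : p - 1 = 0 := h0
    omega
  choose L hL1 hL2 hL3 using fun m => group_count hIdx hFun hf hd2 hPrim hPg N
    (fun p hp => ⟨(hdat p hp).2.2.1, (hdat p hp).2.2.2.2.1⟩) m
  -- the covering
  have hcov : {y | y ∈ Bx f.natDegree H ∧ pr f.natDegree (W f 0) y = 0 ∧ ¬ Cert f y} ⊆
      ⋃ m ∈ Finset.Icc 1 (TP P), {x | x ∈ Bx f.natDegree H ∧ x ∈ L m} := by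
    rintro y ⟨hy1, hy2, hy3⟩
    have hy0 : y ∈ perp f.natDegree 1 := by
      change pr f.natDegree 1 y = 0
      rw [← W_zero hf h1]; exact hy2
    have hex : ∃ m, 1 ≤ m ∧ m ≤ TP P ∧ (∀ p ∈ P, (p : ℤ) ∣ pr f.natDegree (W f m) y) ∧
        ∀ p ∈ P, r p ∣ m → (p : ℤ) ^ (k p + 1) ∣ pr f.natDegree (W f (r p)) y := by
      by_contra hno
      push Not at hno
      apply hy3
      refine ⟨TP P, P.toList.map fun p => (p, r p, k p, μ p), hT1, ?_, ?_⟩
      · intro q hq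
        rw [List.mem_map] at hq
        obtain ⟨p, hp, rfl⟩ := hq
        rw [Finset.mem_toList] at hp
        refine ⟨(hdat p hp).1, (hdat p hp).2.1.trans
          (Finset.dvd_lcm (f := fun p => p - 1) hp), fun n => ?_⟩
        exact per_dvd hPer hf h1 hp (hPg p hp) n y
      · intro m hm1 hm2
        by_cases h2 : ∀ p ∈ P, (p : ℤ) ∣ pr f.natDegree (W f m) y
        · obtain ⟨p, hp, hpr, hpk⟩ := hno m hm1 hm2 h2
          refine Or.inr ⟨(p, r p, k p, μ p), ?_, hpr, hpk⟩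
          rw [List.mem_map]
          exact ⟨p, Finset.mem_toList.mpr hp, rfl⟩
        · push Not at h2
          obtain ⟨p, hp, hpn⟩ := h2
          refine Or.inl ⟨(p, r p, k p, μ p), ?_, hpn⟩
          rw [List.mem_map]
          exact ⟨p, Finset.mem_toList.mpr hp, rfl⟩
    obtain ⟨m, hm1, hm2, hm3, hm4⟩ := hex
    rw [Set.mem_iUnion₂]
    refine ⟨m, Finset.mem_Icc.mpr ⟨hm1, hm2⟩, hy1, hL3 m y hy0 fun p hp => ⟨fun hpar => ?_,
      fun _ => hm3 p hp⟩⟩
    have hrm := (hdat p hp).2.2.2.2.2 m hpar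
    have h5 := hm4 p hp hrm
    -- u_r = p^k L N
    have h6 : pr f.natDegree (W f (r p)) y = (p : ℤ) ^ k p * pr f.natDegree (N p) y := by
      obtain ⟨l1, l2, l3⟩ := hLin f y hf
      have e1 : pr f.natDegree (W f (r p)) y =
          pr f.natDegree ((C (μ p) * 1 + C ((p : ℤ) ^ k p) * N p) %ₘ f) y := by
        unfold W
        refine l3 _ _ ?_
        have := (hdat p hp).2.2.2.1
        have e2 : (X : ℤ[X]) ^ r p - (C (μ p) * 1 + C ((p : ℤ) ^ k p) * N p) =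
            X ^ r p - C (μ p) - C ((p : ℤ) ^ k p) * N p := by ring
        rw [e2]; exact this
      rw [e1, l1, l2, l2]
      have e3 : pr f.natDegree ((1 : ℤ[X]) %ₘ f) y = 0 := by
        have : (1 : ℤ[X]) %ₘ f = W f 0 := by unfold W; rw [pow_zero]
        rw [this]; exact hy2
      have e4 : (N p) %ₘ f = N p := by
        refine (modByMonic_eq_self_iff hf).mpr ?_
        exact degree_lt_degree (hdat p hp).2.2.1
      rw [e3, e4, mul_zero, zero_add]
    rw [h6, pow_succ] at h5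
    have hp0 : ((p : ℤ) ^ k p) ≠ 0 := by
      refine pow_ne_zero _ ?_
      have := (hPg p hp).1.pos
      exact_mod_cast this.ne'
    exact (mul_dvd_mul_iff_left hp0).mp h5
  have hfin : (⋃ m ∈ Finset.Icc 1 (TP P), {x | x ∈ Bx f.natDegree H ∧ x ∈ L m}).Finite := by
    refine (Finset.finite_toSet (Bx f.natDegree H)).subset ?_
    intro x hx
    rw [Set.mem_iUnion₂] at hx
    obtain ⟨m, _, hx1, _⟩ := hx
    exact hx1
  have hb1 := Set.ncard_le_ncard hcov hfin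
  have hb2 := Finset.set_ncard_biUnion_le (Finset.Icc 1 (TP P))
    (fun m => {x | x ∈ Bx f.natDegree H ∧ x ∈ L m})
  have hMPpos : (0 : ℝ) < MP P := lt_of_lt_of_le (by positivity) hZP
  have hMPne : MP P ≠ 0 := by
    intro h; rw [h] at hMPpos; simp at hMPpos
  have hh1 : (1 : ℝ) ≤ (hgt f.natDegree 1 : ℝ) := by
    have : 1 ≤ hgt f.natDegree 1 := by
      unfold hgt
      have h2 := Finset.le_sup (f := fun i : Fin f.natDegree => ((1 : ℤ[X]).coeff i).natAbs)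
        (Finset.mem_univ (⟨0, by omega⟩ : Fin f.natDegree))
      simpa using h2
    exact_mod_cast this
  have hb3 : ∀ m ∈ Finset.Icc 1 (TP P),
      ((Set.ncard {x | x ∈ Bx f.natDegree H ∧ x ∈ L m} : ℕ) : ℝ) ≤
        2 * c * (H : ℝ) ^ (f.natDegree - 2) := by
    intro m _
    have h2 := hcount 1 hPrim (L m) H (hL1 m) (by rw [hL2 m]; exact hMPne) hH1
    refine h2.trans ?_
    rw [hL2 m]
    have h3 : (H : ℝ) ^ (f.natDegree - 1) / ((hgt f.natDegree 1 : ℝ) * (MP P : ℝ)) ≤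
        (H : ℝ) ^ (f.natDegree - 2) := by
      rw [div_le_iff₀ (by positivity)]
      have h4 : (H : ℝ) ^ (f.natDegree - 1) = (H : ℝ) ^ (f.natDegree - 2) * H := by
        rw [← pow_succ]
        congr 1
        omega
      rw [h4]
      refine mul_le_mul_of_nonneg_left ?_ (by positivity)
      calc (H : ℝ) ≤ (H : ℝ) ^ 2 := by nlinarith
        _ ≤ MP P := hZP
        _ = 1 * (MP P : ℝ) := (one_mul _).symm
        _ ≤ (hgt f.natDegree 1 : ℝ) * (MP P : ℝ) := mul_le_mul_of_nonneg_right hh1 hMPpos.le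
    nlinarith [h3, hc]
  have hb4 : ((Set.ncard {y | y ∈ Bx f.natDegree H ∧ pr f.natDegree (W f 0) y = 0 ∧
      ¬ Cert f y} : ℕ) : ℝ) ≤ (TP P : ℝ) * (2 * c * (H : ℝ) ^ (f.natDegree - 2)) := by
    calc _ ≤ ((∑ m ∈ Finset.Icc 1 (TP P),
          Set.ncard {x | x ∈ Bx f.natDegree H ∧ x ∈ L m} : ℕ) : ℝ) := by
          exact_mod_cast hb1.trans hb2
      _ = ∑ m ∈ Finset.Icc 1 (TP P),
          ((Set.ncard {x | x ∈ Bx f.natDegree H ∧ x ∈ L m} : ℕ) : ℝ) := by push_cast; rfl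
      _ ≤ ∑ m ∈ Finset.Icc 1 (TP P), 2 * c * (H : ℝ) ^ (f.natDegree - 2) :=
          Finset.sum_le_sum hb3
      _ = _ := by rw [Finset.sum_const, Nat.card_Icc, nsmul_eq_mul]; simp
  refine hb4.trans ?_
  -- T ≤ sqrt H
  have hTs : (TP P : ℝ) ≤ Real.sqrt H := by
    refine hTP.trans ?_
    have e1 : ((H : ℝ) ^ 2) ^ (1 / 8 : ℝ) = (H : ℝ) ^ (1 / 4 : ℝ) := by
      rw [← Real.rpow_natCast, ← Real.rpow_mul hHpos.le]
      norm_num
    rw [e1, Real.sqrt_eq_rpow]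
    exact Real.rpow_le_rpow_of_exponent_le hH1R (by norm_num)
  have hs1 : 2 * c / ε ≤ Real.sqrt H := Real.le_sqrt_of_sq_le hHε
  have hs2 : 2 * c ≤ ε * Real.sqrt H := by
    rw [div_le_iff₀ hε] at hs1
    linarith
  have hs3 : Real.sqrt H * Real.sqrt H = H := Real.mul_self_sqrt hHpos.le
  have h4 : (H : ℝ) ^ (f.natDegree - 1) = (H : ℝ) ^ (f.natDegree - 2) * H := by
    rw [← pow_succ]
    congr 1
    omega
  rw [h4]
  have h5 : (0 : ℝ) ≤ (H : ℝ) ^ (f.natDegree - 2) := by positivity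
  calc (TP P : ℝ) * (2 * c * (H : ℝ) ^ (f.natDegree - 2))
      ≤ Real.sqrt H * ((ε * Real.sqrt H) * (H : ℝ) ^ (f.natDegree - 2)) :=
        mul_le_mul hTs (mul_le_mul_of_nonneg_right hs2 h5) (by positivity) (Real.sqrt_nonneg _)
    _ = ε * ((H : ℝ) ^ (f.natDegree - 2) * (Real.sqrt H * Real.sqrt H)) := by ring
    _ = ε * ((H : ℝ) ^ (f.natDegree - 2) * H) := by rw [hs3]

end Pool.Agent.Work.MP_8d13b5_lc.LG
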