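import Pool.Agent.Work.MP_8d13b5_lc.LG.Stmts

/-!
# MP_8d13b5_lc, block LG, item C5: the initial vectors on one of the special hyperplanes
-/

set_option autoImplicit false

open Polynomial

namespace Pool.Agent.Work.MP_8d13b5_lc.LG

namespace JC5

theorem dvd_of_C_mul {f : ℤ[X]} (hf : f.Monic) {c : ℤ} (hc : c ≠ 0) {Q : ℤ[X]}
    (h : f ∣ C c * Q) : f ∣ Q := by
  rw [← modByMonic_eq_zero_iff_dvd hf] at h ⊢
  rw [← smul_eq_C_mul, smul_modByMonic] at h
  exact (smul_eq_zero.1 h).resolve_left hc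

theorem dvd_of_X_mul {f : ℤ[X]} (hf : f.Monic) (h0 : f.coeff 0 ≠ 0) {Q : ℤ[X]}
    (h : f ∣ X * Q) : f ∣ Q := by
  refine dvd_of_C_mul hf h0 ?_
  have e : C (f.coeff 0) * Q = f * Q - f.divX * (X * Q) := by
    have h1 := divX_mul_X_add f
    linear_combination Q * h1
  rw [e]
  exact dvd_sub (dvd_mul_right _ _) (Dvd.dvd.mul_left h _)

theorem dvd_of_X_pow_mul {f : ℤ[X]} (hf : f.Monic) (h0 : f.coeff 0 ≠ 0) (j : ℕ) {Q : ℤ[X]}
    (h : f ∣ X ^ j * Q) : f ∣ Q := by
  induction j with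
  | zero => rwa [pow_zero, one_mul] at h
  | succ j ih =>
    refine ih (dvd_of_X_mul hf h0 ?_)
    rwa [pow_succ', mul_assoc] at h

theorem Bx_finite (d H : ℕ) (p : (Fin d → ℤ) → Prop) : {x | x ∈ Bx d H ∧ p x}.Finite :=
  (Bx d H).finite_toSet.subset fun _ hx => hx.1

end JC5

open JC5 in
/-- Item C5. -/
theorem prC5 (hC4 : StC4) (hShf : StShf) (hLin : StLin) : StC5 := by
  intro f hOk hd C₀ hC₀ hPar ε hε
  obtain ⟨hf, hsep, h0⟩ := hOk
  have hempty : (∀ x : Fin f.natDegree → ℤ, pr f.natDegree C₀ x = 0 →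
      ∃ n, pr f.natDegree (W f n) x = 0) → ∃ H0 : ℕ, ∀ H : ℕ, H0 ≤ H →
      (Set.ncard {x | x ∈ Bx f.natDegree H ∧ pr f.natDegree C₀ x = 0 ∧
        (∀ n, pr f.natDegree (W f n) x ≠ 0) ∧ ¬ Cert' f x} : ℝ) ≤
          ε * (H : ℝ) ^ (f.natDegree - 1) := by
    intro h
    refine ⟨0, fun H _ => ?_⟩
    have e : {x | x ∈ Bx f.natDegree H ∧ pr f.natDegree C₀ x = 0 ∧
        (∀ n, pr f.natDegree (W f n) x ≠ 0) ∧ ¬ Cert' f x} = ∅ := by
      rw [Set.eq_empty_iff_forall_notMem]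
      rintro x ⟨-, hx, hx', -⟩
      obtain ⟨n, hn⟩ := h x hx
      exact hx' n hn
    rw [e, Set.ncard_empty, Nat.cast_zero]
    positivity
  obtain ⟨n, j, a, b, ha, hb, hdvd⟩ := hPar
  rcases Nat.lt_or_ge n j with hnj | hnj
  swap
  · -- a zero with nonnegative index
    apply hempty
    intro x hx
    refine ⟨n - j, ?_⟩
    have h1 : f ∣ C a * C₀ - C b * X ^ (n - j) := by
      refine dvd_of_X_pow_mul hf h0 j ?_
      have e : X ^ j * (C a * C₀ - C b * X ^ (n - j)) = C a * X ^ j * C₀ - C b * X ^ n := by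
        have e1 : (X : ℤ[X]) ^ n = X ^ j * X ^ (n - j) := by
          rw [← pow_add]
          congr 1
          omega
        rw [e1]
        ring
      rw [e]
      exact hdvd
    obtain ⟨-, h3, h4⟩ := hLin f x hf
    have h5 := h4 _ _ h1
    rw [h3, h3] at h5
    have h6 : C₀ %ₘ f = C₀ := by
      rw [modByMonic_eq_self_iff hf]
      exact degree_lt_degree hC₀.1
    rw [h6, hx, mul_zero] at h5
    exact (mul_eq_zero.1 h5.symm).resolve_left hb
  · obtain ⟨K, s, Φ, hK, hs, hinj, hbox, hzero, hshift⟩ :=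
      hShf f C₀ n j a b hf h0 hd hC₀ ha hb hnj hdvd
    by_cases hNo : NoScal f
    · -- the count
      have hK0 : (0 : ℝ) < (K : ℝ) ^ (f.natDegree - 1) := by
        have : (0 : ℝ) < K := by exact_mod_cast hK
        positivity
      obtain ⟨H1, hH1⟩ := hC4 f ⟨hf, hsep, h0⟩ hd hNo
        (ε / (K : ℝ) ^ (f.natDegree - 1)) (by positivity)
      refine ⟨H1, fun H hH => ?_⟩
      have h1 := hH1 (K * H) (hH.trans (Nat.le_mul_of_pos_left H hK))
      have h2 : Set.ncard {x | x ∈ Bx f.natDegree H ∧ pr f.natDegree C₀ x = 0 ∧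
          (∀ n, pr f.natDegree (W f n) x ≠ 0) ∧ ¬ Cert' f x} ≤
          Set.ncard {y | y ∈ Bx f.natDegree (K * H) ∧
            pr f.natDegree (W f 0) y = 0 ∧ ¬ Cert f y} := by
        refine Set.ncard_le_ncard_of_injOn Φ ?_ (hinj.injOn) (Bx_finite _ _ _)
        rintro x ⟨hx1, hx2, hx3, hx4⟩
        refine ⟨hbox H x hx1, hzero x hx2, fun hcert => hx4 ?_⟩
        exact ⟨j - n, s, Φ x, by omega, hs, hshift x, hzero x hx2, hcert⟩
      calc (Set.ncard {x | x ∈ Bx f.natDegree H ∧ pr f.natDegree C₀ x = 0 ∧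
          (∀ n, pr f.natDegree (W f n) x ≠ 0) ∧ ¬ Cert' f x} : ℝ)
          ≤ (Set.ncard {y | y ∈ Bx f.natDegree (K * H) ∧
            pr f.natDegree (W f 0) y = 0 ∧ ¬ Cert f y} : ℝ) := by exact_mod_cast h2
        _ ≤ ε / (K : ℝ) ^ (f.natDegree - 1) * ((K * H : ℕ) : ℝ) ^ (f.natDegree - 1) := h1
        _ = ε * (H : ℝ) ^ (f.natDegree - 1) := by
          push_cast
          rw [mul_pow]
          field_simp
    · -- a power of `X` is a scalar: there is a zero
      apply hempty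
      intro x hx
      unfold NoScal at hNo
      push Not at hNo
      obtain ⟨r, hr, c, hc⟩ := hNo
      refine ⟨r * (j - n) - (j - n), ?_⟩
      have h1 : f ∣ X ^ (r * (j - n)) - C (c ^ (j - n)) * 1 := by
        rw [mul_one, pow_mul, C_pow]
        exact hc.trans (sub_dvd_pow_sub_pow _ _ _)
      obtain ⟨-, h3, h4⟩ := hLin f (Φ x) hf
      have h5 := h4 _ _ h1
      rw [h3] at h5
      have h6 : pr f.natDegree (1 %ₘ f) (Φ x) = 0 := by
        have := hzero x hx
        unfold W at this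
        rwa [pow_zero] at this
      rw [h6, mul_zero] at h5
      have h7 := hshift x (r * (j - n) - (j - n))
      have h8 : r * (j - n) - (j - n) + (j - n) = r * (j - n) :=
        Nat.sub_add_cancel (Nat.le_mul_of_pos_left _ hr)
      rw [h8] at h7
      have h9 : s * pr f.natDegree (W f (r * (j - n) - (j - n))) x = 0 := by
        rw [← h7]
        exact h5
      exact (mul_eq_zero.1 h9).resolve_left hs

end Pool.Agent.Work.MP_8d13b5_lc.LG
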