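import Pool.Agent.Work.MP_8d13b5_lc.LG.Stmts

set_option autoImplicit false

/-! Item CI (helper70): lattice points of one hyperplane. -/

open Polynomial

namespace Pool.Agent.Work.MP_8d13b5_lc.LG

namespace JCI

/-- the pairing as a homomorphism to `ZMod p` -/
def psi (d : ℕ) (D : ℤ[X]) (p : ℕ) : (Fin d → ℤ) →+ ZMod p where
  toFun x := (pr d D x : ZMod p)
  map_zero' := by simp [pr]
  map_add' x y := by
    simp only [pr, Pi.add_apply, mul_add, Finset.sum_add_distrib]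
    push_cast
    rfl

lemma psi_eq_zero (d : ℕ) (D : ℤ[X]) (p : ℕ) (x : Fin d → ℤ) :
    psi d D p x = 0 ↔ (p : ℤ) ∣ pr d D x :=
  ZMod.intCast_zmod_eq_zero_iff_dvd _ _

/-- the subgroup of the hyperplane with the congruences for the primes of `Q` -/
def LL (d : ℕ) (C D : ℤ[X]) (Q : Finset ℕ) : AddSubgroup (Fin d → ℤ) :=
  perp d C ⊓ ⨅ p ∈ Q, (psi d D p).ker

lemma mem_LL (d : ℕ) (C D : ℤ[X]) (Q : Finset ℕ) (x : Fin d → ℤ) :
    x ∈ LL d C D Q ↔ x ∈ perp d C ∧ ∀ p ∈ Q, (p : ℤ) ∣ pr d D x := by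
  rw [LL, AddSubgroup.mem_inf]
  simp only [AddSubgroup.mem_iInf, AddMonoidHom.mem_ker, psi_eq_zero]

lemma relIndex_LL (hIdx : StIdx) (d : ℕ) (C D : ℤ[X]) (Q : Finset ℕ) (hQ : ∀ p ∈ Q, p.Prime)
    (hD : ∀ p ∈ Q, ∃ x ∈ perp d C, ¬ (p : ℤ) ∣ pr d D x) :
    (LL d C D Q).relIndex (perp d C) = ∏ p ∈ Q, p := by
  have h := hIdx (perp d C) Q (fun p => (psi d D p).comp (perp d C).subtype) hQ (by
    intro p hp h0
    obtain ⟨x, hx, hpx⟩ := hD p hp
    apply hpx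
    rw [← psi_eq_zero]
    have := DFunLike.congr_fun h0 (⟨x, hx⟩ : perp d C)
    simpa using this)
  rw [← h, AddSubgroup.relIndex]
  congr 1
  ext x
  rw [AddSubgroup.mem_addSubgroupOf, mem_LL]
  simp only [AddSubgroup.mem_iInf, AddMonoidHom.mem_ker, AddMonoidHom.comp_apply,
    AddSubgroup.subtype_apply, psi_eq_zero]
  exact ⟨fun h => h.2, fun h => ⟨x.2, h⟩⟩

lemma TP_pos (P : Finset ℕ) (hP : ∀ p ∈ P, 3 ≤ p) : 1 ≤ TP P := by
  rw [Nat.one_le_iff_ne_zero, TP]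
  intro h
  obtain ⟨p, hp, h0⟩ := Finset.lcm_eq_zero_iff.1 h
  have := hP p hp
  omega

end JCI

open JCI in
/-- **CI** -/
theorem prCI (hPerp : StPerp) (hIdx : StIdx) (hPerP : StPerP) (hFun : StFun) : StCI := by
  intro d hd
  obtain ⟨c, hc0, hc⟩ := hPerp d hd
  refine ⟨c, hc0, fun f hf hfd C hC P hP k H hk hH hkn => ?_⟩
  subst hfd
  classical
  have hT := TP_pos P fun p hp => (hP p hp).2
  have hgood : ∀ p ∈ P, Good f p := fun p hp => (hP p hp).1
  set d := f.natDegree with hdd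
  set Q : ℕ → Finset ℕ := fun n => P.filter fun p => ¬ Par f p C n with hQdef
  set L : ℕ → AddSubgroup (Fin d → ℤ) := fun n => LL d C (W f n) (Q n) with hLdef
  have hrel : ∀ n, (L n).relIndex (perp d C) = NP f P C n := by
    intro n
    have h := relIndex_LL hIdx d C (W f n) (Q n)
      (fun p hp => (hgood p (Finset.mem_filter.1 hp).1).1)
      (fun p hp => hFun f p C n hf (by omega) (hgood p (Finset.mem_filter.1 hp).1) hC
        (Finset.mem_filter.1 hp).2)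
    rw [hLdef]
    refine h.trans ?_
    rw [NP, hQdef]
  have hsub : {x | x ∈ Bx d H ∧ pr d C x = 0 ∧ ∃ n, (MP P : ℤ) ∣ pr d (W f n) x} ⊆
      ⋃ n ∈ Finset.range (TP P), {x | x ∈ Bx d H ∧ x ∈ L n} := by
    rintro x ⟨hx, hx0, n, hn⟩
    have hmod : n ≡ n % TP P [MOD TP P] := (Nat.mod_modEq n (TP P)).symm
    have h1 := ((hPerP f P hf (by omega) hgood n (n % TP P) hmod).1 x).2.1 hn
    simp only [Set.mem_iUnion, Finset.mem_range, exists_prop]
    refine ⟨n % TP P, Nat.mod_lt _ (by omega), hx, ?_⟩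
    rw [hLdef]
    refine (mem_LL _ _ _ _ _).2 ⟨hx0, fun p hp => ?_⟩
    refine dvd_trans ?_ h1
    exact_mod_cast (Finset.dvd_prod_of_mem (fun p => p) (Finset.mem_filter.1 hp).1 :
      p ∣ ∏ p ∈ P, p)
  have hfin : ∀ n, ({x | x ∈ Bx d H ∧ x ∈ L n} : Set (Fin d → ℤ)).Finite := fun n =>
    (Bx d H).finite_toSet.subset fun x hx => hx.1
  have hfinU : (⋃ n ∈ Finset.range (TP P), {x | x ∈ Bx d H ∧ x ∈ L n}).Finite :=
    (Finset.range (TP P)).finite_toSet.biUnion fun n _ => hfin n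
  have hcard : (⋃ n ∈ Finset.range (TP P), {x | x ∈ Bx d H ∧ x ∈ L n}).ncard ≤
      ∑ n ∈ Finset.range (TP P), ({x | x ∈ Bx d H ∧ x ∈ L n} : Set (Fin d → ℤ)).ncard :=
    Finset.set_ncard_biUnion_le _ _
  have hone : ∀ n, (({x | x ∈ Bx d H ∧ x ∈ L n} : Set (Fin d → ℤ)).ncard : ℝ) ≤
      c * ((H : ℝ) ^ (d - 1) / ((hgt d C : ℝ) * k) + (H : ℝ) ^ (d - 2)) := by
    intro n
    have hk' : k ≤ NP f P C n := hkn n
    have h := hc C hC (L n) H (fun x hx => ((mem_LL _ _ _ _ _).1 hx).1) (by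
      rw [hrel]; omega) hH
    refine h.trans ?_
    rw [hrel]
    refine mul_le_mul_of_nonneg_left ?_ hc0.le
    refine add_le_add_left ?_ _
    rcases Nat.eq_zero_or_pos (hgt d C) with h0 | h0
    · rw [h0]
      simp
    · have h0' : (0 : ℝ) < hgt d C := by exact_mod_cast h0
      have hk0 : (0 : ℝ) < k := by exact_mod_cast hk
      have hk'' : (k : ℝ) ≤ NP f P C n := by exact_mod_cast hk'
      exact div_le_div_of_nonneg_left (by positivity) (by positivity)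
        (mul_le_mul_of_nonneg_left hk'' h0'.le)
  calc (Set.ncard {x | x ∈ Bx d H ∧ pr d C x = 0 ∧ ∃ n, (MP P : ℤ) ∣ pr d (W f n) x} : ℝ) ≤
      ((∑ n ∈ Finset.range (TP P), ({x | x ∈ Bx d H ∧ x ∈ L n} : Set (Fin d → ℤ)).ncard : ℕ) : ℝ) := by
        exact_mod_cast (Set.ncard_le_ncard hsub hfinU).trans hcard
    _ = ∑ n ∈ Finset.range (TP P), (({x | x ∈ Bx d H ∧ x ∈ L n} : Set (Fin d → ℤ)).ncard : ℝ) := by
        push_cast
        rfl
    _ ≤ ∑ n ∈ Finset.range (TP P),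
        c * ((H : ℝ) ^ (d - 1) / ((hgt d C : ℝ) * k) + (H : ℝ) ^ (d - 2)) :=
        Finset.sum_le_sum fun n _ => hone n
    _ = (TP P : ℝ) * (c * ((H : ℝ) ^ (d - 1) / ((hgt d C : ℝ) * k) + (H : ℝ) ^ (d - 2))) := by
        rw [Finset.sum_const, Finset.card_range, nsmul_eq_mul]

end Pool.Agent.Work.MP_8d13b5_lc.LG
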