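import Pool.Agent.Work.MP_8d13b5_lc.LG.AlgStmts

set_option autoImplicit false

/-!
MP_8d13b5_lc, block LG, part A, item Ch.
-/

open Polynomial

namespace Pool.Agent.Work.MP_8d13b5_lc.LG

namespace JCh

theorem pr_vec (c y : List ℤ) (C : ℤ[X]) :
    pr (Rk.charPoly c).natDegree C (vec (Rk.charPoly c).natDegree y) =
      pr c.length C (vec c.length y) := by
  rw [Rk.charPoly_natDegree]

theorem vec_ofFn {d : ℕ} (y : Fin d → ℤ) : vec d (List.ofFn y) = y := by
  funext i
  unfold vec
  rw [List.getD_eq_getElem _ _ (by simp), List.getElem_ofFn]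

theorem shift_all (c x y : List ℤ) (hx : US.valid (c, x)) (hy : US.valid (c, y)) (j : ℕ) (s : ℤ)
    (h : ∀ n < c.length, val (c, y) (n + j) = s * val (c, x) n) :
    ∀ n, val (c, y) (n + j) = s * val (c, x) n := by
  intro n
  induction n using Nat.strong_induction_on with
  | _ n ih =>
    rcases lt_or_ge n c.length with h1 | h1
    · exact h n h1
    · obtain ⟨m, rfl⟩ := Nat.exists_eq_add_of_le' h1
      have e1 : m + c.length + j = m + j + c.length := by ring
      have hd : 1 ≤ c.length := hx.2.1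
      have r1 := US.val_rec (c, y) hy (m + j)
      have r2 := US.val_rec (c, x) hx m
      simp only at r1 r2
      rw [e1, r1, r2, Finset.mul_sum]
      refine Finset.sum_congr rfl fun i hi => ?_
      rw [Finset.mem_range] at hi
      have e2 : m + j + c.length - 1 - i = (m + c.length - 1 - i) + j := by omega
      rw [e2, ih (m + c.length - 1 - i) (by omega)]
      ring

end JCh

open JCh in
theorem prCh (hRel : StRel) (hChC : StChC) : StCh := by
  intro c x hx
  obtain ⟨hx1, hx2, hx3⟩ := hx
  have hx : US.valid (c, x) := ⟨hx1, hx2, hx3⟩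
  simp only at hx1 hx2 hx3
  have hdeg : (Rk.charPoly c).natDegree = c.length := Rk.charPoly_natDegree c
  have hval : ∀ y : List ℤ, y.length = c.length → US.valid (c, y) :=
    fun y hy => ⟨hy.symm, hx2, hx3⟩
  have hR : ∀ y : List ℤ, y.length = c.length → ∀ n,
      pr (Rk.charPoly c).natDegree (W (Rk.charPoly c) n) (vec (Rk.charPoly c).natDegree y) =
        val (c, y) n := by
    intro y hy n
    rw [pr_vec, ← hRel c y (hval y hy) n]
  constructor
  · rintro ⟨j, s, y, h1, h2, h3, h4, h5⟩
    have hy : (List.ofFn y).length = c.length := by rw [List.length_ofFn, hdeg]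
    have hv : vec (Rk.charPoly c).natDegree (List.ofFn y) = y := vec_ofFn y
    rw [← hv] at h4 h5
    have h3' : ∀ n, val (c, List.ofFn y) (n + j) = s * val (c, x) n := by
      intro n
      have := h3 n
      rw [← hv, hR _ hy, hR _ hx1.symm] at this
      exact this
    rw [hR _ hy] at h4
    obtain ⟨T, Q, hC⟩ := (hChC c (List.ofFn y) (hval _ hy)).1 h5
    exact ⟨(j, s, List.ofFn y, T, Q), hy, h1, h2, fun n _ => h3' n, h4, hC⟩
  · rintro ⟨⟨j, s, y, T, Q⟩, hy, h1, h2, h3, h4, h5⟩
    simp only at hy h1 h2 h3 h4 h5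
    refine ⟨j, s, vec (Rk.charPoly c).natDegree y, h1, h2, ?_, ?_, ?_⟩
    · intro n
      rw [hR _ hy, hR _ hx1.symm]
      exact shift_all c x y hx (hval y hy) j s h3 n
    · rw [hR _ hy]; exact h4
    · exact (hChC c y (hval y hy)).2 ⟨T, Q, h5⟩

end Pool.Agent.Work.MP_8d13b5_lc.LG
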