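import Pool.Agent.Work.MP_8d13b5_lc.LG.AlgStmts

set_option autoImplicit false

/-! MP_8d13b5_lc, block LG, item ChC: the check of a certificate. -/

open Polynomial

namespace Pool.Agent.Work.MP_8d13b5_lc.LG

namespace JChC

theorem pr_cast (f : ℤ[X]) (d : ℕ) (h : f.natDegree = d) (C : ℤ[X]) (y : List ℤ) :
    pr f.natDegree C (vec f.natDegree y) = pr d C (vec d y) := by
  subst h
  rfl

theorem dvd_all (c y : List ℤ) (hv : US.valid (c, y)) (p : ℤ) (T : ℕ)
    (h : ∀ n < c.length, p ∣ val (c, y) (n + T) - val (c, y) n) (n : ℕ) :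
    p ∣ val (c, y) (n + T) - val (c, y) n := by
  induction n using Nat.strong_induction_on with
  | _ n ih =>
    by_cases hn : n < c.length
    · exact h n hn
    · obtain ⟨k, rfl⟩ : ∃ k, n = k + c.length := ⟨n - c.length, by omega⟩
      have h1 := US.val_rec (c, y) hv (k + T)
      have h2 := US.val_rec (c, y) hv k
      simp only at h1 h2
      have h3 : k + c.length + T = k + T + c.length := by ring
      rw [h3, h1, h2, ← Finset.sum_sub_distrib]
      refine Finset.dvd_sum fun j hj => ?_
      have hj' := Finset.mem_range.1 hj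
      rw [← mul_sub]
      refine Dvd.dvd.mul_left ?_ _
      have h4 : k + T + c.length - 1 - j = (k + c.length - 1 - j) + T := by omega
      rw [h4]
      exact ih (k + c.length - 1 - j) (by omega)

end JChC

theorem prChC (hRel : StRel) (hChI : StChI) : StChC := by
  intro c y hv
  have hval : ∀ n, pr (Rk.charPoly c).natDegree (W (Rk.charPoly c) n)
      (vec (Rk.charPoly c).natDegree y) = val (c, y) n := by
    intro n
    rw [JChC.pr_cast _ _ (Rk.charPoly_natDegree c), ← hRel c y hv n]
  obtain ⟨-, hv2, hv3⟩ := id hv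
  have hc : c ≠ [] := by
    rintro rfl
    simp at hv2
  have hcd : cd c ≠ 0 := hv3
  constructor
  · rintro ⟨T, Q, hT, h1, h2⟩
    refine ⟨T, Q, hT, ?_, ?_⟩
    · intro q hq
      obtain ⟨ha, hb, hd⟩ := h1 q hq
      refine ⟨(hChI c hc hcd q).2 ha, hb, fun n _ => ?_⟩
      have h := hd n
      rwa [hval, hval] at h
    · intro m hm hm1
      rcases h2 m hm1 (by omega) with ⟨q, hq, h⟩ | ⟨q, hq, hq2, h⟩
      · left
        refine ⟨q, hq, ?_⟩
        rwa [hval] at h
      · right
        refine ⟨q, hq, hq2, ?_⟩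
        rw [hval] at h
        rwa [Nat.cast_pow]
  · rintro ⟨T, Q, hT, h1, h2⟩
    refine ⟨T, Q, hT, ?_, ?_⟩
    · intro q hq
      obtain ⟨ha, hb, hd⟩ := h1 q hq
      refine ⟨(hChI c hc hcd q).1 ha, hb, fun n => ?_⟩
      rw [hval, hval]
      exact JChC.dvd_all c y hv _ T hd n
    · intro m hm1 hm
      rcases h2 m (by omega) hm1 with ⟨q, hq, h⟩ | ⟨q, hq, hq2, h⟩
      · left
        refine ⟨q, hq, ?_⟩
        rwa [hval]
      · right
        refine ⟨q, hq, hq2, ?_⟩
        rw [hval]
        rwa [Nat.cast_pow] at h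

end Pool.Agent.Work.MP_8d13b5_lc.LG
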