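import Pool.Agent.Work.MP_8d13b5_lc.LG.AlgStmts

set_option autoImplicit false

/-! Item ChI of block LG, part A: the check of an isolating prime. -/

open Polynomial

namespace Pool.Agent.Work.MP_8d13b5_lc.LG

namespace JChI

theorem vec_bas (d i : ℕ) (j : Fin d) : vec d (bas d i) j = if (j : ℕ) = i then 1 else 0 := by
  unfold vec bas
  rw [List.getD_eq_getElem _ _ (by simp)]
  simp

theorem pr_bas (d i : ℕ) (hi : i < d) (C : ℤ[X]) : pr d C (vec d (bas d i)) = C.coeff i := by
  unfold pr
  rw [Finset.sum_eq_single (⟨i, hi⟩ : Fin d)]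
  · rw [vec_bas]
    simp
  · intro j _ hj
    rw [vec_bas, if_neg (fun h => hj (Fin.ext h)), mul_zero]
  · intro h
    exact absurd (Finset.mem_univ _) h

theorem dvd_iff (f : ℤ[X]) (hf : f.Monic) (hd : 1 ≤ f.natDegree) (r : ℕ) (a μ : ℤ) :
    (∃ N : ℤ[X], f ∣ X ^ r - C μ - C a * N) ↔
      ∀ i < f.natDegree, a ∣ (W f r).coeff i - (if i = 0 then μ else 0) := by
  have hdeg : ∀ x : ℤ, (C x : ℤ[X]).degree < f.degree := by
    intro x
    refine lt_of_le_of_lt degree_C_le ?_
    rw [← natDegree_pos_iff_degree_pos]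
    omega
  constructor
  · rintro ⟨N, Q, hQ⟩ i hi
    have h1 : (X ^ r : ℤ[X]) = C μ + C a * N + f * Q := by rw [← hQ]; ring
    have h2 : W f r = C μ + C a * (N %ₘ f) := by
      unfold W
      have h3 : (f * Q) %ₘ f = 0 := by
        rw [modByMonic_eq_zero_iff_dvd hf]
        exact dvd_mul_right f Q
      rw [h1, add_modByMonic, add_modByMonic, h3, add_zero,
        (modByMonic_eq_self_iff hf).2 (hdeg μ), ← smul_eq_C_mul, ← smul_eq_C_mul,
        smul_modByMonic]
    rw [h2, coeff_add, coeff_C_mul, coeff_C]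
    refine ⟨(N %ₘ f).coeff i, ?_⟩
    ring
  · intro h
    have h1 : C a ∣ W f r - C μ := by
      rw [C_dvd_iff_dvd_coeff]
      intro i
      by_cases hi : i < f.natDegree
      · rw [coeff_sub, coeff_C]
        exact h i hi
      · have h2 : (W f r).coeff i = 0 := by
          apply coeff_eq_zero_of_degree_lt
          refine lt_of_lt_of_le (degree_modByMonic_lt _ hf) ?_
          rw [degree_eq_natDegree hf.ne_zero]
          exact_mod_cast not_lt.1 hi
        rw [coeff_sub, h2, coeff_C, if_neg (by omega), sub_zero]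
        exact dvd_zero a
    obtain ⟨N, hN⟩ := h1
    refine ⟨N, X ^ r /ₘ f, ?_⟩
    have h3 := modByMonic_add_div (X ^ r : ℤ[X]) f
    rw [← hN]
    unfold W
    linear_combination -h3

end JChI

open JChI in
theorem prChI (hRel : StRel) : StChI := by
  intro c hc hcd q
  have hlen : 1 ≤ c.length := List.length_pos_iff.2 hc
  have hnd := Rk.charPoly_natDegree c
  have hmon := Rk.charPoly_monic c
  have h0 : (Rk.charPoly c).coeff 0 = -cd c := by
    rw [Rk.charPoly_coeff, if_neg (by omega), if_pos (by omega)]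
    unfold cd
    simp
  have hval : ∀ i < c.length, val (c, bas c.length i) q.2.1 =
      (W (Rk.charPoly c) q.2.1).coeff i := by
    intro i hi
    rw [hRel c (bas c.length i) ⟨by unfold bas; simp, hlen, hcd⟩, pr_bas _ _ hi]
  have hiff := dvd_iff (Rk.charPoly c) hmon (by omega) q.2.1 ((q.1 : ℤ) ^ q.2.2.1) q.2.2.2
  unfold ChI IsoAt
  rw [hiff, h0, hnd, dvd_neg]
  constructor
  · rintro ⟨a1, a2, a3, a4, a5, a6⟩
    refine ⟨a1, a2, a3, a4, a5, fun i hi => ?_⟩
    have := a6 i hi
    rw [hval i hi] at this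
    exact_mod_cast this
  · rintro ⟨a1, a2, a3, a4, a5, a6⟩
    refine ⟨a1, a2, a3, a4, a5, fun i hi => ?_⟩
    have := a6 i hi
    rw [hval i hi]
    exact_mod_cast this

end Pool.Agent.Work.MP_8d13b5_lc.LG
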