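import Pool.Agent.Work.MP_8d13b5_lc.LG.Stmts

/-!
# MP_8d13b5_lc, block LG, item Cnt
-/

set_option autoImplicit false

open Polynomial

namespace Pool.Agent.Work.MP_8d13b5_lc.LG

namespace JCnt

theorem fin_sub (d H : ℕ) (p : (Fin d → ℤ) → Prop) : {x | x ∈ Bx d H ∧ p x}.Finite :=
  (Bx d H).finite_toSet.subset fun _ hx => hx.1

/-- degree one -/
theorem deg1 (hD1 : StD1) (f : ℤ[X]) (hf : Ok f) (h1 : f.natDegree = 1) (ε : ℝ) (hε : 0 < ε) :
    ∃ 𝒞 : Finset ℤ[X], (∀ C ∈ 𝒞, Prim f.natDegree C ∧ ParQ f C) ∧ ∃ H0 : ℕ, ∀ H : ℕ, H0 ≤ H →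
    (Set.ncard {x | x ∈ Bx f.natDegree H ∧ Bad f x ∧ ∀ C ∈ 𝒞, pr f.natDegree C x ≠ 0} : ℝ) ≤
      ε * (H : ℝ) ^ (f.natDegree - 1) := by
  refine ⟨{1}, ?_, 0, ?_⟩
  · intro C hC
    rw [Finset.mem_singleton] at hC
    subst hC
    refine ⟨⟨?_, ?_⟩, 0, 0, 1, 1, one_ne_zero, one_ne_zero, ?_⟩
    · rw [h1, natDegree_one]
      exact Nat.zero_lt_one
    · exact content_one
    · simp
  · intro H _
    have hemp : {x | x ∈ Bx f.natDegree H ∧ Bad f x ∧
        ∀ C ∈ ({1} : Finset ℤ[X]), pr f.natDegree C x ≠ 0} = ∅ := by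
      ext x
      constructor
      · rintro ⟨_, hb, hC⟩
        exact (hC 1 (Finset.mem_singleton_self 1) (hD1 f hf h1 x hb)).elim
      · intro hx
        exact hx.elim
    rw [hemp, Set.ncard_empty]
    simp only [Nat.cast_zero]
    positivity

theorem ncard_biUnion_le {α : Type} {ι : Type} (S : Finset ι) (g : ι → Set α)
    (r : ℝ) (hr : ∀ i ∈ S, ((g i).ncard : ℝ) ≤ r) :
    ((⋃ i ∈ S, g i).ncard : ℝ) ≤ S.card * r := by
  classical
  induction S using Finset.induction_on with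
  | empty => simp
  | insert a S ha ih =>
    rw [Finset.set_biUnion_insert, Finset.card_insert_of_notMem ha]
    have h1 := Set.ncard_union_le (g a) (⋃ i ∈ S, g i)
    have h2 : ((g a ∪ ⋃ i ∈ S, g i).ncard : ℝ) ≤ (g a).ncard + (⋃ i ∈ S, g i).ncard := by
      exact_mod_cast h1
    have h3 := hr a (Finset.mem_insert_self a S)
    have h4 := ih fun i hi => hr i (Finset.mem_insert_of_mem hi)
    push_cast
    linarith

theorem arith (x a b c p ε : ℝ) (n : ℕ) (hε : 0 ≤ ε) (hp : 0 ≤ p) (hx : x ≤ a + b + c)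
    (ha : a ≤ ε / 3 * p) (hb : b ≤ ε / 3 * p)
    (hc : c ≤ n * (ε / (3 * ((n : ℝ) + 1)) * p)) : x ≤ ε * p := by
  have hn : (0 : ℝ) ≤ (n : ℝ) := Nat.cast_nonneg n
  have hn1 : (0 : ℝ) < (n : ℝ) + 1 := by linarith
  have he : (n : ℝ) * (ε / (3 * ((n : ℝ) + 1)) * p) = ε / 3 * p * ((n : ℝ) / ((n : ℝ) + 1)) := by
    field_simp
  have hq : (n : ℝ) / ((n : ℝ) + 1) ≤ 1 := by
    rw [div_le_one hn1]
    linarith
  have h3 : 0 ≤ ε / 3 * p := mul_nonneg (div_nonneg hε (by norm_num)) hp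
  have h4 : ε / 3 * p * ((n : ℝ) / ((n : ℝ) + 1)) ≤ ε / 3 * p := mul_le_of_le_one_right h3 hq
  rw [he] at hc
  linarith

end JCnt

open JCnt in
theorem prCnt (hC1 : StC1) (hC2 : StC2) (hC3 : StC3) (hHgt : StHgt) (hD1 : StD1) : StCnt := by
  classical
  intro f hf hd1 ε hε
  rcases Nat.eq_or_lt_of_le hd1 with h1 | h2
  · exact deg1 hD1 f hf h1.symm ε hε
  · have h2 : 2 ≤ f.natDegree := h2
    obtain ⟨H1, hH1⟩ := hC1 f hf h2 (ε / 3) (by positivity)
    obtain ⟨X1, H2, hH2⟩ := hC2 f hf h2 (ε / 3) (by positivity)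
    have hF := ((hHgt f.natDegree).2 X1).1
    set F : Finset ℤ[X] := hF.toFinset with hFdef
    set S : Finset ℤ[X] := F.filter fun C => Prim f.natDegree C ∧ ¬ ParQ f C with hSdef
    have hpos : 0 < ε / (3 * ((S.card : ℝ) + 1)) := by positivity
    have hex : ∀ C ∈ S, ∃ H0 : ℕ, ∀ H : ℕ, H0 ≤ H →
        (Set.ncard {x | x ∈ Bx f.natDegree H ∧ Bad f x ∧ pr f.natDegree C x = 0} : ℝ) ≤
        ε / (3 * ((S.card : ℝ) + 1)) * (H : ℝ) ^ (f.natDegree - 1) := by
      intro C hC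
      have h := (Finset.mem_filter.1 hC).2
      exact hC3 f hf h2 C h.1 h.2 _ hpos
    choose! G hG using hex
    refine ⟨F.filter fun C => Prim f.natDegree C ∧ ParQ f C, ?_, max (max H1 H2) (S.sup G), ?_⟩
    · intro C hC
      exact (Finset.mem_filter.1 hC).2
    · intro H hH
      have hHH1 : H1 ≤ H := le_trans (le_trans (le_max_left _ _) (le_max_left _ _)) hH
      have hHH2 : H2 ≤ H := le_trans (le_trans (le_max_right _ _) (le_max_left _ _)) hH
      have hHS : ∀ C ∈ S, G C ≤ H := fun C hC =>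
        le_trans (le_trans (Finset.le_sup hC) (le_max_right _ _)) hH
      set A : Set (Fin f.natDegree → ℤ) := {x | x ∈ Bx f.natDegree H ∧ Bad f x ∧
        ∀ C : ℤ[X], Prim f.natDegree C →
        (hgt f.natDegree C : ℝ) < (H : ℝ) ^ (1 / (5 * f.natDegree : ℝ)) →
        pr f.natDegree C x ≠ 0} with hA
      set B : Set (Fin f.natDegree → ℤ) := {x | x ∈ Bx f.natDegree H ∧ Bad f x ∧
        ∃ C : ℤ[X], Prim f.natDegree C ∧ X1 ≤ hgt f.natDegree C ∧
        (hgt f.natDegree C : ℝ) < (H : ℝ) ^ (1 / (5 * f.natDegree : ℝ)) ∧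
        pr f.natDegree C x = 0} with hB
      set D : ℤ[X] → Set (Fin f.natDegree → ℤ) := fun C =>
        {x | x ∈ Bx f.natDegree H ∧ Bad f x ∧ pr f.natDegree C x = 0} with hD
      have hsub : {x | x ∈ Bx f.natDegree H ∧ Bad f x ∧
          ∀ C ∈ F.filter (fun C => Prim f.natDegree C ∧ ParQ f C), pr f.natDegree C x ≠ 0} ⊆
          (A ∪ B) ∪ ⋃ C ∈ S, D C := by
        rintro x ⟨hxB, hbad, hx⟩
        by_cases hc : ∀ C : ℤ[X], Prim f.natDegree C →
            (hgt f.natDegree C : ℝ) < (H : ℝ) ^ (1 / (5 * f.natDegree : ℝ)) →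
            pr f.natDegree C x ≠ 0
        · exact Or.inl (Or.inl ⟨hxB, hbad, hc⟩)
        · push Not at hc
          obtain ⟨C, hCp, hCh, hC0⟩ := hc
          by_cases hX : X1 ≤ hgt f.natDegree C
          · exact Or.inl (Or.inr ⟨hxB, hbad, C, hCp, hX, hCh, hC0⟩)
          · have hCF : C ∈ F := by
              rw [hFdef, Set.Finite.mem_toFinset]
              exact ⟨hCp.1, (not_le.1 hX).le⟩
            have hCS : C ∈ S := by
              rw [hSdef, Finset.mem_filter]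
              refine ⟨hCF, hCp, fun hpar => ?_⟩
              exact hx C (Finset.mem_filter.2 ⟨hCF, hCp, hpar⟩) hC0
            refine Or.inr ?_
            simp only [Set.mem_iUnion]
            exact ⟨C, hCS, hxB, hbad, hC0⟩
      have hfin : ((A ∪ B) ∪ ⋃ C ∈ S, D C).Finite := by
        refine Set.Finite.union (Set.Finite.union ?_ ?_) ?_
        · exact (Bx f.natDegree H).finite_toSet.subset fun _ hx => hx.1
        · exact (Bx f.natDegree H).finite_toSet.subset fun _ hx => hx.1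
        · refine Set.Finite.biUnion S.finite_toSet fun C _ => ?_
          exact (Bx f.natDegree H).finite_toSet.subset fun _ hx => hx.1
      have hle := Set.ncard_le_ncard hsub hfin
      have hu1 := Set.ncard_union_le (A ∪ B) (⋃ C ∈ S, D C)
      have hu2 := Set.ncard_union_le A B
      have hle' : (Set.ncard {x | x ∈ Bx f.natDegree H ∧ Bad f x ∧
          ∀ C ∈ F.filter (fun C => Prim f.natDegree C ∧ ParQ f C),
          pr f.natDegree C x ≠ 0} : ℝ) ≤ (A.ncard : ℝ) + B.ncard + (⋃ C ∈ S, D C).ncard := by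
        have : Set.ncard {x | x ∈ Bx f.natDegree H ∧ Bad f x ∧
          ∀ C ∈ F.filter (fun C => Prim f.natDegree C ∧ ParQ f C),
          pr f.natDegree C x ≠ 0} ≤ A.ncard + B.ncard + (⋃ C ∈ S, D C).ncard := by omega
        exact_mod_cast this
      have hA' := hH1 H hHH1
      have hB' := hH2 H hHH2
      have hD' := ncard_biUnion_le S D _ fun C hC => hG C hC H (hHS C hC)
      exact arith _ _ _ _ _ ε S.card hε.le (pow_nonneg (Nat.cast_nonneg H) _) hle' hA' hB' hD'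

end Pool.Agent.Work.MP_8d13b5_lc.LG
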