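import Pool.Agent.Work.MP_8d13b5_lc.LG.AlgStmts

/-!
# MP_8d13b5_lc, block LG, item CntA (helper32): the count for one recurrence
-/

set_option autoImplicit false

open Polynomial

namespace Pool.Agent.Work.MP_8d13b5_lc.LG.JCntA

theorem vec_apply (c : List ℤ) (d : ℕ) (hd : d = c.length) (x : Fin c.length → ℤ) (i : Fin d) :
    vec d (List.ofFn x) i = x ⟨i, hd ▸ i.2⟩ := by
  subst hd
  unfold vec
  rw [List.getD_eq_getElem _ _ (by rw [List.length_ofFn]; exact i.2), List.getElem_ofFn]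

theorem vec_inj (c : List ℤ) (d : ℕ) (hd : d = c.length) :
    Function.Injective (fun x : Fin c.length → ℤ => vec d (List.ofFn x)) := by
  subst hd
  intro x x' h
  funext i
  have h1 := congrFun h i
  simp only [vec_apply c c.length rfl] at h1
  exact h1

theorem map_eq (c : List ℤ) : (Rk.charPoly c).map (Int.castRingHom ℚ) =
    X ^ c.length - ∑ j ∈ Finset.range c.length,
      C ((c.getD j 0 : ℤ) : ℚ) * X ^ (c.length - 1 - j) := by
  unfold Rk.charPoly
  rw [Polynomial.map_sub, Polynomial.map_pow, Polynomial.map_X, Polynomial.map_sum,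
    ← Finset.sum_range_reflect]
  congr 1
  refine Finset.sum_congr rfl fun i hi => ?_
  rw [Finset.mem_range] at hi
  rw [Polynomial.map_mul, Polynomial.map_pow, Polynomial.map_X, Polynomial.map_C]
  have h : c.length - 1 - (c.length - 1 - i) = i := by omega
  rw [h]
  rfl

theorem ok (c : List ℤ) (h1 : 1 ≤ c.length) (h2 : c.getD (c.length - 1) 0 ≠ 0)
    (h3 : (X ^ c.length - ∑ j ∈ Finset.range c.length,
      C ((c.getD j 0 : ℤ) : ℚ) * X ^ (c.length - 1 - j) : ℚ[X]).Separable) :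
    Ok (Rk.charPoly c) := by
  refine ⟨Rk.charPoly_monic c, by rw [map_eq]; exact h3, ?_⟩
  rw [Rk.charPoly_coeff, if_neg (by omega), if_pos (by omega), Nat.sub_zero, zero_sub, neg_ne_zero]
  exact h2

end Pool.Agent.Work.MP_8d13b5_lc.LG.JCntA

namespace Pool.Agent.Work.MP_8d13b5_lc.LG

open JCntA in
/-- the count for one recurrence -/
theorem prCntA (hTot : StTot) (hMd : StMd) (hMod : StMod) (hCh : StCh) (hRel : StRel) :
    StCntA := by
  intro c h1 h2 h3 ε hε
  have hdeg := Rk.charPoly_natDegree c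
  obtain ⟨H0, hH0⟩ := hTot (Rk.charPoly c) (ok c h1 h2 h3) (by rw [hdeg]; exact h1) ε hε
  refine ⟨H0, fun H hH => ?_⟩
  have hmain := hH0 H hH
  have hpow : ε * (H : ℝ) ^ ((Rk.charPoly c).natDegree - 1) = ε * (H : ℝ) ^ (c.length - 1) := by
    rw [hdeg]
  rw [hpow] at hmain
  refine le_trans ?_ hmain
  have hfin : {x | x ∈ Bx (Rk.charPoly c).natDegree H ∧ Bad (Rk.charPoly c) x ∧
      (∀ n, pr (Rk.charPoly c).natDegree (W (Rk.charPoly c) n) x ≠ 0) ∧
      ¬ Cert' (Rk.charPoly c) x}.Finite :=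
    (Bx (Rk.charPoly c).natDegree H).finite_toSet.subset fun x hx => hx.1
  have hle := Set.ncard_le_ncard_of_injOn
    (s := {x : Fin c.length → ℤ | (∀ i, |x i| ≤ H) ∧
        (∀ n, val (c, List.ofFn x) n ≠ 0) ∧ (∀ m, ¬ ChM (c, List.ofFn x) m) ∧
        ∀ D : Dat, ¬ Ch (c, List.ofFn x) D})
    (t := {x | x ∈ Bx (Rk.charPoly c).natDegree H ∧ Bad (Rk.charPoly c) x ∧
      (∀ n, pr (Rk.charPoly c).natDegree (W (Rk.charPoly c) n) x ≠ 0) ∧
      ¬ Cert' (Rk.charPoly c) x})
    (fun x : Fin c.length → ℤ => vec (Rk.charPoly c).natDegree (List.ofFn x)) ?_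
    ((vec_inj c _ hdeg).injOn) hfin
  · exact_mod_cast hle
  · rintro x ⟨hx1, hx2, hx3, hx4⟩
    have hval : US.valid (c, List.ofFn x) := by
      refine ⟨?_, h1, h2⟩
      show c.length = (List.ofFn x).length
      rw [List.length_ofFn]
    refine ⟨?_, ?_, ?_, ?_⟩
    · rw [Bx, Fintype.mem_piFinset]
      intro i
      rw [vec_apply c _ hdeg, Finset.mem_Icc, ← abs_le]
      exact hx1 _
    · by_contra hb
      obtain ⟨m, hm⟩ := hMd c (List.ofFn x) hval hb
      exact hx3 m ((hMod (c, List.ofFn x) hval m).2 hm)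
    · intro n hn
      apply hx2 n
      rw [hRel c (List.ofFn x) hval n, ← hn, hdeg]
    · intro hc
      obtain ⟨D, hD⟩ := (hCh c (List.ofFn x) hval).1 hc
      exact hx4 D hD

end Pool.Agent.Work.MP_8d13b5_lc.LG
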