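import Pool.Agent.Work.MP_8d13b5_lc.LG.Stmts

/-!
# MP_8d13b5_lc, block LG, item D1: degree one
-/

set_option autoImplicit false

open Polynomial

namespace Pool.Agent.Work.MP_8d13b5_lc.LG

namespace JD1

theorem pr_one (d : ℕ) (hd : d = 1) (x : Fin d → ℤ) :
    ∃ y : ℤ, ∀ C : ℤ[X], pr d C x = C.coeff 0 * y := by
  subst hd
  exact ⟨x 0, fun C => by simp [pr]⟩

end JD1

/-- Item D1. -/
theorem prD1 (hSup : StSup) (hPer : StPer) : StD1 := by
  intro f hf hd x hbad
  obtain ⟨y, hy⟩ := JD1.pr_one f.natDegree hd x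
  rw [hy, coeff_one_zero, one_mul]
  by_contra hy0
  obtain ⟨hfm, hfs, hf0⟩ := hf
  obtain ⟨Z0, hZ0⟩ := hSup f hfm hfs hf0 y.natAbs 1 one_pos
  obtain ⟨P, hP1, hP2, -⟩ := hZ0 (max Z0 2) (le_max_left _ _)
  have hne : P.Nonempty := by
    rw [Finset.nonempty_iff_ne_empty]
    intro h
    rw [h] at hP2
    have h2 := (le_max_right Z0 2).trans hP2
    unfold MP at h2
    rw [Finset.prod_empty] at h2
    norm_num at h2
  obtain ⟨p, hp⟩ := hne
  obtain ⟨hg, hlt⟩ := hP1 p hp
  obtain ⟨n, hn⟩ := hbad {p} (fun q hq => by rw [Finset.mem_singleton] at hq; rw [hq]; exact hg)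
  rw [hy] at hn
  have hMP : MP {p} = p := Finset.prod_singleton _ _
  rw [hMP] at hn
  have hdeg : (W f n).degree ≤ 0 := by
    have h1 : (W f n).degree < f.degree := degree_modByMonic_lt _ hfm
    have h2 : f.degree = ((1 : ℕ) : WithBot ℕ) := by
      rw [degree_eq_natDegree hfm.ne_zero, hd]
    rw [h2] at h1
    by_cases h0 : W f n = 0
    · rw [h0, degree_zero]
      exact bot_le
    · rw [degree_eq_natDegree h0] at h1 ⊢
      have h3 : (W f n).natDegree < 1 := by exact_mod_cast h1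
      have h4 : (W f n).natDegree = 0 := by omega
      rw [h4]
      exact le_rfl
  have hC := eq_C_of_degree_le_zero hdeg
  have hmap := (hPer f p hfm (by omega) hg).2.1 n
  rw [hC, map_C] at hmap
  have hc : ¬ (p : ℤ) ∣ (W f n).coeff 0 := by
    intro h
    apply hmap
    have h1 : (Int.castRingHom (ZMod p)) ((W f n).coeff 0) = 0 := by
      rw [eq_intCast]
      exact (ZMod.intCast_zmod_eq_zero_iff_dvd _ _).2 h
    rw [h1, C_0]
  have hpp : Prime (p : ℤ) := Nat.prime_iff_prime_int.1 hg.1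
  rcases hpp.dvd_or_dvd hn with h | h
  · exact hc h
  · have h1 : p ∣ y.natAbs := Int.natCast_dvd.1 h
    have h2 : p ≤ y.natAbs := Nat.le_of_dvd (Int.natAbs_pos.2 hy0) h1
    omega

end Pool.Agent.Work.MP_8d13b5_lc.LG
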