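import Pool.Agent.Work.MP_8d13b5_lc.LG.StmtsK

set_option autoImplicit false

/-! Block `LG`, part K, item Dg1: the degree of `K(ζ, α)` over `K(ζ)`. -/

namespace Pool.Agent.Work.MP_8d13b5_lc.LG

open Polynomial NumberField Module

namespace JDg1

/-- the power of `α` with exponent the relative degree lies in `L` -/
theorem powr_mem {K F : Type} [Field K] [Field F] [Algebra K F] (L : IntermediateField K F)
    [FiniteDimensional L F] (N : ℕ) (hN : 0 < N) (ζ α : F) (hζ : IsPrimitiveRoot ζ N)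
    (hζL : ζ ∈ L) (γ : K) (hα : α ^ N = algebraMap K F γ) (hγ : γ ≠ 0) :
    α ^ finrank L F ∈ L := by
  have hα0 : α ≠ 0 := by
    rintro rfl
    rw [zero_pow hN.ne'] at hα
    exact hγ ((map_eq_zero (algebraMap K F)).1 hα.symm)
  have h1 : (algebraMap L F (Algebra.norm L α)) ^ N = (α ^ finrank L F) ^ N := by
    rw [← map_pow, ← map_pow, hα]
    have h2 : algebraMap K F γ = algebraMap L F (algebraMap K L γ) := rfl
    rw [h2, Algebra.norm_algebraMap, map_pow, ← h2, ← hα, ← pow_mul, ← pow_mul, mul_comm]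
  have h3 : (algebraMap L F (Algebra.norm L α) / α ^ finrank L F) ^ N = 1 := by
    rw [div_pow, h1, div_self (pow_ne_zero _ (pow_ne_zero _ hα0))]
  have : NeZero N := ⟨hN.ne'⟩
  obtain ⟨i, _, hi⟩ := hζ.eq_pow_of_pow_eq_one h3
  have h4 : α ^ finrank L F = algebraMap L F (Algebra.norm L α) * (ζ ^ i)⁻¹ := by
    rw [hi, inv_div, mul_div_assoc', mul_comm, mul_div_assoc, div_self, mul_one]
    intro h0
    rw [h0, zero_div] at hi
    exact (pow_ne_zero i (hζ.ne_zero hN.ne')) hi
  rw [h4]
  exact L.mul_mem (Algebra.norm L α).2 (L.inv_mem (pow_mem hζL i))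

end JDg1

open JDg1

theorem prDg1 : StDg1 := by
  intro K _ _ l b e γ F _ _ ζ α hl hγ hζ hα htop hβ
  have hN : 0 < l ^ e := pow_pos hl.pos e
  have hα0 : α ≠ 0 := by
    rintro rfl
    rw [zero_pow hN.ne'] at hα
    exact hγ ((map_eq_zero (algebraMap K F)).1 hα.symm)
  have hζi : IsIntegral K ζ := IsIntegral.of_pow hN (by rw [hζ.pow_eq_one]; exact isIntegral_one)
  have hαi : IsIntegral K α := IsIntegral.of_pow hN (by rw [hα]; exact isIntegral_algebraMap)
  have hfin : FiniteDimensional K F := by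
    have h1 : FiniteDimensional K (IntermediateField.adjoin K {ζ, α}) := by
      refine IntermediateField.finiteDimensional_adjoin fun x hx => ?_
      rcases hx with rfl | hx
      · exact hζi
      · rw [Set.mem_singleton_iff.1 hx]
        exact hαi
    rw [htop] at h1
    exact LinearEquiv.finiteDimensional (IntermediateField.topEquiv (F := K) (E := F)).toLinearEquiv
  set L : IntermediateField K F := IntermediateField.adjoin K {ζ} with hL
  have hζL : ζ ∈ L := IntermediateField.mem_adjoin_simple_self K ζ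
  have : FiniteDimensional L F := FiniteDimensional.right K L F
  have hr : α ^ finrank L F ∈ L := powr_mem L (l ^ e) hN ζ α hζ hζL γ hα hγ
  set r := finrank L F with hrdef
  have hr0 : 0 < r := finrank_pos
  have hmul : finrank K F = finrank K L * r := (Module.finrank_mul_finrank K L F).symm
  obtain ⟨j, hje, hj⟩ := (Nat.dvd_prime_pow hl).1 (Nat.gcd_dvd_right r (l ^ e))
  have hαL : α ^ (l ^ e) ∈ L := by
    rw [hα]
    exact L.algebraMap_mem γ
  have hjL : α ^ (l ^ j) ∈ L := by
    have h1 : ((l ^ j : ℕ) : ℤ) = r * r.gcdA (l ^ e) + (l ^ e : ℕ) * r.gcdB (l ^ e) := by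
      rw [← hj]
      exact Nat.gcd_eq_gcd_ab r (l ^ e)
    have h2 : α ^ (l ^ j) = (α ^ r) ^ (r.gcdA (l ^ e)) * (α ^ (l ^ e)) ^ (r.gcdB (l ^ e)) := by
      rw [← zpow_natCast α (l ^ j), h1, zpow_add₀ hα0, zpow_mul, zpow_mul, zpow_natCast,
        zpow_natCast]
    rw [h2]
    exact L.mul_mem (zpow_mem hr _) (zpow_mem hαL _)
  have hbj : e < j + b := by
    by_contra hcon
    push Not at hcon
    refine hβ ((α ^ (l ^ j)) ^ (l ^ (e - j - b))) (pow_mem hjL _) ?_
    rw [← pow_mul, ← pow_mul, ← pow_add, ← pow_add, ← hα]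
    congr 2
    omega
  have h5 : l ^ e ≤ l ^ b * r := by
    have h6 : l ^ j ∣ r := by
      rw [← hj]
      exact Nat.gcd_dvd_left r (l ^ e)
    calc l ^ e ≤ l ^ (b + j) := Nat.pow_le_pow_right hl.pos (by omega)
      _ = l ^ b * l ^ j := pow_add _ _ _
      _ ≤ l ^ b * r := Nat.mul_le_mul_left _ (Nat.le_of_dvd hr0 h6)
  rw [hmul]
  calc l ^ e * finrank K L ≤ (l ^ b * r) * finrank K L := Nat.mul_le_mul_right _ h5
    _ = l ^ b * (finrank K L * r) := by ring

end Pool.Agent.Work.MP_8d13b5_lc.LG
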