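import Pool.Agent.Work.MP_8d13b5_lc.LG.StmtsK

set_option autoImplicit false

/-! Block LG, part K, item Dg2 (helper21): the degree of a cyclotomic extension. -/

open Polynomial NumberField Module

namespace Pool.Agent.Work.MP_8d13b5_lc.LG

namespace JDg2

theorem phi (l e : ℕ) (hl : l.Prime) : l ^ e ≤ 2 * Nat.totient (l ^ e) := by
  rcases Nat.eq_zero_or_pos e with h | h
  · subst h
    simp
  · rw [Nat.totient_prime_pow hl h]
    obtain ⟨m, rfl⟩ : ∃ m, e = m + 1 := ⟨e - 1, by omega⟩
    have h2 := hl.two_le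
    rw [Nat.add_sub_cancel, pow_succ]
    have h3 : l ≤ 2 * (l - 1) := by omega
    calc l ^ m * l ≤ l ^ m * (2 * (l - 1)) := Nat.mul_le_mul_left _ h3
      _ = 2 * (l ^ m * (l - 1)) := by ring

end JDg2

theorem prDg2 : StDg2 := by
  intro K _ _ l e F _ _ ζ hl hζ
  have : CharZero F := charZero_of_injective_algebraMap (algebraMap K F).injective
  have hpos : 0 < l ^ e := pow_pos hl.pos e
  have hint : IsIntegral K ζ := by
    refine IsIntegral.of_pow hpos ?_
    rw [hζ.pow_eq_one]
    exact isIntegral_one
  have hfd : FiniteDimensional K (IntermediateField.adjoin K {ζ}) :=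
    IntermediateField.adjoin.finiteDimensional hint
  have hfq : FiniteDimensional ℚ (IntermediateField.adjoin K {ζ}) :=
    Module.Finite.trans K (IntermediateField.adjoin K {ζ})
  have h1 : finrank ℚ K * finrank K (IntermediateField.adjoin K {ζ}) =
      finrank ℚ (IntermediateField.adjoin K {ζ}) :=
    Module.finrank_mul_finrank ℚ K (IntermediateField.adjoin K {ζ})
  set z : IntermediateField.adjoin K {ζ} :=
    ⟨ζ, IntermediateField.mem_adjoin_simple_self K ζ⟩ with hz
  have hzp : IsPrimitiveRoot z (l ^ e) := by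
    refine IsPrimitiveRoot.of_map_of_injective
      (f := algebraMap (IntermediateField.adjoin K {ζ}) F) ?_
      (FaithfulSMul.algebraMap_injective (IntermediateField.adjoin K {ζ}) F)
    exact hζ
  have h2 := Polynomial.cyclotomic_eq_minpoly_rat hzp hpos
  have h3 : (minpoly ℚ z).natDegree ≤ finrank ℚ (IntermediateField.adjoin K {ζ}) :=
    minpoly.natDegree_le z
  rw [← h2, natDegree_cyclotomic] at h3
  rw [mul_assoc, h1]
  exact (JDg2.phi l e hl).trans (Nat.mul_le_mul_left 2 h3)

end Pool.Agent.Work.MP_8d13b5_lc.LG
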