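import Pool.Agent.Work.MP_8d13b5_lc.LG.StmtsK

set_option autoImplicit false

open Polynomial NumberField Module

namespace Pool.Agent.Work.MP_8d13b5_lc.LG

namespace JDg3

theorem ne0 {K : Type} [Field K] (N : ℕ) (hN : N ≠ 0) (γ : K) :
    ((X ^ N - 1) * (X ^ N - C γ) : K[X]) ≠ 0 := by
  have h1 : (X ^ N - 1 : K[X]) ≠ 0 := by
    have := (monic_X_pow_sub_C (1 : K) hN).ne_zero
    rwa [map_one] at this
  exact mul_ne_zero h1 (monic_X_pow_sub_C γ hN).ne_zero

theorem spl {K E : Type} [Field K] [Field E] [Algebra K E] (N : ℕ) (γ : K) (ζ α : E)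
    (hζ : IsPrimitiveRoot ζ N) (hα : α ^ N = algebraMap K E γ) :
    ((((X ^ N - 1) * (X ^ N - C γ) : K[X])).map (algebraMap K E)).Splits := by
  rw [Polynomial.map_mul]
  have e1 : ((X ^ N - 1 : K[X]).map (algebraMap K E)) = X ^ N - C 1 := by simp
  have e2 : ((X ^ N - C γ : K[X]).map (algebraMap K E)) = X ^ N - C (algebraMap K E γ) := by simp
  rw [e1, e2]
  exact (X_pow_sub_C_splits_of_isPrimitiveRoot hζ (one_pow N)).mul
    (X_pow_sub_C_splits_of_isPrimitiveRoot hζ hα)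

theorem rootsub {K E : Type} [Field K] [Field E] [Algebra K E] (N : ℕ) (hN : N ≠ 0) (γ : K)
    (ζ α : E) (hζ : IsPrimitiveRoot ζ N) (hα : α ^ N = algebraMap K E γ) :
    ({ζ, α} : Set E) ⊆ ((X ^ N - 1) * (X ^ N - C γ) : K[X]).rootSet E := by
  intro z hz
  rw [mem_rootSet]
  refine ⟨ne0 N hN γ, ?_⟩
  rcases hz with rfl | hz
  · simp [hζ.pow_eq_one]
  · rw [Set.mem_singleton_iff] at hz
    subst hz
    simp [hα]

theorem isSF {K E : Type} [Field K] [Field E] [Algebra K E] (N : ℕ) (hN : N ≠ 0) (γ : K)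
    (ζ α : E) (hζ : IsPrimitiveRoot ζ N) (hα : α ^ N = algebraMap K E γ)
    (htop : IntermediateField.adjoin K {ζ, α} = ⊤) :
    ((X ^ N - 1) * (X ^ N - C γ) : K[X]).IsSplittingField K E := by
  rw [isSplittingField_iff_intermediateField]
  refine ⟨spl N γ ζ α hζ hα, ?_⟩
  rw [eq_top_iff, ← htop]
  exact IntermediateField.adjoin.mono K _ _ (rootsub N hN γ ζ α hζ hα)

theorem main {K : Type} [Field K] (l e : ℕ) (γ : K)
    (F F' : Type) [Field F] [Algebra K F] [Field F'] [Algebra K F'] (ζ α ξ : F) (ζ' α' : F')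
    (hl : l ≠ 0) (hζ : IsPrimitiveRoot ζ (l ^ e)) (hα : α ^ (l ^ e) = algebraMap K F γ)
    (htop : IntermediateField.adjoin K {ζ, α} = ⊤) (hξ : IsPrimitiveRoot ξ (l ^ (e + 1)))
    (hζ' : IsPrimitiveRoot ζ' (l ^ (e + 1))) (hα' : α' ^ (l ^ (e + 1)) = algebraMap K F' γ)
    (htop' : IntermediateField.adjoin K {ζ', α'} = ⊤) : finrank K F' ≤ l * finrank K F := by
  have hN : l ^ e ≠ 0 := pow_ne_zero _ hl
  have hN' : l ^ (e + 1) ≠ 0 := pow_ne_zero _ hl
  set P : K[X] := (X ^ (l ^ e) - 1) * (X ^ (l ^ e) - C γ) with hP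
  haveI : P.IsSplittingField K F := isSF (l ^ e) hN γ ζ α hζ hα htop
  have hζ0 : IsPrimitiveRoot (ζ' ^ l) (l ^ e) :=
    hζ'.pow (Nat.pos_of_ne_zero hN') (by rw [pow_succ, mul_comm])
  have hα0 : (α' ^ l) ^ (l ^ e) = algebraMap K F' γ := by
    rw [← pow_mul, ← hα', pow_succ, mul_comm]
  have hs : (P.map (algebraMap K F')).Splits := spl (l ^ e) γ (ζ' ^ l) (α' ^ l) hζ0 hα0
  set F₀ : IntermediateField K F' := IntermediateField.adjoin K (P.rootSet F') with hF₀
  haveI : P.IsSplittingField K F₀ := IntermediateField.adjoin_rootSet_isSplittingField hs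
  -- the two splitting fields are isomorphic
  have eF : F ≃ₐ[K] F₀ :=
    (IsSplittingField.algEquiv F P).trans (IsSplittingField.algEquiv F₀ P).symm
  have hrk : finrank K F = finrank K F₀ := eF.toLinearEquiv.finrank_eq
  -- `ζ' ∈ F₀`
  have hξ0 : IsPrimitiveRoot (eF ξ) (l ^ (e + 1)) := hξ.map_of_injective eF.injective
  have hξ1 : IsPrimitiveRoot ((eF ξ : F₀) : F') (l ^ (e + 1)) :=
    hξ0.map_of_injective (f := F₀.val) F₀.val.injective
  haveI : NeZero (l ^ (e + 1)) := ⟨hN'⟩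
  have hmem : ζ' ∈ F₀ := by
    obtain ⟨i, -, hi⟩ := hξ1.eq_pow_of_pow_eq_one hζ'.pow_eq_one
    rw [← hi]
    exact pow_mem (eF ξ).2 i
  have hαmem : α' ^ l ∈ F₀ := by
    refine IntermediateField.subset_adjoin K _ ?_
    exact rootsub (l ^ e) hN γ (ζ' ^ l) (α' ^ l) hζ0 hα0 (by simp)
  -- `F' = F₀(α')`
  have htop2 : IntermediateField.adjoin F₀ {α'} = ⊤ := by
    have h1 : (IntermediateField.adjoin F₀ ({α'} : Set F')).restrictScalars K = ⊤ := by
      rw [eq_top_iff, ← htop', IntermediateField.adjoin_le_iff]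
      intro z hz
      rcases hz with rfl | hz
      · have : algebraMap F₀ F' ⟨z, hmem⟩ ∈ IntermediateField.adjoin F₀ ({α'} : Set F') :=
          (IntermediateField.adjoin F₀ ({α'} : Set F')).algebraMap_mem _
        exact this
      · rw [Set.mem_singleton_iff] at hz
        subst hz
        exact IntermediateField.mem_adjoin_simple_self F₀ z
    exact IntermediateField.restrictScalars_eq_top_iff.mp h1
  set a0 : F₀ := ⟨α' ^ l, hαmem⟩ with ha0
  have hmon : (X ^ l - C a0 : F₀[X]).Monic := monic_X_pow_sub_C a0 hl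
  have hev : aeval α' (X ^ l - C a0 : F₀[X]) = 0 := by
    have : algebraMap F₀ F' a0 = α' ^ l := rfl
    simp [this]
  have hint : IsIntegral F₀ α' := ⟨_, hmon, hev⟩
  have hdeg : finrank F₀ F' ≤ l := by
    rw [← IntermediateField.finrank_top' (F := F₀) (E := F'), ← htop2,
      IntermediateField.adjoin.finrank hint]
    refine (natDegree_le_of_dvd (minpoly.dvd F₀ α' hev) hmon.ne_zero).trans ?_
    rw [natDegree_X_pow_sub_C]
  rw [← finrank_mul_finrank K F₀ F', hrk, mul_comm]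
  exact Nat.mul_le_mul_right _ hdeg

end JDg3

theorem prDg3 : StDg3 := by
  intro K _ _ l e γ F F' _ _ _ _ ζ α ξ ζ' α' hl _ hζ hα htop hξ hζ' hα' htop'
  exact JDg3.main l e γ F F' ζ α ξ ζ' α' hl.ne_zero hζ hα htop hξ hζ' hα' htop'

end Pool.Agent.Work.MP_8d13b5_lc.LG
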