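import Pool.Agent.Work.MP_8d13b5_lc.LG.StmtsK

/-!
# MP_8d13b5_lc, block LG, part K, item Div: an element which is an `l ^ b`-th power for all `b` is a
# root of unity
-/

set_option autoImplicit false

open Polynomial NumberField Module

namespace Pool.Agent.Work.MP_8d13b5_lc.LG

namespace JDiv

theorem exists_mult (K : Type) [Field K] [NumberField K] (x : K) :
    ∃ D : ℕ, 1 ≤ D ∧ IsIntegral ℤ ((D : K) * x) := by
  have halg : IsAlgebraic ℤ x := by
    rw [IsFractionRing.isAlgebraic_iff ℤ ℚ K]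
    exact Algebra.IsAlgebraic.isAlgebraic x
  obtain ⟨y, hy, hi⟩ := halg.exists_integral_multiple
  refine ⟨y.natAbs, by omega, ?_⟩
  rcases Int.natAbs_eq y with h | h
  · have e : ((y.natAbs : ℕ) : K) * x = y • x := by
      rw [zsmul_eq_mul]
      congr 1
      rw [← Int.cast_natCast, ← h]
    rw [e]
    exact hi
  · have e : ((y.natAbs : ℕ) : K) * x = -(y • x) := by
      rw [zsmul_eq_mul, ← neg_mul]
      congr 1
      rw [← Int.cast_natCast, ← Int.cast_neg]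
      congr 1
      omega
    rw [e]
    exact hi.neg

theorem integral_root (K : Type) [Field K] (D N : ℕ) (hN : 0 < N) (x y : K) (h : x = y ^ N)
    (hx : IsIntegral ℤ ((D : K) * x)) : IsIntegral ℤ ((D : K) * y) := by
  apply IsIntegral.of_pow hN
  have e : ((D : K) * y) ^ N = (D : K) ^ (N - 1) * ((D : K) * x) := by
    rw [mul_pow, ← h, ← mul_assoc, ← pow_succ, Nat.sub_add_cancel hN]
  rw [e]
  have hD : IsIntegral ℤ (D : K) := by
    have := isIntegral_algebraMap (R := ℤ) (A := K) (x := (D : ℤ))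
    simpa using this
  exact (hD.pow _).mul hx

theorem norm_root (K : Type) [Field K] (N : ℕ) (hN : 0 < N) (x y : K) (h : x = y ^ N) (M : ℝ)
    (hM : 1 ≤ M) (σ : K →+* ℂ) (hx : ‖σ x‖ ≤ M) : ‖σ y‖ ≤ M := by
  rcases le_total 1 ‖σ y‖ with h1 | h1
  · have h2 : ‖σ y‖ ≤ ‖σ y‖ ^ N := le_self_pow₀ h1 hN.ne'
    have h3 : ‖σ x‖ = ‖σ y‖ ^ N := by rw [h, map_pow, norm_pow]
    linarith
  · linarith

end JDiv

/-- Item Div. -/
theorem prDiv (hFinY : StFinY) : StDiv := by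
  intro K _ _ l x hl hx hpow
  choose y hy using hpow
  obtain ⟨D, hD, hDx⟩ := JDiv.exists_mult K x
  have hl2 : 2 ≤ l := hl.two_le
  set M : ℝ := 1 + ∑ σ : K →+* ℂ, ‖σ x‖ with hM
  have hM1 : 1 ≤ M := by
    have : 0 ≤ ∑ σ : K →+* ℂ, ‖σ x‖ := Finset.sum_nonneg fun _ _ => norm_nonneg _
    linarith
  have hxM : ∀ σ : K →+* ℂ, ‖σ x‖ ≤ M := by
    intro σ
    have : ‖σ x‖ ≤ ∑ σ : K →+* ℂ, ‖σ x‖ :=
      Finset.single_le_sum (f := fun σ : K →+* ℂ => ‖σ x‖) (fun _ _ => norm_nonneg _)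
        (Finset.mem_univ σ)
    linarith
  have hfin := hFinY K D M hD
  have hmem : ∀ b, y b ∈ {y : K | IsIntegral ℤ ((D : K) * y) ∧ ∀ σ : K →+* ℂ, ‖σ y‖ ≤ M} := by
    intro b
    have hN : 0 < l ^ b := by positivity
    exact ⟨JDiv.integral_root K D (l ^ b) hN x (y b) (hy b) hDx,
      fun σ => JDiv.norm_root K (l ^ b) hN x (y b) (hy b) M hM1 σ (hxM σ)⟩
  have : Finite {y : K | IsIntegral ℤ ((D : K) * y) ∧ ∀ σ : K →+* ℂ, ‖σ y‖ ≤ M} := hfin.to_subtype
  obtain ⟨b, b', hne, heq⟩ := Finite.exists_ne_map_eq_of_infinite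
    (fun b : ℕ => (⟨y b, hmem b⟩ :
      {y : K | IsIntegral ℤ ((D : K) * y) ∧ ∀ σ : K →+* ℂ, ‖σ y‖ ≤ M}))
  have heq' : y b = y b' := congrArg Subtype.val heq
  -- the key computation
  have key : ∀ c c' : ℕ, c < c' → y c = y c' → ∃ n : ℕ, 1 ≤ n ∧ x ^ n = 1 := by
    intro c c' hlt he
    have hpowlt : l ^ c < l ^ c' := Nat.pow_lt_pow_right hl.one_lt hlt
    refine ⟨l ^ c' - l ^ c, by omega, ?_⟩
    have hy0 : y c ≠ 0 := by
      intro h0
      apply hx
      rw [hy c, h0, zero_pow (by positivity)]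
    have h1 : (y c) ^ (l ^ c' - l ^ c) = 1 := by
      have h2 : (y c) ^ (l ^ c' - l ^ c) * (y c) ^ (l ^ c) = 1 * (y c) ^ (l ^ c) := by
        rw [← pow_add, Nat.sub_add_cancel hpowlt.le, one_mul, ← hy c]
        rw [he, ← hy c']
      exact mul_right_cancel₀ (pow_ne_zero _ hy0) h2
    calc x ^ (l ^ c' - l ^ c) = ((y c) ^ (l ^ c)) ^ (l ^ c' - l ^ c) := by rw [← hy c]
      _ = ((y c) ^ (l ^ c' - l ^ c)) ^ (l ^ c) := by rw [← pow_mul, ← pow_mul, mul_comm]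
      _ = 1 := by rw [h1, one_pow]
  rcases lt_or_gt_of_ne hne with h | h
  · exact key b b' h heq'
  · exact key b' b h heq'.symm

end Pool.Agent.Work.MP_8d13b5_lc.LG
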