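import Pool.Agent.Work.MP_8d13b5_lc.LG.Stmts

set_option autoImplicit false

/-! Item Dy of the block LG: one dyadic level. -/

open Polynomial

namespace Pool.Agent.Work.MP_8d13b5_lc.LG

namespace JDy

/-- the number of elements of a set covered by finitely many sets -/
theorem ncard_biUnion_le {ι α : Type*} [DecidableEq ι] (s : Finset ι) (F : ι → Set α)
    (hF : ∀ i ∈ s, (F i).Finite) :
    (⋃ i ∈ s, F i).Finite ∧ (⋃ i ∈ s, F i).ncard ≤ ∑ i ∈ s, (F i).ncard := by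
  induction s using Finset.induction_on with
  | empty => simp
  | insert a s ha ih =>
    obtain ⟨h1, h2⟩ := ih fun i hi => hF i (Finset.mem_insert_of_mem hi)
    have h3 : (F a).Finite := hF a (Finset.mem_insert_self a s)
    rw [Finset.set_biUnion_insert, Finset.sum_insert ha]
    exact ⟨h3.union h1, (Set.ncard_union_le _ _).trans (by omega)⟩

theorem pr_neg (d : ℕ) (C : ℤ[X]) (x : Fin d → ℤ) : pr d (-C) x = -pr d C x := by
  unfold pr
  rw [← Finset.sum_neg_distrib]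
  refine Finset.sum_congr rfl fun i _ => ?_
  rw [coeff_neg, neg_mul]

theorem fin_box (d H : ℕ) (p : (Fin d → ℤ) → Prop) : {x | x ∈ Bx d H ∧ p x}.Finite :=
  (Bx d H).finite_toSet.subset fun _ hx => hx.1

/-- the period is positive -/
theorem TP_pos (P : Finset ℕ) (hP : ∀ p ∈ P, 3 ≤ p) : 1 ≤ TP P := by
  unfold TP
  have h1 : P.lcm (fun p => p - 1) ≠ 0 := by
    rw [Ne, Finset.lcm_eq_zero_iff]
    rintro ⟨p, hp, h2⟩
    have := hP p hp
    omega
  omega

open Classical in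
/-- the count for a given set of primes -/
theorem main (hInj : StInj) (hPerP : StPerP) (hHgt : StHgt) (f : ℤ[X]) (hf : f.Monic)
    (hd : 2 ≤ f.natDegree) {c1 : ℝ} (hc1 : 0 < c1)
    (hCI : ∀ C, Prim f.natDegree C → ∀ (P : Finset ℕ), (∀ p ∈ P, Good f p ∧ 3 ≤ p) →
      ∀ (k H : ℕ), 1 ≤ k → 1 ≤ H → (∀ n, k ≤ NP f P C n) →
      (Set.ncard {x | x ∈ Bx f.natDegree H ∧ pr f.natDegree C x = 0 ∧
        ∃ n, (MP P : ℤ) ∣ pr f.natDegree (W f n) x} : ℝ) ≤
      (TP P : ℝ) * (c1 * ((H : ℝ) ^ (f.natDegree - 1) / ((hgt f.natDegree C : ℝ) * k) +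
        (H : ℝ) ^ (f.natDegree - 2))))
    {c2 : ℝ} (hc2 : 0 < c2)
    (hPe : ∀ C, Prim f.natDegree C → ∀ H : ℕ, 1 ≤ H →
      (Set.ncard {x | x ∈ Bx f.natDegree H ∧ pr f.natDegree C x = 0} : ℝ) ≤
      c2 * ((H : ℝ) ^ (f.natDegree - 1) / (hgt f.natDegree C : ℝ) + (H : ℝ) ^ (f.natDegree - 2)))
    (P : Finset ℕ) (hP : ∀ p ∈ P, Good f p ∧ 3 ≤ p) (X H : ℕ) (hX : 1 ≤ X) (hH : 1 ≤ H)
    (hMP : 64 * X ^ (2 * f.natDegree + 5) ≤ MP P) (hTP : (TP P : ℝ) ≤ Real.sqrt X) :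
    (Set.ncard {x | x ∈ Bx f.natDegree H ∧ Bad f x ∧ ∃ C : ℤ[X], Prim f.natDegree C ∧
      X ≤ hgt f.natDegree C ∧ hgt f.natDegree C < 2 * X ∧ pr f.natDegree C x = 0} : ℝ) ≤
      (5 ^ f.natDegree * c1 + c2) * ((H : ℝ) ^ (f.natDegree - 1) * (1 / Real.sqrt X) +
        (X : ℝ) ^ (f.natDegree + 1) * (H : ℝ) ^ (f.natDegree - 2)) := by
  set d := f.natDegree with hdd
  set k := X ^ (d + 1) with hk
  have hk1 : 1 ≤ k := Nat.one_le_pow _ _ hX
  -- the condition on `C`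
  let L : ℤ[X] → Prop := fun C => Prim d C ∧ X ≤ hgt d C ∧ hgt d C < 2 * X
  -- case I
  obtain ⟨hfin, hcard⟩ := (hHgt d).2 (2 * X)
  set 𝒞 : Finset ℤ[X] := hfin.toFinset.filter fun C => L C ∧ ∀ n, k ≤ NP f P C n with h𝒞
  have h𝒞c : 𝒞.card ≤ (5 * X) ^ d := by
    calc 𝒞.card ≤ hfin.toFinset.card := Finset.card_filter_le _ _
      _ = {C : ℤ[X] | C.natDegree < d ∧ hgt d C ≤ 2 * X}.ncard :=
        (Set.ncard_eq_toFinset_card _ hfin).symm
      _ ≤ (2 * (2 * X) + 1) ^ d := hcard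
      _ ≤ (5 * X) ^ d := Nat.pow_le_pow_left (by omega) _
  set F : ℤ[X] → Set (Fin d → ℤ) := fun C => {x | x ∈ Bx d H ∧ pr d C x = 0 ∧
    ∃ n, (MP P : ℤ) ∣ pr d (W f n) x} with hF
  -- case II
  set G : ℕ → Set (Fin d → ℤ) := fun n =>
    if h : ∃ C, L C ∧ NP f P C n < k then
      {x | x ∈ Bx d H ∧ pr d (Classical.choose h) x = 0} else ∅ with hG
  have hGfin : ∀ n, (G n).Finite := by
    intro n
    rw [hG]
    dsimp only
    split_ifs with h
    · exact fin_box d H _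
    · exact Set.finite_empty
  have hFfin : ∀ C, (F C).Finite := fun C => fin_box d H _
  obtain ⟨hU1, hU2⟩ := ncard_biUnion_le 𝒞 F fun C _ => hFfin C
  obtain ⟨hV1, hV2⟩ := ncard_biUnion_le (Finset.range (TP P)) G fun n _ => hGfin n
  have hT1 : 1 ≤ TP P := TP_pos P fun p hp => (hP p hp).2
  -- the cover
  have hsub : {x | x ∈ Bx d H ∧ Bad f x ∧ ∃ C : ℤ[X], Prim d C ∧
      X ≤ hgt d C ∧ hgt d C < 2 * X ∧ pr d C x = 0} ⊆
      (⋃ C ∈ 𝒞, F C) ∪ ⋃ n ∈ Finset.range (TP P), G n := by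
    rintro x ⟨hx, hbad, C, hC1, hC2, hC3, hC4⟩
    by_cases hn : ∀ n, k ≤ NP f P C n
    · refine Or.inl (Set.mem_biUnion (x := C) ?_ ⟨hx, hC4, hbad P fun p hp => (hP p hp).1⟩)
      refine Finset.mem_coe.2 (Finset.mem_filter.2 ⟨hfin.mem_toFinset.2 ⟨hC1.1, hC3.le⟩, ?_, hn⟩)
      exact ⟨hC1, hC2, hC3⟩
    · push Not at hn
      obtain ⟨n, hn⟩ := hn
      have h1 := ((hPerP f P hf (by omega) (fun p hp => (hP p hp).1) n (n % TP P)
        (Nat.mod_modEq n (TP P)).symm).2 C).2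
      rw [h1] at hn
      set m := n % TP P with hm
      have hex : ∃ C, L C ∧ NP f P C m < k := ⟨C, ⟨hC1, hC2, hC3⟩, hn⟩
      refine Or.inr (Set.mem_biUnion (x := m) (Finset.mem_coe.2 (Finset.mem_range.2
        (Nat.mod_lt _ (by omega)))) ?_)
      rw [hG]
      dsimp only
      rw [dif_pos hex]
      refine ⟨hx, ?_⟩
      obtain ⟨⟨hD1, hD2, hD3⟩, hD4⟩ := Classical.choose_spec hex
      set D := Classical.choose hex with hD
      have h2 : NP f P C m * NP f P D m * (2 * hgt d C * hgt d D) < MP P := by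
        refine lt_of_lt_of_le ?_ hMP
        have h3 : NP f P C m * NP f P D m ≤ k * k := Nat.mul_le_mul hn.le hD4.le
        have h4 : 2 * hgt d C * hgt d D ≤ 2 * (2 * X) * (2 * X) :=
          Nat.mul_le_mul (Nat.mul_le_mul_left _ hC3.le) hD3.le
        refine lt_of_le_of_lt (Nat.mul_le_mul h3 h4) ?_
        have h5 : k * k * (2 * (2 * X) * (2 * X)) = 8 * X ^ (2 * d + 4) := by
          rw [hk]; ring
        rw [h5]
        have h6 : X ^ (2 * d + 4) ≤ X ^ (2 * d + 5) := Nat.pow_le_pow_right hX (by omega)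
        have h7 : 1 ≤ X ^ (2 * d + 4) := Nat.one_le_pow _ _ hX
        omega
      rcases hInj f P C D m hf (by omega) (fun p hp => (hP p hp).1) hC1 hD1 h2 with h3 | h3
      · rw [← h3]; exact hC4
      · have h4 : D = -C := by rw [h3, neg_neg]
        rw [h4, pr_neg, hC4, neg_zero]
  have hle : (Set.ncard {x | x ∈ Bx d H ∧ Bad f x ∧ ∃ C : ℤ[X], Prim d C ∧
      X ≤ hgt d C ∧ hgt d C < 2 * X ∧ pr d C x = 0}) ≤
      ∑ C ∈ 𝒞, (F C).ncard + ∑ n ∈ Finset.range (TP P), (G n).ncard :=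
    (Set.ncard_le_ncard hsub (hU1.union hV1)).trans
      ((Set.ncard_union_le _ _).trans (Nat.add_le_add hU2 hV2))
  -- real numbers
  have hXr : (1 : ℝ) ≤ X := by exact_mod_cast hX
  have hX0 : (0 : ℝ) < X := by linarith
  set R := Real.sqrt X with hR
  have hR1 : 1 ≤ R := Real.one_le_sqrt.2 hXr
  have hRR : R * R = X := Real.mul_self_sqrt hX0.le
  set h1 : ℝ := (H : ℝ) ^ (d - 1) with hh1
  set h2 : ℝ := (H : ℝ) ^ (d - 2) with hh2
  have hh1p : 0 ≤ h1 := by positivity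
  have hh2p : 0 ≤ h2 := by positivity
  have hT0 : (0 : ℝ) ≤ TP P := Nat.cast_nonneg _
  -- case I, one `C`
  have hFb : ∀ C ∈ 𝒞, ((F C).ncard : ℝ) ≤ R * (c1 * (h1 / (X * X ^ (d + 1)) + h2)) := by
    intro C hC
    obtain ⟨_, ⟨hC1, hC2, hC3⟩, hC4⟩ := Finset.mem_filter.1 hC
    have h3 := hCI C hC1 P hP k H hk1 hH hC4
    refine h3.trans ?_
    refine mul_le_mul hTP (mul_le_mul_of_nonneg_left (add_le_add ?_ le_rfl) hc1.le)
      (by positivity) (by linarith)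
    refine div_le_div_of_nonneg_left hh1p (by positivity) ?_
    rw [hk]
    push_cast
    refine mul_le_mul_of_nonneg_right ?_ (by positivity)
    exact_mod_cast hC2
  -- case II, one `n`
  have hGb : ∀ n ∈ Finset.range (TP P), ((G n).ncard : ℝ) ≤ c2 * (h1 / X + h2) := by
    intro n _
    rw [hG]
    dsimp only
    split_ifs with h
    · obtain ⟨⟨hD1, hD2, hD3⟩, hD4⟩ := Classical.choose_spec h
      refine (hPe _ hD1 H hH).trans ?_
      refine mul_le_mul_of_nonneg_left (add_le_add ?_ le_rfl) hc2.le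
      refine div_le_div_of_nonneg_left hh1p hX0 ?_
      exact_mod_cast hD2
    · rw [Set.ncard_empty, Nat.cast_zero]
      positivity
  have hle' : (Set.ncard {x | x ∈ Bx d H ∧ Bad f x ∧ ∃ C : ℤ[X], Prim d C ∧
      X ≤ hgt d C ∧ hgt d C < 2 * X ∧ pr d C x = 0} : ℝ) ≤
      ∑ C ∈ 𝒞, ((F C).ncard : ℝ) + ∑ n ∈ Finset.range (TP P), ((G n).ncard : ℝ) := by
    exact_mod_cast hle
  refine hle'.trans ?_
  have hI : ∑ C ∈ 𝒞, ((F C).ncard : ℝ) ≤
      (5 * X) ^ d * (R * (c1 * (h1 / (X * X ^ (d + 1)) + h2))) := by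
    refine (Finset.sum_le_sum hFb).trans ?_
    rw [Finset.sum_const, nsmul_eq_mul]
    refine mul_le_mul_of_nonneg_right ?_ (by positivity)
    exact_mod_cast h𝒞c
  have hII : ∑ n ∈ Finset.range (TP P), ((G n).ncard : ℝ) ≤ R * (c2 * (h1 / X + h2)) := by
    refine (Finset.sum_le_sum hGb).trans ?_
    rw [Finset.sum_const, nsmul_eq_mul, Finset.card_range]
    exact mul_le_mul_of_nonneg_right hTP (by positivity)
  refine (add_le_add hI hII).trans ?_
  have hRX : R ≤ X := by nlinarith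
  have hXd : (1 : ℝ) ≤ (X : ℝ) ^ d := one_le_pow₀ hXr
  -- case I, comparison
  have e1 : (5 * (X : ℝ)) ^ d * (R * (c1 * (h1 / (X * X ^ (d + 1)) + h2))) ≤
      5 ^ d * c1 * (h1 * (1 / R) + (X : ℝ) ^ (d + 1) * h2) := by
    have e2 : (5 * (X : ℝ)) ^ d * (R * (c1 * (h1 / (X * X ^ (d + 1)) + h2))) =
        5 ^ d * c1 * (h1 * (R / (X * X)) + (X : ℝ) ^ d * R * h2) := by
      rw [mul_pow, pow_succ]
      field_simp
    rw [e2]
    refine mul_le_mul_of_nonneg_left (add_le_add ?_ ?_) (by positivity)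
    · refine mul_le_mul_of_nonneg_left ?_ hh1p
      rw [div_le_div_iff₀ (by positivity) (by linarith)]
      nlinarith
    · refine mul_le_mul_of_nonneg_right ?_ hh2p
      rw [pow_succ]
      exact mul_le_mul_of_nonneg_left hRX (by positivity)
  have e3 : R * (c2 * (h1 / X + h2)) ≤ c2 * (h1 * (1 / R) + (X : ℝ) ^ (d + 1) * h2) := by
    have e4 : R * (c2 * (h1 / X + h2)) = c2 * (h1 * (R / X) + R * h2) := by
      field_simp
    rw [e4]
    refine mul_le_mul_of_nonneg_left (add_le_add ?_ ?_) hc2.le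
    · refine mul_le_mul_of_nonneg_left ?_ hh1p
      rw [div_le_div_iff₀ hX0 (by linarith)]
      linarith
    · refine mul_le_mul_of_nonneg_right ?_ hh2p
      rw [pow_succ]
      nlinarith
  refine (add_le_add e1 e3).trans (le_of_eq ?_)
  ring

end JDy

theorem prDy (hSup : StSup) (hCI : StCI) (hInj : StInj) (hPerp : StPerp) (hPerP : StPerP)
    (hHgt : StHgt) : StDy := by
  intro f hf hd
  obtain ⟨hm, hs, h0⟩ := hf
  obtain ⟨c1, hc1, hCI⟩ := hCI f.natDegree hd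
  obtain ⟨c2, hc2, hPerp⟩ := hPerp f.natDegree hd
  set d := f.natDegree with hdd
  have hδ : (0 : ℝ) < 1 / (2 * (2 * d + 6)) := by positivity
  obtain ⟨Z0, hZ⟩ := hSup f hm hs h0 2 (1 / (2 * (2 * d + 6))) hδ
  refine ⟨5 ^ d * c1 + c2, max ⌈Z0⌉₊ 64, by positivity, ?_, ?_⟩
  · exact le_trans (by norm_num) (le_max_right _ _)
  intro X H hX hH
  have hX64 : 64 ≤ X := (le_max_right _ _).trans hX
  have hXZ : Z0 ≤ X := (Nat.le_ceil Z0).trans (by exact_mod_cast (le_max_left _ _).trans hX)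
  have hX1 : (1 : ℝ) ≤ X := by exact_mod_cast (by omega : 1 ≤ X)
  have hX0 : (0 : ℝ) < X := by linarith
  have hX64' : (64 : ℝ) ≤ X := by exact_mod_cast hX64
  have hp1 : (X : ℝ) ≤ (X : ℝ) ^ (2 * d + 5) := le_self_pow₀ hX1 (by omega)
  obtain ⟨P, hP1, hP2, hP3⟩ := hZ (64 * (X : ℝ) ^ (2 * d + 5)) (by linarith)
  have hMP : 64 * X ^ (2 * d + 5) ≤ MP P := by exact_mod_cast hP2
  have hTP : (TP P : ℝ) ≤ Real.sqrt X := by
    refine hP3.trans ?_
    have e1 : 64 * (X : ℝ) ^ (2 * d + 5) ≤ (X : ℝ) ^ (2 * d + 6) := by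
      rw [pow_succ (X : ℝ) (2 * d + 5), mul_comm]
      exact mul_le_mul_of_nonneg_left hX64' (by positivity)
    refine (Real.rpow_le_rpow (by positivity) e1 hδ.le).trans (le_of_eq ?_)
    rw [← Real.rpow_natCast, ← Real.rpow_mul hX0.le, Real.sqrt_eq_rpow]
    congr 1
    push_cast
    field_simp
  have h3 := JDy.main hInj hPerP hHgt f hm hd hc1
    (fun C hC P hP k H hk hH hn => hCI f hm rfl C hC P hP k H hk hH hn) hc2
    (fun C hC H hH => ?_) P (fun p hp => ⟨(hP1 p hp).1, by have := (hP1 p hp).2; omega⟩) X H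
    (by omega) hH hMP hTP
  · have e2 : (X : ℝ) ^ (-(1 / 2 : ℝ)) = 1 / Real.sqrt X := by
      rw [Real.rpow_neg hX0.le, ← Real.sqrt_eq_rpow, one_div]
    rw [e2]
    exact h3
  · have h4 := hPerp C hC (perp d C) H le_rfl (by simp) hH
    rw [AddSubgroup.relIndex_self, Nat.cast_one, mul_one] at h4
    exact h4

end Pool.Agent.Work.MP_8d13b5_lc.LG
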