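import Pool.Agent.Work.MP_8d13b5_lc.LG.StmtsK

set_option autoImplicit false

/-!
# MP_8d13b5_lc, block LG, item K-Ev1: reduction modulo primes of degree one
-/

open Polynomial NumberField Module

namespace Pool.Agent.Work.MP_8d13b5_lc.LG

theorem prEv1 : StEv1 := by
  intro K _ _
  constructor
  · intro p _ φ x a b hb hx
    have h : ∃ z : 𝓞 K × 𝓞 K, φ z.2 ≠ 0 ∧ x * (z.2 : K) = (z.1 : K) := ⟨(a, b), hb, hx⟩
    unfold ev
    rw [dif_pos h]
    have h1 := h.choose_spec.1
    have h2 := h.choose_spec.2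
    set z := h.choose
    have h3' : (z.1 : K) * (b : K) = (a : K) * (z.2 : K) := by
      rw [← h2, ← hx]
      ring
    have h3 : z.1 * b = a * z.2 := by exact_mod_cast h3'
    have h4 : φ z.1 * φ b = φ a * φ z.2 := by
      rw [← map_mul, ← map_mul, h3]
    field_simp
    linear_combination h4
  · intro a ha
    refine ⟨Ideal.absNorm (Ideal.span {a}), ?_⟩
    intro p hp hB φ h0
    have hN : Ideal.absNorm (Ideal.span {a}) ≠ 0 := by
      rw [Ne, Ideal.absNorm_eq_zero_iff, Ideal.span_singleton_eq_bot]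
      exact ha
    have h1 := Ideal.absNorm_mem (Ideal.span {a})
    rw [Ideal.mem_span_singleton] at h1
    obtain ⟨c, hc⟩ := h1
    have h2 : φ ((Ideal.absNorm (Ideal.span {a}) : ℕ) : 𝓞 K) = 0 := by
      rw [hc, map_mul, h0, zero_mul]
    rw [map_natCast, ZMod.natCast_eq_zero_iff] at h2
    have := Nat.le_of_dvd (Nat.pos_of_ne_zero hN) h2
    omega

end Pool.Agent.Work.MP_8d13b5_lc.LG
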