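import Pool.Agent.Work.MP_8d13b5_lc.LG.AlgStmts

/-!
# MP_8d13b5_lc, block LG, item Fin: assembly of the theorem
-/

set_option autoImplicit false

open Polynomial Filter Topology NumberField

namespace Pool.Agent.Work.MP_8d13b5_lc.LG

/-- [Fin] assembly: one algorithm, never wrong, which halts on almost all of the locally soluble
boxes. -/
theorem prFin : StFin := by
  intro hSrch hPrD hPrM hSnd hCntA
  obtain ⟨A, hA, hspec⟩ := hSrch hPrD hPrM
  refine ⟨A, hA, ?_, ?_⟩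
  · intro c x u hc hx hlast hinit hrec w hw
    obtain ⟨hu, hM, hD⟩ := hSnd c x u hc hx hlast hinit hrec
    rcases (hspec (c, x)).1 w hw with ⟨h1, h2⟩ | ⟨h1, h2⟩ | ⟨h1, D, hD1, h2⟩
    · left
      refine ⟨h1, ?_⟩
      rw [hu]
      exact h2
    · right; left
      exact ⟨h1, hM _ h2⟩
    · right; right
      refine ⟨h1, ?_⟩
      have h3 := hD D h2
      rw [hD1] at h3
      exact h3
  · intro c hc hlast hsep ε hε
    obtain ⟨H0, hH0⟩ := hCntA c hc hlast hsep ε hε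
    refine ⟨H0, fun H hH => ?_⟩
    refine le_trans ?_ (hH0 H hH)
    have hfin : Set.Finite {x : Fin c.length → ℤ | (∀ i, |x i| ≤ H) ∧
        (∀ n, val (c, List.ofFn x) n ≠ 0) ∧ (∀ m, ¬ ChM (c, List.ofFn x) m) ∧
        ∀ D : Dat, ¬ Ch (c, List.ofFn x) D} := by
      apply Set.Finite.subset (Set.finite_Icc (fun _ : Fin c.length => -(H : ℤ))
        (fun _ => (H : ℤ)))
      rintro x ⟨hx, -⟩
      rw [Set.mem_Icc]
      exact ⟨fun i => (abs_le.mp (hx i)).1, fun i => (abs_le.mp (hx i)).2⟩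
    have hsub : {x : Fin c.length → ℤ | (∀ i, |x i| ≤ H) ∧ ¬ (A (c, List.ofFn x)).Dom} ⊆
        {x : Fin c.length → ℤ | (∀ i, |x i| ≤ H) ∧
        (∀ n, val (c, List.ofFn x) n ≠ 0) ∧ (∀ m, ¬ ChM (c, List.ofFn x) m) ∧
        ∀ D : Dat, ¬ Ch (c, List.ofFn x) D} := by
      rintro x ⟨hx, hdom⟩
      refine ⟨hx, fun n hn => hdom ?_, fun m hm => hdom ?_, fun D hD => hdom ?_⟩
      · exact (hspec (c, List.ofFn x)).2 (Or.inl ⟨n, hn⟩)
      · exact (hspec (c, List.ofFn x)).2 (Or.inr (Or.inl ⟨m, hm⟩))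
      · exact (hspec (c, List.ofFn x)).2 (Or.inr (Or.inr ⟨D, hD⟩))
    exact_mod_cast Set.ncard_le_ncard hsub hfin

end Pool.Agent.Work.MP_8d13b5_lc.LG
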