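import Pool.Agent.Work.MP_8d13b5_lc.LG.StmtsK

/-!
# MP_8d13b5_lc, block LG, part K, item FinY
-/

set_option autoImplicit false

open Polynomial NumberField Module

namespace Pool.Agent.Work.MP_8d13b5_lc.LG

theorem prFinY : StFinY := by
  intro K _ _ D M hD
  have hD0 : (D : K) ≠ 0 := by
    have : D ≠ 0 := by omega
    exact_mod_cast this
  have h := NumberField.Embeddings.finite_of_norm_le K ℂ ((D : ℝ) * M)
  refine (h.preimage (f := fun y : K => (D : K) * y) ?_).subset ?_
  · intro a _ b _ hab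
    exact mul_left_cancel₀ hD0 hab
  · rintro y ⟨h1, h2⟩
    refine ⟨h1, fun φ => ?_⟩
    rw [map_mul, norm_mul, map_natCast, Complex.norm_natCast]
    exact mul_le_mul_of_nonneg_left (h2 φ) (Nat.cast_nonneg _)

end Pool.Agent.Work.MP_8d13b5_lc.LG
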