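import Pool.Agent.Work.MP_8d13b5_lc.LG.Stmts

/-!
# MP_8d13b5_lc, block LG, item Fun

Instead of lifting vectors we use the vectors `C_j e_i - C_i e_j` of `perp d C`.
-/

set_option autoImplicit false

open Polynomial

namespace Pool.Agent.Work.MP_8d13b5_lc.LG

namespace JFun

/-- the vector `a e_i - b e_j` -/
def vec {d : ℕ} (i j : Fin d) (a b : ℤ) : Fin d → ℤ := fun l =>
  (if l = i then a else 0) - (if l = j then b else 0)

theorem pr_vec {d : ℕ} (C : ℤ[X]) (i j : Fin d) (a b : ℤ) :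
    pr d C (vec i j a b) = C.coeff i * a - C.coeff j * b := by
  unfold pr vec
  simp only [mul_sub, Finset.sum_sub_distrib, mul_ite, mul_zero, Finset.sum_ite_eq',
    Finset.mem_univ, if_true]

theorem exists_unit {d p : ℕ} (hp : p.Prime) (C : ℤ[X]) (hC : Prim d C) :
    ∃ i : Fin d, ¬ (p : ℤ) ∣ C.coeff i := by
  by_contra hcon
  push Not at hcon
  have h1 : Polynomial.C (p : ℤ) ∣ C := by
    rw [Polynomial.C_dvd_iff_dvd_coeff]
    intro j
    by_cases hj : j < d
    · exact hcon ⟨j, hj⟩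
    · rw [Polynomial.coeff_eq_zero_of_natDegree_lt (lt_of_lt_of_le hC.1 (not_lt.1 hj))]
      exact dvd_zero _
  rw [← Polynomial.dvd_content_iff_C_dvd, hC.2] at h1
  exact (Nat.prime_iff_prime_int.1 hp).not_unit (isUnit_of_dvd_one h1)

end JFun

open JFun in
/-- Item Fun. -/
theorem prFun (hPer : StPer) : StFun := by
  intro f p C n hf hd hg hC hpar
  by_contra hcon
  push Not at hcon
  obtain ⟨-, hW0, hWf⟩ := hPer f p hf hd hg
  have hp : p.Prime := hg.1
  haveI : Fact p.Prime := ⟨hp⟩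
  set d := f.natDegree with hdd
  set w := W f n with hw
  obtain ⟨i0, hi0⟩ := exists_unit hp C hC
  have hrel : ∀ j : Fin d, ((w.coeff i0 : ℤ) : ZMod p) * ((C.coeff j : ℤ) : ZMod p) =
      ((w.coeff j : ℤ) : ZMod p) * ((C.coeff i0 : ℤ) : ZMod p) := by
    intro j
    have h1 : vec i0 j (C.coeff j) (C.coeff i0) ∈ perp d C := by
      change pr d C _ = 0
      rw [pr_vec]
      ring
    have h2 := hcon _ h1
    rw [pr_vec, ← ZMod.intCast_zmod_eq_zero_iff_dvd] at h2
    push_cast at h2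
    exact sub_eq_zero.1 h2
  have hC0 : ((C.coeff i0 : ℤ) : ZMod p) ≠ 0 := by
    rw [Ne, ZMod.intCast_zmod_eq_zero_iff_dvd]
    exact hi0
  have hwd : ∀ j, d ≤ j → w.coeff j = 0 := by
    intro j hj
    refine Polynomial.coeff_eq_zero_of_degree_lt ?_
    have h1 : w.degree < f.degree := by
      rw [hw]
      unfold W
      exact Polynomial.degree_modByMonic_lt _ hf
    refine lt_of_lt_of_le h1 ?_
    rw [Polynomial.degree_eq_natDegree hf.ne_zero]
    exact_mod_cast hj
  have hw0 : ((w.coeff i0 : ℤ) : ZMod p) ≠ 0 := by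
    intro h0
    refine hW0 n ?_
    ext j
    rw [Polynomial.coeff_map, Polynomial.coeff_zero, eq_intCast]
    by_cases hj : j < d
    · have h1 := hrel ⟨j, hj⟩
      rw [h0, zero_mul] at h1
      exact (mul_eq_zero.1 h1.symm).resolve_right hC0
    · rw [← hw, hwd j (not_lt.1 hj), Int.cast_zero]
  refine hpar ⟨((C.coeff i0 : ℤ) : ZMod p) / ((w.coeff i0 : ℤ) : ZMod p),
    div_ne_zero hC0 hw0, ?_⟩
  set μ := ((C.coeff i0 : ℤ) : ZMod p) / ((w.coeff i0 : ℤ) : ZMod p) with hμ
  have hCw : C.map (Int.castRingHom (ZMod p)) =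
      Polynomial.C μ * w.map (Int.castRingHom (ZMod p)) := by
    ext j
    rw [Polynomial.coeff_C_mul, Polynomial.coeff_map, Polynomial.coeff_map, eq_intCast,
      eq_intCast]
    by_cases hj : j < d
    · have h1 := hrel ⟨j, hj⟩
      rw [hμ]
      field_simp
      linear_combination h1
    · have hj' := not_lt.1 hj
      rw [hwd j hj', Polynomial.coeff_eq_zero_of_natDegree_lt (lt_of_lt_of_le hC.1 hj'),
        Int.cast_zero, mul_zero]
  have h1 : C.map (Int.castRingHom (ZMod p)) - Polynomial.C μ * X ^ n =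
      -(Polynomial.C μ) * (X ^ n - w.map (Int.castRingHom (ZMod p))) := by
    rw [hCw]
    ring
  rw [h1]
  exact Dvd.dvd.mul_left (hWf n) _

end Pool.Agent.Work.MP_8d13b5_lc.LG
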