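import Pool.Agent.Work.MP_8d13b5_lc.LG.StmtsK

/-!
# MP_8d13b5_lc, block LG, part K: item Gal
-/

set_option autoImplicit false

open Polynomial NumberField Module

namespace Pool.Agent.Work.MP_8d13b5_lc.LG.JGal

theorem dvd_of_roots {K : Type} [Field K] (p q : K[X]) (hs : p.Splits) (hsep : p.Separable)
    (hp : p ≠ 0) (h : ∀ a, p.IsRoot a → q.IsRoot a) : p ∣ q := by
  rcases eq_or_ne q 0 with rfl | hq
  · exact dvd_zero p
  · refine Splits.dvd_of_roots_le_roots hs hp ?_
    rw [Multiset.le_iff_subset (nodup_roots hsep)]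
    intro a ha
    rw [mem_roots hq]
    exact h a ((mem_roots hp).1 ha)


theorem main (f C0 : ℤ[X]) (hm : f.Monic) (hsep : (f.map (Int.castRingHom ℚ)).Separable)
    (h0 : f.coeff 0 ≠ 0) (K : Type) [Field K] [Algebra ℚ K]
    [(f.map (Int.castRingHom ℚ)).IsSplittingField ℚ K] (μ : K) (n : ℤ) (hμ : μ ≠ 0)
    (H : ∀ a : K, eval₂ (Int.castRingHom K) a f = 0 →
      eval₂ (Int.castRingHom K) a C0 = μ * a ^ n) : ParQ f C0 := by
  have hK : IsGalois ℚ K := IsGalois.of_separable_splitting_field hsep
  have hFD : FiniteDimensional ℚ K := IsSplittingField.finiteDimensional K (f.map (Int.castRingHom ℚ))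
  have hCZ : CharZero K := algebraRat.charZero K
  have hmap : ∀ q : ℤ[X], (q.map (Int.castRingHom ℚ)).map (algebraMap ℚ K) =
      q.map (Int.castRingHom K) := by
    intro q
    rw [Polynomial.map_map]
    congr 1
    exact RingHom.ext_int _ _
  have hsp : (f.map (Int.castRingHom K)).Splits := by
    rw [← hmap]
    exact IsSplittingField.splits K (f.map (Int.castRingHom ℚ))
  have hsep' : (f.map (Int.castRingHom K)).Separable := by
    rw [← hmap]
    exact hsep.map
  have hm' : (f.map (Int.castRingHom K)).Monic := hm.map _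
  have hroot : ∀ (q : ℤ[X]) (a : K), (q.map (Int.castRingHom K)).IsRoot a ↔
        eval₂ (Int.castRingHom K) a q = 0 := by
    intro q a
    rw [IsRoot.def, eval_map]
  -- roots are not zero
  have hne : ∀ a : K, eval₂ (Int.castRingHom K) a f = 0 → a ≠ 0 := by
    rintro a ha rfl
    rw [eval₂_at_zero] at ha
    apply h0
    have : ((f.coeff 0 : ℤ) : K) = 0 := ha
    exact_mod_cast this
  by_cases hex : ∃ a : K, eval₂ (Int.castRingHom K) a f = 0
  · obtain ⟨a0, ha0⟩ := hex
    -- the value is rational
    obtain ⟨c, hμc, hc0⟩ : ∃ c : ℚ, μ = algebraMap ℚ K c ∧ c ≠ 0 := by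
      have hfix : ∀ σ : K ≃ₐ[ℚ] K, σ μ = μ := by
        intro σ
        have h1 := H a0 ha0
        have hσ : ∀ q : ℤ[X], eval₂ (Int.castRingHom K) (σ a0) q =
            σ (eval₂ (Int.castRingHom K) a0 q) := by
          intro q
          have h6 := hom_eval₂ q (Int.castRingHom K) (σ : K →+* K) a0
          rw [show ((σ : K →+* K).comp (Int.castRingHom K)) = Int.castRingHom K from
            RingHom.ext_int _ _] at h6
          exact h6.symm
        have h2 := H (σ a0) (by rw [hσ, ha0, map_zero])
        rw [hσ, h1, map_mul, map_zpow₀] at h2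
        have h3 : (σ a0) ^ n ≠ 0 := zpow_ne_zero _ (by
          intro h
          exact hne a0 ha0 (by simpa using h))
        exact mul_right_cancel₀ h3 h2
      have := (IsGalois.mem_bot_iff_fixed μ).2 hfix
      obtain ⟨c, hc⟩ := IntermediateField.mem_bot.1 this
      refine ⟨c, hc.symm, ?_⟩
      rintro rfl
      apply hμ
      rw [← hc, map_zero]
    refine ⟨n.toNat, (-n).toNat, c.den, c.num, by exact_mod_cast c.den_nz, by
      exact_mod_cast Rat.num_ne_zero.2 hc0, ?_⟩
    -- divisibility over the splitting field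
    have hd : f.map (Int.castRingHom K) ∣
        (Polynomial.C (c.den : ℤ) * X ^ (-n).toNat * C0 - Polynomial.C c.num * X ^ n.toNat).map
          (Int.castRingHom K) := by
      refine dvd_of_roots _ _ hsp hsep' hm'.ne_zero fun a ha => ?_
      rw [hroot] at ha ⊢
      have ha' := hne a ha
      rw [eval₂_sub, eval₂_mul, eval₂_mul, eval₂_mul, eval₂_C, eval₂_C, eval₂_X_pow, eval₂_X_pow,
        H a ha, hμc]
      have e1 : a ^ n = a ^ n.toNat / a ^ (-n).toNat := by
        rw [eq_div_iff (pow_ne_zero _ ha'), ← zpow_natCast, ← zpow_natCast, ← zpow_add₀ ha']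
        congr 1
        omega
      rw [e1]
      have e2 : (algebraMap ℚ K) c * (c.den : K) = (c.num : K) := by
        have : c * (c.den : ℚ) = (c.num : ℚ) := Rat.mul_den_eq_num c
        have h5 := congrArg (algebraMap ℚ K) this
        rwa [map_mul, map_natCast, map_intCast] at h5
      have e3 : (Int.castRingHom K) (c.den : ℤ) = (c.den : K) := by
        simp
      have e4 : (Int.castRingHom K) c.num = (c.num : K) := rfl
      rw [e3, e4, ← e2]
      field_simp
      ring
    rw [← hmap, ← hmap, map_dvd_map'] at hd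
    exact (map_dvd_map (Int.castRingHom ℚ) (RingHom.injective_int _) hm).1 hd
  · -- degree zero
    have hdeg : f.map (Int.castRingHom K) = 1 := by
      rw [hsp.eq_prod_roots_of_monic hm']
      have : (f.map (Int.castRingHom K)).roots = 0 := by
        rw [Multiset.eq_zero_iff_forall_notMem]
        intro a ha
        exact hex ⟨a, (hroot f a).1 ((mem_roots hm'.ne_zero).1 ha)⟩
      rw [this]
      simp
    have hf1 : f = 1 := by
      have hinj : Function.Injective (Int.castRingHom K) := RingHom.injective_int _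
      apply Polynomial.map_injective _ hinj
      rw [hdeg, Polynomial.map_one]
    exact ⟨0, 0, 1, 1, one_ne_zero, one_ne_zero, by rw [hf1]; exact one_dvd _⟩

end Pool.Agent.Work.MP_8d13b5_lc.LG.JGal

namespace Pool.Agent.Work.MP_8d13b5_lc.LG

theorem prGal : StGal := by
  intro f C0 hm hsep h0 μ n hμ H
  exact @JGal.main f C0 hm hsep h0 _ _ _
    (Polynomial.IsSplittingField.splittingField (f.map (Int.castRingHom ℚ))) μ n hμ H

end Pool.Agent.Work.MP_8d13b5_lc.LG
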