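import Pool.Agent.Work.MP_8d13b5_lc.LG.StmtsK
import Pool.Agent.Work.MP_8d13b5_lc.LG.I_GB

/-!
# MP_8d13b5_lc, block LG, item Gd: large primes of degree one are good, and the proportionality
# relation at the roots
-/

set_option autoImplicit false

open Polynomial NumberField Module

namespace Pool.Agent.Work.MP_8d13b5_lc.LG

namespace JGd

theorem ev_map (R : Type) [CommRing R] {p : ℕ} (φ : R →+* ZMod p) (f : ℤ[X]) (a : R) :
    eval (φ a) (f.map (Int.castRingHom (ZMod p))) = φ (eval₂ (Int.castRingHom R) a f) := by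
  rw [eval_map, hom_eval₂]
  congr 1
  exact RingHom.ext_int _ _

end JGd

theorem prGd : StGd := by
  intro f C K _ _ hf hsep h0 hspl
  obtain ⟨N, hN⟩ := IGB.sep f hsep
  have hs : (f.map (algebraMap ℤ (𝓞 K))).Splits := IGB.spl K f hf (by
    have e : algebraMap ℤ K = Int.castRingHom K := RingHom.ext_int _ _
    rw [e]
    exact hspl)
  refine ⟨N + (f.coeff 0).natAbs, fun p _ hp φ => ?_⟩
  have hpp : p.Prime := Fact.out
  have hnd : ¬ (p : ℤ) ∣ f.coeff 0 := by
    intro h
    have h1 := Int.natAbs_dvd_natAbs.2 h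
    rw [Int.natAbs_natCast] at h1
    have h2 := Nat.le_of_dvd (Int.natAbs_pos.2 h0) h1
    omega
  refine ⟨⟨hpp, hnd, ?_, hN p hpp (by omega)⟩, ?_⟩
  · have h1 := hs.map φ
    rw [Polynomial.map_map] at h1
    have e : φ.comp (algebraMap ℤ (𝓞 K)) = Int.castRingHom (ZMod p) := RingHom.ext_int _ _
    rwa [e] at h1
  · intro n hn
    obtain ⟨μ, hμ, hdv⟩ := hn
    refine ⟨μ, hμ, fun a ha => ?_⟩
    have h1 : eval (φ a) (f.map (Int.castRingHom (ZMod p))) = 0 := by
      rw [JGd.ev_map, ha, map_zero]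
    constructor
    · have h2 := eval_dvd (x := φ a) hdv
      rw [h1, zero_dvd_iff, eval_sub, eval_mul, eval_C, eval_pow, eval_X, JGd.ev_map,
        sub_eq_zero] at h2
      exact h2
    · intro h2
      rw [h2, ← coeff_zero_eq_eval_zero, coeff_map] at h1
      exact hnd ((ZMod.intCast_zmod_eq_zero_iff_dvd _ _).1 h1)

end Pool.Agent.Work.MP_8d13b5_lc.LG
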