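import Pool.Agent.Work.MP_8d13b5_lc.LG.StmtsK

/-!
# MP_8d13b5_lc, block LG, item GenF: generators of the splitting field of `(X^m - 1)(X^m - γ₁)`
-/

set_option autoImplicit false

open Polynomial NumberField

namespace Pool.Agent.Work.MP_8d13b5_lc.LG

namespace JGenF

theorem core {K F : Type} [Field K] [CharZero K] [Field F] [Algebra K F] (m : ℕ) (γ g t : K)
    (hm : 1 ≤ m) (hγ : γ ≠ 0) (ht : t ≠ 0) (hg : g = γ * t ^ m)
    (Q : K[X]) (hQ : Q = (X ^ m - 1) * (X ^ m - C g))
    (hs : (Q.map (algebraMap K F)).Splits) (htop : Algebra.adjoin K (Q.rootSet F) = ⊤) :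
    ∃ ζ α : F, IsPrimitiveRoot ζ m ∧ α ^ m = algebraMap K F γ ∧
      IntermediateField.adjoin K {ζ, α} = ⊤ := by
  have : CharZero F := charZero_of_injective_algebraMap (algebraMap K F).injective
  have hm0 : m ≠ 0 := by omega
  have : NeZero (m : F) := ⟨by exact_mod_cast hm0⟩
  have : NeZero m := ⟨hm0⟩
  have hg0 : g ≠ 0 := by
    rw [hg]
    exact mul_ne_zero hγ (pow_ne_zero _ ht)
  have hQm : Q.map (algebraMap K F) = (X ^ m - 1) * (X ^ m - C (algebraMap K F g)) := by
    rw [hQ]
    simp [Polynomial.map_mul]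
  have h1 : (X ^ m - 1 : F[X]) ≠ 0 := by
    have := Polynomial.X_pow_sub_C_ne_zero (R := F) (n := m) (by omega) 1
    simpa using this
  have h2 : (X ^ m - C (algebraMap K F g) : F[X]) ≠ 0 :=
    Polynomial.X_pow_sub_C_ne_zero (by omega) _
  have hne : Q.map (algebraMap K F) ≠ 0 := by
    rw [hQm]
    exact mul_ne_zero h1 h2
  have hQ0 : Q ≠ 0 := by
    rintro rfl
    simp at hne
  have hs1 : (X ^ m - 1 : F[X]).Splits :=
    Splits.of_dvd hs hne (by rw [hQm]; exact dvd_mul_right _ _)
  have hs2 : (X ^ m - C (algebraMap K F g) : F[X]).Splits :=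
    Splits.of_dvd hs hne (by rw [hQm]; exact dvd_mul_left _ _)
  have hs3 : (cyclotomic m F).Splits :=
    Splits.of_dvd hs1 h1 (cyclotomic.dvd_X_pow_sub_one m F)
  obtain ⟨ζ, hζ⟩ := hs3.exists_eval_eq_zero (by
    rw [degree_cyclotomic]
    have := Nat.totient_pos.2 (show 0 < m by omega)
    exact_mod_cast this.ne')
  have hprim : IsPrimitiveRoot ζ m := isRoot_cyclotomic_iff.1 hζ
  obtain ⟨β, hβ⟩ := hs2.exists_eval_eq_zero (by
    rw [degree_X_pow_sub_C (by omega)]
    exact_mod_cast hm0)
  have hβm : β ^ m = algebraMap K F g := by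
    simpa [sub_eq_zero] using hβ
  have hβ0 : β ≠ 0 := by
    rintro rfl
    rw [zero_pow hm0] at hβm
    exact hg0 ((map_eq_zero _).1 hβm.symm)
  have ht' : algebraMap K F t ≠ 0 := by
    rw [Ne, map_eq_zero]
    exact ht
  refine ⟨ζ, β / algebraMap K F t, hprim, ?_, ?_⟩
  · rw [div_pow, hβm, hg, map_mul, map_pow]
    field_simp
  · rw [eq_top_iff]
    intro x _
    have hx : x ∈ Algebra.adjoin K (Q.rootSet F) := by
      rw [htop]
      trivial
    have hζm : ζ ∈ IntermediateField.adjoin K {ζ, β / algebraMap K F t} :=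
      IntermediateField.subset_adjoin _ _ (by simp)
    have hαm : β / algebraMap K F t ∈ IntermediateField.adjoin K {ζ, β / algebraMap K F t} :=
      IntermediateField.subset_adjoin _ _ (by simp)
    have hβmem : β ∈ IntermediateField.adjoin K {ζ, β / algebraMap K F t} := by
      have := mul_mem hαm (IntermediateField.algebraMap_mem
        (IntermediateField.adjoin K {ζ, β / algebraMap K F t}) t)
      rwa [div_mul_cancel₀ _ ht'] at this
    have hle : Algebra.adjoin K (Q.rootSet F) ≤
        (IntermediateField.adjoin K {ζ, β / algebraMap K F t}).toSubalgebra := by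
      rw [Algebra.adjoin_le_iff]
      intro y hy
      have hy2 := (mem_rootSet.1 hy).2
      show y ∈ IntermediateField.adjoin K {ζ, β / algebraMap K F t}
      have hy3 : (Q.map (algebraMap K F)).eval y = 0 := by
        rw [eval_map_algebraMap]
        exact hy2
      rw [hQm, eval_mul, mul_eq_zero] at hy3
      rcases hy3 with h | h
      · have h' : y ^ m = 1 := by simpa [sub_eq_zero] using h
        obtain ⟨i, -, hi⟩ := hprim.eq_pow_of_pow_eq_one h'
        rw [← hi]
        exact pow_mem hζm i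
      · have h' : y ^ m = algebraMap K F g := by simpa [sub_eq_zero] using h
        have h'' : (y / β) ^ m = 1 := by
          rw [div_pow, h', hβm, div_self]
          rw [← hβm]
          exact pow_ne_zero _ hβ0
        obtain ⟨i, -, hi⟩ := hprim.eq_pow_of_pow_eq_one h''
        have : y = ζ ^ i * β := by
          rw [hi, div_mul_cancel₀ _ hβ0]
        rw [this]
        exact mul_mem (pow_mem hζm i) hβmem
    exact hle hx

end JGenF

theorem prGenF : StGenF := by
  intro K _ _ m γ γ₁ t hm hγ ht hg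
  have ht' : (t : K) ≠ 0 := by
    intro h
    exact ht (by exact_mod_cast h)
  refine JGenF.core (F := (((X ^ m - 1) * (X ^ m - C γ₁) : (𝓞 K)[X]).map
    (algebraMap (𝓞 K) K)).SplittingField) m γ (γ₁ : K) (t : K) hm hγ ht' hg
    (((X ^ m - 1) * (X ^ m - C γ₁) : (𝓞 K)[X]).map (algebraMap (𝓞 K) K)) ?_
    (SplittingField.splits _) (SplittingField.adjoin_rootSet _)
  simp [Polynomial.map_mul]

end Pool.Agent.Work.MP_8d13b5_lc.LG
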