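import Pool.Agent.Work.MP_8d13b5_lc.LG.Stmts

/-!
# MP_8d13b5_lc, block LG, item Hgt: heights
-/

set_option autoImplicit false

open Polynomial

namespace Pool.Agent.Work.MP_8d13b5_lc.LG

namespace JHgt

lemma coeff_le {d : ℕ} {C : ℤ[X]} {B : ℕ} (h : hgt d C ≤ B) (i : Fin d) :
    (C.coeff i).natAbs ≤ B := by
  unfold hgt at h
  exact le_trans (Finset.le_sup (f := fun i : Fin d => (C.coeff i).natAbs) (Finset.mem_univ i)) h

lemma ext_of {d : ℕ} {C C' : ℤ[X]} (h : C.natDegree < d) (h' : C'.natDegree < d)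
    (hc : ∀ i : Fin d, C.coeff i = C'.coeff i) : C = C' := by
  ext n
  by_cases hn : n < d
  · exact hc ⟨n, hn⟩
  · rw [coeff_eq_zero_of_natDegree_lt (by omega), coeff_eq_zero_of_natDegree_lt (by omega)]

/-- the coefficients -/
def cf (d : ℕ) (C : ℤ[X]) : Fin d → ℤ := fun i => C.coeff i

end JHgt

open JHgt

theorem prHgt : StHgt := by
  intro d
  refine ⟨fun C hC => ?_, fun B => ?_⟩
  · by_contra hlt
    have h0 : hgt d C ≤ 0 := by omega
    have hz : C = 0 := by
      refine ext_of hC.1 (by rw [natDegree_zero]; have := hC.1; omega) fun i => ?_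
      have := coeff_le h0 i
      rw [coeff_zero]
      exact Int.natAbs_eq_zero.1 (Nat.le_zero.1 this)
    have h1 := hC.2
    rw [hz, content_zero] at h1
    exact zero_ne_one h1
  · have hinj : Set.InjOn (cf d) {C : ℤ[X] | C.natDegree < d ∧ hgt d C ≤ B} := by
      intro C hC C' hC' he
      exact ext_of hC.1 hC'.1 fun i => congrFun he i
    have hmaps : ∀ C ∈ {C : ℤ[X] | C.natDegree < d ∧ hgt d C ≤ B},
        cf d C ∈ (Bx d B : Set (Fin d → ℤ)) := by
      intro C hC
      unfold Bx
      rw [Finset.mem_coe, Fintype.mem_piFinset]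
      intro i
      have h1 := coeff_le hC.2 i
      rw [Finset.mem_Icc]
      unfold cf
      constructor <;> omega
    have hfin : (Bx d B : Set (Fin d → ℤ)).Finite := Finset.finite_toSet _
    have hcard : (Bx d B : Set (Fin d → ℤ)).ncard = (2 * B + 1) ^ d := by
      rw [Set.ncard_coe_finset]
      unfold Bx
      rw [Fintype.card_piFinset, Finset.prod_const, Finset.card_univ, Fintype.card_fin,
        Int.card_Icc]
      congr 1
      omega
    refine ⟨?_, ?_⟩
    · exact Set.Finite.of_finite_image (hfin.subset (Set.image_subset_iff.2 hmaps)) hinj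
    · rw [← hcard]
      exact Set.ncard_le_ncard_of_injOn (cf d) hmaps hinj hfin

end Pool.Agent.Work.MP_8d13b5_lc.LG
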