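import Pool.Agent.Work.MP_8d13b5_lc.LG.Stmts

set_option autoImplicit false

/-! Block LG, item Idx: the index of an intersection of kernels. -/

open Polynomial

namespace Pool.Agent.Work.MP_8d13b5_lc.LG

namespace JIdx

theorem index_ker_prime {G : Type} [AddCommGroup G] {p : ℕ} (hp : p.Prime) (φ : G →+ ZMod p)
    (h : φ ≠ 0) : φ.ker.index = p := by
  haveI : Fact p.Prime := ⟨hp⟩
  rw [AddSubgroup.index_ker]
  have hd : Nat.card φ.range ∣ p := by
    have := AddSubgroup.card_addSubgroup_dvd_card φ.range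
    rwa [Nat.card_zmod] at this
  rcases (Nat.dvd_prime hp).1 hd with h1 | h1
  · exfalso
    apply h
    have h2 : φ.range = ⊥ := AddSubgroup.eq_bot_of_card_eq _ h1
    ext x
    have h3 : φ x ∈ φ.range := ⟨x, rfl⟩
    rw [h2] at h3
    simpa using h3
  · exact h1

theorem index_inf_coprime {G : Type} [AddCommGroup G] (H K : AddSubgroup G) (hH : H.index ≠ 0)
    (hK : K.index ≠ 0) (hc : Nat.Coprime H.index K.index) :
    (H ⊓ K).index = H.index * K.index := by
  apply le_antisymm (AddSubgroup.index_inf_le)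
  apply Nat.le_of_dvd (Nat.pos_of_ne_zero (AddSubgroup.index_inf_ne_zero hH hK))
  exact hc.mul_dvd_of_dvd_of_dvd (AddSubgroup.index_dvd_of_le inf_le_left)
    (AddSubgroup.index_dvd_of_le inf_le_right)

end JIdx

theorem prIdx : StIdx := by
  classical
  intro G _ Q φ hp hφ
  induction Q using Finset.induction_on with
  | empty => simp
  | insert p Q hpQ ih =>
    have ih' := ih (fun q hq => hp q (Finset.mem_insert_of_mem hq))
      (fun q hq => hφ q (Finset.mem_insert_of_mem hq))
    have hp1 : p.Prime := hp p (Finset.mem_insert_self _ _)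
    have h1 : (φ p).ker.index = p :=
      JIdx.index_ker_prime hp1 (φ p) (hφ p (Finset.mem_insert_self _ _))
    have h2 : (⨅ q ∈ insert p Q, (φ q).ker) = (φ p).ker ⊓ ⨅ q ∈ Q, (φ q).ker :=
      Finset.iInf_insert p Q fun q => (φ q).ker
    rw [h2, JIdx.index_inf_coprime, h1, ih', Finset.prod_insert hpQ]
    · rw [h1]
      exact hp1.ne_zero
    · rw [ih']
      exact Finset.prod_ne_zero_iff.2 fun q hq => (hp q (Finset.mem_insert_of_mem hq)).ne_zero
    · rw [h1, ih']
      refine Nat.Coprime.prod_right fun q hq => ?_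
      refine (Nat.coprime_primes hp1 (hp q (Finset.mem_insert_of_mem hq))).2 ?_
      rintro rfl
      exact hpQ hq

end Pool.Agent.Work.MP_8d13b5_lc.LG
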