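import Pool.Agent.Work.MP_8d13b5_lc.LG.StmtsK

set_option autoImplicit false

open Polynomial NumberField Module

namespace Pool.Agent.Work.MP_8d13b5_lc.LG

namespace JInf

/-- `X ^ n - 2` is irreducible over `ℚ` for `n ≥ 1` (Eisenstein at `2`) -/
lemma irr (n : ℕ) (hn : n ≠ 0) : Irreducible (X ^ n - C 2 : ℚ[X]) := by
  have h1 : Irreducible (X ^ n - C 2 : ℤ[X]) := by
    have hm : (X ^ n - C 2 : ℤ[X]).Monic := monic_X_pow_sub_C 2 hn
    have hd : (X ^ n - C 2 : ℤ[X]).natDegree = n := natDegree_X_pow_sub_C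
    have hE : (X ^ n - C 2 : ℤ[X]).IsEisensteinAt (Ideal.span {(2 : ℤ)}) := by
      refine ⟨?_, ?_, ?_⟩
      · rw [hm.leadingCoeff]
        intro h
        rw [Ideal.mem_span_singleton] at h
        omega
      · intro i hi
        rw [hd] at hi
        rw [Ideal.mem_span_singleton, coeff_sub, coeff_X_pow, coeff_C]
        rw [if_neg (by omega)]
        split_ifs <;> simp
      · intro h
        rw [Ideal.span_singleton_pow, Ideal.mem_span_singleton, coeff_sub, coeff_X_pow,
          coeff_C, if_neg (by omega), if_pos rfl] at h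
        omega
    refine hE.irreducible ?_ hm.isPrimitive (by rw [hd]; omega)
    rw [Ideal.span_singleton_prime (by norm_num)]
    exact Int.prime_two
  have hm : (X ^ n - C 2 : ℤ[X]).Monic := monic_X_pow_sub_C 2 hn
  have h2 := (Polynomial.IsPrimitive.Int.irreducible_iff_irreducible_map_cast hm.isPrimitive).1 h1
  rwa [Polynomial.map_sub, Polynomial.map_pow, map_X, map_C, eq_intCast, Int.cast_ofNat] at h2

/-- no number field of degree `< n` contains an `n`-th root of `2` -/
lemma noRoot (K : Type) [Field K] [NumberField K] (b : K) :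
    b ^ (finrank ℚ K + 1) ≠ 2 := by
  intro hb
  have hir := irr (finrank ℚ K + 1) (by omega)
  have hm : (X ^ (finrank ℚ K + 1) - C 2 : ℚ[X]).Monic := monic_X_pow_sub_C 2 (by omega)
  have hroot : Polynomial.aeval b (X ^ (finrank ℚ K + 1) - C 2 : ℚ[X]) = 0 := by
    simp [hb]
  have hmin := minpoly.eq_of_irreducible_of_monic hir hroot hm
  have h := minpoly.natDegree_le (A := ℚ) b
  rw [← hmin, natDegree_X_pow_sub_C] at h
  omega

end JInf

open JInf in
theorem prInf (hBau : StBau) : StInf := by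
  intro K _ _ B
  by_contra hcon
  push Not at hcon
  have hN : finrank ℚ K + 1 ≠ 0 := by omega
  have h := hBau K (1 : (𝓞 K)[X]) (X ^ (finrank ℚ K + 1) - C 2) monic_one
    (monic_X_pow_sub_C 2 hN) ⟨B, fun p hp hB φ _ => by
      exact absurd (hcon p hB hp) (by simp only [not_isEmpty_iff]; exact ⟨φ⟩)⟩
  set P : K[X] := (1 : (𝓞 K)[X]).map (algebraMap (𝓞 K) K) with hP
  have hPs : P.Splits := by rw [hP]; simp
  have hbot := (IsSplittingField.splits_iff P.SplittingField P).1 hPs
  have hQ : ((X ^ (finrank ℚ K + 1) - C 2 : (𝓞 K)[X]).map (algebraMap (𝓞 K) K)).map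
      (algebraMap K P.SplittingField) = X ^ (finrank ℚ K + 1) - C 2 := by
    rw [Polynomial.map_sub, Polynomial.map_sub, Polynomial.map_pow, Polynomial.map_pow, map_X, map_X,
      map_C, map_C, map_ofNat, map_ofNat]
  rw [hQ] at h
  have hdeg : (X ^ (finrank ℚ K + 1) - C 2 : (P.SplittingField)[X]).degree ≠ 0 := by
    rw [degree_X_pow_sub_C (by omega)]
    exact_mod_cast hN
  obtain ⟨β, hβ⟩ := h.exists_eval_eq_zero hdeg
  have hβ' : β ^ (finrank ℚ K + 1) = 2 := by
    simpa [sub_eq_zero] using hβ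
  have hmem : β ∈ (⊥ : Subalgebra K P.SplittingField) := by
    rw [← hbot]; trivial
  obtain ⟨b, hb⟩ := Algebra.mem_bot.1 hmem
  apply noRoot K b
  apply (algebraMap K P.SplittingField).injective
  rw [map_pow, hb, hβ', map_ofNat]

end Pool.Agent.Work.MP_8d13b5_lc.LG
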