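import Pool.Agent.Work.MP_8d13b5_lc.LG.Stmts

set_option autoImplicit false

open Polynomial

namespace Pool.Agent.Work.MP_8d13b5_lc.LG

namespace JInj

theorem key (f : ℤ[X]) (hf : f.Monic) (hd : 1 ≤ f.natDegree) {p : ℕ} (hp : p.Prime) {C C' : ℤ[X]}
    (hC : C.natDegree < f.natDegree) (hC' : C'.natDegree < f.natDegree) {n : ℕ}
    (h : Par f p C n) (h' : Par f p C' n) (a b : ℕ) :
    (p : ℤ) ∣ C.coeff a * C'.coeff b - C.coeff b * C'.coeff a := by
  have := Fact.mk hp
  obtain ⟨μ, hμ, h1⟩ := h
  obtain ⟨μ', hμ', h2⟩ := h'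
  have h3 : f.map (Int.castRingHom (ZMod p)) ∣
      Polynomial.C μ' * C.map (Int.castRingHom (ZMod p)) -
        Polynomial.C μ * C'.map (Int.castRingHom (ZMod p)) := by
    have e : Polynomial.C μ' * C.map (Int.castRingHom (ZMod p)) -
        Polynomial.C μ * C'.map (Int.castRingHom (ZMod p)) =
        Polynomial.C μ' * (C.map (Int.castRingHom (ZMod p)) - Polynomial.C μ * X ^ n) -
        Polynomial.C μ * (C'.map (Int.castRingHom (ZMod p)) - Polynomial.C μ' * X ^ n) := by
      ring
    rw [e]
    exact dvd_sub (h1.mul_left _) (h2.mul_left _)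
  have h4 : Polynomial.C μ' * C.map (Int.castRingHom (ZMod p)) -
      Polynomial.C μ * C'.map (Int.castRingHom (ZMod p)) = 0 := by
    refine Polynomial.eq_zero_of_dvd_of_natDegree_lt h3 ?_
    rw [hf.natDegree_map]
    refine (natDegree_sub_le _ _).trans_lt (max_lt ?_ ?_)
    · exact ((natDegree_C_mul_le _ _).trans natDegree_map_le).trans_lt hC
    · exact ((natDegree_C_mul_le _ _).trans natDegree_map_le).trans_lt hC'
  have h5 : ∀ i, μ' * (C.coeff i : ZMod p) = μ * (C'.coeff i : ZMod p) := by
    intro i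
    have h6 := congrArg (fun q => Polynomial.coeff q i) h4
    simp only [coeff_sub, coeff_C_mul, coeff_map, coeff_zero, sub_eq_zero] at h6
    exact h6
  rw [← ZMod.intCast_zmod_eq_zero_iff_dvd]
  refine (mul_eq_zero.1 ?_).resolve_left hμ'
  push_cast
  linear_combination (C'.coeff b : ZMod p) * h5 a - (C'.coeff a : ZMod p) * h5 b

theorem prods (P : Finset ℕ) (hP : ∀ p ∈ P, p.Prime) (A B : ℕ → Prop) [DecidablePred A]
    [DecidablePred B] :
    MP P ≤ (∏ p ∈ P.filter (fun p => ¬ A p), p) * (∏ p ∈ P.filter (fun p => ¬ B p), p) *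
      ∏ p ∈ P.filter (fun p => A p ∧ B p), p := by
  classical
  have h1 : MP P = (∏ p ∈ P.filter (fun p => ¬ (A p ∧ B p)), p) *
      ∏ p ∈ P.filter (fun p => A p ∧ B p), p := by
    rw [mul_comm]
    exact (Finset.prod_filter_mul_prod_filter_not P _ _).symm
  rw [h1]
  refine Nat.mul_le_mul_right _ ?_
  have h2 : P.filter (fun p => ¬ (A p ∧ B p)) =
      P.filter (fun p => ¬ A p) ∪ P.filter (fun p => ¬ B p) := by
    rw [← Finset.filter_or]
    refine Finset.filter_congr fun p _ => ?_
    tauto
  rw [h2]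
  have h3 := Finset.prod_union_inter (s₁ := P.filter (fun p => ¬ A p))
    (s₂ := P.filter (fun p => ¬ B p)) (f := fun p : ℕ => p)
  rw [← h3]
  refine Nat.le_mul_of_pos_right _ (Finset.prod_pos fun p hp => ?_)
  exact (hP p (Finset.mem_filter.1 (Finset.mem_inter.1 hp).1).1).pos

theorem le_hgt {d : ℕ} (C : ℤ[X]) {i : ℕ} (hi : i < d) : (C.coeff i).natAbs ≤ hgt d C :=
  Finset.le_sup (f := fun i : Fin d => (C.coeff i).natAbs) (Finset.mem_univ ⟨i, hi⟩)

end JInj

open JInj in
theorem prInj : StInj := by
  classical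
  intro f P C C' n hf hd hP hC hC' hlt
  have hz : ∀ a b : ℕ, C.coeff a * C'.coeff b - C.coeff b * C'.coeff a = 0 := by
    intro a b
    by_cases ha : a < f.natDegree
    · by_cases hb : b < f.natDegree
      · by_contra hne
        have h1 : (∏ p ∈ P.filter (fun p => Par f p C n ∧ Par f p C' n), p) ∣
            (C.coeff a * C'.coeff b - C.coeff b * C'.coeff a).natAbs := by
          refine Finset.prod_primes_dvd _ (fun p hp => ?_) (fun p hp => ?_)
          · exact (hP p (Finset.mem_filter.1 hp).1).1.prime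
          · obtain ⟨h2, h3, h4⟩ := Finset.mem_filter.1 hp
            exact Int.natCast_dvd.1 (key f hf hd (hP p h2).1 hC.1 hC'.1 h3 h4 a b)
        have h5 := Nat.le_of_dvd (Int.natAbs_pos.2 hne) h1
        have h6 : (C.coeff a * C'.coeff b - C.coeff b * C'.coeff a).natAbs ≤
            2 * hgt f.natDegree C * hgt f.natDegree C' := by
          refine (Int.natAbs_sub_le _ _).trans ?_
          rw [Int.natAbs_mul, Int.natAbs_mul]
          have h7 := Nat.mul_le_mul (le_hgt C ha) (le_hgt C' hb)
          have h8 := Nat.mul_le_mul (le_hgt C hb) (le_hgt C' ha)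
          calc _ ≤ hgt f.natDegree C * hgt f.natDegree C' +
                hgt f.natDegree C * hgt f.natDegree C' := Nat.add_le_add h7 h8
            _ = _ := by ring
        have h9 := prods P (fun p hp => (hP p hp).1) (fun p => Par f p C n)
          (fun p => Par f p C' n)
        have h10 : NP f P C n * NP f P C' n *
            (∏ p ∈ P.filter (fun p => Par f p C n ∧ Par f p C' n), p) ≤
            NP f P C n * NP f P C' n * (2 * hgt f.natDegree C * hgt f.natDegree C') :=
          Nat.mul_le_mul_left _ (h5.trans h6)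
        have h11 : MP P ≤ NP f P C n * NP f P C' n *
            (∏ p ∈ P.filter (fun p => Par f p C n ∧ Par f p C' n), p) := by
          unfold NP
          convert h9
        omega
      · rw [coeff_eq_zero_of_natDegree_lt (hC.1.trans_le (not_lt.1 hb)),
          coeff_eq_zero_of_natDegree_lt (hC'.1.trans_le (not_lt.1 hb)), mul_zero, zero_mul,
          sub_zero]
    · rw [coeff_eq_zero_of_natDegree_lt (hC.1.trans_le (not_lt.1 ha)),
        coeff_eq_zero_of_natDegree_lt (hC'.1.trans_le (not_lt.1 ha)), mul_zero, zero_mul, sub_zero]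
  have hC'0 : C' ≠ 0 := by
    rintro rfl
    have := hC'.2
    rw [content_zero] at this
    exact zero_ne_one this
  obtain ⟨b, hb⟩ : ∃ b, C'.coeff b ≠ 0 := by
    by_contra hcon
    push Not at hcon
    exact hC'0 (Polynomial.ext fun i => by rw [hcon i, coeff_zero])
  have h1 : Polynomial.C (C'.coeff b) * C = Polynomial.C (C.coeff b) * C' := by
    ext i
    rw [coeff_C_mul, coeff_C_mul]
    have := hz i b
    linarith
  have h2 := congrArg Polynomial.content h1
  rw [content_C_mul, content_C_mul, hC.2, hC'.2, mul_one, mul_one, ← Int.abs_eq_normalize,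
    ← Int.abs_eq_normalize] at h2
  have hCb : Polynomial.C (C'.coeff b) ≠ 0 := by
    rwa [Ne, Polynomial.C_eq_zero]
  rcases abs_eq_abs.1 h2 with h3 | h3
  · left
    rw [← h3] at h1
    exact mul_left_cancel₀ hCb h1
  · right
    have h4 : C.coeff b = -C'.coeff b := by omega
    rw [h4, C_neg, neg_mul, ← mul_neg] at h1
    exact mul_left_cancel₀ hCb h1

end Pool.Agent.Work.MP_8d13b5_lc.LG
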