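import Pool.Agent.Work.MP_8d13b5_lc.LG.Stmts

set_option autoImplicit false

/-! Block LG, item Iso (helper21): isolation of a known zero. -/

open Polynomial

namespace Pool.Agent.Work.MP_8d13b5_lc.LG

namespace JIso

/-- `μ` is not divisible by `p` -/
theorem mu_ne (f : ℤ[X]) (p r k : ℕ) (μ : ℤ) (hf : f.Monic) (hd : 1 ≤ f.natDegree)
    (h : IsoAt f p r k μ) : ¬ (p : ℤ) ∣ μ := by
  obtain ⟨hp, -, h0, hr, hk, N, hN⟩ := h
  have : Fact p.Prime := ⟨hp⟩
  intro hμ
  have h1 : (f.map (Int.castRingHom (ZMod p))) ∣ X ^ r := by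
    have h2 := Polynomial.map_dvd (Int.castRingHom (ZMod p)) hN
    rw [Polynomial.map_sub, Polynomial.map_sub, Polynomial.map_pow, map_X, map_C,
      Polynomial.map_mul, map_C, map_pow] at h2
    have h3 : Int.castRingHom (ZMod p) μ = 0 := by
      rw [eq_intCast, ZMod.intCast_zmod_eq_zero_iff_dvd]
      exact hμ
    have h4 : Int.castRingHom (ZMod p) (p : ℤ) = 0 := by simp
    rw [h3, h4, zero_pow (by omega), map_zero, sub_zero, zero_mul, sub_zero] at h2
    exact h2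
  have h5 : IsCoprime (f.map (Int.castRingHom (ZMod p))) (X : (ZMod p)[X]) := by
    rw [isCoprime_comm]
    refine (irreducible_X.coprime_iff_not_dvd).2 ?_
    rw [X_dvd_iff, coeff_map]
    intro h6
    rw [eq_intCast, ZMod.intCast_zmod_eq_zero_iff_dvd] at h6
    exact h0 h6
  have h6 := (h5.pow_right (n := r)).isUnit_of_dvd' dvd_rfl h1
  have h7 := natDegree_eq_zero_of_isUnit h6
  rw [hf.natDegree_map] at h7
  omega

/-- divisibility of the higher terms -/
theorem high (p k m l v m' : ℕ) (hp : p.Prime) (h3 : 3 ≤ p) (hk : 1 ≤ k) (hm : m = p ^ v * m')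
    (hl : 2 ≤ l) (hm0 : 1 ≤ m) : p ^ (v + k + 1) ∣ m.choose l * p ^ (k * l) := by
  obtain ⟨a, l', hl', hal⟩ := Nat.exists_eq_pow_mul_and_not_dvd (n := l) (by omega) p hp.ne_one
  have ha : a + 2 ≤ l := by
    rcases Nat.eq_zero_or_pos a with h | h
    · omega
    · have h1 : 3 ^ a ≤ p ^ a := Nat.pow_le_pow_left h3 a
      have h2 : p ^ a ≤ l := by
        rw [hal]
        refine Nat.le_mul_of_pos_right _ ?_
        rcases Nat.eq_zero_or_pos l' with h | h
        · rw [h, mul_zero] at hal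
          omega
        · exact h
      have h4 : ∀ b : ℕ, 1 ≤ b → b + 2 ≤ 3 ^ b := by
        intro b hb
        induction b with
        | zero => omega
        | succ b ih =>
          rcases Nat.eq_zero_or_pos b with h | h
          · subst h
            norm_num
          · have := ih h
            rw [pow_succ]
            omega
      have := h4 a h
      omega
  have hkl : v + k + 1 + a ≤ v + k * l := by
    obtain ⟨j, rfl⟩ : ∃ j, l = j + 1 := ⟨l - 1, by omega⟩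
    have h1 : j ≤ k * j := Nat.le_mul_of_pos_left j hk
    rw [mul_add, mul_one]
    omega
  obtain ⟨l1, rfl⟩ : ∃ l1, l = l1 + 1 := ⟨l - 1, by omega⟩
  obtain ⟨m1, rfl⟩ : ∃ m1, m = m1 + 1 := ⟨m - 1, by omega⟩
  have h1 : (m1 + 1).choose (l1 + 1) * (l1 + 1) = (m1 + 1) * m1.choose l1 :=
    (Nat.add_one_mul_choose_eq m1 l1).symm
  have h2 : p ^ (v + k * (l1 + 1)) ∣ (m1 + 1).choose (l1 + 1) * (l1 + 1) * p ^ (k * (l1 + 1)) := by
    rw [h1, hm, pow_add]
    refine ⟨m' * m1.choose l1, ?_⟩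
    ring
  have h4 : p ^ (v + k + 1 + a) ∣ l' * (p ^ a * ((m1 + 1).choose (l1 + 1) * p ^ (k * (l1 + 1)))) := by
    refine (pow_dvd_pow p hkl).trans (h2.trans (dvd_of_eq ?_))
    rw [hal]
    ring
  have h5 : Nat.Coprime (p ^ (v + k + 1 + a)) l' :=
    Nat.Coprime.pow_left _ ((Nat.Prime.coprime_iff_not_dvd hp).2 hl')
  have h6 := h5.dvd_of_dvd_mul_left h4
  rw [pow_add p (v + k + 1) a, mul_comm (p ^ (v + k + 1))] at h6
  exact Nat.dvd_of_mul_dvd_mul_left (pow_pos hp.pos a) h6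

end JIso

open JIso in
theorem prIso (hLin : StLin) : StIso := by
  intro f y p r k μ hf hd hiso h0 hnd m hm
  have hμ := mu_ne f p r k μ hf hd hiso
  obtain ⟨hp, hp3, -, hr, hk, N, hN⟩ := hiso
  obtain ⟨hadd, hsm, hcg⟩ := hLin f y hf
  set L : ℤ[X] → ℤ := fun A => pr f.natDegree (A %ₘ f) y with hL
  have hL1 : L 1 = 0 := by
    have h1 : L 1 = pr f.natDegree (W f 0) y := by
      rw [hL]
      unfold W
      rw [pow_zero]
    rw [h1, h0]
  have hLz : L 0 = 0 := by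
    have h1 := hsm 0 0
    rw [mul_zero, zero_mul] at h1
    exact h1
  have hsum : ∀ (s : Finset ℕ) (a : ℕ → ℤ) (A : ℕ → ℤ[X]),
      L (∑ l ∈ s, C (a l) * A l) = ∑ l ∈ s, a l * L (A l) := by
    intro s a A
    induction s using Finset.induction_on with
    | empty =>
      rw [Finset.sum_empty, Finset.sum_empty]
      exact hLz
    | insert i s his ih =>
      rw [Finset.sum_insert his, Finset.sum_insert his, ← ih]
      have h1 := hadd (C (a i) * A i) (∑ l ∈ s, C (a l) * A l)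
      rw [hsm] at h1
      exact h1
  -- the value at `r`
  have hr1 : pr f.natDegree (W f r) y = (p : ℤ) ^ k * L N := by
    have h1 : L (X ^ r) = L (C μ * 1 + C ((p : ℤ) ^ k) * N) := by
      refine hcg _ _ ?_
      convert hN using 1
      ring
    have h2 : L (C μ * 1 + C ((p : ℤ) ^ k) * N) = L (C μ * 1) + L (C ((p : ℤ) ^ k) * N) :=
      hadd _ _
    have h3 : L (C μ * 1) = μ * L 1 := hsm _ _
    have h4 : L (C ((p : ℤ) ^ k) * N) = (p : ℤ) ^ k * L N := hsm _ _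
    have h5 : pr f.natDegree (W f r) y = L (X ^ r) := rfl
    rw [h5, h1, h2, h3, h4, hL1, mul_zero, zero_add]
  have hLN : ¬ (p : ℤ) ∣ L N := by
    intro h
    apply hnd
    rw [hr1, pow_succ]
    exact mul_dvd_mul_left _ h
  -- the value at `r m`
  have hrm : pr f.natDegree (W f (r * m)) y =
      ∑ l ∈ Finset.range (m + 1), (((p : ℤ) ^ k) ^ l * μ ^ (m - l) * (m.choose l : ℤ)) * L (N ^ l) := by
    have h1 : L (X ^ (r * m)) = L ((C ((p : ℤ) ^ k) * N + C μ) ^ m) := by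
      refine hcg _ _ ?_
      rw [pow_mul]
      refine dvd_trans ?_ (sub_dvd_pow_sub_pow _ _ m)
      convert hN using 1
      ring
    have h2 : (C ((p : ℤ) ^ k) * N + C μ) ^ m = ∑ l ∈ Finset.range (m + 1),
        C (((p : ℤ) ^ k) ^ l * μ ^ (m - l) * (m.choose l : ℤ)) * N ^ l := by
      rw [add_pow]
      refine Finset.sum_congr rfl fun l _ => ?_
      have h3 : (C ((m.choose l : ℕ) : ℤ) : ℤ[X]) = ((m.choose l : ℕ) : ℤ[X]) := by simp
      simp only [mul_pow, C_mul, C_pow, h3]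
      ring
    have h5 : pr f.natDegree (W f (r * m)) y = L (X ^ (r * m)) := rfl
    rw [h5, h1, h2, hsum]
  obtain ⟨v, m', hm', hmv⟩ := Nat.exists_eq_pow_mul_and_not_dvd (n := m) (by omega) p hp.ne_one
  obtain ⟨m1, hm1⟩ : ∃ m1, m = m1 + 1 := ⟨m - 1, by omega⟩
  have hsplit : pr f.natDegree (W f (r * m)) y =
      ∑ l ∈ Finset.range m1, (((p : ℤ) ^ k) ^ (l + 2) * μ ^ (m - (l + 2)) *
        (m.choose (l + 2) : ℤ)) * L (N ^ (l + 2)) +
      (p : ℤ) ^ k * μ ^ (m - 1) * (m : ℤ) * L N := by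
    rw [hrm, Finset.sum_range_succ', pow_zero, pow_zero, hL1, mul_zero, add_zero, hm1,
      Finset.sum_range_succ']
    simp only [zero_add, pow_one, Nat.choose_one_right]
  have hdiv : (p : ℤ) ^ (v + k + 1) ∣ ∑ l ∈ Finset.range m1, (((p : ℤ) ^ k) ^ (l + 2) *
      μ ^ (m - (l + 2)) * (m.choose (l + 2) : ℤ)) * L (N ^ (l + 2)) := by
    refine Finset.dvd_sum fun l _ => ?_
    have h1 := high p k m (l + 2) v m' hp hp3 hk hmv (by omega) hm
    have h2 : (p : ℤ) ^ (v + k + 1) ∣ (m.choose (l + 2) : ℤ) * ((p : ℤ) ^ k) ^ (l + 2) := by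
      rw [← pow_mul]
      exact_mod_cast h1
    have h3 : ((p : ℤ) ^ k) ^ (l + 2) * μ ^ (m - (l + 2)) * (m.choose (l + 2) : ℤ) *
        L (N ^ (l + 2)) = ((m.choose (l + 2) : ℤ) * ((p : ℤ) ^ k) ^ (l + 2)) *
          (μ ^ (m - (l + 2)) * L (N ^ (l + 2))) := by ring
    rw [h3]
    exact dvd_mul_of_dvd_left h2 _
  intro hz
  rw [hsplit] at hz
  have h1 : (p : ℤ) ^ (v + k + 1) ∣ (p : ℤ) ^ k * μ ^ (m - 1) * (m : ℤ) * L N := by
    have h2 : (p : ℤ) ^ k * μ ^ (m - 1) * (m : ℤ) * L N =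
        -∑ l ∈ Finset.range m1, (((p : ℤ) ^ k) ^ (l + 2) * μ ^ (m - (l + 2)) *
        (m.choose (l + 2) : ℤ)) * L (N ^ (l + 2)) := by linarith
    rw [h2, dvd_neg]
    exact hdiv
  have h2 : (p : ℤ) ^ k * μ ^ (m - 1) * (m : ℤ) * L N =
      (p : ℤ) ^ (v + k) * (μ ^ (m - 1) * (m' : ℤ) * L N) := by
    have h3 : (m : ℤ) = (p : ℤ) ^ v * (m' : ℤ) := by exact_mod_cast hmv
    rw [h3, pow_add]
    ring
  rw [h2, pow_succ] at h1
  have hp0 : (p : ℤ) ^ (v + k) ≠ 0 := pow_ne_zero _ (by exact_mod_cast hp.ne_zero)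
  have h3 : (p : ℤ) ∣ μ ^ (m - 1) * (m' : ℤ) * L N := (mul_dvd_mul_iff_left hp0).1 h1
  have hpp : Prime (p : ℤ) := Nat.prime_iff_prime_int.1 hp
  rcases hpp.dvd_or_dvd h3 with h4 | h4
  · rcases hpp.dvd_or_dvd h4 with h5 | h5
    · exact hμ (hpp.dvd_of_dvd_pow h5)
    · exact hm' (by exact_mod_cast h5)
  · exact hLN h4

end Pool.Agent.Work.MP_8d13b5_lc.LG
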