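import Pool.Agent.Work.MP_8d13b5_lc.LG.StmtsK

set_option autoImplicit false

open Polynomial NumberField Module

namespace Pool.Agent.Work.MP_8d13b5_lc.LG

namespace JKum

theorem descent {K F : Type} [Field K] [Field F] [Algebra K F] {l : ℕ} {g γ : K}
    {ζ : F} (hl : l.Prime) (hg : g ≠ 0) (hζ : IsPrimitiveRoot ζ l) (m : ℕ)
    (h : IntermediateField.adjoin K {ζ})
    (e : algebraMap K F g = algebraMap K F γ ^ m * (h : F) ^ l) :
    ∃ (n : ℕ) (b : K), g = γ ^ n * b ^ l := by
  have hint : IsIntegral K ζ := (hζ.isIntegral hl.pos).tower_top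
  have : FiniteDimensional K (IntermediateField.adjoin K {ζ}) :=
    IntermediateField.adjoin.finiteDimensional hint
  have e' : algebraMap K (IntermediateField.adjoin K {ζ}) g =
      algebraMap K (IntermediateField.adjoin K {ζ}) γ ^ m * h ^ l := by
    apply Subtype.ext
    simpa using e
  have eN := congrArg (Algebra.norm K) e'
  rw [map_mul, map_pow, map_pow, Algebra.norm_algebraMap, Algebra.norm_algebraMap] at eN
  have hr1 : 0 < finrank K (IntermediateField.adjoin K {ζ}) := finrank_pos
  have hr2 : finrank K (IntermediateField.adjoin K {ζ}) < l := by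
    rw [IntermediateField.adjoin.finrank hint]
    have hd : minpoly K ζ ∣ cyclotomic l K := by
      apply minpoly.dvd
      have h1 := hζ.isRoot_cyclotomic hl.pos
      rw [← map_cyclotomic l (algebraMap K F)] at h1
      rw [aeval_def, eval₂_eq_eval_map]
      exact h1
    calc (minpoly K ζ).natDegree ≤ (cyclotomic l K).natDegree :=
          natDegree_le_of_dvd hd (cyclotomic_ne_zero _ _)
      _ = l - 1 := by rw [natDegree_cyclotomic, Nat.totient_prime hl]
      _ < l := Nat.sub_lt hl.pos one_pos
  have hcop : Nat.Coprime (finrank K (IntermediateField.adjoin K {ζ})) l :=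
    (Nat.coprime_of_lt_prime hr1.ne' hr2 hl).symm
  generalize finrank K (IntermediateField.adjoin K {ζ}) = r at *
  generalize Algebra.norm K h = N at *
  obtain ⟨r', -, hr'⟩ := Nat.exists_mul_mod_eq_one_of_coprime hcop hl.one_lt
  obtain ⟨t, ht⟩ : ∃ t, r * r' = 1 + l * t := ⟨r * r' / l, by
    have := Nat.mod_add_div (r * r') l
    rw [hr'] at this; omega⟩
  refine ⟨m, γ ^ (m * t) * N ^ r' / g ^ t, ?_⟩
  have e2 : g ^ (r * r') = γ ^ (m * (r * r')) * N ^ (r' * l) := by
    rw [pow_mul, eN]
    ring
  rw [ht] at e2
  rw [div_pow, mul_pow, ← pow_mul, ← pow_mul, ← pow_mul, mul_div_assoc', eq_div_iff (pow_ne_zero _ hg)]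
  have e3 : g * g ^ (t * l) = g ^ (1 + l * t) := by ring
  rw [e3, e2]
  ring

end JKum

theorem prKum : StKum := by
  intro K F _ _ _ _ l g γ ζ α β hl hg hγ hζ hα htop hβ
  have : NeZero l := ⟨hl.ne_zero⟩
  have hFg : algebraMap K F g ≠ 0 := by simpa using hg
  have hFγ : algebraMap K F γ ≠ 0 := by simpa using hγ
  by_cases hαL : α ∈ IntermediateField.adjoin K {ζ}
  · have hL : IntermediateField.adjoin K {ζ} = ⊤ := by
      rw [eq_top_iff, ← htop, IntermediateField.adjoin_le_iff]
      intro x hx
      rcases hx with hx | hx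
      · rw [hx]; exact IntermediateField.mem_adjoin_simple_self K ζ
      · rw [Set.mem_singleton_iff] at hx
        rw [hx]; exact hαL
    have hβL : β ∈ IntermediateField.adjoin K {ζ} := by rw [hL]; exact IntermediateField.mem_top
    exact JKum.descent (γ := γ) hl hg hζ 0 ⟨β, hβL⟩ (by simp [hβ])
  · set L := IntermediateField.adjoin K {ζ} with hLdef
    have hζL : ζ ∈ L := IntermediateField.mem_adjoin_simple_self K ζ
    have htopL : IntermediateField.adjoin L {α} = ⊤ := by
      rw [← IntermediateField.restrictScalars_eq_top_iff (K := K),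
        IntermediateField.adjoin_adjoin_left]
      exact htop
    have hα' : α ^ l = algebraMap L F (algebraMap K L γ) := by
      rw [hα]; rfl
    have hroot : ∀ b : L, b ^ l ≠ algebraMap K L γ := by
      intro b hb
      have hb' : (b : F) ^ l = algebraMap K F γ := by
        have := congrArg (algebraMap L F) hb
        simpa using this
      have hb0 : (b : F) ≠ 0 := by
        intro h0
        rw [h0, zero_pow hl.ne_zero] at hb'
        exact hFγ hb'.symm
      have h1 : (α / b) ^ l = 1 := by
        rw [div_pow, hα, hb', div_self hFγ]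
      obtain ⟨i, -, hi⟩ := (hζ.eq_pow_of_pow_eq_one h1)
      apply hαL
      have : α = ζ ^ i * b := by
        rw [hi]; field_simp
      rw [this]
      exact mul_mem (pow_mem hζL i) b.2
    have hirr : Irreducible (X ^ l - C (algebraMap K L γ) : L[X]) :=
      X_pow_sub_C_irreducible_of_prime hl hroot
    have hmin : minpoly L α = X ^ l - C (algebraMap K L γ) := by
      symm
      apply minpoly.eq_of_irreducible_of_monic hirr
      · simp [hα']
      · exact monic_X_pow_sub_C _ hl.ne_zero
    have hαint : IsIntegral L α := by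
      refine ⟨X ^ l - C (algebraMap K L γ), monic_X_pow_sub_C _ hl.ne_zero, ?_⟩
      simp [eval₂_sub, hα']
    have hadj : Algebra.adjoin L {α} = ⊤ := by
      rw [← IntermediateField.adjoin_simple_toSubalgebra_of_isAlgebraic hαint.isAlgebraic, htopL]
      rfl
    let pb : PowerBasis L F := PowerBasis.ofAdjoinEqTop hαint hadj
    have hgen : pb.gen = α := PowerBasis.ofAdjoinEqTop_gen hαint hadj
    have hdim : pb.dim = l := by
      rw [← pb.natDegree_minpoly, hgen, hmin, natDegree_X_pow_sub_C]
    let zL : L := ⟨ζ, hζL⟩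
    have hzL : (zL : F) = ζ := rfl
    have hlift : aeval (ζ * α) (minpoly L pb.gen) = 0 := by
      rw [hgen, hmin]
      simp [mul_pow, hζ.pow_eq_one, hα']
    let σ : F →ₐ[L] F := pb.lift (ζ * α) hlift
    have hσ : σ α = ζ * α := by
      have := pb.lift_gen (ζ * α) hlift
      rw [hgen] at this
      exact this
    have hβ0 : β ≠ 0 := by
      intro h0
      rw [h0, zero_pow hl.ne_zero] at hβ
      exact hFg hβ.symm
    have h1 : (σ β / β) ^ l = 1 := by
      rw [div_pow, ← map_pow, hβ]
      have : σ (algebraMap K F g) = algebraMap K F g := σ.commutes (algebraMap K L g)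
      rw [this, div_self hFg]
    obtain ⟨m, -, hm⟩ := hζ.eq_pow_of_pow_eq_one h1
    have hσβ : σ β = zL ^ m • β := by
      rw [Algebra.smul_def, map_pow]
      change σ β = ζ ^ m * β
      rw [hm]; field_simp
    have hsum := pb.basis.sum_repr β
    have hσsum : σ β = ∑ i : Fin pb.dim, (zL ^ (i : ℕ) * pb.basis.repr β i) • pb.basis i := by
      conv_lhs => rw [← hsum]
      rw [map_sum]
      apply Finset.sum_congr rfl
      intro i _
      rw [map_smul, pb.basis_eq_pow, hgen, map_pow, hσ, mul_pow, Algebra.smul_def, Algebra.smul_def,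
        map_mul, map_pow]
      change _ = ζ ^ (i : ℕ) * _ * _
      ring
    have hcoord : ∀ i : Fin pb.dim, zL ^ m * pb.basis.repr β i = zL ^ (i : ℕ) * pb.basis.repr β i := by
      intro i
      have h2 : pb.basis.repr (σ β) i = zL ^ m * pb.basis.repr β i := by
        rw [hσβ]; simp
      rw [← h2, hσsum, Basis.repr_sum_self]
    have hzprim : IsPrimitiveRoot zL l := by
      apply IsPrimitiveRoot.of_map_of_injective (f := algebraMap L F) _ (algebraMap L F).injective
      exact hζ
    obtain ⟨i, hi⟩ : ∃ i : Fin pb.dim, pb.basis.repr β i ≠ 0 := by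
      by_contra hcon
      push Not at hcon
      apply hβ0
      rw [← hsum]
      exact Finset.sum_eq_zero (fun i _ => by rw [hcon i, zero_smul])
    have hu : ∀ j, j ≠ i → pb.basis.repr β j = 0 := by
      intro j hj
      by_contra hc
      have e1 := mul_right_cancel₀ hi (hcoord i)
      have e2 := mul_right_cancel₀ hc (hcoord j)
      have e3 : zL ^ (j : ℕ) = zL ^ (i : ℕ) := by rw [← e2, e1]
      have := hzprim.pow_inj (by have := j.2; omega) (by have := i.2; omega) e3
      exact hj (Fin.ext this)
    have hβe : β = (pb.basis.repr β i : F) * α ^ (i : ℕ) := by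
      conv_lhs => rw [← hsum]
      rw [Finset.sum_eq_single i (fun j _ hj => by rw [hu j hj, zero_smul]) (by simp),
        pb.basis_eq_pow, hgen, Algebra.smul_def]
      rfl
    refine JKum.descent (γ := γ) hl hg hζ (i : ℕ) (pb.basis.repr β i) ?_
    rw [← hβ]
    conv_lhs => rw [hβe]
    rw [mul_pow, ← pow_mul, mul_comm (i : ℕ) l, pow_mul, hα]
    ring

end Pool.Agent.Work.MP_8d13b5_lc.LG
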