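import Pool.Agent.Work.MP_8d13b5_lc.LG.Stmts

/-!
# MP_8d13b5_lc, block LG, item Lcm
-/

set_option autoImplicit false

open Polynomial

namespace Pool.Agent.Work.MP_8d13b5_lc.LG

theorem prLcm : StLcm := by
  intro P hP hne
  have hhalf : ∀ p ∈ P, p - 1 = 2 * ((p - 1) / 2) := by
    intro p hp
    obtain ⟨hpp, h3⟩ := hP p hp
    have hodd : p % 2 = 1 := by
      rcases hpp.eq_two_or_odd with h | h
      · omega
      · exact h
    omega
  have hdvd : TP P ∣ 2 * ∏ p ∈ P, ((p - 1) / 2) := by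
    unfold TP
    refine Finset.lcm_dvd ?_
    intro p hp
    rw [hhalf p hp]
    exact mul_dvd_mul_left 2 (Finset.dvd_prod_of_mem (fun p => (p - 1) / 2) hp)
  have hpos : 0 < ∏ p ∈ P, ((p - 1) / 2) := by
    refine Finset.prod_pos ?_
    intro p hp
    obtain ⟨-, h3⟩ := hP p hp
    omega
  have hle : TP P ≤ 2 * ∏ p ∈ P, ((p - 1) / 2) := Nat.le_of_dvd (by positivity) hdvd
  have hcard : 1 ≤ P.card := hne.card_pos
  have hpow : 2 * 2 ^ (P.card - 1) = 2 ^ P.card := by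
    conv_rhs => rw [show P.card = (P.card - 1) + 1 by omega]
    rw [pow_succ]; ring
  calc TP P * 2 ^ (P.card - 1)
      ≤ (2 * ∏ p ∈ P, ((p - 1) / 2)) * 2 ^ (P.card - 1) := Nat.mul_le_mul_right _ hle
    _ = (2 * 2 ^ (P.card - 1)) * ∏ p ∈ P, ((p - 1) / 2) := by ring
    _ = ∏ p ∈ P, (2 * ((p - 1) / 2)) := by
        rw [hpow, Finset.prod_mul_distrib, Finset.prod_const]
    _ ≤ ∏ p ∈ P, p := by
        refine Finset.prod_le_prod' ?_
        intro p hp
        omega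
    _ = MP P := rfl

end Pool.Agent.Work.MP_8d13b5_lc.LG
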