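import Pool.Agent.Work.MP_8d13b5_lc.LG.Stmts

set_option autoImplicit false

/-! Item Lin of the block LG: linearity of the pairing. -/

open Polynomial Filter Topology NumberField

namespace Pool.Agent.Work.MP_8d13b5_lc.LG

namespace JLin

theorem pr_add (d : ℕ) (A B : ℤ[X]) (x : Fin d → ℤ) : pr d (A + B) x = pr d A x + pr d B x := by
  unfold pr
  rw [← Finset.sum_add_distrib]
  apply Finset.sum_congr rfl
  intro i _
  rw [coeff_add, add_mul]

theorem pr_C_mul (d : ℕ) (a : ℤ) (A : ℤ[X]) (x : Fin d → ℤ) : pr d (C a * A) x = a * pr d A x := by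
  unfold pr
  rw [Finset.mul_sum]
  apply Finset.sum_congr rfl
  intro i _
  rw [coeff_C_mul, mul_assoc]

end JLin

theorem prLin : StLin := by
  intro f x hf
  refine ⟨fun A B => ?_, fun a A => ?_, fun A B hAB => ?_⟩
  · rw [add_modByMonic, JLin.pr_add]
  · rw [← smul_eq_C_mul, smul_modByMonic, smul_eq_C_mul, JLin.pr_C_mul]
  · have h1 : (A - B) %ₘ f = 0 := (modByMonic_eq_zero_iff_dvd hf).2 hAB
    rw [sub_modByMonic, sub_eq_zero] at h1
    rw [h1]

end Pool.Agent.Work.MP_8d13b5_lc.LG
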