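import Pool.Agent.Work.MP_8d13b5_lc.LG.AlgStmts

/-!
# MP_8d13b5_lc, block LG, item Md: not bad gives a modulus
-/

set_option autoImplicit false

open Polynomial

namespace Pool.Agent.Work.MP_8d13b5_lc.LG

namespace JMd

theorem coeff_zero (c : List ℤ) (hc : 1 ≤ c.length) : (Rk.charPoly c).coeff 0 = - cd c := by
  rw [Rk.charPoly_coeff]
  have h0 : ¬ (0 = c.length) := by omega
  have h1 : 0 < c.length := by omega
  simp [h1, cd]
  omega

theorem gcd_MP (a : ℤ) (P : Finset ℕ) (hP : ∀ p ∈ P, p.Prime ∧ ¬ (p : ℤ) ∣ a) :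
    Int.gcd a (MP P) = 1 := by
  rw [← Int.isCoprime_iff_gcd_eq_one]
  unfold MP
  push_cast
  apply IsCoprime.prod_right
  intro p hp
  exact ((Nat.prime_iff_prime_int.mp (hP p hp).1).coprime_iff_not_dvd.mpr (hP p hp).2).symm

end JMd

theorem prMd (hRel : StRel) : StMd := by
  intro c x hv hB
  unfold Bad at hB
  push Not at hB
  obtain ⟨P, hP, hn⟩ := hB
  have hlen : 1 ≤ c.length := hv.2.1
  have hval : ∀ n, val (c, x) n = pr (Rk.charPoly c).natDegree (W (Rk.charPoly c) n)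
      (vec (Rk.charPoly c).natDegree x) := by
    intro n
    rw [hRel c x hv n, Rk.charPoly_natDegree]
  refine ⟨MP P, ?_, ?_, ?_⟩
  · have h1 : MP P ≠ 0 := Finset.prod_ne_zero_iff.mpr (fun p hp => (hP p hp).1.ne_zero)
    have h2 : MP P ≠ 1 := by
      intro h
      apply hn 0
      rw [h]
      simp
    omega
  · apply JMd.gcd_MP
    intro p hp
    refine ⟨(hP p hp).1, fun hd => (hP p hp).2.1 ?_⟩
    rw [JMd.coeff_zero c hlen]
    exact (dvd_neg).mpr hd
  · intro n
    rw [hval]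
    exact hn n

end Pool.Agent.Work.MP_8d13b5_lc.LG
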