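import Pool.Agent.Work.MP_8d13b5_lc.LG.AlgStmts

/-! MP_8d13b5_lc, block LG: item Mod (helper83). -/

set_option autoImplicit false

open Polynomial

namespace Pool.Agent.Work.MP_8d13b5_lc.LG

theorem prMod : StMod := by
  intro x hx m
  obtain ⟨E, hd, v, _, rfl⟩ := US.exists_code x hx
  have hlen : (code E v).1.length = E.order := by simp [code]
  unfold ChM
  rw [hlen]
  constructor
  · rintro ⟨hm, hg, h⟩
    refine ⟨hm, hg, fun n hn => ?_⟩
    obtain ⟨i, hi, his⟩ := mkSol_mod_early E hd v m hm n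
    have : NeZero m := ⟨by omega⟩
    apply h i hi
    rw [val_code E hd] at hn ⊢
    rw [← ZMod.intCast_zmod_eq_zero_iff_dvd, his, ZMod.intCast_zmod_eq_zero_iff_dvd]
    exact hn
  · rintro ⟨hm, hg, h⟩
    exact ⟨hm, hg, fun i _ => h i⟩

end Pool.Agent.Work.MP_8d13b5_lc.LG
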