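import Pool.Agent.Work.MP_8d13b5_lc.LG.StmtsK

/-!
# MP_8d13b5_lc, block LG, part K, item One: an endomorphism of a finitely generated abelian group
which maps every element to a multiple of it is a multiplication by an integer
-/

set_option autoImplicit false

open Polynomial NumberField Module

namespace Pool.Agent.Work.MP_8d13b5_lc.LG

namespace JOne

/-- such an endomorphism commutes with idempotents -/
theorem comm {P : Type} [AddCommGroup P] (h : P →+ P) (hh : ∀ x, ∃ n : ℤ, h x = n • x)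
    (π : P →+ P) (hπ : ∀ x, π (π x) = π x) (x : P) : π (h x) = h (π x) := by
  obtain ⟨m, hm⟩ := hh (π x)
  obtain ⟨m', hm'⟩ := hh (x - π x)
  have e : h x = m • π x + m' • (x - π x) := by
    rw [← hm, ← hm', ← map_add]
    congr 1
    abel
  have z : π (x - π x) = 0 := by rw [map_sub, hπ, sub_self]
  rw [e, map_add, map_zsmul, map_zsmul, hπ, z, smul_zero, add_zero, hm]

theorem abs {P κ : Type} [AddCommGroup P] [Fintype κ] (π : κ → P →+ P)
    (hid : ∀ i x, π i (π i x) = π i x) (hsum : ∀ x, ∑ i, π i x = x) (s : P)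
    (hcyc : ∀ i x, ∃ a : ℤ, π i x = a • π i s) (h : P →+ P)
    (hh : ∀ x, ∃ n : ℤ, h x = n • x) : ∃ n : ℤ, ∀ x, h x = n • x := by
  obtain ⟨N, hN⟩ := hh s
  refine ⟨N, fun x => ?_⟩
  have key : ∀ i, h (π i x) = N • π i x := by
    intro i
    obtain ⟨a, ha⟩ := hcyc i x
    rw [ha, map_zsmul, ← comm h hh (π i) (hid i) s, hN, map_zsmul, smul_comm]
  conv_lhs => rw [← hsum x]
  rw [map_sum, Finset.sum_congr rfl fun i _ => key i, ← Finset.smul_sum, hsum]

open Classical in
/-- the projections to the cyclic summands -/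
noncomputable def pj (n : ℕ) (ι : Type) (N : ι → ℕ) :
    Fin n ⊕ ι → ((Fin n → ℤ) × (∀ i : ι, ZMod (N i))) →+ ((Fin n → ℤ) × (∀ i : ι, ZMod (N i)))
  | Sum.inl j => (AddMonoidHom.inl _ _).comp
      ((AddMonoidHom.single (fun _ : Fin n => ℤ) j).comp
        ((Pi.evalAddMonoidHom (fun _ : Fin n => ℤ) j).comp (AddMonoidHom.fst _ _)))
  | Sum.inr i => (AddMonoidHom.inr _ _).comp
      ((AddMonoidHom.single (fun i : ι => ZMod (N i)) i).comp
        ((Pi.evalAddMonoidHom (fun i : ι => ZMod (N i)) i).comp (AddMonoidHom.snd _ _)))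

theorem pi_case (n : ℕ) (ι : Type) [Fintype ι] (N : ι → ℕ)
    (h : ((Fin n → ℤ) × (∀ i : ι, ZMod (N i))) →+ ((Fin n → ℤ) × (∀ i : ι, ZMod (N i))))
    (hh : ∀ x, ∃ n : ℤ, h x = n • x) : ∃ n : ℤ, ∀ x, h x = n • x := by
  classical
  refine abs (pj n ι N) ?_ ?_ (fun _ => 1, fun _ => 1) ?_ h hh
  · rintro (j | i) x
    · simp [pj]
    · simp [pj]
  · intro x
    rw [Fintype.sum_sum_type]
    apply Prod.ext
    · rw [Prod.fst_add, Prod.fst_sum, Prod.fst_sum]
      simp only [pj, AddMonoidHom.coe_comp, Function.comp_apply, AddMonoidHom.coe_fst,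
        Pi.evalAddMonoidHom_apply, AddMonoidHom.single_apply, AddMonoidHom.inl_apply,
        AddMonoidHom.inr_apply, Finset.sum_const_zero, add_zero]
      exact Finset.univ_sum_single x.1
    · rw [Prod.snd_add, Prod.snd_sum, Prod.snd_sum]
      simp only [pj, AddMonoidHom.coe_comp, Function.comp_apply, AddMonoidHom.coe_snd,
        Pi.evalAddMonoidHom_apply, AddMonoidHom.single_apply, AddMonoidHom.inl_apply,
        AddMonoidHom.inr_apply, Finset.sum_const_zero, zero_add]
      exact Finset.univ_sum_single x.2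
  · rintro (j | i) x
    · refine ⟨x.1 j, ?_⟩
      apply Prod.ext
      · funext k
        by_cases hk : k = j
        · subst hk
          simp [pj]
        · simp [pj, hk]
      · simp [pj]
    · obtain ⟨c, hc⟩ := ZMod.intCast_surjective (x.2 i)
      refine ⟨c, ?_⟩
      apply Prod.ext
      · simp [pj]
      · funext k
        by_cases hk : k = i
        · subst hk
          simp [pj, hc]
        · simp [pj, hk]

end JOne

theorem prOne : StOne := by
  classical
  intro G _ hfg h hh
  obtain ⟨n, ι, _, p, _, e, ⟨E⟩⟩ := AddCommGroup.equiv_free_prod_directSum_zmod G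
  let E2 : ((Fin n →₀ ℤ) × (DirectSum ι fun i => ZMod (p i ^ e i))) ≃+
      ((Fin n → ℤ) × (∀ i : ι, ZMod (p i ^ e i))) :=
    AddEquiv.prodCongr (Finsupp.linearEquivFunOnFinite ℤ ℤ (Fin n)).toAddEquiv
      (DirectSum.addEquivProd _)
  let F := E.trans E2
  obtain ⟨m, hm⟩ := JOne.pi_case n ι (fun i => p i ^ e i)
    (F.toAddMonoidHom.comp (h.comp F.symm.toAddMonoidHom)) (by
      intro x
      obtain ⟨k, hk⟩ := hh (F.symm x)
      refine ⟨k, ?_⟩
      change F (h (F.symm x)) = k • x
      rw [hk, map_zsmul, AddEquiv.apply_symm_apply])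
  refine ⟨m, fun x => ?_⟩
  have h1 := hm (F x)
  change F (h (F.symm (F x))) = m • F x at h1
  rw [AddEquiv.symm_apply_apply, ← map_zsmul] at h1
  exact F.injective h1

end Pool.Agent.Work.MP_8d13b5_lc.LG
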