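import Pool.Agent.Work.MP_8d13b5_lc.LG.StmtsK

/-!
# MP_8d13b5_lc, block LG, item Or0: a prime of degree one where the order of `γ` is prime to `l`
-/

set_option autoImplicit false

open Polynomial NumberField Module

namespace Pool.Agent.Work.MP_8d13b5_lc.LG

namespace JOr0

/-- If `X ^ n - 1` splits in characteristic zero there is a primitive `n`-th root of unity. -/
theorem exists_prim (F : Type) [Field F] [CharZero F] (n : ℕ) (hn : 1 ≤ n)
    (h : (X ^ n - 1 : F[X]).Splits) : ∃ ξ : F, IsPrimitiveRoot ξ n := by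
  have hne : (X ^ n - 1 : F[X]) ≠ 0 := by
    have := (monic_X_pow_sub_C (1 : F) (by omega : n ≠ 0)).ne_zero
    simpa using this
  have h1 : (cyclotomic n F).Splits := h.of_dvd hne (cyclotomic.dvd_X_pow_sub_one n F)
  have h2 : (cyclotomic n F).degree ≠ 0 := by
    rw [degree_cyclotomic]
    have := Nat.totient_pos.mpr (by omega : 0 < n)
    exact_mod_cast this.ne'
  obtain ⟨ξ, hξ⟩ := h1.exists_eval_eq_zero h2
  have : NeZero (n : F) := ⟨by exact_mod_cast (by omega : n ≠ 0)⟩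
  exact ⟨ξ, isRoot_cyclotomic_iff.mp hξ⟩

/-- The order of an `m`-th power. -/
theorem ord_dvd (p : ℕ) [Fact p.Prime] (m l : ℕ) (hm : 1 ≤ m) (hmp : m ∣ p - 1) (x u : ZMod p)
    (hx : x ≠ 0) (hu : x = u ^ m) (hl : l ∣ orderOf x) : m * l ∣ p - 1 := by
  obtain ⟨k, hk⟩ := hmp
  have hu0 : u ≠ 0 := by
    rintro rfl
    rw [zero_pow (by omega)] at hu
    exact hx hu
  have h1 : x ^ k = 1 := by
    rw [hu, ← pow_mul, ← hk]
    exact ZMod.pow_card_sub_one_eq_one hu0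
  have h2 : l ∣ k := hl.trans (orderOf_dvd_of_pow_eq_one h1)
  rw [hk]
  exact Nat.mul_dvd_mul_left m h2

end JOr0

theorem prOr0 (hBau : StBau) (hEv1 : StEv1) (hSpl : StSpl) (hGenF : StGenF) (hDg : StDg) :
    StOr0 := by
  intro K _ _ l γ hl hγ hroot B
  obtain ⟨e, he⟩ := hDg K l γ hl hγ hroot
  obtain ⟨c, t, ht, hct⟩ := IsFractionRing.div_surjective (A := 𝓞 K) γ
  have ht0 : t ≠ 0 := nonZeroDivisors.ne_zero ht
  have htK : (t : K) ≠ 0 := by
    intro h
    exact ht0 (RingOfIntegers.coe_eq_zero_iff.mp h)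
  have hγt : γ * (t : K) = (c : K) := by
    rw [← hct]
    exact div_mul_cancel₀ _ htK
  have hc0 : c ≠ 0 := by
    intro h
    rw [h, map_zero, zero_div] at hct
    exact hγ hct.symm
  have hm : 1 ≤ l ^ e := Nat.one_le_pow _ _ hl.pos
  have hγ₁ : (((c * t ^ (l ^ e - 1) : 𝓞 K)) : K) = γ * (t : K) ^ (l ^ e) := by
    have h0 : (((c * t ^ (l ^ e - 1) : 𝓞 K)) : K) = (c : K) * (t : K) ^ (l ^ e - 1) := by
      have h1 := map_mul (algebraMap (𝓞 K) K) c (t ^ (l ^ e - 1))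
      rw [map_pow] at h1
      exact h1
    have : (t : K) ^ (l ^ e) = (t : K) * (t : K) ^ (l ^ e - 1) := by
      rw [← pow_succ']
      congr 1
      omega
    rw [h0, this, ← hγt]
    ring
  obtain ⟨ζ, α, hζ, hα, hadj⟩ := hGenF K (l ^ e) γ (c * t ^ (l ^ e - 1)) t hm hγ ht0 hγ₁
  obtain ⟨B1, hB1⟩ := (hEv1 K).2 c hc0
  obtain ⟨B2, hB2⟩ := (hEv1 K).2 t ht0
  by_contra hcon
  push Not at hcon
  have hmon1 : ∀ (R : Type) [CommRing R], (X ^ (l ^ e) - 1 : R[X]).Monic := by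
    intro R _
    have := monic_X_pow_sub_C (1 : R) (by omega : l ^ e ≠ 0)
    rwa [C_1] at this
  have hmon2 : ∀ (R : Type) [CommRing R] (a : R), (X ^ (l ^ e) - C a : R[X]).Monic :=
    fun R _ a => monic_X_pow_sub_C a (by omega)
  have hm' : 1 ≤ l ^ (e + 1) := Nat.one_le_pow _ _ hl.pos
  have hmon3 : (X ^ (l ^ (e + 1)) - 1 : (𝓞 K)[X]).Monic := by
    have := monic_X_pow_sub_C (1 : 𝓞 K) (by omega : l ^ (e + 1) ≠ 0)
    rwa [C_1] at this
  have hsp := hBau K ((X ^ (l ^ e) - 1) * (X ^ (l ^ e) - C (c * t ^ (l ^ e - 1))))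
    (X ^ (l ^ (e + 1)) - 1) ((hmon1 _).mul (hmon2 _ _)) hmon3
    ⟨B + B1 + B2 + l ^ (e + 1), fun p hp hBp φ hP => ?_⟩
  · simp only [Polynomial.map_sub, Polynomial.map_pow, Polynomial.map_X, Polynomial.map_one]
      at hsp
    obtain ⟨ξ, hξ⟩ := JOr0.exists_prim _ _ hm' hsp
    exact he _ ζ α ξ hζ hα hadj hξ
  · have : Fact p.Prime := ⟨hp⟩
    have hle : l ^ e ≤ l ^ (e + 1) := Nat.pow_le_pow_right hl.pos (by omega)
    simp only [Polynomial.map_mul, Polynomial.map_sub, Polynomial.map_pow, Polynomial.map_X,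
      Polynomial.map_one, Polynomial.map_C] at hP ⊢
    obtain ⟨hP1, hP2⟩ := (splits_mul (hmon1 _).ne_zero (hmon2 _ _).ne_zero).mp hP
    have hS := hSpl p (l ^ e) hm (by omega)
    have hdiv := hS.1.mp hP1
    obtain ⟨s, hs⟩ := (hS.2 _).1 hP2
    apply (hSpl p (l ^ (e + 1)) hm' (by omega)).1.mpr
    have hφc := hB1 p (by omega) φ
    have hφt := hB2 p (by omega) φ
    have hev : ev φ γ = φ c * (φ t)⁻¹ := (hEv1 K).1 p φ γ c t hφt hγt
    have hev0 : ev φ γ ≠ 0 := by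
      rw [hev]
      exact mul_ne_zero hφc (inv_ne_zero hφt)
    have hord := hcon p ⟨hp⟩ φ (by omega) hev0
    have hu : ev φ γ = (s * (φ t)⁻¹) ^ (l ^ e) := by
      have h1 : (φ t) ^ (l ^ e) = φ t * (φ t) ^ (l ^ e - 1) := by
        rw [← pow_succ']
        congr 1
        omega
      rw [mul_pow, ← hs, hev, map_mul, map_pow, mul_assoc, inv_pow, h1]
      congr 1
      field_simp
    have := JOr0.ord_dvd p (l ^ e) l hm hdiv _ _ hev0 hu hord
    rwa [← pow_succ] at this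

end Pool.Agent.Work.MP_8d13b5_lc.LG
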