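import Pool.Agent.Work.MP_8d13b5_lc.LG.StmtsK

/-!
# MP_8d13b5_lc, block LG, item Or2
-/

set_option autoImplicit false

open Polynomial NumberField Module

namespace Pool.Agent.Work.MP_8d13b5_lc.LG

namespace JOr2

/-- divisibility: `l ^ 2` does not divide `o`, `o ∣ l ^ b * w`, `l ∣ w`, so `o ∣ w` -/
theorem dvd_aux (l b o w : ℕ) (hl : l.Prime) (ho : ¬ l ^ 2 ∣ o) (h1 : o ∣ l ^ b * w)
    (h2 : l ∣ w) : o ∣ w := by
  by_cases h3 : l ∣ o
  · obtain ⟨o', rfl⟩ := h3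
    have h4 : ¬ l ∣ o' := by
      intro h5
      apply ho
      rw [pow_two]
      exact Nat.mul_dvd_mul_left l h5
    have h5 : Nat.Coprime l o' := (Nat.Prime.coprime_iff_not_dvd hl).2 h4
    have h6 : o' ∣ l ^ b * w := (Dvd.intro_left l rfl).trans h1
    have h7 : o' ∣ w := (Nat.Coprime.pow_right b h5.symm).dvd_of_dvd_mul_left h6
    exact Nat.Coprime.mul_dvd_of_dvd_of_dvd h5 h2 h7
  · have h5 : Nat.Coprime o l := ((Nat.Prime.coprime_iff_not_dvd hl).2 h3).symm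
    exact (Nat.Coprime.pow_right b h5).dvd_of_dvd_mul_left h1

/-- powers in a finite cyclic group -/
theorem pow_aux {G : Type} [Group G] [Finite G] [IsCyclic G] (m w : ℕ) (hw : 1 ≤ w)
    (hG : Nat.card G = m * w) (x : G) (hx : x ^ w = 1) : ∃ y, x = y ^ m := by
  obtain ⟨g, hg⟩ := IsCyclic.exists_generator (α := G)
  have ho : orderOf g = m * w := by
    rw [← hG]
    exact orderOf_eq_card_of_forall_mem_zpowers hg
  have hm := mem_powers_iff_mem_zpowers.2 (hg x)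
  obtain ⟨i, hi⟩ := hm
  have hi' : g ^ i = x := hi
  rw [← hi', ← pow_mul] at hx
  have h1 := orderOf_dvd_of_pow_eq_one hx
  rw [ho] at h1
  obtain ⟨j, rfl⟩ := Nat.dvd_of_mul_dvd_mul_right (by omega) h1
  refine ⟨g ^ j, ?_⟩
  rw [← hi', ← pow_mul, mul_comm]

theorem zmod_aux (p : ℕ) [Fact p.Prime] (l b : ℕ) (hl : l.Prime) (h1 : l ^ (b + 1) ∣ p - 1)
    (x : ZMod p) (hx : x ≠ 0) (ho : ¬ l ^ 2 ∣ orderOf x) : ∃ y, x = y ^ (l ^ b) := by
  have hp : 2 ≤ p := (Fact.out : p.Prime).two_le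
  obtain ⟨w', hw'⟩ := h1
  have hw : p - 1 = l ^ b * (l * w') := by
    rw [hw', pow_succ, mul_assoc]
  set u : (ZMod p)ˣ := Units.mk0 x hx with hu
  have hou : orderOf u = orderOf x := by
    rw [← orderOf_units]
    rfl
  have hdv : orderOf x ∣ l ^ b * (l * w') := by
    rw [← hw]
    exact orderOf_dvd_of_pow_eq_one (ZMod.pow_card_sub_one_eq_one hx)
  have h2 := dvd_aux l b _ _ hl ho hdv (Dvd.intro _ rfl)
  have h3 : 1 ≤ l * w' := by
    rcases Nat.eq_zero_or_pos (l * w') with h4 | h4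
    · rw [h4, mul_zero] at hw
      omega
    · exact h4
  have hcard : Nat.card (ZMod p)ˣ = l ^ b * (l * w') := by
    rw [← hw, Nat.card_eq_fintype_card, ZMod.card_units]
  have h5 : u ^ (l * w') = 1 := by
    rw [← hou] at h2
    exact orderOf_dvd_iff_pow_eq_one.1 h2
  obtain ⟨y, hy⟩ := pow_aux (l ^ b) (l * w') h3 hcard u h5
  refine ⟨(y : ZMod p), ?_⟩
  have h6 := congrArg (fun v : (ZMod p)ˣ => (v : ZMod p)) hy
  simpa [hu] using h6

/-- the splitting field of `X ^ n - 1` is generated by a primitive root -/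
theorem adj_aux (K F : Type) [Field K] [CharZero K] [Field F] [Algebra K F] (n : ℕ) (hn : 1 ≤ n)
    [hF : IsSplittingField K F (X ^ n - 1 : K[X])] :
    ∃ ζ : F, IsPrimitiveRoot ζ n ∧ IntermediateField.adjoin K {ζ} = ⊤ := by
  have hcz : CharZero F := charZero_of_injective_algebraMap (algebraMap K F).injective
  have hne : NeZero ((n : ℕ) : F) := ⟨by
    have : n ≠ 0 := by omega
    exact_mod_cast this⟩
  have hsp : (X ^ n - 1 : F[X]).Splits := by
    have := hF.splits'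
    rwa [Polynomial.map_sub, Polynomial.map_pow, map_X, Polynomial.map_one] at this
  have h0 : (X ^ n - 1 : F[X]) ≠ 0 := (monic_X_pow_sub_C (1 : F) (by omega)).ne_zero
  have hcy : (cyclotomic n F).Splits := Splits.of_dvd hsp h0 (cyclotomic.dvd_X_pow_sub_one n F)
  have hdeg : (cyclotomic n F).degree ≠ 0 := by
    rw [degree_cyclotomic]
    have := Nat.totient_pos.2 (by omega : 0 < n)
    exact_mod_cast this.ne'
  obtain ⟨ζ, hζ⟩ := Splits.exists_eval_eq_zero hcy hdeg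
  have hζp : IsPrimitiveRoot ζ n := (isRoot_cyclotomic_iff).1 hζ
  refine ⟨ζ, hζp, ?_⟩
  have h1 : Algebra.adjoin K ((X ^ n - 1 : K[X]).rootSet F) ≤
      (IntermediateField.adjoin K {ζ}).toSubalgebra := by
    rw [Algebra.adjoin_le_iff]
    intro r hr
    have h2 := (mem_rootSet.1 hr).2
    rw [map_sub, map_pow, aeval_X, map_one, sub_eq_zero] at h2
    have : NeZero n := ⟨by omega⟩
    obtain ⟨i, _, hi⟩ := hζp.eq_pow_of_pow_eq_one h2
    have h3 : ζ ∈ IntermediateField.adjoin K {ζ} :=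
      IntermediateField.mem_adjoin_simple_self K ζ
    have h4 := pow_mem h3 i
    rw [hi] at h4
    exact h4
  rw [hF.adjoin_rootSet'] at h1
  rw [eq_top_iff]
  intro x _
  exact h1 Algebra.mem_top

end JOr2

open JOr2 in
theorem prOr2 (hBau : StBau) (hEv1 : StEv1) (hSpl : StSpl) (hAB : StAB) : StOr2 := by
  intro K _ _ l δ hl hδ hru B
  obtain ⟨b, hb⟩ := hAB K l δ hl hδ hru
  by_contra hcon
  push Not at hcon
  obtain ⟨c, t, ht, hct⟩ := IsFractionRing.div_surjective (A := 𝓞 K) δ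
  have ht0 : t ≠ 0 := nonZeroDivisors.ne_zero ht
  have hct' : (c : K) / (t : K) = δ := hct
  have htK : (t : K) ≠ 0 := by
    intro h
    exact ht0 (FaithfulSMul.algebraMap_injective (𝓞 K) K (by rw [map_zero]; exact h))
  have hδt : δ * (t : K) = (c : K) := by
    rw [← hct', div_mul_cancel₀ _ htK]
  have hc0 : c ≠ 0 := by
    rintro rfl
    apply hδ
    rw [← hct']
    simp
  have hlb : 1 ≤ l ^ b := Nat.one_le_pow _ _ hl.pos
  have hlb1 : 1 ≤ l ^ (b + 1) := Nat.one_le_pow _ _ hl.pos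
  set δ₁ : 𝓞 K := c * t ^ (l ^ b - 1) with hδ₁
  have hδ₁K : (δ₁ : K) = δ * (t : K) ^ (l ^ b) := by
    have e : l ^ b = (l ^ b - 1) + 1 := by omega
    rw [hδ₁, e, pow_succ, ← e, mul_comm ((t : K) ^ (l ^ b - 1)), ← mul_assoc, hδt]
    simp
  set P : (𝓞 K)[X] := X ^ (l ^ (b + 1)) - 1 with hP
  set Q : (𝓞 K)[X] := X ^ (l ^ b) - C δ₁ with hQ
  have hPm : P.Monic := monic_X_pow_sub_C (1 : 𝓞 K) (by omega)
  have hQm : Q.Monic := monic_X_pow_sub_C δ₁ (by omega)
  obtain ⟨B₁, hB₁⟩ := (hEv1 K).2 (c * t) (mul_ne_zero hc0 ht0)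
  have key := hBau K P Q hPm hQm ⟨max (max B B₁) (l ^ (b + 1)), by
    intro p hp hBp φ hsP
    have : Fact p.Prime := ⟨hp⟩
    have hpB : B < p := lt_of_le_of_lt ((le_max_left _ _).trans (le_max_left _ _)) hBp
    have hpB1 : B₁ < p := lt_of_le_of_lt ((le_max_right _ _).trans (le_max_left _ _)) hBp
    have hpl : l ^ (b + 1) < p := lt_of_le_of_lt (le_max_right _ _) hBp
    have hpl' : l ^ b < p := lt_of_le_of_lt (Nat.pow_le_pow_right hl.pos (by omega)) hpl
    have hφ := hB₁ p hpB1 φ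
    rw [map_mul] at hφ
    have hφc : φ c ≠ 0 := left_ne_zero_of_mul hφ
    have hφt : φ t ≠ 0 := right_ne_zero_of_mul hφ
    have hev : ev φ δ = φ c * (φ t)⁻¹ := (hEv1 K).1 p φ δ c t hφt hδt
    have hev0 : ev φ δ ≠ 0 := by
      rw [hev]
      exact mul_ne_zero hφc (inv_ne_zero hφt)
    have hPφ : P.map φ = X ^ (l ^ (b + 1)) - 1 := by
      rw [hP, Polynomial.map_sub, Polynomial.map_pow, map_X, Polynomial.map_one]
    rw [hPφ] at hsP
    have hdv : l ^ (b + 1) ∣ p - 1 := ((hSpl p (l ^ (b + 1)) hlb1 hpl).1).1 hsP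
    have hdv' : l ^ b ∣ p - 1 := (pow_dvd_pow l (by omega)).trans hdv
    have hord := hcon p ⟨hp⟩ φ hpB hev0
    obtain ⟨y, hy⟩ := zmod_aux p l b hl hdv (ev φ δ) hev0 hord
    have hQφ : Q.map φ = X ^ (l ^ b) - C (φ δ₁) := by
      rw [hQ, Polynomial.map_sub, Polynomial.map_pow, map_X, map_C]
    rw [hQφ]
    refine ((hSpl p (l ^ b) hlb hpl').2 (φ δ₁)).2 hdv' ⟨y * φ t, ?_⟩
    rw [mul_pow, ← hy, hev, hδ₁, map_mul, map_pow]
    have e : l ^ b = (l ^ b - 1) + 1 := by omega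
    have e2 : φ t ^ (l ^ b) = φ t ^ (l ^ b - 1) * φ t := by
      rw [← pow_succ, ← e]
    rw [e2]
    field_simp⟩
  -- the root
  have hPK : P.map (algebraMap (𝓞 K) K) = X ^ (l ^ (b + 1)) - 1 := by
    rw [hP, Polynomial.map_sub, Polynomial.map_pow, map_X, Polynomial.map_one]
  have hQK : (Q.map (algebraMap (𝓞 K) K)) = X ^ (l ^ b) - C (δ₁ : K) := by
    rw [hQ, Polynomial.map_sub, Polynomial.map_pow, map_X, map_C]
  generalize hR : P.map (algebraMap (𝓞 K) K) = R at key hPK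
  subst hPK
  rw [hQK, Polynomial.map_sub, Polynomial.map_pow, map_X, map_C] at key
  obtain ⟨ζ, hζ, hadj⟩ := adj_aux K (X ^ (l ^ (b + 1)) - 1 : K[X]).SplittingField
    (l ^ (b + 1)) hlb1
  have hdeg : (X ^ (l ^ b) - C (algebraMap K (X ^ (l ^ (b + 1)) - 1 : K[X]).SplittingField
      (δ₁ : K))).degree ≠ 0 := by
    rw [degree_X_pow_sub_C (by omega)]
    exact_mod_cast (by omega : l ^ b ≠ 0)
  obtain ⟨ρ, hρ⟩ := Splits.exists_eval_eq_zero key hdeg
  rw [eval_sub, eval_pow, eval_X, eval_C, sub_eq_zero] at hρ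
  have htF : algebraMap K (X ^ (l ^ (b + 1)) - 1 : K[X]).SplittingField (t : K) ≠ 0 := by
    rw [Ne, map_eq_zero]
    exact htK
  refine hb (b + 1) _ ζ (ρ / algebraMap K _ (t : K)) hζ ?_ ?_
  · rw [hadj]
    exact IntermediateField.mem_top
  · rw [div_pow, hρ, hδ₁K, map_mul, map_pow, mul_div_assoc, div_self (pow_ne_zero _ htF), mul_one]

end Pool.Agent.Work.MP_8d13b5_lc.LG
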