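import Pool.Agent.Work.MP_8d13b5_lc.LG.Stmts

set_option autoImplicit false

/-!
MP_8d13b5_lc, block LG, item Per: facts modulo good primes.
-/

open Polynomial Filter Topology NumberField

namespace Pool.Agent.Work.MP_8d13b5_lc.LG

namespace JPer

theorem mapW (f : ℤ[X]) (p n : ℕ) (hf : f.Monic) :
    (W f n).map (Int.castRingHom (ZMod p)) = X ^ n %ₘ f.map (Int.castRingHom (ZMod p)) := by
  rw [W, Polynomial.map_modByMonic _ hf, Polynomial.map_pow, Polynomial.map_X]

theorem cop {p : ℕ} [Fact p.Prime] (F : (ZMod p)[X]) (h0 : F.coeff 0 ≠ 0) : IsCoprime F X := by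
  have h := (Polynomial.irreducible_X (R := ZMod p)).coprime_iff_not_dvd (n := F)
  exact (h.mpr (fun hd => h0 (Polynomial.X_dvd_iff.mp hd))).symm

theorem dvdp {p : ℕ} [Fact p.Prime] (F : (ZMod p)[X]) (h0 : F.coeff 0 ≠ 0) (hs : F.Splits)
    (hsep : F.Separable) : F ∣ X ^ (p - 1) - 1 := by
  have hp : p.Prime := Fact.out
  have hF0 : F ≠ 0 := by
    intro h
    rw [h] at h0
    simp at h0
  have h1 : F ∣ X ^ p - X := by
    apply hs.dvd_of_roots_le_roots hF0
    have h2 := FiniteField.roots_X_pow_card_sub_X (ZMod p)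
    rw [ZMod.card] at h2
    rw [h2, Multiset.le_iff_subset (Polynomial.nodup_roots hsep)]
    intro x _
    exact Finset.mem_univ x
  have h3 : (X : (ZMod p)[X]) ^ p - X = X * (X ^ (p - 1) - 1) := by
    have h4 : (X : (ZMod p)[X]) ^ p = X ^ ((p - 1) + 1) := by
      congr 1
      exact (Nat.succ_pred_eq_of_pos hp.pos).symm
    rw [h4]
    ring
  rw [h3] at h1
  exact (cop F h0).dvd_of_dvd_mul_left h1

end JPer

theorem prPer : StPer := by
  intro f p hf hd hg
  obtain ⟨hp, h0, hs, hsep⟩ := hg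
  haveI : Fact p.Prime := ⟨hp⟩
  set F := f.map (Int.castRingHom (ZMod p)) with hF
  have hFm : F.Monic := hf.map _
  have hFd : F.natDegree = f.natDegree := hf.natDegree_map _
  have hF0 : F.coeff 0 ≠ 0 := by
    rw [hF, Polynomial.coeff_map, eq_intCast, Ne, ZMod.intCast_zmod_eq_zero_iff_dvd]
    exact h0
  refine ⟨?_, ?_, ?_⟩
  · intro n
    rw [JPer.mapW f p _ hf, JPer.mapW f p _ hf, ← hF]
    refine Polynomial.modByMonic_eq_of_dvd_sub hFm ?_
    have h1 : (X : (ZMod p)[X]) ^ (n + (p - 1)) - X ^ n = X ^ n * (X ^ (p - 1) - 1) := by ring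
    rw [h1]
    exact Dvd.dvd.mul_left (JPer.dvdp F hF0 hs hsep) _
  · intro n h
    rw [JPer.mapW f p _ hf, ← hF, Polynomial.modByMonic_eq_zero_iff_dvd hFm] at h
    have h1 : IsCoprime F (X ^ n) := (JPer.cop F hF0).pow_right
    have h2 : IsUnit F := h1.isUnit_of_dvd' dvd_rfl h
    have h3 := Polynomial.natDegree_eq_zero_of_isUnit h2
    omega
  · intro n
    rw [JPer.mapW f p _ hf, ← hF]
    have h1 := Polynomial.modByMonic_add_div ((X : (ZMod p)[X]) ^ n) F
    exact ⟨X ^ n /ₘ F, by rw [sub_eq_iff_eq_add']; exact h1.symm⟩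

end Pool.Agent.Work.MP_8d13b5_lc.LG
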