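import Pool.Agent.Work.MP_8d13b5_lc.LG.Stmts

set_option autoImplicit false

/-!
# MP_8d13b5_lc, block LG, item PerP: periodicity for a set of good primes
-/

open Polynomial

namespace Pool.Agent.Work.MP_8d13b5_lc.LG

namespace JPerP

theorem per_mul (hPer : StPer) (f : ℤ[X]) (p : ℕ) (hf : f.Monic) (hd : 1 ≤ f.natDegree)
    (hp : Good f p) (n k : ℕ) :
    (W f (n + (p - 1) * k)).map (Int.castRingHom (ZMod p)) =
      (W f n).map (Int.castRingHom (ZMod p)) := by
  induction k with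
  | zero => rw [Nat.mul_zero, Nat.add_zero]
  | succ k ih =>
    rw [Nat.mul_succ, ← Nat.add_assoc, (hPer f p hf hd hp).1, ih]

theorem per (hPer : StPer) (f : ℤ[X]) (p : ℕ) (hf : f.Monic) (hd : 1 ≤ f.natDegree)
    (hp : Good f p) {n n' : ℕ} (h : n ≡ n' [MOD p - 1]) :
    (W f n).map (Int.castRingHom (ZMod p)) = (W f n').map (Int.castRingHom (ZMod p)) := by
  rcases le_total n n' with hle | hle
  · obtain ⟨k, hk⟩ := (Nat.modEq_iff_dvd' hle).1 h
    have h1 : n' = n + (p - 1) * k := by omega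
    rw [h1, per_mul hPer f p hf hd hp]
  · obtain ⟨k, hk⟩ := (Nat.modEq_iff_dvd' hle).1 h.symm
    have h1 : n = n' + (p - 1) * k := by omega
    rw [h1, per_mul hPer f p hf hd hp]

theorem cast_pr (p d : ℕ) (C : ℤ[X]) (x : Fin d → ℤ) : ((pr d C x : ℤ) : ZMod p) =
    ∑ i : Fin d, (C.map (Int.castRingHom (ZMod p))).coeff i * (x i : ZMod p) := by
  unfold pr
  rw [Int.cast_sum]
  refine Finset.sum_congr rfl fun i _ => ?_
  rw [Int.cast_mul, coeff_map, eq_intCast]

theorem dvd_iff (p d : ℕ) (C C' : ℤ[X]) (x : Fin d → ℤ)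
    (h : C.map (Int.castRingHom (ZMod p)) = C'.map (Int.castRingHom (ZMod p))) :
    (p : ℤ) ∣ pr d C x ↔ (p : ℤ) ∣ pr d C' x := by
  rw [← ZMod.intCast_zmod_eq_zero_iff_dvd, ← ZMod.intCast_zmod_eq_zero_iff_dvd, cast_pr, cast_pr, h]

theorem MP_dvd (P : Finset ℕ) (hP : ∀ p ∈ P, p.Prime) (z : ℤ) :
    (MP P : ℤ) ∣ z ↔ ∀ p ∈ P, (p : ℤ) ∣ z := by
  constructor
  · intro h p hp
    refine dvd_trans ?_ h
    unfold MP
    exact_mod_cast Finset.dvd_prod_of_mem (fun p : ℕ => p) hp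
  · intro h
    rw [Int.natCast_dvd]
    unfold MP
    exact Finset.prod_primes_dvd _ (fun p hp => (hP p hp).prime)
      (fun p hp => Int.natCast_dvd.1 (h p hp))

theorem par_of (f : ℤ[X]) (p : ℕ) (C : ℤ[X]) (n n' : ℕ)
    (h : f.map (Int.castRingHom (ZMod p)) ∣ (X : (ZMod p)[X]) ^ n - X ^ n')
    (hC : Par f p C n) : Par f p C n' := by
  obtain ⟨μ, hμ, hd⟩ := hC
  refine ⟨μ, hμ, ?_⟩
  have h1 : C.map (Int.castRingHom (ZMod p)) - Polynomial.C μ * X ^ n' =
      (C.map (Int.castRingHom (ZMod p)) - Polynomial.C μ * X ^ n) +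
        Polynomial.C μ * ((X : (ZMod p)[X]) ^ n - X ^ n') := by ring
  rw [h1]
  exact dvd_add hd (h.mul_left _)

end JPerP

theorem prPerP (hPer : StPer) : StPerP := by
  intro f P hf hd hP n n' hn
  have hmod : ∀ p ∈ P, n ≡ n' [MOD p - 1] := by
    intro p hp
    have h0 : p - 1 ∣ TP P := Finset.dvd_lcm (f := fun p : ℕ => p - 1) hp
    exact hn.of_dvd h0
  have hW : ∀ p ∈ P, (W f n).map (Int.castRingHom (ZMod p)) =
      (W f n').map (Int.castRingHom (ZMod p)) := by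
    intro p hp
    exact JPerP.per hPer f p hf hd (hP p hp) (hmod p hp)
  refine ⟨?_, ?_⟩
  · intro x
    have h1 : ∀ p ∈ P, ((p : ℤ) ∣ pr f.natDegree (W f n) x ↔
        (p : ℤ) ∣ pr f.natDegree (W f n') x) := by
      intro p hp
      exact JPerP.dvd_iff p _ _ _ x (hW p hp)
    refine ⟨h1, ?_⟩
    rw [JPerP.MP_dvd P (fun p hp => (hP p hp).1), JPerP.MP_dvd P (fun p hp => (hP p hp).1)]
    exact forall₂_congr h1
  · intro C
    have h2 : ∀ p ∈ P, (Par f p C n ↔ Par f p C n') := by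
      intro p hp
      have h3 := (hPer f p hf hd (hP p hp)).2.2 n
      have h4 := (hPer f p hf hd (hP p hp)).2.2 n'
      rw [← hW p hp] at h4
      have h5 : f.map (Int.castRingHom (ZMod p)) ∣ (X : (ZMod p)[X]) ^ n - X ^ n' := by
        have := dvd_sub h3 h4
        rwa [sub_sub_sub_cancel_right] at this
      refine ⟨JPerP.par_of f p C n n' h5, JPerP.par_of f p C n' n ?_⟩
      rw [← neg_sub, dvd_neg]
      exact h5
    refine ⟨h2, ?_⟩
    classical
    unfold NP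
    refine Finset.prod_congr (Finset.filter_congr fun p hp => ?_) fun _ _ => rfl
    rw [h2 p hp]

end Pool.Agent.Work.MP_8d13b5_lc.LG
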