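import Pool.Agent.Work.MP_8d13b5_lc.LG.Stmts

/-!
# MP_8d13b5_lc, block LG: item Perp
-/

set_option autoImplicit false

open Polynomial

namespace Pool.Agent.Work.MP_8d13b5_lc.LG

namespace JPerp

/-- forgetting the coordinate `i` -/
def pj (m : ℕ) (i : Fin (m + 1)) : (Fin (m + 1) → ℤ) →+ (Fin m → ℤ) where
  toFun x := fun j => x (i.succAbove j)
  map_zero' := rfl
  map_add' _ _ := rfl

/-- the partial pairing -/
def ps (m : ℕ) (i : Fin (m + 1)) (C : ℤ[X]) (y : Fin m → ℤ) : ℤ :=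
  ∑ j, C.coeff (i.succAbove j) * y j

theorem pr_eq (m : ℕ) (i : Fin (m + 1)) (C : ℤ[X]) (x : Fin (m + 1) → ℤ) :
    pr (m + 1) C x = C.coeff i * x i + ps m i C (pj m i x) := by
  unfold pr ps pj
  rw [Fin.sum_univ_succAbove _ i]
  rfl

/-- the functional modulo `h` -/
def psi (m : ℕ) (i : Fin (m + 1)) (C : ℤ[X]) (h : ℕ) : (Fin m → ℤ) →+ ZMod h where
  toFun y := ((ps m i C y : ℤ) : ZMod h)
  map_zero' := by simp [ps]
  map_add' x y := by
    rw [← Int.cast_add]
    congr 1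
    unfold ps
    simp only [Pi.add_apply, mul_add, Finset.sum_add_distrib]

theorem bezout (m : ℕ) (C : ℤ[X]) (hC : Prim (m + 1) C) :
    ∃ z : Fin (m + 1) → ℤ, pr (m + 1) C z = 1 := by
  obtain ⟨g, hg⟩ : ∃ g : ℤ, Ideal.span (Set.range fun j : Fin (m + 1) => C.coeff j) =
      Ideal.span {g} := by
    have := IsPrincipalIdealRing.principal
      (Ideal.span (Set.range fun j : Fin (m + 1) => C.coeff j))
    exact this.principal
  have h1 : ∀ n : ℕ, g ∣ C.coeff n := by
    intro n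
    by_cases hn : n < m + 1
    · have h2 : C.coeff n ∈ Ideal.span {g} := by
        rw [← hg]
        exact Ideal.subset_span ⟨⟨n, hn⟩, rfl⟩
      exact Ideal.mem_span_singleton.1 h2
    · rw [Polynomial.coeff_eq_zero_of_natDegree_lt (by have := hC.1; omega)]
      exact dvd_zero _
  have h2 : g ∣ 1 := by
    rw [← hC.2, Polynomial.dvd_content_iff_C_dvd, Polynomial.C_dvd_iff_dvd_coeff]
    exact h1
  have h3 : (1 : ℤ) ∈ Ideal.span (Set.range fun j : Fin (m + 1) => C.coeff j) := by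
    rw [hg, Ideal.mem_span_singleton]
    exact h2
  obtain ⟨z, hz⟩ := Ideal.mem_span_range_iff_exists_fun.1 h3
  refine ⟨z, ?_⟩
  unfold pr
  rw [← hz]
  exact Finset.sum_congr rfl (fun i _ => mul_comm _ _)

/-- the restriction of the projection -/
def gg (m : ℕ) (i : Fin (m + 1)) (C : ℤ[X]) : perp (m + 1) C →+ (Fin m → ℤ) :=
  (pj m i).comp (perp (m + 1) C).subtype

theorem dvd_iff (C : ℤ[X]) (m h : ℕ) (i : Fin (m + 1)) (hi : (C.coeff i).natAbs = h) (a : ℤ) :
    (a : ZMod h) = 0 ↔ C.coeff i ∣ a := by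
  rw [ZMod.intCast_zmod_eq_zero_iff_dvd, ← hi, Int.natAbs_dvd]

theorem gg_inj (m : ℕ) (i : Fin (m + 1)) (C : ℤ[X]) (hi : C.coeff i ≠ 0) :
    Function.Injective (gg m i C) := by
  rw [injective_iff_map_eq_zero]
  intro x hx
  have h1 : pr (m + 1) C x.1 = 0 := x.2
  have h2 : pj m i x.1 = 0 := hx
  rw [pr_eq m i C, h2] at h1
  have h3 : ps m i C 0 = 0 := by simp [ps]
  rw [h3, add_zero] at h1
  have h4 : x.1 i = 0 := by
    rcases mul_eq_zero.1 h1 with h5 | h5
    · exact absurd h5 hi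
    · exact h5
  apply Subtype.ext
  funext j
  by_cases hj : j = i
  · rw [hj, h4]
    rfl
  · obtain ⟨k, rfl⟩ := Fin.exists_succAbove_eq hj
    exact congrFun h2 k

theorem range_eq (m h : ℕ) (i : Fin (m + 1)) (C : ℤ[X]) (hi : (C.coeff i).natAbs = h) :
    (gg m i C).range = (psi m i C h).ker := by
  ext y
  rw [AddMonoidHom.mem_range, AddMonoidHom.mem_ker]
  change _ ↔ ((ps m i C y : ℤ) : ZMod h) = 0
  rw [dvd_iff C m h i hi]
  constructor
  · rintro ⟨x, rfl⟩
    have h1 : pr (m + 1) C x.1 = 0 := x.2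
    rw [pr_eq m i C] at h1
    refine ⟨-x.1 i, ?_⟩
    change ps m i C (pj m i x.1) = _
    linarith
  · rintro ⟨t, ht⟩
    have hpj : pj m i (i.insertNth (-t) y : Fin (m + 1) → ℤ) = y := by
      funext j
      change (i.insertNth (-t) y : Fin (m + 1) → ℤ) (i.succAbove j) = y j
      rw [Fin.insertNth_apply_succAbove]
    refine ⟨⟨(i.insertNth (-t) y : Fin (m + 1) → ℤ), ?_⟩, hpj⟩
    change pr (m + 1) C _ = 0
    rw [pr_eq m i C, hpj, ht, Fin.insertNth_apply_same]
    ring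

theorem psi_surj (m h : ℕ) (i : Fin (m + 1)) (C : ℤ[X]) (hC : Prim (m + 1) C)
    (hi : (C.coeff i).natAbs = h) : Function.Surjective (psi m i C h) := by
  obtain ⟨z, hz⟩ := bezout m C hC
  have h1 : psi m i C h (pj m i z) = 1 := by
    change ((ps m i C (pj m i z) : ℤ) : ZMod h) = 1
    have h2 : ps m i C (pj m i z) = 1 - C.coeff i * z i := by
      rw [pr_eq m i C] at hz
      linarith
    have h3 : ((C.coeff i * z i : ℤ) : ZMod h) = 0 := by
      rw [dvd_iff C m h i hi]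
      exact dvd_mul_right _ _
    rw [h2, Int.cast_sub, h3, sub_zero, Int.cast_one]
  intro a
  obtain ⟨k, rfl⟩ := ZMod.intCast_surjective a
  refine ⟨k • pj m i z, ?_⟩
  rw [map_zsmul, h1, zsmul_eq_mul, mul_one]

theorem index_range (m h : ℕ) (i : Fin (m + 1)) (C : ℤ[X]) (hC : Prim (m + 1) C)
    (hi : (C.coeff i).natAbs = h) : (gg m i C).range.index = h := by
  rw [range_eq m h i C hi, AddSubgroup.index_ker, AddMonoidHom.range_eq_top.2
    (psi_surj m h i C hC hi)]
  rw [AddSubgroup.card_top, Nat.card_zmod]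

end JPerp

open JPerp in
theorem prPerp (hLat : StLat) : StPerp := by
  intro d hd
  obtain ⟨m, rfl⟩ : ∃ m, d = m + 1 := ⟨d - 1, by omega⟩
  obtain ⟨c, hc, hcL⟩ := hLat m
  refine ⟨c, hc, ?_⟩
  intro C hC L H hLp hrel hH
  obtain ⟨i, -, hi⟩ := Finset.exists_mem_eq_sup (Finset.univ : Finset (Fin (m + 1)))
    Finset.univ_nonempty (fun i => (C.coeff i).natAbs)
  have hi' : (C.coeff i).natAbs = hgt (m + 1) C := hi.symm
  have hpos : hgt (m + 1) C ≠ 0 := by
    intro h0
    have h1 : C = 0 := by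
      ext n
      rw [coeff_zero]
      by_cases hn : n < m + 1
      · have h2 : (C.coeff n).natAbs ≤ hgt (m + 1) C :=
          Finset.le_sup (f := fun i : Fin (m + 1) => (C.coeff i).natAbs)
            (Finset.mem_univ (⟨n, hn⟩ : Fin (m + 1)))
        rw [h0] at h2
        exact Int.natAbs_eq_zero.1 (Nat.le_zero.1 h2)
      · exact coeff_eq_zero_of_natDegree_lt (by have := hC.1; omega)
    have h2 := hC.2
    rw [h1, content_zero] at h2
    exact zero_ne_one h2
  have hci : C.coeff i ≠ 0 := by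
    intro h0
    rw [h0] at hi'
    exact hpos hi'.symm
  -- the image
  have hidx : ((L.addSubgroupOf (perp (m + 1) C)).map (gg m i C)).index =
      L.relIndex (perp (m + 1) C) * hgt (m + 1) C := by
    rw [AddSubgroup.index_map_of_injective _ (gg_inj m i C hci), index_range m _ i C hC hi']
    rfl
  have hne : ((L.addSubgroupOf (perp (m + 1) C)).map (gg m i C)).index ≠ 0 := by
    rw [hidx]
    exact mul_ne_zero hrel hpos
  have hcount := hcL _ H hne hH
  have hle : Set.ncard {x | x ∈ Bx (m + 1) H ∧ x ∈ L} ≤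
      Set.ncard {y | y ∈ Bx m H ∧ y ∈ (L.addSubgroupOf (perp (m + 1) C)).map (gg m i C)} := by
    refine Set.ncard_le_ncard_of_injOn (pj m i) ?_ ?_ ?_
    · rintro x ⟨hx1, hx2⟩
      refine ⟨?_, ?_⟩
      · rw [Bx, Fintype.mem_piFinset] at hx1 ⊢
        intro j
        exact hx1 (i.succAbove j)
      · exact ⟨⟨x, hLp hx2⟩, hx2, rfl⟩
    · rintro x ⟨_, hx2⟩ y ⟨_, hy2⟩ hxy
      have h1 := gg_inj m i C hci (a₁ := ⟨x, hLp hx2⟩) (a₂ := ⟨y, hLp hy2⟩) hxy
      exact congrArg Subtype.val h1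
    · exact ((Bx m H).finite_toSet).subset (fun y hy => hy.1)
  have hleR : (Set.ncard {x | x ∈ Bx (m + 1) H ∧ x ∈ L} : ℝ) ≤
      (Set.ncard {y | y ∈ Bx m H ∧
        y ∈ (L.addSubgroupOf (perp (m + 1) C)).map (gg m i C)} : ℝ) := by
    exact_mod_cast hle
  refine hleR.trans (hcount.trans ?_)
  rw [hidx]
  obtain ⟨k, rfl⟩ : ∃ k, m = k + 1 := ⟨m - 1, by omega⟩
  have hHR : (0 : ℝ) < H := by exact_mod_cast hH
  have h1 : (H : ℝ) ^ (k + 1) / H = (H : ℝ) ^ k := by
    rw [pow_succ]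
    field_simp
  rw [h1]
  push_cast
  rw [mul_comm (L.relIndex (perp (k + 1 + 1) C) : ℝ)]

end Pool.Agent.Work.MP_8d13b5_lc.LG
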