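import Pool.Agent.Work.MP_8d13b5_lc.LG.StmtsK

set_option autoImplicit false

/-!
# Block LG, part K, item Pig: the pigeonhole argument for Schinzel's theorem
-/

namespace Pool.Agent.Work.MP_8d13b5_lc.LG

open Polynomial NumberField Module

namespace JPig

/-- reduction of the exponent -/
lemma red (K : Type) [Field K] (g γ : K) (l : ℕ) (hl : l.Prime)
    (H : ∃ (n : ℕ) (b : K), g = γ ^ n * b ^ l) :
    ∃ (n : ℕ) (b : K), n < l ∧ g = γ ^ n * b ^ l := by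
  obtain ⟨n, b, h⟩ := H
  refine ⟨n % l, γ ^ (n / l) * b, Nat.mod_lt _ hl.pos, ?_⟩
  rw [mul_pow, ← mul_assoc, ← pow_mul, ← pow_add, h]
  congr 2
  have := Nat.mod_add_div n l
  rw [Nat.mul_comm (n / l) l]
  omega

/-- a common denominator -/
lemma den (K : Type) [Field K] [NumberField K] (x y : K) :
    ∃ D : ℕ, 1 ≤ D ∧ IsIntegral ℤ ((D : K) * x) ∧ IsIntegral ℤ ((D : K) * y) := by
  classical
  obtain ⟨z, hz0, hz⟩ := exists_integral_multiples ℤ ℚ ({x, y} : Finset K)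
  refine ⟨z.natAbs, Nat.one_le_iff_ne_zero.2 (Int.natAbs_ne_zero.2 hz0), ?_, ?_⟩
  · have h1 := hz x (by simp)
    rcases Int.natAbs_eq z with h | h
    · rw [h] at h1
      simpa [zsmul_eq_mul] using h1
    · rw [h] at h1
      have h2 := h1.neg
      simpa [zsmul_eq_mul] using h2
  · have h1 := hz y (by simp)
    rcases Int.natAbs_eq z with h | h
    · rw [h] at h1
      simpa [zsmul_eq_mul] using h1
    · rw [h] at h1
      have h2 := h1.neg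
      simpa [zsmul_eq_mul] using h2

/-- the roots have bounded denominators -/
lemma int (K : Type) [Field K] [NumberField K] (g γ b : K) (hγ : γ ≠ 0) (D n l : ℕ)
    (hnl : n < l) (h1 : IsIntegral ℤ ((D : K) * g)) (h2 : IsIntegral ℤ ((D : K) * γ⁻¹))
    (h : g = γ ^ n * b ^ l) : IsIntegral ℤ (((D ^ 2 : ℕ) : K) * b) := by
  apply IsIntegral.of_pow (n := l) (by omega)
  have hD : IsIntegral ℤ (D : K) := by
    have := isIntegral_algebraMap (R := ℤ) (A := K) (x := (D : ℤ))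
    simpa using this
  have h3 : (((D ^ 2 : ℕ) : K) * b) ^ l =
      (D : K) ^ (2 * l - 1 - n) * (((D : K) * g) * ((D : K) * γ⁻¹) ^ n) := by
    have h4 : b ^ l = g * γ⁻¹ ^ n := by
      rw [h]
      have : γ ^ n ≠ 0 := pow_ne_zero _ hγ
      rw [inv_pow]
      field_simp
    have h5 : ((D : K) ^ 2) ^ l = (D : K) ^ (2 * l - 1 - n) * (D : K) * (D : K) ^ n := by
      rw [← pow_mul, ← pow_succ, ← pow_add]
      congr 1
      omega
    push_cast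
    rw [mul_pow, h4, h5, mul_pow]
    ring
  rw [h3]
  exact (hD.pow _).mul (h1.mul (h2.pow _))

/-- the conjugates of the roots are bounded -/
lemma bnd (K : Type) [Field K] (g γ b : K) (hγ : γ ≠ 0) (n l : ℕ)
    (hnl : n < l) (h : g = γ ^ n * b ^ l) (σ : K →+* ℂ) :
    ‖σ b‖ ≤ (1 + ‖σ g‖) * (1 + ‖σ γ⁻¹‖) := by
  have h4 : b ^ l = g * γ⁻¹ ^ n := by
    rw [h]
    have : γ ^ n ≠ 0 := pow_ne_zero _ hγ
    rw [inv_pow]
    field_simp
  have h5 : ‖σ b‖ ^ l = ‖σ g‖ * ‖σ γ⁻¹‖ ^ n := by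
    rw [← norm_pow, ← map_pow, h4, map_mul, norm_mul, map_pow, norm_pow]
  have hA : 1 ≤ 1 + ‖σ g‖ := by linarith [norm_nonneg (σ g)]
  have hB : 1 ≤ 1 + ‖σ γ⁻¹‖ := by linarith [norm_nonneg (σ γ⁻¹)]
  have h6 : ‖σ b‖ ^ l ≤ ((1 + ‖σ g‖) * (1 + ‖σ γ⁻¹‖)) ^ l := by
    rw [h5, mul_pow]
    apply mul_le_mul _ _ (by positivity) (by positivity)
    · calc ‖σ g‖ ≤ 1 + ‖σ g‖ := by linarith
        _ ≤ (1 + ‖σ g‖) ^ l := le_self_pow₀ hA (by omega)
    · calc ‖σ γ⁻¹‖ ^ n ≤ (1 + ‖σ γ⁻¹‖) ^ n :=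
            pow_le_pow_left₀ (norm_nonneg _) (by linarith) _
        _ ≤ (1 + ‖σ γ⁻¹‖) ^ l := pow_le_pow_right₀ hB hnl.le
  exact le_of_pow_le_pow_left₀ (by omega) (by positivity) h6

/-- two equal roots give a relation -/
lemma fin (K : Type) [Field K] (g γ b : K) (hg : g ≠ 0) (hγ : γ ≠ 0) (n n' l l' : ℕ)
    (hll : l < l') (h : g = γ ^ n * b ^ l) (h' : g = γ ^ n' * b ^ l') :
    ∃ (S : ℕ) (m : ℤ), 1 ≤ S ∧ g ^ S = γ ^ m := by
  refine ⟨l' - l, ((n * l' : ℕ) : ℤ) - ((n' * l : ℕ) : ℤ), by omega, ?_⟩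
  rw [zpow_sub₀ hγ, zpow_natCast, zpow_natCast]
  have hγ' : γ ^ (n' * l) ≠ 0 := pow_ne_zero _ hγ
  rw [eq_div_iff hγ']
  have hgl : g ^ l ≠ 0 := pow_ne_zero _ hg
  apply mul_right_cancel₀ hgl
  have e1 : g ^ l' = γ ^ (n * l') * b ^ (l * l') := by
    conv_lhs => rw [h]
    rw [mul_pow, ← pow_mul, ← pow_mul]
  have e2 : g ^ l = γ ^ (n' * l) * b ^ (l' * l) := by
    conv_lhs => rw [h']
    rw [mul_pow, ← pow_mul, ← pow_mul]
  have e3 : g ^ (l' - l) * g ^ l = g ^ l' := by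
    rw [← pow_add]
    congr 1
    omega
  calc g ^ (l' - l) * γ ^ (n' * l) * g ^ l = (g ^ (l' - l) * g ^ l) * γ ^ (n' * l) := by ring
    _ = γ ^ (n * l') * b ^ (l * l') * γ ^ (n' * l) := by rw [e3, e1]
    _ = γ ^ (n * l') * (γ ^ (n' * l) * b ^ (l' * l)) := by rw [Nat.mul_comm l l']; ring
    _ = γ ^ (n * l') * g ^ l := by rw [← e2]

end JPig

theorem prPig (hFinY : StFinY) : StPig := by
  intro K _ _ g γ hg hγ H
  classical
  have H1 : ∀ l : Nat.Primes, ∃ (n : ℕ) (b : K), n < (l : ℕ) ∧ g = γ ^ n * b ^ (l : ℕ) :=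
    fun l => JPig.red K g γ l l.2 (H l l.2)
  choose n b hn hb using H1
  obtain ⟨D, hD1, hDg, hDγ⟩ := JPig.den K g γ⁻¹
  have hfin := hFinY K (D ^ 2) (∑ σ : K →+* ℂ, (1 + ‖σ g‖) * (1 + ‖σ γ⁻¹‖))
    (Nat.one_le_pow _ _ hD1)
  have hmaps : Set.MapsTo b Set.univ {y : K | IsIntegral ℤ (((D ^ 2 : ℕ) : K) * y) ∧
      ∀ σ : K →+* ℂ, ‖σ y‖ ≤ ∑ σ : K →+* ℂ, (1 + ‖σ g‖) * (1 + ‖σ γ⁻¹‖)} := by
    intro l _
    refine ⟨JPig.int K g γ (b l) hγ D (n l) l (hn l) hDg hDγ (hb l), fun σ => ?_⟩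
    refine (JPig.bnd K g γ (b l) hγ (n l) l (hn l) (hb l) σ).trans ?_
    exact Finset.single_le_sum (f := fun σ : K →+* ℂ => (1 + ‖σ g‖) * (1 + ‖σ γ⁻¹‖))
      (fun i _ => by positivity) (Finset.mem_univ σ)
  have hinf : (Set.univ : Set Nat.Primes).Infinite := by
    have : Infinite Nat.Primes := inferInstance
    exact Set.infinite_univ
  obtain ⟨l, -, l', -, hne, heq⟩ := hinf.exists_ne_map_eq_of_mapsTo hmaps hfin
  have hne' : (l : ℕ) ≠ (l' : ℕ) := fun h => hne (Subtype.ext h)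
  rcases lt_or_gt_of_ne hne' with h | h
  · exact JPig.fin K g γ (b l) hg hγ (n l) (n l') l l' h (hb l) (by rw [heq]; exact hb l')
  · exact JPig.fin K g γ (b l') hg hγ (n l') (n l) l' l h (hb l') (by rw [← heq]; exact hb l)

end Pool.Agent.Work.MP_8d13b5_lc.LG
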