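import Pool.Agent.Work.MP_8d13b5_lc.LG.StmtsK

/-!
Item [Pow] of the block LG of MP_8d13b5_lc (helper90): an element which is a power of `γ` modulo
almost all primes of degree one is `γ ^ n * b ^ l`.
-/

set_option autoImplicit false

open Polynomial NumberField Module

namespace Pool.Agent.Work.MP_8d13b5_lc.LG

namespace JPow

theorem frac (K : Type) [Field K] [NumberField K] (x : K) (hx : x ≠ 0) :
    ∃ a b : 𝓞 K, a ≠ 0 ∧ b ≠ 0 ∧ x * (b : K) = (a : K) := by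
  obtain ⟨a, b, hb, h⟩ := IsFractionRing.div_surjective (A := 𝓞 K) x
  have hb0 : b ≠ 0 := nonZeroDivisors.ne_zero hb
  have hb1 : (algebraMap (𝓞 K) K b) ≠ 0 := by
    intro h0
    exact hb0 ((map_eq_zero_iff _ (FaithfulSMul.algebraMap_injective (𝓞 K) K)).1 h0)
  refine ⟨a, b, ?_, hb0, ?_⟩
  · rintro rfl
    rw [map_zero, zero_div] at h
    exact hx h.symm
  · show x * algebraMap (𝓞 K) K b = algebraMap (𝓞 K) K a
    rw [← h, div_mul_cancel₀ _ hb1]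

theorem aux {F : Type} [Field F] {l : ℕ} (hl : 1 ≤ l) (a b x : F) (hb : b ≠ 0)
    (hx : x = a * b⁻¹) : a * b ^ (l - 1) = x * b ^ l := by
  obtain ⟨k, rfl⟩ : ∃ k, l = k + 1 := ⟨l - 1, by omega⟩
  rw [Nat.add_sub_cancel, hx, pow_succ]
  field_simp

theorem root {K F : Type} [Field K] [Field F] (f : K →+* F) {l : ℕ} (β : F) (g b : K)
    (hb : f b ≠ 0) (h : β ^ l = f (g * b ^ l)) : (β * (f b)⁻¹) ^ l = f g := by
  rw [mul_pow, h, map_mul, map_pow, inv_pow, mul_inv_cancel_right₀ (pow_ne_zero _ hb)]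

end JPow

theorem prPow (hBau : StBau) (hEv1 : StEv1) (hSpl : StSpl) (hGenF : StGenF) (hKum : StKum) :
    StPow := by
  intro K _ _ g γ hg hγ hHS l hl
  have hl1 : 1 ≤ l := hl.one_lt.le
  obtain ⟨a, b, ha, hb, hab⟩ := JPow.frac K g hg
  obtain ⟨c, t, hc, ht, hct⟩ := JPow.frac K γ hγ
  have hbK : (b : K) ≠ 0 := by
    intro h0
    exact hb ((map_eq_zero_iff _ (FaithfulSMul.algebraMap_injective (𝓞 K) K)).1 h0)
  have htK : (t : K) ≠ 0 := by
    intro h0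
    exact ht ((map_eq_zero_iff _ (FaithfulSMul.algebraMap_injective (𝓞 K) K)).1 h0)
  have hg1 : ((a * b ^ (l - 1) : 𝓞 K) : K) = g * (b : K) ^ l := by
    have h1 : ((a * b ^ (l - 1) : 𝓞 K) : K) = (a : K) * (b : K) ^ (l - 1) := by
      push_cast
      rfl
    rw [h1]
    refine JPow.aux hl1 _ _ _ hbK ?_
    rw [← hab, mul_inv_cancel_right₀ hbK]
  have hγ1 : ((c * t ^ (l - 1) : 𝓞 K) : K) = γ * (t : K) ^ l := by
    have h1 : ((c * t ^ (l - 1) : 𝓞 K) : K) = (c : K) * (t : K) ^ (l - 1) := by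
      push_cast
      rfl
    rw [h1]
    refine JPow.aux hl1 _ _ _ htK ?_
    rw [← hct, mul_inv_cancel_right₀ htK]
  obtain ⟨B0, hB0⟩ := hHS
  obtain ⟨B1, hB1⟩ := (hEv1 K).2 b hb
  obtain ⟨B2, hB2⟩ := (hEv1 K).2 t ht
  have hQ := hBau K ((X ^ l - 1) * (X ^ l - C (c * t ^ (l - 1)))) (X ^ l - C (a * b ^ (l - 1)))
    ((monic_X_pow_sub_C 1 (by omega)).mul (monic_X_pow_sub_C _ (by omega)))
    (monic_X_pow_sub_C _ (by omega)) ⟨B0 + B1 + B2 + l, by
      intro p hp hBp φ hs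
      have : Fact p.Prime := ⟨hp⟩
      have hb' : φ b ≠ 0 := hB1 p (by omega) φ
      have ht' : φ t ≠ 0 := hB2 p (by omega) φ
      have evg : ev φ g = φ a * (φ b)⁻¹ := (hEv1 K).1 p φ g a b hb' hab
      have evγ : ev φ γ = φ c * (φ t)⁻¹ := (hEv1 K).1 p φ γ c t ht' hct
      have hmap : ((X ^ l - 1) * (X ^ l - C (c * t ^ (l - 1))) : (𝓞 K)[X]).map φ =
          (X ^ l - 1) * (X ^ l - C (φ c * φ t ^ (l - 1))) := by
        simp
      rw [hmap] at hs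
      have hne1 : (X ^ l - 1 : (ZMod p)[X]) ≠ 0 := (monic_X_pow_sub_C 1 (by omega)).ne_zero
      have hne2 : (X ^ l - C (φ c * φ t ^ (l - 1)) : (ZMod p)[X]) ≠ 0 :=
        (monic_X_pow_sub_C _ (by omega)).ne_zero
      have hs1 : (X ^ l - 1 : (ZMod p)[X]).Splits :=
        hs.of_dvd (mul_ne_zero hne1 hne2) (dvd_mul_right _ _)
      have hs2 : (X ^ l - C (φ c * φ t ^ (l - 1)) : (ZMod p)[X]).Splits :=
        hs.of_dvd (mul_ne_zero hne1 hne2) (dvd_mul_left _ _)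
      have hS := hSpl p l hl1 (by omega)
      have hdvd : l ∣ p - 1 := hS.1.1 hs1
      obtain ⟨s, hs3⟩ := (hS.2 _).1 hs2
      rw [JPow.aux hl1 _ _ _ ht' evγ] at hs3
      obtain ⟨n, hn⟩ := hB0 p (by omega) φ
      have hmap2 : (X ^ l - C (a * b ^ (l - 1)) : (𝓞 K)[X]).map φ =
          X ^ l - C (φ a * φ b ^ (l - 1)) := by
        simp
      rw [hmap2]
      refine (hS.2 _).2 hdvd ⟨(s * (φ t)⁻¹) ^ n * φ b, ?_⟩
      have e1 : ev φ γ = (s * (φ t)⁻¹) ^ l := by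
        rw [mul_pow, ← hs3, inv_pow, mul_inv_cancel_right₀ (pow_ne_zero _ ht')]
      rw [JPow.aux hl1 _ _ _ hb' evg, hn, e1]
      ring⟩
  obtain ⟨ζ, α, hζ, hα, htop⟩ := hGenF K l γ (c * t ^ (l - 1)) t hl1 hγ ht hγ1
  have hdeg : (((X ^ l - C (a * b ^ (l - 1)) : (𝓞 K)[X]).map (algebraMap (𝓞 K) K)).map
      (algebraMap K ((((X ^ l - 1) * (X ^ l - C (c * t ^ (l - 1))) : (𝓞 K)[X]).map
        (algebraMap (𝓞 K) K)).SplittingField))) =
      X ^ l - C (algebraMap K _ (g * (b : K) ^ l)) := by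
    rw [Polynomial.map_map, Polynomial.map_sub, Polynomial.map_pow, map_X, map_C,
      RingHom.comp_apply]
    congr 2
    congr 1
  rw [hdeg] at hQ
  obtain ⟨β1, hβ1⟩ := hQ.exists_eval_eq_zero (by
    rw [degree_X_pow_sub_C (by omega)]
    exact_mod_cast (by omega : l ≠ 0))
  rw [eval_sub, eval_pow, eval_X, eval_C, sub_eq_zero] at hβ1
  have hbF : (algebraMap K ((((X ^ l - 1) * (X ^ l - C (c * t ^ (l - 1))) : (𝓞 K)[X]).map
        (algebraMap (𝓞 K) K)).SplittingField)) (b : K) ≠ 0 := by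
    rw [Ne, map_eq_zero]
    exact hbK
  exact hKum K _ l g γ ζ α (β1 * (algebraMap K _ (b : K))⁻¹) hl hg hγ hζ hα htop
    (JPow.root (algebraMap K _) β1 g (b : K) hbF hβ1)

end Pool.Agent.Work.MP_8d13b5_lc.LG
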