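import Pool.Agent.Work.MP_8d13b5_lc.LG.AlgStmts
import Pool.Agent.Work.MP_8d13b5_lc.USComp

/-!
# MP_8d13b5_lc, block LG, item PrC: the check of a certificate is primitive recursive
-/

set_option autoImplicit false

open Polynomial

namespace Pool.Agent.Work.MP_8d13b5_lc.LG

namespace JPrC

abbrev Q4 : Type := ℕ × ℕ × ℕ × ℤ

abbrev Z : Type := (List ℤ × List ℤ) × ℕ × List Q4

theorem rel_dvd_int : PrimrecRel (fun (a : ℕ) (z : ℤ) => (a : ℤ) ∣ z) := by
  have h : PrimrecPred (fun p : ℕ × ℤ => p.2.natAbs % p.1 = 0) :=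
    Primrec.eq.comp (Primrec.nat_mod.comp (primrec_natAbs.comp Primrec.snd) Primrec.fst)
      (Primrec.const 0)
  refine h.of_eq fun p => ?_
  change p.2.natAbs % p.1 = 0 ↔ (p.1 : ℤ) ∣ p.2
  rw [Int.natCast_dvd, Nat.dvd_iff_mod_eq_zero]

theorem rel_dvd_nat : PrimrecRel (fun (a b : ℕ) => a ∣ b) := by
  have h : PrimrecPred (fun p : ℕ × ℕ => p.2 % p.1 = 0) :=
    Primrec.eq.comp (Primrec.nat_mod.comp Primrec.snd Primrec.fst) (Primrec.const 0)
  refine h.of_eq fun p => ?_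
  change p.2 % p.1 = 0 ↔ p.1 ∣ p.2
  rw [Nat.dvd_iff_mod_eq_zero]

theorem primrec_int_sub : Primrec₂ (fun a b : ℤ => a - b) := by
  have h : Primrec (fun p : ℤ × ℤ => p.1 + (-1) * p.2) :=
    primrec_int_add.comp Primrec.fst (primrec_int_mul.comp (Primrec.const (-1)) Primrec.snd)
  exact h.of_eq fun p => by ring

end JPrC

open JPrC in
theorem prPrC (hPrI : StPrI) : StPrC := by
  -- the conditions on one entry
  have hR1 : PrimrecRel (fun (n : ℕ) (y : Q4 × Z) =>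
      (y.1.1 : ℤ) ∣ val y.2.1 (n + y.2.2.1) - val y.2.1 n) := by
    refine rel_dvd_int.comp (Primrec.fst.comp (Primrec.fst.comp Primrec.snd)) ?_
    refine primrec_int_sub.comp ?_ ?_
    · refine primrec_val.comp (Primrec.fst.comp (Primrec.snd.comp Primrec.snd)) ?_
      exact Primrec.nat_add.comp Primrec.fst
        (Primrec.fst.comp (Primrec.snd.comp (Primrec.snd.comp Primrec.snd)))
    · exact primrec_val.comp (Primrec.fst.comp (Primrec.snd.comp Primrec.snd)) Primrec.fst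
  have hR2 : PrimrecRel (fun (q : Q4) (z : Z) => ChI z.1.1 q ∧ q.2.1 ∣ z.2.1 ∧
      ∀ n < z.1.1.length, (q.1 : ℤ) ∣ val z.1 (n + z.2.1) - val z.1 n) := by
    refine PrimrecPred.and ?_ (PrimrecPred.and ?_ ?_)
    · exact PrimrecRel.comp hPrI (Primrec.fst.comp (Primrec.fst.comp Primrec.snd)) Primrec.fst
    · exact rel_dvd_nat.comp (Primrec.fst.comp (Primrec.snd.comp Primrec.fst))
        (Primrec.fst.comp (Primrec.snd.comp Primrec.snd))
    · exact (US.rel_forall_lt hR1).comp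
        (Primrec.list_length.comp (Primrec.fst.comp (Primrec.fst.comp Primrec.snd))) Primrec.id
  have h2 : PrimrecPred (fun z : Z => ∀ q ∈ z.2.2, ChI z.1.1 q ∧ q.2.1 ∣ z.2.1 ∧
      ∀ n < z.1.1.length, (q.1 : ℤ) ∣ val z.1 (n + z.2.1) - val z.1 n) :=
    (PrimrecRel.forall_mem_list hR2).comp (Primrec.snd.comp Primrec.snd) Primrec.id
  -- the conditions on one residue
  have hA : PrimrecRel (fun (q : Q4) (y : ℕ × Z) => ¬ (q.1 : ℤ) ∣ val y.2.1 y.1) := by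
    refine PrimrecPred.not ?_
    refine rel_dvd_int.comp (Primrec.fst.comp Primrec.fst) ?_
    exact primrec_val.comp (Primrec.fst.comp (Primrec.snd.comp Primrec.snd))
      (Primrec.fst.comp Primrec.snd)
  have hB : PrimrecRel (fun (q : Q4) (y : ℕ × Z) => q.2.1 ∣ y.1 ∧
      ¬ ((q.1 ^ (q.2.2.1 + 1) : ℕ) : ℤ) ∣ val y.2.1 q.2.1) := by
    refine PrimrecPred.and ?_ (PrimrecPred.not ?_)
    · exact rel_dvd_nat.comp (Primrec.fst.comp (Primrec.snd.comp Primrec.fst))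
        (Primrec.fst.comp Primrec.snd)
    · refine rel_dvd_int.comp ?_ ?_
      · exact primrec_pow.comp (Primrec.fst.comp Primrec.fst)
          (Primrec.nat_add.comp (Primrec.fst.comp (Primrec.snd.comp (Primrec.snd.comp Primrec.fst)))
            (Primrec.const 1))
      · exact primrec_val.comp (Primrec.fst.comp (Primrec.snd.comp Primrec.snd))
          (Primrec.fst.comp (Primrec.snd.comp Primrec.fst))
  have hA' : PrimrecPred (fun y : ℕ × Z => ∃ q ∈ y.2.2.2, ¬ (q.1 : ℤ) ∣ val y.2.1 y.1) :=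
    (PrimrecRel.exists_mem_list hA).comp
      (Primrec.snd.comp (Primrec.snd.comp Primrec.snd)) Primrec.id
  have hB' : PrimrecPred (fun y : ℕ × Z => ∃ q ∈ y.2.2.2, q.2.1 ∣ y.1 ∧
      ¬ ((q.1 ^ (q.2.2.1 + 1) : ℕ) : ℤ) ∣ val y.2.1 q.2.1) :=
    (PrimrecRel.exists_mem_list hB).comp
      (Primrec.snd.comp (Primrec.snd.comp Primrec.snd)) Primrec.id
  have h1m : PrimrecPred (fun y : ℕ × Z => ¬ 1 ≤ y.1) :=
    PrimrecPred.not (Primrec.nat_le.comp (Primrec.const 1) Primrec.fst)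
  have hR3 : PrimrecRel (fun (m : ℕ) (z : Z) => 1 ≤ m →
      (∃ q ∈ z.2.2, ¬ (q.1 : ℤ) ∣ val z.1 m) ∨
      (∃ q ∈ z.2.2, q.2.1 ∣ m ∧ ¬ ((q.1 ^ (q.2.2.1 + 1) : ℕ) : ℤ) ∣ val z.1 q.2.1)) := by
    refine (h1m.or (hA'.or hB')).of_eq fun y => ?_
    exact (imp_iff_not_or).symm
  have h3 : PrimrecPred (fun z : Z => ∀ m < z.2.1 + 1, 1 ≤ m →
      (∃ q ∈ z.2.2, ¬ (q.1 : ℤ) ∣ val z.1 m) ∨
      (∃ q ∈ z.2.2, q.2.1 ∣ m ∧ ¬ ((q.1 ^ (q.2.2.1 + 1) : ℕ) : ℤ) ∣ val z.1 q.2.1)) :=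
    (US.rel_forall_lt hR3).comp
      (Primrec.nat_add.comp (Primrec.fst.comp Primrec.snd) (Primrec.const 1)) Primrec.id
  have h1 : PrimrecPred (fun z : Z => 1 ≤ z.2.1) :=
    Primrec.nat_le.comp (Primrec.const 1) (Primrec.fst.comp Primrec.snd)
  exact h1.and (h2.and h3)

end Pool.Agent.Work.MP_8d13b5_lc.LG
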