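import Pool.Agent.Work.MP_8d13b5_lc.LG.AlgStmts

/-!
# MP_8d13b5_lc, block LG, part A: item PrD
-/

set_option autoImplicit false

open Polynomial

namespace Pool.Agent.Work.MP_8d13b5_lc.LG.JPrD

abbrev Z : Type := (List ℤ × List ℤ) × Dat

theorem pc : Primrec (fun p : Z => p.1.1) := Primrec.fst.comp Primrec.fst

theorem pj : Primrec (fun p : Z => p.2.1) := Primrec.fst.comp Primrec.snd

theorem ps : Primrec (fun p : Z => p.2.2.1) := Primrec.fst.comp (Primrec.snd.comp Primrec.snd)

theorem py : Primrec (fun p : Z => p.2.2.2.1) :=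
  Primrec.fst.comp (Primrec.snd.comp (Primrec.snd.comp Primrec.snd))

theorem pT : Primrec (fun p : Z => p.2.2.2.2.1) :=
  Primrec.fst.comp (Primrec.snd.comp (Primrec.snd.comp (Primrec.snd.comp Primrec.snd)))

theorem pQ : Primrec (fun p : Z => p.2.2.2.2.2) :=
  Primrec.snd.comp (Primrec.snd.comp (Primrec.snd.comp (Primrec.snd.comp Primrec.snd)))

theorem rel4 : PrimrecRel (fun (n : ℕ) (p : Z) =>
    val (p.1.1, p.2.2.2.1) (n + p.2.1) = p.2.2.1 * val p.1 n) := by
  refine Primrec.eq.comp ?_ ?_
  · refine primrec_val.comp ?_ ?_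
    · exact Primrec.pair (pc.comp Primrec.snd) (py.comp Primrec.snd)
    · exact Primrec.nat_add.comp Primrec.fst (pj.comp Primrec.snd)
  · refine primrec_int_mul.comp ?_ ?_
    · exact ps.comp Primrec.snd
    · exact primrec_val.comp (Primrec.fst.comp Primrec.snd) Primrec.fst

end Pool.Agent.Work.MP_8d13b5_lc.LG.JPrD

namespace Pool.Agent.Work.MP_8d13b5_lc.LG

open JPrD

theorem prPrD (hPrC : StPrC) : StPrD := by
  have h : PrimrecPred (fun p : Z => Ch p.1 p.2) := by
    refine PrimrecPred.and ?_ (PrimrecPred.and ?_ (PrimrecPred.and ?_ (PrimrecPred.and ?_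
      (PrimrecPred.and ?_ ?_))))
    · exact Primrec.eq.comp (Primrec.list_length.comp py) (Primrec.list_length.comp pc)
    · exact Primrec.nat_le.comp (Primrec.const 1) pj
    · exact (Primrec.eq.comp ps (Primrec.const 0)).not
    · exact (US.rel_forall_lt rel4).comp (Primrec.list_length.comp pc) Primrec.id
    · exact Primrec.eq.comp (primrec_val.comp (Primrec.pair pc py) (Primrec.const 0))
        (Primrec.const 0)
    · exact PrimrecPred.comp hPrC (Primrec.pair (Primrec.pair pc py) (Primrec.pair pT pQ))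
  exact h

end Pool.Agent.Work.MP_8d13b5_lc.LG
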