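import Pool.Agent.Work.MP_8d13b5_lc.LG.AlgStmts

set_option autoImplicit false

/-! Item PrI of the block LG: the check of `IsoAt` is primitive recursive. -/

open Polynomial

namespace Pool.Agent.Work.MP_8d13b5_lc.LG

namespace JPrI

theorem primrec_prime : PrimrecPred Nat.Prime := by
  have hR : PrimrecRel (fun (e p : ℕ) => e < 2 ∨ ¬ p % e = 0) := by
    refine PrimrecPred.or ?_ (PrimrecPred.not ?_)
    · exact Primrec.nat_lt.comp Primrec.fst (Primrec.const 2)
    · exact Primrec.eq.comp (Primrec.nat_mod.comp Primrec.snd Primrec.fst) (Primrec.const 0)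
  have h1 : PrimrecPred (fun p : ℕ => 2 ≤ p ∧ ∀ e < p, e < 2 ∨ ¬ p % e = 0) := by
    refine PrimrecPred.and ?_ ?_
    · exact Primrec.nat_le.comp (Primrec.const 2) Primrec.id
    · exact (US.rel_forall_lt hR).comp Primrec.id Primrec.id
  refine h1.of_eq fun p => ?_
  rw [Nat.prime_def_lt']
  refine and_congr_right fun _ => ⟨fun h m hm1 hm2 hd => ?_, fun h e he => ?_⟩
  · rcases h m hm2 with h3 | h3
    · omega
    · exact h3 (Nat.mod_eq_zero_of_dvd hd)
  · by_cases h2 : e < 2
    · exact Or.inl h2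
    · exact Or.inr fun h3 => h e (by omega) he (Nat.dvd_of_mod_eq_zero h3)

theorem primrec_dvd : PrimrecRel (fun (n : ℕ) (z : ℤ) => (n : ℤ) ∣ z) := by
  have h1 : PrimrecPred (fun p : ℕ × ℤ => p.2.natAbs % p.1 = 0) :=
    Primrec.eq.comp (Primrec.nat_mod.comp (primrec_natAbs.comp Primrec.snd) Primrec.fst)
      (Primrec.const 0)
  refine h1.of_eq fun p => ?_
  show p.2.natAbs % p.1 = 0 ↔ (p.1 : ℤ) ∣ p.2
  rw [Int.natCast_dvd, Nat.dvd_iff_mod_eq_zero]

theorem primrec_int_sub : Primrec₂ (fun a b : ℤ => a - b) := by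
  have h1 : Primrec (fun p : ℤ × ℤ => p.1 + (-1) * p.2) :=
    primrec_int_add.comp Primrec.fst (primrec_int_mul.comp (Primrec.const (-1)) Primrec.snd)
  exact Primrec.of_eq h1 fun p => by ring

theorem primrec_bas : Primrec₂ bas := by
  unfold bas
  refine Primrec.list_map (f := fun p : ℕ × ℕ => List.range p.1)
    (g := fun (p : ℕ × ℕ) (j : ℕ) => if j = p.2 then (1 : ℤ) else 0) ?_ ?_
  · exact Primrec.list_range.comp Primrec.fst
  · refine Primrec.ite ?_ (Primrec.const 1) (Primrec.const 0)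
    exact Primrec.eq.comp Primrec.snd (Primrec.snd.comp Primrec.fst)

theorem primrec_cd : Primrec cd := by
  unfold cd
  exact (Primrec.list_getD 0).comp Primrec.id
    (Primrec.nat_sub.comp Primrec.list_length (Primrec.const 1))

abbrev QT : Type := ℕ × ℕ × ℕ × ℤ

theorem primrec_last : PrimrecRel (fun (i : ℕ) (z : List ℤ × QT) =>
    ((z.2.1 ^ z.2.2.2.1 : ℕ) : ℤ) ∣
      val (z.1, bas z.1.length i) z.2.2.1 - (if i = 0 then z.2.2.2.2 else 0)) := by
  have hz : Primrec (fun w : ℕ × (List ℤ × QT) => w.2) := Primrec.snd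
  have hc : Primrec (fun w : ℕ × (List ℤ × QT) => w.2.1) := Primrec.fst.comp hz
  have hq : Primrec (fun w : ℕ × (List ℤ × QT) => w.2.2) := Primrec.snd.comp hz
  have hp : Primrec (fun w : ℕ × (List ℤ × QT) => w.2.2.1) := Primrec.fst.comp hq
  have hq1 : Primrec (fun w : ℕ × (List ℤ × QT) => w.2.2.2) := Primrec.snd.comp hq
  have hr : Primrec (fun w : ℕ × (List ℤ × QT) => w.2.2.2.1) := Primrec.fst.comp hq1
  have hq2 : Primrec (fun w : ℕ × (List ℤ × QT) => w.2.2.2.2) := Primrec.snd.comp hq1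
  have hk : Primrec (fun w : ℕ × (List ℤ × QT) => w.2.2.2.2.1) := Primrec.fst.comp hq2
  have hm : Primrec (fun w : ℕ × (List ℤ × QT) => w.2.2.2.2.2) := Primrec.snd.comp hq2
  have h1 : Primrec (fun w : ℕ × (List ℤ × QT) => w.2.2.1 ^ w.2.2.2.2.1) :=
    primrec_pow.comp hp hk
  have h2 : Primrec (fun w : ℕ × (List ℤ × QT) => bas w.2.1.length w.1) :=
    primrec_bas.comp (Primrec.list_length.comp hc) Primrec.fst
  have h3 : Primrec (fun w : ℕ × (List ℤ × QT) => val (w.2.1, bas w.2.1.length w.1) w.2.2.2.1) :=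
    primrec_val.comp (Primrec.pair hc h2) hr
  have h4 : Primrec (fun w : ℕ × (List ℤ × QT) => if w.1 = 0 then w.2.2.2.2.2 else 0) :=
    Primrec.ite (Primrec.eq.comp Primrec.fst (Primrec.const 0)) hm (Primrec.const 0)
  exact primrec_dvd.comp h1 (primrec_int_sub.comp h3 h4)

end JPrI

theorem prPrI : StPrI := by
  unfold StPrI ChI
  refine PrimrecPred.and ?_ (PrimrecPred.and ?_ (PrimrecPred.and ?_ (PrimrecPred.and ?_
    (PrimrecPred.and ?_ ?_))))
  · exact JPrI.primrec_prime.comp (Primrec.fst.comp Primrec.snd)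
  · exact Primrec.nat_le.comp (Primrec.const 3) (Primrec.fst.comp Primrec.snd)
  · refine PrimrecPred.not ?_
    exact JPrI.primrec_dvd.comp (Primrec.fst.comp Primrec.snd)
      (JPrI.primrec_cd.comp Primrec.fst)
  · exact Primrec.nat_le.comp (Primrec.const 1)
      (Primrec.fst.comp (Primrec.snd.comp Primrec.snd))
  · exact Primrec.nat_le.comp (Primrec.const 1)
      (Primrec.fst.comp (Primrec.snd.comp (Primrec.snd.comp Primrec.snd)))
  · exact (US.rel_forall_lt JPrI.primrec_last).comp (Primrec.list_length.comp Primrec.fst)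
      Primrec.id

end Pool.Agent.Work.MP_8d13b5_lc.LG
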