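import Pool.Agent.Work.MP_8d13b5_lc.LG.AlgStmts
import Pool.Agent.Work.MP_8d13b5_lc.USMain

/-!
# Block LG, item A-Rel: the terms as a pairing with `X ^ n mod f`
-/

set_option autoImplicit false

open Polynomial

namespace Pool.Agent.Work.MP_8d13b5_lc.LG

namespace JRel

open Finset

/-- the functional -/
noncomputable def LL (c x : List ℤ) (A : ℤ[X]) : ℤ :=
  pr (Rk.charPoly c).natDegree (A %ₘ Rk.charPoly c) (vec (Rk.charPoly c).natDegree x)

theorem pr_cast (c x : List ℤ) (A : ℤ[X]) :
    pr (Rk.charPoly c).natDegree A (vec (Rk.charPoly c).natDegree x) =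
      pr c.length A (vec c.length x) :=
  congrArg (fun d => pr d A (vec d x)) (Rk.charPoly_natDegree c)

theorem LL_zero (c x : List ℤ) : LL c x 0 = 0 := by
  unfold LL pr
  rw [zero_modByMonic]
  simp

theorem LL_sum (hLin : StLin) (c x : List ℤ) (s : Finset ℕ) (a : ℕ → ℤ) (g : ℕ → ℤ[X]) :
    LL c x (∑ i ∈ s, C (a i) * g i) = ∑ i ∈ s, a i * LL c x (g i) := by
  obtain ⟨h1, h2, -⟩ := hLin (Rk.charPoly c) (vec _ x) (Rk.charPoly_monic c)
  induction s using Finset.induction_on with
  | empty => simp [LL_zero]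
  | insert i s hi ih =>
    rw [sum_insert hi, sum_insert hi, ← ih]
    unfold LL at *
    rw [h1, h2]

theorem step (c : List ℤ) (n : ℕ) : Rk.charPoly c ∣ X ^ (n + c.length) -
    ∑ i ∈ range c.length, C (c.getD (c.length - 1 - i) 0) * X ^ (n + i) := by
  refine ⟨X ^ n, ?_⟩
  unfold Rk.charPoly
  rw [sub_mul, ← pow_add, sum_mul, Nat.add_comm]
  congr 1
  apply sum_congr rfl
  intro i _
  rw [mul_assoc, ← pow_add, Nat.add_comm]

end JRel

theorem prRel (hLin : StLin) : StRel := by
  intro c x hx n
  have hmon := Rk.charPoly_monic c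
  have key : ∀ m, pr c.length (W (Rk.charPoly c) m) (vec c.length x) = JRel.LL c x (X ^ m) := by
    intro m
    unfold JRel.LL W
    rw [JRel.pr_cast]
  symm
  refine US.eq_val (c, x) hx (fun m => pr c.length (W (Rk.charPoly c) m) (vec c.length x)) ?_ ?_ n
  · intro i hi
    simp only at hi ⊢
    have hW : W (Rk.charPoly c) i = X ^ i := by
      unfold W
      rw [modByMonic_eq_self_iff hmon, degree_X_pow, degree_eq_natDegree hmon.ne_zero,
        Rk.charPoly_natDegree]
      exact_mod_cast hi
    rw [hW]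
    unfold pr vec
    rw [Finset.sum_eq_single (⟨i, hi⟩ : Fin c.length)]
    · simp
    · intro j _ hj
      have : (j : ℕ) ≠ i := fun h => hj (Fin.ext h)
      simp [coeff_X_pow, this]
    · intro h
      exact absurd (Finset.mem_univ _) h
  · intro m
    simp only
    rw [key]
    obtain ⟨-, -, h3⟩ := hLin (Rk.charPoly c) (vec _ x) hmon
    have h4 : JRel.LL c x (X ^ (m + c.length)) = JRel.LL c x
        (∑ i ∈ Finset.range c.length, C (c.getD (c.length - 1 - i) 0) * X ^ (m + i)) :=
      h3 _ _ (JRel.step c m)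
    rw [h4, JRel.LL_sum hLin, ← Finset.sum_range_reflect]
    apply Finset.sum_congr rfl
    intro j hj
    rw [Finset.mem_range] at hj
    rw [key]
    have e1 : c.length - 1 - (c.length - 1 - j) = j := by omega
    have e2 : m + (c.length - 1 - j) = m + c.length - 1 - j := by omega
    rw [e1, e2]

end Pool.Agent.Work.MP_8d13b5_lc.LG
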