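import Pool.Agent.Work.MP_8d13b5_lc.LG.StmtsK

/-!
# Item Rou: the base is a root of unity
-/

set_option autoImplicit false

open Polynomial NumberField Module

namespace Pool.Agent.Work.MP_8d13b5_lc.LG

/-- Item Rou. -/
theorem prRou (hEv2 : StEv2) (hInf : StInf) : StRou := by
  intro K _ _ g γ hg hγ hHS hN
  obtain ⟨N, hN1, hN⟩ := hN
  obtain ⟨B, hB⟩ := hHS
  by_contra hcon
  push Not at hcon
  have h2 : ∀ n : ℕ, ∃ B : ℕ, ∀ (p : ℕ) [Fact p.Prime], B < p → ∀ φ : 𝓞 K →+* ZMod p,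
      ev φ g ≠ ev φ (γ ^ n) := fun n => (hEv2 K).2 g (γ ^ n) (by simpa using hcon n)
  choose Bn hBn using h2
  obtain ⟨B1, hB1⟩ := (hEv2 K).1 Unit (fun _ => γ) (fun _ => hγ)
  obtain ⟨p, hp, hpp, ⟨φ⟩⟩ := hInf K (B + B1 + ∑ n ∈ Finset.range N, Bn n)
  have : Fact p.Prime := ⟨hpp⟩
  obtain ⟨n, hn⟩ := hB p (by omega) φ
  have h3 := (hB1 p (by omega) φ).2 fun _ => (n : ℤ)
  simp only [Finset.univ_unique, Finset.prod_singleton, zpow_natCast] at h3
  have h4 : γ ^ n = γ ^ (n % N) := by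
    conv_lhs => rw [← Nat.mod_add_div n N, pow_add, pow_mul, hN, one_pow, mul_one]
  have h5 : n % N < N := Nat.mod_lt _ hN1
  have h6 : Bn (n % N) ≤ ∑ n ∈ Finset.range N, Bn n :=
    Finset.single_le_sum (f := Bn) (fun _ _ => Nat.zero_le _) (Finset.mem_range.2 h5)
  exact hBn (n % N) p (by omega) φ (by rw [hn, ← h3, h4])

end Pool.Agent.Work.MP_8d13b5_lc.LG
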