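import Pool.Agent.Work.MP_8d13b5_lc.LG.StmtsK

/-!
# MP_8d13b5_lc, block LG, item SchE: Schinzel's theorem on powers
-/

set_option autoImplicit false

open Polynomial NumberField Module

namespace Pool.Agent.Work.MP_8d13b5_lc.LG

namespace JSchE

theorem common (hEv2 : StEv2) (K : Type) [Field K] [NumberField K] (g γ : K) (hg : g ≠ 0)
    (hγ : γ ≠ 0) (hHS : HS K g γ) :
    ∃ B : ℕ, ∀ (p : ℕ) [Fact p.Prime], B < p → ∀ φ : 𝓞 K →+* ZMod p,
      ∃ (c : (ZMod p)ˣ) (n : ℤ), ev φ γ = (c : ZMod p) ∧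
        ∀ a b : ℤ, ev φ (g ^ a * γ ^ b) = ((c ^ (n * a + b) : (ZMod p)ˣ) : ZMod p) := by
  obtain ⟨B1, hB1⟩ := (hEv2 K).1 Bool (fun i => bif i then g else γ) (by
    intro i
    cases i
    · exact hγ
    · exact hg)
  obtain ⟨B2, hB2⟩ := hHS
  refine ⟨max B1 B2, fun p _ hp φ => ?_⟩
  obtain ⟨h1, h2⟩ := hB1 p (lt_of_le_of_lt (le_max_left _ _) hp) φ
  obtain ⟨n, hn⟩ := hB2 p (lt_of_le_of_lt (le_max_right _ _) hp) φ
  have hc : ev φ γ ≠ 0 := h1 false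
  refine ⟨Units.mk0 (ev φ γ) hc, (n : ℤ), rfl, fun a b => ?_⟩
  have h3 := h2 (fun i => bif i then a else b)
  simp only [Fintype.prod_bool, cond_true, cond_false] at h3
  rw [h3, hn, Units.val_zpow_eq_zpow_val, Units.val_mk0, zpow_add₀ hc, zpow_mul, zpow_natCast]

end JSchE

open JSchE in
theorem prSchE (hEv2 : StEv2) (hPow : StPow) (hPig : StPig) (hOr0 : StOr0) (hOr2 : StOr2)
    (hRou : StRou) : StSchE := by
  intro K _ _ g γ hg hγ hHS
  by_cases hroot : ∃ n : ℕ, 1 ≤ n ∧ γ ^ n = 1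
  · exact hRou K g γ hg hγ hHS hroot
  have hroot' : ∀ n : ℕ, 1 ≤ n → γ ^ n ≠ 1 := fun n hn h => hroot ⟨n, hn, h⟩
  have hex : ∃ S : ℕ, 1 ≤ S ∧ ∃ m : ℤ, g ^ S = γ ^ m := by
    obtain ⟨S, m, hS, hm⟩ := hPig K g γ hg hγ (hPow K g γ hg hγ hHS)
    exact ⟨S, hS, m, hm⟩
  classical
  obtain ⟨hS1, m, hm⟩ := Nat.find_spec hex
  have hmin : ∀ T : ℕ, 1 ≤ T → T < Nat.find hex → ∀ k : ℤ, g ^ T ≠ γ ^ k :=
    fun T hT hlt k hk => Nat.find_min hex hlt ⟨hT, k, hk⟩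
  generalize Nat.find hex = S at hS1 hm hmin
  rcases Nat.eq_or_lt_of_le hS1 with hS | hS
  · rw [← hS, pow_one] at hm
    exact ⟨m, hm⟩
  exfalso
  obtain ⟨l, hl, S', hSl⟩ : ∃ l : ℕ, l.Prime ∧ ∃ S' : ℕ, S = l * S' := by
    refine ⟨S.minFac, Nat.minFac_prime (by omega), ?_⟩
    obtain ⟨S', h⟩ := S.minFac_dvd
    exact ⟨S', h⟩
  have hS'1 : 1 ≤ S' := by
    rcases Nat.eq_zero_or_pos S' with h | h
    · rw [h, mul_zero] at hSl
      omega
    · exact h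
  have hS'S : S' < S := by
    rw [hSl]
    have := hl.two_le
    nlinarith
  obtain ⟨B, hB⟩ := common hEv2 K g γ hg hγ hHS
  have : Fact l.Prime := ⟨hl⟩
  have hm' : g ^ ((S' : ℤ) * l) = γ ^ m := by
    rw [← hm, hSl, ← zpow_natCast g (l * S')]
    congr 1
    push_cast
    ring
  by_cases hlm : (l : ℤ) ∣ m
  · obtain ⟨m', rfl⟩ := hlm
    have hζ1 : g ^ (S' : ℤ) * γ ^ (-m') ≠ 1 := by
      intro h
      refine hmin S' hS'1 hS'S m' ?_
      rw [zpow_natCast, zpow_neg, ← div_eq_mul_inv, div_eq_one_iff_eq (zpow_ne_zero _ hγ)] at h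
      exact h
    obtain ⟨B2, hB2⟩ := (hEv2 K).2 _ _ hζ1
    obtain ⟨p, hp, φ, hpB, -, hnl⟩ := hOr0 K l γ hl hγ hroot' (max B B2)
    obtain ⟨c, n, hc, hev⟩ := hB p (lt_of_le_of_lt (le_max_left _ _) hpB) φ
    have h1 := hB2 p (lt_of_le_of_lt (le_max_right _ _) hpB) φ
    have hone : ev φ (1 : K) = 1 := by
      have h2 := hev 0 0
      simpa using h2
    rw [hev, hone] at h1
    have hz1 : c ^ (n * (S' : ℤ) + -m') ≠ 1 := fun h => h1 (by rw [h, Units.val_one])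
    have hzl : (c ^ (n * (S' : ℤ) + -m')) ^ l = 1 := by
      have h2 := hev ((S' : ℤ) * l) (-((l : ℤ) * m'))
      rw [hm', ← zpow_add₀ hγ, add_neg_cancel, zpow_zero, hone] at h2
      rw [← zpow_natCast, ← zpow_mul]
      refine Units.ext ?_
      rw [Units.val_one, h2]
      congr 2
      ring
    have hord := orderOf_eq_prime hzl hz1
    have hdvd : orderOf (c ^ (n * (S' : ℤ) + -m')) ∣ orderOf c :=
      orderOf_dvd_of_mem_zpowers ⟨_, rfl⟩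
    rw [hord, ← orderOf_units, ← hc] at hdvd
    exact hnl hdvd
  · have hcop : IsCoprime (l : ℤ) m :=
      (Nat.prime_iff_prime_int.1 hl).irreducible.coprime_iff_not_dvd.2 hlm
    obtain ⟨x, y, hxy⟩ := hcop
    have hδl : (g ^ ((S' : ℤ) * y) * γ ^ x) ^ l = γ := by
      rw [mul_pow, ← zpow_natCast, ← zpow_natCast, ← zpow_mul, ← zpow_mul,
        show (S' : ℤ) * y * (l : ℤ) = (S' : ℤ) * l * y by ring, zpow_mul, hm', ← zpow_mul,
        ← zpow_add₀ hγ, show m * y + x * (l : ℤ) = 1 by linarith, zpow_one]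
    have hδ0 : g ^ ((S' : ℤ) * y) * γ ^ x ≠ 0 := mul_ne_zero (zpow_ne_zero _ hg) (zpow_ne_zero _ hγ)
    have hδr : ∀ n : ℕ, 1 ≤ n → (g ^ ((S' : ℤ) * y) * γ ^ x) ^ n ≠ 1 := by
      intro n hn h
      refine hroot' n hn ?_
      rw [← hδl, ← pow_mul, mul_comm l n, pow_mul, h, one_pow]
    obtain ⟨p, hp, φ, hpB, -, hl2⟩ := hOr2 K l _ hl hδ0 hδr B
    obtain ⟨c, n, hc, hev⟩ := hB p hpB φ
    have hone : ev φ (1 : K) = 1 := by
      have h2 := hev 0 0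
      simpa using h2
    have hrel : c ^ (n * ((S' : ℤ) * l) + -m) = 1 := by
      have h2 := hev ((S' : ℤ) * l) (-m)
      rw [hm', ← zpow_add₀ hγ, add_neg_cancel, zpow_zero, hone] at h2
      refine Units.ext ?_
      rw [Units.val_one, h2]
    rw [hev, orderOf_units] at hl2
    have hdl : (c ^ (n * ((S' : ℤ) * y) + x)) ^ (l : ℤ) = c := by
      rw [← zpow_mul, show (n * ((S' : ℤ) * y) + x) * (l : ℤ) =
        (n * ((S' : ℤ) * l) + -m) * y + (x * (l : ℤ) + y * m) by ring, hxy, zpow_add, zpow_mul,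
        hrel, one_zpow, one_mul, zpow_one]
    have hd1 : (c ^ (n * ((S' : ℤ) * y) + x)) ^ ((l : ℤ) * (n * ((S' : ℤ) * l) + -m)) = 1 := by
      rw [zpow_mul, hdl, hrel]
    have hdvd := orderOf_dvd_iff_zpow_eq_one.2 hd1
    have h3 : ((l ^ 2 : ℕ) : ℤ) ∣ (l : ℤ) * (n * ((S' : ℤ) * l) + -m) :=
      (Int.natCast_dvd_natCast.2 hl2).trans hdvd
    have hl0 : (l : ℤ) ≠ 0 := by exact_mod_cast hl.ne_zero
    rw [Nat.cast_pow, sq, mul_dvd_mul_iff_left hl0] at h3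
    refine hlm ?_
    have h4 : (l : ℤ) ∣ n * ((S' : ℤ) * l) := ⟨n * S', by ring⟩
    have h5 := (dvd_add_right h4).1 h3
    rwa [dvd_neg] at h5

end Pool.Agent.Work.MP_8d13b5_lc.LG
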