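import Pool.Agent.Work.MP_8d13b5_lc.LG.StmtsK

/-!
# MP_8d13b5_lc, block LG, part K, item SchF: Schinzel's theorem in the form with fractions
-/

set_option autoImplicit false

open Polynomial NumberField Module

namespace Pool.Agent.Work.MP_8d13b5_lc.LG

namespace JSchF

theorem coe_ne {K : Type} [Field K] [NumberField K] {a : 𝓞 K} (ha : a ≠ 0) : (a : K) ≠ 0 := by
  intro h
  apply ha
  apply FaithfulSMul.algebraMap_injective (𝓞 K) K
  rw [map_zero]
  exact h

end JSchF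

open JSchF in
/-- Item SchF. -/
theorem prSchF (hEv1 : StEv1) (hSchE : StSchE) : StSch := by
  intro K _ _ a b c e ha hb hc he hB
  obtain ⟨B, hB⟩ := hB
  obtain ⟨Bb, hBb⟩ := (hEv1 K).2 b hb
  obtain ⟨Be, hBe⟩ := (hEv1 K).2 e he
  have ha' := coe_ne ha
  have hb' := coe_ne hb
  have hc' := coe_ne hc
  have he' := coe_ne he
  refine hSchE K ((a : K) / (b : K)) ((c : K) / (e : K)) (div_ne_zero ha' hb')
    (div_ne_zero hc' he') ⟨max B (max Bb Be), ?_⟩
  intro p hp hlt φ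
  have h1 : B < p := lt_of_le_of_lt (le_max_left _ _) hlt
  have h2 : Bb < p := lt_of_le_of_lt ((le_max_left _ _).trans (le_max_right _ _)) hlt
  have h3 : Be < p := lt_of_le_of_lt ((le_max_right _ _).trans (le_max_right _ _)) hlt
  obtain ⟨n, hn⟩ := hB p hp.out h1 φ
  have hφb := hBb p h2 φ
  have hφe := hBe p h3 φ
  refine ⟨n, ?_⟩
  rw [(hEv1 K).1 p φ _ a b hφb (div_mul_cancel₀ _ hb'),
    (hEv1 K).1 p φ _ c e hφe (div_mul_cancel₀ _ he'), mul_pow, inv_pow, ← div_eq_mul_inv,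
    ← div_eq_mul_inv, div_eq_div_iff hφb (pow_ne_zero n hφe), hn]
  ring

end Pool.Agent.Work.MP_8d13b5_lc.LG
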