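import Pool.Agent.Work.MP_8d13b5_lc.LG.Stmts

/-!
# MP_8d13b5_lc, block LG, item Shf
-/

set_option autoImplicit false

open Polynomial

namespace Pool.Agent.Work.MP_8d13b5_lc.LG

namespace JShf

/-- the linear functional `A ↦ pr d (A %ₘ f) x` -/
noncomputable def Lx (hLin : StLin) (f : ℤ[X]) (hf : f.Monic) (x : Fin f.natDegree → ℤ) :
    ℤ[X] →ₗ[ℤ] ℤ where
  toFun A := pr f.natDegree (A %ₘ f) x
  map_add' A B := (hLin f x hf).1 A B
  map_smul' a A := by
    have h := (hLin f x hf).2.1 a A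
    rw [← smul_eq_C_mul] at h
    exact h

theorem Lx_apply (hLin : StLin) (f : ℤ[X]) (hf : f.Monic) (x : Fin f.natDegree → ℤ) (A : ℤ[X]) :
    Lx hLin f hf x A = pr f.natDegree (A %ₘ f) x := rfl

theorem Lx_congr (hLin : StLin) (f : ℤ[X]) (hf : f.Monic) (x : Fin f.natDegree → ℤ) {A B : ℤ[X]}
    (h : f ∣ A - B) : Lx hLin f hf x A = Lx hLin f hf x B := (hLin f x hf).2.2 A B h

theorem Lx_C_mul (hLin : StLin) (f : ℤ[X]) (hf : f.Monic) (x : Fin f.natDegree → ℤ) (a : ℤ)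
    (A : ℤ[X]) : Lx hLin f hf x (C a * A) = a * Lx hLin f hf x A := by
  rw [← smul_eq_C_mul, map_smul, smul_eq_mul]

/-- a polynomial as the sum of its coefficients below the degree of `f` -/
theorem mod_sum (f : ℤ[X]) (hf : f.Monic) (h1 : 1 ≤ f.natDegree) (A : ℤ[X]) :
    A %ₘ f = ∑ t : Fin f.natDegree, (A %ₘ f).coeff t • (X ^ (t : ℕ) : ℤ[X]) := by
  have h2 : (A %ₘ f).natDegree < f.natDegree :=
    natDegree_modByMonic_lt _ hf (fun h => by rw [h, natDegree_one] at h1; omega)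
  rw [Finset.sum_fin_eq_sum_range]
  conv_lhs => rw [Polynomial.as_sum_range' _ _ h2]
  refine Finset.sum_congr rfl fun i hi => ?_
  rw [dif_pos (Finset.mem_range.1 hi), ← C_mul_X_pow_eq_monomial, smul_eq_C_mul]

theorem mod_dvd (f : ℤ[X]) (A : ℤ[X]) : f ∣ A %ₘ f - A := by
  refine ⟨-(A /ₘ f), ?_⟩
  have h := modByMonic_add_div A f
  linear_combination h

/-- cancel `X ^ n` -/
theorem cancel (f : ℤ[X]) (h0 : f.coeff 0 ≠ 0) (n : ℕ) (g : ℤ[X]) (h : f ∣ X ^ n * g) : f ∣ g := by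
  induction n with
  | zero => simpa using h
  | succ n ih =>
    apply ih
    obtain ⟨q, hq⟩ := h
    have h1 : (X : ℤ[X]) ∣ f * q := ⟨X ^ n * g, by rw [← hq]; ring⟩
    rcases prime_X.dvd_or_dvd h1 with h2 | h2
    · exact absurd (X_dvd_iff.1 h2) h0
    · obtain ⟨q', hq'⟩ := h2
      refine ⟨q', ?_⟩
      have h3 : X * (X ^ n * g) = X * (f * q') := by
        rw [hq'] at hq
        linear_combination hq
      exact mul_left_cancel₀ X_ne_zero h3

/-- the inverse of `X` up to the constant coefficient -/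
noncomputable def JJ (f : ℤ[X]) : ℤ[X] := -divX f

theorem JJ_X (f : ℤ[X]) : X * JJ f = C (f.coeff 0) - f := by
  have h := divX_mul_X_add f
  unfold JJ
  linear_combination -h

theorem JJ_pow (f : ℤ[X]) (i : ℕ) : f ∣ JJ f ^ i * X ^ i - C (f.coeff 0 ^ i) := by
  have h : JJ f ^ i * X ^ i - C (f.coeff 0 ^ i) = (X * JJ f) ^ i - (C (f.coeff 0)) ^ i := by
    rw [mul_pow, C_pow]
    ring
  rw [h]
  refine dvd_trans ?_ (sub_dvd_pow_sub_pow _ _ i)
  rw [JJ_X]
  exact ⟨-1, by ring⟩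

/-- the map of the initial vectors -/
noncomputable def Ph (hLin : StLin) (f : ℤ[X]) (hf : f.Monic) (i : ℕ) (x : Fin f.natDegree → ℤ) :
    Fin f.natDegree → ℤ := fun t => Lx hLin f hf x (JJ f ^ i * X ^ (t : ℕ))

theorem pr_Ph (hLin : StLin) (f : ℤ[X]) (hf : f.Monic) (h1 : 1 ≤ f.natDegree) (i : ℕ)
    (x : Fin f.natDegree → ℤ) (A : ℤ[X]) : pr f.natDegree (A %ₘ f) (Ph hLin f hf i x) =
      Lx hLin f hf x (JJ f ^ i * A) := by
  have h2 : Lx hLin f hf x (JJ f ^ i * A) = Lx hLin f hf x (JJ f ^ i * (A %ₘ f)) := by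
    refine (Lx_congr hLin f hf x ?_).symm
    rw [← mul_sub]
    exact (mod_dvd f A).mul_left _
  rw [h2]
  conv_rhs => rw [mod_sum f hf h1 A]
  rw [Finset.mul_sum, map_sum]
  unfold pr Ph
  refine Finset.sum_congr rfl fun t _ => ?_
  rw [mul_smul_comm, map_smul, smul_eq_mul]

end JShf

open JShf in
theorem prShf (hLin : StLin) : StShf := by
  intro f C₀ n j a b hf h0 h1 hP ha hb hnj hdvd
  obtain ⟨i, rfl⟩ := Nat.exists_eq_add_of_lt hnj
  have hij : n + i + 1 - n = i + 1 := by omega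
  rw [hij]
  have hs : f.coeff 0 ^ (i + 1) ≠ 0 := pow_ne_zero _ h0
  have hkey : ∀ (x : Fin f.natDegree → ℤ) (m : ℕ),
      pr f.natDegree (W f (m + (i + 1))) (Ph hLin f hf (i + 1) x) =
        f.coeff 0 ^ (i + 1) * pr f.natDegree (W f m) x := by
    intro x m
    unfold W
    rw [pr_Ph hLin f hf h1, ← Lx_apply hLin f hf x, ← Lx_C_mul]
    refine Lx_congr hLin f hf x ?_
    have h2 : JJ f ^ (i + 1) * X ^ (m + (i + 1)) - C (f.coeff 0 ^ (i + 1)) * X ^ m =
        (JJ f ^ (i + 1) * X ^ (i + 1) - C (f.coeff 0 ^ (i + 1))) * X ^ m := by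
      ring
    rw [h2]
    exact (JJ_pow f (i + 1)).mul_right _
  refine ⟨1 + ∑ t : Fin f.natDegree, ∑ l : Fin f.natDegree,
    (((JJ f ^ (i + 1) * X ^ (t : ℕ)) %ₘ f).coeff l).natAbs, f.coeff 0 ^ (i + 1),
    Ph hLin f hf (i + 1), by omega, hs, ?_, ?_, ?_, hkey⟩
  · intro x x' hxx
    funext t
    have e1 := hkey x t
    have e2 := hkey x' t
    rw [hxx, e2] at e1
    have e3 := mul_left_cancel₀ hs e1
    have e4 : ∀ z : Fin f.natDegree → ℤ, pr f.natDegree (W f t) z = z t := by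
      intro z
      unfold pr W
      have h2 : (X ^ (t : ℕ) : ℤ[X]) %ₘ f = X ^ (t : ℕ) := by
        rw [modByMonic_eq_self_iff hf, degree_X_pow, degree_eq_natDegree hf.ne_zero]
        exact_mod_cast t.2
      rw [h2]
      simp only [coeff_X_pow, ite_mul, one_mul, zero_mul]
      rw [Finset.sum_eq_single t]
      · simp
      · intro l _ hl
        rw [if_neg]
        intro h
        exact hl (Fin.ext h)
      · intro h
        exact absurd (Finset.mem_univ t) h
    rw [e4, e4] at e3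
    exact e3.symm
  · intro H x hx
    have hx' : ∀ l, |x l| ≤ H := by
      intro l
      have h := Finset.mem_Icc.1 ((Fintype.mem_piFinset.1 hx) l)
      exact abs_le.2 h
    refine Fintype.mem_piFinset.2 fun t => Finset.mem_Icc.2 (abs_le.1 ?_)
    show |Lx hLin f hf x (JJ f ^ (i + 1) * X ^ (t : ℕ))| ≤ _
    rw [Lx_apply]
    unfold pr
    refine (Finset.abs_sum_le_sum_abs _ _).trans ?_
    have h2 : ∀ l : Fin f.natDegree,
        |((JJ f ^ (i + 1) * X ^ (t : ℕ)) %ₘ f).coeff l * x l| ≤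
          ((((JJ f ^ (i + 1) * X ^ (t : ℕ)) %ₘ f).coeff l).natAbs : ℤ) * H := by
      intro l
      rw [abs_mul, Int.abs_eq_natAbs (((JJ f ^ (i + 1) * X ^ (t : ℕ)) %ₘ f).coeff l)]
      exact mul_le_mul_of_nonneg_left (hx' l) (by positivity)
    refine (Finset.sum_le_sum fun l _ => h2 l).trans ?_
    rw [← Finset.sum_mul]
    push_cast
    refine mul_le_mul_of_nonneg_right ?_ (by positivity)
    have h3 : ∑ l : Fin f.natDegree, ((((JJ f ^ (i + 1) * X ^ (t : ℕ)) %ₘ f).coeff l).natAbs : ℤ) ≤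
        ∑ t : Fin f.natDegree, ∑ l : Fin f.natDegree,
          ((((JJ f ^ (i + 1) * X ^ (t : ℕ)) %ₘ f).coeff l).natAbs : ℤ) :=
      Finset.single_le_sum (f := fun t : Fin f.natDegree => ∑ l : Fin f.natDegree,
          ((((JJ f ^ (i + 1) * X ^ (t : ℕ)) %ₘ f).coeff l).natAbs : ℤ))
        (fun t _ => Finset.sum_nonneg fun l _ => by positivity) (Finset.mem_univ t)
    simp only [Int.natCast_natAbs] at h3 ⊢
    linarith
  · intro x hx
    unfold W
    rw [pow_zero, pr_Ph hLin f hf h1, mul_one]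
    have h2 : f ∣ C a * X ^ (i + 1) * C₀ - C b := by
      refine cancel f h0 n _ ?_
      have e : X ^ n * (C a * X ^ (i + 1) * C₀ - C b) =
          C a * X ^ (n + i + 1) * C₀ - C b * X ^ n := by ring
      rw [e]
      exact hdvd
    have h3 : f ∣ C (a * f.coeff 0 ^ (i + 1)) * C₀ - C b * JJ f ^ (i + 1) := by
      have e : C (a * f.coeff 0 ^ (i + 1)) * C₀ - C b * JJ f ^ (i + 1) =
          JJ f ^ (i + 1) * (C a * X ^ (i + 1) * C₀ - C b) -
            (JJ f ^ (i + 1) * X ^ (i + 1) - C (f.coeff 0 ^ (i + 1))) * (C a * C₀) := by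
        rw [C_mul]
        ring
      rw [e]
      exact dvd_sub (h2.mul_left _) ((JJ_pow f (i + 1)).mul_right _)
    have h4 := Lx_congr hLin f hf x h3
    rw [Lx_C_mul, Lx_C_mul] at h4
    have h5 : Lx hLin f hf x C₀ = 0 := by
      rw [Lx_apply, (modByMonic_eq_self_iff hf).2 ?_, hx]
      rw [degree_eq_natDegree hf.ne_zero]
      exact lt_of_le_of_lt degree_le_natDegree (by exact_mod_cast hP.1)
    rw [h5, mul_zero] at h4
    rcases mul_eq_zero.1 h4.symm with h | h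
    · exact absurd h hb
    · exact h

end Pool.Agent.Work.MP_8d13b5_lc.LG
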