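import Pool.Agent.Work.MP_8d13b5_lc.LG.AlgStmts

/-!
# MP_8d13b5_lc, block LG, part A: item Snd (soundness of the outputs)
-/

set_option autoImplicit false

open Polynomial

namespace Pool.Agent.Work.MP_8d13b5_lc.LG

namespace JSnd

/-- A shifted sequence which agrees at the start agrees everywhere. -/
theorem shift (c x y : List ℤ) (hx : US.valid (c, x)) (hy : US.valid (c, y)) (j : ℕ) (s : ℤ)
    (h : ∀ n < c.length, val (c, y) (n + j) = s * val (c, x) n) (n : ℕ) :
    val (c, y) (n + j) = s * val (c, x) n := by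
  induction n using Nat.strong_induction_on with
  | _ n ih =>
    by_cases hn : n < c.length
    · exact h n hn
    · obtain ⟨m, rfl⟩ : ∃ m, n = m + c.length := ⟨n - c.length, by omega⟩
      have h1 := US.val_rec (c, y) hy (m + j)
      have h2 := US.val_rec (c, x) hx m
      simp only at h1 h2
      have e1 : m + c.length + j = m + j + c.length := by omega
      rw [e1, h1, h2, Finset.mul_sum]
      refine Finset.sum_congr rfl fun i hi => ?_
      have hi' := Finset.mem_range.1 hi
      have e2 : m + j + c.length - 1 - i = (m + c.length - 1 - i) + j := by omega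
      rw [e2, ih (m + c.length - 1 - i) (by omega)]
      ring

end JSnd

theorem prSnd (hMod : StMod) (hChC : StChC) (hSou : StSou) (hRel : StRel) : StSnd := by
  intro c x u hc hx hcd hinit hrec
  have hv : US.valid (c, x) := ⟨hx.symm, hc, hcd⟩
  have hu : u = val (c, x) := funext fun n => US.eq_val (c, x) hv u hinit hrec n
  refine ⟨hu, fun m hm => ?_, fun D hD => ?_⟩
  · obtain ⟨h1, h2, h3⟩ := (hMod (c, x) hv m).1 hm
    refine ⟨h1, h2, fun n => ?_⟩
    rw [hu]
    exact h3 n
  · obtain ⟨j, s, y, T, Q⟩ := D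
    obtain ⟨h1, h2, h3, h4, h5, h6⟩ := hD
    simp only at h1 h2 h3 h4 h5 h6
    have hvy : US.valid (c, y) := ⟨h1.symm, hc, hcd⟩
    have hsh := JSnd.shift c x y hv hvy j s h4
    have hdeg : (Rk.charPoly c).natDegree = c.length := Rk.charPoly_natDegree c
    have hpr : ∀ n, pr (Rk.charPoly c).natDegree (W (Rk.charPoly c) n)
        (vec (Rk.charPoly c).natDegree y) = val (c, y) n := by
      intro n
      rw [hRel c y hvy n, hdeg]
    have hne : ∀ m : ℕ, 1 ≤ m → val (c, y) m ≠ 0 := by
      intro m hm
      rw [← hpr m]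
      refine hSou (Rk.charPoly c) (vec (Rk.charPoly c).natDegree y) (Rk.charPoly_monic c) ?_ ?_
        ((hChC c y hvy).2 ⟨T, Q, h6⟩) m hm
      · rw [hdeg]
        exact hc
      · rw [hpr 0]
        exact h5
    refine ⟨h2, fun n h0 => ?_, s, val (c, y), h3, h5, fun n => US.val_rec (c, y) hvy n, fun n => ?_⟩
    · refine hne (n + j) (by omega) ?_
      rw [hsh n, ← hu, h0, mul_zero]
    · rw [hu]
      exact hsh n

end Pool.Agent.Work.MP_8d13b5_lc.LG
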