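import Pool.Agent.Work.MP_8d13b5_lc.LG.Stmts

set_option autoImplicit false

/-! Item Sou: a certificate is correct. -/

open Polynomial Filter Topology NumberField

namespace Pool.Agent.Work.MP_8d13b5_lc.LG

namespace JSou

lemma per (f : ℤ[X]) (y : Fin f.natDegree → ℤ) (p T : ℕ)
    (h : ∀ n, (p : ℤ) ∣ pr f.natDegree (W f (n + T)) y - pr f.natDegree (W f n) y) (n j : ℕ) :
    (p : ℤ) ∣ pr f.natDegree (W f (n + T * j)) y - pr f.natDegree (W f n) y := by
  induction j with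
  | zero => simp
  | succ j ih =>
    have h1 := h (n + T * j)
    have e : n + T * (j + 1) = n + T * j + T := by ring
    rw [e]
    have h2 := dvd_add h1 ih
    rwa [sub_add_sub_cancel] at h2

end JSou

theorem prSou (hIso : StIso) : StSou := by
  intro f y hf hd h0 hC m hm hzero
  obtain ⟨T, Q, hT, hQ, hcov⟩ := hC
  obtain ⟨m', j, hm1, hmT, hmj⟩ : ∃ m' j : ℕ, 1 ≤ m' ∧ m' ≤ T ∧ m = m' + T * j := by
    refine ⟨(m - 1) % T + 1, (m - 1) / T, by omega, ?_, ?_⟩
    · have := Nat.mod_lt (m - 1) hT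
      omega
    · have := Nat.mod_add_div (m - 1) T
      omega
  rcases hcov m' hm1 hmT with ⟨q, hq, hnd⟩ | ⟨q, hq, hrd, hnd⟩
  · obtain ⟨-, -, hper⟩ := hQ q hq
    have h1 := JSou.per f y q.1 T hper m' j
    rw [← hmj, hzero, zero_sub, dvd_neg] at h1
    exact hnd h1
  · obtain ⟨hI, hrT, -⟩ := hQ q hq
    have h2 : q.2.1 ∣ m := by
      rw [hmj]
      exact dvd_add hrd (hrT.mul_right j)
    obtain ⟨m'', rfl⟩ := h2
    have h3 : 1 ≤ m'' := by
      rcases Nat.eq_zero_or_pos m'' with h | h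
      · rw [h, mul_zero] at hm; omega
      · exact h
    exact hIso f y q.1 q.2.1 q.2.2.1 q.2.2.2 hf hd hI h0 hnd m'' h3 hzero

end Pool.Agent.Work.MP_8d13b5_lc.LG
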