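import Pool.Agent.Work.MP_8d13b5_lc.LG.StmtsK

/-!
# MP_8d13b5_lc, block LG, item Spl: splitting of `X ^ m - c` modulo a large prime
-/

set_option autoImplicit false

open Polynomial

namespace Pool.Agent.Work.MP_8d13b5_lc.LG

namespace JSpl

/-- a primitive root of unity of order `m` exists if `m` divides `p - 1` -/
theorem exists_prim (p : ℕ) [Fact p.Prime] (m : ℕ) (h : m ∣ p - 1) :
    ∃ ζ : ZMod p, IsPrimitiveRoot ζ m := by
  obtain ⟨g, hg⟩ := IsCyclic.exists_ofOrder_eq_natCard (α := (ZMod p)ˣ)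
  have hc : Nat.card (ZMod p)ˣ = p - 1 := by
    rw [Nat.card_eq_fintype_card, ZMod.card_units]
  have hp := (Fact.out : p.Prime).two_le
  obtain ⟨q, hq⟩ := h
  have hprim : IsPrimitiveRoot g (p - 1) := by
    rw [← hc, ← hg]
    exact IsPrimitiveRoot.orderOf g
  have h1 : IsPrimitiveRoot (g ^ q) m :=
    hprim.pow (by omega) (by rw [hq]; ring)
  exact ⟨((g ^ q : (ZMod p)ˣ) : ZMod p), IsPrimitiveRoot.coe_units_iff.2 h1⟩

theorem dvd_of_splits (p : ℕ) [Fact p.Prime] (m : ℕ) (hm : 1 ≤ m) (hmp : m < p)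
    (h : (X ^ m - 1 : (ZMod p)[X]).Splits) : m ∣ p - 1 := by
  have hm0 : (m : ZMod p) ≠ 0 := by
    intro h0
    rw [ZMod.natCast_eq_zero_iff] at h0
    exact absurd (Nat.le_of_dvd (by omega) h0) (by omega)
  have hsep : (X ^ m - 1 : (ZMod p)[X]).Separable := X_pow_sub_one_separable_iff.2 hm0
  have hnd : (nthRoots m (1 : ZMod p)).Nodup := by
    have := nodup_roots hsep
    unfold nthRoots
    rw [C_1]
    exact this
  have hcard : Multiset.card (nthRoots m (1 : ZMod p)) = m := by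
    have h1 := h.natDegree_eq_card_roots
    unfold nthRoots
    rw [C_1, ← h1]
    have h2 := natDegree_X_pow_sub_C (n := m) (r := (1 : ZMod p))
    rwa [C_1] at h2
  have : NeZero m := ⟨by omega⟩
  have h3 : Nat.card (rootsOfUnity m (ZMod p)) = m := by
    rw [Nat.card_congr (rootsOfUnityEquivNthRoots (ZMod p) m)]
    classical
    have h4 : Nat.card {x // x ∈ nthRoots m (1 : ZMod p)} =
        (nthRoots m (1 : ZMod p)).toFinset.card := by
      rw [Nat.card_congr (Equiv.subtypeEquivRight (q := fun x =>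
        x ∈ (nthRoots m (1 : ZMod p)).toFinset) fun x => Multiset.mem_toFinset.symm),
        Nat.card_eq_fintype_card, Fintype.card_coe]
    rw [h4, Multiset.toFinset_card_of_nodup hnd, hcard]
  have h5 := Subgroup.card_subgroup_dvd_card (rootsOfUnity m (ZMod p))
  rw [h3, Nat.card_eq_fintype_card, ZMod.card_units] at h5
  exact h5

end JSpl

open JSpl

/-- [Spl] -/
theorem prSpl : StSpl := by
  intro p _ m hm hmp
  have hspl : ∀ (t : ZMod p), m ∣ p - 1 → (X ^ m - C (t ^ m) : (ZMod p)[X]).Splits := by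
    intro t hd
    obtain ⟨ζ, hζ⟩ := exists_prim p m hd
    exact X_pow_sub_C_splits_of_isPrimitiveRoot hζ rfl
  refine ⟨⟨dvd_of_splits p m hm hmp, fun hd => ?_⟩, fun c => ⟨fun h => ?_, ?_⟩⟩
  · have := hspl 1 hd
    rwa [one_pow, C_1] at this
  · obtain ⟨t, ht⟩ := h.exists_eval_eq_zero (by
      rw [degree_X_pow_sub_C (by omega)]
      exact_mod_cast (by omega : m ≠ 0))
    refine ⟨t, ?_⟩
    rw [eval_sub, eval_pow, eval_X, eval_C, sub_eq_zero] at ht
    exact ht.symm
  · rintro hd ⟨t, rfl⟩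
    exact hspl t hd

end Pool.Agent.Work.MP_8d13b5_lc.LG
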