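import Pool.Agent.Work.MP_8d13b5_lc.LG.AlgStmts

/-!
# MP_8d13b5_lc, block LG, part A: item Srch
-/

set_option autoImplicit false

open Polynomial Encodable

namespace Pool.Agent.Work.MP_8d13b5_lc.LG.JSrch

open Classical in
/-- one step of the search -/
noncomputable def tst (x : List ℤ × List ℤ) (k : ℕ) : Option (ℕ × ℕ) :=
  if val x k = 0 then some (0, k) else if ChM x k then some (1, k) else
    Option.casesOn (motive := fun _ => Option (ℕ × ℕ)) (decode k : Option Dat) none
      (fun D => if Ch x D then some (2, D.1) else none)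

theorem primrec_tst (h1 : StPrD) (h2 : StPrM) : Primrec₂ tst := by
  classical
  unfold tst
  refine Primrec.ite ?_ ?_ (Primrec.ite ?_ ?_ ?_)
  · exact Primrec.eq.comp primrec_val (Primrec.const 0)
  · exact Primrec.option_some.comp (Primrec.pair (Primrec.const 0) Primrec.snd)
  · exact h2
  · exact Primrec.option_some.comp (Primrec.pair (Primrec.const 1) Primrec.snd)
  · refine Primrec.option_casesOn
      (g := fun (p : (List ℤ × List ℤ) × ℕ) (D : Dat) =>
        if Ch p.1 D then some (2, D.1) else none) (Primrec.decode.comp Primrec.snd)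
        (Primrec.const none) ?_
    refine Primrec.ite ?_ ?_ (Primrec.const none)
    · exact PrimrecRel.comp h1 (Primrec.fst.comp Primrec.fst) Primrec.snd
    · exact Primrec.option_some.comp (Primrec.pair (Primrec.const 2)
        (Primrec.fst.comp Primrec.snd))

theorem tst_mem {x : List ℤ × List ℤ} {k : ℕ} {w : ℕ × ℕ} (h : tst x k = some w) :
    (w.1 = 0 ∧ val x w.2 = 0) ∨ (w.1 = 1 ∧ ChM x w.2) ∨
      (w.1 = 2 ∧ ∃ D : Dat, D.1 = w.2 ∧ Ch x D) := by
  unfold tst at h
  split_ifs at h with h1 h2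
  · obtain rfl := Option.some.inj h
    exact Or.inl ⟨rfl, h1⟩
  · obtain rfl := Option.some.inj h
    exact Or.inr (Or.inl ⟨rfl, h2⟩)
  · cases hd : (decode k : Option Dat) with
    | none =>
      rw [hd] at h
      exact absurd h (by simp)
    | some D =>
      rw [hd] at h
      by_cases hD : Ch x D
      · have h3 : some (2, D.1) = some w := by
          simpa [hD] using h
        obtain rfl := Option.some.inj h3
        exact Or.inr (Or.inr ⟨rfl, D, rfl, hD⟩)
      · simp [hD] at h

theorem tst_dom {x : List ℤ × List ℤ} (h : (∃ n, val x n = 0) ∨ (∃ m, ChM x m) ∨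
    ∃ D : Dat, Ch x D) : ∃ k w, tst x k = some w := by
  rcases h with ⟨n, hn⟩ | ⟨m, hm⟩ | ⟨D, hD⟩
  · exact ⟨n, (0, n), by unfold tst; rw [if_pos hn]⟩
  · by_cases h1 : val x m = 0
    · exact ⟨m, (0, m), by unfold tst; rw [if_pos h1]⟩
    · exact ⟨m, (1, m), by unfold tst; rw [if_neg h1, if_pos hm]⟩
  · by_cases h1 : val x (encode D) = 0
    · exact ⟨encode D, (0, encode D), by unfold tst; rw [if_pos h1]⟩
    · by_cases h2 : ChM x (encode D)
      · exact ⟨encode D, (1, encode D), by unfold tst; rw [if_neg h1, if_pos h2]⟩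
      · refine ⟨encode D, (2, D.1), ?_⟩
        unfold tst
        rw [if_neg h1, if_neg h2, encodek]
        exact if_pos hD

end Pool.Agent.Work.MP_8d13b5_lc.LG.JSrch

namespace Pool.Agent.Work.MP_8d13b5_lc.LG

open JSrch

theorem prSrch : StSrch := by
  intro h1 h2
  refine ⟨fun x => Nat.rfindOpt (tst x), Partrec.rfindOpt (primrec_tst h1 h2).to_comp,
    fun x => ⟨fun w hw => ?_, fun h => ?_⟩⟩
  · obtain ⟨k, hk⟩ := Nat.rfindOpt_spec hw
    exact tst_mem hk
  · obtain ⟨k, w, hk⟩ := tst_dom h
    exact Nat.rfindOpt_dom.2 ⟨k, w, hk⟩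

end Pool.Agent.Work.MP_8d13b5_lc.LG
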