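import Pool.Agent.Work.MP_8d13b5_lc.LG.Stmts

/-!
# MP_8d13b5_lc, block LG, item Top: the vectors with a zero modulo a large modulus lie in a hyperplane
-/

set_option autoImplicit false

open Polynomial

namespace Pool.Agent.Work.MP_8d13b5_lc.LG

namespace JTop

/-- a matrix whose rows are killed by a nonzero vector modulo `p` has determinant divisible by `p` -/
theorem p_dvd_det {d : ℕ} (p : ℕ) [Fact p.Prime] (U : Matrix (Fin d) (Fin d) ℤ) (w : Fin d → ℤ)
    (hw : ∃ i, ¬ (p : ℤ) ∣ w i) (h : ∀ i, (p : ℤ) ∣ ∑ j, U i j * w j) : (p : ℤ) ∣ U.det := by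
  rw [← ZMod.intCast_zmod_eq_zero_iff_dvd]
  have e0 : ((U.det : ℤ) : ZMod p) = ((Int.castRingHom (ZMod p)).mapMatrix U).det := by
    rw [← RingHom.map_det]
    rfl
  rw [e0, ← Matrix.exists_mulVec_eq_zero_iff]
  refine ⟨fun j => ((w j : ℤ) : ZMod p), ?_, ?_⟩
  · obtain ⟨i, hi⟩ := hw
    intro h0
    apply hi
    rw [← ZMod.intCast_zmod_eq_zero_iff_dvd]
    exact congrFun h0 i
  · funext i
    have h1 := h i
    rw [← ZMod.intCast_zmod_eq_zero_iff_dvd] at h1
    rw [Matrix.mulVec, dotProduct]
    simp only [RingHom.mapMatrix_apply, Matrix.map_apply, Int.coe_castRingHom, Pi.zero_apply]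
    push_cast at h1
    exact h1

theorem W_deg (f : ℤ[X]) (n : ℕ) (hf : f.Monic) (hd : 1 ≤ f.natDegree) :
    (W f n).natDegree < f.natDegree := by
  unfold W
  refine natDegree_modByMonic_lt _ hf ?_
  rintro rfl
  rw [natDegree_one] at hd
  omega

theorem W_nz (hPer : StPer) (f : ℤ[X]) (p n : ℕ) (hf : f.Monic) (hd : 1 ≤ f.natDegree)
    (hp : Good f p) : ∃ i : Fin f.natDegree, ¬ (p : ℤ) ∣ (W f n).coeff i := by
  by_contra hcon
  push Not at hcon
  apply (hPer f p hf hd hp).2.1 n
  ext i
  rw [coeff_map, coeff_zero, Int.coe_castRingHom, ZMod.intCast_zmod_eq_zero_iff_dvd]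
  by_cases hi : i < f.natDegree
  · exact hcon ⟨i, hi⟩
  · rw [coeff_eq_zero_of_natDegree_lt (lt_of_lt_of_le (W_deg f n hf hd) (not_lt.1 hi))]
    exact dvd_zero _

/-- a nonzero rational linear form has a primitive integral multiple -/
theorem primitive {d : ℕ} (hd : 1 ≤ d) (c : Fin d → ℚ) (hc : c ≠ 0) : ∃ C : ℤ[X], Prim d C ∧
    ∀ x : Fin d → ℤ, ∑ i, c i * (x i : ℚ) = 0 → pr d C x = 0 := by
  classical
  obtain ⟨q, hq⟩ : ∃ q : ℚ[X], q = ∑ i : Fin d, Polynomial.C (c i) * X ^ (i : ℕ) := ⟨_, rfl⟩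
  have hqc : ∀ i : Fin d, q.coeff i = c i := by
    intro i
    rw [hq, finsetSum_coeff]
    simp only [coeff_C_mul, coeff_X_pow]
    rw [Finset.sum_eq_single i]
    · simp
    · intro j _ hj
      have : (i : ℕ) ≠ j := fun e => hj (Fin.ext e.symm)
      rw [if_neg this, mul_zero]
    · intro h
      exact absurd (Finset.mem_univ i) h
  have hqd : ∀ m, d ≤ m → q.coeff m = 0 := by
    intro m hm
    rw [hq, finsetSum_coeff]
    refine Finset.sum_eq_zero fun j _ => ?_
    rw [coeff_C_mul, coeff_X_pow, if_neg (by omega), mul_zero]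
  have hq0 : q ≠ 0 := by
    rintro rfl
    apply hc
    funext i
    rw [← hqc i, coeff_zero, Pi.zero_apply]
  obtain ⟨b, hbm, hb⟩ := IsLocalization.integerNormalization_spec (nonZeroDivisors ℤ) q
  obtain ⟨P, hP⟩ : ∃ P : ℤ[X], P = IsLocalization.integerNormalization (nonZeroDivisors ℤ) q :=
    ⟨_, rfl⟩
  rw [← hP] at hb
  have hPc : ∀ m, (P.coeff m : ℚ) = (b : ℚ) * q.coeff m := by
    intro m
    have h1 := congrArg (fun r : ℚ[X] => r.coeff m) hb
    simp only [coeff_map, coeff_smul] at h1
    rw [zsmul_eq_mul] at h1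
    simpa using h1
  have hb0 : (b : ℚ) ≠ 0 := by
    have := nonZeroDivisors.ne_zero hbm
    exact_mod_cast this
  have hP0 : P ≠ 0 := by
    rintro rfl
    apply hq0
    ext m
    have h1 := hPc m
    rw [coeff_zero, Int.cast_zero] at h1
    rw [coeff_zero]
    rcases mul_eq_zero.1 h1.symm with h2 | h2
    · exact absurd h2 hb0
    · exact h2
  have hPd : P.natDegree < d := by
    rw [natDegree_lt_iff_degree_lt hP0, degree_lt_iff_coeff_zero]
    intro m hm
    have h1 := hPc m
    rw [hqd m hm, mul_zero] at h1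
    exact_mod_cast h1
  refine ⟨P.primPart, ⟨?_, P.isPrimitive_primPart.content_eq_one⟩, ?_⟩
  · rw [P.natDegree_primPart]
    exact hPd
  · intro x hx
    have hcont : P.content ≠ 0 := by
      rw [Ne, content_eq_zero_iff]
      exact hP0
    have h1 : ∀ m, P.coeff m = P.content * P.primPart.coeff m := by
      intro m
      conv_lhs => rw [P.eq_C_content_mul_primPart]
      rw [coeff_C_mul]
    have h2 : P.content * pr d P.primPart x = 0 := by
      have h3 : P.content * pr d P.primPart x = ∑ i : Fin d, P.coeff i * x i := by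
        unfold pr
        rw [Finset.mul_sum]
        refine Finset.sum_congr rfl fun i _ => ?_
        rw [h1 i]
        ring
      rw [h3]
      have h4 : ((∑ i : Fin d, P.coeff i * x i : ℤ) : ℚ) = 0 := by
        push_cast
        have h5 : ∑ i : Fin d, (P.coeff i : ℚ) * (x i : ℚ) =
            (b : ℚ) * ∑ i : Fin d, c i * (x i : ℚ) := by
          rw [Finset.mul_sum]
          refine Finset.sum_congr rfl fun i _ => ?_
          rw [hPc, hqc]
          ring
        rw [h5, hx, mul_zero]
      exact_mod_cast h4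
    rcases mul_eq_zero.1 h2 with h3 | h3
    · exact absurd h3 hcont
    · exact h3

end JTop

open JTop in
/-- item Top -/
theorem prTop (hPer : StPer) : StTop := by
  intro f P H n hf hd hP hM
  obtain ⟨d, hdd⟩ : ∃ d, d = f.natDegree := ⟨_, rfl⟩
  obtain ⟨S, hS⟩ : ∃ S : Set (Fin f.natDegree → ℤ), S = {x | x ∈ Bx f.natDegree H ∧
    (MP P : ℤ) ∣ pr f.natDegree (W f n) x} := ⟨_, rfl⟩
  obtain ⟨e, he⟩ : ∃ e : (Fin f.natDegree → ℤ) → (Fin f.natDegree → ℚ),
    e = fun x i => (x i : ℚ) := ⟨_, rfl⟩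
  have key : Submodule.span ℚ (e '' S) ≠ ⊤ := by
    intro htop
    obtain ⟨u, hu, _, huli⟩ := Submodule.exists_fun_fin_finrank_span_eq ℚ (e '' S)
    have hrank : Module.finrank ℚ (Submodule.span ℚ (e '' S)) = f.natDegree := by
      rw [htop, finrank_top, Module.finrank_fin_fun]
    obtain ⟨v, hvd⟩ : ∃ v : Fin f.natDegree → (Fin f.natDegree → ℚ),
      v = fun i => u (Fin.cast hrank.symm i) := ⟨_, rfl⟩
    have hv : ∀ i, v i ∈ e '' S := fun i => by rw [hvd]; exact hu _
    have hvli : LinearIndependent ℚ v := by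
      rw [hvd]
      exact huli.comp _ (Fin.cast_injective _)
    choose x hxS hxv using hv
    obtain ⟨U, hU⟩ : ∃ U : Matrix (Fin f.natDegree) (Fin f.natDegree) ℤ, U = Matrix.of x :=
      ⟨_, rfl⟩
    have hUx : ∀ i j, U i j = x i j := fun i j => by rw [hU]; rfl
    have hdet : U.det ≠ 0 := by
      have h1 : IsUnit ((Int.castRingHom ℚ).mapMatrix U) := by
        rw [← Matrix.linearIndependent_rows_iff_isUnit]
        have h2 : ((Int.castRingHom ℚ).mapMatrix U).row = v := by
          funext i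
          rw [← hxv i, he]
          funext j
          simp only [Matrix.row, RingHom.mapMatrix_apply, Matrix.map_apply, hUx, Int.coe_castRingHom]
        rw [h2]
        exact hvli
      intro h0
      rw [Matrix.isUnit_iff_isUnit_det, ← RingHom.map_det, h0, map_zero] at h1
      exact not_isUnit_zero h1
    have hdvd : (MP P : ℤ) ∣ U.det := by
      have h1 : ∀ p ∈ P, (p : ℤ) ∣ U.det := by
        intro p hp
        have hpp : p.Prime := (hP p hp).1
        haveI : Fact p.Prime := ⟨hpp⟩
        refine p_dvd_det p U (fun j => (W f n).coeff j) (W_nz hPer f p n hf hd (hP p hp)) ?_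
        intro i
        have h2 := hxS i
        rw [hS] at h2
        have h3 : (p : ℤ) ∣ (MP P : ℤ) := by
          exact_mod_cast Finset.dvd_prod_of_mem (fun q : ℕ => q) hp
        have h4 := h3.trans h2.2
        have h5 : ∑ j, U i j * (W f n).coeff j = pr f.natDegree (W f n) (x i) := by
          unfold pr
          refine Finset.sum_congr rfl fun j _ => ?_
          rw [hUx]
          ring
        rw [h5]
        exact h4
      have h2 : (MP P) ∣ U.det.natAbs := by
        refine Finset.prod_primes_dvd _ (fun p hp => ((hP p hp).1).prime) fun p hp => ?_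
        exact Int.natCast_dvd.1 (h1 p hp)
      exact Int.natCast_dvd.2 h2
    have hle : |U.det| ≤ (f.natDegree.factorial * H ^ f.natDegree : ℕ) := by
      have h1 := Matrix.det_le (A := U) (abv := AbsoluteValue.abs) (x := (H : ℤ)) (by
        intro i j
        rw [hUx, AbsoluteValue.abs_apply, abs_le]
        have h2 := hxS i
        rw [hS] at h2
        exact Finset.mem_Icc.1 (Fintype.mem_piFinset.1 h2.1 j))
      rw [AbsoluteValue.abs_apply, Fintype.card_fin, nsmul_eq_mul] at h1
      push_cast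
      exact h1
    have h6 : |U.det| < (MP P : ℤ) := lt_of_le_of_lt hle (by exact_mod_cast hM)
    exact hdet (Int.eq_zero_of_abs_lt_dvd hdvd h6)
  obtain ⟨φ, hφ0, hφ⟩ := Submodule.exists_le_ker_of_lt_top _ (lt_top_iff_ne_top.2 key)
  have hφc : ∀ y : Fin f.natDegree → ℚ, φ y = ∑ i, φ (Pi.single i 1) * y i := by
    intro y
    conv_lhs => rw [← Finset.univ_sum_single y]
    rw [map_sum]
    refine Finset.sum_congr rfl fun i _ => ?_
    have h1 : (Pi.single i (y i) : Fin f.natDegree → ℚ) = y i • Pi.single i 1 := by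
      rw [← Pi.single_smul, smul_eq_mul, mul_one]
    rw [h1, map_smul, smul_eq_mul, mul_comm]
  obtain ⟨C, hC, hCx⟩ := primitive hd (fun i => φ (Pi.single i 1)) (by
    intro h0
    apply hφ0
    apply LinearMap.ext
    intro y
    rw [hφc]
    simp only [LinearMap.zero_apply]
    refine Finset.sum_eq_zero fun i _ => ?_
    have h1 := congrFun h0 i
    simp only [Pi.zero_apply] at h1
    rw [h1, zero_mul])
  refine ⟨C, hC, fun x hx hdiv => hCx x ?_⟩
  have h1 : e x ∈ Submodule.span ℚ (e '' S) :=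
    Submodule.subset_span ⟨x, by rw [hS]; exact ⟨hx, hdiv⟩, rfl⟩
  have h2 : φ (e x) = 0 := hφ h1
  rw [hφc, he] at h2
  exact h2

end Pool.Agent.Work.MP_8d13b5_lc.LG
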