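import Pool.Agent.Work.MP_8d13b5_lc.LG.Stmts

set_option autoImplicit false

/-!
# MP_8d13b5_lc, block LG, item Tot
-/

open Polynomial Filter Topology NumberField

namespace Pool.Agent.Work.MP_8d13b5_lc.LG

theorem prTot (hCnt : StCnt) (hC5 : StC5) : StTot := by
  classical
  intro f hf hd ε hε
  obtain ⟨𝒞, h𝒞, H1, hH1⟩ := hCnt f hf hd (ε / 2) (by positivity)
  have hδ : 0 < ε / (2 * ((𝒞.card : ℝ) + 1)) := by positivity
  have key : ∀ C : ℤ[X], ∃ H0 : ℕ, C ∈ 𝒞 → ∀ H : ℕ, H0 ≤ H →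
      (Set.ncard {x | x ∈ Bx f.natDegree H ∧ pr f.natDegree C x = 0 ∧
        (∀ n, pr f.natDegree (W f n) x ≠ 0) ∧ ¬ Cert' f x} : ℝ) ≤
          ε / (2 * ((𝒞.card : ℝ) + 1)) * (H : ℝ) ^ (f.natDegree - 1) := by
    intro C
    by_cases hC : C ∈ 𝒞
    · obtain ⟨H0, hH0⟩ := hC5 f hf hd C (h𝒞 C hC).1 (h𝒞 C hC).2 _ hδ
      exact ⟨H0, fun _ => hH0⟩
    · exact ⟨0, fun h => absurd h hC⟩
  choose H2 hH2 using key
  refine ⟨max H1 (𝒞.sup H2), ?_⟩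
  intro H hH
  have hHa : H1 ≤ H := (le_max_left _ _).trans hH
  have hHb : ∀ C ∈ 𝒞, H2 C ≤ H := fun C hC => (Finset.le_sup hC).trans ((le_max_right _ _).trans hH)
  set A : Set (Fin f.natDegree → ℤ) :=
    {x | x ∈ Bx f.natDegree H ∧ Bad f x ∧ ∀ C ∈ 𝒞, pr f.natDegree C x ≠ 0} with hA
  set D : ℤ[X] → Set (Fin f.natDegree → ℤ) := fun C =>
    {x | x ∈ Bx f.natDegree H ∧ pr f.natDegree C x = 0 ∧
        (∀ n, pr f.natDegree (W f n) x ≠ 0) ∧ ¬ Cert' f x} with hD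
  have hsub : {x | x ∈ Bx f.natDegree H ∧ Bad f x ∧
      (∀ n, pr f.natDegree (W f n) x ≠ 0) ∧ ¬ Cert' f x} ⊆ A ∪ ⋃ C ∈ 𝒞, D C := by
    rintro x ⟨hx1, hx2, hx3, hx4⟩
    by_cases h : ∀ C ∈ 𝒞, pr f.natDegree C x ≠ 0
    · exact Or.inl ⟨hx1, hx2, h⟩
    · push Not at h
      obtain ⟨C, hC, hC0⟩ := h
      refine Or.inr ?_
      simp only [Set.mem_iUnion]
      exact ⟨C, hC, hx1, hC0, hx3, hx4⟩
  have hfinA : A.Finite := (Bx f.natDegree H).finite_toSet.subset fun x hx => hx.1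
  have hfinD : ∀ C, (D C).Finite := fun C => (Bx f.natDegree H).finite_toSet.subset fun x hx => hx.1
  have hfinU : (⋃ C ∈ 𝒞, D C).Finite := by
    apply Set.Finite.biUnion 𝒞.finite_toSet
    intro C _
    exact hfinD C
  have h1 : Set.ncard {x | x ∈ Bx f.natDegree H ∧ Bad f x ∧
      (∀ n, pr f.natDegree (W f n) x ≠ 0) ∧ ¬ Cert' f x} ≤ A.ncard + ∑ C ∈ 𝒞, (D C).ncard := by
    refine (Set.ncard_le_ncard hsub (hfinA.union hfinU)).trans ?_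
    refine (Set.ncard_union_le _ _).trans ?_
    gcongr
    have : ∀ S : Finset ℤ[X], (⋃ C ∈ S, D C).ncard ≤ ∑ C ∈ S, (D C).ncard := by
      intro S
      induction S using Finset.induction_on with
      | empty => simp
      | insert a s ha ih =>
        rw [Finset.set_biUnion_insert, Finset.sum_insert ha]
        exact (Set.ncard_union_le _ _).trans (by omega)
    exact this 𝒞
  have h2 : ((A.ncard + ∑ C ∈ 𝒞, (D C).ncard : ℕ) : ℝ) ≤ ε / 2 * (H : ℝ) ^ (f.natDegree - 1) +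
      ∑ C ∈ 𝒞, ε / (2 * ((𝒞.card : ℝ) + 1)) * (H : ℝ) ^ (f.natDegree - 1) := by
    push_cast
    apply add_le_add (hH1 H hHa)
    apply Finset.sum_le_sum
    intro C hC
    exact hH2 C hC H (hHb C hC)
  have h3 : ∑ C ∈ 𝒞, ε / (2 * ((𝒞.card : ℝ) + 1)) * (H : ℝ) ^ (f.natDegree - 1) ≤
      ε / 2 * (H : ℝ) ^ (f.natDegree - 1) := by
    rw [Finset.sum_const, nsmul_eq_mul, ← mul_assoc]
    apply mul_le_mul_of_nonneg_right _ (by positivity)
    have hc : (0 : ℝ) ≤ 𝒞.card := Nat.cast_nonneg _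
    rw [mul_div_assoc', div_le_div_iff₀ (by positivity) (by norm_num)]
    nlinarith
  have h1' : (Set.ncard {x | x ∈ Bx f.natDegree H ∧ Bad f x ∧
      (∀ n, pr f.natDegree (W f n) x ≠ 0) ∧ ¬ Cert' f x} : ℝ) ≤
      ((A.ncard + ∑ C ∈ 𝒞, (D C).ncard : ℕ) : ℝ) := by exact_mod_cast h1
  linarith

end Pool.Agent.Work.MP_8d13b5_lc.LG
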