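import Pool.Agent.Work.MP_8d13b5_lc.LG.StmtsK

set_option autoImplicit false

/-! Item Two of the block LG: from single quotients to one exponent. -/

open Polynomial NumberField Module

namespace Pool.Agent.Work.MP_8d13b5_lc.LG

namespace JTwo

variable {ι : Type} [Fintype ι]

/-- the vectors of integers with the sum zero -/
def A (ι : Type) [Fintype ι] : Submodule ℤ (ι → ℤ) where
  carrier := {k | ∑ i, k i = 0}
  zero_mem' := by simp
  add_mem' := by
    intro a b ha hb
    simp only [Set.mem_ofPred_eq, Pi.add_apply, Finset.sum_add_distrib] at *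
    rw [ha, hb, add_zero]
  smul_mem' := by
    intro c a ha
    simp only [Set.mem_ofPred_eq, Pi.smul_apply, smul_eq_mul] at *
    rw [← Finset.mul_sum, ha, mul_zero]

/-- the product of the powers of `u` -/
def pw {M : Type} [CommGroup M] (u : ι → M) : A ι →+ Additive M where
  toFun k := Additive.ofMul (∏ i, u i ^ ((k : ι → ℤ) i))
  map_zero' := by simp
  map_add' := by
    intro a b
    rw [← ofMul_mul, ← Finset.prod_mul_distrib]
    simp [zpow_add]

theorem pw_apply {M : Type} [CommGroup M] (u : ι → M) (k : A ι) :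
    pw u k = Additive.ofMul (∏ i, u i ^ ((k : ι → ℤ) i)) := rfl

theorem fgA : AddGroup.FG (A ι) := by
  rw [← Module.Finite.iff_addGroup_fg]
  infer_instance

/-- the group version -/
theorem grp (hOne : StOne) {M : Type} [CommGroup M] (u v : ι → M)
    (h : ∀ k : ι → ℤ, ∑ i, k i = 0 → ∃ n : ℤ, ∏ i, v i ^ k i = (∏ i, u i ^ k i) ^ n) :
    ∃ n : ℤ, ∀ k : ι → ℤ, ∑ i, k i = 0 → ∏ i, v i ^ k i = (∏ i, u i ^ k i) ^ n := by
  have hA : AddGroup.FG (A ι) := fgA
  have hmem : ∀ k : A ι, pw v k ∈ (pw u).range := by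
    intro k
    obtain ⟨n, hn⟩ := h k k.2
    refine ⟨n • k, ?_⟩
    rw [map_zsmul, pw_apply, pw_apply, hn, ofMul_zpow]
  have hfg : AddGroup.FG (pw u).range := AddGroup.fg_range (pw u)
  set X : A ι →+ (pw u).range := (pw u).rangeRestrict with hX
  have hXs : Function.Surjective X := (pw u).rangeRestrict_surjective
  set Y : A ι →+ (pw u).range := (pw v).codRestrict (pw u).range hmem with hY
  have hker : X.ker ≤ Y.ker := by
    intro k hk
    rw [AddMonoidHom.mem_ker] at hk ⊢
    have h1 : pw u k = 0 := congrArg Subtype.val hk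
    apply Subtype.ext
    show pw v k = 0
    obtain ⟨n, hn⟩ := h k k.2
    rw [pw_apply, hn]
    rw [pw_apply] at h1
    rw [ofMul_zpow, h1, zsmul_zero]
  set g : (pw u).range →+ (pw u).range := X.liftOfSurjective hXs ⟨Y, hker⟩ with hg
  have hgX : ∀ k, g (X k) = Y k := fun k =>
    AddMonoidHom.liftOfRightInverse_comp_apply X _ (Function.rightInverse_surjInv hXs) ⟨Y, hker⟩ k
  have hpow : ∀ x, ∃ n : ℤ, g x = n • x := by
    intro x
    obtain ⟨k, rfl⟩ := hXs x
    obtain ⟨n, hn⟩ := h k k.2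
    refine ⟨n, ?_⟩
    rw [hgX]
    apply Subtype.ext
    show pw v k = n • pw u k
    rw [pw_apply, pw_apply, hn, ofMul_zpow]
  obtain ⟨n, hn⟩ := hOne (pw u).range g hpow
  refine ⟨n, fun k hk => ?_⟩
  have h2 := hn (X ⟨k, hk⟩)
  rw [hgX] at h2
  have h3 : pw v ⟨k, hk⟩ = n • pw u ⟨k, hk⟩ := congrArg Subtype.val h2
  rw [pw_apply, pw_apply, ← ofMul_zpow] at h3
  exact h3

end JTwo

theorem prTwo (hOne : StOne) : StTwo := by
  classical
  intro K _ ι _ x y hx hy h
  set u : ι → Kˣ := fun i => Units.mk0 (x i) (hx i) with hu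
  set v : ι → Kˣ := fun i => Units.mk0 (y i) (hy i) with hv
  obtain ⟨n, hn⟩ := JTwo.grp hOne u v (by
    intro k hk
    obtain ⟨n, hn⟩ := h k hk
    refine ⟨n, ?_⟩
    apply Units.ext
    push_cast
    simpa [hu, hv] using hn)
  refine ⟨n, fun i j => ?_⟩
  rcases eq_or_ne i j with rfl | hij
  · rfl
  have h1 := hn (Pi.single i 1 - Pi.single j 1) (by simp [Finset.sum_sub_distrib])
  have h2 : ∀ w : ι → Kˣ, ∏ l, w l ^ ((Pi.single i 1 - Pi.single j 1 : ι → ℤ) l) =
      w i * (w j)⁻¹ := by
    intro w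
    simp only [Pi.sub_apply, zpow_sub, Finset.prod_mul_distrib]
    congr 1
    · rw [Finset.prod_eq_single i]
      · simp
      · intro b _ hb
        rw [Pi.single_eq_of_ne hb, zpow_zero]
      · intro hb
        exact absurd (Finset.mem_univ _) hb
    · rw [Finset.prod_eq_single j]
      · simp
      · intro b _ hb
        rw [Pi.single_eq_of_ne hb, zpow_zero, inv_one]
      · intro hb
        exact absurd (Finset.mem_univ _) hb
  rw [h2, h2] at h1
  have h3 := congrArg (Units.val) h1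
  have h4 : y i * (y j)⁻¹ = (x i * (x j)⁻¹) ^ n := by
    simpa [hu, hv] using h3
  rw [mul_zpow, inv_zpow] at h4
  have hxj : x j ^ n ≠ 0 := zpow_ne_zero _ (hx j)
  have hyj := hy j
  field_simp at h4
  rw [h4]

end Pool.Agent.Work.MP_8d13b5_lc.LG
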