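import Pool.Agent.Work.MP_8d13b5_lc.LG.MerFinal
import Pool.Agent.Work.MP_8d13b5_lc.LG.AllS
import Pool.Agent.Work.MP_8d13b5_lc.LG.I_BS
import Pool.Agent.Work.MP_8d13b5_lc.LG.I_BE
import Pool.Agent.Work.MP_8d13b5_lc.LG.I_BT
import Pool.Agent.Work.MP_8d13b5_lc.LG.I_BF
import Pool.Agent.Work.MP_8d13b5_lc.LG.I_BC
import Pool.Agent.Work.MP_8d13b5_lc.LG.I_BL
import Pool.Agent.Work.MP_8d13b5_lc.LG.I_BM
import Pool.Agent.Work.MP_8d13b5_lc.LG.I_Lat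
import Pool.Agent.Work.MP_8d13b5_lc.LG.I_Perp
import Pool.Agent.Work.MP_8d13b5_lc.LG.I_Idx
import Pool.Agent.Work.MP_8d13b5_lc.LG.I_Per
import Pool.Agent.Work.MP_8d13b5_lc.LG.I_PerP
import Pool.Agent.Work.MP_8d13b5_lc.LG.I_Fun
import Pool.Agent.Work.MP_8d13b5_lc.LG.I_CI
import Pool.Agent.Work.MP_8d13b5_lc.LG.I_Top
import Pool.Agent.Work.MP_8d13b5_lc.LG.I_Inj
import Pool.Agent.Work.MP_8d13b5_lc.LG.I_Hgt
import Pool.Agent.Work.MP_8d13b5_lc.LG.I_C1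
import Pool.Agent.Work.MP_8d13b5_lc.LG.I_Dy
import Pool.Agent.Work.MP_8d13b5_lc.LG.I_C2
import Pool.Agent.Work.MP_8d13b5_lc.LG.I_Lcm
import Pool.Agent.Work.MP_8d13b5_lc.LG.I_C3
import Pool.Agent.Work.MP_8d13b5_lc.LG.I_D1
import Pool.Agent.Work.MP_8d13b5_lc.LG.I_Cnt
import Pool.Agent.Work.MP_8d13b5_lc.LG.I_Lin
import Pool.Agent.Work.MP_8d13b5_lc.LG.I_Iso
import Pool.Agent.Work.MP_8d13b5_lc.LG.I_Sou
import Pool.Agent.Work.MP_8d13b5_lc.LG.I_Sca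
import Pool.Agent.Work.MP_8d13b5_lc.LG.I_C4
import Pool.Agent.Work.MP_8d13b5_lc.LG.I_Shf
import Pool.Agent.Work.MP_8d13b5_lc.LG.I_C5
import Pool.Agent.Work.MP_8d13b5_lc.LG.I_Tot
import Pool.Agent.Work.MP_8d13b5_lc.LG.I_FinY
import Pool.Agent.Work.MP_8d13b5_lc.LG.I_Div
import Pool.Agent.Work.MP_8d13b5_lc.LG.I_Ab
import Pool.Agent.Work.MP_8d13b5_lc.LG.I_AB
import Pool.Agent.Work.MP_8d13b5_lc.LG.I_Ev1
import Pool.Agent.Work.MP_8d13b5_lc.LG.I_Ev2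
import Pool.Agent.Work.MP_8d13b5_lc.LG.I_Inf
import Pool.Agent.Work.MP_8d13b5_lc.LG.I_Spl
import Pool.Agent.Work.MP_8d13b5_lc.LG.I_GenF
import Pool.Agent.Work.MP_8d13b5_lc.LG.I_Kum
import Pool.Agent.Work.MP_8d13b5_lc.LG.I_Pow
import Pool.Agent.Work.MP_8d13b5_lc.LG.I_Pig
import Pool.Agent.Work.MP_8d13b5_lc.LG.I_Dg1
import Pool.Agent.Work.MP_8d13b5_lc.LG.I_Dg2
import Pool.Agent.Work.MP_8d13b5_lc.LG.I_Dg3
import Pool.Agent.Work.MP_8d13b5_lc.LG.I_Dg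
import Pool.Agent.Work.MP_8d13b5_lc.LG.I_Or0
import Pool.Agent.Work.MP_8d13b5_lc.LG.I_Or2
import Pool.Agent.Work.MP_8d13b5_lc.LG.I_Rou
import Pool.Agent.Work.MP_8d13b5_lc.LG.I_SchE
import Pool.Agent.Work.MP_8d13b5_lc.LG.I_SchF
import Pool.Agent.Work.MP_8d13b5_lc.LG.I_One
import Pool.Agent.Work.MP_8d13b5_lc.LG.I_Two
import Pool.Agent.Work.MP_8d13b5_lc.LG.I_Gd
import Pool.Agent.Work.MP_8d13b5_lc.LG.I_Gal
import Pool.Agent.Work.MP_8d13b5_lc.LG.I_Kl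
import Pool.Agent.Work.MP_8d13b5_lc.LG.I_Rel
import Pool.Agent.Work.MP_8d13b5_lc.LG.I_Mod
import Pool.Agent.Work.MP_8d13b5_lc.LG.I_Md
import Pool.Agent.Work.MP_8d13b5_lc.LG.I_ChI
import Pool.Agent.Work.MP_8d13b5_lc.LG.I_ChC
import Pool.Agent.Work.MP_8d13b5_lc.LG.I_Ch
import Pool.Agent.Work.MP_8d13b5_lc.LG.I_PrI
import Pool.Agent.Work.MP_8d13b5_lc.LG.I_PrC
import Pool.Agent.Work.MP_8d13b5_lc.LG.I_PrD
import Pool.Agent.Work.MP_8d13b5_lc.LG.I_PrM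
import Pool.Agent.Work.MP_8d13b5_lc.LG.I_Srch
import Pool.Agent.Work.MP_8d13b5_lc.LG.I_Snd
import Pool.Agent.Work.MP_8d13b5_lc.LG.I_CntA
import Pool.Agent.Work.MP_8d13b5_lc.LG.I_Fin

/-!
# MP_8d13b5_lc, block LG: assembly of Theorem LG
-/

set_option autoImplicit false

namespace Pool.Agent.Work.MP_8d13b5_lc.LG.All

open Pool.Agent.Work.MP_8d13b5_lc.LG

theorem aSup : StSup := sup_of_mer prMer

theorem aBau : StBau := prBM prMer (prBC prBS prBE prBT prBF) prBL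

theorem aPerp : StPerp := prPerp prLat

theorem aPerP : StPerP := prPerP prPer

theorem aFun : StFun := prFun prPer

theorem aCI : StCI := prCI aPerp prIdx aPerP aFun

theorem aTop : StTop := prTop prPer

theorem aEv2 : StEv2 := prEv2 prEv1

theorem aInf : StInf := prInf aBau

theorem aAB : StAB := prAB prAb (prDiv prFinY)

theorem aDg : StDg := prDg aAB prDg1 prDg2 prDg3

theorem aOr0 : StOr0 := prOr0 aBau prEv1 prSpl prGenF aDg

theorem aOr2 : StOr2 := prOr2 aBau prEv1 prSpl aAB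

theorem aPow : StPow := prPow aBau prEv1 prSpl prGenF prKum

theorem aSchE : StSchE := prSchE aEv2 aPow (prPig prFinY) aOr0 aOr2 (prRou aEv2 aInf)

theorem aKil : StKil := prKl prEv1 aEv2 aInf aSchE (prTwo prOne) prGd prGal

theorem aDy : StDy := prDy aSup aCI prInj aPerp aPerP prHgt

theorem aCnt : StCnt :=
  prCnt (prC1 aSup aTop aPerp aPerP) (prC2 aDy) (prC3 aKil aCI prLcm) prHgt (prD1 aSup prPer)

theorem aC4 : StC4 := prC4 aSup prPer aPerp prIdx aFun prSca prLin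

theorem aTot : StTot := prTot aCnt (prC5 aC4 (prShf prLin) prLin)

theorem aRel : StRel := prRel prLin

theorem aChC : StChC := prChC aRel (prChI aRel)

theorem aCh : StCh := prCh aRel aChC

theorem aSnd : StSnd := prSnd prMod aChC (prSou (prIso prLin)) aRel

theorem aCntA : StCntA := prCntA aTot (prMd aRel) prMod aCh aRel

/-- Theorem LG. -/
theorem lg : LGThm := prFin prSrch (prPrD (prPrC prPrI)) prPrM aSnd aCntA

end Pool.Agent.Work.MP_8d13b5_lc.LG.All
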