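import Mathlib

/-!
# MP_8d13b5_lc, block LG: the exponential local-global principle for almost all locally soluble
# sequences: definitions and the inputs from number theory

Complete paper proof: note 4679 (table notes).  `f` is the characteristic polynomial (monic,
separable, `f(0) ≠ 0`), `W f n = X ^ n mod f`, `pr d C x = ∑_{i < d} C_i x_i`; the sequence with
initial vector `x` is `u_n = pr d (W f n) x`.
-/

set_option autoImplicit false

open Polynomial Filter Topology NumberField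

namespace Pool.Agent.Work.MP_8d13b5_lc.LG

/-- good primes: `f` is a product of different linear factors mod `p`, `p` does not divide `f(0)` -/
def Good (f : ℤ[X]) (p : ℕ) : Prop :=
  p.Prime ∧ ¬ (p : ℤ) ∣ f.coeff 0 ∧ (f.map (Int.castRingHom (ZMod p))).Splits ∧
    (f.map (Int.castRingHom (ZMod p))).Separable

/-- `X ^ n mod f` -/
noncomputable def W (f : ℤ[X]) (n : ℕ) : ℤ[X] := X ^ n %ₘ f

/-- the pairing of coefficient vectors -/
def pr (d : ℕ) (C : ℤ[X]) (x : Fin d → ℤ) : ℤ := ∑ i : Fin d, C.coeff i * x i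

/-- `C` is proportional to `X ^ n` modulo `p` and `f` -/
def Par (f : ℤ[X]) (p : ℕ) (C : ℤ[X]) (n : ℕ) : Prop :=
  ∃ μ : ZMod p, μ ≠ 0 ∧ f.map (Int.castRingHom (ZMod p)) ∣
    C.map (Int.castRingHom (ZMod p)) - Polynomial.C μ * X ^ n

/-- `C` is proportional to `X ^ (n - j)` modulo `f` over `ℚ` for some `n`, `j` -/
def ParQ (f C : ℤ[X]) : Prop :=
  ∃ (n j : ℕ) (a b : ℤ), a ≠ 0 ∧ b ≠ 0 ∧
    f ∣ Polynomial.C a * X ^ j * C - Polynomial.C b * X ^ n

/-- the product of the primes in `P` -/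
def MP (P : Finset ℕ) : ℕ := ∏ p ∈ P, p

/-- the period -/
def TP (P : Finset ℕ) : ℕ := P.lcm (fun p => p - 1)

/-! ## The inputs (proved in the parts N, S, K) -/

/-- [Mer] Mertens' theorem for number fields: the number of ring homomorphisms `𝓞 K → 𝔽_p` is the
number of primes of degree one above `p` -/
def StMer : Prop := ∀ (K : Type) [Field K] [NumberField K],
  Tendsto (fun x : ℝ => (∑ p ∈ (Finset.Icc 1 ⌊x⌋₊).filter Nat.Prime,
    (Nat.card (𝓞 K →+* ZMod p) : ℝ) * Real.log p / p) / Real.log x) atTop (𝓝 1)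

/-- [Bau] Bauer's theorem, polynomial form -/
def StBau : Prop := ∀ (K : Type) [Field K] [NumberField K] (P Q : (𝓞 K)[X]), P.Monic → Q.Monic →
  (∃ B : ℕ, ∀ p : ℕ, p.Prime → B < p → ∀ φ : 𝓞 K →+* ZMod p,
    (P.map φ).Splits → (Q.map φ).Splits) →
  ((Q.map (algebraMap (𝓞 K) K)).map
    (algebraMap K (P.map (algebraMap (𝓞 K) K)).SplittingField)).Splits

/-- [Sch] Schinzel's theorem: an element of a number field which is a power of `γ = c / e` modulo
almost all primes of degree one is a power of `γ` -/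
def StSch : Prop := ∀ (K : Type) [Field K] [NumberField K] (a b c e : 𝓞 K), a ≠ 0 → b ≠ 0 →
  c ≠ 0 → e ≠ 0 →
  (∃ B : ℕ, ∀ p : ℕ, p.Prime → B < p → ∀ φ : 𝓞 K →+* ZMod p,
    ∃ n : ℕ, φ a * φ e ^ n = φ b * φ c ^ n) →
  ∃ n : ℤ, ((a : K) / (b : K)) = ((c : K) / (e : K)) ^ n

/-- [Sup] INPUT S: moduli with a small period -/
def StSup : Prop := ∀ f : ℤ[X], f.Monic → (f.map (Int.castRingHom ℚ)).Separable →
  f.coeff 0 ≠ 0 → ∀ (B : ℕ) (δ : ℝ), 0 < δ → ∃ Z0 : ℝ, ∀ Z : ℝ, Z0 ≤ Z → ∃ P : Finset ℕ,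
    (∀ p ∈ P, Good f p ∧ B < p) ∧ Z ≤ (MP P : ℝ) ∧ (TP P : ℝ) ≤ Z ^ δ

/-- [Kil] INPUT K: killing primes -/
def StKil : Prop := ∀ f : ℤ[X], f.Monic → (f.map (Int.castRingHom ℚ)).Separable →
  f.coeff 0 ≠ 0 → ∀ C : ℤ[X], ¬ ParQ f C → ∀ B : ℕ, ∃ p, B < p ∧ Good f p ∧ ∀ n, ¬ Par f p C n

end Pool.Agent.Work.MP_8d13b5_lc.LG
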