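import Pool.Agent.Work.MP_8d13b5_lc.LG.Stmts

/-!
# MP_8d13b5_lc, block LG, item Lat: lattice points in a box

No induction on the dimension: the set of classes of `ℤ^m / Λ` represented in `[0, k]^m` grows by
at least one element with `k` until it is everything, so `[0, H - 1]^m` contains `min (N, H)`
incongruent vectors `e`; the vectors `s + e` with `s ∈ Λ ∩ [-H, H]^m` are different and lie in
`[-H, 2 H - 1]^m`.
-/

set_option autoImplicit false

open Polynomial

namespace Pool.Agent.Work.MP_8d13b5_lc.LG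

namespace JLat

open Classical in
theorem step (m : ℕ) (Λ : AddSubgroup (Fin m → ℤ)) (E : Finset (Fin m → ℤ)) (hE : E.Nonempty)
    (h : ∀ x ∈ E, ∀ i : Fin m, ∃ y ∈ E, x + Pi.single i 1 - y ∈ Λ) :
    ∀ z : Fin m → ℤ, ∃ y ∈ E, z - y ∈ Λ := by
  set π : (Fin m → ℤ) →+ (Fin m → ℤ) ⧸ Λ := QuotientAddGroup.mk' Λ with hπ
  have hπe : ∀ x y : Fin m → ℤ, π x = π y ↔ x - y ∈ Λ := by
    intro x y
    rw [← sub_eq_zero, ← map_sub]
    exact QuotientAddGroup.eq_zero_iff _
  set P : Finset ((Fin m → ℤ) ⧸ Λ) := E.image π with hP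
  have h1 : ∀ i : Fin m, ∀ g, g ∈ P ↔ g + π (Pi.single i 1) ∈ P := by
    intro i
    have hsub : P.image (fun g => g + π (Pi.single i 1)) ⊆ P := by
      intro g hg
      rw [Finset.mem_image] at hg
      obtain ⟨g', hg', rfl⟩ := hg
      rw [hP, Finset.mem_image] at hg'
      obtain ⟨x, hx, rfl⟩ := hg'
      obtain ⟨y, hy, hxy⟩ := h x hx i
      rw [hP, Finset.mem_image]
      refine ⟨y, hy, ?_⟩
      rw [← map_add]
      exact ((hπe _ _).2 hxy).symm
    have hinj : Function.Injective (fun g => g + π (Pi.single i 1)) := by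
      intro a b hab
      exact add_right_cancel hab
    have heq : P.image (fun g => g + π (Pi.single i 1)) = P :=
      Finset.eq_of_subset_of_card_le hsub (by rw [Finset.card_image_of_injective _ hinj])
    intro g
    constructor
    · intro hg
      exact hsub (Finset.mem_image_of_mem _ hg)
    · intro hg
      rw [← heq, Finset.mem_image] at hg
      obtain ⟨g', hg', he⟩ := hg
      rw [← hinj he]
      exact hg'
  let T : AddSubgroup (Fin m → ℤ) :=
    { carrier := {z | ∀ g, g ∈ P ↔ g + π z ∈ P}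
      zero_mem' := by
        intro g
        rw [map_zero, add_zero]
      add_mem' := by
        intro a b ha hb g
        rw [map_add, ← add_assoc, ← hb, ← ha]
      neg_mem' := by
        intro a ha g
        rw [ha (g + π (-a)), map_neg, neg_add_cancel_right] }
  have hT : ∀ z : Fin m → ℤ, z ∈ T := by
    intro z
    rw [← Finset.univ_sum_single z]
    apply sum_mem
    intro i _
    have e : Pi.single i (z i) = z i • (Pi.single i 1 : Fin m → ℤ) := by
      rw [← Pi.single_smul]
      simp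
    rw [e]
    apply zsmul_mem
    exact h1 i
  intro z
  obtain ⟨e, he⟩ := hE
  have h2 : π e ∈ P := Finset.mem_image_of_mem _ he
  have h3 := (hT (z - e) (π e)).1 h2
  rw [← map_add, add_sub_cancel, hP, Finset.mem_image] at h3
  obtain ⟨y, hy, hyz⟩ := h3
  exact ⟨y, hy, (hπe _ _).1 hyz.symm⟩

theorem full (m : ℕ) (Λ : AddSubgroup (Fin m → ℤ)) (E : Finset (Fin m → ℤ))
    (h : ∀ z : Fin m → ℤ, ∃ y ∈ E, z - y ∈ Λ) : Λ.index ≤ E.card := by
  have hs : Function.Surjective (fun e : E => (QuotientAddGroup.mk' Λ e.1)) := by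
    intro g
    obtain ⟨z, rfl⟩ := QuotientAddGroup.mk'_surjective Λ g
    obtain ⟨y, hy, hzy⟩ := h z
    refine ⟨⟨y, hy⟩, ?_⟩
    change QuotientAddGroup.mk' Λ y = QuotientAddGroup.mk' Λ z
    symm
    rw [← sub_eq_zero, ← map_sub]
    exact (QuotientAddGroup.eq_zero_iff _).2 hzy
  have h1 := Nat.card_le_card_of_surjective _ hs
  have h2 : Nat.card E = E.card := by
    rw [Nat.card_eq_fintype_card, Fintype.card_coe]
  rw [h2] at h1
  exact h1

theorem grow (m : ℕ) (Λ : AddSubgroup (Fin m → ℤ)) (k : ℕ) :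
    ∃ E : Finset (Fin m → ℤ), E.Nonempty ∧ (∀ x ∈ E, ∀ i, 0 ≤ x i ∧ x i ≤ k) ∧
      (∀ x ∈ E, ∀ y ∈ E, x - y ∈ Λ → x = y) ∧ min Λ.index (k + 1) ≤ E.card := by
  classical
  induction k with
  | zero =>
    refine ⟨{0}, ⟨0, Finset.mem_singleton_self _⟩, ?_, ?_, ?_⟩
    · intro x hx i
      rw [Finset.mem_singleton] at hx
      rw [hx]
      simp
    · intro x hx y hy _
      rw [Finset.mem_singleton] at hx hy
      rw [hx, hy]
    · rw [Finset.card_singleton]
      omega
  | succ k ih =>
    obtain ⟨E, hne, hbox, hinj, hcard⟩ := ih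
    by_cases hc : ∀ x ∈ E, ∀ i : Fin m, ∃ y ∈ E, x + Pi.single i 1 - y ∈ Λ
    · refine ⟨E, hne, ?_, hinj, ?_⟩
      · intro x hx i
        obtain ⟨a, b⟩ := hbox x hx i
        refine ⟨a, ?_⟩
        push_cast
        linarith
      · have := full m Λ E (step m Λ E hne hc)
        omega
    · push Not at hc
      obtain ⟨x, hx, i, hxi⟩ := hc
      have hnot : x + Pi.single i 1 ∉ E := by
        intro hmem
        apply hxi _ hmem
        rw [sub_self]
        exact Λ.zero_mem
      refine ⟨insert (x + Pi.single i 1) E, ⟨_, Finset.mem_insert_self _ _⟩, ?_, ?_, ?_⟩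
      · intro w hw j
        rw [Finset.mem_insert] at hw
        rcases hw with hw | hw
        · rw [hw, Pi.add_apply]
          obtain ⟨a, b⟩ := hbox x hx j
          by_cases hj : j = i
          · subst hj
            rw [Pi.single_eq_same]
            push_cast
            constructor <;> linarith
          · rw [Pi.single_eq_of_ne hj]
            push_cast
            constructor <;> linarith
        · obtain ⟨a, b⟩ := hbox w hw j
          refine ⟨a, ?_⟩
          push_cast
          linarith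
      · intro w hw v hv hwv
        rw [Finset.mem_insert] at hw hv
        rcases hw with hw | hw <;> rcases hv with hv | hv
        · rw [hw, hv]
        · rw [hw] at hwv
          exact absurd hwv (hxi v hv)
        · rw [hv] at hwv
          have := Λ.neg_mem hwv
          rw [neg_sub] at this
          exact absurd this (hxi w hw)
        · exact hinj w hw v hv hwv
      · rw [Finset.card_insert_of_notMem hnot]
        omega

theorem count (m : ℕ) (Λ : AddSubgroup (Fin m → ℤ)) (H : ℕ) (hH : 1 ≤ H) :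
    Set.ncard {x | x ∈ Bx m H ∧ x ∈ Λ} * min Λ.index H ≤ (3 * H) ^ m := by
  classical
  obtain ⟨E, -, hbox, hinj, hcard⟩ := grow m Λ (H - 1)
  have hH1 : H - 1 + 1 = H := by omega
  rw [hH1] at hcard
  have e1 : {x | x ∈ Bx m H ∧ x ∈ Λ} = (((Bx m H).filter fun x => x ∈ Λ : Finset _) : Set _) := by
    ext x
    simp
  rw [e1, Set.ncard_coe_finset]
  set S := (Bx m H).filter fun x => x ∈ Λ with hS
  have h1 : (S ×ˢ E).card ≤
      (Fintype.piFinset fun _ : Fin m => Finset.Icc (-(H : ℤ)) (2 * H - 1)).card := by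
    apply Finset.card_le_card_of_injOn (fun q => q.1 + q.2)
    · intro q hq
      rw [Finset.mem_coe, Finset.mem_product, hS, Finset.mem_filter, Bx,
        Fintype.mem_piFinset] at hq
      rw [Finset.mem_coe, Fintype.mem_piFinset]
      intro i
      have a1 := hq.1.1 i
      rw [Finset.mem_Icc] at a1
      obtain ⟨b1, b2⟩ := hbox q.2 hq.2 i
      have b3 : ((H - 1 : ℕ) : ℤ) = H - 1 := by
        push_cast [Nat.cast_sub hH]
        ring
      rw [b3] at b2
      rw [Finset.mem_Icc]
      change -(H : ℤ) ≤ q.1 i + q.2 i ∧ q.1 i + q.2 i ≤ 2 * (H : ℤ) - 1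
      constructor <;> linarith [a1.1, a1.2]
    · intro q hq r hr hqr
      rw [Finset.mem_coe, Finset.mem_product, hS, Finset.mem_filter] at hq hr
      have hqr' : q.1 + q.2 = r.1 + r.2 := hqr
      have h2 : q.2 - r.2 ∈ Λ := by
        have : q.2 - r.2 = r.1 - q.1 := by
          rw [sub_eq_sub_iff_add_eq_add, add_comm, hqr']
        rw [this]
        exact Λ.sub_mem hr.1.2 hq.1.2
      have h3 := hinj q.2 hq.2 r.2 hr.2 h2
      have h4 : q.1 = r.1 := by
        rw [h3] at hqr'
        exact add_right_cancel hqr'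
      exact Prod.ext h4 h3
  rw [Finset.card_product, Fintype.card_piFinset] at h1
  simp only [Int.card_Icc, Finset.prod_const, Finset.card_univ, Fintype.card_fin] at h1
  have h5 : (2 * (H : ℤ) - 1 + 1 - -(H : ℤ)).toNat = 3 * H := by omega
  rw [h5] at h1
  exact (Nat.mul_le_mul_left _ hcard).trans h1

end JLat

open JLat in
/-- Item Lat. -/
theorem prLat : StLat := by
  intro m
  refine ⟨3 ^ m, by positivity, ?_⟩
  intro Λ H hΛ hH
  have hHr : (0 : ℝ) < H := by exact_mod_cast hH
  have hN : (0 : ℝ) < Λ.index := by exact_mod_cast Nat.pos_of_ne_zero hΛ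
  have h1 : ((Set.ncard {x | x ∈ Bx m H ∧ x ∈ Λ} * min Λ.index H : ℕ) : ℝ) ≤
      (((3 * H) ^ m : ℕ) : ℝ) := by exact_mod_cast count m Λ H hH
  push_cast at h1
  set n : ℝ := (Set.ncard {x | x ∈ Bx m H ∧ x ∈ Λ} : ℝ) with hn
  have hn0 : 0 ≤ n := Nat.cast_nonneg _
  rw [mul_pow] at h1
  have hp : 0 < (H : ℝ) ^ m := by positivity
  have h3 : (0 : ℝ) < 3 ^ m := by positivity
  rcases le_total (Λ.index : ℝ) H with hc | hc
  · rw [min_eq_left hc] at h1
    have h2 : n ≤ 3 ^ m * (H : ℝ) ^ m / Λ.index := by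
      rw [le_div_iff₀ hN]
      exact h1
    have h4 : 3 ^ m * (H : ℝ) ^ m / Λ.index = 3 ^ m * ((H : ℝ) ^ m / Λ.index) := by ring
    have h5 : 0 ≤ 3 ^ m * ((H : ℝ) ^ m / H) := by positivity
    rw [mul_add]
    linarith
  · rw [min_eq_right hc] at h1
    have h2 : n ≤ 3 ^ m * (H : ℝ) ^ m / H := by
      rw [le_div_iff₀ hHr]
      exact h1
    have h4 : 3 ^ m * (H : ℝ) ^ m / H = 3 ^ m * ((H : ℝ) ^ m / H) := by ring
    have h5 : 0 ≤ 3 ^ m * ((H : ℝ) ^ m / Λ.index) := by positivity
    rw [mul_add]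
    linarith

end Pool.Agent.Work.MP_8d13b5_lc.LG
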