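import Pool.Agent.Work.MP_8d13b5_lc.LG.FinProof
import Pool.Agent.Work.MP_8d13b5_lc.LG.I_Lat
import Pool.Agent.Work.MP_8d13b5_lc.LG.I_Idx

/-!
# MP_8d13b5_lc, block LG: affine families of initial values
-/

set_option autoImplicit false

open Polynomial

namespace Pool.Agent.Work.MP_8d13b5_lc.LG

namespace JFam

/-- the functional `t ↦ ∑ t_i b_i` modulo `p` -/
def lin (k : ℕ) (b : Fin k → ℤ) (p : ℕ) : (Fin k → ℤ) →+ ZMod p where
  toFun t := ((∑ i, t i * b i : ℤ) : ZMod p)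
  map_zero' := by simp
  map_add' t s := by
    rw [← Int.cast_add, ← Finset.sum_add_distrib]
    congr 1
    refine Finset.sum_congr rfl fun i _ => ?_
    rw [Pi.add_apply, add_mul]

theorem lin_ne (k : ℕ) (b : Fin k → ℤ) (p : ℕ) (i : Fin k) (h : ¬ (p : ℤ) ∣ b i) :
    lin k b p ≠ 0 := by
  intro h0
  apply h
  have h1 := DFunLike.congr_fun h0 (Pi.single i 1)
  have h2 : (∑ j, (Pi.single i 1 : Fin k → ℤ) j * b j : ℤ) = b i := by
    rw [Finset.sum_eq_single i]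
    · simp
    · intro j _ hj
      rw [Pi.single_eq_of_ne hj, zero_mul]
    · intro hi
      exact absurd (Finset.mem_univ i) hi
  have h3 : ((∑ j, (Pi.single i 1 : Fin k → ℤ) j * b j : ℤ) : ZMod p) = 0 := h1
  rw [h2] at h3
  exact (ZMod.intCast_zmod_eq_zero_iff_dvd _ _).1 h3

/-- one residue class -/
theorem class_count (k X : ℕ) (hX : 1 ≤ X) (P : Finset ℕ) (hP : ∀ p ∈ P, p.Prime)
    (hM : 2 * X ≤ MP P) (a : ℤ) (b : Fin k → ℤ)
    (hab : ∀ p ∈ P, ¬ ((p : ℤ) ∣ a ∧ ∀ i, (p : ℤ) ∣ b i)) :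
    Set.ncard {t : Fin k → ℤ | (∀ i, |t i| ≤ X) ∧ (MP P : ℤ) ∣ a + ∑ i, t i * b i} * (2 * X) ≤
      (3 * (2 * X)) ^ k := by
  rcases Set.eq_empty_or_nonempty {t : Fin k → ℤ | (∀ i, |t i| ≤ X) ∧
    (MP P : ℤ) ∣ a + ∑ i, t i * b i} with h | ⟨t0, ht0, ht0'⟩
  · rw [h, Set.ncard_empty, zero_mul]
    exact Nat.zero_le _
  · have hb : ∀ p ∈ P, ∃ i, ¬ (p : ℤ) ∣ b i := by
      intro p hp
      by_contra hcon
      push Not at hcon
      refine hab p hp ⟨?_, hcon⟩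
      have h1 : (p : ℤ) ∣ a + ∑ i, t0 i * b i := (JPerP.MP_dvd P hP _).1 ht0' p hp
      have h2 : (p : ℤ) ∣ ∑ i, t0 i * b i :=
        Finset.dvd_sum fun i _ => (hcon i).mul_left _
      exact (Int.dvd_add_left h2).1 h1
    have hidx := prIdx (Fin k → ℤ) P (lin k b) hP (fun p hp => by
      obtain ⟨i, hi⟩ := hb p hp
      exact lin_ne k b p i hi)
    have hcount := JLat.count k (⨅ p ∈ P, (lin k b p).ker) (2 * X) (by omega)
    have hidx' : (⨅ p ∈ P, (lin k b p).ker).index = MP P := hidx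
    rw [hidx', min_eq_right hM] at hcount
    refine le_trans (Nat.mul_le_mul_right _ ?_) hcount
    have hfin : {x | x ∈ Bx k (2 * X) ∧ x ∈ (⨅ p ∈ P, (lin k b p).ker)}.Finite :=
      (Bx k (2 * X)).finite_toSet.subset fun x hx => hx.1
    refine Set.ncard_le_ncard_of_injOn (fun t => t - t0) ?_ ?_ hfin
    · rintro t ⟨ht, ht'⟩
      constructor
      · rw [Bx, Fintype.mem_piFinset]
        intro i
        have e1 := abs_le.1 (ht i)
        have e2 := abs_le.1 (ht0 i)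
        rw [Finset.mem_Icc, Pi.sub_apply]
        push_cast
        constructor <;> linarith [e1.1, e1.2, e2.1, e2.2]
      · rw [AddSubgroup.mem_iInf]
        intro p
        rw [AddSubgroup.mem_iInf]
        intro hp
        rw [AddMonoidHom.mem_ker, map_sub, sub_eq_zero]
        have e1 := (JPerP.MP_dvd P hP _).1 ht' p hp
        have e2 := (JPerP.MP_dvd P hP _).1 ht0' p hp
        have e3 := dvd_sub e1 e2
        rw [add_sub_add_left_eq_sub] at e3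
        show ((∑ i, t i * b i : ℤ) : ZMod p) = ((∑ i, t0 i * b i : ℤ) : ZMod p)
        rw [← sub_eq_zero, ← Int.cast_sub]
        exact (ZMod.intCast_zmod_eq_zero_iff_dvd _ _).2 e3
    · intro t _ t' _ h
      exact sub_left_injective h

/-- affine families -/
theorem fam (hSup : StSup) (hPer : StPer) (hRel : StRel) (c : List ℤ) (hc : Simple c) (k : ℕ)
    (B : ℕ) (ε : ℝ) (hε : 0 < ε) : ∃ X0 : ℕ, ∀ X : ℕ, X0 ≤ X →
    ∀ (v : ℕ → ℤ) (w : Fin k → ℕ → ℤ), Rec c v → (∀ i, Rec c (w i)) →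
    (∀ p : ℕ, p.Prime → B < p → ∀ n, ¬ ((p : ℤ) ∣ v n ∧ ∀ i, (p : ℤ) ∣ w i n)) →
    (Set.ncard {t : Fin k → ℤ | (∀ i, |t i| ≤ X) ∧ ∀ m : ℕ, 1 ≤ m →
      Int.gcd (c.getD (c.length - 1) 0) m = 1 → ∃ n, (m : ℤ) ∣ v n + ∑ i, t i * w i n} : ℝ) ≤
      (X : ℝ) ^ ((k : ℝ) - 1 + ε) := by
  obtain ⟨hmon, hsep, h0⟩ := JCntA.ok c hc.1 hc.2.1 hc.2.2
  obtain ⟨Z0, hZ0⟩ := hSup (Rk.charPoly c) hmon hsep h0 B (ε / 2) (by positivity)
  -- `(2 X)^(ε/2) 6^k ≤ X^ε` for large `X`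
  obtain ⟨X1, hX1⟩ : ∃ X1 : ℕ, ∀ X : ℕ, X1 ≤ X →
      (2 : ℝ) ^ (ε / 2) * 6 ^ k ≤ (X : ℝ) ^ (ε / 2) := by
    have h1 : Filter.Tendsto (fun X : ℕ => (X : ℝ) ^ (ε / 2)) Filter.atTop Filter.atTop :=
      (tendsto_rpow_atTop (by positivity)).comp tendsto_natCast_atTop_atTop
    exact Filter.eventually_atTop.1 (h1.eventually_ge_atTop _)
  refine ⟨max (max 1 X1) ⌈Z0⌉₊, fun X hX v w hv hw hvw => ?_⟩
  have hX1' : 1 ≤ X := le_trans (le_trans (le_max_left _ _) (le_max_left _ _)) hX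
  have hX2 : X1 ≤ X := le_trans (le_trans (le_max_right _ _) (le_max_left _ _)) hX
  have hX3 : Z0 ≤ X := (Nat.le_ceil Z0).trans (by exact_mod_cast (le_max_right _ _).trans hX)
  have hXr : (1 : ℝ) ≤ X := by exact_mod_cast hX1'
  obtain ⟨P, hP, hM, hT⟩ := hZ0 (2 * X) (by linarith)
  have hPp : ∀ p ∈ P, p.Prime := fun p hp => (hP p hp).1.1
  have hM' : 2 * X ≤ MP P := by exact_mod_cast hM
  have hTpos : 1 ≤ TP P := by
    have h1 : TP P ≠ 0 := by
      unfold TP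
      rw [Ne, Finset.lcm_eq_zero_iff]
      rintro ⟨p, hp, hp0⟩
      have := (hPp p hp).two_le
      omega
    omega
  have hgcd : Int.gcd (c.getD (c.length - 1) 0) (MP P) = 1 := by
    apply JMd.gcd_MP
    intro p hp
    refine ⟨hPp p hp, fun hd => (hP p hp).1.2.1 ?_⟩
    rw [JMd.coeff_zero c hc.1]
    exact (dvd_neg).mpr hd
  set S : Set (Fin k → ℤ) := {t : Fin k → ℤ | (∀ i, |t i| ≤ X) ∧ ∀ m : ℕ, 1 ≤ m →
      Int.gcd (c.getD (c.length - 1) 0) m = 1 → ∃ n, (m : ℤ) ∣ v n + ∑ i, t i * w i n} with hS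
  set Sn : ℕ → Set (Fin k → ℤ) := fun n => {t : Fin k → ℤ | (∀ i, |t i| ≤ X) ∧
    (MP P : ℤ) ∣ v n + ∑ i, t i * w i n} with hSn
  have hbox : {t : Fin k → ℤ | ∀ i, |t i| ≤ X}.Finite := by
    refine (Bx k X).finite_toSet.subset ?_
    intro t ht
    rw [Finset.mem_coe, Bx, Fintype.mem_piFinset]
    intro i
    rw [Finset.mem_Icc]
    exact abs_le.1 (ht i)
  have hsub : S ⊆ ⋃ n ∈ Finset.range (TP P), Sn n := by
    rintro t ⟨ht1, ht2⟩
    obtain ⟨n, hn⟩ := ht2 (MP P) (by omega) hgcd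
    rw [Set.mem_iUnion₂]
    refine ⟨n % TP P, Finset.mem_range.2 (Nat.mod_lt _ hTpos), ht1, ?_⟩
    have e1 := JFin.per_u hPer hRel c hc P (fun p hp => (hP p hp).1) v hv (n % TP P) n
      (Nat.mod_modEq _ _)
    have e2 : (MP P : ℤ) ∣ ∑ i, t i * w i (n % TP P) - ∑ i, t i * w i n := by
      rw [← Finset.sum_sub_distrib]
      refine Finset.dvd_sum fun i _ => ?_
      rw [← mul_sub]
      exact (JFin.per_u hPer hRel c hc P (fun p hp => (hP p hp).1) (w i) (hw i) (n % TP P) n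
        (Nat.mod_modEq _ _)).mul_left _
    have e3 := dvd_add (dvd_add e1 e2) hn
    have e4 : v (n % TP P) - v n + (∑ i, t i * w i (n % TP P) - ∑ i, t i * w i n) +
        (v n + ∑ i, t i * w i n) = v (n % TP P) + ∑ i, t i * w i (n % TP P) := by ring
    rwa [e4] at e3
  have hfinU : (⋃ n ∈ Finset.range (TP P), Sn n).Finite := by
    refine hbox.subset ?_
    intro t ht
    rw [Set.mem_iUnion₂] at ht
    obtain ⟨n, _, hn⟩ := ht
    exact hn.1
  have h1 : S.ncard ≤ ∑ n ∈ Finset.range (TP P), (Sn n).ncard := by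
    refine (Set.ncard_le_ncard hsub hfinU).trans ?_
    exact Finset.set_ncard_biUnion_le _ _
  have h2 : ∀ n, (Sn n).ncard * (2 * X) ≤ (3 * (2 * X)) ^ k := fun n =>
    class_count k X hX1' P hPp hM' (v n) (fun i => w i n)
      (fun p hp => hvw p (hPp p hp) (hP p hp).2 n)
  have h3 : S.ncard * (2 * X) ≤ TP P * (3 * (2 * X)) ^ k := by
    calc S.ncard * (2 * X) ≤ (∑ n ∈ Finset.range (TP P), (Sn n).ncard) * (2 * X) :=
          Nat.mul_le_mul_right _ h1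
      _ = ∑ n ∈ Finset.range (TP P), (Sn n).ncard * (2 * X) := Finset.sum_mul _ _ _
      _ ≤ ∑ _n ∈ Finset.range (TP P), (3 * (2 * X)) ^ k := Finset.sum_le_sum fun n _ => h2 n
      _ = TP P * (3 * (2 * X)) ^ k := by
          rw [Finset.sum_const, Finset.card_range, smul_eq_mul]
  have h4 : (S.ncard : ℝ) * (2 * X) ≤ TP P * (6 * X) ^ k := by
    have : ((S.ncard * (2 * X) : ℕ) : ℝ) ≤ ((TP P * (3 * (2 * X)) ^ k : ℕ) : ℝ) := by
      exact_mod_cast h3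
    push_cast at this
    rw [show (3 : ℝ) * (2 * X) = 6 * X by ring] at this
    exact this
  have hXpos : (0 : ℝ) < X := by linarith
  have h5 : (TP P : ℝ) * (6 * X) ^ k ≤ (X : ℝ) ^ ε * X ^ k := by
    have e1 : (TP P : ℝ) ≤ 2 ^ (ε / 2) * (X : ℝ) ^ (ε / 2) := by
      rw [← Real.mul_rpow (by norm_num) hXpos.le]
      exact hT
    have e2 := hX1 X hX2
    have e3 : (0 : ℝ) ≤ (X : ℝ) ^ (ε / 2) := by positivity
    calc (TP P : ℝ) * (6 * X) ^ k ≤ (2 ^ (ε / 2) * (X : ℝ) ^ (ε / 2)) * (6 * X) ^ k :=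
          mul_le_mul_of_nonneg_right e1 (by positivity)
      _ = ((2 : ℝ) ^ (ε / 2) * 6 ^ k) * (X : ℝ) ^ (ε / 2) * X ^ k := by
          rw [mul_pow]; ring
      _ ≤ (X : ℝ) ^ (ε / 2) * (X : ℝ) ^ (ε / 2) * X ^ k := by gcongr
      _ = (X : ℝ) ^ ε * X ^ k := by
          rw [← Real.rpow_add hXpos]
          congr 2
          ring
  have h6 : (X : ℝ) ^ ((k : ℝ) - 1 + ε) * X = (X : ℝ) ^ ε * X ^ k := by
    rw [← Real.rpow_natCast (X : ℝ) k, ← Real.rpow_add hXpos]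
    nth_rewrite 2 [← Real.rpow_one (X : ℝ)]
    rw [← Real.rpow_add hXpos]
    congr 1
    ring
  have h7 : (S.ncard : ℝ) * X ≤ (X : ℝ) ^ ((k : ℝ) - 1 + ε) * X := by
    rw [h6]
    have h8 : (S.ncard : ℝ) * X ≤ (S.ncard : ℝ) * (2 * X) := by
      have : (0 : ℝ) ≤ S.ncard := by positivity
      nlinarith
    exact h8.trans (h4.trans h5)
  exact le_of_mul_le_mul_right h7 hXpos

end JFam

end Pool.Agent.Work.MP_8d13b5_lc.LG
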