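import Pool.Agent.Work.MP_8d13b5_lc.LG.AlgStmts

/-!
# MP_8d13b5_lc, block LG: the final statement and the extension to negative indices
-/

set_option autoImplicit false

open Polynomial

namespace Pool.Agent.Work.MP_8d13b5_lc.LG

/-- `u` satisfies the recurrence `u_(n+d) = c_1 u_(n+d-1) + … + c_d u_n`, `c = (c_1, …, c_d)` -/
def Rec (c : List ℤ) (u : ℕ → ℤ) : Prop :=
  ∀ n : ℕ, u (n + c.length) =
    ∑ j ∈ Finset.range c.length, c.getD j 0 * u (n + c.length - 1 - j)

/-- the same for a sequence indexed by all integers -/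
def RecZ (c : List ℤ) (U : ℤ → ℚ) : Prop :=
  ∀ n : ℤ, U (n + c.length) =
    ∑ j ∈ Finset.range c.length, (c.getD j 0 : ℚ) * U (n + c.length - 1 - j)

/-- the recurrence is simple: `d ≥ 1`, `c_d ≠ 0`, the characteristic polynomial has no multiple
roots -/
def Simple (c : List ℤ) : Prop :=
  1 ≤ c.length ∧ c.getD (c.length - 1) 0 ≠ 0 ∧
    (X ^ c.length - ∑ j ∈ Finset.range c.length,
      C ((c.getD j 0 : ℤ) : ℚ) * X ^ (c.length - 1 - j) : ℚ[X]).Separable

namespace JExt

/-- the recurrence over `ℚ` on `ℕ` -/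
def RecQ (c : List ℤ) (w : ℕ → ℚ) : Prop :=
  ∀ n : ℕ, w (n + c.length) =
    ∑ j ∈ Finset.range c.length, (c.getD j 0 : ℚ) * w (n + c.length - 1 - j)

/-- one step back -/
noncomputable def prev (c : List ℤ) (w : ℕ → ℚ) : ℕ → ℚ
  | 0 => (w (c.length - 1) - ∑ j ∈ Finset.range (c.length - 1),
      (c.getD j 0 : ℚ) * w (c.length - 2 - j)) / (c.getD (c.length - 1) 0 : ℚ)
  | n + 1 => w n

theorem prev_rec (c : List ℤ) (h1 : 1 ≤ c.length) (h2 : c.getD (c.length - 1) 0 ≠ 0) (w : ℕ → ℚ)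
    (hw : RecQ c w) : RecQ c (prev c w) := by
  have h2' : (c.getD (c.length - 1) 0 : ℚ) ≠ 0 := by exact_mod_cast h2
  obtain ⟨k, hk⟩ : ∃ k, c.length = k + 1 := ⟨c.length - 1, by omega⟩
  intro n
  cases n with
  | zero =>
    rw [hk, Finset.sum_range_succ]
    have e1 : prev c w (0 + (k + 1)) = w k := by
      rw [show 0 + (k + 1) = k + 1 by omega]; rfl
    have e2 : 0 + (k + 1) - 1 - k = 0 := by omega
    have e3 : ∀ j ∈ Finset.range k, (c.getD j 0 : ℚ) * prev c w (0 + (k + 1) - 1 - j) =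
        (c.getD j 0 : ℚ) * w (c.length - 2 - j) := by
      intro j hj
      rw [Finset.mem_range] at hj
      have : 0 + (k + 1) - 1 - j = (c.length - 2 - j) + 1 := by omega
      rw [this]; rfl
    rw [e1, e2, Finset.sum_congr rfl e3]
    have e4 : prev c w 0 = (w (c.length - 1) - ∑ j ∈ Finset.range (c.length - 1),
      (c.getD j 0 : ℚ) * w (c.length - 2 - j)) / (c.getD (c.length - 1) 0 : ℚ) := rfl
    rw [e4]
    have e5 : c.length - 1 = k := by omega
    rw [e5] at h2' ⊢
    field_simp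
    ring
  | succ n =>
    have e1 : prev c w (n + 1 + c.length) = w (n + c.length) := by
      rw [show n + 1 + c.length = (n + c.length) + 1 by omega]; rfl
    rw [e1, hw n]
    refine Finset.sum_congr rfl fun j hj => ?_
    rw [Finset.mem_range] at hj
    have : n + 1 + c.length - 1 - j = (n + c.length - 1 - j) + 1 := by omega
    rw [this]; rfl

theorem iter_add (c : List ℤ) (w : ℕ → ℚ) (k n : ℕ) : (prev c)^[k] w (n + k) = w n := by
  induction k generalizing n with
  | zero => rfl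
  | succ k ih =>
    rw [Function.iterate_succ_apply']
    show (prev c)^[k] w (n + k) = w n
    exact ih n

theorem iter_add' (c : List ℤ) (w : ℕ → ℚ) (k l n : ℕ) :
    (prev c)^[k + l] w (n + l) = (prev c)^[k] w n := by
  rw [add_comm k l, Function.iterate_add_apply]
  exact iter_add c _ l n

theorem iter_rec (c : List ℤ) (h1 : 1 ≤ c.length) (h2 : c.getD (c.length - 1) 0 ≠ 0) (w : ℕ → ℚ)
    (hw : RecQ c w) (k : ℕ) : RecQ c ((prev c)^[k] w) := by
  induction k with
  | zero => exact hw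
  | succ k ih =>
    rw [Function.iterate_succ_apply']
    exact prev_rec c h1 h2 _ ih

/-- the extension -/
noncomputable def ext (c : List ℤ) (w : ℕ → ℚ) (n : ℤ) : ℚ := (prev c)^[(-n).toNat] w n.toNat

theorem ext_eq (c : List ℤ) (w : ℕ → ℚ) (k m : ℕ) (n : ℤ) (h : n + k = m) :
    ext c w n = (prev c)^[k] w m := by
  unfold ext
  obtain ⟨l, hl⟩ : ∃ l, k = (-n).toNat + l := ⟨k - (-n).toNat, by omega⟩
  have hm : m = n.toNat + l := by omega
  rw [hl, hm, iter_add']

theorem exists_ext (c : List ℤ) (h1 : 1 ≤ c.length) (h2 : c.getD (c.length - 1) 0 ≠ 0)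
    (w : ℕ → ℚ) (hw : RecQ c w) :
    ∃ U : ℤ → ℚ, RecZ c U ∧ ∀ n : ℕ, U n = w n := by
  refine ⟨ext c w, ?_, ?_⟩
  · intro n
    obtain ⟨k, m, hkm⟩ : ∃ k m : ℕ, n + k = m := ⟨(-n).toNat, n.toNat, by omega⟩
    rw [ext_eq c w k (m + c.length) (n + c.length) (by push_cast; omega),
      iter_rec c h1 h2 w hw k m]
    refine Finset.sum_congr rfl fun j hj => ?_
    rw [Finset.mem_range] at hj
    rw [ext_eq c w k (m + c.length - 1 - j) (n + c.length - 1 - j) (by omega)]
  · intro n
    rw [ext_eq c w 0 n n (by simp)]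
    rfl

theorem uniq (c : List ℤ) (h1 : 1 ≤ c.length) (h2 : c.getD (c.length - 1) 0 ≠ 0)
    (U V : ℤ → ℚ) (hU : RecZ c U) (hV : RecZ c V) (a : ℤ) (h : ∀ n : ℤ, a ≤ n → U n = V n)
    (n : ℤ) : U n = V n := by
  have h2' : (c.getD (c.length - 1) 0 : ℚ) ≠ 0 := by exact_mod_cast h2
  obtain ⟨k, hk⟩ : ∃ k, c.length = k + 1 := ⟨c.length - 1, by omega⟩
  have key : ∀ t : ℕ, ∀ n : ℤ, a - t ≤ n → U n = V n := by
    intro t
    induction t with
    | zero => intro n hn; exact h n (by simpa using hn)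
    | succ t ih =>
      intro n hn
      by_cases hn' : a - t ≤ n
      · exact ih n hn'
      · have e1 := hU n
        have e2 := hV n
        rw [hk, Finset.sum_range_succ] at e1 e2
        have e3 : n + ((k + 1 : ℕ) : ℤ) - 1 - (k : ℤ) = n := by push_cast; ring
        rw [e3] at e1 e2
        have e4 : U (n + ((k + 1 : ℕ) : ℤ)) = V (n + ((k + 1 : ℕ) : ℤ)) :=
          ih _ (by push_cast at hn ⊢; omega)
        have e5 : ∑ j ∈ Finset.range k, (c.getD j 0 : ℚ) * U (n + ((k + 1 : ℕ) : ℤ) - 1 - j) =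
            ∑ j ∈ Finset.range k, (c.getD j 0 : ℚ) * V (n + ((k + 1 : ℕ) : ℤ) - 1 - j) := by
          refine Finset.sum_congr rfl fun j hj => ?_
          rw [Finset.mem_range] at hj
          rw [ih _ (by push_cast at hn ⊢; omega)]
        have e6 : c.length - 1 = k := by omega
        rw [e6] at h2'
        have e7 : (c.getD k 0 : ℚ) * U n = (c.getD k 0 : ℚ) * V n := by linarith
        exact mul_left_cancel₀ h2' e7
  exact key (a - n).toNat n (by omega)

end JExt

end Pool.Agent.Work.MP_8d13b5_lc.LG
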