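import Pool.Agent.Work.MP_8d13b5_lc.LG.FinDefs
import Pool.Agent.Work.MP_8d13b5_lc.LG.I_PerP
import Pool.Agent.Work.MP_8d13b5_lc.LG.I_Md
import Pool.Agent.Work.MP_8d13b5_lc.LG.I_CntA

/-!
# MP_8d13b5_lc, block LG: the final theorem from the items
-/

set_option autoImplicit false

open Polynomial

namespace Pool.Agent.Work.MP_8d13b5_lc.LG

/-- THEOREM LG, final form: (1) the algorithm, (2) Skolem's conjecture for 100 percent of the locally
soluble sequences, (3) values. -/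
def LGFinal : Prop :=
  (∃ A : List ℤ × List ℤ →. ℕ × ℕ, Partrec A ∧
    (∀ (c x : List ℤ) (u : ℕ → ℤ), 1 ≤ c.length → x.length = c.length →
      c.getD (c.length - 1) 0 ≠ 0 → (∀ i < c.length, u i = x.getD i 0) → Rec c u →
      ((∃ n, u n = 0) → (A (c, x)).Dom) ∧
      ((∃ m : ℕ, 2 ≤ m ∧ Int.gcd (c.getD (c.length - 1) 0) m = 1 ∧ ∀ n, ¬ (m : ℤ) ∣ u n) →
        (A (c, x)).Dom) ∧
      ∀ w ∈ A (c, x),
        (w.1 = 0 ∧ u w.2 = 0) ∨
        (w.1 = 1 ∧ 2 ≤ w.2 ∧ Int.gcd (c.getD (c.length - 1) 0) w.2 = 1 ∧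
          ∀ n, ¬ (w.2 : ℤ) ∣ u n) ∨
        (w.1 = 2 ∧ 1 ≤ w.2 ∧ (∀ n, u n ≠ 0) ∧
          ∃ U : ℤ → ℚ, RecZ c U ∧ (∀ n : ℕ, U n = u n) ∧ U (-(w.2 : ℤ)) = 0)) ∧
    ∀ c : List ℤ, Simple c → ∀ ε : ℝ, 0 < ε → ∃ H0 : ℕ, ∀ H : ℕ, H0 ≤ H →
      (Set.ncard {x : Fin c.length → ℤ | (∀ i, |x i| ≤ H) ∧
        ¬ (A (c, List.ofFn x)).Dom} : ℝ) ≤ ε * (H : ℝ) ^ (c.length - 1)) ∧
  (∀ c : List ℤ, Simple c → ∀ ε : ℝ, 0 < ε → ∃ H0 : ℕ, ∀ H : ℕ, H0 ≤ H →
    (Set.ncard {x : Fin c.length → ℤ | (∀ i, |x i| ≤ H) ∧ ∃ U : ℤ → ℚ, RecZ c U ∧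
      (∀ i : Fin c.length, U (i : ℕ) = x i) ∧ (∀ n, U n ≠ 0) ∧
      ∀ m : ℕ, 1 ≤ m → Int.gcd (c.getD (c.length - 1) 0) m = 1 →
        ∃ (n : ℕ) (k : ℤ), U n = m * k} : ℝ) ≤ ε * (H : ℝ) ^ (c.length - 1)) ∧
  (∀ c : List ℤ, Simple c → ∀ ε : ℝ, 0 < ε → ∃ X0 : ℝ, ∀ X : ℝ, X0 ≤ X → ∀ u : ℕ → ℤ, Rec c u →
    (Set.ncard {t : ℤ | |(t : ℝ)| ≤ X ∧ ∀ m : ℕ, 1 ≤ m →
      Int.gcd (c.getD (c.length - 1) 0) m = 1 → ∃ n, (m : ℤ) ∣ u n - t} : ℝ) ≤ X ^ ε)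

namespace JFin

theorem rec_val (c x : List ℤ) (hv : US.valid (c, x)) : Rec c (val (c, x)) :=
  fun n => US.val_rec (c, x) hv n

theorem recQ_cast (c : List ℤ) (u : ℕ → ℤ) (hu : Rec c u) :
    JExt.RecQ c (fun n => (u n : ℚ)) := by
  intro n
  have := hu n
  beta_reduce
  rw [this]
  push_cast
  rfl

/-- the algorithm -/
theorem alg (hSrch : StSrch) (hPrD : StPrD) (hPrM : StPrM) (hMod : StMod) (hSnd : StSnd)
    (hCntA : StCntA) :
    ∃ A : List ℤ × List ℤ →. ℕ × ℕ, Partrec A ∧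
    (∀ (c x : List ℤ) (u : ℕ → ℤ), 1 ≤ c.length → x.length = c.length →
      c.getD (c.length - 1) 0 ≠ 0 → (∀ i < c.length, u i = x.getD i 0) → Rec c u →
      ((∃ n, u n = 0) → (A (c, x)).Dom) ∧
      ((∃ m : ℕ, 2 ≤ m ∧ Int.gcd (c.getD (c.length - 1) 0) m = 1 ∧ ∀ n, ¬ (m : ℤ) ∣ u n) →
        (A (c, x)).Dom) ∧
      ∀ w ∈ A (c, x),
        (w.1 = 0 ∧ u w.2 = 0) ∨
        (w.1 = 1 ∧ 2 ≤ w.2 ∧ Int.gcd (c.getD (c.length - 1) 0) w.2 = 1 ∧
          ∀ n, ¬ (w.2 : ℤ) ∣ u n) ∨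
        (w.1 = 2 ∧ 1 ≤ w.2 ∧ (∀ n, u n ≠ 0) ∧
          ∃ U : ℤ → ℚ, RecZ c U ∧ (∀ n : ℕ, U n = u n) ∧ U (-(w.2 : ℤ)) = 0)) ∧
    ∀ c : List ℤ, Simple c → ∀ ε : ℝ, 0 < ε → ∃ H0 : ℕ, ∀ H : ℕ, H0 ≤ H →
      (Set.ncard {x : Fin c.length → ℤ | (∀ i, |x i| ≤ H) ∧
        ¬ (A (c, List.ofFn x)).Dom} : ℝ) ≤ ε * (H : ℝ) ^ (c.length - 1) := by
  obtain ⟨A, hA, hA2⟩ := hSrch hPrD hPrM
  refine ⟨A, hA, ?_, ?_⟩
  · intro c x u h1 h2 h3 h4 h5
    obtain ⟨e1, e2, e3⟩ := hSnd c x u h1 h2 h3 h4 h5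
    have hv : US.valid (c, x) := ⟨h2.symm, h1, h3⟩
    obtain ⟨a1, a2⟩ := hA2 (c, x)
    refine ⟨fun h => a2 (Or.inl ?_), fun h => a2 (Or.inr (Or.inl ?_)), ?_⟩
    · rw [← e1]; exact h
    · obtain ⟨m, m1, m2, m3⟩ := h
      refine ⟨m, (hMod (c, x) hv m).2 ⟨m1, m2, ?_⟩⟩
      rw [← e1]; exact m3
    · intro w hw
      rcases a1 w hw with ⟨b1, b2⟩ | ⟨b1, b2⟩ | ⟨b1, D, b2, b3⟩
      · left
        refine ⟨b1, ?_⟩
        rw [e1]; exact b2
      · right; left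
        obtain ⟨f1, f2, f3⟩ := e2 _ b2
        exact ⟨b1, f1, f2, f3⟩
      · right; right
        obtain ⟨f1, f2, s, v, f3, f4, f5, f6⟩ := e3 D b3
        rw [b2] at f1 f6
        refine ⟨b1, f1, f2, ?_⟩
        obtain ⟨U, hU, hU2⟩ := JExt.exists_ext c h1 h3 _ (recQ_cast c u h5)
        refine ⟨U, hU, hU2, ?_⟩
        obtain ⟨V, hV, hV2⟩ := JExt.exists_ext c h1 h3 _ (recQ_cast c v f5)
        -- `V (n + j) = s U n` for `n ≥ 0`, so for all `n`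
        have hs : (s : ℚ) ≠ 0 := by exact_mod_cast f3
        have hV' : RecZ c (fun n => V (n + (w.2 : ℤ)) / s) := by
          intro n
          have := hV (n + w.2)
          beta_reduce
          rw [show n + (c.length : ℤ) + (w.2 : ℤ) = n + w.2 + c.length by ring, this,
            Finset.sum_div]
          refine Finset.sum_congr rfl fun j _ => ?_
          rw [show n + (w.2 : ℤ) + c.length - 1 - j = n + c.length - 1 - j + w.2 by ring]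
          ring
        have hq := JExt.uniq c h1 h3 _ U hV' hU 0 (by
          intro n hn
          obtain ⟨k, rfl⟩ := Int.eq_ofNat_of_zero_le hn
          have g1 := hV2 (k + w.2)
          have g2 := hU2 k
          have g3 : ((v (k + w.2) : ℤ) : ℚ) = s * u k := by exact_mod_cast f6 k
          push_cast at g1
          rw [g1, g2, g3]
          field_simp) (-(w.2 : ℤ))
        rw [← hq]
        rw [neg_add_cancel]
        have g4 := hV2 0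
        rw [f4] at g4
        have g5 : V 0 = 0 := by simpa using g4
        rw [g5, zero_div]
  · intro c hc ε hε
    obtain ⟨H0, hH0⟩ := hCntA c hc.1 hc.2.1 hc.2.2 ε hε
    refine ⟨H0, fun H hH => le_trans ?_ (hH0 H hH)⟩
    have hfin : Set.Finite {x : Fin c.length → ℤ | (∀ i, |x i| ≤ H)} := by
      refine (Fintype.piFinset fun _ : Fin c.length => Finset.Icc (-(H : ℤ)) H).finite_toSet.subset ?_
      intro x hx
      rw [Finset.mem_coe, Fintype.mem_piFinset]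
      intro i
      rw [Finset.mem_Icc]
      exact abs_le.1 (hx i)
    have hsub : {x : Fin c.length → ℤ | (∀ i, |x i| ≤ H) ∧ ¬ (A (c, List.ofFn x)).Dom} ⊆
        {x : Fin c.length → ℤ | (∀ i, |x i| ≤ H) ∧
        (∀ n, val (c, List.ofFn x) n ≠ 0) ∧ (∀ m, ¬ ChM (c, List.ofFn x) m) ∧
        ∀ D : Dat, ¬ Ch (c, List.ofFn x) D} := by
      rintro x ⟨hx1, hx2⟩
      refine ⟨hx1, fun n hn => hx2 ?_, fun m hm => hx2 ?_, fun D hD => hx2 ?_⟩
      · exact (hA2 (c, List.ofFn x)).2 (Or.inl ⟨n, hn⟩)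
      · exact (hA2 (c, List.ofFn x)).2 (Or.inr (Or.inl ⟨m, hm⟩))
      · exact (hA2 (c, List.ofFn x)).2 (Or.inr (Or.inr ⟨D, hD⟩))
    exact_mod_cast Set.ncard_le_ncard hsub (hfin.subset fun x hx => hx.1)

/-- Skolem's conjecture for almost all locally soluble sequences -/
theorem sko (c : List ℤ) (hc : Simple c) (A : List ℤ × List ℤ →. ℕ × ℕ)
    (hA : ∀ (c x : List ℤ) (u : ℕ → ℤ), 1 ≤ c.length → x.length = c.length →
      c.getD (c.length - 1) 0 ≠ 0 → (∀ i < c.length, u i = x.getD i 0) → Rec c u →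
      ((∃ n, u n = 0) → (A (c, x)).Dom) ∧
      ((∃ m : ℕ, 2 ≤ m ∧ Int.gcd (c.getD (c.length - 1) 0) m = 1 ∧ ∀ n, ¬ (m : ℤ) ∣ u n) →
        (A (c, x)).Dom) ∧
      ∀ w ∈ A (c, x),
        (w.1 = 0 ∧ u w.2 = 0) ∨
        (w.1 = 1 ∧ 2 ≤ w.2 ∧ Int.gcd (c.getD (c.length - 1) 0) w.2 = 1 ∧
          ∀ n, ¬ (w.2 : ℤ) ∣ u n) ∨
        (w.1 = 2 ∧ 1 ≤ w.2 ∧ (∀ n, u n ≠ 0) ∧
          ∃ U : ℤ → ℚ, RecZ c U ∧ (∀ n : ℕ, U n = u n) ∧ U (-(w.2 : ℤ)) = 0))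
    (x : Fin c.length → ℤ) (U : ℤ → ℚ) (hU : RecZ c U) (hx : ∀ i : Fin c.length, U (i : ℕ) = x i)
    (h0 : ∀ n, U n ≠ 0)
    (hm : ∀ m : ℕ, 1 ≤ m → Int.gcd (c.getD (c.length - 1) 0) m = 1 →
        ∃ (n : ℕ) (k : ℤ), U n = m * k) : ¬ (A (c, List.ofFn x)).Dom := by
  intro hdom
  obtain ⟨h1, h3, -⟩ := hc
  have hlen : (List.ofFn x).length = c.length := List.length_ofFn
  have hv : US.valid (c, List.ofFn x) := ⟨hlen.symm, h1, h3⟩
  set u : ℕ → ℤ := val (c, List.ofFn x) with hu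
  have hu1 : Rec c u := rec_val c _ hv
  have hu2 : ∀ i < c.length, u i = (List.ofFn x).getD i 0 := fun i hi =>
    US.val_init (c, List.ofFn x) hv i hi
  obtain ⟨-, -, h5⟩ := hA c (List.ofFn x) u h1 hlen h3 hu2 hu1
  have hw := Part.get_mem hdom
  -- `U` extends `u`
  obtain ⟨V, hV, hV2⟩ := JExt.exists_ext c h1 h3 _ (recQ_cast c u hu1)
  have hUu : ∀ n : ℕ, U n = u n := by
    intro n
    induction n using Nat.strong_induction_on with
    | _ n ih =>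
      by_cases hn : n < c.length
      · rw [hu2 n hn, List.getD_eq_getElem _ _ (by rw [hlen]; exact hn), List.getElem_ofFn]
        exact hx ⟨n, hn⟩
      · obtain ⟨k, rfl⟩ : ∃ k, n = k + c.length := ⟨n - c.length, by omega⟩
        have g1 := hU k
        have g2 := hu1 k
        push_cast
        rw [g1, g2]
        push_cast
        refine Finset.sum_congr rfl fun j hj => ?_
        rw [Finset.mem_range] at hj
        have g3 := ih (k + c.length - 1 - j) (by omega)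
        have g4 : ((k + c.length - 1 - j : ℕ) : ℤ) = (k : ℤ) + c.length - 1 - j := by omega
        rw [g4] at g3
        rw [g3]
  rcases h5 _ hw with ⟨-, b⟩ | ⟨-, b1, b2, b3⟩ | ⟨-, b1, -, V', b3, b4, b5⟩
  · apply h0 _
    rw [hUu, b]
    simp
  · obtain ⟨n, k, hk⟩ := hm _ (by omega) b2
    apply b3 n
    refine ⟨k, ?_⟩
    rw [hUu] at hk
    exact_mod_cast hk
  · apply h0 (-(((A (c, List.ofFn x)).get hdom).2 : ℤ))
    rw [← b5]
    refine JExt.uniq c h1 h3 U V' hU b3 0 ?_ _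
    intro n hn
    obtain ⟨k, rfl⟩ := Int.eq_ofNat_of_zero_le hn
    have g1 := hUu k
    have g2 := b4 k
    exact g1.trans g2.symm

/-- periodicity modulo `MP P` -/
theorem per_u (hPer : StPer) (hRel : StRel) (c : List ℤ) (hc : Simple c) (P : Finset ℕ)
    (hP : ∀ p ∈ P, Good (Rk.charPoly c) p) (u : ℕ → ℤ) (hu : Rec c u) (n n' : ℕ)
    (h : n ≡ n' [MOD TP P]) : (MP P : ℤ) ∣ u n - u n' := by
  obtain ⟨h1, h3, -⟩ := hc
  set x : List ℤ := (List.range c.length).map u with hx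
  have hlen : x.length = c.length := by rw [hx]; simp
  have hv : US.valid (c, x) := ⟨hlen.symm, h1, h3⟩
  have huv : ∀ m, u m = pr c.length (W (Rk.charPoly c) m) (vec c.length x) := by
    intro m
    rw [← hRel c x hv m]
    refine US.eq_val (c, x) hv u (fun i hi => ?_) hu m
    have hi' : i < c.length := hi
    show u i = x.getD i 0
    rw [hx, List.getD_eq_getElem _ _ (by simpa using hi')]
    simp
  rw [JPerP.MP_dvd P (fun p hp => (hP p hp).1)]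
  intro p hp
  have h0 : p - 1 ∣ TP P := Finset.dvd_lcm (f := fun p : ℕ => p - 1) hp
  have hW := JPerP.per hPer (Rk.charPoly c) p (Rk.charPoly_monic c)
    (by rw [Rk.charPoly_natDegree]; exact h1) (hP p hp) (h.of_dvd h0)
  rw [← ZMod.intCast_zmod_eq_zero_iff_dvd, Int.cast_sub, sub_eq_zero, huv n, huv n',
    JPerP.cast_pr, JPerP.cast_pr, hW]

/-- values -/
theorem vals (hSup : StSup) (hPer : StPer) (hRel : StRel) (c : List ℤ) (hc : Simple c) (ε : ℝ)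
    (hε : 0 < ε) : ∃ X0 : ℝ, ∀ X : ℝ, X0 ≤ X → ∀ u : ℕ → ℤ, Rec c u →
    (Set.ncard {t : ℤ | |(t : ℝ)| ≤ X ∧ ∀ m : ℕ, 1 ≤ m →
      Int.gcd (c.getD (c.length - 1) 0) m = 1 → ∃ n, (m : ℤ) ∣ u n - t} : ℝ) ≤ X ^ ε := by
  obtain ⟨hmon, hsep, h0⟩ := JCntA.ok c hc.1 hc.2.1 hc.2.2
  obtain ⟨Z0, hZ0⟩ := hSup (Rk.charPoly c) hmon hsep h0 0 (ε / 2) (by positivity)
  refine ⟨max 3 Z0, fun X hX u hu => ?_⟩
  have hX3 : 3 ≤ X := (le_max_left _ _).trans hX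
  have hXZ : Z0 ≤ 3 * X := by
    have := (le_max_right _ _).trans hX
    linarith
  obtain ⟨P, hP, hM, hT⟩ := hZ0 (3 * X) hXZ
  have hMpos : 1 ≤ MP P := by
    have h1 : MP P ≠ 0 := Finset.prod_ne_zero_iff.mpr (fun p hp => (hP p hp).1.1.ne_zero)
    omega
  have hTpos : 1 ≤ TP P := by
    have h1 : TP P ≠ 0 := by
      unfold TP
      rw [Ne, Finset.lcm_eq_zero_iff]
      rintro ⟨p, hp, hp0⟩
      have := (hP p hp).1.1.two_le
      omega
    omega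
  have hgcd : Int.gcd (c.getD (c.length - 1) 0) (MP P) = 1 := by
    apply JMd.gcd_MP
    intro p hp
    refine ⟨(hP p hp).1.1, fun hd => (hP p hp).1.2.1 ?_⟩
    rw [JMd.coeff_zero c hc.1]
    exact (dvd_neg).mpr hd
  have hper := per_u hPer hRel c hc P (fun p hp => (hP p hp).1) u hu
  have hcard : Set.ncard {t : ℤ | |(t : ℝ)| ≤ X ∧ ∀ m : ℕ, 1 ≤ m →
      Int.gcd (c.getD (c.length - 1) 0) m = 1 → ∃ n, (m : ℤ) ∣ u n - t} ≤ TP P := by
    have hex : ∀ t : ℤ, t ∈ {t : ℤ | |(t : ℝ)| ≤ X ∧ ∀ m : ℕ, 1 ≤ m →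
        Int.gcd (c.getD (c.length - 1) 0) m = 1 → ∃ n, (m : ℤ) ∣ u n - t} →
        ∃ n, n < TP P ∧ (MP P : ℤ) ∣ u n - t := by
      rintro t ⟨-, ht⟩
      obtain ⟨n, hn⟩ := ht (MP P) hMpos hgcd
      refine ⟨n % TP P, Nat.mod_lt _ hTpos, ?_⟩
      have h1 := hper (n % TP P) n (Nat.mod_modEq _ _)
      have h2 := dvd_add h1 hn
      rwa [sub_add_sub_cancel] at h2
    classical
    let g : ℤ → ℕ := fun t => if h : ∃ n, n < TP P ∧ (MP P : ℤ) ∣ u n - t then h.choose else 0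
    have hg : ∀ t : ℤ, t ∈ {t : ℤ | |(t : ℝ)| ≤ X ∧ ∀ m : ℕ, 1 ≤ m →
        Int.gcd (c.getD (c.length - 1) 0) m = 1 → ∃ n, (m : ℤ) ∣ u n - t} →
        g t < TP P ∧ (MP P : ℤ) ∣ u (g t) - t := by
      intro t ht
      have h := hex t ht
      have : g t = h.choose := dif_pos h
      rw [this]
      exact h.choose_spec
    have h1 : Set.ncard {t : ℤ | |(t : ℝ)| ≤ X ∧ ∀ m : ℕ, 1 ≤ m →
        Int.gcd (c.getD (c.length - 1) 0) m = 1 → ∃ n, (m : ℤ) ∣ u n - t} ≤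
        Set.ncard ((Finset.range (TP P) : Finset ℕ) : Set ℕ) := by
      refine Set.ncard_le_ncard_of_injOn g ?_ ?_ (Finset.finite_toSet _)
      · intro t ht
        rw [Finset.mem_coe, Finset.mem_range]
        exact (hg t ht).1
      · intro t ht t' ht' htt
        have e1 := (hg t ht).2
        have e2 := (hg t' ht').2
        rw [← htt] at e2
        have e3 : (MP P : ℤ) ∣ t - t' := by
          have := dvd_sub e2 e1
          rwa [sub_sub_sub_cancel_left] at this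
        have e4 : |(t : ℝ) - t'| < MP P := by
          have a1 := ht.1
          have a2 := ht'.1
          rw [abs_le] at a1 a2
          have : (0 : ℝ) < X := by linarith
          rw [abs_lt]
          constructor <;> linarith
        have e5 : |t - t'| < (MP P : ℤ) := by
          have : ((|t - t'| : ℤ) : ℝ) < ((MP P : ℤ) : ℝ) := by
            push_cast
            exact e4
          exact_mod_cast this
        have e6 := Int.eq_zero_of_abs_lt_dvd e3 e5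
        omega
    rwa [Set.ncard_coe_finset, Finset.card_range] at h1
  have hXpos : (0 : ℝ) < X := by linarith
  calc (Set.ncard {t : ℤ | |(t : ℝ)| ≤ X ∧ ∀ m : ℕ, 1 ≤ m →
      Int.gcd (c.getD (c.length - 1) 0) m = 1 → ∃ n, (m : ℤ) ∣ u n - t} : ℝ) ≤ TP P := by
        exact_mod_cast hcard
    _ ≤ (3 * X) ^ (ε / 2) := hT
    _ ≤ (X ^ (2 : ℝ)) ^ (ε / 2) := by
        apply Real.rpow_le_rpow (by positivity) _ (by positivity)
        rw [Real.rpow_two]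
        nlinarith
    _ = X ^ ε := by
        rw [← Real.rpow_mul hXpos.le]
        congr 1
        ring

/-- the final theorem -/
theorem final (hSrch : StSrch) (hPrD : StPrD) (hPrM : StPrM) (hMod : StMod) (hSnd : StSnd)
    (hCntA : StCntA) (hSup : StSup) (hPer : StPer) (hRel : StRel) : LGFinal := by
  have h := alg hSrch hPrD hPrM hMod hSnd hCntA
  refine ⟨h, ?_, fun c hc ε hε => vals hSup hPer hRel c hc ε hε⟩
  obtain ⟨A, -, hA1, hA2⟩ := h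
  intro c hc ε hε
  obtain ⟨H0, hH0⟩ := hA2 c hc ε hε
  refine ⟨H0, fun H hH => le_trans ?_ (hH0 H hH)⟩
  have hfin : Set.Finite {x : Fin c.length → ℤ | (∀ i, |x i| ≤ H)} := by
    refine (Fintype.piFinset fun _ : Fin c.length => Finset.Icc (-(H : ℤ)) H).finite_toSet.subset ?_
    intro x hx
    rw [Finset.mem_coe, Fintype.mem_piFinset]
    intro i
    rw [Finset.mem_Icc]
    exact abs_le.1 (hx i)
  have hsub : {x : Fin c.length → ℤ | (∀ i, |x i| ≤ H) ∧ ∃ U : ℤ → ℚ, RecZ c U ∧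
      (∀ i : Fin c.length, U (i : ℕ) = x i) ∧ (∀ n, U n ≠ 0) ∧
      ∀ m : ℕ, 1 ≤ m → Int.gcd (c.getD (c.length - 1) 0) m = 1 →
        ∃ (n : ℕ) (k : ℤ), U n = m * k} ⊆
      {x : Fin c.length → ℤ | (∀ i, |x i| ≤ H) ∧ ¬ (A (c, List.ofFn x)).Dom} := by
    rintro x ⟨hx1, U, hU, hx, h0, hm⟩
    exact ⟨hx1, sko c hc A hA1 x U hU hx h0 hm⟩
  exact_mod_cast Set.ncard_le_ncard hsub (hfin.subset fun x hx => hx.1)

end JFin

end Pool.Agent.Work.MP_8d13b5_lc.LG
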