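import Pool.Agent.Work.MP_8d13b5_lc.LG.Stmts

/-!
# MP_8d13b5_lc, block LG, item C1: bad vectors off all hyperplanes of small height
-/

set_option autoImplicit false

open Polynomial

namespace Pool.Agent.Work.MP_8d13b5_lc.LG

namespace JC1

open Filter Topology

theorem TP_pos {f : ℤ[X]} {P : Finset ℕ} (hP : ∀ p ∈ P, Good f p) : 0 < TP P := by
  apply Nat.pos_of_ne_zero
  unfold TP
  rw [Ne, Finset.lcm_eq_zero_iff]
  rintro ⟨p, hp, h⟩
  have := (hP p hp).1.two_le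
  omega

/-- the bound for one hyperplane -/
theorem one {d : ℕ} {c : ℝ} (hc : 0 < c)
    (h : ∀ (C : ℤ[X]), Prim d C →
      ∀ (L : AddSubgroup (Fin d → ℤ)) (H : ℕ), L ≤ perp d C → L.relIndex (perp d C) ≠ 0 → 1 ≤ H →
      (Set.ncard {x | x ∈ Bx d H ∧ x ∈ L} : ℝ) ≤
        c * ((H : ℝ) ^ (d - 1) / ((hgt d C : ℝ) * (L.relIndex (perp d C) : ℝ)) +
          (H : ℝ) ^ (d - 2)))
    {C : ℤ[X]} (hC : Prim d C) {H : ℕ} (hH : 1 ≤ H) {y : ℝ} (hy : 0 < y) (hyC : y ≤ hgt d C) :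
    (Set.ncard {x | x ∈ Bx d H ∧ pr d C x = 0} : ℝ) ≤
      c * ((H : ℝ) ^ (d - 1) / y + (H : ℝ) ^ (d - 2)) := by
  have h1 := h C hC (perp d C) H le_rfl (by rw [AddSubgroup.relIndex_self]; exact one_ne_zero) hH
  rw [AddSubgroup.relIndex_self, Nat.cast_one, mul_one] at h1
  refine le_trans h1 ?_
  have h2 : (H : ℝ) ^ (d - 1) / (hgt d C : ℝ) ≤ (H : ℝ) ^ (d - 1) / y := by
    apply div_le_div_of_nonneg_left (by positivity) hy hyC
  exact mul_le_mul_of_nonneg_left (add_le_add h2 le_rfl) hc.le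

/-- the limit -/
theorem lim (c K : ℝ) {a b : ℝ} (ha : 0 < a) (hb : 0 < b) :
    Tendsto (fun H : ℕ => c * K * ((H : ℝ) ^ (-a) + (H : ℝ) ^ (-b))) atTop (𝓝 0) := by
  have h1 : Tendsto (fun H : ℕ => (H : ℝ) ^ (-a)) atTop (𝓝 0) :=
    (tendsto_rpow_neg_atTop ha).comp tendsto_natCast_atTop_atTop
  have h2 : Tendsto (fun H : ℕ => (H : ℝ) ^ (-b)) atTop (𝓝 0) :=
    (tendsto_rpow_neg_atTop hb).comp tendsto_natCast_atTop_atTop
  simpa using (h1.add h2).const_mul (c * K)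

end JC1

open JC1 in
open Classical in
theorem prC1 (hSup : StSup) (hTop : StTop) (hPerp : StPerp) (hPerP : StPerP) : StC1 := by
  intro f hf hd ε hε
  obtain ⟨c, hc, hcP⟩ := hPerp f.natDegree hd
  set d := f.natDegree with hdd
  have hd1 : 1 ≤ d := by omega
  have hdR : (0 : ℝ) < (d : ℝ) := by exact_mod_cast hd1
  have hdR2 : (2 : ℝ) ≤ (d : ℝ) := by exact_mod_cast hd
  set δ : ℝ := 1 / (20 * (d : ℝ) ^ 2) with hδ
  have hδ0 : 0 < δ := by positivity
  obtain ⟨Z0, hZ0⟩ := hSup f hf.1 hf.2.1 hf.2.2 0 δ hδ0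
  set K : ℝ := (2 * (d.factorial : ℝ)) ^ δ with hK
  have hK0 : 0 < K := by positivity
  set a : ℝ := 3 / (20 * (d : ℝ)) with ha
  set b : ℝ := 1 - 1 / (20 * (d : ℝ)) with hb
  have ha0 : 0 < a := by positivity
  have hb0 : 0 < b := by
    have : 1 / (20 * (d : ℝ)) < 1 := by
      rw [div_lt_one (by positivity)]
      linarith
    linarith
  have hev := (lim c K ha0 hb0).eventually (gt_mem_nhds hε)
  obtain ⟨H1, hH1⟩ := Filter.eventually_atTop.1 hev
  refine ⟨max (max 1 H1) ⌈Z0⌉₊, fun H hH => ?_⟩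
  have hH1' : H1 ≤ H := ((le_max_right _ _).trans (le_max_left _ _)).trans hH
  have hHone : 1 ≤ H := ((le_max_left _ _).trans (le_max_left _ _)).trans hH
  have hHZ : Z0 ≤ (H : ℝ) :=
    (Nat.le_ceil _).trans (by exact_mod_cast (le_max_right _ _).trans hH)
  have hHR : (1 : ℝ) ≤ (H : ℝ) := by exact_mod_cast hHone
  have hH0 : (0 : ℝ) < (H : ℝ) := by linarith
  set Z : ℝ := 2 * (d.factorial : ℝ) * (H : ℝ) ^ d with hZ
  have hfac : (1 : ℝ) ≤ (d.factorial : ℝ) := by exact_mod_cast Nat.factorial_pos d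
  have hHd : (H : ℝ) ≤ (H : ℝ) ^ d := le_self_pow₀ hHR (by omega)
  have hZZ : Z0 ≤ Z := by
    refine hHZ.trans (hHd.trans ?_)
    rw [hZ]
    refine le_mul_of_one_le_left (by positivity) ?_
    linarith
  obtain ⟨P, hP, hPM, hPT⟩ := hZ0 Z hZZ
  have hPg : ∀ p ∈ P, Good f p := fun p hp => (hP p hp).1
  have hbig : d.factorial * H ^ d < MP P := by
    have h1 : ((d.factorial * H ^ d : ℕ) : ℝ) < (MP P : ℝ) := by
      refine lt_of_lt_of_le ?_ hPM
      rw [hZ]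
      push_cast
      have : (0 : ℝ) < (d.factorial : ℝ) * (H : ℝ) ^ d := by positivity
      linarith
    exact_mod_cast h1
  have hTop' : ∀ n : ℕ, ∃ C : ℤ[X], Prim d C ∧ ∀ x ∈ Bx d H,
      (MP P : ℤ) ∣ pr d (W f n) x → pr d C x = 0 := fun n =>
    hTop f P H n hf.1 hd1 hPg hbig
  choose C hCP hCx using hTop'
  have hTP := TP_pos hPg
  -- the set as a finset
  set y : ℝ := (H : ℝ) ^ (1 / (5 * (d : ℝ))) with hy
  have hy0 : 0 < y := by positivity
  set S : Finset (Fin d → ℤ) := (Bx d H).filter (fun x => Bad f x ∧ ∀ C : ℤ[X], Prim d C →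
    (hgt d C : ℝ) < y → pr d C x ≠ 0) with hS
  have hSS : {x | x ∈ Bx d H ∧ Bad f x ∧ ∀ C : ℤ[X], Prim d C →
      (hgt d C : ℝ) < y → pr d C x ≠ 0} = (S : Set (Fin d → ℤ)) := by
    ext x
    simp [hS]
  rw [hSS, Set.ncard_coe_finset]
  set I : Finset ℕ := (Finset.range (TP P)).filter (fun n => y ≤ hgt d (C n)) with hI
  set A : ℕ → Finset (Fin d → ℤ) := fun n => (Bx d H).filter (fun x => pr d (C n) x = 0) with hA
  have hsub : S ⊆ I.biUnion A := by
    intro x hx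
    rw [hS, Finset.mem_filter] at hx
    obtain ⟨hxB, hxbad, hxC⟩ := hx
    obtain ⟨n, hn⟩ := hxbad P hPg
    have hmod : n ≡ n % TP P [MOD TP P] := (Nat.mod_modEq n (TP P)).symm
    have hn' : (MP P : ℤ) ∣ pr d (W f (n % TP P)) x :=
      (((hPerP f P hf.1 hd1 hPg n (n % TP P) hmod).1 x).2).1 hn
    have h0 := hCx (n % TP P) x hxB hn'
    rw [Finset.mem_biUnion]
    refine ⟨n % TP P, ?_, ?_⟩
    · rw [hI, Finset.mem_filter, Finset.mem_range]
      refine ⟨Nat.mod_lt _ hTP, ?_⟩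
      by_contra hlt
      exact hxC _ (hCP _) (not_le.1 hlt) h0
    · rw [hA, Finset.mem_filter]
      exact ⟨hxB, h0⟩
  set BB : ℝ := c * ((H : ℝ) ^ (d - 1) / y + (H : ℝ) ^ (d - 2)) with hBB
  have hBB0 : 0 ≤ BB := by positivity
  have hcardA : ∀ n ∈ I, ((A n).card : ℝ) ≤ BB := by
    intro n hn
    rw [hI, Finset.mem_filter] at hn
    have h1 := one hc hcP (hCP n) hHone hy0 hn.2
    have e : {x | x ∈ Bx d H ∧ pr d (C n) x = 0} = (A n : Set (Fin d → ℤ)) := by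
      ext x
      simp [hA]
    rw [e, Set.ncard_coe_finset] at h1
    exact h1
  have h1 : (S.card : ℝ) ≤ (TP P : ℝ) * BB := by
    calc (S.card : ℝ) ≤ ((I.biUnion A).card : ℝ) := by
          exact_mod_cast Finset.card_le_card hsub
      _ ≤ ∑ n ∈ I, ((A n).card : ℝ) := by exact_mod_cast Finset.card_biUnion_le
      _ ≤ ∑ n ∈ I, BB := Finset.sum_le_sum hcardA
      _ = (I.card : ℝ) * BB := by rw [Finset.sum_const, nsmul_eq_mul]
      _ ≤ (TP P : ℝ) * BB := by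
          refine mul_le_mul_of_nonneg_right ?_ hBB0
          have : I.card ≤ TP P := by
            refine (Finset.card_filter_le _ _).trans ?_
            rw [Finset.card_range]
          exact_mod_cast this
  have h2 : (TP P : ℝ) ≤ K * (H : ℝ) ^ (1 / (20 * (d : ℝ))) := by
    refine hPT.trans (le_of_eq ?_)
    rw [hZ, Real.mul_rpow (by positivity) (by positivity), ← hK, ← Real.rpow_natCast,
      ← Real.rpow_mul hH0.le]
    congr 2
    rw [hδ]
    field_simp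
  have h3 : (H : ℝ) ^ (d - 1) / y = (H : ℝ) ^ (d - 1) * (H : ℝ) ^ (-(1 / (5 * (d : ℝ)))) := by
    rw [hy, Real.rpow_neg hH0.le, div_eq_mul_inv]
  have h4 : (H : ℝ) ^ (d - 2) = (H : ℝ) ^ (d - 1) * (H : ℝ) ^ (-(1 : ℝ)) := by
    rw [Real.rpow_neg hH0.le, Real.rpow_one]
    have : d - 1 = (d - 2) + 1 := by omega
    rw [this, pow_succ]
    field_simp
  calc (S.card : ℝ) ≤ (TP P : ℝ) * BB := h1
    _ ≤ (K * (H : ℝ) ^ (1 / (20 * (d : ℝ)))) * BB := mul_le_mul_of_nonneg_right h2 hBB0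
    _ = (c * K * ((H : ℝ) ^ (-a) + (H : ℝ) ^ (-b))) * (H : ℝ) ^ (d - 1) := by
        rw [hBB, h3, h4]
        have e1 : (H : ℝ) ^ (-a) = (H : ℝ) ^ (1 / (20 * (d : ℝ))) *
            (H : ℝ) ^ (-(1 / (5 * (d : ℝ)))) := by
          rw [← Real.rpow_add hH0]
          congr 1
          rw [ha]
          field_simp
          ring
        have e2 : (H : ℝ) ^ (-b) = (H : ℝ) ^ (1 / (20 * (d : ℝ))) * (H : ℝ) ^ (-(1 : ℝ)) := by
          rw [← Real.rpow_add hH0]
          congr 1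
          rw [hb]
          ring
        rw [e1, e2]
        ring
    _ ≤ ε * (H : ℝ) ^ (d - 1) :=
        mul_le_mul_of_nonneg_right (hH1 H hH1').le (by positivity)

end Pool.Agent.Work.MP_8d13b5_lc.LG
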