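import Pool.Agent.Work.MP_8d13b5_lc.LG.StmtsK

set_option autoImplicit false

/-! Item Dg (helper70): the degrees of the Kummer fields. -/

open Polynomial NumberField Module

namespace Pool.Agent.Work.MP_8d13b5_lc.LG

namespace JDg

/-- level `0` -/
lemma level_zero (K : Type) [Field K] (F : Type) [Field F] [Algebra K F] (ζ α : F) (γ : K)
    (hζ : IsPrimitiveRoot ζ 1) (hα : α = algebraMap K F γ)
    (htop : IntermediateField.adjoin K {ζ, α} = ⊤) : finrank K F = 1 := by
  have h1 : ζ = 1 := IsPrimitiveRoot.one_right_iff.1 hζ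
  have h2 : IntermediateField.adjoin K {ζ, α} ≤ (⊥ : IntermediateField K F) := by
    rw [IntermediateField.adjoin_le_iff]
    rintro x (rfl | rfl)
    · rw [h1]
      exact one_mem _
    · rw [hα]
      exact IntermediateField.algebraMap_mem _ _
  rw [htop, top_le_iff] at h2
  rw [← IntermediateField.finrank_top', ← h2, IntermediateField.finrank_bot]

end JDg

open JDg in
/-- **Dg** -/
theorem prDg (hAB : StAB) (hD1 : StDg1) (hD2 : StDg2) (hD3 : StDg3) : StDg := by
  intro K _ _ l γ hl hγ hroot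
  by_contra hcon
  push Not at hcon
  have hdeg : ∀ (e : ℕ) (F : Type) [Field F] [Algebra K F] (ζ α : F),
      IsPrimitiveRoot ζ (l ^ e) → α ^ (l ^ e) = algebraMap K F γ →
      IntermediateField.adjoin K {ζ, α} = ⊤ → finrank K F ≤ l ^ e := by
    intro e
    induction e with
    | zero =>
      intro F _ _ ζ α hζ hα htop
      rw [pow_zero] at hζ hα ⊢
      rw [pow_one] at hα
      exact (level_zero K F ζ α γ hζ hα htop).le
    | succ e ih =>
      intro F' _ _ ζ' α' hζ' hα' htop'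
      obtain ⟨F, _, _, ζ, α, ξ, hζ, hα, htop, hξ⟩ := hcon e
      have h1 := hD3 K l e γ F F' ζ α ξ ζ' α' hl hγ hζ hα htop hξ hζ' hα' htop'
      have h2 := ih F ζ α hζ hα htop
      calc finrank K F' ≤ l * finrank K F := h1
        _ ≤ l * l ^ e := Nat.mul_le_mul_left l h2
        _ = l ^ (e + 1) := by rw [pow_succ, mul_comm]
  obtain ⟨b, hb⟩ := hAB K l γ hl hγ hroot
  obtain ⟨e, he⟩ : ∃ e : ℕ, 2 * finrank ℚ K * l ^ b < l ^ e :=
    ⟨2 * finrank ℚ K * l ^ b, Nat.lt_pow_self hl.one_lt⟩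
  obtain ⟨F, _, _, ζ, α, ξ, hζ, hα, htop, hξ⟩ := hcon e
  have h1 := hD1 K l b e γ F ζ α hl hγ hζ hα htop fun β hβ => hb e F ζ β hζ hβ
  have h2 := hdeg e F ζ α hζ hα htop
  have h3 := hD2 K l e F ζ hl hζ
  have hpos : 0 < l ^ e := pow_pos hl.pos e
  have h4 : finrank K (IntermediateField.adjoin K {ζ}) ≤ l ^ b := by
    refine Nat.le_of_mul_le_mul_left ?_ hpos
    calc l ^ e * finrank K (IntermediateField.adjoin K {ζ}) ≤ l ^ b * finrank K F := h1
      _ ≤ l ^ b * l ^ e := Nat.mul_le_mul_left _ h2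
      _ = l ^ e * l ^ b := mul_comm _ _
  have h5 : l ^ e ≤ 2 * finrank ℚ K * l ^ b := h3.trans (Nat.mul_le_mul_left _ h4)
  omega

end Pool.Agent.Work.MP_8d13b5_lc.LG
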