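import Pool.Agent.Work.MP_8d13b5_lc.LG.StmtsK

/-!
# MP_8d13b5_lc, block LG, part K: item Ev2
-/

set_option autoImplicit false

open Polynomial NumberField Module

namespace Pool.Agent.Work.MP_8d13b5_lc.LG

namespace JEv2

/-- a fraction of elements with nonzero reduction -/
def U {K : Type} [Field K] {p : ℕ} (φ : 𝓞 K →+* ZMod p) (x : K) : Prop :=
  ∃ a b : 𝓞 K, φ a ≠ 0 ∧ φ b ≠ 0 ∧ x * (b : K) = (a : K)

/-- the first part of `StEv1` for one `φ` -/
def Hy {K : Type} [Field K] {p : ℕ} (φ : 𝓞 K →+* ZMod p) : Prop :=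
  ∀ (x : K) (a b : 𝓞 K), φ b ≠ 0 → x * (b : K) = (a : K) → ev φ x = φ a * (φ b)⁻¹

section
variable {K : Type} [Field K] {p : ℕ} [Fact p.Prime] {φ : 𝓞 K →+* ZMod p}

theorem U.ne (h : Hy φ) {x : K} (hx : U φ x) : ev φ x ≠ 0 := by
  obtain ⟨a, b, ha, hb, hab⟩ := hx
  rw [h x a b hb hab]
  exact mul_ne_zero ha (inv_ne_zero hb)

theorem U.mul (h : Hy φ) {x y : K} (hx : U φ x) (hy : U φ y) :
    U φ (x * y) ∧ ev φ (x * y) = ev φ x * ev φ y := by
  obtain ⟨a, b, ha, hb, hab⟩ := hx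
  obtain ⟨c, d, hc, hd, hcd⟩ := hy
  have h1 : x * y * ((b * d : 𝓞 K) : K) = ((a * c : 𝓞 K) : K) := by
    have e1 : ((b * d : 𝓞 K) : K) = (b : K) * (d : K) := map_mul (algebraMap (𝓞 K) K) b d
    have e2 : ((a * c : 𝓞 K) : K) = (a : K) * (c : K) := map_mul (algebraMap (𝓞 K) K) a c
    rw [e1, e2, ← hab, ← hcd]
    ring
  have hbd : φ (b * d) ≠ 0 := by
    rw [map_mul]
    exact mul_ne_zero hb hd
  have hac : φ (a * c) ≠ 0 := by
    rw [map_mul]
    exact mul_ne_zero ha hc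
  refine ⟨⟨a * c, b * d, hac, hbd, h1⟩, ?_⟩
  rw [h _ _ _ hbd h1, h x a b hb hab, h y c d hd hcd, map_mul, map_mul, mul_inv]
  ring

theorem U.inv (h : Hy φ) {x : K} (hx : U φ x) : U φ x⁻¹ ∧ ev φ x⁻¹ = (ev φ x)⁻¹ := by
  obtain ⟨a, b, ha, hb, hab⟩ := hx
  have ha0 : (a : K) ≠ 0 := by
    intro h0
    have : a = 0 := by
      apply FaithfulSMul.algebraMap_injective (𝓞 K) K
      rw [map_zero]
      exact h0
    rw [this, map_zero] at ha
    exact ha rfl
  have hx0 : x ≠ 0 := by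
    rintro rfl
    rw [zero_mul] at hab
    exact ha0 hab.symm
  have h1 : x⁻¹ * (a : K) = (b : K) := by
    rw [← hab]
    field_simp
  refine ⟨⟨b, a, hb, ha, h1⟩, ?_⟩
  rw [h _ _ _ ha h1, h x a b hb hab, mul_inv, inv_inv]
  ring

theorem U.one (h : Hy φ) : U φ (1 : K) ∧ ev φ (1 : K) = 1 := by
  have h1 : (1 : K) * ((1 : 𝓞 K) : K) = ((1 : 𝓞 K) : K) := one_mul _
  have h2 : φ 1 ≠ 0 := by
    rw [map_one]
    exact one_ne_zero
  refine ⟨⟨1, 1, h2, h2, h1⟩, ?_⟩
  rw [h _ _ _ h2 h1, map_one, inv_one, one_mul]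

theorem U.pow (h : Hy φ) {x : K} (hx : U φ x) (n : ℕ) :
    U φ (x ^ n) ∧ ev φ (x ^ n) = ev φ x ^ n := by
  induction n with
  | zero =>
    rw [pow_zero, pow_zero]
    exact U.one h
  | succ n ih =>
    rw [pow_succ, pow_succ]
    obtain ⟨h1, h2⟩ := U.mul h ih.1 hx
    exact ⟨h1, by rw [h2, ih.2]⟩

theorem U.zpow (h : Hy φ) {x : K} (hx : U φ x) (n : ℤ) :
    U φ (x ^ n) ∧ ev φ (x ^ n) = ev φ x ^ n := by
  rcases n with n | n
  · have h1 := U.pow h hx n
    simpa using h1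
  · have h1 := U.pow h hx (n + 1)
    have h2 := U.inv h h1.1
    rw [zpow_negSucc, zpow_negSucc]
    exact ⟨h2.1, by rw [h2.2, h1.2]⟩

theorem U.prod (h : Hy φ) {ι : Type} (s : Finset ι) (x : ι → K) (hx : ∀ i, U φ (x i)) :
    U φ (∏ i ∈ s, x i) ∧ ev φ (∏ i ∈ s, x i) = ∏ i ∈ s, ev φ (x i) := by
  classical
  induction s using Finset.induction_on with
  | empty =>
    rw [Finset.prod_empty, Finset.prod_empty]
    exact U.one h
  | insert a s ha ih =>
    rw [Finset.prod_insert ha, Finset.prod_insert ha]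
    obtain ⟨h1, h2⟩ := U.mul h (hx a) ih.1
    exact ⟨h1, by rw [h2, ih.2]⟩

end

theorem frac {K : Type} [Field K] [NumberField K] (x : K) :
    ∃ a b : 𝓞 K, b ≠ 0 ∧ x * (b : K) = (a : K) ∧ (x ≠ 0 → a ≠ 0) := by
  obtain ⟨a, b, hb, hab⟩ := IsFractionRing.div_surjective (A := 𝓞 K) x
  have hb0 : b ≠ 0 := nonZeroDivisors.ne_zero hb
  have hbK : (b : K) ≠ 0 := by
    intro h0
    apply hb0
    apply FaithfulSMul.algebraMap_injective (𝓞 K) K
    rw [map_zero]
    exact h0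
  have h1 : x * (b : K) = (a : K) := by
    rw [← hab]
    exact div_mul_cancel₀ _ hbK
  refine ⟨a, b, hb0, h1, ?_⟩
  rintro hx rfl
  have e0 : ((0 : 𝓞 K) : K) = 0 := map_zero (algebraMap (𝓞 K) K)
  rw [e0] at h1
  rcases mul_eq_zero.1 h1 with h2 | h2
  · exact hx h2
  · exact hbK h2

end JEv2

open JEv2 in
theorem prEv2 (hEv1 : StEv1) : StEv2 := by
  intro K _ _
  obtain ⟨hA, hB⟩ := hEv1 K
  constructor
  · intro ι _ x hx
    choose a b hb hab ha using fun i => frac (x i)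
    choose Ba hBa using fun i => hB (a i) (ha i (hx i))
    choose Bb hBb using fun i => hB (b i) (hb i)
    refine ⟨∑ i, (Ba i + Bb i), ?_⟩
    intro p _ hp φ
    have hy : Hy φ := fun x a b => hA p φ x a b
    have hle : ∀ i, Ba i + Bb i ≤ ∑ i, (Ba i + Bb i) := fun i =>
      Finset.single_le_sum (f := fun i => Ba i + Bb i) (fun _ _ => Nat.zero_le _)
        (Finset.mem_univ i)
    have hU : ∀ i, U φ (x i) := by
      intro i
      have h1 := hle i
      exact ⟨a i, b i, hBa i p (by omega) φ, hBb i p (by omega) φ, hab i⟩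
    refine ⟨fun i => U.ne hy (hU i), ?_⟩
    intro k
    rw [(U.prod hy Finset.univ (fun i => x i ^ k i) (fun i => (U.zpow hy (hU i) (k i)).1)).2]
    exact Finset.prod_congr rfl (fun i _ => (U.zpow hy (hU i) (k i)).2)
  · intro x y hxy
    obtain ⟨a, b, hb, hab, -⟩ := frac x
    obtain ⟨c, d, hd, hcd, -⟩ := frac y
    have hne : a * d - c * b ≠ 0 := by
      intro h0
      apply hxy
      have h1 : ((a * d : 𝓞 K) : K) = ((c * b : 𝓞 K) : K) := by
        rw [sub_eq_zero.1 h0]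
      have e1 : ((a * d : 𝓞 K) : K) = (a : K) * (d : K) := map_mul (algebraMap (𝓞 K) K) a d
      have e2 : ((c * b : 𝓞 K) : K) = (c : K) * (b : K) := map_mul (algebraMap (𝓞 K) K) c b
      rw [e1, e2, ← hab, ← hcd] at h1
      have hbK : (b : K) ≠ 0 := by
        intro h0
        apply hb
        apply FaithfulSMul.algebraMap_injective (𝓞 K) K
        rw [map_zero]
        exact h0
      have hdK : (d : K) ≠ 0 := by
        intro h0
        apply hd
        apply FaithfulSMul.algebraMap_injective (𝓞 K) K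
        rw [map_zero]
        exact h0
      have h2 : x * ((b : K) * (d : K)) = y * ((b : K) * (d : K)) := by
        calc x * ((b : K) * (d : K)) = x * (b : K) * (d : K) := by ring
          _ = y * (d : K) * (b : K) := h1
          _ = y * ((b : K) * (d : K)) := by ring
      exact mul_right_cancel₀ (mul_ne_zero hbK hdK) h2
    obtain ⟨B1, h1⟩ := hB b hb
    obtain ⟨B2, h2⟩ := hB d hd
    obtain ⟨B3, h3⟩ := hB _ hne
    refine ⟨B1 + B2 + B3, ?_⟩
    intro p _ hp φ heq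
    have hb' := h1 p (by omega) φ
    have hd' := h2 p (by omega) φ
    have hc' := h3 p (by omega) φ
    rw [hA p φ x a b hb' hab, hA p φ y c d hd' hcd] at heq
    apply hc'
    rw [map_sub, map_mul, map_mul]
    field_simp at heq
    rw [heq]
    ring

end Pool.Agent.Work.MP_8d13b5_lc.LG
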