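import Pool.Agent.Work.MP_8d13b5_lc.LG.StmtsS

/-!
# MP_8d13b5_lc, block LG, item GE: a dyadic interval with many good primes
-/

set_option autoImplicit false

namespace Pool.Agent.Work.MP_8d13b5_lc.LG

open Finset Filter Topology

namespace IGE

theorem log2_half : (1 : ℝ) / 2 ≤ Real.log 2 := by
  have := Real.log_two_gt_d9
  linarith

/-- number of dyadic blocks -/
theorem card_blocks (x e : ℝ) (he : 0 < e) (hx1 : 1 ≤ x) (h4 : 4 ≤ x ^ (1 - e))
    (hlog : 2 * Real.log 2 / e ≤ Real.log x) (i0 i1 : ℕ)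
    (h0 : i0 = Nat.log 2 ⌊x ^ (1 - e)⌋₊) (h1 : i1 = Nat.log 2 ⌊x⌋₊) :
    x ^ (1 - e) / 2 ≤ (2 : ℝ) ^ i0 ∧ (2 : ℝ) ^ i1 ≤ x ∧
    ((i1 : ℝ) + 1 - i0) * Real.log 2 ≤ 2 * e * Real.log x := by
  have hl2 : 0 < Real.log 2 := Real.log_pos (by norm_num)
  have hx0 : 0 < x := by linarith
  have hN2 : ⌊x⌋₊ ≠ 0 := by
    rw [Ne, Nat.floor_eq_zero]
    linarith
  have ha : (2 : ℝ) ^ i1 ≤ x := by
    have h2 := Nat.pow_log_le_self 2 hN2
    rw [← h1] at h2
    calc (2 : ℝ) ^ i1 = ((2 ^ i1 : ℕ) : ℝ) := by push_cast; rfl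
      _ ≤ (⌊x⌋₊ : ℝ) := by exact_mod_cast h2
      _ ≤ x := Nat.floor_le hx0.le
  have hb : x ^ (1 - e) < (2 : ℝ) ^ (i0 + 1) := by
    have h2 := Nat.lt_pow_succ_log_self (b := 2) (by norm_num) ⌊x ^ (1 - e)⌋₊
    rw [← h0] at h2
    calc x ^ (1 - e) < (⌊x ^ (1 - e)⌋₊ : ℝ) + 1 := Nat.lt_floor_add_one _
      _ ≤ ((2 ^ (i0 + 1) : ℕ) : ℝ) := by exact_mod_cast h2
      _ = (2 : ℝ) ^ (i0 + 1) := by push_cast; rfl
  refine ⟨by rw [pow_succ] at hb; linarith, ha, ?_⟩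
  have hc : (i1 : ℝ) * Real.log 2 ≤ Real.log x := by
    rw [← Real.log_pow]
    exact Real.log_le_log (by positivity) ha
  have hd : (1 - e) * Real.log x ≤ ((i0 : ℝ) + 1) * Real.log 2 := by
    have h2 := Real.log_le_log (by positivity) hb.le
    rw [Real.log_rpow hx0, Real.log_pow] at h2
    push_cast at h2
    exact h2
  have hf : 2 * Real.log 2 ≤ e * Real.log x := by
    rw [div_le_iff₀ he] at hlog
    linarith
  nlinarith

end IGE

open IGE in
/-- **item GE** -/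
theorem pr_GE (hGD : StGD) : StGE := by
  classical
  intro f hf hsep hcoef
  obtain ⟨D, hD, hGD⟩ := hGD f hf hsep hcoef
  have hD0 : (0 : ℝ) < D := by exact_mod_cast hD
  refine ⟨1 / (16 * D), by positivity, fun B e he he1 => ?_⟩
  obtain ⟨x0, hx0⟩ := hGD B e he he1
  have hl2 : 0 < Real.log 2 := Real.log_pos (by norm_num)
  have hev : ∀ᶠ x : ℝ in atTop, x0 ≤ x ∧ 1 ≤ x ∧ 4 ≤ x ^ (1 - e) ∧
      2 * Real.log 2 / e ≤ Real.log x := by
    refine (eventually_ge_atTop x0).and ((eventually_ge_atTop 1).and ?_)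
    exact ((tendsto_rpow_atTop (by linarith : 0 < 1 - e)).eventually_ge_atTop 4).and
      (Real.tendsto_log_atTop.eventually_ge_atTop _)
  obtain ⟨x1, hx1⟩ := eventually_atTop.1 hev
  refine ⟨x1, fun x hx => ?_⟩
  obtain ⟨hxx0, hx1', h4, hlog⟩ := hx1 x hx
  have hsum := hx0 x hxx0
  obtain ⟨i0, hi0⟩ : ∃ i0, i0 = Nat.log 2 ⌊x ^ (1 - e)⌋₊ := ⟨_, rfl⟩
  obtain ⟨i1, hi1⟩ : ∃ i1, i1 = Nat.log 2 ⌊x⌋₊ := ⟨_, rfl⟩
  obtain ⟨hA, hB, hC⟩ := card_blocks x e he hx1' h4 hlog i0 i1 hi0 hi1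
  have hN1 : 4 ≤ ⌊x ^ (1 - e)⌋₊ := Nat.le_floor (by exact_mod_cast h4)
  have hi01 : i0 ≤ i1 := by
    rw [hi0, hi1]
    apply Nat.log_mono_right
    apply Nat.floor_le_floor
    calc x ^ (1 - e) ≤ x ^ (1 : ℝ) := Real.rpow_le_rpow_of_exponent_le hx1' (by linarith)
      _ = x := Real.rpow_one x
  set W : Finset ℕ := (Ioc ⌊x ^ (1 - e)⌋₊ ⌊x⌋₊).filter (fun p => Good f p ∧ B < p) with hW
  have hw0 : ∀ p : ℕ, 0 ≤ Real.log p / p := fun p =>
    div_nonneg (Real.log_natCast_nonneg p) (Nat.cast_nonneg p)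
  have hmaps : ∀ p ∈ W, Nat.log 2 (p - 1) ∈ Icc i0 i1 := by
    intro p hp
    rw [hW, mem_filter, mem_Ioc] at hp
    rw [mem_Icc, hi0, hi1]
    exact ⟨Nat.log_mono_right (by omega), Nat.log_mono_right (by omega)⟩
  have hfib := Finset.sum_fiberwise_of_maps_to hmaps (fun p : ℕ => Real.log p / p)
  have hblock : ∀ i ∈ Icc i0 i1, ∑ p ∈ W.filter (fun p => Nat.log 2 (p - 1) = i),
      Real.log (p : ℝ) / p ≤
      ∑ p ∈ (Ioc (2 ^ i) (2 * 2 ^ i)).filter (fun p => Good f p ∧ B < p),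
        Real.log (p : ℝ) / p := by
    intro i _
    refine Finset.sum_le_sum_of_subset_of_nonneg ?_ fun p _ _ => hw0 p
    intro p hp
    rw [mem_filter, hW, mem_filter, mem_Ioc] at hp
    obtain ⟨⟨⟨h1, h2⟩, h3⟩, h5⟩ := hp
    rw [mem_filter, mem_Ioc]
    have h6 : p - 1 ≠ 0 := by omega
    have h7 := Nat.pow_log_le_self 2 h6
    have h8 := Nat.lt_pow_succ_log_self (b := 2) (by norm_num) (p - 1)
    rw [h5] at h7 h8
    rw [pow_succ] at h8
    exact ⟨⟨by omega, by omega⟩, h3⟩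
  have hcard : ((Icc i0 i1).card : ℝ) = (i1 : ℝ) + 1 - i0 := by
    rw [Nat.card_Icc, Nat.cast_sub (by omega)]
    push_cast
    ring
  obtain ⟨i, hi, hi2⟩ : ∃ i ∈ Icc i0 i1, Real.log 2 / (4 * D) ≤
      ∑ p ∈ (Ioc (2 ^ i) (2 * 2 ^ i)).filter (fun p => Good f p ∧ B < p),
        Real.log (p : ℝ) / p := by
    refine Finset.exists_le_of_sum_le ⟨i0, mem_Icc.2 ⟨le_rfl, hi01⟩⟩ ?_
    rw [Finset.sum_const, nsmul_eq_mul, hcard]
    calc ((i1 : ℝ) + 1 - i0) * (Real.log 2 / (4 * D))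
        = (((i1 : ℝ) + 1 - i0) * Real.log 2) / (4 * D) := by ring
      _ ≤ (2 * e * Real.log x) / (4 * D) :=
          div_le_div_of_nonneg_right hC (by positivity)
      _ = e / (2 * D) * Real.log x := by
          field_simp
          ring
      _ ≤ ∑ p ∈ W, Real.log (p : ℝ) / p := hsum
      _ = ∑ i ∈ Icc i0 i1, ∑ p ∈ W.filter (fun p => Nat.log 2 (p - 1) = i),
          Real.log (p : ℝ) / p := hfib.symm
      _ ≤ _ := Finset.sum_le_sum hblock
  rw [mem_Icc] at hi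
  have hy1 : (2 : ℝ) ^ i0 ≤ (2 : ℝ) ^ i := pow_le_pow_right₀ (by norm_num) hi.1
  have hy2 : (2 : ℝ) ^ i ≤ (2 : ℝ) ^ i1 := pow_le_pow_right₀ (by norm_num) hi.2
  refine ⟨2 ^ i, by push_cast; linarith, by push_cast; linarith, ?_⟩
  have hy : (2 : ℝ) ≤ ((2 ^ i : ℕ) : ℝ) := by push_cast; linarith
  set y : ℕ := 2 ^ i with hydef
  have hy0 : (0 : ℝ) < y := by linarith
  have hlogy : 0 < Real.log y := Real.log_pos (by linarith)
  have hterm : ∑ p ∈ (Ioc y (2 * y)).filter (fun p => Good f p ∧ B < p), Real.log (p : ℝ) / p ≤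
      (((Ioc y (2 * y)).filter (fun p => Good f p ∧ B < p)).card : ℝ) *
        (2 * Real.log y / y) := by
    rw [← nsmul_eq_mul]
    refine Finset.sum_le_card_nsmul _ _ _ fun p hp => ?_
    rw [mem_filter, mem_Ioc] at hp
    have h1 : (y : ℝ) < p := by exact_mod_cast hp.1.1
    have h2 : (p : ℝ) ≤ 2 * y := by exact_mod_cast hp.1.2
    have h3 : Real.log p ≤ 2 * Real.log y := by
      calc Real.log p ≤ Real.log (2 * y) := Real.log_le_log (by linarith) h2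
        _ = Real.log 2 + Real.log y := Real.log_mul (by norm_num) hy0.ne'
        _ ≤ Real.log y + Real.log y := by
            have := Real.log_le_log (by norm_num) hy
            linarith
        _ = 2 * Real.log y := by ring
    calc Real.log p / p ≤ (2 * Real.log y) / p :=
          div_le_div_of_nonneg_right h3 (by linarith)
      _ ≤ 2 * Real.log y / y :=
          div_le_div_of_nonneg_left (by positivity) hy0 h1.le
  have hfin := hi2.trans hterm
  set N : ℝ := (((Ioc y (2 * y)).filter (fun p => Good f p ∧ B < p)).card : ℝ) with hN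
  have h5 := log2_half
  have h6 : (1 : ℝ) / (8 * D) ≤ Real.log 2 / (4 * D) := by
    rw [div_le_div_iff₀ (by positivity) (by positivity)]
    nlinarith
  have h7 := h6.trans hfin
  rw [div_mul_eq_mul_div, one_mul, div_div, div_le_iff₀ (by positivity)]
  have h8 : (1 : ℝ) / (8 * D) * (y * (8 * D)) ≤ N * (2 * Real.log y / y) * (y * (8 * D)) :=
    mul_le_mul_of_nonneg_right h7 (by positivity)
  have e1 : (1 : ℝ) / (8 * D) * (y * (8 * D)) = y := by field_simp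
  have e2 : N * (2 * Real.log y / y) * (y * (8 * D)) = N * (16 * D * Real.log y) := by
    field_simp
    ring
  rw [e1, e2] at h8
  exact h8

end Pool.Agent.Work.MP_8d13b5_lc.LG
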