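import Pool.Agent.Work.MP_8d13b5_lc.LG.StmtsK2

/-!
# MP_8d13b5_lc, block LG, item KC: Schinzel's theorem for all exponent vectors
-/

set_option autoImplicit false

open Polynomial Filter Topology NumberField Finset

namespace Pool.Agent.Work.MP_8d13b5_lc.LG

namespace IKC

lemma toNat_sub (a : ℤ) : (a.toNat : ℤ) - ((-a).toNat : ℤ) = a := by omega

lemma sum_toNat {d : ℕ} (a : Fin d → ℤ) (h : ∑ i, a i = 0) :
    ∑ i, (a i).toNat = ∑ i, (-(a i)).toNat := by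
  have h1 : ((∑ i, (a i).toNat : ℕ) : ℤ) - ((∑ i, (-(a i)).toNat : ℕ) : ℤ) = 0 := by
    push_cast
    rw [← Finset.sum_sub_distrib, ← h]
    exact Finset.sum_congr rfl fun i _ => by
      have := toNat_sub (a i)
      push_cast at this
      exact this
  omega

lemma prod_zpow {K : Type} [Field K] {d : ℕ} (x : Fin d → K) (hx : ∀ i, x i ≠ 0)
    (a : Fin d → ℤ) :
    ∏ i, x i ^ a i = (∏ i, x i ^ (a i).toNat) / (∏ i, x i ^ (-(a i)).toNat) := by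
  rw [← Finset.prod_div_distrib]
  refine Finset.prod_congr rfl fun i _ => ?_
  conv_lhs => rw [← toNat_sub (a i)]
  rw [zpow_sub₀ (hx i), zpow_natCast, zpow_natCast]

lemma prod_img {R : Type} [CommRing R] {p d : ℕ} (φ : R →+* ZMod p) (x y : Fin d → R) (μ : ZMod p)
    (n : ℕ) (h : ∀ i, φ (y i) = μ * φ (x i) ^ n) (P : Fin d → ℕ) :
    φ (∏ i, y i ^ P i) = μ ^ (∑ i, P i) * φ (∏ i, x i ^ P i) ^ n := by
  rw [map_prod, map_prod, ← Finset.prod_pow, ← Finset.prod_pow_eq_pow_sum, ← Finset.prod_mul_distrib]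
  refine Finset.prod_congr rfl fun i _ => ?_
  rw [map_pow, map_pow, h i, mul_pow, ← pow_mul, ← pow_mul, mul_comm n (P i)]

end IKC

open IKC in
theorem pr_KC (h1 : StSch) (h2 : StKP) (h3 : StKI) : StKC := by
  intro f K _ _ d l hm hs h0 hS G hG
  obtain ⟨B, hB⟩ := hG
  obtain ⟨B', hB'⟩ := h2 f K d l hm hs h0 hS
  have key : ∀ p : ℕ, p.Prime → max B B' < p → ∀ φ : 𝓞 K →+* ZMod p,
      (∀ i, φ (l i) ≠ 0) ∧ ∃ (n : ℕ) (μ : ZMod p), μ ≠ 0 ∧
        ∀ i, φ (aeval (l i) G) = μ * φ (l i) ^ n := by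
    intro p hp hpB φ
    obtain ⟨g1, g2, g3⟩ := hB' p hp (lt_of_le_of_lt (le_max_right _ _) hpB) φ
    obtain ⟨n, hn⟩ := hB p (lt_of_le_of_lt (le_max_left _ _) hpB) g1
    obtain ⟨μ, hμ, hμ'⟩ := g3 G n hn
    exact ⟨g2, n, μ, hμ, hμ'⟩
  have hne : ∀ i, aeval (l i) G ≠ 0 := by
    obtain ⟨p, hp, hpB, ⟨φ⟩⟩ := h3 K (max B B')
    haveI : Fact p.Prime := ⟨hp⟩
    obtain ⟨g2, n, μ, hμ, hμ'⟩ := key p hp hpB φ
    intro i hi
    have h := hμ' i
    rw [hi, map_zero] at h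
    exact (mul_ne_zero hμ (pow_ne_zero n (g2 i))) h.symm
  refine ⟨hne, ?_⟩
  intro a ha
  have hsum := sum_toNat a ha
  obtain ⟨n, hn⟩ := h1 K (∏ i, (aeval (l i) G) ^ (a i).toNat) (∏ i, (aeval (l i) G) ^ (-(a i)).toNat)
    (∏ i, (l i) ^ (a i).toNat) (∏ i, (l i) ^ (-(a i)).toNat)
    (Finset.prod_ne_zero_iff.2 fun i _ => pow_ne_zero _ (hne i))
    (Finset.prod_ne_zero_iff.2 fun i _ => pow_ne_zero _ (hne i))
    (Finset.prod_ne_zero_iff.2 fun i _ => pow_ne_zero _ (hS.ne i))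
    (Finset.prod_ne_zero_iff.2 fun i _ => pow_ne_zero _ (hS.ne i))
    ⟨max B B', fun p hp hpB φ => by
      obtain ⟨-, n, μ, -, hμ'⟩ := key p hp hpB φ
      refine ⟨n, ?_⟩
      rw [prod_img φ l (fun i => aeval (l i) G) μ n hμ', prod_img φ l (fun i => aeval (l i) G) μ n hμ',
        hsum]
      ring⟩
  refine ⟨n, ?_⟩
  have hneK : ∀ i, ((aeval (l i) G : 𝓞 K) : K) ≠ 0 := fun i => by
    rw [Ne, RingOfIntegers.coe_eq_zero_iff]; exact hne i
  have hlK : ∀ i, ((l i : 𝓞 K) : K) ≠ 0 := fun i => by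
    rw [Ne, RingOfIntegers.coe_eq_zero_iff]; exact hS.ne i
  rw [prod_zpow _ hneK, prod_zpow _ hlK]
  simpa only [map_prod, map_pow] using hn

end Pool.Agent.Work.MP_8d13b5_lc.LG
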