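import Pool.Agent.Work.MP_8d13b5_lc.LG.StmtsK2

set_option autoImplicit false

/-! Item KE (helper70): from exponent vectors of sum zero to one exponent. -/

open Polynomial Filter Topology NumberField Finset

namespace Pool.Agent.Work.MP_8d13b5_lc.LG

namespace IKE

lemma prod_zpow_sum {G : Type*} [CommGroup G] {ι : Type*} (c : G) (S : Finset ι) (a : ι → ℤ) :
    ∏ i ∈ S, c ^ a i = c ^ ∑ i ∈ S, a i := by
  classical
  induction S using Finset.induction_on with
  | empty => simp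
  | insert i S hi ih => rw [prod_insert hi, sum_insert hi, ih, zpow_add]

/-- the shifted exponent vector -/
def sh {d : ℕ} (i₀ : Fin d) (a : Fin d → ℤ) : Fin d → ℤ :=
  fun i => a i - if i = i₀ then ∑ j, a j else 0

lemma sum_sh {d : ℕ} (i₀ : Fin d) (a : Fin d → ℤ) : ∑ i, sh i₀ a i = 0 := by
  simp [sh, Finset.sum_sub_distrib]

lemma prod_sh {G : Type*} [CommGroup G] {d : ℕ} (i₀ : Fin d) (a : Fin d → ℤ) (w : Fin d → G) :
    ∏ i, (w i / w i₀) ^ a i = ∏ i, w i ^ sh i₀ a i := by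
  have h1 : ∀ i, (w i / w i₀) ^ a i = w i ^ a i / w i₀ ^ a i := fun i => div_zpow _ _ _
  have h2 : ∀ i, w i ^ sh i₀ a i = w i ^ a i / w i ^ (if i = i₀ then ∑ j, a j else 0) := fun i => by
    rw [sh, zpow_sub, div_eq_mul_inv]
  simp only [h1, h2, prod_div_distrib]
  congr 1
  rw [prod_zpow_sum]
  symm
  rw [Finset.prod_eq_single i₀]
  · rw [if_pos rfl]
  · intro i _ hi
    rw [if_neg hi, zpow_zero]
  · intro h
    exact absurd (mem_univ _) h

end IKE

open IKE in
/-- **KE** -/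
theorem pr_KE (h1 : StKG) : StKE := by
  intro K _ d x y hx hy hxy
  rcases Nat.eq_zero_or_pos d with h0 | h0
  · subst h0
    exact ⟨0, 1, one_ne_zero, fun i => i.elim0⟩
  · set i₀ : Fin d := ⟨0, h0⟩ with hi₀
    set ux : Fin d → Kˣ := fun i => Units.mk0 (x i) (hx i) with hux
    set uy : Fin d → Kˣ := fun i => Units.mk0 (y i) (hy i) with huy
    obtain ⟨n, hn⟩ := h1 K d (fun i => ux i / ux i₀) (fun i => uy i / uy i₀) (by
      intro a
      obtain ⟨n, hn⟩ := hxy (sh i₀ a) (sum_sh i₀ a)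
      refine ⟨n, ?_⟩
      rw [prod_sh, prod_sh]
      apply Units.ext
      rw [Units.val_zpow_eq_zpow_val, Units.coe_prod, Units.coe_prod]
      simp only [Units.val_zpow_eq_zpow_val, hux, huy, Units.val_mk0]
      exact hn)
    refine ⟨n, y i₀ / x i₀ ^ n, div_ne_zero (hy _) (zpow_ne_zero _ (hx _)), fun i => ?_⟩
    have h2 := congrArg (fun u : Kˣ => (u : K)) (hn i)
    simp only [Units.val_div_eq_div_val, Units.val_zpow_eq_zpow_val, hux, huy, Units.val_mk0,
      div_zpow] at h2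
    have hx0 : x i₀ ^ n ≠ 0 := zpow_ne_zero _ (hx _)
    have hy0 := hy i₀
    field_simp at h2 ⊢
    linear_combination h2

end Pool.Agent.Work.MP_8d13b5_lc.LG
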