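import Pool.Agent.Work.MP_8d13b5_lc.LG.StmtsK2

/-!
# MP_8d13b5_lc, block LG, part K2, item KG: homomorphisms which preserve cyclic subgroups
-/

set_option autoImplicit false

open Polynomial Filter Topology NumberField Finset

namespace Pool.Agent.Work.MP_8d13b5_lc.LG

namespace IKG

variable {A : Type} [AddCommGroup A] {L : Type} [CommGroup L]

theorem hom_zsmul (u : A → L) (hu : ∀ a b, u (a + b) = u a * u b) (k : ℤ) (a : A) :
    u (k • a) = u a ^ k := by
  have h := map_zpow (MonoidHom.mk' (fun x : Multiplicative A => u (Multiplicative.toAdd x))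
    fun x y => hu _ _) (Multiplicative.ofAdd a) k
  exact h

/-- Case 1: all values of `u` are powers of one. -/
theorem case1 (u v : A → L) (hu : ∀ a b, u (a + b) = u a * u b)
    (hv : ∀ a b, v (a + b) = v a * v b) (h : ∀ a, ∃ n : ℤ, v a = u a ^ n)
    (hs : ∀ a b, u a = u b → v a = v b) (a0 : A) (h0 : ∀ a, ∃ k : ℤ, u a = u a0 ^ k) :
    ∃ n : ℤ, ∀ a, v a = u a ^ n := by
  obtain ⟨n, hn⟩ := h a0
  refine ⟨n, fun a => ?_⟩
  obtain ⟨k, hk⟩ := h0 a
  have h1 : v a = v (k • a0) := hs _ _ (by rw [hom_zsmul u hu, hk])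
  rw [h1, hom_zsmul v hv, hn, hk, ← zpow_mul, ← zpow_mul, mul_comm]

/-- Case 2: a value of `u` of infinite order. -/
theorem case2 (u v : A → L) (hu : ∀ a b, u (a + b) = u a * u b)
    (hv : ∀ a b, v (a + b) = v a * v b) (h : ∀ a, ∃ n : ℤ, v a = u a ^ n)
    (hs : ∀ a b, u a = u b → v a = v b) (a0 : A) (h0 : ¬ IsOfFinOrder (u a0)) :
    ∃ n : ℤ, ∀ a, v a = u a ^ n := by
  obtain ⟨n, hn⟩ := h a0
  have inj0 : ∀ s t : ℤ, u a0 ^ s = u a0 ^ t → s = t := fun s t hst =>
    injective_zpow_iff_not_isOfFinOrder.2 h0 hst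
  have key : ∀ a, ¬ IsOfFinOrder (u a) → v a = u a ^ n := by
    intro a ha
    have inja : ∀ s t : ℤ, u a ^ s = u a ^ t → s = t := fun s t hst =>
      injective_zpow_iff_not_isOfFinOrder.2 ha hst
    obtain ⟨m, hm⟩ := h a
    obtain ⟨k, hk⟩ := h (a + a0)
    rw [hv, hu, hm, hn, mul_zpow] at hk
    have h1 : u a ^ (k - m) = u a0 ^ (n - k) := by
      rw [zpow_sub, zpow_sub, eq_comm, ← div_eq_mul_inv, ← div_eq_mul_inv, div_eq_div_iff_mul_eq_mul,
        mul_comm, hk, mul_comm]
    by_cases hkm : k = m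
    · subst hkm
      rw [sub_self, zpow_zero] at h1
      have h2 := inj0 0 (n - k) (by rw [zpow_zero]; exact h1)
      rw [hm]
      congr 1
      omega
    · have h2 : u ((k - m) • a) = u ((n - k) • a0) := by
        rw [hom_zsmul u hu, hom_zsmul u hu, h1]
      have h3 := hs _ _ h2
      rw [hom_zsmul v hv, hom_zsmul v hv, hm, hn, ← zpow_mul, ← zpow_mul, mul_comm n, zpow_mul _ (n - k),
        ← h1, ← zpow_mul] at h3
      have h4 := inja _ _ h3
      have h5 : (k - m) * (m - n) = 0 := by linarith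
      rcases mul_eq_zero.1 h5 with h6 | h6
      · exact absurd (by omega) hkm
      · rw [hm]
        congr 1
        omega
  refine ⟨n, fun a => ?_⟩
  by_cases ha : IsOfFinOrder (u a)
  · have h1 : ¬ IsOfFinOrder (u (a + a0)) := by
      intro h2
      rw [hu] at h2
      have h3 := ha.inv.mul h2
      rw [inv_mul_cancel_left] at h3
      exact h0 h3
    have h2 := key _ h1
    rw [hu, hv, mul_zpow, hn] at h2
    exact mul_right_cancel h2
  · exact key a ha

end IKG

open IKG

/-- KG. -/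
theorem pr_KG : StKG := by
  intro K _ r x y h
  obtain ⟨u, hud⟩ : ∃ u : (Fin r → ℤ) → Kˣ, u = fun a => ∏ i, x i ^ a i := ⟨_, rfl⟩
  obtain ⟨v, hvd⟩ : ∃ v : (Fin r → ℤ) → Kˣ, v = fun a => ∏ i, y i ^ a i := ⟨_, rfl⟩
  have hu : ∀ a b, u (a + b) = u a * u b := by
    intro a b
    rw [hud]
    simp only [Pi.add_apply, zpow_add, Finset.prod_mul_distrib]
  have hv : ∀ a b, v (a + b) = v a * v b := by
    intro a b
    rw [hvd]
    simp only [Pi.add_apply, zpow_add, Finset.prod_mul_distrib]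
  have hh : ∀ a, ∃ n : ℤ, v a = u a ^ n := by
    intro a
    rw [hud, hvd]
    exact h a
  have hs : ∀ a b, u a = u b → v a = v b := by
    intro a b hab
    obtain ⟨n, hn⟩ := hh (a + (-1 : ℤ) • b)
    rw [hu, hv, hom_zsmul u hu, hom_zsmul v hv, hab, zpow_neg_one, zpow_neg_one, mul_inv_cancel,
      one_zpow] at hn
    exact mul_inv_eq_one.1 hn
  have hfin : (∃ n : ℤ, ∀ a, v a = u a ^ n) → ∃ n : ℤ, ∀ i, y i = x i ^ n := by
    rintro ⟨n, hn⟩
    refine ⟨n, fun i => ?_⟩
    have h1 := hn (Pi.single i 1)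
    have h2 : ∀ w : Fin r → Kˣ, ∏ j, w j ^ (Pi.single i (1 : ℤ) : Fin r → ℤ) j = w i := by
      intro w
      rw [Finset.prod_eq_single i]
      · rw [Pi.single_eq_same, zpow_one]
      · intro j _ hj
        rw [Pi.single_eq_of_ne hj, zpow_zero]
      · intro hi
        exact absurd (Finset.mem_univ i) hi
    rw [hud, hvd] at h1
    simp only [h2] at h1
    exact h1
  apply hfin
  by_cases hinf : ∃ a0, ¬ IsOfFinOrder (u a0)
  · obtain ⟨a0, ha0⟩ := hinf
    exact case2 u v hu hv hh hs a0 ha0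
  · push Not at hinf
    obtain ⟨U, hU⟩ : ∃ U : Multiplicative (Fin r → ℤ) →* Kˣ, ∀ a, U (Multiplicative.ofAdd a) = u a :=
      ⟨MonoidHom.mk' (fun x => u (Multiplicative.toAdd x)) fun x y => hu _ _, fun a => rfl⟩
    have hfg0 : AddGroup.FG (Fin r → ℤ) := Module.Finite.iff_addGroup_fg.1 inferInstance
    have hfg : Group.FG (Multiplicative (Fin r → ℤ)) := inferInstance
    have hfg2 : Group.FG U.range := inferInstance
    have htor : IsMulTorsion U.range := by
      rintro ⟨g, z, rfl⟩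
      refine Submonoid.isOfFinOrder_coe.1 ?_
      show IsOfFinOrder (U z)
      rw [show U z = u (Multiplicative.toAdd z) from hU _]
      exact hinf (Multiplicative.toAdd z)
    have hF : Finite U.range := CommGroup.finite_of_fg_isMulTorsion _ htor
    have hcyc : IsCyclic U.range := inferInstance
    obtain ⟨⟨g, z, hz⟩, hg⟩ := hcyc.exists_generator
    refine case1 u v hu hv hh hs (Multiplicative.toAdd z) fun a => ?_
    obtain ⟨k, hk⟩ := Subgroup.mem_zpowers_iff.1 (hg ⟨U (Multiplicative.ofAdd a), _, rfl⟩)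
    refine ⟨k, ?_⟩
    have h1 := congrArg Subtype.val hk
    simp only [SubgroupClass.coe_zpow] at h1
    rw [← hU a, ← h1, ← hU]
    congr 1
    rw [← hz]
    rfl

end Pool.Agent.Work.MP_8d13b5_lc.LG
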