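import Pool.Agent.Work.MP_8d13b5_lc.LG.StmtsK2

set_option autoImplicit false

/-!
# Block LG, part K2, item KI: homomorphisms to infinitely many prime fields
-/

namespace Pool.Agent.Work.MP_8d13b5_lc.LG

open Polynomial NumberField

theorem pr_KI (h1 : StSch) : StKI := by
  intro K _ _ B
  by_contra hcon
  have hno : ∀ p : ℕ, p.Prime → B < p → ∀ φ : 𝓞 K →+* ZMod p, False := by
    intro p hp hB φ
    exact hcon ⟨p, hp, hB, ⟨φ⟩⟩
  obtain ⟨n, hn⟩ := h1 K 2 1 1 1 two_ne_zero one_ne_zero one_ne_zero one_ne_zero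
    ⟨B, fun p hp hB φ => (hno p hp hB φ).elim⟩
  have h2 : (((2 : 𝓞 K) : K)) = 2 := map_ofNat (algebraMap (𝓞 K) K) 2
  have h3 : (((1 : 𝓞 K) : K)) = 1 := map_one (algebraMap (𝓞 K) K)
  rw [h2, h3, div_one, div_one, one_zpow] at hn
  have h4 : ((2 : ℕ) : K) = ((1 : ℕ) : K) := by
    rw [Nat.cast_ofNat, Nat.cast_one]
    exact hn
  have h5 := Nat.cast_injective h4
  omega

end Pool.Agent.Work.MP_8d13b5_lc.LG
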