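import Pool.Agent.Work.MP_8d13b5_lc.LG.StmtsK2

set_option autoImplicit false

/-!
# MP_8d13b5_lc, block LG, part K2, item KK: the killing primes
-/

open Polynomial Filter Topology NumberField Finset

namespace Pool.Agent.Work.MP_8d13b5_lc.LG

theorem pr_KK : StKK := by
  intro ks kc ke kr f hf hsep h0 C hC B
  by_contra hcon
  push Not at hcon
  obtain ⟨K, _, _, d, l, hl⟩ := ks f hf hsep h0
  obtain ⟨hne, hexp⟩ := kc f K d l hf hsep h0 hl C ⟨B, fun p hp hg => hcon p hp hg⟩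
  have hx : ∀ i, ((l i : 𝓞 K) : K) ≠ 0 := fun i h =>
    hl.ne i (RingOfIntegers.coe_injective (h.trans (map_zero (algebraMap (𝓞 K) K)).symm))
  have hy : ∀ i, ((aeval (l i) C : 𝓞 K) : K) ≠ 0 := fun i h =>
    hne i (RingOfIntegers.coe_injective (h.trans (map_zero (algebraMap (𝓞 K) K)).symm))
  obtain ⟨n, μ, hμ, h⟩ := ke K d (fun i => (l i : K)) (fun i => ((aeval (l i) C : 𝓞 K) : K)) hx hy
    hexp
  exact hC (kr f K d l hf hl C n μ hμ h)

end Pool.Agent.Work.MP_8d13b5_lc.LG
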