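import Pool.Agent.Work.MP_8d13b5_lc.LG.StmtsK2

set_option autoImplicit false

/-! Block `LG`, part K2, item KR: a multiple over the rational numbers. -/

open Polynomial Filter Topology NumberField Finset

namespace Pool.Agent.Work.MP_8d13b5_lc.LG

namespace IKR

/-- the degree -/
theorem natDegree_eq {f : ℤ[X]} {K : Type} [Field K] [NumberField K] {d : ℕ} {l : Fin d → 𝓞 K}
    (hf : f.Monic) (h : Spl f K d l) : f.natDegree = d := by
  rw [← hf.natDegree_map (Int.castRingHom (𝓞 K)), h.prod, natDegree_finset_prod_X_sub_C_eq_card]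
  simp

theorem root {f : ℤ[X]} {K : Type} [Field K] [NumberField K] {d : ℕ} {l : Fin d → 𝓞 K}
    (h : Spl f K d l) (i : Fin d) : aeval (l i) f = 0 := by
  have h1 : aeval (l i) f = eval (l i) (f.map (Int.castRingHom (𝓞 K))) := by
    rw [eval_map]
    rfl
  rw [h1, h.prod, eval_prod]
  exact Finset.prod_eq_zero (Finset.mem_univ i) (by simp)

end IKR

open IKR

theorem pr_KR : StKR := by
  intro f K _ _ d l hf h G n μ hμ hG
  have hdeg := natDegree_eq hf h
  rcases Nat.eq_zero_or_pos d with hd | hd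
  · have h1 : f = 1 := hf.natDegree_eq_zero.1 (hdeg.trans hd)
    exact ⟨0, 0, 1, 1, one_ne_zero, one_ne_zero, by rw [h1]; exact one_dvd _⟩
  set m := n.toNat with hm
  set j := (-n).toNat with hj
  have hn : n = (m : ℤ) - j := (Int.toNat_sub_toNat_neg n).symm
  have hli : ∀ i, (l i : K) ≠ 0 := fun i hi => h.ne i (by exact_mod_cast hi)
  have h1 : ∀ i, (l i : K) ^ j * ((aeval (l i) G : 𝓞 K) : K) = μ * (l i : K) ^ m := by
    intro i
    rw [hG i, hn, zpow_sub₀ (hli i), zpow_natCast, zpow_natCast]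
    field_simp [hli i]
  set R₁ := (X ^ j * G) %ₘ f with hR₁
  set R₂ := (X ^ m : ℤ[X]) %ₘ f with hR₂
  have e1 : R₁ + f * ((X ^ j * G) /ₘ f) = X ^ j * G := modByMonic_add_div _ f
  have e2 : R₂ + f * ((X ^ m) /ₘ f) = X ^ m := modByMonic_add_div _ f
  have v1 : ∀ i, aeval (l i) R₁ = (l i) ^ j * aeval (l i) G := by
    intro i
    have h2 := congrArg (aeval (l i)) e1
    rw [map_add, map_mul, root h i, zero_mul, add_zero, map_mul, map_pow, aeval_X] at h2
    exact h2
  have v2 : ∀ i, aeval (l i) R₂ = (l i) ^ m := by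
    intro i
    have h2 := congrArg (aeval (l i)) e2
    rw [map_add, map_mul, root h i, zero_mul, add_zero, map_pow, aeval_X] at h2
    exact h2
  have hev : ∀ (P : ℤ[X]) (i : Fin d), eval (l i : K) (P.map (Int.castRingHom K)) =
      ((aeval (l i) P : 𝓞 K) : K) := by
    intro P i
    rw [eval_map]
    have h2 : (algebraMap (𝓞 K) K) (aeval (l i) P) = aeval (algebraMap (𝓞 K) K (l i)) P := by
      rw [aeval_algebraMap_apply]
    exact h2.symm
  have hcard : ((univ : Finset (Fin d)).card : WithBot ℕ) = d := by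
    rw [Finset.card_univ, Fintype.card_fin]
  have hT : R₁.map (Int.castRingHom K) - C μ * R₂.map (Int.castRingHom K) = 0 := by
    refine Polynomial.eq_zero_of_degree_lt_of_eval_index_eq_zero (s := univ)
      (v := fun i => (l i : K)) ?_ ?_ ?_
    · intro a _ b _ hab
      have hab' : (l a : K) = (l b : K) := hab
      exact h.inj (by exact_mod_cast hab')
    · rw [hcard]
      have hfd : f.degree = (d : WithBot ℕ) := by
        rw [degree_eq_natDegree hf.ne_zero, hdeg]
      have d1 : (R₁.map (Int.castRingHom K)).degree < d :=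
        (degree_map_le).trans_lt (hfd ▸ degree_modByMonic_lt _ hf)
      have d2 : (C μ * R₂.map (Int.castRingHom K)).degree < d := by
        rw [degree_C_mul hμ]
        exact (degree_map_le).trans_lt (hfd ▸ degree_modByMonic_lt _ hf)
      exact (degree_sub_le _ _).trans_lt (max_lt d1 d2)
    · intro i _
      rw [eval_sub, eval_mul, eval_C, hev, hev, v1, v2]
      push_cast
      rw [h1 i, sub_self]
  have hR₂0 : R₂ ≠ 0 := by
    intro h0
    have h2 := v2 ⟨0, hd⟩
    rw [h0, map_zero] at h2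
    exact (pow_ne_zero m (h.ne ⟨0, hd⟩)) h2.symm
  obtain ⟨t, ht⟩ : ∃ t, R₂.coeff t ≠ 0 := by
    by_contra hcon
    push Not at hcon
    exact hR₂0 (Polynomial.ext fun s => by rw [hcon s, coeff_zero])
  have hco : ∀ s, ((R₁.coeff s : ℤ) : K) = μ * ((R₂.coeff s : ℤ) : K) := by
    intro s
    have h2 := congrArg (fun P : K[X] => P.coeff s) hT
    simp only [coeff_sub, coeff_C_mul, coeff_map, coeff_zero, eq_intCast] at h2
    exact sub_eq_zero.1 h2
  have ha : R₁.coeff t ≠ 0 := by
    intro h0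
    have h2 := hco t
    rw [h0, Int.cast_zero] at h2
    rcases mul_eq_zero.1 h2.symm with h3 | h3
    · exact hμ h3
    · exact ht (by exact_mod_cast h3)
  have hcr : C (R₂.coeff t) * R₁ = C (R₁.coeff t) * R₂ := by
    ext s
    rw [coeff_C_mul, coeff_C_mul]
    have h2 : ((R₂.coeff t * R₁.coeff s : ℤ) : K) = ((R₁.coeff t * R₂.coeff s : ℤ) : K) := by
      push_cast
      rw [hco s, hco t]
      ring
    exact_mod_cast h2
  refine ⟨m, j, R₂.coeff t, R₁.coeff t, ht, ha, ?_⟩
  refine ⟨C (R₂.coeff t) * ((X ^ j * G) /ₘ f) - C (R₁.coeff t) * ((X ^ m) /ₘ f), ?_⟩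
  linear_combination hcr - C (R₂.coeff t) * e1 + C (R₁.coeff t) * e2

end Pool.Agent.Work.MP_8d13b5_lc.LG
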