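import Pool.Agent.Work.MP_8d13b5_lc.LG.StmtsK

/-!
# MP_8d13b5_lc, block LG, part K, item Kl: killing primes
-/

set_option autoImplicit false

open Polynomial NumberField Module

namespace Pool.Agent.Work.MP_8d13b5_lc.LG

namespace JKl

theorem coe_eval (K : Type) [Field K] [NumberField K] (g : ℤ[X]) (a : 𝓞 K) :
    ((eval₂ (Int.castRingHom (𝓞 K)) a g : 𝓞 K) : K) = eval₂ (Int.castRingHom K) (a : K) g := by
  have h := Polynomial.hom_eval₂ g (Int.castRingHom (𝓞 K)) (algebraMap (𝓞 K) K) a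
  have h2 : (algebraMap (𝓞 K) K).comp (Int.castRingHom (𝓞 K)) = Int.castRingHom K :=
    RingHom.ext_int _ _
  rw [h2] at h
  exact h

theorem lift_root (K : Type) [Field K] [NumberField K] (f : ℤ[X]) (hf : f.Monic) (a : K)
    (ha : eval₂ (Int.castRingHom K) a f = 0) :
    ∃ a' : 𝓞 K, (a' : K) = a ∧ eval₂ (Int.castRingHom (𝓞 K)) a' f = 0 := by
  have hint : IsIntegral ℤ a := ⟨f, hf, ha⟩
  obtain ⟨a', ha'⟩ : ∃ a' : 𝓞 K, (a' : K) = a := ⟨⟨a, hint⟩, rfl⟩
  refine ⟨a', ha', ?_⟩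
  apply RingOfIntegers.coe_injective
  rw [map_zero]
  refine (coe_eval K f a').trans ?_
  rw [ha']
  exact ha

theorem root_ne (K : Type) [Field K] [NumberField K] (f : ℤ[X]) (h0 : f.coeff 0 ≠ 0) (a : K)
    (ha : eval₂ (Int.castRingHom K) a f = 0) : a ≠ 0 := by
  intro h
  rw [h, Polynomial.eval₂_at_zero] at ha
  apply h0
  have h1 : ((f.coeff 0 : ℤ) : K) = 0 := ha
  exact_mod_cast h1

theorem ev_int (hEv1 : StEv1) (K : Type) [Field K] [NumberField K] (p : ℕ) [Fact p.Prime]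
    (φ : 𝓞 K →+* ZMod p) (a : 𝓞 K) : ev φ (a : K) = φ a := by
  have h := (hEv1 K).1 p φ (a : K) a 1 (by rw [map_one]; exact one_ne_zero) (by simp)
  rw [h, map_one, inv_one, mul_one]

theorem prod_calc {F : Type} [Field F] {ι : Type} [Fintype ι] (μ : F) (hμ : μ ≠ 0) (u v : ι → F)
    (n : ℕ) (h : ∀ i, v i = μ * u i ^ n) (k : ι → ℤ) (hk : ∑ i, k i = 0) :
    ∏ i, v i ^ k i = (∏ i, u i ^ k i) ^ n := by
  have h1 : ∀ i, v i ^ k i = μ ^ k i * (u i ^ k i) ^ n := by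
    intro i
    rw [h i, mul_zpow, ← zpow_natCast (u i) n, ← zpow_natCast (u i ^ k i) n, ← zpow_mul,
      ← zpow_mul, mul_comm (n : ℤ)]
  rw [Finset.prod_congr rfl fun i _ => h1 i, Finset.prod_mul_distrib, Finset.prod_pow]
  have h2 : ∏ i, μ ^ k i = 1 := by
    have h3 : ∀ s : Finset ι, ∏ i ∈ s, μ ^ k i = μ ^ (∑ i ∈ s, k i) := by
      classical
      intro s
      induction s using Finset.induction_on with
      | empty => simp
      | insert a s ha ih => rw [Finset.prod_insert ha, Finset.sum_insert ha, ih, zpow_add₀ hμ]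
    rw [h3, hk, zpow_zero]
  rw [h2, one_mul]

theorem main (hEv1 : StEv1) (hEv2 : StEv2) (hInf : StInf) (hSchE : StSchE) (hTwo : StTwo)
    (hGd : StGd) (K : Type) [Field K] [NumberField K] (f C : ℤ[X]) (hf : f.Monic)
    (hsep : (f.map (Int.castRingHom ℚ)).Separable) (h0 : f.coeff 0 ≠ 0)
    (hspl : (f.map (Int.castRingHom K)).Splits) (B0 : ℕ)
    (hB : ∀ p, B0 < p → Good f p → ∃ n, Par f p C n) :
    ∃ (μ : K) (n : ℤ), μ ≠ 0 ∧ ∀ a : K, eval₂ (Int.castRingHom K) a f = 0 →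
      eval₂ (Int.castRingHom K) a C = μ * a ^ n := by
  classical
  obtain ⟨B1, hB1⟩ := hGd f C K hf hsep h0 hspl
  let ι : Type := {a : K // a ∈ (f.map (Int.castRingHom K)).roots.toFinset}
  have hmem : ∀ a : K, a ∈ (f.map (Int.castRingHom K)).roots.toFinset ↔
      eval₂ (Int.castRingHom K) a f = 0 := by
    intro a
    rw [Multiset.mem_toFinset, Polynomial.mem_roots (hf.map _).ne_zero, Polynomial.IsRoot.def,
      Polynomial.eval_map]
  have hι : ∀ i : ι, eval₂ (Int.castRingHom K) i.1 f = 0 := fun i => (hmem i.1).1 i.2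
  choose z hz hz' using fun i : ι => lift_root K f hf i.1 (hι i)
  have hx : ∀ i : ι, i.1 ≠ 0 := fun i => root_ne K f h0 i.1 (hι i)
  -- local information
  have hloc : ∀ (p : ℕ) [Fact p.Prime], max B0 B1 < p → ∀ φ : 𝓞 K →+* ZMod p,
      ∃ (n : ℕ) (μ : ZMod p), μ ≠ 0 ∧ ∀ i : ι,
        φ (eval₂ (Int.castRingHom (𝓞 K)) (z i) C) = μ * φ (z i) ^ n ∧ φ (z i) ≠ 0 := by
    intro p _ hp φ
    obtain ⟨hg, hpar⟩ := hB1 p (lt_of_le_of_lt (le_max_right _ _) hp) φ
    obtain ⟨n, hn⟩ := hB p (lt_of_le_of_lt (le_max_left _ _) hp) hg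
    obtain ⟨μ, hμ, hμ'⟩ := hpar n hn
    exact ⟨n, μ, hμ, fun i => hμ' (z i) (hz' i)⟩
  have hyz : ∀ i : ι, ((eval₂ (Int.castRingHom (𝓞 K)) (z i) C : 𝓞 K) : K) =
      eval₂ (Int.castRingHom K) i.1 C := by
    intro i
    rw [coe_eval, hz i]
  have hy : ∀ i : ι, eval₂ (Int.castRingHom K) i.1 C ≠ 0 := by
    intro i hi
    obtain ⟨p, hp, hpp, ⟨φ⟩⟩ := hInf K (max B0 B1)
    have : Fact p.Prime := ⟨hpp⟩
    obtain ⟨n, μ, hμ, h⟩ := hloc p hp φ
    obtain ⟨h1, h2⟩ := h i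
    have h3 : eval₂ (Int.castRingHom (𝓞 K)) (z i) C = 0 := by
      apply RingOfIntegers.coe_injective
      rw [map_zero]
      exact (hyz i).trans hi
    rw [h3, map_zero] at h1
    exact mul_ne_zero hμ (pow_ne_zero n h2) h1.symm
  obtain ⟨Bx, hBx⟩ := (hEv2 K).1 ι (fun i => i.1) hx
  obtain ⟨By, hBy⟩ := (hEv2 K).1 ι (fun i => eval₂ (Int.castRingHom K) i.1 C) hy
  have hpow : ∀ k : ι → ℤ, ∑ i, k i = 0 → ∃ n : ℤ,
      ∏ i, (eval₂ (Int.castRingHom K) i.1 C) ^ k i = (∏ i : ι, i.1 ^ k i) ^ n := by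
    intro k hk
    refine hSchE K _ _ ?_ ?_ ?_
    · exact Finset.prod_ne_zero_iff.2 fun i _ => zpow_ne_zero _ (hy i)
    · exact Finset.prod_ne_zero_iff.2 fun i _ => zpow_ne_zero _ (hx i)
    · refine ⟨max (max B0 B1) (max Bx By), ?_⟩
      intro p _ hp φ
      have hp1 : max B0 B1 < p := lt_of_le_of_lt (le_max_left _ _) hp
      have hp2 : Bx < p := lt_of_le_of_lt ((le_max_left _ _).trans (le_max_right _ _)) hp
      have hp3 : By < p := lt_of_le_of_lt ((le_max_right _ _).trans (le_max_right _ _)) hp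
      obtain ⟨n, μ, hμ, h⟩ := hloc p hp1 φ
      refine ⟨n, ?_⟩
      rw [(hBx p hp2 φ).2 k, (hBy p hp3 φ).2 k]
      refine prod_calc μ hμ (fun i : ι => ev φ i.1)
        (fun i : ι => ev φ (eval₂ (Int.castRingHom K) i.1 C)) n (fun i => ?_) k hk
      show ev φ (eval₂ (Int.castRingHom K) i.1 C) = μ * ev φ i.1 ^ n
      rw [← hyz i, ev_int hEv1, (h i).1]
      conv_rhs => rw [← hz i, ev_int hEv1]
  obtain ⟨n, hn⟩ := hTwo K ι (fun i => i.1) (fun i => eval₂ (Int.castRingHom K) i.1 C) hx hy hpow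
  by_cases hne : Nonempty ι
  · obtain ⟨i0⟩ := hne
    refine ⟨eval₂ (Int.castRingHom K) i0.1 C * (i0.1 ^ n)⁻¹, n,
      mul_ne_zero (hy i0) (inv_ne_zero (zpow_ne_zero _ (hx i0))), ?_⟩
    intro a ha
    have h1 := hn ⟨a, (hmem a).2 ha⟩ i0
    have h2 : i0.1 ^ n ≠ 0 := zpow_ne_zero _ (hx i0)
    have h3 : eval₂ (Int.castRingHom K) a C * i0.1 ^ n =
      eval₂ (Int.castRingHom K) i0.1 C * a ^ n := h1
    field_simp
    exact h3
  · refine ⟨1, 0, one_ne_zero, ?_⟩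
    intro a ha
    exact absurd ⟨⟨a, (hmem a).2 ha⟩⟩ hne

end JKl

/-- Item Kl. -/
theorem prKl (hEv1 : StEv1) (hEv2 : StEv2) (hInf : StInf) (hSchE : StSchE) (hTwo : StTwo)
    (hGd : StGd) (hGal : StGal) : StKil := by
  intro f hf hsep h0 C hC B
  by_contra hcon
  apply hC
  have hB : ∀ p, B < p → Good f p → ∃ n, Par f p C n := by
    intro p hp hg
    by_contra h
    push Not at h
    exact hcon ⟨p, hp, hg, h⟩
  have hNF : NumberField (f.map (Int.castRingHom ℚ)).SplittingField :=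
    NumberField.of_module_finite ℚ _
  have hspl : (f.map (Int.castRingHom (f.map (Int.castRingHom ℚ)).SplittingField)).Splits := by
    have h := Polynomial.SplittingField.splits (f.map (Int.castRingHom ℚ))
    rw [Polynomial.map_map] at h
    have key : ∀ φ : ℤ →+* (f.map (Int.castRingHom ℚ)).SplittingField, (f.map φ).Splits →
        (f.map (Int.castRingHom (f.map (Int.castRingHom ℚ)).SplittingField)).Splits := by
      intro φ h3
      rwa [RingHom.ext_int φ (Int.castRingHom _)] at h3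
    exact key _ h
  obtain ⟨μ, n, hμ, h⟩ := JKl.main hEv1 hEv2 hInf hSchE hTwo hGd
    (f.map (Int.castRingHom ℚ)).SplittingField f C hf hsep h0 hspl B hB
  exact hGal f C hf hsep h0 μ n hμ h

end Pool.Agent.Work.MP_8d13b5_lc.LG
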