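import Pool.Agent.Work.MP_8d13b5_lc.LG.StmtsMer

set_option autoImplicit false

open Polynomial Filter Topology NumberField Module

namespace Pool.Agent.Work.MP_8d13b5_lc.LG

namespace NA

variable (K : Type) [Field K] [NumberField K]

/-- the comparison of the two index sets -/
noncomputable def eqv (s : ℝ) :
    {I : nonZeroDivisors (Ideal (𝓞 K)) // (Ideal.absNorm (I : Ideal (𝓞 K)) : ℝ) ≤ s} ≃
      {I : Ideal (𝓞 K) // I ∈ Idl K s} where
  toFun I := ⟨I.1.1, mem_Idl.2 ⟨nonZeroDivisors.coe_ne_zero I.1, I.2⟩⟩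
  invFun I := ⟨⟨I.1, mem_nonZeroDivisors_iff_ne_zero.2 (mem_Idl.1 I.2).1⟩, (mem_Idl.1 I.2).2⟩
  left_inv _ := rfl
  right_inv _ := rfl

theorem An_eq (s : ℝ) : An K s =
    (Nat.card {I : nonZeroDivisors (Ideal (𝓞 K)) // (Ideal.absNorm (I : Ideal (𝓞 K)) : ℝ) ≤ s} : ℝ) := by
  unfold An
  rw [Nat.card_congr (eqv K s), Nat.card_eq_fintype_card, Fintype.card_coe]

theorem An_mono {x y : ℝ} (h : x ≤ y) : An K x ≤ An K y := by
  unfold An
  refine Nat.cast_le.2 (Finset.card_le_card fun I hI => ?_)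
  rw [mem_Idl] at hI ⊢
  exact ⟨hI.1, hI.2.trans h⟩

theorem An_zero {x : ℝ} (h : x < 1) : An K x = 0 := by
  unfold An
  rw [Nat.cast_eq_zero, Finset.card_eq_zero, Finset.eq_empty_iff_forall_notMem]
  intro I hI
  rw [mem_Idl] at hI
  have h1 : Ideal.absNorm I ≠ 0 := fun h0 => hI.1 (Ideal.absNorm_eq_zero_iff.1 h0)
  have h2 : (1 : ℝ) ≤ Ideal.absNorm I := by exact_mod_cast Nat.one_le_iff_ne_zero.2 h1
  linarith [hI.2]

theorem An_nonneg (x : ℝ) : 0 ≤ An K x := Nat.cast_nonneg _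

end NA

open NA in
theorem prNA : StNA := by
  intro K _ _
  have hlim := NumberField.Ideal.tendsto_norm_le_div_atTop₀ K
  set κ : ℝ := (2 ^ InfinitePlace.nrRealPlaces K * (2 * Real.pi) ^ InfinitePlace.nrComplexPlaces K *
    Units.regulator K * classNumber K) / (Units.torsionOrder K * Real.sqrt |discr K|) with hκ
  have hκ0 : 0 < κ := by
    have h1 : 0 < Units.regulator K := Units.regulator_pos K
    have h2 : (0 : ℝ) < classNumber K := by exact_mod_cast Fintype.card_pos
    have h3 : (0 : ℝ) < Units.torsionOrder K := by exact_mod_cast Units.torsionOrder_pos K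
    have h4 : 0 < Real.sqrt |(discr K : ℝ)| :=
      Real.sqrt_pos.2 (abs_pos.2 (by exact_mod_cast discr_ne_zero K))
    have h5 : 0 < Real.pi := Real.pi_pos
    rw [hκ]
    positivity
  have hlim' : Tendsto (fun x : ℝ => An K x / x) atTop (𝓝 κ) := by
    refine hlim.congr fun s => ?_
    rw [An_eq]
  obtain ⟨x0, hx0⟩ := ((hlim'.eventually_lt_const (lt_add_one κ)).and
    (eventually_ge_atTop (1 : ℝ))).exists_forall_of_atTop
  have h1 : 1 ≤ x0 := (hx0 x0 le_rfl).2
  refine ⟨κ, κ + 1 + An K x0, hκ0, by linarith [An_nonneg K x0], hlim', fun x hx => ?_⟩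
  have hA := An_nonneg K x0
  rcases lt_or_ge x 1 with h2 | h2
  · rw [An_zero K h2]
    exact mul_nonneg (by linarith) hx
  · rcases lt_or_ge x x0 with h3 | h3
    · calc An K x ≤ An K x0 := An_mono K h3.le
        _ ≤ An K x0 * x := le_mul_of_one_le_right hA h2
        _ ≤ (κ + 1 + An K x0) * x := mul_le_mul_of_nonneg_right (by linarith) hx
    · have h4 := (hx0 x h3).1
      rw [div_lt_iff₀ (by linarith)] at h4
      calc An K x ≤ (κ + 1) * x := h4.le
        _ ≤ (κ + 1 + An K x0) * x := mul_le_mul_of_nonneg_right (by linarith) hx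

end Pool.Agent.Work.MP_8d13b5_lc.LG
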