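import Pool.Agent.Work.MP_8d13b5_lc.LG.StmtsMer

/-!
# MP_8d13b5_lc, block LG, part N: item NAn
-/

set_option autoImplicit false

open Polynomial Filter Topology NumberField Module

namespace Pool.Agent.Work.MP_8d13b5_lc.LG.NAn

theorem log_nn (p : ℕ) : 0 ≤ Real.log p :=
  Real.log_natCast_nonneg p

theorem mem_pu {x : ℝ} {p : ℕ} (h : p ∈ pu x) : p.Prime := (Finset.mem_filter.1 h).2

/-- the bounds for the sum -/
theorem main (h1 : StNCh) (A : ℝ → ℝ) (w : ℕ → ℝ) (κ C : ℝ) (hκ : 0 < κ) (hC : 0 < C)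
    (hA0 : ∀ x, 0 ≤ A x) (hA1 : ∀ x, 0 ≤ x → A x ≤ C * x)
    (hA2 : Tendsto (fun x => A x / x) atTop (𝓝 κ))
    (hw : ∀ p : ℕ, p.Prime → 0 ≤ w p ∧ w p ≤ C) (ε : ℝ) (he : 0 < ε) (heκ : ε < κ) :
    ∃ D : ℝ, ∀ x : ℝ, 1 ≤ x →
      (κ - ε) * (x * ∑ p ∈ pu x, w p * Real.log p / p) - D * x ≤
        ∑ p ∈ pu x, w p * Real.log p * A (x / p) ∧
      ∑ p ∈ pu x, w p * Real.log p * A (x / p) ≤
        (κ + ε) * (x * ∑ p ∈ pu x, w p * Real.log p / p) + D * x := by
  have h2 : ∀ᶠ t in atTop, |A t / t - κ| ≤ ε := by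
    have := (Metric.tendsto_nhds.1 hA2) ε he
    filter_upwards [this] with t ht
    rw [Real.dist_eq] at ht
    exact ht.le
  obtain ⟨Q0, hQ0⟩ := eventually_atTop.1 h2
  set Q : ℝ := max Q0 1 with hQ
  have hQ1 : 1 ≤ Q := le_max_right _ _
  have hQA : ∀ t, Q ≤ t → (κ - ε) * t ≤ A t ∧ A t ≤ (κ + ε) * t := by
    intro t ht
    have h3 := hQ0 t (le_trans (le_max_left _ _) ht)
    have ht0 : 0 < t := lt_of_lt_of_le one_pos (le_trans hQ1 ht)
    rw [abs_le] at h3
    have h4 : A t = A t / t * t := by field_simp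
    constructor
    · rw [h4]
      exact mul_le_mul_of_nonneg_right (by linarith [h3.1]) ht0.le
    · rw [h4]
      exact mul_le_mul_of_nonneg_right (by linarith [h3.2]) ht0.le
  have hE : 0 ≤ (C + κ) * (C * Q) := by positivity
  refine ⟨(C + κ) * (C * Q) * Real.log 4, fun x hx => ?_⟩
  have hx0 : 0 < x := lt_of_lt_of_le one_pos hx
  have hs := h1 x hx0.le
  have hs2 : (C + κ) * (C * Q) * ∑ p ∈ pu x, Real.log p ≤
      (C + κ) * (C * Q) * Real.log 4 * x := by
    have := mul_le_mul_of_nonneg_left hs hE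
    linarith
  -- the terms
  have key : ∀ p ∈ pu x, (κ - ε) * x * (w p * Real.log p / p) - (C + κ) * (C * Q) * Real.log p ≤
        w p * Real.log p * A (x / p) ∧
      w p * Real.log p * A (x / p) ≤
        (κ + ε) * x * (w p * Real.log p / p) + (C + κ) * (C * Q) * Real.log p := by
    intro p hp
    have hpp := mem_pu hp
    have hl := log_nn p
    obtain ⟨hw0, hw1⟩ := hw p hpp
    have hp0 : (0 : ℝ) < p := by exact_mod_cast hpp.pos
    have ha : 0 ≤ w p * Real.log p := mul_nonneg hw0 hl
    have hxp : 0 ≤ x / p := by positivity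
    have hr : 0 ≤ (C + κ) * (C * Q) * Real.log p := mul_nonneg hE hl
    have e1 : ∀ c : ℝ, c * x * (w p * Real.log p / p) = w p * Real.log p * (c * (x / p)) := by
      intro c
      field_simp
    rw [e1, e1]
    rcases le_or_gt Q (x / p) with h | h
    · obtain ⟨h5, h6⟩ := hQA _ h
      have h7 := mul_le_mul_of_nonneg_left h5 ha
      have h8 := mul_le_mul_of_nonneg_left h6 ha
      constructor <;> linarith
    · have h5 : w p * Real.log p ≤ C * Real.log p := mul_le_mul_of_nonneg_right hw1 hl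
      have h9 : w p * Real.log p * (x / p) ≤ C * Real.log p * Q :=
        mul_le_mul h5 h.le hxp (mul_nonneg hC.le hl)
      have h10 : A (x / p) ≤ C * (x / p) := hA1 _ hxp
      have h11 : w p * Real.log p * A (x / p) ≤ w p * Real.log p * (C * (x / p)) :=
        mul_le_mul_of_nonneg_left h10 ha
      have h12 : 0 ≤ w p * Real.log p * A (x / p) := mul_nonneg ha (hA0 _)
      have h13 : 0 ≤ w p * Real.log p * (x / p) := mul_nonneg ha hxp
      have h14 : C * (w p * Real.log p * (x / p)) ≤ C * (C * Real.log p * Q) :=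
        mul_le_mul_of_nonneg_left h9 hC.le
      have h15 : κ * (w p * Real.log p * (x / p)) ≤ κ * (C * Real.log p * Q) :=
        mul_le_mul_of_nonneg_left h9 hκ.le
      have h16 : 0 ≤ κ * (C * Real.log p * Q) := by positivity
      have h17 : 0 ≤ C * (C * Real.log p * Q) := by positivity
      have h18 : 0 ≤ ε * (w p * Real.log p * (x / p)) := mul_nonneg he.le h13
      have h19 : 0 ≤ κ * (w p * Real.log p * (x / p)) := mul_nonneg hκ.le h13
      constructor <;> nlinarith
  have e2 : ∀ c : ℝ, c * (x * ∑ p ∈ pu x, w p * Real.log p / p) =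
      ∑ p ∈ pu x, c * x * (w p * Real.log p / p) := by
    intro c
    rw [← mul_assoc, Finset.mul_sum]
  rw [e2, e2]
  constructor
  · have := Finset.sum_le_sum fun p hp => (key p hp).1
    rw [Finset.sum_sub_distrib, ← Finset.mul_sum (a := (C + κ) * (C * Q))] at this
    linarith
  · have := Finset.sum_le_sum fun p hp => (key p hp).2
    rw [Finset.sum_add_distrib, ← Finset.mul_sum (a := (C + κ) * (C * Q))] at this
    linarith

end Pool.Agent.Work.MP_8d13b5_lc.LG.NAn

namespace Pool.Agent.Work.MP_8d13b5_lc.LG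

theorem prNAn (h1 : StNCh) : StNAn := by
  intro A T w κ C hκ hC hA0 hA1 hA2 hw hT hTx
  set M : ℝ → ℝ := fun x => ∑ p ∈ pu x, w p * Real.log p / p with hM
  have hlog : Tendsto (fun x : ℝ => Real.log x) atTop atTop := Real.tendsto_log_atTop
  -- the two inequalities after division
  have main : ∀ ε : ℝ, 0 < ε → ε < κ → ∃ D : ℝ, ∀ᶠ x : ℝ in atTop,
      (κ - ε) * (M x / Real.log x) ≤ T x / (x * Real.log x) + D / Real.log x ∧
      T x / (x * Real.log x) - D / Real.log x ≤ (κ + ε) * (M x / Real.log x) := by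
    intro ε he heκ
    obtain ⟨D, hD⟩ := NAn.main h1 A w κ C hκ hC hA0 hA1 hA2 hw ε he heκ
    refine ⟨D + C, ?_⟩
    filter_upwards [eventually_ge_atTop (2 : ℝ)] with x hx
    have hx1 : 1 ≤ x := by linarith
    have hx0 : 0 < x := by linarith
    have hl : 0 < Real.log x := Real.log_pos (by linarith)
    obtain ⟨h2, h3⟩ := hD x hx1
    have h4 := abs_le.1 (hTx x hx1)
    have hxl : 0 < x * Real.log x := mul_pos hx0 hl
    constructor
    · have e1 : (κ - ε) * (M x / Real.log x) = ((κ - ε) * (x * M x)) / (x * Real.log x) := by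
        field_simp
      have e2 : T x / (x * Real.log x) + (D + C) / Real.log x =
          (T x + (D + C) * x) / (x * Real.log x) := by
        field_simp
      rw [e1, e2]
      refine div_le_div_of_nonneg_right ?_ hxl.le
      have : (κ - ε) * (x * M x) = (κ - ε) * (x * ∑ p ∈ pu x, w p * Real.log p / p) := rfl
      linarith [h4.1, h4.2]
    · have e1 : (κ + ε) * (M x / Real.log x) = ((κ + ε) * (x * M x)) / (x * Real.log x) := by
        field_simp
      have e2 : T x / (x * Real.log x) - (D + C) / Real.log x =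
          (T x - (D + C) * x) / (x * Real.log x) := by
        field_simp
      rw [e1, e2]
      refine div_le_div_of_nonneg_right ?_ hxl.le
      have : (κ + ε) * (x * M x) = (κ + ε) * (x * ∑ p ∈ pu x, w p * Real.log p / p) := rfl
      linarith [h4.1, h4.2]
  refine tendsto_order.2 ⟨fun a ha => ?_, fun b hb => ?_⟩
  · -- lower bound
    obtain ⟨ε, he, heκ, hea⟩ : ∃ ε : ℝ, 0 < ε ∧ ε < κ ∧ (κ + ε) * a < κ := by
      refine ⟨min (κ / 2) (κ * (1 - a) / (2 * (|a| + 1))), ?_, ?_, ?_⟩
      · refine lt_min (by positivity) (div_pos (mul_pos hκ (by linarith)) (by positivity))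
      · exact lt_of_le_of_lt (min_le_left _ _) (by linarith)
      · set ε := min (κ / 2) (κ * (1 - a) / (2 * (|a| + 1))) with hε
        have h5 : ε ≤ κ * (1 - a) / (2 * (|a| + 1)) := min_le_right _ _
        have h6 : 0 < ε := lt_min (by positivity)
          (div_pos (mul_pos hκ (by linarith)) (by positivity))
        have h7 : ε * (2 * (|a| + 1)) ≤ κ * (1 - a) := by
          rwa [le_div_iff₀ (by positivity)] at h5
        have h8 : ε * a ≤ ε * |a| := mul_le_mul_of_nonneg_left (le_abs_self a) h6.le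
        have h9 : 0 < κ * (1 - a) := mul_pos hκ (by linarith)
        nlinarith
    obtain ⟨D, hD⟩ := main ε he heκ
    have h5 : Tendsto (fun x : ℝ => T x / (x * Real.log x) - D / Real.log x) atTop (𝓝 κ) := by
      simpa using hT.sub (hlog.const_div_atTop D)
    filter_upwards [hD, (tendsto_order.1 h5).1 _ hea] with x h6 h7
    have h8 : (κ + ε) * a < (κ + ε) * (M x / Real.log x) := lt_of_lt_of_le h7 h6.2
    exact lt_of_mul_lt_mul_left h8 (by linarith)
  · -- upper bound
    obtain ⟨ε, he, heκ, heb⟩ : ∃ ε : ℝ, 0 < ε ∧ ε < κ ∧ κ < (κ - ε) * b := by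
      refine ⟨κ * (b - 1) / (2 * b), div_pos (mul_pos hκ (by linarith)) (by linarith), ?_, ?_⟩
      · rw [div_lt_iff₀ (by linarith)]
        nlinarith
      · have : (κ - κ * (b - 1) / (2 * b)) * b = κ * (b + 1) / 2 := by
          have : b ≠ 0 := by linarith
          field_simp
          ring
        rw [this]
        nlinarith
    obtain ⟨D, hD⟩ := main ε he heκ
    have h5 : Tendsto (fun x : ℝ => T x / (x * Real.log x) + D / Real.log x) atTop (𝓝 κ) := by
      simpa using hT.add (hlog.const_div_atTop D)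
    filter_upwards [hD, (tendsto_order.1 h5).2 _ heb] with x h6 h7
    have h8 : (κ - ε) * (M x / Real.log x) < (κ - ε) * b := lt_of_le_of_lt h6.1 h7
    exact lt_of_mul_lt_mul_left h8 (by linarith)

end Pool.Agent.Work.MP_8d13b5_lc.LG
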