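import Pool.Agent.Work.MP_8d13b5_lc.LG.StmtsMer

/-!
# MP_8d13b5_lc, block LG, part N, item NCh: Chebyshev's upper bound
-/

set_option autoImplicit false

open Polynomial Filter Topology NumberField Module

namespace Pool.Agent.Work.MP_8d13b5_lc.LG

theorem prNCh : StNCh := by
  intro x hx
  refine le_trans (le_of_eq ?_) (Chebyshev.theta_le_log4_mul_x hx)
  unfold Chebyshev.theta pu
  refine Finset.sum_congr ?_ fun _ _ => rfl
  ext p
  simp only [Finset.mem_filter, Finset.mem_Icc, Finset.mem_Ioc]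
  constructor
  · rintro ⟨⟨h1, h2⟩, h3⟩
    exact ⟨⟨by omega, h2⟩, h3⟩
  · rintro ⟨⟨h1, h2⟩, h3⟩
    exact ⟨⟨by omega, h2⟩, h3⟩

end Pool.Agent.Work.MP_8d13b5_lc.LG
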