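import Pool.Agent.Work.MP_8d13b5_lc.LG.StmtsMer

/-!
# MP_8d13b5_lc, block LG, item NCt: the ideals divisible by a given ideal
-/

set_option autoImplicit false

open Polynomial Filter Topology NumberField Module

namespace Pool.Agent.Work.MP_8d13b5_lc.LG

theorem prNCt : StNCt := by
  classical
  intro K _ _ Q hQ x
  unfold An
  have hN : 0 < Ideal.absNorm Q := Nat.pos_of_ne_zero fun h => hQ (Ideal.absNorm_eq_zero_iff.1 h)
  have hN' : (0 : ℝ) < Ideal.absNorm Q := by exact_mod_cast hN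
  have h1 : (Idl K x).filter (fun I => Q ∣ I) =
      (Idl K (x / Ideal.absNorm Q)).image (fun J => Q * J) := by
    ext I
    rw [Finset.mem_filter, Finset.mem_image, mem_Idl]
    constructor
    · rintro ⟨⟨h1, h2⟩, J, rfl⟩
      refine ⟨J, mem_Idl.2 ⟨fun hJ => h1 (by rw [hJ, Ideal.mul_bot]), ?_⟩, rfl⟩
      rw [map_mul, Nat.cast_mul] at h2
      rw [le_div_iff₀ hN', mul_comm]
      exact h2
    · rintro ⟨J, hJ, rfl⟩
      rw [mem_Idl] at hJ
      refine ⟨⟨mul_ne_zero hQ hJ.1, ?_⟩, Dvd.intro _ rfl⟩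
      rw [map_mul, Nat.cast_mul]
      have h3 := hJ.2
      rw [le_div_iff₀ hN', mul_comm] at h3
      exact h3
  rw [h1, Finset.card_image_of_injective _ (mul_right_injective₀ hQ)]

end Pool.Agent.Work.MP_8d13b5_lc.LG
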