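import Pool.Agent.Work.MP_8d13b5_lc.LG.StmtsMer

/-!
# MP_8d13b5_lc, block LG, part N, item NEx: the primes of degree one give the main term
-/

set_option autoImplicit false

open Polynomial Filter Topology NumberField Module

namespace Pool.Agent.Work.MP_8d13b5_lc.LG

namespace NEx

theorem sum_Icc (F : ℕ → ℝ) (n : ℕ) :
    ∑ k ∈ Finset.Icc 1 n, F k = ∑ i ∈ Finset.range n, F (i + 1) := by
  induction n with
  | zero => simp
  | succ n ih => rw [Finset.sum_Icc_succ_top (by omega), Finset.sum_range_succ, ih]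

/-- one term -/
theorem tm (A : ℝ → ℝ) (C0 : ℝ) (hC0 : 0 < C0) (hA : ∀ y, 0 ≤ y → A y ≤ C0 * y)
    (p i e : ℕ) (hp : 2 ≤ p) (he : i + 2 ≤ e) (x : ℝ) (hx : 0 ≤ x) :
    A (x / (p : ℝ) ^ e) ≤ C0 * x / (p : ℝ) ^ 2 * (1 / 2) ^ i := by
  have hp2 : (2 : ℝ) ≤ p := by exact_mod_cast hp
  have hp1 : (1 : ℝ) ≤ p := by linarith
  have hp0 : (0 : ℝ) < p := by linarith
  have h1 : (2 : ℝ) ^ i * (p : ℝ) ^ 2 ≤ (p : ℝ) ^ e := by
    calc (2 : ℝ) ^ i * (p : ℝ) ^ 2 ≤ (p : ℝ) ^ i * (p : ℝ) ^ 2 :=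
          mul_le_mul_of_nonneg_right (pow_le_pow_left₀ (by norm_num) hp2 i) (by positivity)
      _ = (p : ℝ) ^ (i + 2) := (pow_add _ _ _).symm
      _ ≤ (p : ℝ) ^ e := pow_le_pow_right₀ hp1 he
  refine (hA _ (by positivity)).trans ?_
  have h2 : x / (p : ℝ) ^ e ≤ x / ((2 : ℝ) ^ i * (p : ℝ) ^ 2) :=
    div_le_div_of_nonneg_left hx (by positivity) h1
  refine (mul_le_mul_of_nonneg_left h2 hC0.le).trans (le_of_eq ?_)
  rw [one_div, inv_pow]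
  field_simp

/-- a sum of terms -/
theorem tms (A : ℝ → ℝ) (C0 : ℝ) (hC0 : 0 < C0) (hA : ∀ y, 0 ≤ y → A y ≤ C0 * y)
    (p n : ℕ) (e : ℕ → ℕ) (hp : 2 ≤ p) (he : ∀ i, i + 2 ≤ e i) (x : ℝ) (hx : 0 ≤ x) :
    ∑ i ∈ Finset.range n, A (x / (p : ℝ) ^ e i) ≤ 2 * C0 * x / (p : ℝ) ^ 2 := by
  calc ∑ i ∈ Finset.range n, A (x / (p : ℝ) ^ e i)
      ≤ ∑ i ∈ Finset.range n, C0 * x / (p : ℝ) ^ 2 * (1 / 2) ^ i :=
        Finset.sum_le_sum fun i _ => tm A C0 hC0 hA p i (e i) hp (he i) x hx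
    _ = C0 * x / (p : ℝ) ^ 2 * ∑ i ∈ Finset.range n, (1 / 2 : ℝ) ^ i := by
        rw [← Finset.mul_sum]
    _ ≤ C0 * x / (p : ℝ) ^ 2 * 2 :=
        mul_le_mul_of_nonneg_left (sum_geometric_two_le n) (by positivity)
    _ = _ := by ring

/-- the contribution of one prime ideal -/
theorem pri (A : ℝ → ℝ) (C0 : ℝ) (hC0 : 0 < C0) (hA0 : ∀ y, 0 ≤ A y)
    (hA : ∀ y, 0 ≤ y → A y ≤ C0 * y) (p f n : ℕ) (hp : 2 ≤ p) (hf : 1 ≤ f) (hn : 1 ≤ n)
    (x : ℝ) (hx : 0 ≤ x) :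
    0 ≤ (f : ℝ) * ∑ k ∈ Finset.Icc 1 n, A (x / (p : ℝ) ^ (f * k)) -
      (if f = 1 then A (x / p) else 0) ∧
    (f : ℝ) * ∑ k ∈ Finset.Icc 1 n, A (x / (p : ℝ) ^ (f * k)) -
      (if f = 1 then A (x / p) else 0) ≤ f * (2 * C0 * x / (p : ℝ) ^ 2) := by
  obtain ⟨n', rfl⟩ : ∃ n', n = n' + 1 := ⟨n - 1, by omega⟩
  rw [sum_Icc]
  by_cases h1 : f = 1
  · subst h1
    rw [Finset.sum_range_succ', if_pos rfl]
    have e1 : ((1 : ℕ) : ℝ) * (∑ k ∈ Finset.range n', A (x / (p : ℝ) ^ (1 * (k + 1 + 1))) +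
        A (x / (p : ℝ) ^ (1 * (0 + 1)))) - A (x / p) =
        ∑ k ∈ Finset.range n', A (x / (p : ℝ) ^ (k + 2)) := by
      simp only [Nat.cast_one, one_mul, zero_add, pow_one]
      ring
    rw [e1, Nat.cast_one, one_mul]
    exact ⟨Finset.sum_nonneg fun _ _ => hA0 _,
      tms A C0 hC0 hA p n' (fun i => i + 2) hp (fun _ => le_rfl) x hx⟩
  · rw [if_neg h1, sub_zero]
    refine ⟨mul_nonneg (Nat.cast_nonneg _) (Finset.sum_nonneg fun _ _ => hA0 _), ?_⟩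
    refine mul_le_mul_of_nonneg_left ?_ (Nat.cast_nonneg _)
    refine tms A C0 hC0 hA p (n' + 1) (fun i => f * (i + 1)) hp (fun i => ?_) x hx
    have : 2 * (i + 1) ≤ f * (i + 1) := Nat.mul_le_mul_right _ (by omega)
    show i + 2 ≤ f * (i + 1)
    omega

end NEx

theorem prNEx (hNA : StNA) (hNPa : StNPa) (hNPb : StNPb) (hNVl : StNVl) (hNCt : StNCt) :
    StNEx := by
  classical
  intro K _ _
  obtain ⟨κ, C0, -, hC0, -, hA⟩ := hNA K
  have hD : 0 < finrank ℚ K := finrank_pos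
  have hA0 : ∀ y, 0 ≤ An K y := fun y => Nat.cast_nonneg _
  refine ⟨finrank ℚ K * (2 * C0), by positivity, fun p hp x hx => ?_⟩
  obtain ⟨Pr, f, hAbv⟩ := hNPa K p hp
  have hx0 : 0 ≤ x := by linarith
  obtain ⟨n, hn⟩ := pow_unbounded_of_one_lt x (by norm_num : (1 : ℝ) < 2)
  have hn1 : 1 ≤ n := by
    rcases Nat.eq_zero_or_pos n with h | h
    · rw [h, pow_zero] at hn
      linarith
    · exact h
  have hlt : ∀ I ∈ Idl K x, Ideal.absNorm I < 2 ^ n := by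
    intro I hI
    have h1 := (mem_Idl.1 hI).2
    have h2 : (Ideal.absNorm I : ℝ) < 2 ^ n := h1.trans_lt hn
    exact_mod_cast h2
  have hsum : ∑ I ∈ Idl K x, (padicValNat p (Ideal.absNorm I) : ℝ) =
      ∑ P ∈ Pr, (f P : ℝ) * ∑ k ∈ Finset.Icc 1 n, An K (x / (p : ℝ) ^ (f P * k)) := by
    have h1 : ∀ I ∈ Idl K x, (padicValNat p (Ideal.absNorm I) : ℝ) =
        ∑ P ∈ Pr, (f P : ℝ) *
          ((((Finset.Icc 1 n).filter (fun k => P ^ k ∣ I)).card : ℕ) : ℝ) := by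
      intro I hI
      rw [hNVl K p hp Pr f hAbv I (mem_Idl.1 hI).1 n (hlt I hI)]
      push_cast
      rfl
    rw [Finset.sum_congr rfl h1, Finset.sum_comm]
    refine Finset.sum_congr rfl fun P hP => ?_
    obtain ⟨-, hP0, -, hPn⟩ := hAbv.prime P hP
    rw [← Finset.mul_sum]
    congr 1
    have h2 : ∀ I, ((((Finset.Icc 1 n).filter (fun k => P ^ k ∣ I)).card : ℕ) : ℝ) =
        ∑ k ∈ Finset.Icc 1 n, if P ^ k ∣ I then (1 : ℝ) else 0 := by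
      intro I
      rw [Finset.sum_boole]
    rw [Finset.sum_congr rfl fun I _ => h2 I, Finset.sum_comm]
    refine Finset.sum_congr rfl fun k _ => ?_
    rw [Finset.sum_boole]
    have h3 := hNCt K (P ^ k) (pow_ne_zero k hP0) x
    rw [map_pow, hPn, ← pow_mul, Nat.cast_pow] at h3
    exact h3
  have hg : (gn K p : ℝ) * An K (x / p) =
      ∑ P ∈ Pr, if f P = 1 then An K (x / p) else 0 := by
    rw [← hNPb K p hp Pr f hAbv, ← Finset.sum_filter, Finset.sum_const, nsmul_eq_mul]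
  rw [hsum, hg, ← Finset.sum_sub_distrib]
  have hpri := fun P hP => NEx.pri (An K) C0 hC0 hA0 hA p (f P) n hp.two_le
    (hAbv.prime P hP).2.2.1 hn1 x hx0
  rw [abs_of_nonneg (Finset.sum_nonneg fun P hP => (hpri P hP).1)]
  refine (Finset.sum_le_sum fun P hP => (hpri P hP).2).trans ?_
  rw [← Finset.sum_mul]
  have hdeg : ∑ P ∈ Pr, (f P : ℝ) ≤ finrank ℚ K := by exact_mod_cast hAbv.deg
  calc (∑ P ∈ Pr, (f P : ℝ)) * (2 * C0 * x / (p : ℝ) ^ 2)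
      ≤ finrank ℚ K * (2 * C0 * x / (p : ℝ) ^ 2) :=
        mul_le_mul_of_nonneg_right hdeg (by positivity)
    _ = _ := by ring

end Pool.Agent.Work.MP_8d13b5_lc.LG
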