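import Pool.Agent.Work.MP_8d13b5_lc.LG.StmtsMer

/-!
# MP_8d13b5_lc, block LG, part N, item NL (helper55): the logarithms of the norms
-/

set_option autoImplicit false

open Polynomial Filter Topology NumberField Module

namespace Pool.Agent.Work.MP_8d13b5_lc.LG

namespace NL

theorem log_eq (x : ℝ) (n : ℕ) (hn : n ≠ 0) (hx : (n : ℝ) ≤ x) :
    Real.log n = ∑ p ∈ pu x, Real.log p * (padicValNat p n : ℝ) := by
  have hsub : n.factorization.support ⊆ pu x := by
    intro p hp
    rw [Nat.support_factorization, Nat.mem_primeFactors] at hp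
    have h1 : p ≤ n := Nat.le_of_dvd (Nat.pos_of_ne_zero hn) hp.2.1
    have h2 : (p : ℝ) ≤ x := (Nat.cast_le.2 h1).trans hx
    exact Finset.mem_filter.2 ⟨Finset.mem_Icc.2 ⟨hp.1.one_lt.le, Nat.le_floor h2⟩, hp.1⟩
  rw [Real.log_nat_eq_sum_factorization, Finsupp.sum_of_support_subset _ hsub]
  · refine Finset.sum_congr rfl fun p hp => ?_
    have hpp : p.Prime := (Finset.mem_filter.1 hp).2
    rw [Nat.factorization_def n hpp, mul_comm]
  · intro i _
    rw [Nat.cast_zero, zero_mul]

end NL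

theorem prNL : StNL := by
  intro K _ _ x
  unfold Tn
  have h1 : ∀ I ∈ Idl K x, Real.log (Ideal.absNorm I) =
      ∑ p ∈ pu x, Real.log p * (padicValNat p (Ideal.absNorm I) : ℝ) := by
    intro I hI
    obtain ⟨h2, h3⟩ := mem_Idl.1 hI
    exact NL.log_eq x _ (by rwa [Ne, Ideal.absNorm_eq_zero_iff]) h3
  rw [Finset.sum_congr rfl h1, Finset.sum_comm]
  refine Finset.sum_congr rfl fun p _ => ?_
  rw [Finset.mul_sum]

end Pool.Agent.Work.MP_8d13b5_lc.LG
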