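import Pool.Agent.Work.MP_8d13b5_lc.LG.StmtsMer

/-!
# MP_8d13b5_lc, block LG, item NMr: assembly of Mertens' theorem for number fields
-/

set_option autoImplicit false

open Polynomial Filter Topology NumberField Module

namespace Pool.Agent.Work.MP_8d13b5_lc.LG

theorem prNMr : StNMr := by
  intro hNA hNT hNL hNEx hNgn hNS _ hNAn K _ _
  obtain ⟨κ, C1, hκ, hC1, hlim, hA⟩ := hNA K
  obtain ⟨C2, hC2, hex⟩ := hNEx K
  obtain ⟨C3, hC3, hs⟩ := hNS
  have hC23 : 0 < C2 * C3 := mul_pos hC2 hC3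
  have hD : (0 : ℝ) ≤ finrank ℚ K := Nat.cast_nonneg _
  obtain ⟨C, hC⟩ : ∃ C : ℝ, C = C1 + C2 * C3 + finrank ℚ K := ⟨_, rfl⟩
  refine hNAn (An K) (Tn K) (fun p => gn K p) κ C hκ (by linarith)
    (fun x => Nat.cast_nonneg _) (fun x hx => (hA x hx).trans ?_) hlim
    (fun p hp => ⟨Nat.cast_nonneg _, ?_⟩) (hNT K κ hκ hlim) (fun x hx => ?_)
  · exact mul_le_mul_of_nonneg_right (by linarith) hx
  · have h1 : (gn K p : ℝ) ≤ finrank ℚ K := by exact_mod_cast hNgn K p hp
    show (gn K p : ℝ) ≤ C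
    linarith
  · have hx0 : 0 ≤ x := zero_le_one.trans hx
    have e1 : Tn K x - ∑ p ∈ pu x, (gn K p : ℝ) * Real.log p * An K (x / p) =
        ∑ p ∈ pu x, Real.log p * (∑ I ∈ Idl K x, (padicValNat p (Ideal.absNorm I) : ℝ) -
          gn K p * An K (x / p)) := by
      rw [hNL K x, ← Finset.sum_sub_distrib]
      exact Finset.sum_congr rfl fun p _ => by ring
    show |Tn K x - ∑ p ∈ pu x, (gn K p : ℝ) * Real.log p * An K (x / p)| ≤ C * x
    rw [e1]
    refine (Finset.abs_sum_le_sum_abs _ _).trans ?_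
    have e2 : ∀ p ∈ pu x, |Real.log p * (∑ I ∈ Idl K x, (padicValNat p (Ideal.absNorm I) : ℝ) -
        gn K p * An K (x / p))| ≤ C2 * x * (Real.log p / (p : ℝ) ^ 2) := by
      intro p hp
      have hp' : p.Prime := (Finset.mem_filter.1 hp).2
      have hl : 0 ≤ Real.log p := Real.log_natCast_nonneg p
      rw [abs_mul, abs_of_nonneg hl]
      refine (mul_le_mul_of_nonneg_left (hex p hp' x hx) hl).trans (le_of_eq ?_)
      ring
    refine (Finset.sum_le_sum e2).trans ?_
    rw [← Finset.mul_sum]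
    refine (mul_le_mul_of_nonneg_left (hs x) (by positivity)).trans ?_
    have e3 : C2 * x * C3 = C2 * C3 * x := by ring
    rw [e3]
    exact mul_le_mul_of_nonneg_right (by linarith) hx0

end Pool.Agent.Work.MP_8d13b5_lc.LG
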