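import Pool.Agent.Work.MP_8d13b5_lc.LG.StmtsMer

/-!
# Item NPa of block LG (helper32): the prime ideals over a rational prime
-/

set_option autoImplicit false

open Polynomial Filter Topology NumberField Module

namespace Pool.Agent.Work.MP_8d13b5_lc.LG.NPa

/-- a prime ideal whose norm is divisible by `p` contains `p` -/
theorem mem_of_dvd (K : Type) [Field K] [NumberField K] (p : ℕ) (hp : p.Prime)
    (P : Ideal (𝓞 K)) (hP : P.IsPrime) (hP0 : P ≠ ⊥) (h : p ∣ Ideal.absNorm P) :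
    ((p : ℕ) : 𝓞 K) ∈ P := by
  have hfin : Finite (𝓞 K ⧸ P) := Ideal.finiteQuotientOfFreeOfNeBot P hP0
  have hcard : Ideal.absNorm P = Nat.card (𝓞 K ⧸ P) := rfl
  rw [hcard] at h
  have : Fact p.Prime := ⟨hp⟩
  obtain ⟨x, hx⟩ := exists_prime_addOrderOf_dvd_card' (G := 𝓞 K ⧸ P) p h
  have hx0 : x ≠ 0 := by
    rintro rfl
    rw [addOrderOf_zero] at hx
    exact hp.one_lt.ne hx
  have hx1 : (p : 𝓞 K ⧸ P) * x = 0 := by
    rw [← nsmul_eq_mul, ← hx]
    exact addOrderOf_nsmul_eq_zero x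
  have hx2 : (p : 𝓞 K ⧸ P) = 0 := by
    rcases mul_eq_zero.1 hx1 with h1 | h1
    · exact h1
    · exact absurd h1 hx0
  rw [← map_natCast (Ideal.Quotient.mk P), Ideal.Quotient.eq_zero_iff_mem] at hx2
  exact hx2

theorem max_span (p : ℕ) (hp : p.Prime) : (Ideal.span {(p : ℤ)}).IsMaximal := by
  have : Fact p.Prime := ⟨hp⟩
  exact Int.ideal_span_isMaximal_of_prime p

theorem span_ne (p : ℕ) (hp : p.Prime) : Ideal.span {(p : ℤ)} ≠ ⊥ := by
  rw [Ne, Ideal.span_singleton_eq_bot]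
  exact_mod_cast hp.ne_zero

theorem liesOver (K : Type) [Field K] [NumberField K] (p : ℕ) (hp : p.Prime)
    (P : Ideal (𝓞 K)) (hP : P.IsPrime) (h : ((p : ℕ) : 𝓞 K) ∈ P) :
    P.LiesOver (Ideal.span {(p : ℤ)}) := by
  constructor
  apply (max_span p hp).eq_of_le
  · exact (Ideal.IsPrime.under ℤ P).ne_top
  · rw [Ideal.span_singleton_le_iff_mem, Ideal.under_def, Ideal.mem_comap]
    simpa using h

end Pool.Agent.Work.MP_8d13b5_lc.LG.NPa

namespace Pool.Agent.Work.MP_8d13b5_lc.LG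

set_option linter.deprecated false in
/-- the prime ideals over `p`, with their degrees -/
theorem prNPa : StNPa := by
  intro K _ _ p hp
  have := NPa.max_span p hp
  have h0 := NPa.span_ne p hp
  refine ⟨IsDedekindDomain.primesOverFinset (Ideal.span {(p : ℤ)}) (𝓞 K),
    fun P => (Ideal.span {(p : ℤ)}).inertiaDeg' P, ?_, ?_, ?_⟩
  · intro P hP
    obtain ⟨h1, h2⟩ := (IsDedekindDomain.mem_primesOverFinset_iff h0 _).1 hP
    have := h1
    have := h2
    have h3 : P ≠ ⊥ := Ideal.ne_bot_of_liesOver_of_ne_bot h0 P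
    refine ⟨h1, h3, ?_, Ideal.absNorm_eq_pow_inertiaDeg' P hp⟩
    exact Nat.one_le_iff_ne_zero.2 (Ideal.inertiaDeg'_ne_zero _ P)
  · intro P hP hP0 hn hd
    apply hn
    rw [IsDedekindDomain.mem_primesOverFinset_iff h0]
    exact ⟨hP, NPa.liesOver K p hp P hP (NPa.mem_of_dvd K p hp P hP hP0 hd)⟩
  · rw [← Ideal.sum_ramification_inertia (𝓞 K) ℚ K h0]
    refine Finset.sum_le_sum fun P hP => ?_
    obtain ⟨h1, h2⟩ := (IsDedekindDomain.mem_primesOverFinset_iff h0 _).1 hP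
    have := h1
    have := h2
    exact Nat.le_mul_of_pos_left _ (Nat.pos_of_ne_zero
      (Ideal.IsDedekindDomain.ramificationIdx'_ne_zero_of_liesOver _ h0))

end Pool.Agent.Work.MP_8d13b5_lc.LG
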