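import Pool.Agent.Work.MP_8d13b5_lc.LG.StmtsMer

/-!
# MP_8d13b5_lc, block LG, item NPb: homomorphisms to the prime field and primes of degree one
-/

set_option autoImplicit false

open Polynomial Filter Topology NumberField Module

namespace Pool.Agent.Work.MP_8d13b5_lc.LG

namespace NPb

theorem absNorm_ker {K : Type} [Field K] [NumberField K] {p : ℕ} (φ : 𝓞 K →+* ZMod p) :
    Ideal.absNorm (RingHom.ker φ) = p := by
  rw [Ideal.absNorm_apply, Submodule.cardQuot_apply]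
  have e := RingHom.quotientKerEquivOfSurjective (ZMod.ringHom_surjective φ)
  have h := Nat.card_congr e.toEquiv
  rw [Nat.card_zmod] at h
  exact h

theorem ker_mem {K : Type} [Field K] [NumberField K] {p : ℕ} (hp : p.Prime)
    {Pr : Finset (Ideal (𝓞 K))} {f : Ideal (𝓞 K) → ℕ} (h : Abv K p Pr f)
    (φ : 𝓞 K →+* ZMod p) : RingHom.ker φ ∈ Pr.filter (fun P => f P = 1) := by
  have : Fact p.Prime := ⟨hp⟩
  have hn := absNorm_ker φ
  have hprime : (RingHom.ker φ).IsPrime := RingHom.ker_isPrime φ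
  have hbot : RingHom.ker φ ≠ ⊥ := by
    intro hb
    rw [hb, Ideal.absNorm_bot] at hn
    exact hp.ne_zero hn.symm
  have hmem : RingHom.ker φ ∈ Pr := by
    by_contra hnot
    exact h.all _ hprime hbot hnot (by rw [hn])
  rw [Finset.mem_filter]
  refine ⟨hmem, ?_⟩
  have h2 := (h.prime _ hmem).2.2.2
  rw [hn] at h2
  have h3 : p ^ 1 = p ^ f (RingHom.ker φ) := by rw [pow_one]; exact h2
  exact (Nat.pow_right_injective hp.two_le h3).symm

theorem exists_ker {K : Type} [Field K] [NumberField K] {p : ℕ} (hp : p.Prime)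
    {P : Ideal (𝓞 K)} (h : Ideal.absNorm P = p) :
    ∃ φ : 𝓞 K →+* ZMod p, RingHom.ker φ = P := by
  rw [Ideal.absNorm_apply, Submodule.cardQuot_apply] at h
  have hfin : Finite (𝓞 K ⧸ P) := Nat.finite_of_card_ne_zero (by rw [h]; exact hp.ne_zero)
  have : Fintype (𝓞 K ⧸ P) := Fintype.ofFinite _
  rw [Nat.card_eq_fintype_card] at h
  let e : ZMod p ≃+* 𝓞 K ⧸ P := ZMod.ringEquivOfPrime (𝓞 K ⧸ P) hp h
  refine ⟨(e.symm : (𝓞 K ⧸ P) →+* ZMod p).comp (Ideal.Quotient.mk P), ?_⟩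
  ext x
  rw [RingHom.mem_ker, RingHom.comp_apply]
  change e.symm (Ideal.Quotient.mk P x) = 0 ↔ x ∈ P
  rw [map_eq_zero_iff e.symm e.symm.injective, Ideal.Quotient.eq_zero_iff_mem]

end NPb

open NPb in
theorem prNPb : StNPb := by
  intro K _ _ p hp Pr f h
  unfold gn
  have h1 : Nat.card {P // P ∈ Pr.filter (fun P => f P = 1)} =
      (Pr.filter (fun P => f P = 1)).card := by
    rw [Nat.card_eq_fintype_card, Fintype.card_coe]
  rw [← h1]
  refine (Nat.card_eq_of_bijective (fun φ : 𝓞 K →+* ZMod p =>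
    (⟨RingHom.ker φ, ker_mem hp h φ⟩ : {P // P ∈ Pr.filter (fun P => f P = 1)})) ⟨?_, ?_⟩).symm
  · intro φ ψ hφ
    exact ZMod.ringHom_eq_of_ker_eq φ ψ (congrArg Subtype.val hφ)
  · rintro ⟨P, hP⟩
    have hP' := hP
    rw [Finset.mem_filter] at hP'
    have hn := (h.prime P hP'.1).2.2.2
    rw [hP'.2, pow_one] at hn
    obtain ⟨φ, hφ⟩ := exists_ker hp hn
    exact ⟨φ, Subtype.ext hφ⟩

end Pool.Agent.Work.MP_8d13b5_lc.LG
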