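import Pool.Agent.Work.MP_8d13b5_lc.LG.StmtsMer

set_option autoImplicit false

/-! Block `LG`, part N, item NS: the sum of `log p / p ^ 2` is bounded. -/

open Polynomial Filter Topology NumberField Module

namespace Pool.Agent.Work.MP_8d13b5_lc.LG

namespace NS

/-- the bound for one term -/
theorem term (n : ℕ) : Real.log n / (n : ℝ) ^ 2 ≤ 2 * (1 / (n : ℝ) ^ (3 / 2 : ℝ)) := by
  rcases Nat.eq_zero_or_pos n with rfl | hn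
  · simp
  have hn0 : (0 : ℝ) < n := by exact_mod_cast hn
  have h1 : Real.log n ≤ (n : ℝ) ^ (1 / 2 : ℝ) / (1 / 2) :=
    Real.log_le_rpow_div hn0.le (by norm_num)
  have h2 : (n : ℝ) ^ (1 / 2 : ℝ) * (n : ℝ) ^ (3 / 2 : ℝ) = (n : ℝ) ^ 2 := by
    rw [← Real.rpow_add hn0, ← Real.rpow_natCast]
    norm_num
  have h3 : (0 : ℝ) < (n : ℝ) ^ (3 / 2 : ℝ) := Real.rpow_pos_of_pos hn0 _
  have h4 : (0 : ℝ) < (n : ℝ) ^ (1 / 2 : ℝ) := Real.rpow_pos_of_pos hn0 _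
  rw [← h2, div_le_iff₀ (mul_pos h4 h3)]
  calc Real.log n ≤ (n : ℝ) ^ (1 / 2 : ℝ) / (1 / 2) := h1
    _ = 2 * (1 / (n : ℝ) ^ (3 / 2 : ℝ)) * ((n : ℝ) ^ (1 / 2 : ℝ) * (n : ℝ) ^ (3 / 2 : ℝ)) := by
        field_simp

end NS

open NS in
theorem prNS : StNS := by
  have hs : Summable fun n : ℕ => 2 * (1 / (n : ℝ) ^ (3 / 2 : ℝ)) :=
    (Real.summable_one_div_nat_rpow.2 (by norm_num)).mul_left 2
  have h0 : ∀ n : ℕ, 0 ≤ 2 * (1 / (n : ℝ) ^ (3 / 2 : ℝ)) := fun n => by positivity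
  refine ⟨(∑' n : ℕ, 2 * (1 / (n : ℝ) ^ (3 / 2 : ℝ))) + 1, ?_, fun x => ?_⟩
  · have h1 : 0 ≤ ∑' n : ℕ, 2 * (1 / (n : ℝ) ^ (3 / 2 : ℝ)) := tsum_nonneg h0
    linarith
  · calc ∑ p ∈ pu x, Real.log p / (p : ℝ) ^ 2
        ≤ ∑ p ∈ pu x, 2 * (1 / (p : ℝ) ^ (3 / 2 : ℝ)) := Finset.sum_le_sum fun p _ => term p
      _ ≤ ∑' n : ℕ, 2 * (1 / (n : ℝ) ^ (3 / 2 : ℝ)) := hs.sum_le_tsum _ fun n _ => h0 n
      _ ≤ _ := by linarith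

end Pool.Agent.Work.MP_8d13b5_lc.LG
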