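import Pool.Agent.Work.MP_8d13b5_lc.LG.StmtsMer

/-!
# MP_8d13b5_lc, block LG, item NT: the sum of the logarithms of the norms
-/

set_option autoImplicit false

open Polynomial Filter Topology NumberField Module

namespace Pool.Agent.Work.MP_8d13b5_lc.LG

namespace NT

lemma upper (K : Type) [Field K] [NumberField K] (x : ℝ) : Tn K x ≤ An K x * Real.log x := by
  unfold Tn An
  have h := Finset.sum_le_card_nsmul (Idl K x) (fun I => Real.log (Ideal.absNorm I)) (Real.log x)
    (fun I hI => by
      obtain ⟨h1, h2⟩ := mem_Idl.1 hI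
      have h3 : 0 < Ideal.absNorm I := Nat.pos_of_ne_zero fun h => h1 (Ideal.absNorm_eq_zero_iff.1 h)
      exact Real.log_le_log (by exact_mod_cast h3) h2)
  rwa [nsmul_eq_mul] at h

lemma lower (K : Type) [Field K] [NumberField K] (x y : ℝ) (hyx : y ≤ x) (hy : 1 ≤ y) :
    (An K x - An K y) * Real.log y ≤ Tn K x := by
  classical
  have hsub : Idl K y ⊆ Idl K x := by
    intro I hI
    rw [mem_Idl] at hI ⊢
    exact ⟨hI.1, hI.2.trans hyx⟩
  have hcard : ((Idl K x \ Idl K y).card : ℝ) = An K x - An K y := by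
    unfold An
    rw [Finset.card_sdiff_of_subset hsub, Nat.cast_sub (Finset.card_le_card hsub)]
  have h1 := Finset.card_nsmul_le_sum (Idl K x \ Idl K y) (fun I => Real.log (Ideal.absNorm I))
    (Real.log y) (fun I hI => by
      rw [Finset.mem_sdiff] at hI
      obtain ⟨h1, h2⟩ := mem_Idl.1 hI.1
      have h3 : ¬ (Ideal.absNorm I : ℝ) ≤ y := fun h => hI.2 (mem_Idl.2 ⟨h1, h⟩)
      exact Real.log_le_log (by linarith) (not_le.1 h3).le)
  rw [nsmul_eq_mul, hcard] at h1
  refine h1.trans ?_
  unfold Tn
  exact Finset.sum_le_sum_of_subset_of_nonneg Finset.sdiff_subset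
    fun I _ _ => Real.log_natCast_nonneg _

end NT

open NT

theorem prNT : StNT := by
  intro K _ _ κ hκ hA
  rw [tendsto_order]
  constructor
  · intro a ha
    obtain ⟨ε, hε0, hε1, hε⟩ : ∃ ε : ℝ, 0 < ε ∧ ε < 1 ∧ a < (κ - ε * κ) * 1 := by
      refine ⟨min (1 / 2) ((κ - a) / (2 * κ)), lt_min (by norm_num)
        (div_pos (by linarith) (by linarith)), lt_of_le_of_lt (min_le_left _ _) (by norm_num), ?_⟩
      have h1 : min (1 / 2) ((κ - a) / (2 * κ)) * κ ≤ (κ - a) / (2 * κ) * κ :=
        mul_le_mul_of_nonneg_right (min_le_right _ _) hκ.le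
      have h2 : (κ - a) / (2 * κ) * κ = (κ - a) / 2 := by
        field_simp
      rw [h2] at h1
      linarith
    have hlog : Tendsto (fun x : ℝ => Real.log (ε * x) / Real.log x) atTop (𝓝 1) := by
      have h1 : Tendsto (fun x : ℝ => Real.log ε / Real.log x + 1) atTop (𝓝 (0 + 1)) :=
        (tendsto_const_nhds.div_atTop Real.tendsto_log_atTop).add tendsto_const_nhds
      rw [zero_add] at h1
      refine h1.congr' ?_
      filter_upwards [eventually_gt_atTop 1] with x hx
      have h2 : Real.log x ≠ 0 := (Real.log_pos hx).ne'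
      rw [Real.log_mul hε0.ne' (by linarith), add_div, div_self h2]
    have hs : Tendsto (fun x : ℝ => ε * x) atTop atTop := tendsto_id.const_mul_atTop hε0
    have hL : Tendsto (fun x : ℝ => (An K x / x - ε * (An K (ε * x) / (ε * x))) *
        (Real.log (ε * x) / Real.log x)) atTop (𝓝 ((κ - ε * κ) * 1)) :=
      (hA.sub ((hA.comp hs).const_mul ε)).mul hlog
    filter_upwards [(tendsto_order.1 hL).1 a hε, eventually_ge_atTop (max 2 (1 / ε))] with x hx h2
    have hx2 : 2 ≤ x := le_trans (le_max_left _ _) h2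
    have hxe : 1 ≤ ε * x := by
      have h3 : 1 / ε ≤ x := le_trans (le_max_right _ _) h2
      rw [div_le_iff₀ hε0] at h3
      linarith
    have hlx : 0 < Real.log x := Real.log_pos (by linarith)
    have hx0 : 0 < x := by linarith
    refine lt_of_lt_of_le hx ?_
    rw [le_div_iff₀ (mul_pos hx0 hlx)]
    have e : (An K x / x - ε * (An K (ε * x) / (ε * x))) *
        (Real.log (ε * x) / Real.log x) * (x * Real.log x) =
        (An K x - An K (ε * x)) * Real.log (ε * x) := by
      field_simp
    rw [e]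
    exact lower K x (ε * x) (by nlinarith) hxe
  · intro b hb
    filter_upwards [(tendsto_order.1 hA).2 b hb, eventually_ge_atTop 2] with x hx h2
    have hlx : 0 < Real.log x := Real.log_pos (by linarith)
    have hx0 : 0 < x := by linarith
    refine lt_of_le_of_lt ?_ hx
    rw [div_le_div_iff₀ (mul_pos hx0 hlx) hx0]
    have := mul_le_mul_of_nonneg_right (upper K x) hx0.le
    calc Tn K x * x ≤ An K x * Real.log x * x := this
      _ = An K x * (x * Real.log x) := by ring

end Pool.Agent.Work.MP_8d13b5_lc.LG
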