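import Pool.Agent.Work.MP_8d13b5_lc.LG.StmtsMer

/-!
Item NVl of the block LG, part N: the exponent of p in the norm of an ideal.
-/

set_option autoImplicit false

open Polynomial Filter Topology NumberField Module

namespace Pool.Agent.Work.MP_8d13b5_lc.LG

namespace NVl

open Classical in
theorem val_eq (K : Type) [Field K] [NumberField K] (p : ℕ) (hp : p.Prime)
    (Pr : Finset (Ideal (𝓞 K))) (f : Ideal (𝓞 K) → ℕ) (H : Abv K p Pr f) (I : Ideal (𝓞 K)) :
    I ≠ 0 → padicValNat p (Ideal.absNorm I) =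
      ∑ P ∈ Pr, f P * (UniqueFactorizationMonoid.normalizedFactors I).count P := by
  have : Fact p.Prime := ⟨hp⟩
  refine UniqueFactorizationMonoid.induction_on_prime
    (P := fun I => I ≠ 0 → padicValNat p (Ideal.absNorm I) =
      ∑ P ∈ Pr, f P * (UniqueFactorizationMonoid.normalizedFactors I).count P) I ?_ ?_ ?_
  · intro h
    exact absurd rfl h
  · intro J hJ _
    rw [Ideal.isUnit_iff] at hJ
    subst hJ
    have e : (⊤ : Ideal (𝓞 K)) = 1 := Ideal.one_eq_top.symm
    rw [e, UniqueFactorizationMonoid.normalizedFactors_one]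
    simp
  · intro J Q hJ hQ ih hQJ
    have hJ0 : J ≠ 0 := hJ
    have hQ0 : Q ≠ 0 := hQ.ne_zero
    have hQp : Q.IsPrime := Ideal.isPrime_of_prime hQ
    rw [map_mul, padicValNat.mul (by simpa [Ideal.absNorm_eq_zero_iff] using hQ0)
      (by simpa [Ideal.absNorm_eq_zero_iff] using hJ0), ih hJ0,
      UniqueFactorizationMonoid.normalizedFactors_mul hQ0 hJ0,
      UniqueFactorizationMonoid.normalizedFactors_irreducible hQ.irreducible]
    simp only [Multiset.count_add, mul_add, Finset.sum_add_distrib, normalize_eq]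
    congr 1
    by_cases hmem : Q ∈ Pr
    · obtain ⟨-, -, -, h4⟩ := H.prime Q hmem
      rw [h4, padicValNat.prime_pow, Finset.sum_eq_single Q]
      · simp
      · intro P _ hPQ
        rw [Multiset.count_singleton, if_neg hPQ, mul_zero]
      · intro h
        exact absurd hmem h
    · rw [padicValNat.eq_zero_of_not_dvd (H.all Q hQp hQ0 hmem), eq_comm]
      apply Finset.sum_eq_zero
      intro P hP
      have hPQ : P ≠ Q := by
        rintro rfl
        exact hmem hP
      rw [Multiset.count_singleton, if_neg hPQ, mul_zero]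

open Classical in
theorem card_eq (K : Type) [Field K] [NumberField K] (P : Ideal (𝓞 K)) (hP : P.IsPrime)
    (hP0 : P ≠ ⊥) (I : Ideal (𝓞 K)) (hI : I ≠ ⊥) (n : ℕ) (hn : Ideal.absNorm I < 2 ^ n) :
    ((Finset.Icc 1 n).filter (fun k => P ^ k ∣ I)).card =
      (UniqueFactorizationMonoid.normalizedFactors I).count P := by
  have hPp : Prime P := Ideal.prime_of_isPrime hP0 hP
  set c := (UniqueFactorizationMonoid.normalizedFactors I).count P with hc
  have hdvd : ∀ k, P ^ k ∣ I ↔ k ≤ c := by
    intro k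
    rw [pow_dvd_iff_le_emultiplicity,
      UniqueFactorizationMonoid.emultiplicity_eq_count_normalizedFactors hPp.irreducible hI,
      normalize_eq]
    exact_mod_cast Iff.rfl
  have hcn : c ≤ n := by
    have h1 : P ^ c ∣ I := (hdvd c).mpr le_rfl
    have h2 : Ideal.absNorm P ^ c ∣ Ideal.absNorm I := by
      rw [← map_pow]
      exact map_dvd Ideal.absNorm h1
    have hI0 : Ideal.absNorm I ≠ 0 := by
      simpa [Ideal.absNorm_eq_zero_iff] using hI
    have h3 := Nat.le_of_dvd (Nat.pos_of_ne_zero hI0) h2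
    have h4 : 2 ≤ Ideal.absNorm P := by
      have e0 : Ideal.absNorm P ≠ 0 := by
        simpa [Ideal.absNorm_eq_zero_iff] using hP0
      have e1 : Ideal.absNorm P ≠ 1 := by
        rw [Ne, Ideal.absNorm_eq_one_iff]
        exact hP.ne_top
      omega
    have h5 : 2 ^ c ≤ Ideal.absNorm P ^ c := Nat.pow_le_pow_left h4 c
    exact (Nat.pow_lt_pow_iff_right (by norm_num)).mp (lt_of_le_of_lt (h5.trans h3) hn) |>.le
  have : (Finset.Icc 1 n).filter (fun k => P ^ k ∣ I) = Finset.Icc 1 c := by
    ext k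
    simp only [Finset.mem_filter, Finset.mem_Icc, hdvd]
    constructor
    · rintro ⟨⟨h1, -⟩, h3⟩
      exact ⟨h1, h3⟩
    · rintro ⟨h1, h3⟩
      exact ⟨⟨h1, h3.trans hcn⟩, h3⟩
  rw [this, Nat.card_Icc]
  simp

end NVl

theorem prNVl : StNVl := by
  classical
  intro K _ _ p hp Pr f H I hI n hn
  rw [NVl.val_eq K p hp Pr f H I hI]
  refine Finset.sum_congr rfl fun P hP => ?_
  obtain ⟨h1, h2, -, -⟩ := H.prime P hP
  have := NVl.card_eq K P h1 h2 I hI n hn
  rw [← this]

end Pool.Agent.Work.MP_8d13b5_lc.LG
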