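import Pool.Agent.Work.MP_8d13b5_lc.LG.StmtsMer

/-!
# Block LG, item Ngn: at most `finrank` homomorphisms
-/

set_option autoImplicit false

open Polynomial Filter Topology NumberField Module

namespace Pool.Agent.Work.MP_8d13b5_lc.LG

theorem prNgn (h1 : StNPa) (h2 : StNPb) : StNgn := by
  intro K _ _ p hp
  obtain ⟨Pr, f, hA⟩ := h1 K p hp
  rw [← h2 K p hp Pr f hA]
  refine le_trans ?_ hA.deg
  rw [Finset.card_filter]
  apply Finset.sum_le_sum
  intro P hP
  split_ifs with h
  · rw [h]
  · exact Nat.zero_le _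

end Pool.Agent.Work.MP_8d13b5_lc.LG
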