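import Pool.Agent.Work.MP_8d13b5_lc.LG.AlgStmts

/-!
# MP_8d13b5_lc, block LG, item PrM: the check of a modulus is primitive recursive
-/

set_option autoImplicit false

namespace Pool.Agent.Work.MP_8d13b5_lc.LG

namespace JPrM

theorem primrec_cd : Primrec cd := by
  unfold cd
  exact (Primrec.list_getD 0).comp Primrec.id
    (Primrec.nat_sub.comp Primrec.list_length (Primrec.const 1))

/-- the condition on the greatest common divisor, in bounded form -/
def Cop (c : List ℤ) (m : ℕ) : Prop :=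
  ∀ e < m + 1, ¬ m % e = 0 ∨ ¬ (cd c).natAbs % e = 0 ∨ e = 1

theorem gcd_iff (c : List ℤ) (m : ℕ) (hm : 2 ≤ m) : Int.gcd (cd c) m = 1 ↔ Cop c m := by
  have h0 : Int.gcd (cd c) m = Nat.gcd (cd c).natAbs m := by
    rw [Int.gcd_def, Int.natAbs_natCast]
  rw [h0]
  unfold Cop
  constructor
  · intro h e _
    by_cases h1 : m % e = 0
    · by_cases h2 : (cd c).natAbs % e = 0
      · right; right
        have h3 : e ∣ Nat.gcd (cd c).natAbs m :=
          Nat.dvd_gcd (Nat.dvd_of_mod_eq_zero h2) (Nat.dvd_of_mod_eq_zero h1)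
        rw [h] at h3
        exact Nat.dvd_one.1 h3
      · exact Or.inr (Or.inl h2)
    · exact Or.inl h1
  · intro h
    have h1 : Nat.gcd (cd c).natAbs m ∣ m := Nat.gcd_dvd_right _ _
    have h2 : Nat.gcd (cd c).natAbs m ∣ (cd c).natAbs := Nat.gcd_dvd_left _ _
    have h3 : Nat.gcd (cd c).natAbs m < m + 1 := Nat.lt_succ_of_le (Nat.le_of_dvd (by omega) h1)
    rcases h _ h3 with h4 | h4 | h4
    · exact absurd (Nat.mod_eq_zero_of_dvd h1) h4
    · exact absurd (Nat.mod_eq_zero_of_dvd h2) h4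
    · exact h4

theorem primrec_Cop : PrimrecRel Cop := by
  have hR : PrimrecRel (fun (e : ℕ) (y : List ℤ × ℕ) =>
      ¬ y.2 % e = 0 ∨ ¬ (cd y.1).natAbs % e = 0 ∨ e = 1) := by
    refine PrimrecPred.or ?_ (PrimrecPred.or ?_ ?_)
    · refine PrimrecPred.not ?_
      refine Primrec.eq.comp ?_ (Primrec.const 0)
      exact Primrec.nat_mod.comp (Primrec.snd.comp Primrec.snd) Primrec.fst
    · refine PrimrecPred.not ?_
      refine Primrec.eq.comp ?_ (Primrec.const 0)
      exact Primrec.nat_mod.comp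
        (primrec_natAbs.comp (primrec_cd.comp (Primrec.fst.comp Primrec.snd))) Primrec.fst
    · exact Primrec.eq.comp Primrec.fst (Primrec.const 1)
  have h1 := US.rel_forall_lt hR
  exact h1.comp (Primrec.succ.comp Primrec.snd) Primrec.id

end JPrM

theorem prPrM : StPrM := by
  unfold StPrM
  have hR : PrimrecRel (fun (i : ℕ) (y : (List ℤ × List ℤ) × ℕ) =>
      ¬ (val y.1 i).natAbs % y.2 = 0) := by
    refine PrimrecPred.not ?_
    refine Primrec.eq.comp ?_ (Primrec.const 0)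
    refine Primrec.nat_mod.comp ?_ (Primrec.snd.comp Primrec.snd)
    exact primrec_natAbs.comp (primrec_val.comp (Primrec.fst.comp Primrec.snd) Primrec.fst)
  have h3 := US.rel_forall_lt hR
  have hf : Primrec (fun p : (List ℤ × List ℤ) × ℕ => p.2 ^ p.1.1.length) :=
    primrec_pow.comp Primrec.snd (Primrec.list_length.comp (Primrec.fst.comp Primrec.fst))
  have h4 := h3.comp hf Primrec.id
  have h5 : PrimrecPred (fun p : (List ℤ × List ℤ) × ℕ => JPrM.Cop p.1.1 p.2) :=
    JPrM.primrec_Cop.comp (Primrec.fst.comp Primrec.fst) Primrec.snd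
  have h6 : PrimrecPred (fun p : (List ℤ × List ℤ) × ℕ => 2 ≤ p.2) :=
    Primrec.nat_le.comp (Primrec.const 2) Primrec.snd
  refine ((h6.and (h5.and h4)).of_eq fun p => ?_)
  unfold ChM
  constructor
  · rintro ⟨h7, h8, h9⟩
    refine ⟨h7, (JPrM.gcd_iff _ _ h7).2 h8, fun i hi hd => ?_⟩
    exact h9 i hi (Nat.mod_eq_zero_of_dvd (Int.natCast_dvd.1 hd))
  · rintro ⟨h7, h8, h9⟩
    refine ⟨h7, (JPrM.gcd_iff _ _ h7).1 h8, fun i hi hd => ?_⟩
    exact h9 i hi (Int.natCast_dvd.2 (Nat.dvd_of_mod_eq_zero hd))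

end Pool.Agent.Work.MP_8d13b5_lc.LG
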