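import Pool.Agent.Work.MP_8d13b5_lc.LG.StmtsS

/-!
# MP_8d13b5_lc, block LG, item SM: the model bound for products of Selberg weights

Port of the theorems `claimC2` and `claimC3` of `Work/MP_d159ed_nt/Bd/B04.lean`.
-/

set_option autoImplicit false

namespace Pool.Agent.Work.MP_8d13b5_lc.LG

open Finset Pool.Agent.Work.MP_8d13b5_lc.Ex2.Sel
open scoped BigOperators

namespace ISM

/-- C2: the diagonalisation bound for the weights with prescribed part on a finite set P of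
primes. -/
def ClaimC2 : Prop :=
  ∀ h R : ℕ, 1 ≤ h → 1 ≤ R → ∀ P : Finset ℕ, (∀ p ∈ P, p.Prime) →
    ∀ a b : ℕ, a ∣ ∏ p ∈ P, p → b ∣ ∏ p ∈ P, p →
      |∑ e ∈ (Dset h R).filter (fun e => ∀ p ∈ P, ¬ p ∣ e),
        ∑ f ∈ (Dset h R).filter (fun f => ∀ p ∈ P, ¬ p ∣ f),
          lam h R (a * e) * lam h R (b * f) / (Nat.lcm e f : ℝ)| ≤ 4 ^ P.card / Gs h R

/-- C3. -/
def ClaimC3 : Prop := ClaimC2 → ClaimC2' → StSM

theorem claimC2 : ClaimC2 := by
  classical
  intro h R hh hR P hP a b ha hb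
  have hG : 0 < Gs h R := lt_of_lt_of_le one_pos (C2.one_le_Gs h R hR)
  have hsq : Squarefree (∏ p ∈ P, p) := C2.sqf (S := P) hP
  have key : ∀ c : ℕ, c ∣ ∏ p ∈ P, p → ∃ A ⊆ P, c = C2.nS A := by
    intro c hc
    refine ⟨c.primeFactors, ?_, (Nat.prod_primeFactors_of_squarefree
      (hsq.squarefree_of_dvd hc)).symm⟩
    have h1 := Nat.primeFactors_mono hc hsq.ne_zero
    have h2 : (∏ p ∈ P, p).primeFactors = P := C2.pf (S := P) hP
    rwa [h2] at h1
  obtain ⟨A, hA, rfl⟩ := key a ha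
  obtain ⟨B, hB, rfl⟩ := key b hb
  rw [C2.form_eq h R hP hA hB]
  calc |∑ T ∈ (C2.Ds h R).filter (fun T => Disjoint T P),
          C2.ph T * C2.y h R P A T * C2.y h R P B T|
      ≤ ∑ T ∈ (C2.Ds h R).filter (fun T => Disjoint T P),
          |C2.ph T * C2.y h R P A T * C2.y h R P B T| := Finset.abs_sum_le_sum_abs _ _
    _ ≤ ∑ T ∈ (C2.Ds h R).filter (fun T => Disjoint T P),
          4 ^ P.card / Gs h R ^ 2 * (1 / C2.ph T) := by
        refine Finset.sum_le_sum fun T hT => ?_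
        simp only [Finset.mem_filter] at hT
        have hTp := C2.prs_of_Ds hT.1
        have hph := C2.ph_pos hTp
        rw [abs_mul, abs_mul, abs_of_pos hph]
        have h1 := C2.y_le h R hR hP hA hTp
        have h2 := C2.y_le h R hR hP hB hTp
        have h3 : |C2.y h R P A T| * |C2.y h R P B T| ≤
            (2 ^ P.card / (Gs h R * C2.ph T)) * (2 ^ P.card / (Gs h R * C2.ph T)) :=
          mul_le_mul h1 h2 (abs_nonneg _) (by positivity)
        have h4 : (4 : ℝ) ^ P.card = 2 ^ P.card * 2 ^ P.card := by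
          rw [← mul_pow]; norm_num
        calc C2.ph T * |C2.y h R P A T| * |C2.y h R P B T|
            = C2.ph T * (|C2.y h R P A T| * |C2.y h R P B T|) := by ring
          _ ≤ C2.ph T * ((2 ^ P.card / (Gs h R * C2.ph T)) *
              (2 ^ P.card / (Gs h R * C2.ph T))) := mul_le_mul_of_nonneg_left h3 hph.le
          _ = 4 ^ P.card / Gs h R ^ 2 * (1 / C2.ph T) := by
              rw [h4]
              field_simp
    _ = 4 ^ P.card / Gs h R ^ 2 * ∑ T ∈ (C2.Ds h R).filter (fun T => Disjoint T P),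
          1 / C2.ph T := by rw [Finset.mul_sum]
    _ ≤ 4 ^ P.card / Gs h R ^ 2 * Gs h R := by
        refine mul_le_mul_of_nonneg_left ?_ (by positivity)
        rw [C2.Gs_eq]
        refine Finset.sum_le_sum_of_subset_of_nonneg (Finset.filter_subset _ _) ?_
        intro T hT _
        have hph := C2.ph_pos (C2.prs_of_Ds hT)
        positivity
    _ = 4 ^ P.card / Gs h R := by
        field_simp



open Finset
open scoped BigOperators

namespace C3

/-- product over Q of 1/p for the primes dividing d or d' -/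
noncomputable def w (Q : Finset ℕ) (d d' : ℕ) : ℝ :=
  ∏ p ∈ Q, if p ∣ d ∨ p ∣ d' then (1 / (p : ℝ)) else 1

theorem w_prod (Q : Finset ℕ) (s : ℕ) (d d' : Fin s → ℕ) :
    ∏ p ∈ Q, (1 / (p : ℝ)) ^ ((univ : Finset (Fin s)).filter (fun j => p ∣ d j ∨ p ∣ d' j)).card =
      ∏ j, w Q (d j) (d' j) := by
  unfold w
  rw [Finset.prod_comm]
  refine Finset.prod_congr rfl fun p _ => ?_
  rw [Finset.prod_ite, Finset.prod_const, Finset.prod_const_one, mul_one]

theorem mem_Dset {h R d : ℕ} : d ∈ Dset h R ↔ (1 ≤ d ∧ d ≤ R) ∧ Squarefree d ∧ Nat.Coprime d h := by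
  simp [Dset, Finset.mem_filter, Finset.mem_Icc]

theorem mem_Pr {h R p : ℕ} : p ∈ Pr h R ↔ (1 ≤ p ∧ p ≤ R) ∧ p.Prime ∧ Nat.Coprime p h := by
  simp [Pr, Finset.mem_filter, Finset.mem_Icc]

/-- a prime divisor of an element of D is in Pr -/
theorem mem_Pr_of_dvd {h R d p : ℕ} (hd : d ∈ Dset h R) (hp : p.Prime) (hpd : p ∣ d) :
    p ∈ Pr h R := by
  rw [mem_Dset] at hd
  rw [mem_Pr]
  refine ⟨⟨hp.one_le, le_trans (Nat.le_of_dvd (by omega) hpd) hd.1.2⟩, hp, ?_⟩
  exact Nat.Coprime.coprime_dvd_left hpd hd.2.2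

theorem w_lcm (Q : Finset ℕ) (hQ : ∀ p ∈ Q, p.Prime) (e f : ℕ) (he : Squarefree e)
    (hf : Squarefree f) (hQe : ∀ p, p.Prime → p ∣ e → p ∈ Q) (hQf : ∀ p, p.Prime → p ∣ f → p ∈ Q) :
    w Q e f = 1 / (Nat.lcm e f : ℝ) := by
  have he0 : e ≠ 0 := he.ne_zero
  have hf0 : f ≠ 0 := hf.ne_zero
  have hl0 : Nat.lcm e f ≠ 0 := Nat.lcm_ne_zero he0 hf0
  have hsq : Squarefree (Nat.lcm e f) := by
    rw [Nat.squarefree_iff_factorization_le_one hl0]
    intro p
    rw [Nat.factorization_lcm he0 hf0]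
    simp only [Finsupp.sup_apply]
    exact sup_le ((Nat.squarefree_iff_factorization_le_one he0).1 he p)
      ((Nat.squarefree_iff_factorization_le_one hf0).1 hf p)
  have h1 : (Nat.lcm e f : ℝ) = ∏ p ∈ Q.filter (fun p => p ∣ e ∨ p ∣ f), (p : ℝ) := by
    conv_lhs => rw [← Nat.prod_primeFactors_of_squarefree hsq]
    push_cast
    refine Finset.prod_congr ?_ fun _ _ => rfl
    ext p
    simp only [Nat.mem_primeFactors, Finset.mem_filter]
    constructor
    · rintro ⟨hp, hpl, _⟩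
      have : p ∣ e ∨ p ∣ f := by
        have h2 : p ∣ e * f := dvd_trans hpl (Nat.lcm_dvd_mul e f)
        exact (Nat.Prime.dvd_mul hp).1 h2
      refine ⟨?_, this⟩
      rcases this with h3 | h3
      · exact hQe p hp h3
      · exact hQf p hp h3
    · rintro ⟨hp, h3⟩
      refine ⟨hQ p hp, ?_, hl0⟩
      rcases h3 with h3 | h3
      · exact dvd_trans h3 (Nat.dvd_lcm_left e f)
      · exact dvd_trans h3 (Nat.dvd_lcm_right e f)
  rw [h1, w, ← Finset.prod_filter, one_div, ← Finset.prod_inv_distrib]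
  exact Finset.prod_congr rfl fun p _ => by rw [one_div]

/-- Lemma S: extraction of the part of d supported on P. -/
theorem sum_part (h R : ℕ) (P A : Finset ℕ) (hP : ∀ p ∈ P, p.Prime) (hA : A ⊆ P) (Φ : ℕ → ℝ) :
    ∑ d ∈ (Dset h R).filter (fun d => ∀ p ∈ P, (p ∣ d ↔ p ∈ A)), lam h R d * Φ d =
      ∑ e ∈ (Dset h R).filter (fun e => ∀ p ∈ P, ¬ p ∣ e),
        lam h R ((∏ p ∈ A, p) * e) * Φ ((∏ p ∈ A, p) * e) := by
  classical
  set a := ∏ p ∈ A, p with ha
  have hAp : ∀ p ∈ A, p.Prime := fun p hp => hP p (hA hp)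
  have ha0 : a ≠ 0 := Finset.prod_ne_zero_iff.2 fun p hp => (hAp p hp).ne_zero
  have hdiva : ∀ p, p.Prime → (p ∣ a ↔ p ∈ A) := by
    intro p hp
    rw [ha, Prime.dvd_finsetProd_iff hp.prime]
    constructor
    · rintro ⟨q, hq, hpq⟩
      rwa [(Nat.prime_dvd_prime_iff_eq hp (hAp q hq)).1 hpq]
    · intro hpA
      exact ⟨p, hpA, dvd_rfl⟩
  -- restrict the right side to the terms with a * e in D
  have hR : ∑ e ∈ (Dset h R).filter (fun e => ∀ p ∈ P, ¬ p ∣ e),
        lam h R (a * e) * Φ (a * e) =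
      ∑ e ∈ ((Dset h R).filter (fun e => ∀ p ∈ P, ¬ p ∣ e)).filter (fun e => a * e ∈ Dset h R),
        lam h R (a * e) * Φ (a * e) := by
    symm
    refine Finset.sum_filter_of_ne ?_
    intro e _ hne
    by_contra hcon
    apply hne
    rw [lam, if_neg hcon, zero_mul]
  rw [hR]
  refine Finset.sum_nbij' (fun d => d / a) (fun e => a * e) ?_ ?_ ?_ ?_ ?_
  · intro d hd
    simp only [Finset.mem_filter] at hd ⊢
    obtain ⟨hdD, hdA⟩ := hd
    have hdD' := mem_Dset.1 hdD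
    have had : a ∣ d := by
      rw [ha]
      refine Finset.prod_primes_dvd d (fun p hp => (hAp p hp).prime) fun p hp => ?_
      exact (hdA p (hA hp)).2 hp
    obtain ⟨e, he⟩ := had
    have hde : d / a = e := by rw [he, Nat.mul_div_cancel_left _ (Nat.pos_of_ne_zero ha0)]
    rw [hde]
    have hsq : Squarefree (a * e) := he ▸ hdD'.2.1
    have hcop : Nat.Coprime a e := Nat.coprime_of_squarefree_mul hsq
    have he1 : e ∣ d := ⟨a, by rw [he, mul_comm]⟩
    refine ⟨⟨mem_Dset.2 ⟨⟨?_, ?_⟩, ?_, ?_⟩, ?_⟩, he ▸ hdD⟩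
    · rcases Nat.eq_zero_or_pos e with h0 | h0
      · subst h0; simp at he; omega
      · exact h0
    · exact le_trans (Nat.le_of_dvd (by omega) he1) hdD'.1.2
    · exact hsq.squarefree_of_dvd ⟨a, mul_comm _ _⟩
    · exact Nat.Coprime.coprime_dvd_left he1 hdD'.2.2
    · intro p hp hpe
      have hpd : p ∣ d := dvd_trans hpe he1
      have hpA : p ∈ A := (hdA p hp).1 hpd
      have hpa : p ∣ a := (hdiva p (hP p hp)).2 hpA
      exact (hP p hp).one_lt.ne' (Nat.eq_one_of_dvd_coprimes hcop hpa hpe)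
  · intro e he
    simp only [Finset.mem_filter] at he ⊢
    refine ⟨he.2, fun p hp => ?_⟩
    rw [Nat.Prime.dvd_mul (hP p hp), hdiva p (hP p hp)]
    have := he.1.2 p hp
    tauto
  · intro d hd
    simp only [Finset.mem_filter] at hd
    obtain ⟨hdD, hdA⟩ := hd
    have had : a ∣ d := by
      rw [ha]
      refine Finset.prod_primes_dvd d (fun p hp => (hAp p hp).prime) fun p hp => ?_
      exact (hdA p (hA hp)).2 hp
    exact Nat.mul_div_cancel' had
  · intro e _
    exact Nat.mul_div_cancel_left _ (Nat.pos_of_ne_zero ha0)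
  · intro d hd
    simp only [Finset.mem_filter] at hd
    obtain ⟨hdD, hdA⟩ := hd
    have had : a ∣ d := by
      rw [ha]
      refine Finset.prod_primes_dvd d (fun p hp => (hAp p hp).prime) fun p hp => ?_
      exact (hdA p (hA hp)).2 hp
    rw [Nat.mul_div_cancel' had]

/-- the bracket for one index j -/
theorem bracket_eq (h R : ℕ) (P A A' : Finset ℕ) (hP : P ⊆ Pr h R) (hA : A ⊆ P) (hA' : A' ⊆ P) :
    ∑ d ∈ (Dset h R).filter (fun d => ∀ p ∈ P, (p ∣ d ↔ p ∈ A)),
      ∑ d' ∈ (Dset h R).filter (fun d => ∀ p ∈ P, (p ∣ d ↔ p ∈ A')),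
        lam h R d * lam h R d' * w (Pr h R \ P) d d' =
    ∑ e ∈ (Dset h R).filter (fun e => ∀ p ∈ P, ¬ p ∣ e),
      ∑ f ∈ (Dset h R).filter (fun f => ∀ p ∈ P, ¬ p ∣ f),
        lam h R ((∏ p ∈ A, p) * e) * lam h R ((∏ p ∈ A', p) * f) / (Nat.lcm e f : ℝ) := by
  classical
  have hPp : ∀ p ∈ P, p.Prime := fun p hp => (mem_Pr.1 (hP hp)).2.1
  have key : ∀ B ⊆ P, ∀ q ∈ Pr h R \ P, ∀ e : ℕ, (q ∣ (∏ p ∈ B, p) * e ↔ q ∣ e) := by
    intro B hB q hq e
    have hqp : q.Prime := (mem_Pr.1 (Finset.mem_sdiff.1 hq).1).2.1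
    rw [Nat.Prime.dvd_mul hqp]
    constructor
    · rintro (h1 | h1)
      · exfalso
        rw [Prime.dvd_finsetProd_iff hqp.prime] at h1
        obtain ⟨r, hr, hqr⟩ := h1
        have := (Nat.prime_dvd_prime_iff_eq hqp (hPp r (hB hr))).1 hqr
        exact (Finset.mem_sdiff.1 hq).2 (this ▸ hB hr)
      · exact h1
    · exact Or.inr
  have step1 : ∀ d : ℕ, ∑ d' ∈ (Dset h R).filter (fun d => ∀ p ∈ P, (p ∣ d ↔ p ∈ A')),
        lam h R d * lam h R d' * w (Pr h R \ P) d d' =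
      lam h R d * ∑ f ∈ (Dset h R).filter (fun f => ∀ p ∈ P, ¬ p ∣ f),
        lam h R ((∏ p ∈ A', p) * f) * w (Pr h R \ P) d ((∏ p ∈ A', p) * f) := by
    intro d
    rw [← sum_part h R P A' hPp hA' (fun d' => w (Pr h R \ P) d d'), Finset.mul_sum]
    exact Finset.sum_congr rfl fun d' _ => by ring
  rw [Finset.sum_congr rfl fun d _ => step1 d]
  rw [sum_part h R P A hPp hA (fun d => ∑ f ∈ (Dset h R).filter (fun f => ∀ p ∈ P, ¬ p ∣ f),
        lam h R ((∏ p ∈ A', p) * f) * w (Pr h R \ P) d ((∏ p ∈ A', p) * f))]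
  refine Finset.sum_congr rfl fun e he => ?_
  rw [Finset.mul_sum]
  refine Finset.sum_congr rfl fun f hf => ?_
  have hw : w (Pr h R \ P) ((∏ p ∈ A, p) * e) ((∏ p ∈ A', p) * f) = 1 / (Nat.lcm e f : ℝ) := by
    have h1 : w (Pr h R \ P) ((∏ p ∈ A, p) * e) ((∏ p ∈ A', p) * f) = w (Pr h R \ P) e f := by
      unfold w
      refine Finset.prod_congr rfl fun q hq => ?_
      simp only [key A hA q hq e, key A' hA' q hq f]
    rw [h1]
    simp only [Finset.mem_filter] at he hf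
    refine w_lcm _ ?_ e f (mem_Dset.1 he.1).2.1 (mem_Dset.1 hf.1).2.1 ?_ ?_
    · intro p hp
      exact (mem_Pr.1 (Finset.mem_sdiff.1 hp).1).2.1
    · intro p hp hpe
      refine Finset.mem_sdiff.2 ⟨mem_Pr_of_dvd he.1 hp hpe, fun hpP => he.2 p hpP hpe⟩
    · intro p hp hpf
      refine Finset.mem_sdiff.2 ⟨mem_Pr_of_dvd hf.1 hp hpf, fun hpP => hf.2 p hpP hpf⟩
  rw [hw]
  ring

theorem bracket_le (c2 : ClaimC2) (h R : ℕ) (hh : 1 ≤ h) (hR : 1 ≤ R) (P A A' : Finset ℕ)
    (hP : P ⊆ Pr h R) (hA : A ⊆ P) (hA' : A' ⊆ P) :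
    |∑ d ∈ (Dset h R).filter (fun d => ∀ p ∈ P, (p ∣ d ↔ p ∈ A)),
      ∑ d' ∈ (Dset h R).filter (fun d => ∀ p ∈ P, (p ∣ d ↔ p ∈ A')),
        lam h R d * lam h R d' * w (Pr h R \ P) d d'| ≤ 4 ^ P.card / Gs h R := by
  rw [bracket_eq h R P A A' hP hA hA']
  exact c2 h R hh hR P (fun p hp => (mem_Pr.1 (hP hp)).2.1) _ _
    (Finset.prod_dvd_prod_of_subset _ _ _ hA) (Finset.prod_dvd_prod_of_subset _ _ _ hA')

/-- number of pairs with given union -/
theorem sum_union {s : ℕ} (φ : Finset (Fin s) → ℝ) :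
    ∑ x : Finset (Fin s) × Finset (Fin s), φ (x.1 ∪ x.2) =
      ∑ J : Finset (Fin s), 3 ^ J.card * φ J := by
  classical
  rw [← Finset.sum_fiberwise (s := (univ : Finset (Finset (Fin s) × Finset (Fin s))))
    (g := fun x => x.1 ∪ x.2)]
  refine Finset.sum_congr rfl fun J _ => ?_
  have h1 : ∑ x ∈ (univ : Finset (Finset (Fin s) × Finset (Fin s))).filter
      (fun x => x.1 ∪ x.2 = J), φ (x.1 ∪ x.2) =
      ∑ x ∈ (univ : Finset (Finset (Fin s) × Finset (Fin s))).filter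
      (fun x => x.1 ∪ x.2 = J), φ J :=
    Finset.sum_congr rfl fun x hx => by rw [(Finset.mem_filter.1 hx).2]
  rw [h1, Finset.sum_const, nsmul_eq_mul]
  congr 1
  -- the cardinality
  have h2 : (univ : Finset (Finset (Fin s) × Finset (Fin s))).filter (fun x => x.1 ∪ x.2 = J) =
      J.powerset.biUnion (fun α => (α.powerset).image (fun β => (α, (J \ α) ∪ β))) := by
    ext ⟨x, y⟩
    simp only [Finset.mem_filter, Finset.mem_univ, true_and, Finset.mem_biUnion,
      Finset.mem_powerset, Finset.mem_image, Prod.mk.injEq]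
    constructor
    · intro hxy
      refine ⟨x, ?_, x ∩ y, Finset.inter_subset_left, rfl, ?_⟩
      · rw [← hxy]; exact Finset.subset_union_left
      · rw [← hxy]
        ext j
        simp only [Finset.mem_union, Finset.mem_sdiff, Finset.mem_inter]
        tauto
    · rintro ⟨α, hα, β, hβ, rfl, rfl⟩
      ext j
      simp only [Finset.mem_union, Finset.mem_sdiff]
      constructor
      · rintro (h3 | h3 | h3)
        · exact hα h3
        · exact h3.1
        · exact hα (hβ h3)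
      · intro h3
        tauto
  rw [h2, Finset.card_biUnion]
  · have h3 : ∀ α ∈ J.powerset,
        ((α.powerset).image (fun β => (α, (J \ α) ∪ β))).card = 2 ^ α.card := by
      intro α hα
      rw [Finset.card_image_of_injOn, Finset.card_powerset]
      intro β hβ β' hβ' hEq
      simp only [Finset.coe_powerset, Set.mem_preimage, Set.mem_powerset_iff,
        Finset.coe_subset] at hβ hβ'
      simp only [Prod.mk.injEq, true_and] at hEq
      ext j
      constructor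
      · intro hj
        have : j ∈ (J \ α) ∪ β' := hEq ▸ Finset.mem_union_right _ hj
        rcases Finset.mem_union.1 this with h4 | h4
        · exact absurd (hβ hj) (Finset.mem_sdiff.1 h4).2
        · exact h4
      · intro hj
        have : j ∈ (J \ α) ∪ β := hEq ▸ Finset.mem_union_right _ hj
        rcases Finset.mem_union.1 this with h4 | h4
        · exact absurd (hβ' hj) (Finset.mem_sdiff.1 h4).2
        · exact h4
    rw [Finset.sum_congr rfl h3]
    have h4 := Finset.sum_pow_mul_eq_add_pow (2 : ℕ) 1 J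
    simp only [one_pow, mul_one] at h4
    rw [h4]
    norm_num
  · intro α _ β _ hne
    rw [Function.onFun, Finset.disjoint_left]
    rintro ⟨x, y⟩ hx hy
    simp only [Finset.mem_image, Prod.mk.injEq] at hx hy
    obtain ⟨_, _, h5, _⟩ := hx
    obtain ⟨_, _, h6, _⟩ := hy
    exact hne (h5.trans h6.symm)

theorem sum_pi_prod {s : ℕ} (D1 D2 : Fin s → Finset ℕ) (g : ℕ → ℕ → ℝ) :
    ∑ z ∈ Fintype.piFinset D1 ×ˢ Fintype.piFinset D2, ∏ j, g (z.1 j) (z.2 j) =
      ∏ j, ∑ d ∈ D1 j, ∑ d' ∈ D2 j, g d d' := by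
  rw [Finset.prod_univ_sum, Finset.sum_product]
  refine Finset.sum_congr rfl fun x _ => ?_
  rw [Finset.prod_univ_sum]

/-- the term of the expansion attached to P -/
noncomputable def term (h R s : ℕ) (δ : ℕ → Finset (Fin s) → ℝ) (P : Finset ℕ) : ℝ :=
  ∑ z ∈ Fintype.piFinset (fun _ : Fin s => Dset h R) ×ˢ
      Fintype.piFinset (fun _ : Fin s => Dset h R),
    (∏ j, lam h R (z.1 j) * lam h R (z.2 j)) *
      ((∏ p ∈ P, δ p (univ.filter (fun j => p ∣ z.1 j ∨ p ∣ z.2 j))) *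
        ∏ p ∈ Pr h R \ P, (1 / (p : ℝ)) ^ (univ.filter (fun j => p ∣ z.1 j ∨ p ∣ z.2 j)).card)

theorem Smod_eq (h R s : ℕ) (τ : ℕ → Finset (Fin s) → ℝ) :
    Smod h R s τ = ∑ P ∈ (Pr h R).powerset,
      term h R s (fun p J => τ p J - (1 / (p : ℝ)) ^ J.card) P := by
  unfold Smod term
  conv_rhs => rw [Finset.sum_comm]
  rw [← Finset.sum_product' (Fintype.piFinset (fun _ : Fin s => Dset h R))
    (Fintype.piFinset (fun _ : Fin s => Dset h R)) (fun d d' =>
      (∏ j, lam h R (d j) * lam h R (d' j)) *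
        ∏ p ∈ Pr h R, τ p (univ.filter (fun j => p ∣ d j ∨ p ∣ d' j)))]
  refine Finset.sum_congr rfl fun z _ => ?_
  rw [← Finset.mul_sum]
  congr 1
  rw [← Finset.prod_add]
  exact Finset.prod_congr rfl fun p _ => by ring

/-- the set of primes of P prescribed at the index j by the code -/
def Aset {s : ℕ} (P : Finset ℕ) (c : {p // p ∈ P} → Finset (Fin s)) (j : Fin s) : Finset ℕ :=
  (P.attach.filter (fun p => j ∈ c p)).image Subtype.val

theorem mem_Aset {s : ℕ} {P : Finset ℕ} {c : {p // p ∈ P} → Finset (Fin s)} {j : Fin s} {p : ℕ} :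
    p ∈ Aset P c j ↔ ∃ hp : p ∈ P, j ∈ c ⟨p, hp⟩ := by
  unfold Aset
  simp only [Finset.mem_image, Finset.mem_filter, Finset.mem_attach, true_and, Subtype.exists,
    exists_and_right, exists_eq_right]

theorem Aset_subset {s : ℕ} (P : Finset ℕ) (c : {p // p ∈ P} → Finset (Fin s)) (j : Fin s) :
    Aset P c j ⊆ P := fun _ hp => (mem_Aset.1 hp).1

theorem term_le (c2 : ClaimC2) (h R s : ℕ) (hh : 1 ≤ h) (hR : 1 ≤ R) (hG : 0 < Gs h R)
    (δ : ℕ → Finset (Fin s) → ℝ) (P : Finset ℕ) (hP : P ⊆ Pr h R) :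
    |term h R s δ P| ≤ (4 ^ P.card / Gs h R) ^ s *
      ∏ p ∈ P, ∑ x : Finset (Fin s) × Finset (Fin s), |δ p (x.1 ∪ x.2)| := by
  classical
  set D := Dset h R with hD
  -- the code of a pair
  let code : (Fin s → ℕ) × (Fin s → ℕ) → ({p // p ∈ P} → Finset (Fin s) × Finset (Fin s)) :=
    fun z p => (univ.filter (fun j => (p : ℕ) ∣ z.1 j), univ.filter (fun j => (p : ℕ) ∣ z.2 j))
  have hfib : ∀ c : {p // p ∈ P} → Finset (Fin s) × Finset (Fin s),
      (Fintype.piFinset (fun _ : Fin s => D) ×ˢ Fintype.piFinset (fun _ : Fin s => D)).filter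
        (fun z => code z = c) =
      Fintype.piFinset (fun j => D.filter (fun d => ∀ p ∈ P,
        (p ∣ d ↔ p ∈ Aset P (fun p => (c p).1) j))) ×ˢ
      Fintype.piFinset (fun j => D.filter (fun d => ∀ p ∈ P,
        (p ∣ d ↔ p ∈ Aset P (fun p => (c p).2) j))) := by
    intro c
    ext ⟨x, y⟩
    simp only [Finset.mem_filter, Finset.mem_product, Fintype.mem_piFinset]
    constructor
    · rintro ⟨⟨hx, hy⟩, hc⟩
      refine ⟨fun j => ⟨hx j, fun p hp => ?_⟩, fun j => ⟨hy j, fun p hp => ?_⟩⟩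
      · rw [mem_Aset, ← hc]
        simp only [code, Finset.mem_filter, Finset.mem_univ, true_and]
        exact ⟨fun h1 => ⟨hp, h1⟩, fun h1 => h1.2⟩
      · rw [mem_Aset, ← hc]
        simp only [code, Finset.mem_filter, Finset.mem_univ, true_and]
        exact ⟨fun h1 => ⟨hp, h1⟩, fun h1 => h1.2⟩
    · rintro ⟨hx, hy⟩
      refine ⟨⟨fun j => (hx j).1, fun j => (hy j).1⟩, ?_⟩
      funext p
      refine Prod.ext ?_ ?_
      · ext j
        simp only [code, Finset.mem_filter, Finset.mem_univ, true_and]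
        rw [(hx j).2 p p.2, mem_Aset]
        exact ⟨fun h1 => h1.2, fun h1 => ⟨p.2, h1⟩⟩
      · ext j
        simp only [code, Finset.mem_filter, Finset.mem_univ, true_and]
        rw [(hy j).2 p p.2, mem_Aset]
        exact ⟨fun h1 => h1.2, fun h1 => ⟨p.2, h1⟩⟩
  have hterm : term h R s δ P =
      ∑ c : {p // p ∈ P} → Finset (Fin s) × Finset (Fin s),
        (∏ p : {p // p ∈ P}, δ p ((c p).1 ∪ (c p).2)) *
        ∏ j : Fin s, ∑ d ∈ D.filter (fun d => ∀ p ∈ P,
            (p ∣ d ↔ p ∈ Aset P (fun p => (c p).1) j)),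
          ∑ d' ∈ D.filter (fun d => ∀ p ∈ P,
            (p ∣ d ↔ p ∈ Aset P (fun p => (c p).2) j)),
            lam h R d * lam h R d' * w (Pr h R \ P) d d' := by
    unfold term
    rw [← Finset.sum_fiberwise (g := code)]
    refine Finset.sum_congr rfl fun c _ => ?_
    rw [← sum_pi_prod (fun j => D.filter (fun d => ∀ p ∈ P,
            (p ∣ d ↔ p ∈ Aset P (fun p => (c p).1) j)))
          (fun j => D.filter (fun d => ∀ p ∈ P,
            (p ∣ d ↔ p ∈ Aset P (fun p => (c p).2) j)))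
          (fun d d' => lam h R d * lam h R d' * w (Pr h R \ P) d d'),
      ← hfib c, Finset.mul_sum]
    refine Finset.sum_congr rfl fun z hz => ?_
    have hc : code z = c := (Finset.mem_filter.1 hz).2
    have h0 : ∏ j, lam h R (z.1 j) * lam h R (z.2 j) * w (Pr h R \ P) (z.1 j) (z.2 j) =
        (∏ j, lam h R (z.1 j) * lam h R (z.2 j)) * ∏ j, w (Pr h R \ P) (z.1 j) (z.2 j) :=
      Finset.prod_mul_distrib
    rw [w_prod, h0]
    have h1 : ∏ p ∈ P, δ p (univ.filter (fun j => p ∣ z.1 j ∨ p ∣ z.2 j)) =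
        ∏ p : {p // p ∈ P}, δ p ((c p).1 ∪ (c p).2) := by
      rw [← Finset.prod_coe_sort P]
      refine Finset.prod_congr rfl fun p _ => ?_
      rw [← hc, Finset.filter_or]
    rw [h1]
    ring
  rw [hterm]
  have hprod : ∏ p ∈ P, ∑ x : Finset (Fin s) × Finset (Fin s), |δ p (x.1 ∪ x.2)| =
      ∑ c : {p // p ∈ P} → Finset (Fin s) × Finset (Fin s),
        ∏ p : {p // p ∈ P}, |δ p ((c p).1 ∪ (c p).2)| := by
    rw [← Finset.prod_coe_sort P, Finset.prod_univ_sum]
    simp only [Fintype.piFinset_univ]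
  rw [hprod, Finset.mul_sum]
  refine (Finset.abs_sum_le_sum_abs _ _).trans (Finset.sum_le_sum fun c _ => ?_)
  rw [abs_mul, Finset.abs_prod, Finset.abs_prod, mul_comm]
  refine mul_le_mul_of_nonneg_right ?_ (Finset.prod_nonneg fun _ _ => abs_nonneg _)
  calc ∏ j : Fin s, |∑ d ∈ D.filter (fun d => ∀ p ∈ P,
            (p ∣ d ↔ p ∈ Aset P (fun p => (c p).1) j)),
          ∑ d' ∈ D.filter (fun d => ∀ p ∈ P,
            (p ∣ d ↔ p ∈ Aset P (fun p => (c p).2) j)),
            lam h R d * lam h R d' * w (Pr h R \ P) d d'|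
      ≤ ∏ _j : Fin s, (4 ^ P.card / Gs h R) :=
        Finset.prod_le_prod (fun _ _ => abs_nonneg _) fun j _ =>
          bracket_le c2 h R hh hR P _ _ hP (Aset_subset _ _ _) (Aset_subset _ _ _)
    _ = (4 ^ P.card / Gs h R) ^ s := by
        rw [Finset.prod_const, Finset.card_univ, Fintype.card_fin]

theorem term_empty (c2' : ClaimC2') (h R s : ℕ) (hh : 1 ≤ h) (hR : 1 ≤ R)
    (δ : ℕ → Finset (Fin s) → ℝ) :
    term h R s δ ∅ = (1 / Gs h R) ^ s := by
  unfold term
  simp only [Finset.prod_empty, one_mul, Finset.sdiff_empty]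
  have h1 : ∀ z ∈ Fintype.piFinset (fun _ : Fin s => Dset h R) ×ˢ
      Fintype.piFinset (fun _ : Fin s => Dset h R),
      (∏ j, lam h R (z.1 j) * lam h R (z.2 j)) *
        ∏ p ∈ Pr h R, (1 / (p : ℝ)) ^ (univ.filter (fun j => p ∣ z.1 j ∨ p ∣ z.2 j)).card =
      ∏ j, (fun d d' => lam h R d * lam h R d' / (Nat.lcm d d' : ℝ)) (z.1 j) (z.2 j) := by
    intro z hz
    rw [Finset.mem_product, Fintype.mem_piFinset, Fintype.mem_piFinset] at hz
    rw [w_prod, ← Finset.prod_mul_distrib]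
    refine Finset.prod_congr rfl fun j _ => ?_
    have hw : w (Pr h R) (z.1 j) (z.2 j) = 1 / (Nat.lcm (z.1 j) (z.2 j) : ℝ) :=
      w_lcm _ (fun p hp => (mem_Pr.1 hp).2.1) _ _ (mem_Dset.1 (hz.1 j)).2.1
        (mem_Dset.1 (hz.2 j)).2.1 (fun p hp hd => mem_Pr_of_dvd (hz.1 j) hp hd)
        (fun p hp hd => mem_Pr_of_dvd (hz.2 j) hp hd)
    rw [hw]
    simp only
    ring
  rw [Finset.sum_congr rfl h1, sum_pi_prod (fun _ => Dset h R) (fun _ => Dset h R)
    (fun d d' => lam h R d * lam h R d' / (Nat.lcm d d' : ℝ)),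
    Finset.prod_const, Finset.card_univ, Fintype.card_fin]
  rw [c2' h R hh hR]

theorem one_le_Gs (h R : ℕ) (hR : 1 ≤ R) : 1 ≤ Gs h R := by
  have h1 : (1 : ℕ) ∈ Dset h R := mem_Dset.2 ⟨⟨le_rfl, hR⟩, squarefree_one, Nat.coprime_one_left h⟩
  have h2 := Finset.single_le_sum (f := fun d : ℕ => (1 : ℝ) / (Nat.totient d : ℝ))
    (fun d _ => by positivity) h1
  simpa [Gs] using h2

end C3

theorem claimC3 : ClaimC3 := by
  classical
  intro c2 c2' h R s hh hR τ hτ
  have hG1 := C3.one_le_Gs h R hR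
  have hG : 0 < Gs h R := lt_of_lt_of_le one_pos hG1
  set δ : ℕ → Finset (Fin s) → ℝ := fun p J => τ p J - (1 / (p : ℝ)) ^ J.card with hδ
  have hδ0 : ∀ p, δ p ∅ = 0 := fun p => by simp [hδ, hτ p]
  set x : ℕ → ℝ := fun p => 4 ^ s * ∑ J ∈ (univ : Finset (Fin s)).powerset.filter
    (fun J => J ≠ ∅), 3 ^ J.card * |δ p J| with hx
  have hx' : ∀ p, x p = 4 ^ s * ∑ y : Finset (Fin s) × Finset (Fin s), |δ p (y.1 ∪ y.2)| := by
    intro p
    rw [hx, C3.sum_union (fun J => |δ p J|)]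
    simp only
    congr 1
    rw [Finset.powerset_univ]
    refine Finset.sum_filter_of_ne ?_
    intro J _ hne hJ
    apply hne
    rw [hJ, hδ0 p]
    simp
  have hS : Gs h R ^ s * Smod h R s τ - 1 =
      ∑ P ∈ (Pr h R).powerset.erase ∅, Gs h R ^ s * C3.term h R s δ P := by
    rw [C3.Smod_eq, ← Finset.add_sum_erase _ _ (Finset.empty_mem_powerset (Pr h R)),
      C3.term_empty c2' h R s hh hR, mul_add, ← Finset.mul_sum]
    have : Gs h R ^ s * (1 / Gs h R) ^ s = 1 := by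
      rw [← mul_pow, mul_one_div_cancel hG.ne', one_pow]
    rw [this]
    ring
  have hprod : (∏ p ∈ Pr h R, (1 + x p)) - 1 = ∑ P ∈ (Pr h R).powerset.erase ∅, ∏ p ∈ P, x p := by
    rw [Finset.prod_one_add, ← Finset.add_sum_erase _ _ (Finset.empty_mem_powerset (Pr h R)),
      Finset.prod_empty]
    ring
  change |Gs h R ^ s * Smod h R s τ - 1| ≤ (∏ p ∈ Pr h R, (1 + x p)) - 1
  rw [hS, hprod]
  refine (Finset.abs_sum_le_sum_abs _ _).trans (Finset.sum_le_sum fun P hP => ?_)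
  have hPP : P ⊆ Pr h R := Finset.mem_powerset.1 (Finset.mem_erase.1 hP).2
  rw [abs_mul, abs_of_nonneg (by positivity : (0 : ℝ) ≤ Gs h R ^ s)]
  have h1 := C3.term_le c2 h R s hh hR hG δ P hPP
  calc Gs h R ^ s * |C3.term h R s δ P|
      ≤ Gs h R ^ s * ((4 ^ P.card / Gs h R) ^ s *
        ∏ p ∈ P, ∑ x : Finset (Fin s) × Finset (Fin s), |δ p (x.1 ∪ x.2)|) :=
        mul_le_mul_of_nonneg_left h1 (by positivity)
    _ = ∏ p ∈ P, x p := by
        rw [← mul_assoc, ← mul_pow, mul_div_cancel₀ _ hG.ne', ← pow_mul, mul_comm P.card s, pow_mul]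
        rw [Finset.prod_congr rfl fun p _ => hx' p, Finset.prod_mul_distrib, Finset.prod_const]


end ISM

/-- **item SM** -/
theorem pr_SM : StSM := ISM.claimC3 ISM.claimC2 claimC2'

end Pool.Agent.Work.MP_8d13b5_lc.LG
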