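import Pool.Agent.Work.MP_8d13b5_lc.LG.Stmts

/-!
# MP_8d13b5_lc, block LG, item Sca
-/

set_option autoImplicit false

open Polynomial

namespace Pool.Agent.Work.MP_8d13b5_lc.LG

namespace JSca

theorem mapz_iff (p : ℕ) (N : ℤ[X]) :
    N.map (Int.castRingHom (ZMod p)) = 0 ↔ (C (p : ℤ)) ∣ N := by
  rw [Polynomial.C_dvd_iff_dvd_coeff]
  constructor
  · intro h i
    have := congrArg (fun q => q.coeff i) h
    simp only [coeff_map, eq_intCast, coeff_zero] at this
    exact (ZMod.intCast_zmod_eq_zero_iff_dvd _ _).1 this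
  · intro h
    ext i
    simp only [coeff_map, eq_intCast, coeff_zero]
    exact (ZMod.intCast_zmod_eq_zero_iff_dvd _ _).2 (h i)

/-- a split separable polynomial over `𝔽_p` with nonzero roots divides `X ^ (p - 1) - 1` -/
theorem dvd_pow_sub_one (p : ℕ) [Fact p.Prime] (F : (ZMod p)[X]) (hm : F.Monic) (hs : F.Splits)
    (hsep : F.Separable) (h0 : F.coeff 0 ≠ 0) : F ∣ X ^ (p - 1) - C 1 := by
  have h1 : (X ^ (p - 1) - C 1 : (ZMod p)[X]) ≠ 0 :=
    X_pow_sub_C_ne_zero (by have := (Fact.out : p.Prime).two_le; omega) 1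
  have h2 : F.roots ≤ (X ^ (p - 1) - C 1 : (ZMod p)[X]).roots := by
    rw [Multiset.le_iff_subset (nodup_roots hsep)]
    intro a ha
    rw [mem_roots hm.ne_zero] at ha
    rw [mem_roots h1, IsRoot, eval_sub, eval_pow, eval_X, eval_C]
    have ha0 : a ≠ 0 := by
      rintro rfl
      rw [IsRoot, ← coeff_zero_eq_eval_zero] at ha
      exact h0 ha
    rw [ZMod.pow_card_sub_one_eq_one ha0, sub_self]
  have h3 := (Multiset.prod_X_sub_C_dvd_iff_le_roots h1 F.roots).2 h2
  have h4 : F = (F.roots.map (fun a => X - C a)).prod := by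
    have := hs.eq_prod_roots
    rw [hm.leadingCoeff, C_1, one_mul] at this
    exact this
  rw [h4]
  exact h3

/-- if `X ^ n` is a scalar modulo `F` the scalar is not zero -/
theorem scal_ne (p : ℕ) [Fact p.Prime] (F : (ZMod p)[X]) (hd : 1 ≤ F.natDegree)
    (h0 : F.coeff 0 ≠ 0) (n : ℕ) (a : ZMod p) (h : F ∣ X ^ n - C a) : a ≠ 0 := by
  rintro rfl
  rw [C_0, sub_zero] at h
  have h1 : IsCoprime F (X ^ n) := by
    refine IsCoprime.pow_right ?_
    refine (isCoprime_comm).1 ?_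
    rw [Polynomial.irreducible_X.coprime_iff_not_dvd, X_dvd_iff]
    exact h0
  have h2 : IsUnit F := h1.isUnit_of_dvd' dvd_rfl h
  have := natDegree_eq_zero_of_isUnit h2
  omega

end JSca

open JSca in
theorem prSca : StSca := by
  intro f p hf hd hNS hG hp3
  obtain ⟨hp, hp0, hspl, hsep⟩ := hG
  haveI : Fact p.Prime := ⟨hp⟩
  set φ := Int.castRingHom (ZMod p) with hφ
  set F := f.map φ with hF
  have hFm : F.Monic := hf.map φ
  have hFd : F.natDegree = f.natDegree := hf.natDegree_map φ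
  have hF0 : F.coeff 0 ≠ 0 := by
    rw [hF, coeff_map, hφ, eq_intCast]
    intro h
    exact hp0 ((ZMod.intCast_zmod_eq_zero_iff_dvd _ _).1 h)
  have hFd1 : 1 ≤ F.natDegree := by omega
  -- the set of scalar exponents
  have hex : ∃ r : ℕ, 1 ≤ r ∧ ∃ a : ZMod p, F ∣ X ^ r - C a :=
    ⟨p - 1, by omega, 1, dvd_pow_sub_one p F hFm hspl hsep hF0⟩
  classical
  obtain ⟨r, ⟨hr1, b, hb⟩, hmin⟩ : ∃ r : ℕ, (1 ≤ r ∧ ∃ a : ZMod p, F ∣ X ^ r - C a) ∧
      ∀ s : ℕ, s < r → ¬ (1 ≤ s ∧ ∃ a : ZMod p, F ∣ X ^ s - C a) :=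
    ⟨Nat.find hex, Nat.find_spec hex, fun s hs => Nat.find_min hex hs⟩
  have hb0 : b ≠ 0 := scal_ne p F hFd1 hF0 r b hb
  have hdiv : ∀ (n : ℕ) (a : ZMod p), F ∣ X ^ n - C a → r ∣ n := by
    intro n a ha
    by_contra hrn
    have hs : 0 < n % r := Nat.pos_of_ne_zero fun h => hrn (Nat.dvd_of_mod_eq_zero h)
    refine hmin (n % r) (Nat.mod_lt _ hr1) ⟨hs, a / b ^ (n / r), ?_⟩
    -- X ^ n = (X ^ r) ^ q * X ^ s
    have e1 : F ∣ X ^ (r * (n / r)) - C (b ^ (n / r)) := by
      rw [pow_mul, C_pow]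
      exact hb.trans (sub_dvd_pow_sub_pow _ _ _)
    have e2 : F ∣ C (b ^ (n / r)) * (X ^ (n % r) - C (a / b ^ (n / r))) := by
      have e3 : C (b ^ (n / r)) * (X ^ (n % r) - C (a / b ^ (n / r))) =
          (X ^ n - C a) - (X ^ (r * (n / r)) - C (b ^ (n / r))) * X ^ (n % r) := by
        have e4 : (X : (ZMod p)[X]) ^ n = X ^ (r * (n / r)) * X ^ (n % r) := by
          rw [← pow_add, Nat.div_add_mod]
        have e5 : C (b ^ (n / r)) * C (a / b ^ (n / r)) = C a := by
          rw [← C_mul, mul_div_cancel₀]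
          exact pow_ne_zero _ hb0
        rw [mul_sub, e5, e4]
        ring
      rw [e3]
      exact dvd_sub ha (e1.mul_right _)
    have hu : IsUnit (C (b ^ (n / r))) := isUnit_C.2 (IsUnit.mk0 _ (pow_ne_zero _ hb0))
    exact (hu.dvd_mul_left).1 e2
  have hrp : r ∣ p - 1 := hdiv (p - 1) 1 (dvd_pow_sub_one p F hFm hspl hsep hF0)
  -- the lift
  set w : ℤ[X] := X ^ r %ₘ f with hw
  have hfne : f ≠ 1 := by
    intro h
    rw [h, natDegree_one] at hd
    omega
  have hwd : w.natDegree < f.natDegree := natDegree_modByMonic_lt _ hf hfne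
  have hwf : f ∣ X ^ r - w := by
    refine ⟨X ^ r /ₘ f, ?_⟩
    have := modByMonic_add_div (X ^ r) f
    rw [← hw] at this
    rw [sub_eq_iff_eq_add, add_comm]
    exact this.symm
  set μ : ℤ := w.coeff 0 with hμ
  set D : ℤ[X] := w - C μ with hD
  have hD0 : D.coeff 0 = 0 := by
    rw [hD, coeff_sub, coeff_C_zero, hμ, sub_self]
  have hDd : D.natDegree < f.natDegree := by
    refine lt_of_le_of_lt (natDegree_sub_le _ _) (max_lt hwd ?_)
    rw [natDegree_C]
    omega
  have hDne : D ≠ 0 := by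
    intro h
    refine hNS r hr1 μ ?_
    have : w = C μ := sub_eq_zero.1 h
    rw [← this]
    exact hwf
  have hDp : C (p : ℤ) ∣ D := by
    rw [← mapz_iff, ← hφ]
    have e1 : F ∣ w.map φ - C b := by
      have e2 : F ∣ X ^ r - w.map φ := by
        have := Polynomial.map_dvd φ hwf
        rwa [Polynomial.map_sub, Polynomial.map_pow, map_X] at this
      have e3 : w.map φ - C b = (X ^ r - C b) - (X ^ r - w.map φ) := by ring
      rw [e3]
      exact dvd_sub hb e2
    have e4 : w.map φ - C b = 0 := by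
      refine eq_zero_of_dvd_of_natDegree_lt e1 ?_
      refine lt_of_le_of_lt (natDegree_sub_le _ _) (max_lt ?_ ?_)
      · exact lt_of_le_of_lt natDegree_map_le (by omega)
      · rw [natDegree_C]
        omega
    have e5 : w.map φ = C b := sub_eq_zero.1 e4
    have e6 : φ μ = b := by
      have := congrArg (fun q => q.coeff 0) e5
      simpa only [coeff_map, coeff_C_zero] using this
    rw [hD, Polynomial.map_sub, e5, map_C, e6, sub_self]
  have hfin : FiniteMultiplicity (C (p : ℤ)) D := by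
    refine FiniteMultiplicity.of_not_isUnit ?_ hDne
    rw [isUnit_C, Int.isUnit_iff]
    have := hp.two_le
    omega
  obtain ⟨N, hN, hpN⟩ := hfin.exists_eq_pow_mul_and_not_dvd
  set k : ℕ := multiplicity (C (p : ℤ)) D with hk
  have hk1 : 1 ≤ k := by
    by_contra hlt
    have hk0 : k = 0 := by omega
    rw [hk0, pow_zero, one_mul] at hN
    exact hpN (hN ▸ hDp)
  have hpk : ((p : ℤ) ^ k) ≠ 0 := pow_ne_zero _ (by exact_mod_cast hp.ne_zero)
  have hDN : D = C ((p : ℤ) ^ k) * N := by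
    rw [C_pow]
    exact hN
  have hNd : N.natDegree < f.natDegree := by
    have : D.natDegree = N.natDegree := by
      rw [hDN, natDegree_C_mul hpk]
    omega
  have hN0 : N.coeff 0 = 0 := by
    have : (p : ℤ) ^ k * N.coeff 0 = 0 := by
      rw [← coeff_C_mul, ← hDN, hD0]
    exact (mul_eq_zero.1 this).resolve_left hpk
  have hfN : f ∣ X ^ r - C μ - C ((p : ℤ) ^ k) * N := by
    rw [← hDN, hD]
    have : X ^ r - C μ - (w - C μ) = X ^ r - w := by ring
    rw [this]
    exact hwf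
  refine ⟨r, k, μ, N, ⟨hp, hp3, hp0, hr1, hk1, N, hfN⟩, hrp, hNd, hfN, ?_, ?_⟩
  · rintro ⟨a, ha⟩
    have e4 : N.map φ - C a = 0 := by
      refine eq_zero_of_dvd_of_natDegree_lt ha ?_
      refine lt_of_le_of_lt (natDegree_sub_le _ _) (max_lt ?_ ?_)
      · exact lt_of_le_of_lt natDegree_map_le (by omega)
      · rw [natDegree_C]
        omega
    have e5 : N.map φ = C a := sub_eq_zero.1 e4
    have e6 : a = 0 := by
      have := congrArg (fun q => q.coeff 0) e5
      simp only [coeff_map, coeff_C_zero, hN0, map_zero] at this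
      exact this.symm
    rw [e6, C_0] at e5
    exact hpN ((mapz_iff p N).1 e5)
  · rintro n ⟨ν, hν, hn⟩
    refine hdiv n ν⁻¹ ?_
    have hn' : F ∣ 1 - C ν * X ^ n := by
      simpa using hn
    have e1 : X ^ n - C ν⁻¹ = -(C ν⁻¹ * (1 - C ν * X ^ n)) := by
      have : C ν⁻¹ * C ν = (1 : (ZMod p)[X]) := by
        rw [← C_mul, inv_mul_cancel₀ hν, C_1]
      rw [mul_sub, ← mul_assoc, this]
      ring
    rw [e1, dvd_neg]
    exact hn'.mul_left _

end Pool.Agent.Work.MP_8d13b5_lc.LG
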