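import Pool.Agent.Work.MP_8d13b5_lc.LG.MainC
import Pool.Agent.Work.MP_8d13b5_lc.LG.FinProof
import Pool.Agent.Work.MP_8d13b5_lc.LG.I_Rel
import Pool.Agent.Work.MP_8d13b5_lc.LG.I_Mod
import Pool.Agent.Work.MP_8d13b5_lc.LG.I_Md
import Pool.Agent.Work.MP_8d13b5_lc.LG.I_ChI
import Pool.Agent.Work.MP_8d13b5_lc.LG.I_ChC
import Pool.Agent.Work.MP_8d13b5_lc.LG.I_Ch
import Pool.Agent.Work.MP_8d13b5_lc.LG.I_PrI
import Pool.Agent.Work.MP_8d13b5_lc.LG.I_PrC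
import Pool.Agent.Work.MP_8d13b5_lc.LG.I_PrD
import Pool.Agent.Work.MP_8d13b5_lc.LG.I_PrM
import Pool.Agent.Work.MP_8d13b5_lc.LG.I_Srch
import Pool.Agent.Work.MP_8d13b5_lc.LG.I_Snd
import Pool.Agent.Work.MP_8d13b5_lc.LG.I_CntA
import Pool.Agent.Work.MP_8d13b5_lc.LG.I_Ev1
import Pool.Agent.Work.MP_8d13b5_lc.LG.I_Ev2
import Pool.Agent.Work.MP_8d13b5_lc.LG.I_Inf
import Pool.Agent.Work.MP_8d13b5_lc.LG.I_Spl
import Pool.Agent.Work.MP_8d13b5_lc.LG.I_Kum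
import Pool.Agent.Work.MP_8d13b5_lc.LG.I_Ab
import Pool.Agent.Work.MP_8d13b5_lc.LG.I_FinY
import Pool.Agent.Work.MP_8d13b5_lc.LG.I_Div
import Pool.Agent.Work.MP_8d13b5_lc.LG.I_Pig
import Pool.Agent.Work.MP_8d13b5_lc.LG.I_AB
import Pool.Agent.Work.MP_8d13b5_lc.LG.I_Dg1
import Pool.Agent.Work.MP_8d13b5_lc.LG.I_Dg2
import Pool.Agent.Work.MP_8d13b5_lc.LG.I_Dg3
import Pool.Agent.Work.MP_8d13b5_lc.LG.I_Dg
import Pool.Agent.Work.MP_8d13b5_lc.LG.I_GenF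
import Pool.Agent.Work.MP_8d13b5_lc.LG.I_Pow
import Pool.Agent.Work.MP_8d13b5_lc.LG.I_Or0
import Pool.Agent.Work.MP_8d13b5_lc.LG.I_Or2
import Pool.Agent.Work.MP_8d13b5_lc.LG.I_Rou
import Pool.Agent.Work.MP_8d13b5_lc.LG.I_SchE
import Pool.Agent.Work.MP_8d13b5_lc.LG.I_One
import Pool.Agent.Work.MP_8d13b5_lc.LG.I_Two
import Pool.Agent.Work.MP_8d13b5_lc.LG.I_Gd
import Pool.Agent.Work.MP_8d13b5_lc.LG.I_Gal
import Pool.Agent.Work.MP_8d13b5_lc.LG.I_Kl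

/-!
# MP_8d13b5_lc, block LG: the assembly
-/

set_option autoImplicit false

namespace Pool.Agent.Work.MP_8d13b5_lc.LG

theorem ev2' : StEv2 := prEv2 prEv1

theorem aB' : StAB := prAB prAb (prDiv prFinY)

theorem dg' : StDg := prDg aB' prDg1 prDg2 prDg3

/-- Schinzel's theorem -/
theorem schE' : StSchE :=
  prSchE ev2' (prPow bau prEv1 prSpl prGenF prKum) (prPig prFinY)
    (prOr0 bau prEv1 prSpl prGenF dg') (prOr2 bau prEv1 prSpl aB') (prRou ev2' (prInf bau))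

/-- killing primes -/
theorem kil' : StKil := prKl prEv1 ev2' (prInf bau) schE' (prTwo prOne) prGd prGal

theorem rel' : StRel := prRel prLin

theorem chC' : StChC := prChC rel' (prChI rel')

theorem prD' : StPrD := prPrD (prPrC prPrI)

/-- **THEOREM LG** -/
theorem lgFinal : LGFinal :=
  JFin.final prSrch prD' prPrM prMod (prSnd prMod chC' (prSou (prIso prLin)) rel')
    (prCntA (tot' kil') (prMd rel') prMod (prCh rel' chC') rel') supp prPer rel'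

end Pool.Agent.Work.MP_8d13b5_lc.LG
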