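import Pool.Agent.Work.MP_8d13b5_lc.LG.Defs
import Pool.Agent.Work.MP_8d13b5_lc.Ex2.Sel

/-!
# MP_8d13b5_lc, block LG, part S: Mertens for number fields implies the supply of moduli with a
# small period (`StMer` implies `StSup`)

The docstrings are the complete proofs; the items are independent (earlier statements are
hypotheses).  Selberg's weights `Dset`, `Pr`, `Gs`, `lam`, `Lam` and the theorem `claimC1` on them are
in the file `Ex2/Sel.lean` (namespace `Ex2.Sel`, open here).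
-/

set_option autoImplicit false

open Polynomial Filter Topology NumberField Finset
open Pool.Agent.Work.MP_8d13b5_lc.Ex2.Sel

namespace Pool.Agent.Work.MP_8d13b5_lc.LG

/-! ### The sieve for prime pairs `q`, `j q + 1` -/

/-- the model sum with local factors `τ` -/
noncomputable def Smod (h R s : ℕ) (τ : ℕ → Finset (Fin s) → ℝ) : ℝ :=
  ∑ d ∈ Fintype.piFinset (fun _ : Fin s => Dset h R),
    ∑ d' ∈ Fintype.piFinset (fun _ : Fin s => Dset h R),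
      (∏ j, lam h R (d j) * lam h R (d' j)) *
        ∏ p ∈ Pr h R, τ p (univ.filter (fun j => p ∣ d j ∨ p ∣ d' j))

/-- the forms `k` and `j k + 1` -/
def fm (j : ℕ) (i : Fin 2) (k : ℕ) : ℕ := if i = 0 then k else j * k + 1

/-- the density of the `k` with `p ∣ fm j i k` for all `i ∈ J` -/
noncomputable def tau (j p : ℕ) (J : Finset (Fin 2)) : ℝ :=
  if J = ∅ then 1 else
    (((range p).filter (fun k => ∀ i ∈ J, p ∣ fm j i k)).card : ℝ) / (p : ℝ)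

/-- the error of the model at the prime `p` -/
noncomputable def er (j p : ℕ) : ℝ :=
  4 ^ 2 * ∑ J ∈ (univ : Finset (Fin 2)).powerset.filter (fun J => J ≠ ∅),
    3 ^ J.card * |tau j p J - (1 / (p : ℝ)) ^ J.card|

/-- the singular factor -/
noncomputable def GG (j : ℕ) : ℝ := ∏ p ∈ j.primeFactors, (1 + 192 / (p : ℝ))

/-- SM (helper94, port). Comparison of the model sum with the independent model. Proof: port of the
theorem `claimC3` (with `claimC2`) of `Work/MP_d159ed_nt/Bd/B04.lean`. -/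
def StSM : Prop := ∀ h R s : ℕ, 1 ≤ h → 1 ≤ R → ∀ τ : ℕ → Finset (Fin s) → ℝ, (∀ p, τ p ∅ = 1) →
  |Gs h R ^ s * Smod h R s τ - 1| ≤
    (∏ p ∈ Pr h R, (1 + 4 ^ s * ∑ J ∈ (univ : Finset (Fin s)).powerset.filter (fun J => J ≠ ∅),
      3 ^ J.card * |τ p J - (1 / (p : ℝ)) ^ J.card|)) - 1

/-- SA. The average is the model sum up to a small error. Proof. Expand the squares: the sum over `k`
is the sum over `(d, d') ∈ (Dset²)²` of `∏_i lam (d_i) lam (d'_i)` times the number of the `k ∈ [1, N]` with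
`d_0, d'_0 ∣ k` and `d_1, d'_1 ∣ j k + 1`. Fix `(d, d')`, let `Q` be the set of the primes dividing one of
the four numbers (all `≤ R`), `D = ∏ Q`, `J_p = {i : p ∣ d_i or p ∣ d'_i}`. The `d`s are squarefree, so
the condition is: `p ∣ fm j i k` for all `p ∈ Q`, `i ∈ J_p`. The number of the solutions modulo one `p` is
`0` or `1` (`J_p = {0}`: `1`; `{1}`: `1` or, if `p ∣ j`, `0`; `{0,1}`: `0`), so the number `ρ` of solutions
modulo `D` is `0` or `1` (Chinese remainder theorem), `ρ / D = ∏_{p ≤ R} tau j p (J_p)`, and the number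
of the solutions in `[1, N]` is `ρ N / D + θ`, `|θ| ≤ 1`. `|lam| ≤ 1` (`claimC1`), at most `R ^ 4`
pairs `(d, d')`. (Model: `claimC4` in `Work/MP_d159ed_nt/Bd/B05.lean`, line 1235, and the lemmas
before it.) -/
def StSA : Prop := ∀ j N R : ℕ, 1 ≤ j → 1 ≤ N → 1 ≤ R →
  |(∑ k ∈ Icc 1 N, Lam 1 R k ^ 2 * Lam 1 R (j * k + 1) ^ 2) / (N : ℝ) - Smod 1 R 2 (tau j)| ≤
    (R : ℝ) ^ 4 / (N : ℝ)

/-- SB. The local factors. Proof. The non-empty `J ⊆ Fin 2` are `{0}`, `{1}`, `{0,1}`. For a prime `p`: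
`tau j p {0} = 1/p`; `tau j p {1} = 1/p` if `p ∤ j` and `0` if `p ∣ j`; `tau j p {0,1} = 0` (`p ∣ k` and
`p ∣ j k + 1` is impossible). So `er j p = 144/p²` for `p ∤ j` and `er j p = 48/p + 144/p² ≤ 192/p`
for `p ∣ j`. In both cases `1 + er j p ≤ (1 + 144/p²) (1 + 192/p if p ∣ j)`, so the product is at most
`exp (144 ∑ 1/p²) GG j ≤ exp 288 GG j` (`1 + x ≤ exp x`, `∑_{n ≥ 1} 1/n² ≤ 2`; a prime `p ≤ R`
dividing `j` is in `j.primeFactors`, all factors of `GG` are `≥ 1`). -/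
def StSB : Prop := ∃ C : ℝ, 0 < C ∧ ∀ j R : ℕ, 1 ≤ j → ∏ p ∈ Pr 1 R, (1 + er j p) ≤ C * GG j

/-- SC. The sieve bound. Proof from SM, SA, SB. For a prime `q` with `R < q` and `j q + 1` prime both
`Lam 1 R q = 1` and `Lam 1 R (j q + 1) = 1` (`claimC1`), so the number is at most
`∑_k Lam(k)² Lam(j k + 1)² ≤ N Smod + R ^ 4` (SA). By SM (`h = 1`, `s = 2`, `τ = tau j`) and SB
`Gs² Smod ≤ ∏ (1 + er j p) ≤ C GG j`, and `Gs 1 R ≥ log R` (`claimC1`, `φ(1)/1 = 1`). -/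
def StSC : Prop := ∃ C : ℝ, 0 < C ∧ ∀ j N R : ℕ, 1 ≤ j → 1 ≤ N → 2 ≤ R →
  (((Icc 1 N).filter (fun q => q.Prime ∧ R < q ∧ (j * q + 1).Prime)).card : ℝ) ≤
    C * GG j * N / Real.log R ^ 2 + (R : ℝ) ^ 4

/-- SD. The mean of the singular factor. Proof. `GG j = ∑ g(d)` over the squarefree divisors `d` of `j`,
`g(d) = ∏_{p ∣ d} 192/p` (`Finset.prod_one_add`, subsets of `j.primeFactors`). So
`∑_{j ≤ J} GG j / j ≤ ∑_d (g(d)/d) ∑_{m ≤ J/d} 1/m ≤ (1 + log J) ∑_d g(d)/d`, `d ≤ J` squarefree, and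
`∑_d g(d)/d ≤ ∏_{p ≤ J} (1 + 192/p²) ≤ exp (192 ∑ 1/p²) ≤ exp 384`
(`harmonic_le_one_add_log`). -/
def StSD : Prop := ∃ C : ℝ, 0 < C ∧ ∀ J : ℕ, 1 ≤ J →
  ∑ j ∈ Icc 1 J, GG j / (j : ℝ) ≤ C * (1 + Real.log J)

/-- SE. Few primes `p` with a large prime factor of `p - 1`. Proof from SC (constant `C₁`), SD (constant
`C₂`). Let `p ∈ (y, 2y]`, `q ∣ p - 1`, `q > y^(1-e)`, `p - 1 = j q`: `1 ≤ j < 2 y^e`, `q ≤ 2y/j`. So with
`J = ⌊2 y^e⌋` and `R = ⌊y^(1/16)⌋` (for `y` large `R ≥ 2`, `log R ≥ (1/32) log y`, and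
`q > y^(1/2) ≥ R`) the number is at most the sum over `j ≤ J` of the bound of SC for `N = 2y/j`
(natural division, `N ≥ 1`), that is `≤ ∑_{j ≤ J} (C₁ GG j (2y/j) 1024/log² y + y^(1/4))
≤ 2048 C₁ C₂ (y/log² y) (1 + log J) + 2 y^(3/4)`, `J ≤ 2 y^e ≤ 2 y^(1/2)`. For `y ≥ y₀(e)`:
`1 + log J ≤ 1 + log 2 + e log y ≤ 2 e log y` and `2 y^(3/4) ≤ e y/log y`. So
`C = 4096 C₁ C₂ + 1`. -/
def StSE : Prop := ∃ C : ℝ, 0 < C ∧ ∀ e : ℝ, 0 < e → e ≤ 1 / 2 → ∃ y0 : ℕ, ∀ y : ℕ, y0 ≤ y →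
  Set.ncard {p : ℕ | p ∈ Ioc y (2 * y) ∧ p.Prime ∧ ∃ q : ℕ, q.Prime ∧ q ∣ p - 1 ∧
    (y : ℝ) ^ (1 - e) < (q : ℝ)} ≤ C * e * y / Real.log y

/-! ### Supply of good primes -/

/-- GA. Number of homomorphisms. Proof. Different ring homomorphisms `𝓞 K → 𝔽_p` are linearly
independent over `𝔽_p` as functions on `𝓞 K` (Dedekind, `linearIndependent_monoidHom`), hence so are
their restrictions to a `ℤ`-basis of `𝓞 K` (they are additive, so a linear relation on the basis is a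
relation everywhere): linearly independent vectors in `ι → 𝔽_p`, `#ι = finrank ℤ (𝓞 K) = finrank ℚ K`
(`RingOfIntegers.basis`, `RingOfIntegers.rank`). So there are at most `finrank ℚ K` (in
particular finitely many). -/
def StGA : Prop := ∀ (K : Type) [Field K] [NumberField K] (p : ℕ) [Fact p.Prime],
  Finite (𝓞 K →+* ZMod p) ∧ Nat.card (𝓞 K →+* ZMod p) ≤ Module.finrank ℚ K

/-- GB. Good primes from a homomorphism. Proof. `K` = the splitting field of `f` over `ℚ`, a number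
field. The roots `α_i` of `f` in `K` are integral, `f = ∏ (X - α_i)` over `𝓞 K`, so
`f mod p = ∏ (X - ψ(α_i))` splits for every `ψ : 𝓞 K → 𝔽_p`. Over `ℚ` one has `a f + b f' = 1`; after
multiplication with a common denominator `N ≥ 1`: `a' f + b' f' = N` over `ℤ`, so `f mod p` is separable
for `p > N`. `B = max(N, |f(0)|)`. -/
def StGB : Prop := ∀ f : ℤ[X], f.Monic → (f.map (Int.castRingHom ℚ)).Separable → f.coeff 0 ≠ 0 →
  ∃ (K : Type) (_ : Field K) (_ : NumberField K) (B : ℕ), ∀ p : ℕ, p.Prime → B < p →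
    Nonempty (𝓞 K →+* ZMod p) → Good f p

/-- GC. Windows. Proof from StMer. Let `S(x)` be the sum in `StMer` and `η = e/8`. For `x` large
`S(x) ≥ (1 - η) log x` and `S(x^(1-e)) ≤ (1 + η)(1 - e) log x` (`x^(1-e) → ∞`), and the sum over
`(⌊x^(1-e)⌋, ⌊x⌋]` is `S(x) - S(x^(1-e)) ≥ (e - 2η) log x ≥ (e/2) log x`. -/
def StGC : Prop := ∀ (K : Type) [Field K] [NumberField K] (e : ℝ), 0 < e → e < 1 →
  ∃ x0 : ℝ, ∀ x : ℝ, x0 ≤ x → e / 2 * Real.log x ≤
    ∑ p ∈ (Ioc ⌊x ^ (1 - e)⌋₊ ⌊x⌋₊).filter Nat.Prime,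
      (Nat.card (𝓞 K →+* ZMod p) : ℝ) * Real.log p / p

open scoped Classical in
/-- GD. Good primes in windows. Proof from GA, GB, GC. `K`, `B₀` from GB, `D = finrank ℚ K`. For `x` large
`⌊x^(1-e)⌋ ≥ max(B, B₀)`, so a prime `p` of the window with `Nat.card ≠ 0` is good and `> B`, and
`Nat.card ≤ D` (GA): the sum of GC is at most `D` times the sum here. -/
def StGD : Prop := ∀ f : ℤ[X], f.Monic → (f.map (Int.castRingHom ℚ)).Separable → f.coeff 0 ≠ 0 →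
  ∃ D : ℕ, 0 < D ∧ ∀ (B : ℕ) (e : ℝ), 0 < e → e < 1 → ∃ x0 : ℝ, ∀ x : ℝ, x0 ≤ x →
    e / (2 * D) * Real.log x ≤
      ∑ p ∈ (Ioc ⌊x ^ (1 - e)⌋₊ ⌊x⌋₊).filter (fun p => Good f p ∧ B < p), Real.log p / p

open scoped Classical in
/-- GE. A dyadic interval with many good primes. Proof from GD, `c = 1/(16 D)`. Let
`i₀ = Nat.log 2 ⌊x^(1-e)⌋`, `i₁ = Nat.log 2 ⌊x⌋`. The intervals `(2^i, 2^(i+1)]`, `i₀ ≤ i ≤ i₁`, cover
`(⌊x^(1-e)⌋, ⌊x⌋]`; `2^(i₀) > x^(1-e)/2`, `2^(i₁) ≤ x`, and there are at most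
`e log x/log 2 + 2 ≤ 2 e log x/log 2` of them (`x` large). So for one of them, `y = 2^i`, the sum of
`log p/p` over the good `p > B` in `(y, 2y]` is at least
`(e/(2D)) log x · log 2/(2 e log x) = log 2/(4D)`. Each term is `≤ log(2y)/y ≤ 2 log y/y`. So the number
of the terms is `≥ (log 2/(8D)) y/log y ≥ c y/log y`. -/
def StGE : Prop := ∀ f : ℤ[X], f.Monic → (f.map (Int.castRingHom ℚ)).Separable → f.coeff 0 ≠ 0 →
  ∃ c : ℝ, 0 < c ∧ ∀ (B : ℕ) (e : ℝ), 0 < e → e < 1 → ∃ x0 : ℝ, ∀ x : ℝ, x0 ≤ x →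
    ∃ y : ℕ, x ^ (1 - e) / 2 ≤ (y : ℝ) ∧ (y : ℝ) ≤ x ∧
      c * y / Real.log y ≤ (((Ioc y (2 * y)).filter (fun p => Good f p ∧ B < p)).card : ℝ)

/-! ### The end -/

/-- FA. The period. Proof. `M = ∏ q^(Nat.log q (2y))` over the primes `q ≤ z`. Each `p - 1`, `p ∈ P`, divides
`M`: a prime power `q^v` dividing `p - 1 ≤ 2y` has `v ≤ Nat.log q (2y)` (compare factorizations). So
`TP P ∣ M` (`Finset.lcm_dvd`), and every factor of `M` is `≤ 2y`, at most `z` factors, `2y ≥ 1`. -/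
def StFA : Prop := ∀ (P : Finset ℕ) (y z : ℕ), 1 ≤ y →
  (∀ p ∈ P, 2 ≤ p ∧ p ≤ 2 * y ∧ ∀ q : ℕ, q.Prime → q ∣ p - 1 → q ≤ z) → TP P ≤ (2 * y) ^ z

/-- FB. The end: `StSup`. Proof from GE (constant `c`), SE (constant `C`), FA. `f`, `B`, `δ` given.
`e = min(1/2, c/(2C))`, `e' = e/2`. For `x` large take `y` from GE (for `B`, `e'`):
`y ≥ x^(1-e')/2 ≥ y₀(e)`. `P` = the good `p > B` in `(y, 2y]` such that no prime `q > y^(1-e)` divides
`p - 1`; `#P ≥ c y/log y - C e y/log y ≥ (c/2) y/log y`. All `p ∈ P` are `> y`, so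
`log (MP P) ≥ #P log y ≥ (c/2) y ≥ (c/4) x^(1-e')`. FA with `z = ⌊y^(1-e)⌋`:
`log (TP P) ≤ y^(1-e) log(2y) ≤ x^(1-e) log(2x)`. Given `Z` large let `x` be defined by
`(c/4) x^(1-e') = log Z`, that is `x = ((4/c) log Z)^(1/(1-e'))`. Then `MP P ≥ Z`, and
`x^(1-e) log(2x) ≤ δ (c/4) x^(1-e') = δ log Z` for `x` large as `e' < e`. So `TP P ≤ Z^δ`. -/
def StFB : Prop := StGE → StSE → StFA → StSup

/-- part S from its items -/
theorem sup_of (mer : StMer) (sm : StSM) (sa : StSA) (sb : StSB) (sc : StSM → StSA → StSB → StSC)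
    (sd : StSD) (se : StSC → StSD → StSE) (ga : StGA) (gb : StGB) (gc : StMer → StGC)
    (gd : StGA → StGB → StGC → StGD) (ge : StGD → StGE) (fa : StFA) (fb : StFB) : StSup :=
  fb (ge (gd ga gb (gc mer))) (se (sc sm sa sb) sd) fa

end Pool.Agent.Work.MP_8d13b5_lc.LG
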