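import Pool.Agent.Work.MP_8d13b5_lc.LG.MerFinal
import Pool.Agent.Work.MP_8d13b5_lc.LG.StmtsS
import Pool.Agent.Work.MP_8d13b5_lc.LG.I_BS
import Pool.Agent.Work.MP_8d13b5_lc.LG.I_BE
import Pool.Agent.Work.MP_8d13b5_lc.LG.I_BT
import Pool.Agent.Work.MP_8d13b5_lc.LG.I_BF
import Pool.Agent.Work.MP_8d13b5_lc.LG.I_BC
import Pool.Agent.Work.MP_8d13b5_lc.LG.I_BL
import Pool.Agent.Work.MP_8d13b5_lc.LG.I_BM
import Pool.Agent.Work.MP_8d13b5_lc.LG.I_SA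
import Pool.Agent.Work.MP_8d13b5_lc.LG.I_SB
import Pool.Agent.Work.MP_8d13b5_lc.LG.I_SC
import Pool.Agent.Work.MP_8d13b5_lc.LG.I_SD
import Pool.Agent.Work.MP_8d13b5_lc.LG.I_SE
import Pool.Agent.Work.MP_8d13b5_lc.LG.I_SM
import Pool.Agent.Work.MP_8d13b5_lc.LG.I_GA
import Pool.Agent.Work.MP_8d13b5_lc.LG.I_GB
import Pool.Agent.Work.MP_8d13b5_lc.LG.I_GC
import Pool.Agent.Work.MP_8d13b5_lc.LG.I_GD
import Pool.Agent.Work.MP_8d13b5_lc.LG.I_GE
import Pool.Agent.Work.MP_8d13b5_lc.LG.I_FA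
import Pool.Agent.Work.MP_8d13b5_lc.LG.I_FB
import Pool.Agent.Work.MP_8d13b5_lc.LG.I_Lat
import Pool.Agent.Work.MP_8d13b5_lc.LG.I_Perp
import Pool.Agent.Work.MP_8d13b5_lc.LG.I_Idx
import Pool.Agent.Work.MP_8d13b5_lc.LG.I_Per
import Pool.Agent.Work.MP_8d13b5_lc.LG.I_PerP
import Pool.Agent.Work.MP_8d13b5_lc.LG.I_Fun
import Pool.Agent.Work.MP_8d13b5_lc.LG.I_CI
import Pool.Agent.Work.MP_8d13b5_lc.LG.I_Top
import Pool.Agent.Work.MP_8d13b5_lc.LG.I_Inj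
import Pool.Agent.Work.MP_8d13b5_lc.LG.I_Hgt
import Pool.Agent.Work.MP_8d13b5_lc.LG.I_C1
import Pool.Agent.Work.MP_8d13b5_lc.LG.I_Dy
import Pool.Agent.Work.MP_8d13b5_lc.LG.I_C2
import Pool.Agent.Work.MP_8d13b5_lc.LG.I_Lcm
import Pool.Agent.Work.MP_8d13b5_lc.LG.I_C3
import Pool.Agent.Work.MP_8d13b5_lc.LG.I_D1
import Pool.Agent.Work.MP_8d13b5_lc.LG.I_Cnt
import Pool.Agent.Work.MP_8d13b5_lc.LG.I_Lin
import Pool.Agent.Work.MP_8d13b5_lc.LG.I_Iso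
import Pool.Agent.Work.MP_8d13b5_lc.LG.I_Sou
import Pool.Agent.Work.MP_8d13b5_lc.LG.I_Sca
import Pool.Agent.Work.MP_8d13b5_lc.LG.I_C4
import Pool.Agent.Work.MP_8d13b5_lc.LG.I_Shf
import Pool.Agent.Work.MP_8d13b5_lc.LG.I_C5
import Pool.Agent.Work.MP_8d13b5_lc.LG.I_Tot

/-!
# MP_8d13b5_lc, block LG: assembly of the parts N, B, S and C
-/

set_option autoImplicit false

namespace Pool.Agent.Work.MP_8d13b5_lc.LG

/-- Bauer's theorem -/
theorem bau : StBau := prBM prMer (prBC prBS prBE prBT prBF) prBL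

/-- moduli with a small period -/
theorem supp : StSup :=
  sup_of prMer pr_SM pr_SA pr_SB pr_SC pr_SD pr_SE pr_GA pr_GB pr_GC pr_GD pr_GE pr_FA pr_FB

theorem perp' : StPerp := prPerp prLat

theorem perP' : StPerP := prPerP prPer

theorem fun' : StFun := prFun prPer

theorem ci' : StCI := prCI perp' prIdx perP' fun'

/-- the count, from killing primes -/
theorem cnt' (hKil : StKil) : StCnt :=
  prCnt (prC1 supp (prTop prPer) perp' perP') (prC2 (prDy supp ci' prInj perp' perP' prHgt))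
    (prC3 hKil ci' prLcm) prHgt (prD1 supp prPer)

/-- isolation -/
theorem c5' : StC5 :=
  prC5 (prC4 supp prPer perp' prIdx fun' prSca prLin) (prShf prLin) prLin

/-- all but few initial vectors, from killing primes -/
theorem tot' (hKil : StKil) : StTot := prTot (cnt' hKil) c5'

end Pool.Agent.Work.MP_8d13b5_lc.LG
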