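import Pool.Agent.Work.MP_8d13b5_lc.LG.I_NA
import Pool.Agent.Work.MP_8d13b5_lc.LG.I_NT
import Pool.Agent.Work.MP_8d13b5_lc.LG.I_NL
import Pool.Agent.Work.MP_8d13b5_lc.LG.I_NPa
import Pool.Agent.Work.MP_8d13b5_lc.LG.I_NPb
import Pool.Agent.Work.MP_8d13b5_lc.LG.I_Ngn
import Pool.Agent.Work.MP_8d13b5_lc.LG.I_NVl
import Pool.Agent.Work.MP_8d13b5_lc.LG.I_NCt
import Pool.Agent.Work.MP_8d13b5_lc.LG.I_NEx
import Pool.Agent.Work.MP_8d13b5_lc.LG.I_NS
import Pool.Agent.Work.MP_8d13b5_lc.LG.I_NCh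
import Pool.Agent.Work.MP_8d13b5_lc.LG.I_NAn
import Pool.Agent.Work.MP_8d13b5_lc.LG.I_NMr

/-!
# Mertens for number fields: assembly
-/

set_option autoImplicit false

namespace Pool.Agent.Work.MP_8d13b5_lc.LG

/-- The theorem of Mertens for number fields. -/
theorem prMer : StMer :=
  prNMr prNA prNT prNL (prNEx prNA prNPa prNPb prNVl prNCt) (prNgn prNPa prNPb) prNS prNCh
    (prNAn prNCh)

end Pool.Agent.Work.MP_8d13b5_lc.LG
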