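import Pool.Agent.Work.MP_8d13b5_lc.LG.Defs

/-!
# MP_8d13b5_lc, block LG: the counting part and the certificates (captain helper1)

`d = f.natDegree`, `Bx d H` = the box, `perp d C` = the initial vectors orthogonal to `C`,
`NP f P C n` = the product of the `p ∈ P` for which `C` is not proportional to `X ^ n` mod `p`.
-/

set_option autoImplicit false

open Polynomial

namespace Pool.Agent.Work.MP_8d13b5_lc.LG

/-- the box -/
noncomputable def Bx (d H : ℕ) : Finset (Fin d → ℤ) := Fintype.piFinset fun _ => Finset.Icc (-(H : ℤ)) H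

/-- the vectors orthogonal to `C` -/
def perp (d : ℕ) (C : ℤ[X]) : AddSubgroup (Fin d → ℤ) where
  carrier := {x | pr d C x = 0}
  zero_mem' := by simp [pr]
  add_mem' := by
    intro x y hx hy
    simp only [pr, Set.mem_ofPred_eq, Pi.add_apply, mul_add, Finset.sum_add_distrib] at *
    rw [hx, hy, add_zero]
  neg_mem' := by
    intro x hx
    simp only [pr, Set.mem_ofPred_eq, Pi.neg_apply, mul_neg, Finset.sum_neg_distrib] at *
    rw [hx, neg_zero]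

/-- the largest absolute value of the first `d` coefficients -/
def hgt (d : ℕ) (C : ℤ[X]) : ℕ := Finset.univ.sup fun i : Fin d => (C.coeff i).natAbs

/-- primitive vectors of length `d` -/
def Prim (d : ℕ) (C : ℤ[X]) : Prop := C.natDegree < d ∧ C.content = 1

open Classical in
/-- the product of the primes of `P` at which `C` is not proportional to `X ^ n` -/
noncomputable def NP (f : ℤ[X]) (P : Finset ℕ) (C : ℤ[X]) (n : ℕ) : ℕ :=
  ∏ p ∈ P.filter (fun p => ¬ Par f p C n), p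

/-- `x` is bad for every finite set of good primes: no squarefree modulus made of good primes shows
that there is no zero -/
def Bad (f : ℤ[X]) (x : Fin f.natDegree → ℤ) : Prop :=
  ∀ P : Finset ℕ, (∀ p ∈ P, Good f p) → ∃ n, (MP P : ℤ) ∣ pr f.natDegree (W f n) x

/-- `f` monic, separable, `f(0) ≠ 0` -/
def Ok (f : ℤ[X]) : Prop :=
  f.Monic ∧ (f.map (Int.castRingHom ℚ)).Separable ∧ f.coeff 0 ≠ 0

/-! ## L. Lattice points -/

/-- [Lat] EASY-MEDIUM.  Induction on `m`.  `m = 0`: one point, index `1`.  `m + 1`: the last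
coordinates of `Λ` form `a ℤ`, `a ≠ 0` (finite index); `Λ₀ = {y : Fin m → ℤ | (y, 0) ∈ Λ}` has index
`N / a` (`N = a * Λ₀.index`: `ℤ^(m+1)/Λ → ℤ/a` is onto with kernel `ℤ^m/Λ₀`).  A fibre of
`Λ ∩ Bx H` over the last coordinate `t ∈ a ℤ` is empty or injects (subtract one of its points) into
`Λ₀ ∩ Bx (2 H)`: at most `c ((2H)^m / (N/a) + (2H)^m / (2H))` points.  If `a ≤ H` there are at most
`2 H / a + 1 ≤ 3 H / a` fibres: total `≤ 3 c 2^m (H^(m+1) / N + H^m / a)`.  If `a > H` only `t = 0`: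
total `≤ c 2^m (H^m a / N + H^m)`, `a ≤ N`.  Constant `c' = 6 * 2^m c`. -/
def StLat : Prop := ∀ m : ℕ, ∃ c : ℝ, 0 < c ∧ ∀ (Λ : AddSubgroup (Fin m → ℤ)) (H : ℕ),
  Λ.index ≠ 0 → 1 ≤ H →
  (Set.ncard {x | x ∈ Bx m H ∧ x ∈ Λ} : ℝ) ≤ c * ((H : ℝ) ^ m / Λ.index + (H : ℝ) ^ m / H)

/-- [Perp] EASY-MEDIUM.  Let `i` be an index with `|C_i| = hgt d C =: h > 0`.  Forgetting the
coordinate `i` is injective on `perp d C` and maps it onto the kernel of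
`ℤ^(d-1) → ℤ/h`, `y ↦ ∑_(j ≠ i) C_j y_j`, which is onto since the content of `C` is `1`
(Bezout).  So the image of `L` has index `h * L.relIndex (perp d C)` in `ℤ^(d-1)`, it maps
`Bx d H` into `Bx (d-1) H`; apply `StLat` with `m = d - 1`. -/
def StPerp : Prop := ∀ d : ℕ, 2 ≤ d → ∃ c : ℝ, 0 < c ∧ ∀ (C : ℤ[X]), Prim d C →
  ∀ (L : AddSubgroup (Fin d → ℤ)) (H : ℕ), L ≤ perp d C → L.relIndex (perp d C) ≠ 0 → 1 ≤ H →
  (Set.ncard {x | x ∈ Bx d H ∧ x ∈ L} : ℝ) ≤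
    c * ((H : ℝ) ^ (d - 1) / ((hgt d C : ℝ) * (L.relIndex (perp d C) : ℝ)) + (H : ℝ) ^ (d - 2))

/-- [Idx] EASY-MEDIUM (pure group theory).  `Q` a finite set of primes, `φ p : G → ℤ/p` nonzero for
`p ∈ Q`.  The intersection of the kernels has index `∏ p`.  (Induction on `Q`: the kernel of
`φ p` has index `p`, a prime not dividing the index of the intersection of the others; indices of
intersections of subgroups with coprime indices multiply, `Subgroup.index_inf_..coprime` or the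
surjection onto the product.) -/
def StIdx : Prop := ∀ (G : Type) [AddCommGroup G] (Q : Finset ℕ) (φ : ∀ p : ℕ, G →+ ZMod p),
  (∀ p ∈ Q, p.Prime) → (∀ p ∈ Q, φ p ≠ 0) →
  (⨅ p ∈ Q, (φ p).ker).index = ∏ p ∈ Q, p

/-! ## P. Facts modulo good primes -/

/-- [Per] EASY.  (a) `f mod p` is separable, split, `f(0) ≠ 0`, so it divides `X^(p-1) - 1`
(`X^p - X` is the product of all linear factors; `f mod p` is coprime to `X`); `W` is
`X^n %ₘ f` (`Polynomial.map_modByMonic`).  (b) `X` is a unit modulo `f mod p`. -/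
def StPer : Prop := ∀ (f : ℤ[X]) (p : ℕ), f.Monic → 1 ≤ f.natDegree → Good f p →
  (∀ n, (W f (n + (p - 1))).map (Int.castRingHom (ZMod p)) =
    (W f n).map (Int.castRingHom (ZMod p))) ∧
  (∀ n, (W f n).map (Int.castRingHom (ZMod p)) ≠ 0) ∧
  (∀ n, f.map (Int.castRingHom (ZMod p)) ∣
    X ^ n - (W f n).map (Int.castRingHom (ZMod p)))

/-- [PerP] EASY (hPer : StPer).  Periodicity for a set of good primes: `n = n'` modulo
`TP P = lcm (p - 1)`. -/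
def StPerP : Prop := ∀ (f : ℤ[X]) (P : Finset ℕ), f.Monic → 1 ≤ f.natDegree →
  (∀ p ∈ P, Good f p) → ∀ n n' : ℕ, n ≡ n' [MOD TP P] →
  (∀ x : Fin f.natDegree → ℤ, (∀ p ∈ P, ((p : ℤ) ∣ pr f.natDegree (W f n) x ↔
    (p : ℤ) ∣ pr f.natDegree (W f n') x)) ∧
    ((MP P : ℤ) ∣ pr f.natDegree (W f n) x ↔ (MP P : ℤ) ∣ pr f.natDegree (W f n') x)) ∧
  ∀ C : ℤ[X], (∀ p ∈ P, (Par f p C n ↔ Par f p C n')) ∧ NP f P C n = NP f P C n'

/-- [Fun] MEDIUM.  If `p` is good and `C` (primitive) is not proportional to `X^n` mod `p`, then the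
functional `x ↦ pr d (W f n) x mod p` is not zero on `perp d C`.  Every `y ∈ 𝔽_p^d` with
`∑ C_i y_i = 0` lifts to `perp d C` (lift `y` to `x₀`, `∑ C_i x₀_i = p t`, `∑ C_i z_i = 1`,
`x = x₀ - p t z`).  So if the functional vanished on `perp d C`, `W_n mod p` would be a multiple of
`C mod p ≠ 0` (two functionals on `𝔽_p^d`, kernel of `C` contained in the kernel of `W_n`), nonzero
by `StPer`: `C = μ W_n` mod `p`, hence `Par`. -/
def StFun : Prop := ∀ (f : ℤ[X]) (p : ℕ) (C : ℤ[X]) (n : ℕ), f.Monic → 1 ≤ f.natDegree →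
  Good f p → Prim f.natDegree C → ¬ Par f p C n →
  ∃ x ∈ perp f.natDegree C, ¬ (p : ℤ) ∣ pr f.natDegree (W f n) x

/-- [CI] MEDIUM (hPerp : StPerp) (hIdx : StIdx) (hPerP : StPerP) (hFun : StFun).  One hyperplane.
If `x ∈ perp d C` and `MP P ∣ pr (W n) x`, take `n < TP P`; then `x` lies in the subgroup
`{x ∈ perp d C | p ∣ pr (W n) x for all p ∈ P with ¬ Par f p C n}` of index `NP f P C n ≥ k` in
`perp d C` (`StIdx` for `G = perp d C`, `StFun`).  `StPerp`, and a sum over `n < TP P`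
(`1 ≤ TP P`; it is `1` for `P = ∅`). -/
def StCI : Prop := ∀ d : ℕ, 2 ≤ d → ∃ c : ℝ, 0 < c ∧ ∀ (f : ℤ[X]), f.Monic → f.natDegree = d →
  ∀ (C : ℤ[X]), Prim d C → ∀ (P : Finset ℕ), (∀ p ∈ P, Good f p ∧ 3 ≤ p) → ∀ (k H : ℕ), 1 ≤ k →
  1 ≤ H → (∀ n, k ≤ NP f P C n) →
  (Set.ncard {x | x ∈ Bx d H ∧ pr d C x = 0 ∧ ∃ n, (MP P : ℤ) ∣ pr d (W f n) x} : ℝ) ≤
    (TP P : ℝ) * (c * ((H : ℝ) ^ (d - 1) / ((hgt d C : ℝ) * k) + (H : ℝ) ^ (d - 2)))

/-- [Top] MEDIUM (hPer : StPer).  If `M = MP P > d! H^d`, the vectors `x` of the box with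
`M ∣ pr (W n) x` lie in one hyperplane with a primitive integral normal vector.  Any `d` of them,
rows of a matrix `U`: `U W_n = 0` mod `M`, so `det(U) W_n = adj(U) U W_n = 0` mod every `p ∈ P`,
`W_n ≠ 0` mod `p`, so `p ∣ det U`; `M ∣ det U`, `|det U| ≤ d! H^d < M`, so `det U = 0`.  So these
vectors span a proper subspace of `ℚ^d`, which has a nonzero integral normal vector; divide by
the content. -/
def StTop : Prop := ∀ (f : ℤ[X]) (P : Finset ℕ) (H n : ℕ), f.Monic → 1 ≤ f.natDegree →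
  (∀ p ∈ P, Good f p) → f.natDegree.factorial * H ^ f.natDegree < MP P →
  ∃ C : ℤ[X], Prim f.natDegree C ∧ ∀ x ∈ Bx f.natDegree H,
    (MP P : ℤ) ∣ pr f.natDegree (W f n) x → pr f.natDegree C x = 0

/-- [Inj] EASY-MEDIUM.  If `Par f p C n` and `Par f p C' n` then `C` and `C'` are proportional
modulo `p` (degrees `< d`, `f mod p` monic of degree `d`), so `p ∣ C_a C'_b - C_b C'_a` for all
`a`, `b`.  The product of the `p ∈ P` with both is at least `MP P / (NP C n * NP C' n)`, larger than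
all `|C_a C'_b - C_b C'_a| ≤ 2 hgt C hgt C'`.  So all these are `0`; both have content `1`, so
`C = ± C'`. -/
def StInj : Prop := ∀ (f : ℤ[X]) (P : Finset ℕ) (C C' : ℤ[X]) (n : ℕ), f.Monic →
  1 ≤ f.natDegree → (∀ p ∈ P, Good f p) → Prim f.natDegree C → Prim f.natDegree C' →
  NP f P C n * NP f P C' n * (2 * hgt f.natDegree C * hgt f.natDegree C') < MP P →
  C = C' ∨ C = -C'

/-- [Hgt] EASY.  Primitive vectors have height at least `1`; there are at most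
`(2 B + 1)^d` polynomials `C` of degree `< d` with `hgt d C ≤ B`. -/
def StHgt : Prop := ∀ d : ℕ, (∀ C, Prim d C → 1 ≤ hgt d C) ∧
  ∀ B : ℕ, {C : ℤ[X] | C.natDegree < d ∧ hgt d C ≤ B}.Finite ∧
    {C : ℤ[X] | C.natDegree < d ∧ hgt d C ≤ B}.ncard ≤ (2 * B + 1) ^ d

/-! ## C. The count -/

/-- [C1] MEDIUM (hSup : StSup) (hTop : StTop) (hPerp : StPerp) (hPerP : StPerP).
Let `η = 1/(10 d)`.  `StSup` with `Z = 2 d! H^d`, `δ = η/(2 d)`: `P` with `MP P > d! H^d`,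
`TP P ≤ (2 d!)^δ H^(η/2) ≤ H^η` for large `H`.  A bad `x` has `MP P ∣ pr (W n) x` for some
`n < TP P`, so `pr C_n x = 0` (`StTop`), and `hgt C_n ≥ H^(2η)` by the hypothesis on `x`.  By
`StPerp` with `L = perp d C_n` the number is at most
`TP P c (H^(d-1) / H^(2η) + H^(d-2)) ≤ c (H^(d-1-η) + H^(d-2+η))`. -/
def StC1 : Prop := ∀ f : ℤ[X], Ok f → 2 ≤ f.natDegree → ∀ ε : ℝ, 0 < ε → ∃ H0 : ℕ, ∀ H : ℕ,
  H0 ≤ H → (Set.ncard {x | x ∈ Bx f.natDegree H ∧ Bad f x ∧ ∀ C : ℤ[X], Prim f.natDegree C →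
    (hgt f.natDegree C : ℝ) < (H : ℝ) ^ (1 / (5 * f.natDegree : ℝ)) → pr f.natDegree C x ≠ 0} : ℝ) ≤
      ε * (H : ℝ) ^ (f.natDegree - 1)

/-- [Dy] MEDIUM (hSup : StSup) (hCI : StCI) (hInj : StInj) (hPerp : StPerp) (hPerP : StPerP)
(hHgt : StHgt).  One dyadic level, `2 ≤ X`.  Let `P` be from `StSup` (primes `≥ 3`) with
`MP P ≥ Z := 64 X^(2 d + 5)`, `TP P ≤ Z^δ ≤ X^(1/10)` (`X` large, `δ = 1 / (20 (2 d + 6))`).
Case I: `C` with `NP f P C n > X^(d+1)` for all `n`: at most `(4 X + 1)^d ≤ (5 X)^d` such `C`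
(`StHgt`), each contributes at most `X^(1/10) c (H^(d-1) / (X X^(d+1)) + H^(d-2))` (`StCI`).
Case II: `C` with `NP f P C n ≤ X^(d+1)` for some `n < TP P` (`StPerP`): two such `C`, `C'` with
the same `n` are equal up to sign (`StInj`: `X^(2d+2) * 2 * (2 X)^2 < Z`), so there are at most
`TP P` of them up to sign, each contributes at most `c (H^(d-1) / X + H^(d-2))` (`StPerp` with
`L = perp`; `perp C = perp (-C)`).  Sum: `≤ c' (H^(d-1) X^(-1/2) + X^(d+1) H^(d-2))`. -/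
def StDy : Prop := ∀ f : ℤ[X], Ok f → 2 ≤ f.natDegree → ∃ c : ℝ, ∃ X0 : ℕ, 0 < c ∧ 1 ≤ X0 ∧
  ∀ X H : ℕ, X0 ≤ X → 1 ≤ H →
  (Set.ncard {x | x ∈ Bx f.natDegree H ∧ Bad f x ∧ ∃ C : ℤ[X], Prim f.natDegree C ∧
    X ≤ hgt f.natDegree C ∧ hgt f.natDegree C < 2 * X ∧ pr f.natDegree C x = 0} : ℝ) ≤
      c * ((H : ℝ) ^ (f.natDegree - 1) * (X : ℝ) ^ (-(1 / 2 : ℝ)) +
        (X : ℝ) ^ (f.natDegree + 1) * (H : ℝ) ^ (f.natDegree - 2))

/-- [C2] EASY-MEDIUM (hDy : StDy).  Sum over the levels `X = 2^i X₁`, `X₁ ≥ X0`, `X ≤ H^(1/(5d))`: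
`∑ X^(-1/2) ≤ 4 X₁^(-1/2)`, at most `log_2 H + 1` levels, and
`(H^(1/(5d)))^(d+1) ≤ H^(2/5)`, so the second terms give at most
`(log_2 H + 1) H^(2/5) H^(d-2) = o(H^(d-1))`.  Choose `X₁` first. -/
def StC2 : Prop := ∀ f : ℤ[X], Ok f → 2 ≤ f.natDegree → ∀ ε : ℝ, 0 < ε → ∃ X1 H0 : ℕ, ∀ H : ℕ,
  H0 ≤ H → (Set.ncard {x | x ∈ Bx f.natDegree H ∧ Bad f x ∧ ∃ C : ℤ[X], Prim f.natDegree C ∧
    X1 ≤ hgt f.natDegree C ∧ (hgt f.natDegree C : ℝ) < (H : ℝ) ^ (1 / (5 * f.natDegree : ℝ)) ∧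
    pr f.natDegree C x = 0} : ℝ) ≤ ε * (H : ℝ) ^ (f.natDegree - 1)

/-- [Lcm] EASY.  All `p - 1` are even, so `lcm (p - 1) = 2 lcm ((p-1)/2) ≤ 2 ∏ (p-1)/2`. -/
def StLcm : Prop := ∀ P : Finset ℕ, (∀ p ∈ P, p.Prime ∧ 3 ≤ p) → P.Nonempty →
  TP P * 2 ^ (P.card - 1) ≤ MP P

/-- [C3] EASY-MEDIUM (hKil : StKil) (hCI : StCI) (hLcm : StLcm).  Choose `r + 1` killing primes
`≥ 3` for `C` (`StKil` with increasing `B`), `P` the set of them; `NP f P C n = MP P` for all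
`n`, so by `StCI` with `k = MP P` the number is at most
`TP P c (H^(d-1) / MP P + H^(d-2)) ≤ c 2^(-r) H^(d-1) + c TP P H^(d-2)` (`hgt ≥ 1`). -/
def StC3 : Prop := ∀ f : ℤ[X], Ok f → 2 ≤ f.natDegree → ∀ C : ℤ[X], Prim f.natDegree C →
  ¬ ParQ f C → ∀ ε : ℝ, 0 < ε → ∃ H0 : ℕ, ∀ H : ℕ, H0 ≤ H →
  (Set.ncard {x | x ∈ Bx f.natDegree H ∧ Bad f x ∧ pr f.natDegree C x = 0} : ℝ) ≤
    ε * (H : ℝ) ^ (f.natDegree - 1)

/-- [D1] EASY (hSup : StSup) (hPer : StPer).  Degree `1`: for `x ≠ 0` take a good `p > H ≥ |x|`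
(`StSup` gives a nonempty `P` with primes `> H`): `W_n` is a nonzero constant mod `p`. -/
def StD1 : Prop := ∀ f : ℤ[X], Ok f → f.natDegree = 1 → ∀ x : Fin f.natDegree → ℤ, Bad f x →
  pr f.natDegree 1 x = 0

/-- [Cnt] EASY-MEDIUM (hC1 : StC1) (hC2 : StC2) (hC3 : StC3) (hHgt : StHgt) (hD1 : StD1).
THE COUNT: `𝒞` = the primitive `C` with `hgt C < X1` (from `StC2` with `ε/3`) and `ParQ f C`;
the finitely many others with `hgt C < X1` by `StC3` with `ε / (3 (number + 1))`.  Degree `1`: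
`𝒞 = {1}` (`ParQ f 1` with `n = j = 0`, `a = b = 1`). -/
def StCnt : Prop := ∀ f : ℤ[X], Ok f → 1 ≤ f.natDegree → ∀ ε : ℝ, 0 < ε →
  ∃ 𝒞 : Finset ℤ[X], (∀ C ∈ 𝒞, Prim f.natDegree C ∧ ParQ f C) ∧ ∃ H0 : ℕ, ∀ H : ℕ, H0 ≤ H →
  (Set.ncard {x | x ∈ Bx f.natDegree H ∧ Bad f x ∧ ∀ C ∈ 𝒞, pr f.natDegree C x ≠ 0} : ℝ) ≤
    ε * (H : ℝ) ^ (f.natDegree - 1)

/-! ## I. Isolation of a known zero -/

/-- `p` isolates: `X ^ r = μ + p ^ k N` modulo `f` -/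
def IsoAt (f : ℤ[X]) (p r k : ℕ) (μ : ℤ) : Prop :=
  p.Prime ∧ 3 ≤ p ∧ ¬ (p : ℤ) ∣ f.coeff 0 ∧ 1 ≤ r ∧ 1 ≤ k ∧
    ∃ N : ℤ[X], f ∣ X ^ r - C μ - C ((p : ℤ) ^ k) * N

/-- a certificate that a sequence with `u_0 = 0` has no zero `m ≥ 1` -/
def Cert (f : ℤ[X]) (y : Fin f.natDegree → ℤ) : Prop :=
  ∃ (T : ℕ) (Q : List (ℕ × ℕ × ℕ × ℤ)), 1 ≤ T ∧
    (∀ q ∈ Q, IsoAt f q.1 q.2.1 q.2.2.1 q.2.2.2 ∧ q.2.1 ∣ T ∧
      ∀ n, (q.1 : ℤ) ∣ pr f.natDegree (W f (n + T)) y - pr f.natDegree (W f n) y) ∧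
    ∀ m, 1 ≤ m → m ≤ T →
      (∃ q ∈ Q, ¬ (q.1 : ℤ) ∣ pr f.natDegree (W f m) y) ∨
      (∃ q ∈ Q, q.2.1 ∣ m ∧
        ¬ (q.1 : ℤ) ^ (q.2.2.1 + 1) ∣ pr f.natDegree (W f q.2.1) y)

/-- [Lin] EASY.  `A ↦ pr d (A %ₘ f) x` is additive, and `ℤ`-linear, and depends only on `A` modulo
`f`; `W f n` gives `u_n`. -/
def StLin : Prop := ∀ (f : ℤ[X]) (x : Fin f.natDegree → ℤ), f.Monic →
  (∀ A B : ℤ[X], pr f.natDegree ((A + B) %ₘ f) x =
    pr f.natDegree (A %ₘ f) x + pr f.natDegree (B %ₘ f) x) ∧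
  (∀ (a : ℤ) (A : ℤ[X]), pr f.natDegree ((C a * A) %ₘ f) x = a * pr f.natDegree (A %ₘ f) x) ∧
  (∀ A B : ℤ[X], f ∣ A - B → pr f.natDegree (A %ₘ f) x = pr f.natDegree (B %ₘ f) x)

/-- [Iso] MEDIUM (hLin : StLin).  With `L A = pr d (A %ₘ f) y`, `L 1 = 0`: for `m ≥ 1`
`u_(r m) = L (X^(r m)) = L ((μ + p^k N)^m) = ∑_(l=1)^m (m choose l) μ^(m-l) p^(k l) L (N^l)`,
`u_r = p^k L N`, so `p` does not divide `L N`; `p` does not divide `μ` (`X` is invertible mod `p`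
and `f`, `d ≥ 1`).  The term `l = 1` has valuation `v(m) + k`; for `l ≥ 2` the valuation is at
least `v(m) - v(l) + k l > v(m) + k` (`l (m choose l) = m ((m-1) choose (l-1))`, and
`k (l - 1) ≥ l - 1 > v_p(l)` for `p ≥ 3`).  So the sum is not `0`. -/
def StIso : Prop := ∀ (f : ℤ[X]) (y : Fin f.natDegree → ℤ) (p r k : ℕ) (μ : ℤ), f.Monic →
  1 ≤ f.natDegree → IsoAt f p r k μ → pr f.natDegree (W f 0) y = 0 →
  ¬ (p : ℤ) ^ (k + 1) ∣ pr f.natDegree (W f r) y →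
  ∀ m : ℕ, 1 ≤ m → pr f.natDegree (W f (r * m)) y ≠ 0

/-- [Sou] EASY (hIso : StIso).  A certificate is correct: reduce `m ≥ 1` modulo `T` to `[1, T]`. -/
def StSou : Prop := ∀ (f : ℤ[X]) (y : Fin f.natDegree → ℤ), f.Monic → 1 ≤ f.natDegree →
  pr f.natDegree (W f 0) y = 0 → Cert f y → ∀ m : ℕ, 1 ≤ m → pr f.natDegree (W f m) y ≠ 0

/-- no power of `X` is a scalar modulo `f` -/
def NoScal (f : ℤ[X]) : Prop := ∀ r : ℕ, 1 ≤ r → ∀ a : ℤ, ¬ f ∣ X ^ r - C a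

/-- [Sca] MEDIUM.  `r` = the least `r ≥ 1` with `X^r` a scalar modulo `(p, f)` (it divides `p - 1`:
`Good` gives `X^(p-1) = 1`); all exponents `n` with `X^n` a scalar mod `(p, f)` are multiples of
`r` (division with remainder, `X` is a unit).  `k` maximal with `X^r - μ ∈ p^k ℤ[X] + (f)` for some
`μ ∈ ℤ`: it exists since some coefficient of `W f r` in degree `≥ 1` is not `0` (`NoScal`) and
`p^k` divides it.  `μ` = the constant coefficient of `W f r` works.  `N` = `(W f r - μ) / p^k` is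
not a scalar mod `p` by maximality. -/
def StSca : Prop := ∀ (f : ℤ[X]) (p : ℕ), f.Monic → 1 ≤ f.natDegree → NoScal f → Good f p →
  3 ≤ p → ∃ (r k : ℕ) (μ : ℤ) (N : ℤ[X]), IsoAt f p r k μ ∧ r ∣ p - 1 ∧
    N.natDegree < f.natDegree ∧ f ∣ X ^ r - C μ - C ((p : ℤ) ^ k) * N ∧
    (¬ ∃ a : ZMod p, f.map (Int.castRingHom (ZMod p)) ∣
      N.map (Int.castRingHom (ZMod p)) - C a) ∧
    ∀ n : ℕ, Par f p 1 n → r ∣ n

/-- [C4] MEDIUM (hSup : StSup) (hPerp : StPerp) (hIdx : StIdx) (hPerP : StPerP) (hFun : StFun)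
(hSca : StSca) (hLin : StLin).  `NoScal` implies `d ≥ 2`.  Let `P` be from `StSup`, primes `≥ 3`,
`MP P ≥ Z := H^2`, `TP P ≤ H^(1/4)` (`δ = 1/8`).  For `p ∈ P` take `r_p, k_p, μ_p, N_p` from `StSca`,
`Q` = the list of the `(p, r_p, k_p, μ_p)`, `T = TP P` (`StPerP`).  If `y_0 = 0` and `y` has no
certificate `(T, Q)`, there is `1 ≤ m ≤ T` with: `p ∣ u_m` for all `p ∈ P`, and
`p^(k_p + 1) ∣ u_(r_p)`, i.e. `p ∣ L(N_p)`, for all `p ∈ P` with `r_p ∣ m`, in particular for all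
`p ∈ P` with `Par f p 1 m`.  For fixed `m` these `y` lie in the subgroup of `perp d 1`
(`pr d 1 y = y_0`) given by one nonzero functional mod `p` for each `p ∈ P`: `u_m` if
`¬ Par f p 1 m` (`StFun`, `C = 1`), `y ↦ L(N_p) = pr d N_p y` if `Par f p 1 m` (nonzero on `perp d 1`,
because `N_p mod p` has a nonzero coefficient in some degree `1 ≤ i < d`: take the `i`-th unit
vector).  Its index is `MP P` (`StIdx`).  So the number is at most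
`TP P c (H^(d-1) / MP P + H^(d-2)) ≤ c (H^(d-3+1/4) + H^(d-2+1/4)) = o(H^(d-1))` (`hgt d 1 = 1`). -/
def StC4 : Prop := ∀ f : ℤ[X], Ok f → 1 ≤ f.natDegree → NoScal f → ∀ ε : ℝ, 0 < ε →
  ∃ H0 : ℕ, ∀ H : ℕ, H0 ≤ H → (Set.ncard {y | y ∈ Bx f.natDegree H ∧
    pr f.natDegree (W f 0) y = 0 ∧ ¬ Cert f y} : ℝ) ≤ ε * (H : ℝ) ^ (f.natDegree - 1)

/-- `x` has a zero at a negative index and a certificate that it has no zero `n ≥ 0`: the sequence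
`v` of `y` has `v_(n + j) = s u_n`, `v_0 = 0` -/
def Cert' (f : ℤ[X]) (x : Fin f.natDegree → ℤ) : Prop :=
  ∃ (j : ℕ) (s : ℤ) (y : Fin f.natDegree → ℤ), 1 ≤ j ∧ s ≠ 0 ∧
    (∀ n, pr f.natDegree (W f (n + j)) y = s * pr f.natDegree (W f n) x) ∧
    pr f.natDegree (W f 0) y = 0 ∧ Cert f y

/-- [Shf] MEDIUM (hLin : StLin).  Let `f ∣ a X^j C - b X^n`, `n < j`, `i = j - n`.  `X` is not a zero
divisor modulo `f` (`f(0) ≠ 0`), so `f ∣ a X^i C - b`.  Let `J = -divX f`: `X J = f(0)` modulo `f`,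
`s = f(0)^i`, `(Φ x)_t = pr d ((J^i X^t) %ₘ f) x`, `t < d`.  Then for all `A`
`pr d (A %ₘ f) (Φ x) = pr d ((J^i A) %ₘ f) x` (both sides are linear and depend on `A` mod `f`; equal
for `A = X^t`, `t < d`).  `A = X^(m+i)`: `J^i X^(m+i) = s X^m`.  `A = 1`:
`a s C = a J^i X^i C = b J^i`, so `b pr (J^i) x = a s pr C x = 0`.  Injective: `Φ x` determines
`s u_m(x)`, `m < d`.  `K` = `d *` (the largest absolute value of the coefficients of the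
`(J^i X^t) %ₘ f`) `+ 1`. -/
def StShf : Prop := ∀ (f C : ℤ[X]) (n j : ℕ) (a b : ℤ), f.Monic → f.coeff 0 ≠ 0 →
  1 ≤ f.natDegree → Prim f.natDegree C → a ≠ 0 → b ≠ 0 → n < j →
  f ∣ Polynomial.C a * X ^ j * C - Polynomial.C b * X ^ n →
  ∃ (K : ℕ) (s : ℤ) (Φ : (Fin f.natDegree → ℤ) → (Fin f.natDegree → ℤ)), 1 ≤ K ∧ s ≠ 0 ∧
    Function.Injective Φ ∧ (∀ (H : ℕ), ∀ x ∈ Bx f.natDegree H, Φ x ∈ Bx f.natDegree (K * H)) ∧
    (∀ x, pr f.natDegree C x = 0 → pr f.natDegree (W f 0) (Φ x) = 0) ∧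
    ∀ x m, pr f.natDegree (W f (m + (j - n))) (Φ x) = s * pr f.natDegree (W f m) x

/-- [C5] EASY-MEDIUM (hC4 : StC4) (hShf : StShf) (hLin : StLin).  `ParQ f C` with `n, j, a, b`.
If `j ≤ n`: `f ∣ a C - b X^(n-j)` (cancel `X^j`), so `a pr C x = b u_(n-j)` and `u_(n-j) = 0`.  If
`n < j`, `i = j - n`: `StShf`.  If `f ∣ X^r - c`, `r ≥ 1` (then `c ≠ 0`), `v = ` sequence of
`y = Φ x`: `v_(r i) = c^i v_0 = 0`, and `v_(r i) = s u_(r i - i)`, so `u` has a zero (`r i ≥ i`).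
Otherwise `NoScal f`: `x` without zero and without `Cert'` gives `y = Φ x ∈ Bx (K H)` with
`y_0 = 0`, `¬ Cert f y`: at most `ε K^(-(d-1)) (K H)^(d-1)` of them by `StC4`. -/
def StC5 : Prop := ∀ f : ℤ[X], Ok f → 1 ≤ f.natDegree → ∀ C : ℤ[X], Prim f.natDegree C →
  ParQ f C → ∀ ε : ℝ, 0 < ε → ∃ H0 : ℕ, ∀ H : ℕ, H0 ≤ H →
  (Set.ncard {x | x ∈ Bx f.natDegree H ∧ pr f.natDegree C x = 0 ∧
    (∀ n, pr f.natDegree (W f n) x ≠ 0) ∧ ¬ Cert' f x} : ℝ) ≤ ε * (H : ℝ) ^ (f.natDegree - 1)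

/-- [Tot] EASY (hCnt : StCnt) (hC5 : StC5).  All but `ε H^(d-1)` initial vectors have a modulus, a
zero `n ≥ 0`, or a certificate for a zero at a negative index. -/
def StTot : Prop := ∀ f : ℤ[X], Ok f → 1 ≤ f.natDegree → ∀ ε : ℝ, 0 < ε → ∃ H0 : ℕ, ∀ H : ℕ,
  H0 ≤ H → (Set.ncard {x | x ∈ Bx f.natDegree H ∧ Bad f x ∧
    (∀ n, pr f.natDegree (W f n) x ≠ 0) ∧ ¬ Cert' f x} : ℝ) ≤ ε * (H : ℝ) ^ (f.natDegree - 1)

end Pool.Agent.Work.MP_8d13b5_lc.LG
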