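import Pool.Agent.Work.MP_8d13b5_lc.LG.Defs

/-!
# MP_8d13b5_lc, block LG, part B: Mertens for number fields implies Bauer's theorem

The docstrings are the complete proofs; the items are independent (earlier statements are
hypotheses).  `g_F(p)` is the number of ring homomorphisms `𝓞 F → 𝔽_p`.
-/

set_option autoImplicit false

open Polynomial Filter Topology NumberField Module

namespace Pool.Agent.Work.MP_8d13b5_lc.LG

/-- BS. Proof. The roots `α_i` of `P` in `F` are integral (`P` is monic over `𝓞 K`), so `P = ∏ (X - α_i)` over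
`𝓞 F`, and `P.map φ = (P.map (algebraMap _ _)).map ψ = ∏ (X - ψ(α_i))`. -/
def StBS : Prop := ∀ (K F : Type) [Field K] [NumberField K] [Field F] [NumberField F] [Algebra K F]
  (P : (𝓞 K)[X]), P.Monic → ((P.map (algebraMap (𝓞 K) K)).map (algebraMap K F)).Splits →
  ∀ (p : ℕ) [Fact p.Prime] (ψ : 𝓞 F →+* ZMod p),
    (P.map (ψ.comp (algebraMap (𝓞 K) (𝓞 F)))).Splits

/-- BE (extension of a homomorphism). Proof. Let `A ⊆ 𝓞 F` be the subalgebra over `𝓞 K` generated by the
roots `α_i` of `P` (integral). `F = K(α_1, ..)`, so every element of `F` is a quotient `a / N` with `a ∈ A`,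
`N` a positive integer (elements of `K` are quotients of an element of `𝓞 K` by an integer), and since
`𝓞 F` is finitely generated over `ℤ` there is one `N ≥ 1` with `N x ∈ A` for all `x ∈ 𝓞 F`. `B = N`. Let `p > N`,
`φ` with `P.map φ` split, `𝔭 = ker φ`, `𝔓` a prime of `𝓞 F` above `𝔭` (lying over, `𝓞 F` is integral over
`𝓞 K`; maximal), `k = 𝓞 F / 𝔓`. `k` contains the image of `𝓞 K`, which is `𝓞 K / 𝔭 = 𝔽_p`, and the map `𝓞 K → k`
is `φ` followed by `𝔽_p → k`. The image of `α_i` in `k` is a root of the image of `P`, which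
splits in `𝔽_p`, so it is in `𝔽_p`. So the image of `A` is in `𝔽_p`, and as `N` is invertible in `𝔽_p` the image
of `𝓞 F` is in `𝔽_p`: `k = 𝔽_p`, and `𝓞 F → k = 𝔽_p` is the extension. -/
def StBE : Prop := ∀ (K F : Type) [Field K] [NumberField K] [Field F] [NumberField F] [Algebra K F]
  (P : (𝓞 K)[X]), P.Monic → IsSplittingField K F (P.map (algebraMap (𝓞 K) K)) →
  ∃ B : ℕ, ∀ (p : ℕ) [Fact p.Prime], B < p → ∀ φ : 𝓞 K →+* ZMod p, (P.map φ).Splits →
    ∃ ψ : 𝓞 F →+* ZMod p, ψ.comp (algebraMap (𝓞 K) (𝓞 F)) = φ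

/-- BT (transitivity). Proof. `ker ψ` and `ker ψ'` are primes of `𝓞 F` with the same intersection with
`𝓞 K`; the Galois group acts transitively on the primes above a prime (Mathlib:
`Algebra.IsInvariant.exists_smul_of_under_eq`, `IsGaloisGroup`, or
`Ideal.exists_map_eq_of_isGalois`), so `ker ψ' = σ⁻¹ (ker ψ)`, the kernel of `ψ ∘ σ`. Two ring homomorphisms to
`ZMod p` with the same kernel are equal (`ZMod.ringHom_eq_of_ker_eq`). -/
def StBT : Prop := ∀ (K F : Type) [Field K] [NumberField K] [Field F] [NumberField F] [Algebra K F]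
  [IsGalois K F] (p : ℕ) [Fact p.Prime] (ψ ψ' : 𝓞 F →+* ZMod p),
  ψ.comp (algebraMap (𝓞 K) (𝓞 F)) = ψ'.comp (algebraMap (𝓞 K) (𝓞 F)) →
  ∃ σ : F ≃ₐ[K] F, ∀ x y : 𝓞 F, (y : F) = σ (x : F) → ψ' x = ψ y

/-- BF (freeness). Proof. For `σ ≠ 1` choose `x ∈ 𝓞 F` with `σ x ≠ x` (`F` is the fraction field), `z = σ x - x ≠ 0`
in `𝓞 F`, and `B ≥ |N(z)|` (`Algebra.norm ℤ z`) for all the finitely many `σ`. If `ψ ∘ σ = ψ` then
`ψ(z) = 0`; `N(z)` is a multiple of `z` in `𝓞 F`, so `ψ(N(z)) = 0`, `p ∣ N(z)`, `p ≤ |N(z)| ≤ B`. -/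
def StBF : Prop := ∀ (K F : Type) [Field K] [NumberField K] [Field F] [NumberField F] [Algebra K F],
  ∃ B : ℕ, ∀ (p : ℕ) [Fact p.Prime], B < p → ∀ (ψ : 𝓞 F →+* ZMod p) (σ : F ≃ₐ[K] F),
    (∀ x y : 𝓞 F, (y : F) = σ (x : F) → ψ x = ψ y) → σ = 1

/-- BC (counting). Proof from BS, BE, BT, BF. The set of all ring homomorphisms `𝓞 F → 𝔽_p` is
finite (`𝓞 F` is a finitely generated `ℤ`-module). Restriction to `𝓞 K` maps it to the `φ` for which `P.map φ`
splits (BS), onto for `p > B` (BE). The fibre of `φ`: fix one `ψ`; `σ ↦ ψ ∘ σ` (the restriction of `σ` to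
`𝓞 F`) is a map of `Gal(F/K)` to the fibre, surjective by BT, injective by BF (apply BF to
`ψ ∘ τ` and `τ⁻¹ σ`). `#Gal(F/K) = [F : K]` (`IsGalois.card_aut_eq_finrank`; a splitting field
in characteristic `0` is Galois). -/
def StBC : Prop := ∀ (K F : Type) [Field K] [NumberField K] [Field F] [NumberField F] [Algebra K F]
  (P : (𝓞 K)[X]), P.Monic → IsSplittingField K F (P.map (algebraMap (𝓞 K) K)) →
  ∃ B : ℕ, ∀ (p : ℕ) [Fact p.Prime], B < p →
    Nat.card (𝓞 F →+* ZMod p) =
      finrank K F * Nat.card {φ : 𝓞 K →+* ZMod p // (P.map φ).Splits}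

/-- BL (comparison). Proof from StMer for `F` and `F'`: the sums of Mertens for `F'` and `a` times the one for `F`
differ in the finitely many terms `p ≤ B` only, so their quotient by `log x` has the same limit:
`1 = a`. -/
def StBL : Prop := StMer → ∀ (F F' : Type) [Field F] [NumberField F] [Field F'] [NumberField F']
  (a B : ℕ), (∀ (p : ℕ) [Fact p.Prime], B < p →
    Nat.card (𝓞 F' →+* ZMod p) = a * Nat.card (𝓞 F →+* ZMod p)) → a = 1

/-- BM (assembly). Proof from BC, BL, StMer. `F` = the splitting field of `P`, `F'` = the splitting field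
of `P * Q` over `K` (number fields: finite over `K`). `(P * Q).map φ` splits iff `P.map φ` and `Q.map φ` split, iff
`P.map φ` splits (`p > B`, hypothesis). So by BC `g_(F')(p) = [F' : K] S(p)`, `g_F(p) = [F : K] S(p)` with the same
`S(p)`. `F` embeds into `F'` over `K` (`P` splits in `F'`), so `[F' : K] = a [F : K]` with
`a = [F' : F]` (for the algebra structure of the embedding), `g_(F')(p) = a g_F(p)`, and `a = 1` by BL: the embedding
`F → F'` is an isomorphism, `Q` splits in `F'` (a divisor of `P * Q`), hence in `F`. -/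
def StBM : Prop := StMer → StBC → StBL → StBau

end Pool.Agent.Work.MP_8d13b5_lc.LG
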