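import Pool.Agent.Work.MP_8d13b5_lc.LG.Defs

/-!
# MP_8d13b5_lc, block LG, part K: Bauer implies Schinzel's theorem on powers, which implies the
# existence of killing primes (captain helper1)

`ev φ x` = the reduction of `x ∈ K` under `φ : 𝓞 K → 𝔽_p` (junk value `0` if `x` has a pole).
-/

set_option autoImplicit false

open Polynomial NumberField Module

namespace Pool.Agent.Work.MP_8d13b5_lc.LG

open Classical in
/-- the reduction of an element of `K` -/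
noncomputable def ev {K : Type} [Field K] {p : ℕ} (φ : 𝓞 K →+* ZMod p) (x : K) : ZMod p :=
  if h : ∃ z : 𝓞 K × 𝓞 K, φ z.2 ≠ 0 ∧ x * (z.2 : K) = (z.1 : K) then
    φ h.choose.1 * (φ h.choose.2)⁻¹ else 0

/-- modulo almost all primes of degree one `g` is a power of `γ` -/
def HS (K : Type) [Field K] (g γ : K) : Prop :=
  ∃ B : ℕ, ∀ (p : ℕ) [Fact p.Prime], B < p → ∀ φ : 𝓞 K →+* ZMod p, ∃ n : ℕ, ev φ g = ev φ γ ^ n

/-! ## E. Reduction modulo primes of degree one -/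

/-- [Ev1] EASY-MEDIUM.  (a) If `x b = a`, `x b' = a'` then `a b' = a' b`, so the value does not depend on the
choice.  (b) the integral norm `N(a) ≠ 0` is a multiple of `a` in `𝓞 K`; if `φ a = 0` then `p ∣ N(a)`,
`p ≤ |N(a)|`. -/
def StEv1 : Prop := ∀ (K : Type) [Field K] [NumberField K],
  (∀ (p : ℕ) [Fact p.Prime] (φ : 𝓞 K →+* ZMod p) (x : K) (a b : 𝓞 K), φ b ≠ 0 →
    x * (b : K) = (a : K) → ev φ x = φ a * (φ b)⁻¹) ∧
  ∀ a : 𝓞 K, a ≠ 0 → ∃ B : ℕ, ∀ (p : ℕ) [Fact p.Prime], B < p → ∀ φ : 𝓞 K →+* ZMod p, φ a ≠ 0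

/-- [Ev2] EASY-MEDIUM (hEv1 : StEv1).  `x_i = a_i / b_i` with `a_i, b_i ∈ 𝓞 K` nonzero, `B` from `StEv1` for
`∏ a_i b_i`: then all `φ a_i`, `φ b_i ≠ 0`, and the products `∏ x_i^(a_i)` have the obvious fractions
(`ev φ` is multiplicative on the elements `a / b` with `φ b ≠ 0`, and `ev φ (x⁻¹) = (ev φ x)⁻¹` if also
`φ a ≠ 0`).  Second part: `x = a / b`, `y = a' / b'`, `a b' - a' b ≠ 0`. -/
def StEv2 : Prop := ∀ (K : Type) [Field K] [NumberField K],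
  (∀ (ι : Type) [Fintype ι] (x : ι → K), (∀ i, x i ≠ 0) → ∃ B : ℕ, ∀ (p : ℕ) [Fact p.Prime],
    B < p → ∀ φ : 𝓞 K →+* ZMod p, (∀ i, ev φ (x i) ≠ 0) ∧
      ∀ k : ι → ℤ, ev φ (∏ i, x i ^ k i) = ∏ i, ev φ (x i) ^ k i) ∧
  ∀ x y : K, x ≠ y → ∃ B : ℕ, ∀ (p : ℕ) [Fact p.Prime], B < p → ∀ φ : 𝓞 K →+* ZMod p,
    ev φ x ≠ ev φ y

/-- [Inf] EASY-MEDIUM (hBau : StBau).  Otherwise (`B`) the hypothesis of `StBau` is empty for `P = 1`,
`Q = X^N - 2`, `N = [K : ℚ] + 1`, so `X^N - 2` splits in the splitting field of `1` over `K`, which is `K`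
(`algebraMap` bijective, degree `1`); but a root of `X^N - 2` has degree `N > [K : ℚ]` over `ℚ`
(Eisenstein). -/
def StInf : Prop := ∀ (K : Type) [Field K] [NumberField K] (B : ℕ),
  ∃ p : ℕ, B < p ∧ p.Prime ∧ Nonempty (𝓞 K →+* ZMod p)

/-- [Spl] EASY-MEDIUM.  Splitting of `X^m - c` modulo a large prime.  `X^m - 1` is separable modulo
`p > m`; it has `m` roots in `𝔽_p` iff `m ∣ p - 1` (cyclic group).  If `m ∣ p - 1`, `X^m - c` splits iff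
`c` is an `m`-th power (`X^m - t^m = ∏ (X - ζ t)`, `t = 0` included). -/
def StSpl : Prop := ∀ (p : ℕ) [Fact p.Prime] (m : ℕ), 1 ≤ m → m < p →
  ((X ^ m - 1 : (ZMod p)[X]).Splits ↔ m ∣ p - 1) ∧
  ∀ c : ZMod p, ((X ^ m - C c : (ZMod p)[X]).Splits → ∃ t, c = t ^ m) ∧
    (m ∣ p - 1 → (∃ t, c = t ^ m) → (X ^ m - C c : (ZMod p)[X]).Splits)

/-! ## F. Field theory -/

/-- [Kum] MEDIUM.  Let `L = K(ζ)`.  If `α ∈ L` then `F = L`, `β ∈ L`, `n = 0`.  Otherwise `X^l - γ` is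
irreducible over `L` (Mathlib: `X_pow_sub_C_irreducible_of_prime`; all its roots are `ζ^i α`), `F = L(α)`
is Galois over `L` of degree `l`, there is `σ ∈ Gal(F/L)` with `σ α = ζ α`, it has order `l`, so it
generates the group.  `(σ β)^l = β^l`, so `σ β = ζ^m β`, and `h = β α^(-m)` is fixed: `h ∈ L`,
`g = γ^m h^l`.  In all cases `g = γ^m h^l` with `h ∈ L`.  `r = [L : K]` is prime to `l`
(`≤ l - 1`: degree of a factor of `1 + X + .. + X^(l-1)`).  Norm: `g^r = γ^(m r) N(h)^l`; with `r r' = 1 + l t`: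
`g = γ^m (γ^(m t) N(h)^(r') g^(-t))^l`. -/
def StKum : Prop := ∀ (K F : Type) [Field K] [CharZero K] [Field F] [Algebra K F] (l : ℕ)
  (g γ : K) (ζ α β : F), l.Prime → g ≠ 0 → γ ≠ 0 → IsPrimitiveRoot ζ l →
  α ^ l = algebraMap K F γ → IntermediateField.adjoin K {ζ, α} = ⊤ → β ^ l = algebraMap K F g →
  ∃ (n : ℕ) (b : K), g = γ ^ n * b ^ l

/-- [Ab] MEDIUM.  For `s ∈ Gal(F/K)` let `w_s = s(β)/β`, `w_s^(l^b) = 1`.  With `E = max(b, v+1)` every `s`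
acts on the `l^E`-th roots of unity of `F` as a power `m_s ∈ ℤ`
(Mathlib: `rootsOfUnity.integer_power_of_ringEquiv`).  `s t = t s` gives `w_t^(m_s) w_s = w_s^(m_t) w_t`.
Since `ζ ∉ K` there is `s₀` with `s₀ ζ ≠ ζ`: `l^(v+1) ∤ k := m_(s₀) - 1`.  With `η = w_(s₀)`:
`t(β^k / η) = w_t^k β^k / η^(m_t) = η^(m_t - 1) β^k / η^(m_t) = β^k / η` for all `t`, so `β^k = η κ`,
`κ ∈ K`, `δ^k = κ^(l^b)`.  `gcd(k, l^b) = l^j` with `j ≤ v`; Bezout: `δ^(l^j)` is an `l^b`-th power in `K`, so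
`δ^(l^v)` too. -/
def StAb : Prop := ∀ (K F : Type) [Field K] [CharZero K] [Field F] [Algebra K F]
  [FiniteDimensional K F] [IsGalois K F] (l b v : ℕ) (δ : K) (β ζ : F), l.Prime → δ ≠ 0 →
  (∀ s t : F ≃ₐ[K] F, s * t = t * s) → β ^ (l ^ b) = algebraMap K F δ → ζ ^ (l ^ (v + 1)) = 1 →
  ζ ∉ (⊥ : IntermediateField K F) → ∃ κ : K, δ ^ (l ^ v) = κ ^ (l ^ b)

/-- [FinY] EASY.  `D y` is an algebraic integer with conjugates bounded by `D M`: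
`NumberField.Embeddings.finite_of_norm_le`. -/
def StFinY : Prop := ∀ (K : Type) [Field K] [NumberField K] (D : ℕ) (M : ℝ), 1 ≤ D →
  {y : K | IsIntegral ℤ ((D : K) * y) ∧ ∀ σ : K →+* ℂ, ‖σ y‖ ≤ M}.Finite

/-- [Div] EASY (hFinY : StFinY).  `D ≥ 1` with `D x` integral, `M = max(1, |σ x|)`.  If `y^N = x`, `N ≥ 1`, then
`(D y)^N = D^(N-1) (D x)` is integral and `|σ y| ≤ M`.  Finitely many `y`, so `y_b = y_(b')` for some
`b < b'` (`x = y_b^(l^b)`), `y^(l^b' - l^b) = 1`. -/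
def StDiv : Prop := ∀ (K : Type) [Field K] [NumberField K] (l : ℕ) (x : K), l.Prime → x ≠ 0 →
  (∀ b : ℕ, ∃ y : K, x = y ^ (l ^ b)) → ∃ n : ℕ, 1 ≤ n ∧ x ^ n = 1

/-- [Pig] EASY-MEDIUM (hFinY : StFinY).  Take `0 ≤ n_l < l` (change `b_l` by a power of `γ`).  `D ≥ 1` with
`D g`, `D γ⁻¹` integral: `(D^2 b_l)^l = D^(2l - 1 - n_l) (D g) (D γ⁻¹)^(n_l)` is integral;
`|σ b_l| ≤ max(1, |σ g|) max(1, |σ γ|⁻¹)`.  Finitely many `b`: `b_l = b_(l')` for two primes `l < l'`;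
`(g γ^(-n_l))^(l') = b^(l l') = (g γ^(-n_(l')))^l`, so `g^(l' - l)` is a power of `γ`. -/
def StPig : Prop := ∀ (K : Type) [Field K] [NumberField K] (g γ : K), g ≠ 0 → γ ≠ 0 →
  (∀ l : ℕ, l.Prime → ∃ (n : ℕ) (b : K), g = γ ^ n * b ^ l) →
  ∃ (S : ℕ) (m : ℤ), 1 ≤ S ∧ g ^ S = γ ^ m

/-- [AB] MEDIUM (hAb : StAb) (hDiv : StDiv).  Choose `v` such that `K` has no primitive `l^(v+1)`-th root of
unity (degree `φ(l^(v+1)) > [K : ℚ]`).  If the statement is false, for every `b` there are `e, F, ζ, β` with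
`β^(l^b) = δ`.  In an algebraic closure of `F` take a primitive root `ζ'` of order `l^e'`,
`e' = max(e, v+1)`, with `ζ ∈ K(ζ')`; `K(ζ')/K` is Galois with abelian group and contains `β` and a
primitive `l^(v+1)`-th root of unity, which is not in `K`.  `StAb`: `δ^(l^v) = κ^(l^b)`.  This for every `b`: by
`StDiv` `δ^(l^v)` is a root of unity. -/
def StAB : Prop := ∀ (K : Type) [Field K] [NumberField K] (l : ℕ) (δ : K), l.Prime → δ ≠ 0 →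
  (∀ n : ℕ, 1 ≤ n → δ ^ n ≠ 1) → ∃ b : ℕ, ∀ (e : ℕ) (F : Type) [Field F] [Algebra K F]
    (ζ β : F), IsPrimitiveRoot ζ (l ^ e) → β ∈ IntermediateField.adjoin K {ζ} →
    β ^ (l ^ b) ≠ algebraMap K F δ

/-- [D1] MEDIUM.  `L = K(ζ)`, `r = [F : L]`, `F = L(α)`.  The norm of `α` from `F` to `L` is a product of `r`
conjugates `ζ^i α`, so `α^r ∈ L`.  (Or: the minimal polynomial of `α` over `L` divides `X^(l^e) - γ`, its
constant coefficient is `± ζ^i α^r`.)  `gcd(r, l^e) = l^j`, `x r + y l^e = l^j`: `α^(l^j) ∈ L` (`γ ∈ K`),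
`(α^(l^j))^(l^(e-j)) = γ`; by hypothesis `e - j < b`, so `l^e ≤ l^b l^j ≤ l^b r`. -/
def StDg1 : Prop := ∀ (K : Type) [Field K] [NumberField K] (l b e : ℕ) (γ : K) (F : Type)
  [Field F] [Algebra K F] (ζ α : F), l.Prime → γ ≠ 0 → IsPrimitiveRoot ζ (l ^ e) →
  α ^ (l ^ e) = algebraMap K F γ → IntermediateField.adjoin K {ζ, α} = ⊤ →
  (∀ β ∈ IntermediateField.adjoin K {ζ}, β ^ (l ^ b) ≠ algebraMap K F γ) →
  l ^ e * finrank K (IntermediateField.adjoin K {ζ}) ≤ l ^ b * finrank K F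

/-- [D2] EASY-MEDIUM.  `[K(ζ) : ℚ] ≥ [ℚ(ζ) : ℚ] = φ(l^e) ≥ l^e / 2`, and
`[K(ζ) : ℚ] = [K : ℚ] [K(ζ) : K]`. -/
def StDg2 : Prop := ∀ (K : Type) [Field K] [NumberField K] (l e : ℕ) (F : Type)
  [Field F] [Algebra K F] (ζ : F), l.Prime → IsPrimitiveRoot ζ (l ^ e) →
  l ^ e ≤ 2 * finrank ℚ K * finrank K (IntermediateField.adjoin K {ζ})

/-- [D3] MEDIUM.  In `F'` the elements `ζ'^l`, `α'^l` are a primitive `l^e`-th root of unity and a root of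
`X^(l^e) - γ`, so `F₀ = K(ζ'^l, α'^l) ⊆ F'` is a splitting field of `(X^(l^e) - 1)(X^(l^e) - γ)` like `F`:
`F ≅ F₀` over `K` (`IsSplittingField.algEquiv`), so `F₀` contains a primitive `l^(e+1)`-th root of unity, hence
`ζ'`.  `F' = F₀(α')` with `α'^l ∈ F₀`: degree `≤ l`. -/
def StDg3 : Prop := ∀ (K : Type) [Field K] [NumberField K] (l e : ℕ) (γ : K)
  (F F' : Type) [Field F] [Algebra K F] [Field F'] [Algebra K F'] (ζ α ξ : F) (ζ' α' : F'),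
  l.Prime → γ ≠ 0 → IsPrimitiveRoot ζ (l ^ e) → α ^ (l ^ e) = algebraMap K F γ →
  IntermediateField.adjoin K {ζ, α} = ⊤ → IsPrimitiveRoot ξ (l ^ (e + 1)) →
  IsPrimitiveRoot ζ' (l ^ (e + 1)) → α' ^ (l ^ (e + 1)) = algebraMap K F' γ →
  IntermediateField.adjoin K {ζ', α'} = ⊤ → finrank K F' ≤ l * finrank K F

/-- [Dg] EASY-MEDIUM (hAB : StAB) (hD1 : StDg1) (hD2 : StDg2) (hD3 : StDg3).  If not, for every `e` there is a
field `F_e` with `ζ, α` and a primitive `l^(e+1)`-th root of unity.  By induction (`StDg3`) every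
`F` with `ζ, α` of level `e` has `[F : K] ≤ l^e` (level `0`: `F = K`).  By `StDg1` (`b` from `StAB`) and
`StDg2`: `l^e l^e ≤ 2 [K : ℚ] l^e [K(ζ) : K] ≤ 2 [K : ℚ] l^b l^e`, false for large `e`. -/
def StDg : Prop := ∀ (K : Type) [Field K] [NumberField K] (l : ℕ) (γ : K), l.Prime → γ ≠ 0 →
  (∀ n : ℕ, 1 ≤ n → γ ^ n ≠ 1) → ∃ e : ℕ, ∀ (F : Type) [Field F] [Algebra K F] (ζ α ξ : F),
    IsPrimitiveRoot ζ (l ^ e) → α ^ (l ^ e) = algebraMap K F γ →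
    IntermediateField.adjoin K {ζ, α} = ⊤ → ¬ IsPrimitiveRoot ξ (l ^ (e + 1))

/-! ## G. Schinzel's theorem -/

/-- [GenF] EASY-MEDIUM.  Generators of the splitting field.  `t : 𝓞 K` nonzero, `γ₁ = γ t^m`.  The roots of the
polynomial in `F = SplittingField` are the powers of a primitive `m`-th root of unity `ζ`
(`X^m - 1` splits, characteristic `0`) and the `ζ^i t α`, `α = (root of X^m - γ₁) / t`. -/
def StGenF : Prop := ∀ (K : Type) [Field K] [NumberField K] (m : ℕ) (γ : K) (γ₁ t : 𝓞 K),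
  1 ≤ m → γ ≠ 0 → t ≠ 0 → (γ₁ : K) = γ * (t : K) ^ m →
  ∃ ζ α : (((X ^ m - 1) * (X ^ m - C γ₁) : (𝓞 K)[X]).map (algebraMap (𝓞 K) K)).SplittingField,
    IsPrimitiveRoot ζ m ∧ α ^ m = algebraMap K _ γ ∧ IntermediateField.adjoin K {ζ, α} = ⊤

/-- [Pow] MEDIUM (hBau : StBau) (hEv1 : StEv1) (hEv2 : StEv2) (hSpl : StSpl) (hGenF : StGenF)
(hKum : StKum).  `g = a / b`, `γ = c / t` (`𝓞 K`), `g₁ = a b^(l-1) = g b^l`, `γ₁ = c t^(l-1) = γ t^l`.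
`StBau` with `P = (X^l - 1)(X^l - γ₁)`, `Q = X^l - g₁`: if `P` splits mod `φ` (`p` large), then `l ∣ p - 1` and
`φ(γ₁)` is an `l`-th power (`StSpl`), so `ev γ` is, `ev g = (ev γ)^n` is, `φ(g₁) = ev g * φ(b)^l` is, and `Q`
splits.  So `g₁` has an `l`-th root in `F`, so `g` has one; `StGenF`, `StKum`. -/
def StPow : Prop := ∀ (K : Type) [Field K] [NumberField K] (g γ : K), g ≠ 0 → γ ≠ 0 → HS K g γ →
  ∀ l : ℕ, l.Prime → ∃ (n : ℕ) (b : K), g = γ ^ n * b ^ l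

/-- [Or0] MEDIUM (hBau : StBau) (hEv1 : StEv1) (hEv2 : StEv2) (hSpl : StSpl) (hGenF : StGenF)
(hDg : StDg).  A prime with `l ∤ ord γ`.  `e` from `StDg`, `γ = c / t`, `γ₁ = c t^(l^e - 1)` (
`= γ t^(l^e)`, `l^e ≥ 1`), `P = (X^(l^e) - 1)(X^(l^e) - γ₁)`, `Q = X^(l^(e+1)) - 1`: `Q` does not split in the
splitting field of `P` (`StGenF`, `StDg`).  So by `StBau` there are large `p`, `φ` with `P^φ` split and `Q^φ` not:
`l^e ∣ p - 1`, `l^(e+1) ∤ p - 1`, `ev γ` an `l^e`-th power (`StSpl`): `(ev γ)^((p-1)/l^e) = 1`. -/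
def StOr0 : Prop := ∀ (K : Type) [Field K] [NumberField K] (l : ℕ) (γ : K), l.Prime → γ ≠ 0 →
  (∀ n : ℕ, 1 ≤ n → γ ^ n ≠ 1) → ∀ B : ℕ, ∃ (p : ℕ) (_ : Fact p.Prime) (φ : 𝓞 K →+* ZMod p),
    B < p ∧ ev φ γ ≠ 0 ∧ ¬ l ∣ orderOf (ev φ γ)

/-- [Or2] MEDIUM (hBau : StBau) (hEv1 : StEv1) (hEv2 : StEv2) (hSpl : StSpl) (hAB : StAB).  A prime with
`l^2 ∣ ord δ`.  `b` from `StAB`, `δ = c / t`, `δ₁ = δ t^(l^b)`, `P = X^(l^(b+1)) - 1`, `Q = X^(l^b) - δ₁`.  A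
root of `Q` in the splitting field of `P` (`= K(ζ)`) divided by `t` contradicts `StAB`.  So by `StBau` there are
large `p`, `φ` with `P^φ` split, `Q^φ` not: `l^(b+1) ∣ p - 1`, `x = ev δ` not an `l^b`-th power (`StSpl`), so
`x^((p-1)/l^b) ≠ 1` (cyclic group): with `l^k ∥ p - 1`, `k ≥ b + 1`: `v_l(ord x) ≥ k - b + 1 ≥ 2`. -/
def StOr2 : Prop := ∀ (K : Type) [Field K] [NumberField K] (l : ℕ) (δ : K), l.Prime → δ ≠ 0 →
  (∀ n : ℕ, 1 ≤ n → δ ^ n ≠ 1) → ∀ B : ℕ, ∃ (p : ℕ) (_ : Fact p.Prime) (φ : 𝓞 K →+* ZMod p),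
    B < p ∧ ev φ δ ≠ 0 ∧ l ^ 2 ∣ orderOf (ev φ δ)

/-- [Rou] EASY-MEDIUM (hEv2 : StEv2) (hInf : StInf).  `γ` a root of unity: `γ^N = 1`.  For large `p`, `φ`:
`ev g = (ev γ)^n = ev (γ^n)` with `n < N`; if `g ≠ γ^n` for all `n < N` this is false for large `p`
(`StEv2`), and there are large `p`, `φ` (`StInf`). -/
def StRou : Prop := ∀ (K : Type) [Field K] [NumberField K] (g γ : K),
  g ≠ 0 → γ ≠ 0 → HS K g γ → (∃ n : ℕ, 1 ≤ n ∧ γ ^ n = 1) → ∃ n : ℤ, g = γ ^ n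

/-- [Sch] MEDIUM (hEv2 : StEv2) (hPow : StPow) (hPig : StPig) (hOr0 : StOr0) (hOr2 : StOr2)
(hRou : StRou).  Let `γ` be no root of unity (else `StRou`).  `StPow`, `StPig`: take the least `S ≥ 1` with
`g^S = γ^m` for some `m`.  `S = 1`: done.  Otherwise `l ∣ S` prime, `g' = g^(S/l)`, `g'^l = γ^m`.
(a) `l ∣ m`: `ζ = g' γ^(-m/l)`, `ζ^l = 1`, `ζ ≠ 1` (minimality).  For large `p` and all `φ` `ev ζ ≠ 1` is a power
of `ev γ` (`StEv2`), of order `l`: `l ∣ ord (ev γ)`, contradiction to `StOr0`.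
(b) `l ∤ m`: `x l + y m = 1`, `δ = γ^x g'^y`: `δ^l = γ`, and `(g' δ^(-m))^l = 1`.  `δ` is no root of unity.
For large `p`, `φ`: `ev g' = (ev γ)^n = (ev δ)^(l n)`, so `(ev δ)^(l (l n - m)) = 1`, `l ∤ l n - m`: so
`l^2 ∤ ord (ev δ)`, contradiction to `StOr2`. -/
def StSchE : Prop := ∀ (K : Type) [Field K] [NumberField K] (g γ : K), g ≠ 0 → γ ≠ 0 → HS K g γ →
  ∃ n : ℤ, g = γ ^ n

/- [SchF] EASY: `theorem prSchF (hEv1 : StEv1) (hSchE : StSchE) : StSch`: the form with fractions,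
`g = a / b`, `γ = c / e`; for large `p` all four reductions are not `0`. -/

/-! ## H. Killing primes -/

/-- [One] EASY-MEDIUM (group theory).  `G` is a direct sum of cyclic groups with generators `x_i`
(Mathlib: `AddCommGroup.equiv_free_prod_directSum_zmod`).  `h (∑ x_i) = n ∑ x_i` and `h x_i ∈ ℤ x_i`, so
`h x_i = n x_i` for all `i`. -/
def StOne : Prop := ∀ (G : Type) [AddCommGroup G] [AddGroup.FG G] (h : G →+ G),
  (∀ x, ∃ n : ℤ, h x = n • x) → ∃ n : ℤ, ∀ x, h x = n • x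

/-- [Two] EASY-MEDIUM (hOne : StOne).  Let `A = {k : ι → ℤ | ∑ k_i = 0}`, `Γ` the group of the `∏ x_i^(k_i)`,
`k ∈ A` (finitely generated).  If `∏ x_i^(k_i) = 1` then `∏ y_i^(k_i) = 1`, so `∏ x^k ↦ ∏ y^k` is a homomorphism
`Γ → Γ` with `h x` a power of `x`; `StOne`: one `n` with `∏ y^k = (∏ x^k)^n`, in particular
`y_i / y_j = (x_i / x_j)^n`. -/
def StTwo : Prop := ∀ (K : Type) [Field K] (ι : Type) [Fintype ι] (x y : ι → K),
  (∀ i, x i ≠ 0) → (∀ i, y i ≠ 0) →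
  (∀ k : ι → ℤ, ∑ i, k i = 0 → ∃ n : ℤ, ∏ i, y i ^ k i = (∏ i, x i ^ k i) ^ n) →
  ∃ n : ℤ, ∀ i j, y i * x j ^ n = y j * x i ^ n

/-- [Gd] EASY-MEDIUM (hEv1 : StEv1).  `K ⊇ ℚ` a number field in which `f` splits, `λ_i ∈ 𝓞 K` its (different) roots.  For large
`p` and every `φ`: `f mod p = ∏ (X - φ(λ_i))`, the `φ(λ_i)` are different (`φ(λ_i - λ_j) ≠ 0`, `StEv1`), `p ∤ f(0)`.
So `Good f p`; and `Par f p C n` gives `φ(C(λ_i)) = μ φ(λ_i)^n`, `μ ≠ 0`. -/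
def StGd : Prop := ∀ (f C : ℤ[X]) (K : Type) [Field K] [NumberField K], f.Monic →
  (f.map (Int.castRingHom ℚ)).Separable → f.coeff 0 ≠ 0 → (f.map (Int.castRingHom K)).Splits →
  ∃ B : ℕ, ∀ (p : ℕ) [Fact p.Prime], B < p → ∀ φ : 𝓞 K →+* ZMod p, Good f p ∧
    ∀ n : ℕ, Par f p C n → ∃ μ : ZMod p, μ ≠ 0 ∧ ∀ a : 𝓞 K, eval₂ (Int.castRingHom (𝓞 K)) a f = 0 →
      φ (eval₂ (Int.castRingHom (𝓞 K)) a C) = μ * φ a ^ n ∧ φ a ≠ 0

/-- [Gal] EASY-MEDIUM.  `K` = the splitting field of `f` over `ℚ`.  If `C(λ) = μ λ^n` for all roots `λ`, `μ ≠ 0`: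
`σ(μ) = C(σ λ) (σ λ)^(-n) = μ` for all `σ ∈ Gal(K/ℚ)`, so `μ = b / a` is rational (`d ≥ 1`).  `n ≥ 0`: `a C - b X^n`
vanishes at all roots of the separable `f`, so `f` divides it over `ℚ`, and over `ℤ` (`f` monic):
`ParQ` with `j = 0`.  `n < 0`: `f ∣ a X^(-n) C - b`.  Degree `0`: `f = 1` divides everything. -/
def StGal : Prop := ∀ (f C : ℤ[X]), f.Monic → (f.map (Int.castRingHom ℚ)).Separable →
  f.coeff 0 ≠ 0 → ∀ (μ : (f.map (Int.castRingHom ℚ)).SplittingField) (n : ℤ), μ ≠ 0 →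
  (∀ a : (f.map (Int.castRingHom ℚ)).SplittingField, eval₂ (Int.castRingHom _) a f = 0 →
    eval₂ (Int.castRingHom _) a C = μ * a ^ n) → ParQ f C

/- [Kl] MEDIUM: `theorem prKl (hEv1 : StEv1) (hEv2 : StEv2) (hInf : StInf) (hSchE : StSchE)
(hTwo : StTwo) (hGd : StGd) (hGal : StGal) : StKil`.  Suppose that for some `B` every good `p > B` has an `n` with
`Par f p C n`.  `K` = the splitting field of `f` over `ℚ`, `ι` = its set of roots.  `StGd`: for large `p`, `φ`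
there are `n, μ` with `φ(C(λ)) = μ φ(λ)^n` for all roots.  So `C(λ) ≠ 0` (`StInf`), and for `∑ k_λ = 0`
`∏ ev(C(λ))^(k_λ) = (∏ ev(λ)^(k_λ))^n`, i.e. (`StEv2`) `HS K (∏ C(λ)^(k_λ)) (∏ λ^(k_λ))` (if
`n` is natural; it is).  `StSchE`, `StTwo`: `C(λ) = μ λ^n` with one `n ∈ ℤ`, `μ = C(λ₁) λ₁^(-n) ≠ 0`; `StGal`. -/

end Pool.Agent.Work.MP_8d13b5_lc.LG
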