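import Pool.Agent.Work.MP_8d13b5_lc.LG.Defs

/-!
# MP_8d13b5_lc, block LG, part K2: Schinzel's theorem implies the existence of killing primes
# (`StSch` implies `StKil`)

The docstrings are the complete proofs; the items are independent (earlier statements are
hypotheses).
-/

set_option autoImplicit false

open Polynomial Filter Topology NumberField Finset

namespace Pool.Agent.Work.MP_8d13b5_lc.LG

/-- `l` are the roots of `f`, different and not zero, in the ring of integers of `K` -/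
structure Spl (f : ℤ[X]) (K : Type) [Field K] [NumberField K] (d : ℕ) (l : Fin d → 𝓞 K) :
    Prop where
  inj : Function.Injective l
  prod : f.map (Int.castRingHom (𝓞 K)) = ∏ i, (X - Polynomial.C (l i))
  ne : ∀ i, l i ≠ 0

/-- KS. Splitting data exist. Proof. `K` = the splitting field of `f` over `ℚ`. `f` is separable over `ℚ`,
so it has `d = deg f` different roots in `K`; they are integral over `ℤ` (`f` monic), and
`f = ∏ (X - λ_i)` over `K`, hence over `𝓞 K` (`𝓞 K → K` is injective). `f(0) = ± ∏ λ_i ≠ 0`. -/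
def StKS : Prop := ∀ f : ℤ[X], f.Monic → (f.map (Int.castRingHom ℚ)).Separable → f.coeff 0 ≠ 0 →
  ∃ (K : Type) (_ : Field K) (_ : NumberField K) (d : ℕ) (l : Fin d → 𝓞 K), Spl f K d l

/-- KP. Large primes. Proof. Over `ℚ` one has `a f + b f' = 1`; multiply with a common denominator `N ≥ 1`:
`a' f + b' f' = N` over `ℤ`. `B = max(N, |f(0)|)`. For `p > B` and `φ : 𝓞 K → 𝔽_p`: `f mod p = ∏ (X - φ(l_i))`
(map `prod` by `φ`; `φ ∘ Int.castRingHom = Int.castRingHom`), so it splits, it is separable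
(`a' f + b' f' = N ≠ 0` mod `p`), `p ∤ f(0)`: `f` is good at `p`, and `φ(l_i) ≠ 0` because
`∏ φ(l_i) = ± f(0) ≠ 0` mod `p`. If `f` divides `G - μ X^n` modulo `p`, `μ ≠ 0`: evaluate at the root
`φ(l_i)`: `G(φ(l_i)) = μ φ(l_i)^n`, and `G(φ(l_i)) = φ(G(l_i))`. -/
def StKP : Prop := ∀ (f : ℤ[X]) (K : Type) [Field K] [NumberField K] (d : ℕ) (l : Fin d → 𝓞 K),
  f.Monic → (f.map (Int.castRingHom ℚ)).Separable → f.coeff 0 ≠ 0 → Spl f K d l →
  ∃ B : ℕ, ∀ p : ℕ, p.Prime → B < p → ∀ φ : 𝓞 K →+* ZMod p,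
    Good f p ∧ (∀ i, φ (l i) ≠ 0) ∧ ∀ (G : ℤ[X]) (n : ℕ), Par f p G n →
      ∃ μ : ZMod p, μ ≠ 0 ∧ ∀ i, φ (aeval (l i) G) = μ * φ (l i) ^ n

/-- KI. There are homomorphisms for infinitely many primes. Proof from StSch. Otherwise, for some `B`,
there is no `φ : 𝓞 K → 𝔽_p` with `p > B`, so the hypothesis of StSch holds (vacuously) for `a = 2`,
`b = c = e = 1`, and `2 = (1/1)^n` in `K`, false. -/
def StKI : Prop := ∀ (K : Type) [Field K] [NumberField K] (B : ℕ),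
  ∃ p : ℕ, p.Prime ∧ B < p ∧ Nonempty (𝓞 K →+* ZMod p)

/-- KC. Schinzel's theorem for all exponent vectors. Proof from StSch, KP, KI. `B` larger than the `B` of KP
and of the hypothesis. For `p > B` and `φ`: `f` is good at `p`, so `Par f p G n` for some `n`, and by KP
`φ(G(l_i)) = μ φ(l_i)^n ≠ 0` for all `i`. With one such `φ` (KI): `G(l_i) ≠ 0`. For a vector `a` with
sum `0` apply StSch to the elements `A = ∏ G(l_i)^(a_i⁺)`, `B' = ∏ G(l_i)^(a_i⁻)`, `c = ∏ l_i^(a_i⁺)`,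
`e = ∏ l_i^(a_i⁻)` of `𝓞 K` (`a⁺ = max(a,0)`, `a⁻ = max(-a,0)`, as natural numbers: `Int.toNat`), all
not zero: `φ(A) φ(e)^n = μ^(Σ a⁺) φ(c)^n φ(e)^n = μ^(Σ a⁻) φ(c)^n φ(e)^n = φ(B') φ(c)^n`, because
`Σ a⁺ = Σ a⁻`. And `A/B' = ∏ G(l_i)^(a_i)`, `c/e = ∏ l_i^(a_i)` in `K`. -/
def StKC : Prop := ∀ (f : ℤ[X]) (K : Type) [Field K] [NumberField K] (d : ℕ) (l : Fin d → 𝓞 K),
  f.Monic → (f.map (Int.castRingHom ℚ)).Separable → f.coeff 0 ≠ 0 → Spl f K d l →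
  ∀ G : ℤ[X], (∃ B : ℕ, ∀ p : ℕ, B < p → Good f p → ∃ n, Par f p G n) →
    (∀ i, aeval (l i) G ≠ 0) ∧ ∀ a : Fin d → ℤ, ∑ i, a i = 0 →
      ∃ n : ℤ, ∏ i, ((aeval (l i) G : 𝓞 K) : K) ^ a i = (∏ i, (l i : K) ^ a i) ^ n

/-- KG. Homomorphisms which preserve cyclic subgroups. Proof. For `a ∈ ℤ^r` put `u(a) = ∏ x_i^(a_i)`,
`v(a) = ∏ y_i^(a_i)`: homomorphisms from `ℤ^r` to `K^*` with `v(a) ∈ ⟨u(a)⟩`; in particular
(*) `u(a) = u(b)` implies `v(a) = v(b)` (`v(a - b) ∈ ⟨1⟩`).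
Case 1: all `u(a)` have finite order. The subgroup `u(ℤ^r)` of `K^*` is finitely generated, abelian and
torsion, so finite, so cyclic (a finite subgroup of the units of a field): generated by `u(a₀)`. Let
`v(a₀) = u(a₀)^n`. For every `a`: `u(a) = u(a₀)^k = u(k a₀)`, so `v(a) = v(k a₀) = u(a₀)^(n k) = u(a)^n`.
Case 2: `u(a₀)` has infinite order, `v(a₀) = u(a₀)^n`. Let first `u(a)` have infinite order,
`v(a) = u(a)^m`, `v(a + a₀) = u(a + a₀)^k`. Then `u(a)^(k-m) = u(a₀)^(n-k)`. If `k = m` then `n = k` (infinite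
order of `u(a₀)`), so `m = n`. If `k ≠ m`, with `s = k - m`, `t = n - k`: `u(s a) = u(t a₀)`, by (*)
`v(s a) = v(t a₀)`, so `u(a)^(m s) = u(a₀)^(n t) = u(a)^(n s)`, so `(m - n) s = 0`, `m = n`. If `u(a)` has
finite order then `u(a + a₀)` has infinite order, so `v(a + a₀) = u(a + a₀)^n` and `v(a) = u(a)^n`.
Take `a = e_i`. -/
def StKG : Prop := ∀ (K : Type) [Field K] (r : ℕ) (x y : Fin r → Kˣ),
  (∀ a : Fin r → ℤ, ∃ n : ℤ, ∏ i, y i ^ a i = (∏ i, x i ^ a i) ^ n) →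
  ∃ n : ℤ, ∀ i, y i = x i ^ n

/-- KE. Proof from KG. `d = 0`: `n = 0`, `μ = 1`. Otherwise fix `i₀` and apply KG to the units `x_i/x_(i₀)`,
`y_i/y_(i₀)`: for `a : Fin d → ℤ` with sum `s` one has `∏ (y_i/y_(i₀))^(a_i) = ∏ y_i^(b_i)` for
`b = a - s e_(i₀)`, of sum `0`, and the same for `x`. So `y_i/y_(i₀) = (x_i/x_(i₀))^n` for all `i`;
`μ = y_(i₀)/x_(i₀)^n`. -/
def StKE : Prop := ∀ (K : Type) [Field K] (d : ℕ) (x y : Fin d → K), (∀ i, x i ≠ 0) →
  (∀ i, y i ≠ 0) →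
  (∀ a : Fin d → ℤ, ∑ i, a i = 0 → ∃ n : ℤ, ∏ i, y i ^ a i = (∏ i, x i ^ a i) ^ n) →
  ∃ (n : ℤ) (μ : K), μ ≠ 0 ∧ ∀ i, y i = μ * x i ^ n

/-- KR. The end: a multiple over `ℚ`. Proof. `d = 0`: `f = 1` (its image in `(𝓞 K)[X]` is the empty
product), everything is divisible by `f`. Let `d ≥ 1`, `n = m - j` with natural `m`, `j`:
`G(l_i) l_i^j = μ l_i^m` for all `i`. Let `R₁ = (X^j G) %ₘ f`, `R₂ = X^m %ₘ f` in `ℤ[X]`, of degree
`< d = deg f`. `R₁ - μ R₂` in `K[X]` has the `d` different roots `l_i` and degree `< d`: it is `0`, so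
`R₁ = μ R₂` in `K[X]`. `R₂ ≠ 0`: otherwise `f` divides `X^m` and `l_0^m = 0`. Let `b'` be a nonzero
coefficient of `R₂`, `a'` the same coefficient of `R₁`: `a' = μ b'` in `K`, `a' ≠ 0`, and
`b' R₁ = a' R₂` in `K[X]`, so in `ℤ[X]`. So `f` divides `b' X^j G - a' X^m`. -/
def StKR : Prop := ∀ (f : ℤ[X]) (K : Type) [Field K] [NumberField K] (d : ℕ) (l : Fin d → 𝓞 K),
  f.Monic → Spl f K d l → ∀ (G : ℤ[X]) (n : ℤ) (μ : K), μ ≠ 0 →
    (∀ i, ((aeval (l i) G : 𝓞 K) : K) = μ * (l i : K) ^ n) → ParQ f G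

/-- KK. Proof of StKil from KS, KC, KE, KR. If not: for some `B` every good `p > B` has an `n` with
`Par f p C n`. `K`, `d`, `l` from KS; KC; KE for `x_i = l_i`, `y_i = C(l_i)` in `K` (not zero by `ne` and
KC); KR: `ParQ f C`, contradiction. -/
def StKK : Prop := StKS → StKC → StKE → StKR → StKil

/-- part K2 from its items -/
theorem kil_of (sch : StSch) (ks : StKS) (kp : StKP) (ki : StSch → StKI)
    (kc : StSch → StKP → StKI → StKC) (kg : StKG) (ke : StKG → StKE) (kr : StKR) (kk : StKK) :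
    StKil :=
  kk ks (kc sch kp (ki sch)) (ke kg) kr

end Pool.Agent.Work.MP_8d13b5_lc.LG
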