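import Pool.Agent.Work.MP_8d13b5_lc.LG.Defs

/-!
# MP_8d13b5_lc, block LG, part N: Mertens' theorem for number fields (primes of degree one)

The docstrings are the complete proofs; the items are independent (earlier statements may be
hypotheses of the theorems).  `A(x) = An K x` is the number of nonzero ideals of norm at most `x`,
`T(x) = Tn K x` the sum of the logarithms of their norms, `g(p) = Nat.card (𝓞 K →+* ZMod p)`.
-/

set_option autoImplicit false

open Polynomial Filter Topology NumberField Module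

namespace Pool.Agent.Work.MP_8d13b5_lc.LG

theorem fin_idl (K : Type) [Field K] [NumberField K] (x : ℝ) :
    {I : Ideal (𝓞 K) | I ≠ ⊥ ∧ (Ideal.absNorm I : ℝ) ≤ x}.Finite := by
  refine (Ideal.finite_setOfPred_absNorm_le (S := 𝓞 K) ⌊x⌋₊).subset ?_
  rintro I ⟨-, hI⟩
  exact Nat.le_floor hI

/-- the nonzero ideals of norm at most `x` -/
noncomputable def Idl (K : Type) [Field K] [NumberField K] (x : ℝ) : Finset (Ideal (𝓞 K)) :=
  (fin_idl K x).toFinset

theorem mem_Idl {K : Type} [Field K] [NumberField K] {x : ℝ} {I : Ideal (𝓞 K)} :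
    I ∈ Idl K x ↔ I ≠ ⊥ ∧ (Ideal.absNorm I : ℝ) ≤ x := by
  unfold Idl
  rw [Set.Finite.mem_toFinset]
  rfl

/-- the number of the nonzero ideals of norm at most `x` -/
noncomputable def An (K : Type) [Field K] [NumberField K] (x : ℝ) : ℝ := (Idl K x).card

/-- the sum of the logarithms of the norms of these ideals -/
noncomputable def Tn (K : Type) [Field K] [NumberField K] (x : ℝ) : ℝ :=
  ∑ I ∈ Idl K x, Real.log (Ideal.absNorm I)

/-- the primes up to `x` -/
noncomputable def pu (x : ℝ) : Finset ℕ := (Finset.Icc 1 ⌊x⌋₊).filter Nat.Prime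

/-- the number of ring homomorphisms `𝓞 K → 𝔽_p` -/
noncomputable def gn (K : Type) [Field K] [NumberField K] (p : ℕ) : ℕ :=
  Nat.card (𝓞 K →+* ZMod p)

/-- `Pr` is the set of the prime ideals which contain `p`, and `f` is their degree -/
structure Abv (K : Type) [Field K] [NumberField K] (p : ℕ) (Pr : Finset (Ideal (𝓞 K)))
    (f : Ideal (𝓞 K) → ℕ) : Prop where
  prime : ∀ P ∈ Pr, P.IsPrime ∧ P ≠ ⊥ ∧ 1 ≤ f P ∧ Ideal.absNorm P = p ^ f P
  all : ∀ P : Ideal (𝓞 K), P.IsPrime → P ≠ ⊥ → P ∉ Pr → ¬ p ∣ Ideal.absNorm P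
  deg : ∑ P ∈ Pr, f P ≤ finrank ℚ K

/-- NA (EASY). Proof. The limit is `NumberField.Ideal.tendsto_norm_le_div_atTop₀` (the cardinality of the subtype
there is `(Idl K x).card`; the limit is positive: regulator, class number, torsion order, discriminant).
Bound: `An K` is monotone, `An K x = 0` for `x < 1` (the norm of a nonzero ideal is at least `1`); there is
`x0 ≥ 1` with `An K x ≤ (κ + 1) x` for `x ≥ x0`, and for `1 ≤ x ≤ x0` we have
`An K x ≤ An K x0 ≤ An K x0 * x`. -/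
def StNA : Prop := ∀ (K : Type) [Field K] [NumberField K], ∃ κ C : ℝ, 0 < κ ∧ 0 < C ∧
  Tendsto (fun x : ℝ => An K x / x) atTop (𝓝 κ) ∧ ∀ x : ℝ, 0 ≤ x → An K x ≤ C * x

/-- NT (EASY-MEDIUM). Proof. `Tn K x ≤ An K x * log x` (`x ≥ 1`). For `0 < ε < 1` and `ε x ≥ 1` the ideals of
`Idl K x` which are not in `Idl K (ε x)` have norm `> ε x`, and all terms are `≥ 0`, so
`Tn K x ≥ (An K x - An K (ε x)) * log (ε x)`. Divide by `x log x`: the upper bound tends to `κ`, the lower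
one to `κ (1 - ε)` (`log (ε x) / log x → 1`, `An K (ε x) / x → ε κ`). -/
def StNT : Prop := ∀ (K : Type) [Field K] [NumberField K] (κ : ℝ), 0 < κ →
  Tendsto (fun x : ℝ => An K x / x) atTop (𝓝 κ) →
  Tendsto (fun x : ℝ => Tn K x / (x * Real.log x)) atTop (𝓝 κ)

/-- NL (EASY). Proof. For `I ∈ Idl K x` the norm `n` is between `1` and `⌊x⌋₊`, and
`log n = ∑_(p ∈ pu x) v_p(n) log p` (factorisation of `n`; the primes which do not divide `n` contribute `0`,
e.g. `Nat.factorization_prod_pow_eq_self`). Exchange the sums. -/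
def StNL : Prop := ∀ (K : Type) [Field K] [NumberField K] (x : ℝ),
  Tn K x = ∑ p ∈ pu x, Real.log p * ∑ I ∈ Idl K x, (padicValNat p (Ideal.absNorm I) : ℝ)

/-- NPa (MEDIUM). Proof. `Pr = IsDedekindDomain.primesOverFinset (span {p}) (𝓞 K)` (the primes over `pℤ`),
`f P` the inertia degree: `absNorm P = p ^ f P` (`Ideal.absNorm_eq_pow_inertiaDeg'` in
`NumberTheory/RamificationInertia/Inertia.lean`), `∑ e f = finrank ℚ K` with `e ≥ 1`
(`Ideal.sum_ramification_inertia`). If a prime `P ≠ ⊥` is not in `Pr`, then `p ∉ P`; if `p` divided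
`absNorm P`, which is a power of the rational prime `q` with `q ∈ P`, then `p = q ∈ P`. (Other way: `f P` from
`absNorm P = p ^ f`, and `∏ P ^ e = (p)` has the norm `p ^ finrank`.) -/
def StNPa : Prop := ∀ (K : Type) [Field K] [NumberField K] (p : ℕ), p.Prime →
  ∃ (Pr : Finset (Ideal (𝓞 K))) (f : Ideal (𝓞 K) → ℕ), Abv K p Pr f

/-- NPb (EASY-MEDIUM). Proof. A ring homomorphism `φ : 𝓞 K → 𝔽_p` is surjective, its kernel `P` is a maximal ideal with
`𝓞 K / P ≅ 𝔽_p`, so `absNorm P = p`, `P ≠ ⊥`, `P ∈ Pr` (`all`) and `f P = 1`. Conversely if `P ∈ Pr`, `f P = 1`, the ring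
`𝓞 K / P` has `p` elements, so it is isomorphic to `ZMod p`, and this gives `φ` with the kernel `P`. Two
homomorphisms with the same kernel are equal (`ZMod.ringHom_eq_of_ker_eq`). -/
def StNPb : Prop := ∀ (K : Type) [Field K] [NumberField K] (p : ℕ), p.Prime →
  ∀ (Pr : Finset (Ideal (𝓞 K))) (f : Ideal (𝓞 K) → ℕ), Abv K p Pr f →
    (Pr.filter (fun P => f P = 1)).card = gn K p

/-- Ngn (EASY). Proof from NPa, NPb: the number of `P ∈ Pr` with `f P = 1` is at most `∑ f P ≤ finrank ℚ K`. -/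
def StNgn : Prop := ∀ (K : Type) [Field K] [NumberField K] (p : ℕ), p.Prime → gn K p ≤ finrank ℚ K

open Classical in
/-- NVl (MEDIUM). Proof. Write `I` as a product of prime ideals; the norm is multiplicative. Both sides are
additive in `I` once the right side is written with the multiplicity: if `v` is the multiplicity of `P` in `I`, then
`P ^ k ∣ I` iff `k ≤ v`, and `2 ^ v ≤ absNorm (P ^ v) ≤ absNorm I < 2 ^ n`, so `v < n` and the set of the
`k ∈ [1, n]` with `P ^ k ∣ I` is `[1, v]`, of cardinality `v`. So the claim is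
`v_p(absNorm I) = ∑_(P ∈ Pr) f P * v_P(I)`: induction on `I` (`UniqueFactorizationMonoid.induction_on_prime`,
or the multiset `normalizedFactors I`): for a prime ideal `Q ≠ ⊥`, `v_p(absNorm Q) = f Q` if `Q ∈ Pr` (`prime`), and `0`
otherwise (`all`). -/
def StNVl : Prop := ∀ (K : Type) [Field K] [NumberField K] (p : ℕ), p.Prime →
  ∀ (Pr : Finset (Ideal (𝓞 K))) (f : Ideal (𝓞 K) → ℕ), Abv K p Pr f →
  ∀ I : Ideal (𝓞 K), I ≠ ⊥ → ∀ n : ℕ, Ideal.absNorm I < 2 ^ n →
    padicValNat p (Ideal.absNorm I) =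
      ∑ P ∈ Pr, f P * ((Finset.Icc 1 n).filter (fun k => P ^ k ∣ I)).card

open Classical in
/-- NCt (EASY-MEDIUM). Proof. `J ↦ Q * J` is a bijection of `Idl K (x / absNorm Q)` with the set of the
`I ∈ Idl K x` divisible by `Q` (`absNorm (Q * J) = absNorm Q * absNorm J`, `absNorm Q > 0`). -/
def StNCt : Prop := ∀ (K : Type) [Field K] [NumberField K] (Q : Ideal (𝓞 K)), Q ≠ ⊥ → ∀ x : ℝ,
  (((Idl K x).filter (fun I => Q ∣ I)).card : ℝ) = An K (x / Ideal.absNorm Q)

/-- NEx (MEDIUM). Proof from NA (constant `C`), NPa, NPb, NVl, NCt. Let `x < 2 ^ n`; then `n ≥ 1`. By NVl, exchanging sums,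
and NCt (`absNorm (P ^ k) = p ^ (f k)`),
`∑_I v_p(absNorm I) = ∑_P f P ∑_(k = 1)^n An K (x / p ^ (f P * k))`. The terms with `f P = 1`, `k = 1` give
`g(p) An K (x / p)` (NPb). All the others are `≤ C x / p ^ (f k)` with `f k ≥ 2`: for `f P = 1` their sum is at
most `C x ∑_(k ≥ 2) p ^ (-k) ≤ 2 C x / p ^ 2`, for `f = f P ≥ 2` it is at most
`f C x ∑_(k ≥ 1) p ^ (-f k) ≤ 2 f C x / p ^ 2`. Together at most `2 D C x / p ^ 2`, `D = finrank ℚ K`. -/
def StNEx : Prop := ∀ (K : Type) [Field K] [NumberField K], ∃ C : ℝ, 0 < C ∧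
  ∀ p : ℕ, p.Prime → ∀ x : ℝ, 1 ≤ x →
    |∑ I ∈ Idl K x, (padicValNat p (Ideal.absNorm I) : ℝ) - gn K p * An K (x / p)| ≤
      C * x / (p : ℝ) ^ 2

/-- NS (EASY). Proof. `log p ≤ 2 √p`, so the sum is at most `∑ 2 / n ^ (3/2)`, which converges. -/
def StNS : Prop := ∃ C : ℝ, 0 < C ∧ ∀ x : ℝ, ∑ p ∈ pu x, Real.log p / (p : ℝ) ^ 2 ≤ C

/-- NCh (EASY). Proof: `Chebyshev.theta_le_log4_mul_x`. -/
def StNCh : Prop := ∀ x : ℝ, 0 ≤ x → ∑ p ∈ pu x, Real.log p ≤ Real.log 4 * x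

/-- NAn (MEDIUM), the analytic lemma. Proof from NCh. Let `M(x) = ∑_(p ∈ pu x) w p * log p / p`. Let `0 < ε < κ / 2` and
`Q ≥ 1` such that `|A t / t - κ| ≤ ε` for `t ≥ Q`. Let `x ≥ Q` and split
`∑_(p ≤ x) w p * log p * A (x / p)` at `x / Q`. For `p ≤ x / Q` the term is between `(κ - ε) x` and `(κ + ε) x` times
`w p * log p / p`. The part `x / Q < p ≤ x` is between `0` and
`C ^ 2 x ∑ log p / p ≤ C ^ 2 x (Q / x) ∑_(p ≤ x) log p ≤ C ^ 2 Q log 4 * x`. In the same way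
`0 ≤ M(x) - M(x / Q) ≤ C Q log 4`. So with a constant `C'` (depending on `ε`)
`(κ - ε) x M(x) - C' x ≤ T x ≤ (κ + ε) x M(x) + C' x`. Divide by `x log x` and let `x → ∞`:
`limsup M(x) / log x ≤ κ / (κ - ε)`, `liminf M(x) / log x ≥ κ / (κ + ε)`; `ε → 0`. -/
def StNAn : Prop := ∀ (A T : ℝ → ℝ) (w : ℕ → ℝ) (κ C : ℝ), 0 < κ → 0 < C → (∀ x, 0 ≤ A x) →
  (∀ x, 0 ≤ x → A x ≤ C * x) → Tendsto (fun x => A x / x) atTop (𝓝 κ) →
  (∀ p : ℕ, p.Prime → 0 ≤ w p ∧ w p ≤ C) →
  Tendsto (fun x => T x / (x * Real.log x)) atTop (𝓝 κ) →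
  (∀ x, 1 ≤ x → |T x - ∑ p ∈ pu x, w p * Real.log p * A (x / p)| ≤ C * x) →
  Tendsto (fun x => (∑ p ∈ pu x, w p * Real.log p / p) / Real.log x) atTop (𝓝 1)

/-- NMr (EASY-MEDIUM), assembly. Proof of StMer from NA, NT, NL, NEx, Ngn, NS, NCh, NAn, applied to `A = An K`, `T = Tn K`,
`w p = gn K p`: by NL and NEx `|T x - ∑_p log p * g(p) * A(x / p)| ≤ ∑_p log p * C x / p ^ 2 ≤ C C' x` (NS); take the
largest of the constants. -/
def StNMr : Prop := StNA → StNT → StNL → StNEx → StNgn → StNS → StNCh → StNAn → StMer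

end Pool.Agent.Work.MP_8d13b5_lc.LG
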